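import Mathlib

/-!
# PROJECT TORI (helper917), task AREA: comparison of the areas of entire curves at bounded distance

`f : ℂ → ℂ^ι` entire and nowhere zero describes an entire curve in the projective space;
`eFS f z` is the square of its derivative in the Fubini-Study metric. If `f_0, …, f_K` are such curves,
`eFS (f_k) ≤ C` for all `k`, consecutive curves are at small distance at all points of the plane
(`‖f_k‖² ‖f_{k+1}‖² ≤ 2 |⟨f_k, f_{k+1}⟩|²`), `eFS (f_0) ≤ B` and `A ≤ eFS (f_K)`, then `A ≤ B`.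

## Paper proof

Notation: `⟨x, y⟩ = ip x y = ∑ x_i conj(y_i)`, `‖x‖² = nsq x`, `f' = dvt f`. Use polar coordinates
`z = r e^{iφ}`, and `avg F (r) = (1/2π) ∫_0^{2π} F(r e^{iφ}) dφ`. For a `C¹` function `F` on the plane (complex
valued) which we write with its Wirtinger derivatives `F_z`, `F_{\bar z}`:
`∂_r F = e^{iφ} F_z + e^{-iφ} F_{\bar z}`, `∂_φ F = i r (e^{iφ} F_z - e^{-iφ} F_{\bar z})`; `∫_0^{2π} ∂_φ F dφ = 0`.

**(1) One curve.** `α := ⟨f', f⟩/‖f‖²` (`= ∂_z log ‖f‖²`), `M_f(r) := avg (log ‖f‖²)(r)`. Then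
`∂_r log ‖f‖² = 2 Re(e^{iφ} α)` and `∂_φ log ‖f‖² = -2 r Im(e^{iφ} α)`; so (`r > 0`) `avg (e^{iφ} α)` is real and
`M_f'(r) = 2 avg(e^{iφ} α)`. Let `N(r) := r avg(e^{iφ} α) = avg(z α)`. Since `f` is holomorphic,
`(zα)_{\bar z} = z α_{\bar z} = z · eFS f` and therefore
`∂_r (z α) = (1/(i r)) ∂_φ(z α) + 2 e^{-iφ} (zα)_{\bar z} = (1/(ir)) ∂_φ(zα) + 2 r eFS f`,
`N'(r) = 2 r avg(eFS f)`, `N(0) = 0`. (Check `α_{\bar z} = eFS f`: `α = ⟨f', f⟩/⟨f, f⟩`, where `f` in the second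
slot contributes to `\bar z` only: `α_{\bar z} = ⟨f', f'⟩/‖f‖² - ⟨f', f⟩⟨f, f'⟩/‖f‖⁴`.)
So: if `eFS f ≤ B` everywhere then `N(r) ≤ B r²`, `M_f'(r) ≤ 2 B r`, `M_f(r) - M_f(0) ≤ B r²`; if `A ≤ eFS f`
everywhere then `M_f(r) - M_f(0) ≥ A r²`.

**(2) Two curves.** Let `f, g` be such that `‖f‖²‖g‖² ≤ 2|⟨f, g⟩|²` everywhere, `eFS f ≤ C`, `eFS g ≤ C`. The
function `h := ⟨f, g⟩` has no zeros, `h_z = ⟨f', g⟩`, `h_{\bar z} = ⟨f, g'⟩`.
`W(r) := ∫_0^{2π} (∂_φ h / h)(r e^{iφ}) dφ` vanishes: `W(0) = 0` (at `r = 0`, `∂_φ h = 0`), and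
`W'(r) = ∫ ∂_r(∂_φ h/h) dφ = ∫ ∂_φ(∂_r h/h) dφ = 0` (`h(r e^{iφ})` is smooth in `(r, φ)`, periodic in `φ`, without
zeros; `∂_r(∂_φ h/h) = ∂_φ(∂_r h/h)`). As `∂_φ h = i r (e^{iφ}⟨f', g⟩ - e^{-iφ}⟨f, g'⟩)`, for `r > 0`
`∫ (e^{iφ}⟨f', g⟩/h - e^{-iφ}⟨f, g'⟩/h) dφ = 0`. With (1), as `avg(e^{iφ} α_g)` is real, so equal to
`avg(e^{-iφ} conj α_g)`:
`(M_f' - M_g')/2 = avg(e^{iφ}(α_f - ⟨f', g⟩/h)) - avg(e^{-iφ}(conj α_g - ⟨f, g'⟩/h))`.
Bounds: write `f' = α_f f + v`, `⟨v, f⟩ = 0`, `‖v‖² = eFS f · ‖f‖²`; then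
`α_f - ⟨f', g⟩/h = -⟨v, g⟩/⟨f, g⟩`, which is at most `‖v‖‖g‖/|⟨f, g⟩| ≤ √2 ‖v‖/‖f‖ = √(2 eFS f) ≤ √(2C)` in
absolute value (Cauchy-Schwarz); in the same way `|conj α_g - ⟨f, g'⟩/h| ≤ √(2C)`. So
`|M_f' - M_g'| ≤ 4 √(2C)` and `|(M_f(r) - M_f(0)) - (M_g(r) - M_g(0))| ≤ 4 √(2C) r`.

**(3) Conclusion.** `A r² ≤ M_{f_K}(r) - M_{f_K}(0) ≤ M_{f_0}(r) - M_{f_0}(0) + 4 K √(2C) r ≤ B r² + 4K√(2C) r` for
all `r > 0`; divide by `r²` and let `r → ∞`. (`C ≥ 0` follows from `0 ≤ eFS f ≤ C`.)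

Hints: all functions are smooth in the real sense (polynomials in entire functions and their conjugates and
quotients with nonvanishing denominators); differentiation under the integral sign:
`intervalIntegral.hasDerivAt_integral_of_contDiffOn`, `hasDerivAt_integral_of_dominated_loc_of_deriv_le`,
`intervalIntegral.hasFDerivAt_integral_of_contDiff..`; one may work throughout with the explicit functions of
`(r, φ)` and treat `F_z`, `F_{\bar z}` as explicit expressions instead of Wirtinger derivatives.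
You may of course use another proof, e.g. with `circleAverage` of Mathlib.
-/

set_option autoImplicit false

namespace Pool.Agent.H917.G

variable {ι : Type} [Fintype ι]

/-- the hermitian product -/
noncomputable def ip (x y : ι → ℂ) : ℂ := ∑ i, x i * (starRingEnd ℂ) (y i)

/-- the square of the norm -/
noncomputable def nsq (x : ι → ℂ) : ℝ := ∑ i, ‖x i‖ ^ 2

/-- the derivative -/
noncomputable def dvt (f : ℂ → ι → ℂ) (z : ℂ) : ι → ℂ := fun i => deriv (fun w => f w i) z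

/-- the square of the derivative in the Fubini-Study metric -/
noncomputable def eFS (f : ℂ → ι → ℂ) (z : ℂ) : ℝ :=
  (nsq (f z) * nsq (dvt f z) - ‖ip (dvt f z) (f z)‖ ^ 2) / nsq (f z) ^ 2

namespace AREAaux

open Complex ComplexConjugate MeasureTheory Set Filter Topology

/-- differentiation under the integral sign, everything continuous -/
lemma diffInt {F G : ℝ → ℝ → ℂ} (hG : Continuous (fun p : ℝ × ℝ => G p.1 p.2))
    (hF : ∀ r φ, HasDerivAt (fun s => F s φ) (G r φ) r) (hFc : ∀ r, Continuous (F r)) (a b r : ℝ) :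
    HasDerivAt (fun s => ∫ φ in a..b, F s φ) (∫ φ in a..b, G r φ) r := by
  have hK : IsCompact (Icc (r - 1) (r + 1) ×ˢ uIcc a b) := isCompact_Icc.prod isCompact_uIcc
  obtain ⟨C, hC⟩ := hK.exists_bound_of_continuousOn hG.continuousOn
  refine (intervalIntegral.hasDerivAt_integral_of_dominated_loc_of_deriv_le (μ := volume)
    (s := Icc (r - 1) (r + 1))
    (F := F) (F' := G) (bound := fun _ => C) (Icc_mem_nhds (by linarith) (by linarith)) ?_ ?_ ?_ ?_
    ?_ ?_).2
  · exact Eventually.of_forall fun s => (hFc s).aestronglyMeasurable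
  · exact (hFc r).intervalIntegrable _ _
  · have : Continuous (G r) := hG.comp (Continuous.prodMk_right r)
    exact this.aestronglyMeasurable
  · refine Eventually.of_forall fun φ hφ s hs => ?_
    exact hC (s, φ) ⟨hs, uIoc_subset_uIcc hφ⟩
  · exact intervalIntegrable_const
  · exact Eventually.of_forall fun φ _ s _ => hF s φ

/-- Wirtinger derivatives, in the form of a chain rule along curves -/
def HW (F p q : ℂ → ℂ) : Prop := ∀ (c : ℝ → ℂ) (c' : ℂ) (t : ℝ), HasDerivAt c c' t →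
  HasDerivAt (fun s => F (c s)) (p (c t) * c' + q (c t) * conj c') t

lemma hasDerivAt_conj {c : ℝ → ℂ} {c' : ℂ} {t : ℝ} (h : HasDerivAt c c' t) :
    HasDerivAt (fun s => conj (c s)) (conj c') t := by
  have := (Complex.conjCLE : ℂ →L[ℝ] ℂ).hasFDerivAt.comp_hasDerivAt t h
  exact this

/-- the point of the unit circle -/
noncomputable def EE (φ : ℝ) : ℂ := Complex.exp ((φ : ℂ) * Complex.I)

lemma EE_cont : Continuous EE := by unfold EE; fun_prop

lemma EE_norm (φ : ℝ) : ‖EE φ‖ = 1 := Complex.norm_exp_ofReal_mul_I φ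

lemma EE_mul_conj (φ : ℝ) : EE φ * conj (EE φ) = 1 := by
  rw [Complex.mul_conj, Complex.normSq_eq_norm_sq, EE_norm]; simp

lemma EE_zero : EE 0 = 1 := by simp [EE]

lemma EE_two_pi : EE (2 * Real.pi) = 1 := by
  unfold EE
  have : ((2 * Real.pi : ℝ) : ℂ) * Complex.I = 2 * (Real.pi : ℂ) * Complex.I := by push_cast; ring
  rw [this, Complex.exp_two_pi_mul_I]

lemma hasDerivAt_EE (φ : ℝ) : HasDerivAt EE (Complex.I * EE φ) φ := by
  have h1 : HasDerivAt (fun t : ℝ => (t : ℂ) * Complex.I) (1 * Complex.I) φ :=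
    (Complex.ofRealCLM.hasDerivAt (x := φ)).mul_const Complex.I
  have h2 := h1.cexp
  rw [one_mul, mul_comm] at h2
  exact h2

lemma hasDerivAt_radial (r φ : ℝ) : HasDerivAt (fun s : ℝ => (s : ℂ) * EE φ) (EE φ) r := by
  have := (Complex.ofRealCLM.hasDerivAt (x := r)).mul_const (EE φ)
  simpa using this

lemma hasDerivAt_circ (r φ : ℝ) :
    HasDerivAt (fun s : ℝ => (r : ℂ) * EE s) ((r : ℂ) * (Complex.I * EE φ)) φ :=
  (hasDerivAt_EE φ).const_mul (r : ℂ)

/-- `(1/i) ∮ F dz` -/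
noncomputable def circ1 (F : ℂ → ℂ) (r : ℝ) : ℂ :=
  ∫ φ in (0 : ℝ)..(2 * Real.pi), (r : ℂ) * EE φ * F (r * EE φ)

/-- `i ∮ F dz̄` -/
noncomputable def circ2 (F : ℂ → ℂ) (r : ℝ) : ℂ :=
  ∫ φ in (0 : ℝ)..(2 * Real.pi), (r : ℂ) * conj (EE φ) * F (r * EE φ)

lemma circ1_zero (F : ℂ → ℂ) : circ1 F 0 = 0 := by simp [circ1]

lemma circ2_zero (F : ℂ → ℂ) : circ2 F 0 = 0 := by simp [circ2]

lemma green1 {F p q : ℂ → ℂ} (h : HW F p q) (hF : Continuous F) (hp : Continuous p)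
    (hq : Continuous q) (r : ℝ) :
    HasDerivAt (circ1 F) (2 * r * ∫ φ in (0 : ℝ)..(2 * Real.pi), q (r * EE φ)) r := by
  have hE := EE_cont
  have hEc : Continuous fun φ => conj (EE φ) := Complex.continuous_conj.comp hE
  let G : ℝ → ℝ → ℂ := fun r φ => EE φ * F (r * EE φ) +
    (r : ℂ) * EE φ * (p (r * EE φ) * EE φ + q (r * EE φ) * conj (EE φ))
  have hG : Continuous (fun p : ℝ × ℝ => G p.1 p.2) := by
    have e1 : Continuous (fun p : ℝ × ℝ => (p.1 : ℂ) * EE p.2) :=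
      (Complex.continuous_ofReal.comp continuous_fst).mul (hE.comp continuous_snd)
    have e2 : Continuous (fun p : ℝ × ℝ => EE p.2) := hE.comp continuous_snd
    have e3 : Continuous (fun p : ℝ × ℝ => conj (EE p.2)) := hEc.comp continuous_snd
    exact (e2.mul (hF.comp e1)).add (e1.mul (((hp.comp e1).mul e2).add ((hq.comp e1).mul e3)))
  have hd : ∀ r φ, HasDerivAt (fun s : ℝ => (s : ℂ) * EE φ * F (s * EE φ)) (G r φ) r := by
    intro r φ
    have h1 := hasDerivAt_radial r φ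
    exact h1.mul (h _ _ r h1)
  have hc : ∀ r : ℝ, Continuous (fun φ : ℝ => (r : ℂ) * EE φ * F (r * EE φ)) := by
    intro r
    have e1 : Continuous (fun φ : ℝ => (r : ℂ) * EE φ) := continuous_const.mul hE
    exact e1.mul (hF.comp e1)
  have key := diffInt (F := fun (s φ : ℝ) => (s : ℂ) * EE φ * F (s * EE φ)) hG hd hc 0
    (2 * Real.pi) r
  have heq : ∫ φ in (0 : ℝ)..(2 * Real.pi), G r φ =
      2 * r * ∫ φ in (0 : ℝ)..(2 * Real.pi), q (r * EE φ) := by
    let D : ℝ → ℂ := fun φ => Complex.I * EE φ * F (r * EE φ) +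
      EE φ * (p (r * EE φ) * ((r : ℂ) * (Complex.I * EE φ)) +
        q (r * EE φ) * conj ((r : ℂ) * (Complex.I * EE φ)))
    have e1 : Continuous (fun φ : ℝ => (r : ℂ) * EE φ) := continuous_const.mul hE
    have hDc : Continuous D := by
      have e2 : Continuous (fun φ : ℝ => (r : ℂ) * (Complex.I * EE φ)) :=
        continuous_const.mul (continuous_const.mul hE)
      exact ((continuous_const.mul hE).mul (hF.comp e1)).add (hE.mul
        (((hp.comp e1).mul e2).add ((hq.comp e1).mul (Complex.continuous_conj.comp e2))))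
    have hD : ∀ φ : ℝ, HasDerivAt (fun s : ℝ => EE s * F (r * EE s)) (D φ) φ := by
      intro φ
      exact (hasDerivAt_EE φ).mul (h _ _ φ (hasDerivAt_circ r φ))
    have hint : ∫ φ in (0 : ℝ)..(2 * Real.pi), D φ = 0 := by
      rw [intervalIntegral.integral_eq_sub_of_hasDerivAt (fun φ _ => hD φ)
        (hDc.intervalIntegrable _ _), EE_two_pi, EE_zero, sub_self]
    have hpt : ∀ φ, G r φ = -Complex.I * D φ + 2 * r * q (r * EE φ) := by
      intro φ
      have h1 := EE_mul_conj φ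
      have hI := Complex.I_mul_I
      simp only [G, D, map_mul, Complex.conj_ofReal, Complex.conj_I]
      linear_combination (EE φ * F (r * EE φ) + r * EE φ ^ 2 * p (r * EE φ) -
        r * (EE φ * conj (EE φ)) * q (r * EE φ)) * hI + (2 * r * q (r * EE φ)) * h1
    calc ∫ φ in (0 : ℝ)..(2 * Real.pi), G r φ
        = ∫ φ in (0 : ℝ)..(2 * Real.pi), (-Complex.I * D φ + 2 * r * q (r * EE φ)) := by
          exact intervalIntegral.integral_congr fun φ _ => hpt φ
      _ = (∫ φ in (0 : ℝ)..(2 * Real.pi), -Complex.I * D φ) +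
          ∫ φ in (0 : ℝ)..(2 * Real.pi), 2 * r * q (r * EE φ) := by
          apply intervalIntegral.integral_add
          · exact (continuous_const.mul hDc).intervalIntegrable _ _
          · exact (continuous_const.mul (hq.comp e1)).intervalIntegrable _ _
      _ = 2 * r * ∫ φ in (0 : ℝ)..(2 * Real.pi), q (r * EE φ) := by
          rw [intervalIntegral.integral_const_mul, intervalIntegral.integral_const_mul, hint,
            mul_zero, zero_add]
  rw [heq] at key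
  exact key

lemma HW.conj {F p q : ℂ → ℂ} (h : HW F p q) :
    HW (fun z => conj (F z)) (fun z => conj (q z)) (fun z => conj (p z)) := by
  intro c c' t hc
  have h1 := hasDerivAt_conj (h c c' t hc)
  have h2 : conj (p (c t) * c' + q (c t) * conj c') =
      conj (q (c t)) * c' + conj (p (c t)) * conj c' := by
    simp only [map_add, map_mul, Complex.conj_conj]; ring
  rw [h2] at h1
  exact h1

lemma intervalIntegral_conj (f : ℝ → ℂ) (a b : ℝ) :
    ∫ x in a..b, conj (f x) = conj (∫ x in a..b, f x) := by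
  rw [intervalIntegral, intervalIntegral, integral_conj, integral_conj, map_sub]

lemma circ2_eq (F : ℂ → ℂ) (r : ℝ) : circ2 F r = conj (circ1 (fun z => conj (F z)) r) := by
  unfold circ1 circ2
  rw [← intervalIntegral_conj]
  apply intervalIntegral.integral_congr
  intro φ _
  simp only [map_mul, Complex.conj_ofReal, Complex.conj_conj]

lemma green2 {F p q : ℂ → ℂ} (h : HW F p q) (hF : Continuous F) (hp : Continuous p)
    (hq : Continuous q) (r : ℝ) :
    HasDerivAt (circ2 F) (2 * r * ∫ φ in (0 : ℝ)..(2 * Real.pi), p (r * EE φ)) r := by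
  have h1 := green1 h.conj (Complex.continuous_conj.comp hF) (Complex.continuous_conj.comp hq)
    (Complex.continuous_conj.comp hp) r
  have h2 := hasDerivAt_conj h1
  have h3 : circ2 F = fun s => conj (circ1 (fun z => conj (F z)) s) := funext fun s => circ2_eq F s
  rw [h3]
  have h4 : conj (2 * (r : ℂ) * ∫ φ in (0 : ℝ)..(2 * Real.pi), conj (p (r * EE φ))) =
      2 * r * ∫ φ in (0 : ℝ)..(2 * Real.pi), p (r * EE φ) := by
    rw [intervalIntegral_conj, map_mul, map_mul, Complex.conj_ofReal, Complex.conj_conj,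
      map_ofNat]
  rw [← h4]
  exact h2

/-! ### vector valued entire functions -/

/-- all components entire -/
def Ent (u : ℂ → ι → ℂ) : Prop := ∀ i, Differentiable ℂ fun z => u z i

omit [Fintype ι] in
lemma Ent.dvt {u : ℂ → ι → ℂ} (hu : Ent u) : Ent (dvt u) := by
  intro i
  have h1 : ContDiff ℂ ⊤ (fun z => u z i) := (hu i).contDiff
  have h2 : DifferentiableOn ℂ (deriv fun z => u z i) univ :=
    (hu i).differentiableOn.deriv isOpen_univ
  exact differentiableOn_univ.1 h2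

lemma hw_ip {u v : ℂ → ι → ℂ} (hu : Ent u) (hv : Ent v) :
    HW (fun z => ip (u z) (v z)) (fun z => ip (Pool.Agent.H917.G.dvt u z) (v z))
      (fun z => ip (u z) (Pool.Agent.H917.G.dvt v z)) := by
  intro c c' t hc
  have hui : ∀ i, HasDerivAt (fun s => u (c s) i) (Pool.Agent.H917.G.dvt u (c t) i * c') t :=
    fun i => ((hu i) (c t)).hasDerivAt.comp t hc
  have hvi : ∀ i, HasDerivAt (fun s => v (c s) i) (Pool.Agent.H917.G.dvt v (c t) i * c') t :=
    fun i => ((hv i) (c t)).hasDerivAt.comp t hc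
  have h1 : HasDerivAt (fun s => ∑ i, u (c s) i * conj (v (c s) i))
      (∑ i, (Pool.Agent.H917.G.dvt u (c t) i * c' * conj (v (c t) i) +
        u (c t) i * conj (Pool.Agent.H917.G.dvt v (c t) i * c'))) t :=
    HasDerivAt.fun_sum fun i _ => (hui i).mul (hasDerivAt_conj (hvi i))
  have h2 : ∑ i, (Pool.Agent.H917.G.dvt u (c t) i * c' * conj (v (c t) i) +
        u (c t) i * conj (Pool.Agent.H917.G.dvt v (c t) i * c')) =
      ip (Pool.Agent.H917.G.dvt u (c t)) (v (c t)) * c' +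
        ip (u (c t)) (Pool.Agent.H917.G.dvt v (c t)) * conj c' := by
    unfold ip
    rw [Finset.sum_mul, Finset.sum_mul, ← Finset.sum_add_distrib]
    apply Finset.sum_congr rfl
    intro i _
    rw [map_mul]; ring
  rw [h2] at h1
  exact h1

lemma HW.div {F p q F' p' q' : ℂ → ℂ} (h : HW F p q) (h' : HW F' p' q') (hne : ∀ z, F' z ≠ 0) :
    HW (fun z => F z / F' z) (fun z => (p z * F' z - F z * p' z) / F' z ^ 2)
      (fun z => (q z * F' z - F z * q' z) / F' z ^ 2) := by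
  intro c c' t hc
  have h1 := (h c c' t hc).div (h' c c' t hc) (hne (c t))
  have h2 : ((p (c t) * c' + q (c t) * conj c') * F' (c t) -
      F (c t) * (p' (c t) * c' + q' (c t) * conj c')) / F' (c t) ^ 2 =
      (p (c t) * F' (c t) - F (c t) * p' (c t)) / F' (c t) ^ 2 * c' +
        (q (c t) * F' (c t) - F (c t) * q' (c t)) / F' (c t) ^ 2 * conj c' := by
    ring
  rw [h2] at h1
  exact h1

lemma ip_cont {u v : ℂ → ι → ℂ} (hu : Ent u) (hv : Ent v) :
    Continuous fun z => ip (u z) (v z) := by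
  unfold ip
  refine continuous_finsetSum _ fun i _ => ?_
  exact (hu i).continuous.mul (Complex.continuous_conj.comp (hv i).continuous)

lemma div_cont {F p F' p' : ℂ → ℂ} (hF : Continuous F) (hp : Continuous p) (hF' : Continuous F')
    (hp' : Continuous p') (hne : ∀ z, F' z ≠ 0) :
    Continuous fun z => (p z * F' z - F z * p' z) / F' z ^ 2 :=
  ((hp.mul hF').sub (hF.mul hp')).div (hF'.pow 2) fun z => pow_ne_zero _ (hne z)

/-! ### algebra -/

lemma ip_self (x : ι → ℂ) : ip x x = (nsq x : ℂ) := by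
  unfold ip nsq
  push_cast
  apply Finset.sum_congr rfl
  intro i _
  rw [Complex.mul_conj, Complex.normSq_eq_norm_sq]
  push_cast
  rfl

lemma ip_conj (x y : ι → ℂ) : conj (ip x y) = ip y x := by
  unfold ip
  rw [map_sum]
  apply Finset.sum_congr rfl
  intro i _
  rw [map_mul, Complex.conj_conj, mul_comm]

lemma nsq_nonneg (x : ι → ℂ) : 0 ≤ nsq x := Finset.sum_nonneg fun i _ => by positivity

lemma nsq_pos {x : ι → ℂ} (hx : x ≠ 0) : 0 < nsq x := by
  obtain ⟨i, hi⟩ := Function.ne_iff.1 hx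
  have h1 : 0 < ‖x i‖ ^ 2 := by
    have : 0 < ‖x i‖ := norm_pos_iff.2 hi
    positivity
  exact h1.trans_le (Finset.single_le_sum (f := fun i => ‖x i‖ ^ 2) (fun i _ => by positivity)
    (Finset.mem_univ i))

lemma cs (x y : ι → ℂ) : ‖ip x y‖ ^ 2 ≤ nsq x * nsq y := by
  have h1 : ‖ip x y‖ ≤ ∑ i, ‖x i‖ * ‖y i‖ := by
    unfold ip
    refine (norm_sum_le _ _).trans (le_of_eq ?_)
    apply Finset.sum_congr rfl
    intro i _
    rw [norm_mul, Complex.norm_conj]
  calc ‖ip x y‖ ^ 2 ≤ (∑ i, ‖x i‖ * ‖y i‖) ^ 2 := by gcongr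
    _ ≤ _ := Finset.sum_mul_sq_le_sq_mul_sq _ _ _

lemma ip_comb (a b : ℂ) (x y w : ι → ℂ) :
    ip (fun i => a * x i - b * y i) w = a * ip x w - b * ip y w := by
  unfold ip
  rw [Finset.mul_sum, Finset.mul_sum, ← Finset.sum_sub_distrib]
  apply Finset.sum_congr rfl
  intro i _
  ring

lemma norm_sq_ip (x y : ι → ℂ) : ((‖ip x y‖ ^ 2 : ℝ) : ℂ) = ip x y * ip y x := by
  rw [← ip_conj x y, Complex.mul_conj, Complex.normSq_eq_norm_sq]

/-- `‖⟨x', x⟩ x - ⟨x, x⟩ x'‖² = ‖x‖² (‖x‖² ‖x'‖² - |⟨x', x⟩|²)` -/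
lemma nsq_proj (x x' : ι → ℂ) :
    nsq (fun i => ip x' x * x i - ip x x * x' i) =
      nsq x * (nsq x * nsq x' - ‖ip x' x‖ ^ 2) := by
  apply Complex.ofReal_injective
  rw [← ip_self, ip_comb]
  have h1 : ∀ y : ι → ℂ, ip y (fun i => ip x' x * x i - ip x x * x' i) =
      ip x x' * ip y x - ip x x * ip y x' := by
    intro y
    rw [← ip_conj, ip_comb, map_sub, map_mul, map_mul, ip_conj, ip_conj, ip_conj, ip_conj]
  rw [h1, h1]
  push_cast
  have h2 : ((‖ip x' x‖ : ℂ)) ^ 2 = ip x' x * ip x x' := by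
    have := norm_sq_ip x' x
    push_cast at this
    exact this
  rw [h2, ← ip_self, ← ip_self]
  ring

/-- the main pointwise estimate -/
lemma pointwise {x x' y : ι → ℂ} {C : ℝ} (hx : x ≠ 0) (hy : y ≠ 0)
    (hC : (nsq x * nsq x' - ‖ip x' x‖ ^ 2) / nsq x ^ 2 ≤ C)
    (hxy : nsq x * nsq y ≤ 2 * ‖ip x y‖ ^ 2) :
    ‖ip x' x / ip x x - ip x' y / ip x y‖ ≤ Real.sqrt (2 * C) := by
  have hnx := nsq_pos hx
  have hny := nsq_pos hy
  have hip : 0 < ‖ip x y‖ ^ 2 := by nlinarith [mul_pos hnx hny]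
  have hne : ip x y ≠ 0 := by
    intro h0
    rw [h0] at hip
    simp at hip
  have hxx : ip x x ≠ 0 := by
    rw [ip_self]
    exact_mod_cast hnx.ne'
  have h1 : ip x' x / ip x x - ip x' y / ip x y =
      ip (fun i => ip x' x * x i - ip x x * x' i) y / (ip x x * ip x y) := by
    rw [ip_comb]
    field_simp
  have h2 := cs (fun i => ip x' x * x i - ip x x * x' i) y
  rw [nsq_proj] at h2
  apply Real.le_sqrt_of_sq_le
  rw [h1, norm_div, norm_mul, div_pow, mul_pow]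
  have h3 : ‖ip x x‖ = nsq x := by
    rw [ip_self, Complex.norm_real, Real.norm_of_nonneg hnx.le]
  rw [h3]
  have h4 : nsq x * nsq x' - ‖ip x' x‖ ^ 2 ≤ C * nsq x ^ 2 := by
    rwa [div_le_iff₀ (by positivity)] at hC
  have hC0 : 0 ≤ C := by
    have h5 : 0 ≤ nsq x * nsq x' - ‖ip x' x‖ ^ 2 := by
      have := cs x' x
      linarith [mul_comm (nsq x) (nsq x')]
    by_contra hneg
    have : C * nsq x ^ 2 < 0 := mul_neg_of_neg_of_pos (not_le.1 hneg) (by positivity)
    linarith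
  rw [div_le_iff₀ (by positivity)]
  calc ‖ip (fun i => ip x' x * x i - ip x x * x' i) y‖ ^ 2
      ≤ nsq x * (nsq x * nsq x' - ‖ip x' x‖ ^ 2) * nsq y := h2
    _ ≤ nsq x * (C * nsq x ^ 2) * nsq y := by gcongr
    _ = C * nsq x ^ 2 * (nsq x * nsq y) := by ring
    _ ≤ C * nsq x ^ 2 * (2 * ‖ip x y‖ ^ 2) := by gcongr
    _ = 2 * C * (nsq x ^ 2 * ‖ip x y‖ ^ 2) := by ring

/-! ### the functions -/

/-- `⟨u', v⟩ / ⟨u, v⟩` -/
noncomputable def aa (u v : ℂ → ι → ℂ) (z : ℂ) : ℂ := ip (dvt u z) (v z) / ip (u z) (v z)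

/-- `⟨u, v'⟩ / ⟨u, v⟩` -/
noncomputable def bb (u v : ℂ → ι → ℂ) (z : ℂ) : ℂ := ip (u z) (dvt v z) / ip (u z) (v z)

/-- the common mixed derivative -/
noncomputable def mm (u v : ℂ → ι → ℂ) (z : ℂ) : ℂ :=
  (ip (dvt u z) (dvt v z) * ip (u z) (v z) - ip (dvt u z) (v z) * ip (u z) (dvt v z)) /
    ip (u z) (v z) ^ 2

lemma hw_aa {u v : ℂ → ι → ℂ} (hu : Ent u) (hv : Ent v) (hne : ∀ z, ip (u z) (v z) ≠ 0) :
    HW (aa u v) (fun z => (ip (dvt (dvt u) z) (v z) * ip (u z) (v z) -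
      ip (dvt u z) (v z) * ip (dvt u z) (v z)) / ip (u z) (v z) ^ 2) (mm u v) :=
  HW.div (hw_ip hu.dvt hv) (hw_ip hu hv) hne

lemma hw_bb {u v : ℂ → ι → ℂ} (hu : Ent u) (hv : Ent v) (hne : ∀ z, ip (u z) (v z) ≠ 0) :
    HW (bb u v) (mm u v) (fun z => (ip (u z) (dvt (dvt v) z) * ip (u z) (v z) -
      ip (u z) (dvt v z) * ip (u z) (dvt v z)) / ip (u z) (v z) ^ 2) := by
  have h := HW.div (hw_ip hu hv.dvt) (hw_ip hu hv) hne
  have e : mm u v = (fun z => (ip (dvt u z) (dvt v z) * ip (u z) (v z) -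
      ip (u z) (dvt v z) * ip (dvt u z) (v z)) / ip (u z) (v z) ^ 2) := by
    funext z
    unfold mm
    rw [mul_comm (ip (u z) (dvt v z)) (ip (dvt u z) (v z))]
  rw [e]
  exact h

lemma mm_cont {u v : ℂ → ι → ℂ} (hu : Ent u) (hv : Ent v) (hne : ∀ z, ip (u z) (v z) ≠ 0) :
    Continuous (mm u v) :=
  div_cont (ip_cont hu.dvt hv) (ip_cont hu.dvt hv.dvt) (ip_cont hu hv) (ip_cont hu hv.dvt) hne

lemma aa_cont {u v : ℂ → ι → ℂ} (hu : Ent u) (hv : Ent v) (hne : ∀ z, ip (u z) (v z) ≠ 0) :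
    Continuous (aa u v) := (ip_cont hu.dvt hv).div (ip_cont hu hv) hne

lemma bb_cont {u v : ℂ → ι → ℂ} (hu : Ent u) (hv : Ent v) (hne : ∀ z, ip (u z) (v z) ≠ 0) :
    Continuous (bb u v) := (ip_cont hu hv.dvt).div (ip_cont hu hv) hne

lemma deriv_aa {u v : ℂ → ι → ℂ} (hu : Ent u) (hv : Ent v) (hne : ∀ z, ip (u z) (v z) ≠ 0)
    (r : ℝ) : HasDerivAt (circ1 (aa u v))
      (2 * r * ∫ φ in (0 : ℝ)..(2 * Real.pi), mm u v (r * EE φ)) r :=
  green1 (hw_aa hu hv hne) (aa_cont hu hv hne)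
    (div_cont (ip_cont hu.dvt hv) (ip_cont hu.dvt.dvt hv) (ip_cont hu hv) (ip_cont hu.dvt hv) hne)
    (mm_cont hu hv hne) r

lemma deriv_bb {u v : ℂ → ι → ℂ} (hu : Ent u) (hv : Ent v) (hne : ∀ z, ip (u z) (v z) ≠ 0)
    (r : ℝ) : HasDerivAt (circ2 (bb u v))
      (2 * r * ∫ φ in (0 : ℝ)..(2 * Real.pi), mm u v (r * EE φ)) r :=
  green2 (hw_bb hu hv hne) (bb_cont hu hv hne) (mm_cont hu hv hne)
    (div_cont (ip_cont hu hv.dvt) (ip_cont hu hv.dvt.dvt) (ip_cont hu hv) (ip_cont hu hv.dvt) hne) r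

/-- winding number zero -/
lemma wind {u v : ℂ → ι → ℂ} (hu : Ent u) (hv : Ent v) (hne : ∀ z, ip (u z) (v z) ≠ 0)
    (r : ℝ) : circ1 (aa u v) r = circ2 (bb u v) r := by
  have h1 : ∀ s, HasDerivAt (fun s => circ1 (aa u v) s - circ2 (bb u v) s) 0 s := by
    intro s
    have := (deriv_aa hu hv hne s).sub (deriv_bb hu hv hne s)
    rwa [sub_self] at this
  have h2 := is_const_of_deriv_eq_zero (f := fun s => circ1 (aa u v) s - circ2 (bb u v) s)
    (fun s => (h1 s).differentiableAt) (fun s => (h1 s).deriv) r 0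
  simp only [circ1_zero, circ2_zero, sub_zero] at h2
  exact sub_eq_zero.1 h2

/-- the area function -/
noncomputable def NN (u : ℂ → ι → ℂ) (r : ℝ) : ℝ := (circ1 (aa u u) r).re

lemma ip_self_ne {x : ι → ℂ} (hx : x ≠ 0) : ip x x ≠ 0 := by
  rw [ip_self]
  exact_mod_cast (nsq_pos hx).ne'

lemma mm_self {u : ℂ → ι → ℂ} (hn : ∀ z, u z ≠ 0) (z : ℂ) : mm u u z = (eFS u z : ℂ) := by
  unfold mm eFS
  push_cast
  have h1 := norm_sq_ip (dvt u z) (u z)
  push_cast at h1
  rw [h1, ← ip_self, ← ip_self]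
  congr 1
  ring

lemma eFS_cont {u : ℂ → ι → ℂ} (hu : Ent u) (hn : ∀ z, u z ≠ 0) : Continuous (eFS u) := by
  have h1 := mm_cont hu hu (fun z => ip_self_ne (hn z))
  have h2 : eFS u = fun z => (mm u u z).re := by
    funext z
    rw [mm_self hn, Complex.ofReal_re]
  rw [h2]
  exact Complex.continuous_re.comp h1

lemma deriv_NN {u : ℂ → ι → ℂ} (hu : Ent u) (hn : ∀ z, u z ≠ 0) (r : ℝ) :
    HasDerivAt (NN u) (2 * r * ∫ φ in (0 : ℝ)..(2 * Real.pi), eFS u (r * EE φ)) r := by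
  have h1 := deriv_aa hu hu (fun z => ip_self_ne (hn z)) r
  have h2 := (Complex.reCLM.hasFDerivAt.comp_hasDerivAt r h1)
  have h3 : Complex.reCLM (2 * r * ∫ φ in (0 : ℝ)..(2 * Real.pi), mm u u (r * EE φ)) =
      2 * r * ∫ φ in (0 : ℝ)..(2 * Real.pi), eFS u (r * EE φ) := by
    have : ∫ φ in (0 : ℝ)..(2 * Real.pi), mm u u (r * EE φ) =
        ((∫ φ in (0 : ℝ)..(2 * Real.pi), eFS u (r * EE φ) : ℝ) : ℂ) := by
      rw [← intervalIntegral.integral_ofReal]
      exact intervalIntegral.integral_congr fun φ _ => mm_self hn _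
    rw [this, Complex.reCLM_apply]
    rw [show (2 * (r : ℂ) * ((∫ φ in (0 : ℝ)..(2 * Real.pi), eFS u (r * EE φ) : ℝ) : ℂ)) =
      ((2 * r * ∫ φ in (0 : ℝ)..(2 * Real.pi), eFS u (r * EE φ) : ℝ) : ℂ) by push_cast; ring,
      Complex.ofReal_re]
  rw [h3] at h2
  exact h2

lemma NN_zero (u : ℂ → ι → ℂ) : NN u 0 = 0 := by simp [NN, circ1_zero]

lemma eFS_circ_cont {u : ℂ → ι → ℂ} (hu : Ent u) (hn : ∀ z, u z ≠ 0) (r : ℝ) :
    Continuous fun φ : ℝ => eFS u (r * EE φ) :=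
  (eFS_cont hu hn).comp (continuous_const.mul EE_cont)

lemma NN_le {u : ℂ → ι → ℂ} (hu : Ent u) (hn : ∀ z, u z ≠ 0) {B : ℝ} (hB : ∀ z, eFS u z ≤ B)
    {r : ℝ} (hr : 0 ≤ r) : NN u r ≤ 2 * Real.pi * B * r ^ 2 := by
  have hd : ∀ s : ℝ, HasDerivAt (fun s : ℝ => 2 * Real.pi * B * s ^ 2 - NN u s)
      (2 * Real.pi * B * (2 * s) -
        2 * s * ∫ φ in (0 : ℝ)..(2 * Real.pi), eFS u (s * EE φ)) s := by
    intro s
    have h1 : HasDerivAt (fun s : ℝ => 2 * Real.pi * B * s ^ 2) (2 * Real.pi * B * (2 * s)) s := by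
      have := (hasDerivAt_pow 2 s).const_mul (2 * Real.pi * B)
      simpa using this
    exact h1.sub (deriv_NN hu hn s)
  have hmono : MonotoneOn (fun s : ℝ => 2 * Real.pi * B * s ^ 2 - NN u s) (Ici 0) := by
    apply monotoneOn_of_deriv_nonneg (convex_Ici 0)
    · exact fun s _ => (hd s).continuousAt.continuousWithinAt
    · exact fun s _ => (hd s).differentiableAt.differentiableWithinAt
    · intro s hs
      rw [interior_Ici, mem_Ioi] at hs
      rw [(hd s).deriv]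
      have h1 : ∫ φ in (0 : ℝ)..(2 * Real.pi), eFS u (s * EE φ) ≤ 2 * Real.pi * B := by
        calc ∫ φ in (0 : ℝ)..(2 * Real.pi), eFS u (s * EE φ)
            ≤ ∫ φ in (0 : ℝ)..(2 * Real.pi), B := by
              apply intervalIntegral.integral_mono_on (by positivity)
              · exact (eFS_circ_cont hu hn s).intervalIntegrable _ _
              · exact intervalIntegrable_const
              · exact fun φ _ => hB _
          _ = 2 * Real.pi * B := by
              rw [intervalIntegral.integral_const, smul_eq_mul]; ring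
      nlinarith
  have := hmono (self_mem_Ici) (mem_Ici.2 hr) hr
  simp only [NN_zero] at this
  nlinarith

lemma le_NN {u : ℂ → ι → ℂ} (hu : Ent u) (hn : ∀ z, u z ≠ 0) {A : ℝ} (hA : ∀ z, A ≤ eFS u z)
    {r : ℝ} (hr : 0 ≤ r) : 2 * Real.pi * A * r ^ 2 ≤ NN u r := by
  have hd : ∀ s : ℝ, HasDerivAt (fun s : ℝ => NN u s - 2 * Real.pi * A * s ^ 2)
      (2 * s * (∫ φ in (0 : ℝ)..(2 * Real.pi), eFS u (s * EE φ)) -
        2 * Real.pi * A * (2 * s)) s := by
    intro s
    have h1 : HasDerivAt (fun s : ℝ => 2 * Real.pi * A * s ^ 2) (2 * Real.pi * A * (2 * s)) s := by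
      have := (hasDerivAt_pow 2 s).const_mul (2 * Real.pi * A)
      simpa using this
    exact (deriv_NN hu hn s).sub h1
  have hmono : MonotoneOn (fun s : ℝ => NN u s - 2 * Real.pi * A * s ^ 2) (Ici 0) := by
    apply monotoneOn_of_deriv_nonneg (convex_Ici 0)
    · exact fun s _ => (hd s).continuousAt.continuousWithinAt
    · exact fun s _ => (hd s).differentiableAt.differentiableWithinAt
    · intro s hs
      rw [interior_Ici, mem_Ioi] at hs
      rw [(hd s).deriv]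
      have h1 : 2 * Real.pi * A ≤ ∫ φ in (0 : ℝ)..(2 * Real.pi), eFS u (s * EE φ) := by
        calc 2 * Real.pi * A = ∫ φ in (0 : ℝ)..(2 * Real.pi), A := by
              rw [intervalIntegral.integral_const, smul_eq_mul]; ring
          _ ≤ ∫ φ in (0 : ℝ)..(2 * Real.pi), eFS u (s * EE φ) := by
              apply intervalIntegral.integral_mono_on (by positivity)
              · exact intervalIntegrable_const
              · exact (eFS_circ_cont hu hn s).intervalIntegrable _ _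
              · exact fun φ _ => hA _
      nlinarith
  have := hmono (self_mem_Ici) (mem_Ici.2 hr) hr
  simp only [NN_zero] at this
  nlinarith

lemma conj_aa (u v : ℂ → ι → ℂ) (z : ℂ) : conj (aa u v z) = bb v u z := by
  unfold aa bb
  rw [map_div₀, ip_conj, ip_conj]

lemma norm_circ1_sub {F G : ℂ → ℂ} (hF : Continuous F) (hG : Continuous G) {D : ℝ}
    (h : ∀ z, ‖F z - G z‖ ≤ D) {r : ℝ} (hr : 0 ≤ r) :
    ‖circ1 F r - circ1 G r‖ ≤ 2 * Real.pi * (r * D) := by
  have e1 : Continuous (fun φ : ℝ => (r : ℂ) * EE φ) := continuous_const.mul EE_cont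
  have h1 : circ1 F r - circ1 G r =
      ∫ φ in (0 : ℝ)..(2 * Real.pi), (r : ℂ) * EE φ * (F (r * EE φ) - G (r * EE φ)) := by
    unfold circ1
    rw [← intervalIntegral.integral_sub]
    · apply intervalIntegral.integral_congr
      intro φ _
      simp only
      ring
    · exact (e1.mul (hF.comp e1)).intervalIntegrable _ _
    · exact (e1.mul (hG.comp e1)).intervalIntegrable _ _
  rw [h1]
  have h2 := intervalIntegral.norm_integral_le_of_norm_le_const (a := 0) (b := 2 * Real.pi)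
    (C := r * D) (f := fun φ : ℝ => (r : ℂ) * EE φ * (F (r * EE φ) - G (r * EE φ))) (by
      intro φ _
      rw [norm_mul, norm_mul, EE_norm, mul_one, Complex.norm_real, Real.norm_of_nonneg hr]
      exact mul_le_mul_of_nonneg_left (h _) hr)
  refine h2.trans (le_of_eq ?_)
  rw [sub_zero, abs_of_pos Real.two_pi_pos]
  ring

/-- the comparison of two curves -/
lemma compare {u v : ℂ → ι → ℂ} (hu : Ent u) (hv : Ent v) (hnu : ∀ z, u z ≠ 0)
    (hnv : ∀ z, v z ≠ 0) {C : ℝ} (hCu : ∀ z, eFS u z ≤ C) (hCv : ∀ z, eFS v z ≤ C)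
    (hc : ∀ z, nsq (u z) * nsq (v z) ≤ 2 * ‖ip (u z) (v z)‖ ^ 2) {r : ℝ} (hr : 0 ≤ r) :
    NN v r - NN u r ≤ 2 * (2 * Real.pi * (r * Real.sqrt (2 * C))) := by
  have hne : ∀ z, ip (u z) (v z) ≠ 0 := by
    intro z h0
    have h1 := hc z
    rw [h0, norm_zero] at h1
    have := mul_pos (nsq_pos (hnu z)) (nsq_pos (hnv z))
    norm_num at h1
    linarith
  have hc' : ∀ z, nsq (v z) * nsq (u z) ≤ 2 * ‖ip (v z) (u z)‖ ^ 2 := by
    intro z
    rw [mul_comm, ← ip_conj, Complex.norm_conj]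
    exact hc z
  have hne' : ∀ z, ip (v z) (u z) ≠ 0 := by
    intro z h0
    have h1 := ip_conj (v z) (u z)
    rw [h0, map_zero] at h1
    exact hne z h1.symm
  have huu : ∀ z, ip (u z) (u z) ≠ 0 := fun z => ip_self_ne (hnu z)
  have hvv : ∀ z, ip (v z) (v z) ≠ 0 := fun z => ip_self_ne (hnv z)
  have b1 := norm_circ1_sub (aa_cont hu hu huu) (aa_cont hu hv hne)
    (fun z => pointwise (hnu z) (hnv z) (hCu z) (hc z)) hr
  have b2 := norm_circ1_sub (aa_cont hv hv hvv) (aa_cont hv hu hne')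
    (fun z => pointwise (hnv z) (hnu z) (hCv z) (hc' z)) hr
  -- the winding number
  have h1 : (circ1 (aa u v) r).re = (circ1 (aa v u) r).re := by
    rw [wind hu hv hne, circ2_eq, Complex.conj_re]
    have : (fun z => conj (bb u v z)) = aa v u := by
      funext z
      rw [← conj_aa, Complex.conj_conj]
    rw [this]
  have c1 := (Complex.abs_re_le_norm _).trans b1
  have c2 := (Complex.abs_re_le_norm _).trans b2
  rw [Complex.sub_re] at c1 c2
  have d1 := (abs_le.1 c1).1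
  have d2 := (abs_le.1 c2).2
  unfold NN
  linarith

end AREAaux

open AREAaux in
theorem area (K : ℕ) (f : ℕ → ℂ → ι → ℂ)
    (hd : ∀ k ≤ K, ∀ i, Differentiable ℂ fun z => f k z i) (hne : ∀ k ≤ K, ∀ z, f k z ≠ 0)
    {A B C : ℝ} (hA : ∀ z, A ≤ eFS (f K) z) (hB : ∀ z, eFS (f 0) z ≤ B)
    (hC : ∀ k ≤ K, ∀ z, eFS (f k) z ≤ C)
    (hclose : ∀ k < K, ∀ z, nsq (f k z) * nsq (f (k + 1) z) ≤
      2 * ‖ip (f k z) (f (k + 1) z)‖ ^ 2) : A ≤ B := by
  have hstep : ∀ r : ℝ, 0 ≤ r → ∀ k ≤ K,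
      NN (f k) r - NN (f 0) r ≤ k * (2 * (2 * Real.pi * (r * Real.sqrt (2 * C)))) := by
    intro r hr k
    induction k with
    | zero => intro _; simp
    | succ k ih =>
      intro hk
      have h1 := ih (by omega)
      have h2 := compare (hd k (by omega)) (hd (k + 1) hk) (hne k (by omega)) (hne (k + 1) hk)
        (hC k (by omega)) (hC (k + 1) hk) (hclose k (by omega)) hr
      push_cast
      linarith
  have hmain : ∀ r : ℝ, 0 < r → (A - B) * r ≤ 2 * K * Real.sqrt (2 * C) := by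
    intro r hr
    have h1 := hstep r hr.le K le_rfl
    have h2 := NN_le (hd 0 (Nat.zero_le _)) (hne 0 (Nat.zero_le _)) hB hr.le
    have h3 := le_NN (hd K le_rfl) (hne K le_rfl) hA hr.le
    have h4 : (2 * Real.pi * r) * ((A - B) * r) ≤
        (2 * Real.pi * r) * (2 * K * Real.sqrt (2 * C)) := by
      nlinarith
    exact le_of_mul_le_mul_left h4 (by positivity)
  by_contra hlt
  have hpos : 0 < A - B := by linarith [not_le.1 hlt]
  have h0 : 0 ≤ 2 * K * Real.sqrt (2 * C) := by positivity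
  have h1 := hmain ((2 * K * Real.sqrt (2 * C) + 1) / (A - B)) (by positivity)
  rw [mul_div_cancel₀ _ hpos.ne'] at h1
  linarith

end Pool.Agent.H917.G
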