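import Mathlib

/-!
# PROJECT TORI (helper917), task FRAME: linear coordinates in which the forms have constant coefficients

Let `C ⊆ M` be algebraically closed fields, `S_1, …, S_N ∈ M[x_1, …, x_r]` forms of degree `m ≥ 1` which
span the space of all forms of degree `m` over `M`, and suppose that the relations between their products
have coefficients in `C`: for each `q ≥ 1` there are products `∏ S (J j a)` (`q` factors each) which are
linearly independent over `M` such that EVERY product of `q` of the forms is a combination of them with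
coefficients in `C`. Then there are linearly independent linear forms `ℓ_1, …, ℓ_r` over `M` and forms `T_l`
over `C` with `S_l = T_l(ℓ_1, …, ℓ_r)`.

## Paper proof

**Step 1 (specialization).** Choose `d = dim M[x]_m` many of the `S_l` which form a basis of `M[x]_m`; let
`Δ ≠ 0` be the determinant of their coefficient matrix (monomial basis). Let `B ⊆ M` be the `C`-subalgebra
generated by all the coefficients of all the `S_l` and by `Δ⁻¹`. It is finitely generated and a domain, so
(Nullstellensatz, `C` algebraically closed) there is a `C`-algebra homomorphism `φ : B → C`. (For example: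
kernel of a surjection from a polynomial ring is a proper ideal, take a maximal ideal above it and
`MvPolynomial.eq_vanishingIdeal_singleton_of_isMaximal`, or use
`exists_algHom_of_..`/zeroLocus nonempty; see also `MvPolynomial.vanishingIdeal_zeroLocus_eq_radical`.)
Put `T_l := φ(S_l) ∈ C[x]` (coefficientwise). The `T_l` are forms of degree `m`, the chosen `d` of them have a
coefficient matrix with the determinant `φ(Δ) ≠ 0`, so the `T_l` span `C[x]_m`.
If `P ∈ C[X_1..X_N]` and `P(S) = 0`, then `P(T) = φ(P(S)) = 0`.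

**Step 2 (the relations over `M`).** Claim: for `P ∈ M[X_1..X_N]`: `P(T) = 0 → P(S) = 0` (`T` regarded over
`M`). Both sides are graded (`S_l`, `T_l` homogeneous of degree `m ≥ 1`), so let `P` be homogeneous of degree
`q`; `q = 0` is trivial. Let `q ≥ 1` and `J` as in `H`. Products of `q` of the `S_l` span `M[x]_{mq}` (since the
`S_l` span `M[x]_m`: `Submodule.span_pow` and `homogeneousSubmodule_one_pow` or induction on monomials), so
`{∏ S (J j a)}_j` is a basis of `M[x]_{mq}` and `#ι = dim_M M[x]_{mq} = dim_C C[x]_{mq}`. By the relations with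
coefficients in `C` (Step 1) the `∏ T (J j a)` span all products of the `T_l`, so they span `C[x]_{mq}`; by the
count they are independent over `C`, hence over `M`. Now write `P = ∑_μ p_μ ∏_a X (μ a)` (`μ : Fin q → Fin N`),
`∏ S(μ) = ∑_j c_{μ j} ∏ S(J j)`, `∏ T(μ) = ∑_j c_{μ j} ∏ T(J j)` with the same `c_{μ j} ∈ C`. `P(T) = 0` gives
`∑_μ p_μ c_{μ j} = 0` for all `j`, so `P(S) = 0`.

**Step 3 (images of the monomials).** For `|α| = m` choose `λ_α ∈ C^N` with `∑_l λ_{α,l} T_l = x^α` and put
`s_α := ∑_l λ_{α,l} S_l ∈ M[x]_m`. By Step 2 every polynomial relation over `M` between the `x^α` (`|α| = m`)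
holds between the `s_α` (substitute), in particular the linear relations `T_l = ∑_α (coeff α T_l) x^α` combined
with the definition: `S_l = ∑_α (coeff α T_l) s_α` (this is the relation `X_l - ∑_α coeff_α(T_l) ∑_k λ_{α,k} X_k`
which vanishes at `T`). So the `s_α` span `M[x]_m`, and by the count they are linearly independent; in particular
`s_α ≠ 0`.

**Step 4 (linear forms).** Let `e_i` be the unit vectors. If `m = 1` put `ℓ_i := s_{e_i}`. In general let
`b_0 := s_{m e_1}` and `b^{(i)} := s_{(m-1) e_1 + e_i}`, `c^{(i)} := s_{m e_i}`. From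
`(x_1^m)^{m-1} x_i^m = (x_1^{m-1} x_i)^m` we get `b_0^{m-1} c^{(i)} = (b^{(i)})^m`.
(a) `b_0 = ℓ_1^m` for a linear form `ℓ_1`: if `r = 1`, `b_0 = (const) x_1^m` and `M` is algebraically closed. If
`r ≥ 2` take `i = 2` and write `b_0 = g w`, `b^{(2)} = g u` with `w, u` relatively prime in the UFD `M[x]`
(`UniqueFactorizationMonoid.exists_reduced_factors`). Then `(g w)^{m-1} c = (g u)^m`, so `w^{m-1} c = g u^m`, so
`w^{m-1} ∣ g` and `b_0 = g' w^m`. Comparing degrees (factors of homogeneous polynomials are homogeneous, or use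
`totalDegree_mul`): `m = m deg w + deg g'`; if `deg w = 0` then `w` is a constant, `deg u = deg w = 0`, and `b_0`,
`b^{(2)}` are proportional, a contradiction to Step 3. So `deg w = 1`, `g'` is a constant, which has an `m`-th
root. (`w` is homogeneous since `w^m` is up to a constant; or replace `w` by its homogeneous component of degree
one: compare components of top degree/lowest degree.)
(b) For each `i`: `ℓ_1^{m(m-1)} ∣ (b^{(i)})^m`, `ℓ_1` irreducible (degree one), so `ℓ_1^{m-1} ∣ b^{(i)}`:
`b^{(i)} = ℓ_1^{m-1} ℓ_i`, `ℓ_i` a linear form (for `i = 1` it is `ℓ_1`).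
(c) From `x^α (x_1^m)^{m-1} = ∏_i (x_1^{m-1} x_i)^{α_i}` we get
`s_α ℓ_1^{m(m-1)} = ∏_i (ℓ_1^{m-1} ℓ_i)^{α_i} = ℓ_1^{m(m-1)} ∏_i ℓ_i^{α_i}`, so `s_α = ∏_i ℓ_i^{α_i}`.
Hence `S_l = ∑_α coeff_α(T_l) ∏ ℓ_i^{α_i} = T_l(ℓ)`.

**Step 5.** The matrix `A` of the `ℓ_i` is invertible: if `A v = 0`, `v ≠ 0`, then `S_l(v) = T_l(0) = 0` for all
`l` (`m ≥ 1`), so all forms of degree `m` vanish at `v`, in particular `v_i^m = 0`.
-/

set_option autoImplicit false
set_option linter.unusedSectionVars false

open MvPolynomial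

namespace Pool.Agent.H917.G.FRAMEaux

/-- a finitely generated algebra over an algebraically closed field has a point -/
theorem exists_algHom {C B : Type} [Field C] [IsAlgClosed C] [CommRing B] [Nontrivial B]
    [Algebra C B] [Algebra.FiniteType C B] : Nonempty (B →ₐ[C] C) := by
  obtain ⟨I, hI⟩ := Ideal.exists_maximal B
  let _ : Field (B ⧸ I) := Ideal.Quotient.field I
  have h1 : Algebra.FiniteType C (B ⧸ I) :=
    Algebra.FiniteType.of_surjective (Ideal.Quotient.mkₐ C I) (Ideal.Quotient.mkₐ_surjective C I)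
  have h2 : Module.Finite C (B ⧸ I) := finite_of_finite_type_of_isJacobsonRing C (B ⧸ I)
  have h3 : Function.Bijective (algebraMap C (B ⧸ I)) :=
    IsAlgClosed.algebraMap_bijective_of_isIntegral
  exact ⟨((AlgEquiv.ofBijective (Algebra.ofId C (B ⧸ I)) h3).symm.toAlgHom).comp
    (Ideal.Quotient.mkₐ C I)⟩

theorem finite_deg (r m : ℕ) : {α : Fin r →₀ ℕ | α.degree = m}.Finite := by
  refine (Finset.finite_toSet (Finset.finsuppAntidiag (Finset.univ : Finset (Fin r)) m)).subset ?_
  intro α hα
  rw [Finset.mem_coe, Finset.mem_finsuppAntidiag]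
  refine ⟨?_, Finset.subset_univ _⟩
  rw [← Finsupp.degree_eq_sum]
  exact hα

section

variable {C M : Type} [Field C] [IsAlgClosed C] [Field M] [Algebra C M]

/-- specialization -/
theorem spec {r m N : ℕ} (S : Fin N → MvPolynomial (Fin r) M)
    (hS : ∀ l, (S l).IsHomogeneous m)
    (hspan : homogeneousSubmodule (Fin r) M m ≤ Submodule.span M (Set.range S)) :
    ∃ (T : Fin N → MvPolynomial (Fin r) C) (lam : (Fin r →₀ ℕ) → Fin N → C),
      (∀ l, (T l).IsHomogeneous m) ∧
      (∀ α : Fin r →₀ ℕ, α.degree = m → ∑ l, MvPolynomial.C (lam α l) * T l = monomial α 1) ∧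
      ∀ P : MvPolynomial (Fin N) C, aeval S P = 0 → aeval T P = 0 := by
  classical
  have hb : ∀ α : Fin r →₀ ℕ, ∃ b : Fin N → M, α.degree = m →
      ∑ l, MvPolynomial.C (b l) * S l = monomial α 1 := by
    intro α
    by_cases hα : α.degree = m
    · have h1 : (monomial α (1 : M)) ∈ Submodule.span M (Set.range S) :=
        hspan (isHomogeneous_monomial 1 hα)
      rw [Submodule.mem_span_range_iff_exists_fun] at h1
      obtain ⟨b, hb⟩ := h1
      refine ⟨b, fun _ => ?_⟩
      rw [← hb]
      exact Finset.sum_congr rfl fun l _ => (smul_eq_C_mul _ _).symm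
    · exact ⟨0, fun h => absurd h hα⟩
  choose b hb using hb
  obtain ⟨G, hG⟩ : ∃ G : Set M, G = (⋃ l : Fin N, ((S l).coeffs : Set M)) ∪
      (⋃ l : Fin N, (fun α => b α l) '' {α : Fin r →₀ ℕ | α.degree = m}) := ⟨_, rfl⟩
  have hGf : G.Finite := by
    rw [hG]
    exact (Set.finite_iUnion fun l => Finset.finite_toSet _).union
      (Set.finite_iUnion fun l => (finite_deg r m).image _)
  obtain ⟨B, hB⟩ : ∃ B : Subalgebra C M, B = Algebra.adjoin C G := ⟨_, rfl⟩
  have hBf : Algebra.FiniteType C B := by
    rw [← Subalgebra.fg_iff_finiteType, hB]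
    have h1 := Subalgebra.fg_adjoin_finset (R := C) hGf.toFinset
    rwa [Set.Finite.coe_toFinset] at h1
  have hGB : ∀ x ∈ G, x ∈ B := fun x hx => by
    rw [hB]
    exact Algebra.subset_adjoin hx
  obtain ⟨φ⟩ := exists_algHom (C := C) (B := B)
  have hinj : Function.Injective (algebraMap B M) := Subtype.val_injective
  -- the forms over `B`
  have hS' : ∀ l, ∃ S' : MvPolynomial (Fin r) B, map (algebraMap B M) S' = S l := by
    intro l
    have h1 : S l ∈ Set.range (MvPolynomial.map (σ := Fin r) (algebraMap B M)) := by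
      rw [mem_range_map_iff_coeffs_subset]
      intro x hx
      exact ⟨⟨x, hGB x (by
        rw [hG]
        exact Or.inl (Set.mem_iUnion.2 ⟨l, hx⟩))⟩, rfl⟩
    exact h1
  choose S' hS' using hS'
  have hb' : ∀ (α : Fin r →₀ ℕ) (l : Fin N), ∃ x : B, α.degree = m → algebraMap B M x = b α l := by
    intro α l
    by_cases hα : α.degree = m
    · exact ⟨⟨b α l, hGB _ (by
        rw [hG]
        exact Or.inr (Set.mem_iUnion.2 ⟨l, ⟨α, hα, rfl⟩⟩))⟩, fun _ => rfl⟩
    · exact ⟨0, fun h => absurd h hα⟩
  choose b' hb' using hb'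
  refine ⟨fun l => map φ.toRingHom (S' l), fun α l => φ (b' α l), ?_, ?_, ?_⟩
  · intro l
    refine IsHomogeneous.map ?_ _
    refine IsHomogeneous.of_map hinj ?_
    rw [hS']
    exact hS l
  · intro α hα
    have h1 : ∑ l, MvPolynomial.C (b' α l) * S' l = monomial α 1 := by
      apply map_injective (algebraMap B M) hinj
      rw [map_sum, map_monomial, map_one, ← hb α hα]
      refine Finset.sum_congr rfl fun l _ => ?_
      rw [map_mul, map_C, hS', hb' α l hα]
    have h2 := congrArg (map φ.toRingHom) h1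
    rw [map_sum, map_monomial, map_one] at h2
    rw [← h2]
    refine Finset.sum_congr rfl fun l _ => ?_
    rw [map_mul, map_C]
    rfl
  · intro P hP
    have h1 : aeval S' P = 0 := by
      apply map_injective (algebraMap B M) hinj
      rw [map_zero, ← hP]
      have h2 : ((mapAlgHom B.val : MvPolynomial (Fin r) B →ₐ[C] MvPolynomial (Fin r) M).comp
          (aeval S' : MvPolynomial (Fin N) C →ₐ[C] MvPolynomial (Fin r) B)) = aeval S := by
        apply algHom_ext
        intro l
        rw [AlgHom.comp_apply, aeval_X, aeval_X]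
        exact hS' l
      exact congrArg (fun f : MvPolynomial (Fin N) C →ₐ[C] MvPolynomial (Fin r) M => f P) h2
    have h2 : ((mapAlgHom φ : MvPolynomial (Fin r) B →ₐ[C] MvPolynomial (Fin r) C).comp
        (aeval S' : MvPolynomial (Fin N) C →ₐ[C] MvPolynomial (Fin r) B)) =
        aeval (fun l => map φ.toRingHom (S' l)) := by
      apply algHom_ext
      intro l
      rw [AlgHom.comp_apply, aeval_X, aeval_X]
      rfl
    rw [← h2, AlgHom.comp_apply, h1, map_zero]

end

end Pool.Agent.H917.G.FRAMEaux

namespace Pool.Agent.H917.G.FRAMEaux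

section

variable {C M : Type} [Field C] [Field M] [Algebra C M]

/-- powers of the span of finitely many elements -/
theorem span_pow_le' {A ι : Type} [CommRing A] [Algebra M A] (x : ι → A) (m : ℕ)
    (S : Submodule M A) (h : ∀ I : Fin m → ι, ∏ k, x (I k) ∈ S) :
    Submodule.span M (Set.range x) ^ m ≤ S := by
  rw [Submodule.span_pow, Submodule.span_le]
  intro a ha
  rw [Set.mem_pow] at ha
  obtain ⟨f, rfl⟩ := ha
  have h1 : ∀ i, ∃ k, x k = f i := fun i => (f i).2
  choose I hI using h1
  rw [List.prod_ofFn]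
  have h2 : ∏ i, (f i : A) = ∏ i, x (I i) := Finset.prod_congr rfl fun i _ => (hI i).symm
  rw [h2]
  exact h I

/-- products of the variables span -/
theorem monos_span (N q : ℕ) :
    Submodule.span M (Set.range fun μ : Fin q → Fin N => ∏ a, (X (μ a) : MvPolynomial (Fin N) M)) =
      homogeneousSubmodule (Fin N) M q := by
  apply le_antisymm
  · rw [Submodule.span_le]
    rintro _ ⟨μ, rfl⟩
    have h1 := IsHomogeneous.prod Finset.univ (fun a => (X (μ a) : MvPolynomial (Fin N) M))
      (fun _ => 1) (fun a _ => isHomogeneous_X M (μ a))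
    rw [Finset.sum_const, Finset.card_univ, Fintype.card_fin, smul_eq_mul, mul_one] at h1
    exact h1
  · rw [← homogeneousSubmodule_one_pow, homogeneousSubmodule_one_eq_span_X]
    exact span_pow_le' _ _ _ fun I => Submodule.subset_span ⟨I, rfl⟩

/-- the span of products -/
theorem span_prods {r m N q : ℕ} (F : Fin N → MvPolynomial (Fin r) M)
    (hF : Submodule.span M (Set.range F) = homogeneousSubmodule (Fin r) M m)
    {ι : Type} [Fintype ι] (J : ι → Fin q → Fin N)
    (h : ∀ μ : Fin q → Fin N, ∃ c : ι → M, ∏ a, F (μ a) = ∑ j, c j • ∏ a, F (J j a)) :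
    Submodule.span M (Set.range fun j => ∏ a, F (J j a)) =
      homogeneousSubmodule (Fin r) M (m * q) := by
  apply le_antisymm
  · rw [Submodule.span_le]
    rintro _ ⟨j, rfl⟩
    have h1 := IsHomogeneous.prod Finset.univ (fun a => F (J j a)) (fun _ => m) (fun a _ => by
      have : F (J j a) ∈ homogeneousSubmodule (Fin r) M m := by
        rw [← hF]
        exact Submodule.subset_span ⟨_, rfl⟩
      exact this)
    rw [Finset.sum_const, Finset.card_univ, Fintype.card_fin, smul_eq_mul, mul_comm] at h1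
    exact h1
  · rw [← homogeneousSubmodule_one_pow, pow_mul, homogeneousSubmodule_one_pow, ← hF]
    refine span_pow_le' _ _ _ fun I => ?_
    obtain ⟨c, hc⟩ := h I
    rw [hc]
    exact Submodule.sum_mem _ fun j _ => Submodule.smul_mem _ _ (Submodule.subset_span ⟨j, rfl⟩)

/-- polynomial relations, homogeneous version -/
theorem rel_hom {r m N : ℕ} (S : Fin N → MvPolynomial (Fin r) M)
    (hspan : Submodule.span M (Set.range S) = homogeneousSubmodule (Fin r) M m)
    (H : ∀ q, 1 ≤ q → ∃ (ι : Type) (_ : Fintype ι) (J : ι → Fin q → Fin N),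
      LinearIndependent M (fun j => ∏ a, S (J j a)) ∧
      ∀ μ : Fin q → Fin N, ∃ c : ι → C,
        ∏ a, S (μ a) = ∑ j, algebraMap C M (c j) • ∏ a, S (J j a))
    (T : Fin N → MvPolynomial (Fin r) C)
    (hTspan : Submodule.span M (Set.range fun l => map (algebraMap C M) (T l)) =
      homogeneousSubmodule (Fin r) M m)
    (hPT : ∀ P : MvPolynomial (Fin N) C, aeval S P = 0 → aeval T P = 0)
    (q : ℕ) (P : MvPolynomial (Fin N) M) (hP : P ∈ homogeneousSubmodule (Fin N) M q) :
    aeval (fun l => map (algebraMap C M) (T l)) P = 0 ↔ aeval S P = 0 := by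
  rcases Nat.eq_zero_or_pos q with hq | hq
  · subst hq
    rw [homogeneousSubmodule_zero, Submodule.mem_one] at hP
    obtain ⟨a, rfl⟩ := hP
    rw [AlgHom.commutes, AlgHom.commutes]
  · obtain ⟨ι, _, J, hJ, hc⟩ := H q hq
    choose c hc using hc
    rw [← monos_span, Submodule.mem_span_range_iff_exists_fun] at hP
    obtain ⟨b, rfl⟩ := hP
    obtain ⟨T', hT'⟩ : ∃ T' : Fin N → MvPolynomial (Fin r) M,
        T' = fun l => map (algebraMap C M) (T l) := ⟨_, rfl⟩
    rw [← hT'] at hTspan ⊢
    -- the relations for `T'`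
    have hrel : ∀ μ : Fin q → Fin N, ∏ a, T' (μ a) =
        ∑ j, algebraMap C M (c μ j) • ∏ a, T' (J j a) := by
      intro μ
      have h2 := hPT (∏ a, (X (μ a) : MvPolynomial (Fin N) C) -
          ∑ j, MvPolynomial.C (c μ j) * ∏ a, X (J j a)) (by
        rw [map_sub, map_prod, map_sum]
        simp only [map_mul, map_prod, aeval_X]
        rw [hc μ, sub_eq_zero]
        refine Finset.sum_congr rfl fun j _ => ?_
        have h2 : (aeval S : MvPolynomial (Fin N) C →ₐ[C] MvPolynomial (Fin r) M)
            (MvPolynomial.C (c μ j)) = MvPolynomial.C (algebraMap C M (c μ j)) := by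
          rw [aeval_C]
          rfl
        rw [h2, smul_eq_C_mul])
      rw [map_sub, map_prod, map_sum] at h2
      simp only [map_mul, map_prod, aeval_X, aeval_C] at h2
      rw [sub_eq_zero] at h2
      have h3 := congrArg (map (algebraMap C M)) h2
      rw [map_prod, map_sum] at h3
      simp only [map_mul, map_prod] at h3
      rw [hT']
      simp only
      rw [h3]
      refine Finset.sum_congr rfl fun j _ => ?_
      rw [smul_eq_C_mul]
      congr 1
      have h4 : algebraMap C (MvPolynomial (Fin r) C) (c μ j) = MvPolynomial.C (c μ j) := rfl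
      rw [h4, map_C]
    have hJ' : LinearIndependent M (fun j => ∏ a, T' (J j a)) := by
      rw [linearIndependent_iff_card_eq_finrank_span] at hJ ⊢
      rw [hJ, Set.finrank, Set.finrank, span_prods S hspan J fun μ => ⟨_, hc μ⟩,
        span_prods T' hTspan J fun μ => ⟨_, hrel μ⟩]
    have key : ∀ F : Fin N → MvPolynomial (Fin r) M,
        LinearIndependent M (fun j => ∏ a, F (J j a)) →
        (∀ μ : Fin q → Fin N, ∏ a, F (μ a) = ∑ j, algebraMap C M (c μ j) • ∏ a, F (J j a)) →
        (aeval F (∑ μ, b μ • ∏ a, (X (μ a) : MvPolynomial (Fin N) M)) = 0 ↔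
          ∀ j, ∑ μ, b μ * algebraMap C M (c μ j) = 0) := by
      intro F hF hFr
      have h1 : aeval F (∑ μ, b μ • ∏ a, (X (μ a) : MvPolynomial (Fin N) M)) =
          ∑ j, (∑ μ, b μ * algebraMap C M (c μ j)) • ∏ a, F (J j a) := by
        rw [map_sum]
        have h2 : ∀ μ, aeval F (b μ • ∏ a, (X (μ a) : MvPolynomial (Fin N) M)) =
            ∑ j, (b μ * algebraMap C M (c μ j)) • ∏ a, F (J j a) := by
          intro μ
          rw [map_smul, map_prod]
          simp only [aeval_X]
          rw [hFr μ, Finset.smul_sum]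
          refine Finset.sum_congr rfl fun j _ => ?_
          rw [smul_smul]
        rw [Finset.sum_congr rfl fun μ _ => h2 μ, Finset.sum_comm]
        refine Finset.sum_congr rfl fun j _ => ?_
        rw [Finset.sum_smul]
      rw [h1]
      constructor
      · exact fun h => Fintype.linearIndependent_iff.1 hF _ h
      · intro h
        refine Finset.sum_eq_zero fun j _ => ?_
        rw [h j, zero_smul]
    rw [key S hJ hc, key T' hJ' hrel]

/-- evaluation at forms of degree `m` of the homogeneous components -/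
theorem comps {r m N : ℕ} (hm : 1 ≤ m) (S : Fin N → MvPolynomial (Fin r) M)
    (hS : ∀ l, (S l).IsHomogeneous m) (P : MvPolynomial (Fin N) M) :
    aeval S P = 0 ↔ ∀ q, aeval S (homogeneousComponent q P) = 0 := by
  constructor
  · intro hP q
    have h2 := congrArg (homogeneousComponent (m * q)) hP
    rw [map_zero] at h2
    conv_lhs at h2 => rw [← sum_homogeneousComponent P]
    rw [map_sum, map_sum] at h2
    have h3 : ∀ i, homogeneousComponent (m * q) (aeval S (homogeneousComponent i P)) =
        if i = q then aeval S (homogeneousComponent q P) else 0 := by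
      intro i
      have h4 := (homogeneousComponent_isHomogeneous i P).aeval S hS
      rw [homogeneousComponent_of_mem h4]
      by_cases hi : i = q
      · rw [if_pos hi, if_pos (by rw [hi]), hi]
      · rw [if_neg hi, if_neg fun h => hi (Nat.eq_of_mul_eq_mul_left hm h).symm]
    rw [Finset.sum_congr rfl fun i _ => h3 i, Finset.sum_ite_eq'] at h2
    split_ifs at h2 with hq
    · exact h2
    · have h4 : homogeneousComponent q P = 0 := by
        refine homogeneousComponent_eq_zero _ _ ?_
        rw [Finset.mem_range] at hq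
        omega
      rw [h4, map_zero]
  · intro h
    conv_lhs => rw [← sum_homogeneousComponent P]
    rw [map_sum]
    exact Finset.sum_eq_zero fun q _ => h q

/-- polynomial relations -/
theorem rel {r m N : ℕ} (hm : 1 ≤ m) (S : Fin N → MvPolynomial (Fin r) M)
    (hS : ∀ l, (S l).IsHomogeneous m)
    (hspan : Submodule.span M (Set.range S) = homogeneousSubmodule (Fin r) M m)
    (H : ∀ q, 1 ≤ q → ∃ (ι : Type) (_ : Fintype ι) (J : ι → Fin q → Fin N),
      LinearIndependent M (fun j => ∏ a, S (J j a)) ∧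
      ∀ μ : Fin q → Fin N, ∃ c : ι → C,
        ∏ a, S (μ a) = ∑ j, algebraMap C M (c j) • ∏ a, S (J j a))
    (T : Fin N → MvPolynomial (Fin r) C) (hT : ∀ l, (T l).IsHomogeneous m)
    (hTspan : Submodule.span M (Set.range fun l => map (algebraMap C M) (T l)) =
      homogeneousSubmodule (Fin r) M m)
    (hPT : ∀ P : MvPolynomial (Fin N) C, aeval S P = 0 → aeval T P = 0)
    (P : MvPolynomial (Fin N) M) :
    aeval (fun l => map (algebraMap C M) (T l)) P = 0 ↔ aeval S P = 0 := by
  rw [comps hm _ (fun l => (hT l).map _), comps hm S hS]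
  exact forall_congr' fun q => rel_hom S hspan H T hTspan hPT q _
    (homogeneousComponent_isHomogeneous q P)

end

end Pool.Agent.H917.G.FRAMEaux

namespace Pool.Agent.H917.G.FRAMEaux

section

variable {M : Type} [Field M] [IsAlgClosed M] {r m : ℕ}

theorem totalDegree_pow' (w : MvPolynomial (Fin r) M) (hw : w ≠ 0) (n : ℕ) :
    (w ^ n).totalDegree = n * w.totalDegree := by
  induction n with
  | zero => rw [pow_zero, totalDegree_one, zero_mul]
  | succ n ih =>
    rw [pow_succ, totalDegree_mul_of_isDomain (pow_ne_zero _ hw) hw, ih]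
    ring

/-- a polynomial whose power is a form of positive degree, of total degree at most one, is a linear
form -/
theorem lin_of_pow {w b : MvPolynomial (Fin r) M} (hm : 1 ≤ m) (hb : b.IsHomogeneous m)
    (h : b = w ^ m) (hw : w.totalDegree ≤ 1) : w.IsHomogeneous 1 := by
  have h0 : coeff 0 w = 0 := by
    have h1 : coeff 0 b = 0 := hb.coeff_eq_zero (by
      rw [map_zero]
      omega)
    have h2 : constantCoeff b = constantCoeff w ^ m := by rw [h, map_pow]
    rw [constantCoeff_eq, h1] at h2
    exact pow_eq_zero_iff (by omega) |>.1 h2.symm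
  intro d hd
  have h1 : d.degree ≤ w.totalDegree := by
    have := le_totalDegree (p := w) (s := d) (by rwa [mem_support_iff])
    rw [Finsupp.degree_apply]
    exact this
  have h2 : d.degree ≠ 0 := by
    intro h2
    rw [Finsupp.degree_eq_zero_iff] at h2
    rw [h2] at hd
    exact hd h0
  have h3 : d.degree = 1 := by omega
  rw [← h3]
  exact (Finsupp.degree_eq_weight_one (R := ℕ) ▸ rfl : (Finsupp.weight (1 : Fin r → ℕ)) d = d.degree)

/-- the root of the first form, main case -/
theorem exists_root (hm : 1 ≤ m) {b0 b c : MvPolynomial (Fin r) M} (hb0 : b0.IsHomogeneous m)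
    (hb : b.IsHomogeneous m) (hne : b0 ≠ 0) (hprop : ∀ k : M, b ≠ MvPolynomial.C k * b0)
    (h : b0 ^ (m - 1) * c = b ^ m) : ∃ w, b0 = w ^ m ∧ w.IsHomogeneous 1 := by
  obtain ⟨w, u, g, hrel, hw, hu⟩ := UniqueFactorizationMonoid.exists_reduced_factors b0 hne b
  have hg0 : g ≠ 0 := by
    rintro rfl
    rw [zero_mul] at hw
    exact hne hw.symm
  have hw0 : w ≠ 0 := by
    rintro rfl
    rw [mul_zero] at hw
    exact hne hw.symm
  have hbne : b ≠ 0 := by
    intro h0
    apply hprop 0
    rw [h0, map_zero, zero_mul]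
  have hu0 : u ≠ 0 := by
    rintro rfl
    rw [mul_zero] at hu
    exact hbne hu.symm
  have h1 : w ^ (m - 1) * c = g * u ^ m := by
    have h2 : g ^ (m - 1) * (w ^ (m - 1) * c) = g ^ (m - 1) * (g * u ^ m) := by
      have e1 : g ^ (m - 1) * (w ^ (m - 1) * c) = b0 ^ (m - 1) * c := by
        rw [← hw, mul_pow, mul_assoc]
      have e2 : g ^ (m - 1) * (g * u ^ m) = b ^ m := by
        rw [← hu, mul_pow, ← mul_assoc, ← pow_succ]
        congr 2
        omega
      rw [e1, e2, h]
    exact mul_left_cancel₀ (pow_ne_zero _ hg0) h2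
  have h2 : w ^ (m - 1) ∣ g := by
    have h3 : IsRelPrime (w ^ (m - 1)) (u ^ m) := hrel.pow
    exact h3.dvd_of_dvd_mul_right ⟨c, h1.symm⟩
  obtain ⟨g', hg'⟩ := h2
  have hg'0 : g' ≠ 0 := by
    rintro rfl
    rw [mul_zero] at hg'
    exact hg0 hg'
  have hb0' : b0 = g' * w ^ m := by
    have : w ^ m = w ^ (m - 1) * w := by
      rw [← pow_succ]
      congr 1
      omega
    rw [← hw, hg', this]
    ring
  have d1 : m = g'.totalDegree + m * w.totalDegree := by
    have h4 := hb0.totalDegree hne
    rw [hb0', totalDegree_mul_of_isDomain hg'0 (pow_ne_zero _ hw0), totalDegree_pow' w hw0] at h4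
    exact h4.symm
  have d2 : w.totalDegree ≠ 0 := by
    intro h4
    have h5 := totalDegree_eq_zero_iff_eq_C.1 h4
    have d3 := hb0.totalDegree hne
    rw [← hw, totalDegree_mul_of_isDomain hg0 hw0, h4] at d3
    have d4 := hb.totalDegree hbne
    rw [← hu, totalDegree_mul_of_isDomain hg0 hu0] at d4
    have h6 : u.totalDegree = 0 := by omega
    have h7 := totalDegree_eq_zero_iff_eq_C.1 h6
    obtain ⟨k, hk⟩ : ∃ k, k = coeff 0 w := ⟨_, rfl⟩
    obtain ⟨k', hk'⟩ : ∃ k', k' = coeff 0 u := ⟨_, rfl⟩
    rw [← hk] at h5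
    rw [← hk'] at h7
    have hk0 : k ≠ 0 := by
      rintro rfl
      rw [map_zero] at h5
      exact hw0 h5
    apply hprop (k' * k⁻¹)
    rw [← hw, ← hu, h5, h7]
    have e : MvPolynomial.C (k' * k⁻¹) * (g * MvPolynomial.C k) =
        g * MvPolynomial.C (k' * k⁻¹ * k) := by
      rw [map_mul _ (k' * k⁻¹) k]
      ring
    rw [e, mul_assoc, inv_mul_cancel₀ hk0, mul_one]
  have d3 : w.totalDegree ≤ 1 := by
    by_contra h4
    have h5 : m * 2 ≤ m * w.totalDegree := Nat.mul_le_mul_left _ (by omega)
    omega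
  have d4 : w.totalDegree = 1 := by omega
  have d5 : g'.totalDegree = 0 := by
    rw [d4] at d1
    omega
  have h7 := totalDegree_eq_zero_iff_eq_C.1 d5
  obtain ⟨κ, hκ⟩ : ∃ κ, κ = coeff 0 g' := ⟨_, rfl⟩
  rw [← hκ] at h7
  obtain ⟨t, ht⟩ := IsAlgClosed.exists_pow_nat_eq κ (show 0 < m by omega)
  have h8 : b0 = (MvPolynomial.C t * w) ^ m := by
    rw [mul_pow, ← map_pow, ht, ← h7]
    exact hb0'
  refine ⟨MvPolynomial.C t * w, h8, lin_of_pow hm hb0 h8 ?_⟩
  refine (totalDegree_mul _ _).trans ?_
  rw [totalDegree_C, zero_add, d4]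

/-- the root of the first form, one variable -/
theorem exists_root_one (hr : r = 1) (hm : 1 ≤ m) {b0 : MvPolynomial (Fin r) M}
    (hb0 : b0.IsHomogeneous m) : ∃ w, b0 = w ^ m ∧ w.IsHomogeneous 1 := by
  subst hr
  obtain ⟨t, ht⟩ := IsAlgClosed.exists_pow_nat_eq (coeff (Finsupp.single 0 m) b0)
    (show 0 < m by omega)
  have h1 : b0 = (MvPolynomial.C t * X 0) ^ m := by
    rw [mul_pow, ← map_pow, ht, C_mul_X_pow_eq_monomial]
    ext d
    rw [coeff_monomial]
    by_cases hd : Finsupp.single 0 m = d
    · rw [if_pos hd, hd]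
    · rw [if_neg hd]
      refine hb0.coeff_eq_zero ?_
      intro h2
      apply hd
      refine Finsupp.ext fun i => ?_
      have hi : i = 0 := Subsingleton.elim _ _
      subst hi
      rw [Finsupp.single_eq_same, ← h2, Finsupp.degree_eq_sum, Fin.sum_univ_one]
  refine ⟨MvPolynomial.C t * X 0, h1, lin_of_pow hm hb0 h1 ?_⟩
  refine (totalDegree_mul _ _).trans ?_
  rw [totalDegree_C, zero_add]
  exact (isHomogeneous_X M (0 : Fin 1)).totalDegree_le

/-- the quotient of two forms -/
theorem quot {f b e : MvPolynomial (Fin r) M} {p q : ℕ} (hf : f.IsHomogeneous p)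
    (hb : b.IsHomogeneous (p + q)) (h : b = f * e) :
    b = f * homogeneousComponent q e := by
  have h1 := congrArg (homogeneousComponent (p + q)) h
  rw [homogeneousComponent_eq_self hb] at h1
  rw [h1]
  conv_lhs => rw [← sum_homogeneousComponent e]
  rw [Finset.mul_sum, map_sum]
  have h3 : ∀ i, homogeneousComponent (p + q) (f * homogeneousComponent i e) =
      if i = q then f * homogeneousComponent q e else 0 := by
    intro i
    rw [homogeneousComponent_of_mem (hf.mul (homogeneousComponent_isHomogeneous i e))]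
    by_cases hi : i = q
    · rw [if_pos hi, if_pos (by rw [hi]), hi]
    · rw [if_neg hi, if_neg fun h => hi (by omega)]
  rw [Finset.sum_congr rfl fun i _ => h3 i, Finset.sum_ite_eq']
  split_ifs with hq
  · rfl
  · have h4 : homogeneousComponent q e = 0 := by
      refine homogeneousComponent_eq_zero _ _ ?_
      rw [Finset.mem_range] at hq
      omega
    rw [h4, mul_zero]

end

end Pool.Agent.H917.G.FRAMEaux

namespace Pool.Agent.H917.G

namespace FRAMEaux

theorem prod_aux {R : Type} [CommRing R] {r m : ℕ} (a : R) (f : Fin r → R) (α : Fin r →₀ ℕ)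
    (hα : α.degree = m) :
    ∏ i, (a ^ (m - 1) * f i) ^ (α i) = a ^ ((m - 1) * m) * ∏ i, f i ^ (α i) := by
  have h1 : ∏ i, (a ^ (m - 1) * f i) ^ (α i) =
      (∏ i : Fin r, (a ^ (m - 1)) ^ (α i)) * ∏ i, f i ^ (α i) := by
    rw [← Finset.prod_mul_distrib]
    exact Finset.prod_congr rfl fun i _ => mul_pow _ _ _
  rw [h1, Finset.prod_pow_eq_pow_sum, ← Finsupp.degree_eq_sum, hα, pow_mul]

theorem mono_eq {R : Type} [CommRing R] {r : ℕ} (α : Fin r →₀ ℕ) :
    (monomial α (1 : R)) = ∏ i, X i ^ (α i) := by
  rw [monomial_eq, C_1, one_mul, Finsupp.prod_fintype]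
  intro i
  exact pow_zero _

theorem mono_eq' {R : Type} [CommRing R] {r m : ℕ} (i0 i : Fin r) :
    (monomial (Finsupp.single i0 (m - 1) + Finsupp.single i 1) (1 : R)) = X i0 ^ (m - 1) * X i := by
  rw [X_pow_eq_monomial, X, monomial_mul, one_mul]

end FRAMEaux

open FRAMEaux

theorem frame {C M : Type} [Field C] [IsAlgClosed C] [CharZero C] [Field M] [IsAlgClosed M]
    [Algebra C M] {r m N : ℕ} (hr : 1 ≤ r) (hm : 1 ≤ m) (S : Fin N → MvPolynomial (Fin r) M)
    (hS : ∀ l, (S l).IsHomogeneous m)
    (hspan : Submodule.span M (Set.range S) = homogeneousSubmodule (Fin r) M m)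
    (H : ∀ q, 1 ≤ q → ∃ (ι : Type) (_ : Fintype ι) (J : ι → Fin q → Fin N),
      LinearIndependent M (fun j => ∏ a, S (J j a)) ∧
      ∀ μ : Fin q → Fin N, ∃ c : ι → C,
        ∏ a, S (μ a) = ∑ j, algebraMap C M (c j) • ∏ a, S (J j a)) :
    ∃ (A : Matrix (Fin r) (Fin r) M) (T : Fin N → MvPolynomial (Fin r) C), A.det ≠ 0 ∧
      (∀ l, (T l).IsHomogeneous m) ∧
      Submodule.span C (Set.range T) = homogeneousSubmodule (Fin r) C m ∧
      ∀ (l : Fin N) (v : Fin r → M), eval v (S l) = aeval (A.mulVec v) (T l) := by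
  classical
  obtain ⟨T, lam, hT, hlam, hPT⟩ := spec (C := C) S hS hspan.ge
  obtain ⟨TM, hTM⟩ : ∃ TM : Fin N → MvPolynomial (Fin r) M,
      TM = fun l => map (algebraMap C M) (T l) := ⟨_, rfl⟩
  have hTMh : ∀ l, (TM l).IsHomogeneous m := fun l => by
    rw [hTM]
    exact (hT l).map _
  have hlamM : ∀ α : Fin r →₀ ℕ, α.degree = m →
      ∑ l, MvPolynomial.C (algebraMap C M (lam α l)) * TM l = monomial α 1 := by
    intro α hα
    have h1 := congrArg (map (algebraMap C M)) (hlam α hα)
    rw [map_sum, map_monomial, map_one] at h1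
    rw [← h1, hTM]
    refine Finset.sum_congr rfl fun l _ => ?_
    rw [map_mul, map_C]
  -- a general remark on spans
  have hsp : ∀ (K : Type) [Field K] (F : Fin N → MvPolynomial (Fin r) K),
      (∀ l, (F l).IsHomogeneous m) →
      (∀ α : Fin r →₀ ℕ, α.degree = m → ∃ b : Fin N → K,
        ∑ l, MvPolynomial.C (b l) * F l = monomial α 1) →
      Submodule.span K (Set.range F) = homogeneousSubmodule (Fin r) K m := by
    intro K _ F hF hb
    apply le_antisymm
    · rw [Submodule.span_le]
      rintro _ ⟨l, rfl⟩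
      exact hF l
    · intro P hP
      rw [P.as_sum]
      refine Submodule.sum_mem _ fun α hα => ?_
      have h1 : α.degree = m := by
        by_contra h2
        exact (mem_support_iff.1 hα) (IsHomogeneous.coeff_eq_zero hP h2)
      obtain ⟨b, hb⟩ := hb α h1
      have h2 : monomial α (coeff α P) = coeff α P • monomial α (1 : K) := by
        rw [smul_monomial, smul_eq_mul, mul_one]
      rw [h2, ← hb]
      refine Submodule.smul_mem _ _ (Submodule.sum_mem _ fun l _ => ?_)
      rw [← smul_eq_C_mul]
      exact Submodule.smul_mem _ _ (Submodule.subset_span ⟨l, rfl⟩)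
  have hTspan := hsp M TM hTMh fun α hα => ⟨_, hlamM α hα⟩
  have hTCspan := hsp C T hT fun α hα => ⟨_, hlam α hα⟩
  have hR := rel hm S hS hspan H T hT (by rw [← hTM]; exact hTspan) hPT
  rw [← hTM] at hR
  -- the images of the monomials
  obtain ⟨Λ, hΛ⟩ : ∃ Λ : (Fin r →₀ ℕ) → MvPolynomial (Fin N) M,
      Λ = fun α => ∑ l, MvPolynomial.C (algebraMap C M (lam α l)) * X l := ⟨_, rfl⟩
  have hΛe : ∀ (F : Fin N → MvPolynomial (Fin r) M) (α : Fin r →₀ ℕ),
      aeval F (Λ α) = ∑ l, MvPolynomial.C (algebraMap C M (lam α l)) * F l := by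
    intro F α
    rw [hΛ]
    simp only [map_sum, map_mul, aeval_X, aeval_C]
    rfl
  have hΛT : ∀ α : Fin r →₀ ℕ, α.degree = m → aeval TM (Λ α) = monomial α 1 := by
    intro α hα
    rw [hΛe, hlamM α hα]
  obtain ⟨s, hs⟩ : ∃ s : (Fin r →₀ ℕ) → MvPolynomial (Fin r) M, s = fun α => aeval S (Λ α) :=
    ⟨_, rfl⟩
  have hsh : ∀ α, (s α).IsHomogeneous m := by
    intro α
    rw [hs]
    simp only
    rw [hΛe]
    exact IsHomogeneous.sum _ _ _ fun l _ => (hS l).C_mul _
  -- the forms in terms of the `s α`
  have hR1 : ∀ l, S l = ∑ α ∈ (T l).support, MvPolynomial.C (algebraMap C M (coeff α (T l))) * s α := by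
    intro l
    have h1 := (hR (X l - ∑ α ∈ (T l).support,
      MvPolynomial.C (algebraMap C M (coeff α (T l))) * Λ α)).1 (by
        rw [map_sub, map_sum, aeval_X, sub_eq_zero]
        have h2 : TM l = map (algebraMap C M) (T l) := by rw [hTM]
        rw [h2]
        conv_lhs => rw [(T l).as_sum]
        rw [map_sum]
        refine Finset.sum_congr rfl fun α hα => ?_
        have h3 : α.degree = m := by
          by_contra h2
          exact (mem_support_iff.1 hα) ((hT l).coeff_eq_zero h2)
        rw [map_mul, aeval_C, hΛT α h3, map_monomial]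
        have h4 : algebraMap M (MvPolynomial (Fin r) M) (algebraMap C M (coeff α (T l))) =
          MvPolynomial.C (algebraMap C M (coeff α (T l))) := rfl
        rw [h4, C_mul_monomial, mul_one])
    rw [map_sub, map_sum, aeval_X, sub_eq_zero] at h1
    rw [h1]
    refine Finset.sum_congr rfl fun α _ => ?_
    rw [map_mul, aeval_C, hs]
    rfl
  -- the exponents
  obtain ⟨i0, hi0⟩ : ∃ i0 : Fin r, i0 = ⟨0, hr⟩ := ⟨_, rfl⟩
  obtain ⟨β, hβ⟩ : ∃ β : Fin r → Fin r →₀ ℕ,
      β = fun i => Finsupp.single i0 (m - 1) + Finsupp.single i 1 := ⟨_, rfl⟩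
  have hβd : ∀ i, (β i).degree = m := by
    intro i
    rw [hβ]
    simp only
    rw [map_add, Finsupp.degree_single, Finsupp.degree_single]
    omega
  have hβm : ∀ i, (monomial (β i) (1 : M)) = X i0 ^ (m - 1) * X i := by
    intro i
    rw [hβ]
    exact mono_eq' i0 i
  have hmm : (m - 1) + 1 = m := by omega
  have hR3 : ∀ α : Fin r →₀ ℕ, α.degree = m →
      s α * (s (β i0)) ^ (m - 1) = ∏ i, (s (β i)) ^ (α i) := by
    intro α hα
    have h1 := (hR (Λ α * (Λ (β i0)) ^ (m - 1) - ∏ i, (Λ (β i)) ^ (α i))).1 (by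
      rw [map_sub, map_mul, map_pow, map_prod, sub_eq_zero]
      simp only [map_pow]
      rw [hΛT α hα, hΛT _ (hβd i0), hβm, mono_eq]
      have h2 : ∀ i, aeval TM (Λ (β i)) = X i0 ^ (m - 1) * X i := fun i => by
        rw [hΛT _ (hβd i), hβm]
      simp only [h2]
      rw [prod_aux _ _ _ hα, ← pow_succ, hmm, ← pow_mul, mul_comm, Nat.mul_comm m])
    rw [map_sub, map_mul, map_pow, map_prod, sub_eq_zero] at h1
    simp only [map_pow] at h1
    rw [hs]
    exact h1
  -- independence
  have hind : ∀ α γ : Fin r →₀ ℕ, α.degree = m → γ.degree = m → α ≠ γ → ∀ k : M,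
      s γ ≠ MvPolynomial.C k * s α := by
    intro α γ hα hγ hne k h
    have h1 := (hR (Λ γ - MvPolynomial.C k * Λ α)).2 (by
      rw [map_sub, map_mul, aeval_C, sub_eq_zero]
      rw [hs] at h
      exact h)
    rw [map_sub, map_mul, aeval_C, hΛT _ hα, hΛT _ hγ] at h1
    have h2 := congrArg (coeff γ) h1
    have h3 : algebraMap M (MvPolynomial (Fin r) M) k = MvPolynomial.C k := rfl
    rw [h3, C_mul_monomial, coeff_sub, coeff_monomial, coeff_monomial, if_pos rfl, if_neg hne,
      coeff_zero] at h2
    norm_num at h2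
  have hne : s (β i0) ≠ 0 := by
    intro h
    have h1 := (hR (Λ (β i0))).2 (by
      rw [hs] at h
      exact h)
    rw [hΛT _ (hβd i0)] at h1
    have h2 := congrArg (coeff (β i0)) h1
    rw [coeff_monomial, if_pos rfl, coeff_zero] at h2
    exact one_ne_zero h2
  -- the first linear form
  have hpow : ∀ i, (s (β i0)) ^ (m - 1) * s (Finsupp.single i m) = (s (β i)) ^ m := by
    intro i
    have h1 := hR3 (Finsupp.single i m) (Finsupp.degree_single _ _)
    rw [mul_comm, h1]
    rw [Finset.prod_eq_single i]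
    · rw [Finsupp.single_eq_same]
    · intro j _ hj
      rw [Finsupp.single_eq_of_ne (by exact hj), pow_zero]
    · intro h
      exact absurd (Finset.mem_univ i) h
  obtain ⟨w, hw, hw1⟩ : ∃ w, s (β i0) = w ^ m ∧ w.IsHomogeneous 1 := by
    by_cases hr1 : r = 1
    · exact exists_root_one hr1 hm (hsh _)
    · obtain ⟨i, hi⟩ : ∃ i : Fin r, i = ⟨1, by omega⟩ := ⟨_, rfl⟩
      refine exists_root hm (hsh (β i0)) (hsh (β i)) hne ?_ (hpow i)
      refine hind (β i0) (β i) (hβd _) (hβd _) ?_
      intro h
      have h1 := DFunLike.congr_fun h i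
      rw [hβ] at h1
      have hne' : i0 ≠ i := by
        rw [hi, hi0]
        intro h2
        exact absurd (congrArg Fin.val h2) (by norm_num)
      simp only [Finsupp.add_apply, Finsupp.single_eq_same] at h1
      rw [Finsupp.single_eq_of_ne hne'.symm, Finsupp.single_eq_of_ne hne'.symm] at h1
      omega
  have hw0 : w ≠ 0 := by
    rintro rfl
    rw [zero_pow (by omega)] at hw
    exact hne hw
  -- the linear forms
  have hl : ∀ i, ∃ e : MvPolynomial (Fin r) M, s (β i) = w ^ (m - 1) * e ∧ e.IsHomogeneous 1 := by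
    intro i
    have h1 : w ^ (m - 1) ∣ s (β i) := by
      rw [← UniqueFactorizationMonoid.pow_dvd_pow_iff_dvd (R := MvPolynomial (Fin r) M)
        (n := m) (by omega)]
      refine ⟨s (Finsupp.single i m), ?_⟩
      rw [← hpow i, hw, ← pow_mul, ← pow_mul, Nat.mul_comm m]
    obtain ⟨e, he⟩ := h1
    have h2 : (w ^ (m - 1)).IsHomogeneous (m - 1) := by
      have := hw1.pow (m - 1)
      rwa [one_mul] at this
    have h3 : (s (β i)).IsHomogeneous ((m - 1) + 1) := by
      rw [hmm]
      exact hsh _
    exact ⟨homogeneousComponent 1 e, quot h2 h3 he, homogeneousComponent_isHomogeneous 1 e⟩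
  choose e he he1 using hl
  have hsα : ∀ α : Fin r →₀ ℕ, α.degree = m → s α = ∏ i, e i ^ (α i) := by
    intro α hα
    have h1 := hR3 α hα
    simp only [he] at h1
    rw [prod_aux _ _ _ hα, ← he, hw, ← pow_mul, Nat.mul_comm m, mul_comm] at h1
    exact mul_left_cancel₀ (pow_ne_zero _ hw0) h1
  -- the matrix
  have hA : ∀ i, ∃ a : Fin r → M, ∑ j, a j • (X j : MvPolynomial (Fin r) M) = e i := by
    intro i
    have h1 : e i ∈ homogeneousSubmodule (Fin r) M 1 := he1 i
    rw [homogeneousSubmodule_one_eq_span_X, Submodule.mem_span_range_iff_exists_fun] at h1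
    exact h1
  choose A hA using hA
  have hev : ∀ (i : Fin r) (v : Fin r → M), eval v (e i) = (Matrix.of A).mulVec v i := by
    intro i v
    rw [← hA i, map_sum, Matrix.mulVec, dotProduct]
    refine Finset.sum_congr rfl fun j _ => ?_
    rw [smul_eval, eval_X]
    rfl
  have hfin : ∀ (l : Fin N) (v : Fin r → M),
      eval v (S l) = aeval ((Matrix.of A).mulVec v) (T l) := by
    intro l v
    rw [hR1 l, map_sum, aeval_def, eval₂_eq']
    refine Finset.sum_congr rfl fun α hα => ?_
    have h3 : α.degree = m := by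
      by_contra h2
      exact (mem_support_iff.1 hα) ((hT l).coeff_eq_zero h2)
    rw [map_mul, eval_C, hsα α h3, map_prod]
    congr 1
    refine Finset.prod_congr rfl fun i _ => ?_
    rw [map_pow, hev]
  refine ⟨Matrix.of A, T, ?_, hT, hTCspan, hfin⟩
  intro hdet
  obtain ⟨v, hv, hv0⟩ := Matrix.exists_mulVec_eq_zero_iff.2 hdet
  apply hv
  have h1 : ∀ l, eval v (S l) = 0 := by
    intro l
    rw [hfin l v, hv0, aeval_zero]
    have h2 : constantCoeff (T l) = 0 := by
      rw [constantCoeff_eq]
      refine (hT l).coeff_eq_zero ?_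
      rw [map_zero]
      omega
    rw [h2, map_zero]
  have h2 : ∀ P ∈ homogeneousSubmodule (Fin r) M m, eval v P = 0 := by
    intro P hP
    rw [← hspan] at hP
    induction hP using Submodule.span_induction with
    | mem x hx =>
      obtain ⟨l, rfl⟩ := hx
      exact h1 l
    | zero => exact map_zero _
    | add x y _ _ hx hy => rw [map_add, hx, hy, add_zero]
    | smul a x _ hx => rw [smul_eval, hx, mul_zero]
  funext i
  have h3 := h2 (X i ^ m) (by
    have := (isHomogeneous_X M i).pow m
    rwa [one_mul] at this)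
  rw [map_pow, eval_X] at h3
  exact pow_eq_zero_iff (by omega) |>.1 h3

end Pool.Agent.H917.G

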