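import Pool.Agent.H917.E2

/-!
# PROJECT TORI: definitions for commuting (and not yet commuting) polynomial vector fields

States are points of a projective space over a finite index set `ι`; they are given by vectors
`x : ι → ℂ`, and `PE x y` says that the vectors `x` and `y` give the same point. The structure `FD` is
a projective variety which is covered by good charts `x_j = 1` (`j ∈ J`), on which `r` vector fields
are given by polynomials; `K j` is the ideal of the part of the variety in the chart `j`.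
-/

set_option autoImplicit false
set_option linter.overlappingInstances false
set_option linter.unusedSectionVars false

open MvPolynomial Filter Topology Metric Set

namespace Pool.Agent.H917.G

/-- equality of the points of the projective space with given homogeneous coordinates -/
def PE {ι : Type} (x y : ι → ℂ) : Prop := ∃ c : ℂ, c ≠ 0 ∧ ∀ i, x i = c * y i

section PE

variable {ι : Type} {x y z : ι → ℂ}

theorem PE.refl (x : ι → ℂ) : PE x x := ⟨1, one_ne_zero, fun _ => (one_mul _).symm⟩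

theorem PE.symm (h : PE x y) : PE y x := by
  obtain ⟨c, hc, h⟩ := h
  refine ⟨c⁻¹, inv_ne_zero hc, fun i => ?_⟩
  rw [h, inv_mul_cancel_left₀ hc]

theorem PE.trans (h : PE x y) (h' : PE y z) : PE x z := by
  obtain ⟨c, hc, h⟩ := h
  obtain ⟨c', hc', h'⟩ := h'
  exact ⟨c * c', mul_ne_zero hc hc', fun i => by rw [h, h', mul_assoc]⟩

theorem PE.minor (h : PE x y) (i j : ι) : x i * y j - x j * y i = 0 := by
  obtain ⟨c, hc, h⟩ := h
  rw [h, h]
  ring

theorem pe_of_minor (hx : x ≠ 0) (hy : y ≠ 0) (h : ∀ i j, x i * y j - x j * y i = 0) :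
    PE x y := by
  obtain ⟨j, hj⟩ := Function.ne_iff.1 hy
  have hj : y j ≠ 0 := hj
  refine ⟨x j / y j, ?_, fun i => ?_⟩
  · intro h0
    have hxj : x j = 0 := by
      rcases div_eq_zero_iff.1 h0 with h1 | h1
      · exact h1
      · exact absurd h1 hj
    apply hx
    funext i
    have h1 := h i j
    rw [hxj, zero_mul, sub_zero] at h1
    exact (mul_eq_zero.1 h1).resolve_right hj
  · have h1 := h i j
    field_simp
    linear_combination h1

theorem PE.div_eq (h : PE x y) (j k : ι) : x k / x j = y k / y j := by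
  obtain ⟨c, hc, h⟩ := h
  rw [h, h, mul_div_mul_left _ _ hc]

theorem PE.ne_iff (h : PE x y) (j : ι) : x j ≠ 0 ↔ y j ≠ 0 := by
  obtain ⟨c, hc, h⟩ := h
  rw [h]
  simp [hc]

theorem pe_div {j : ι} (hj : x j ≠ 0) : PE (fun k => x k / x j) x :=
  ⟨(x j)⁻¹, inv_ne_zero hj, fun _ => div_eq_inv_mul _ _⟩

end PE

section flows

variable {σ : Type} {r : ℕ}

/-- the combination `∑ c_a θ_a` of the vector fields -/
noncomputable def cmb (θ : Fin r → σ → MvPolynomial σ ℂ) (c : Fin r → ℂ) :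
    σ → MvPolynomial σ ℂ := fun v => ∑ a, C (c a) * θ a v

/-- the zeros of an ideal -/
def Zs (K : Ideal (MvPolynomial σ ℂ)) : Set (σ → ℂ) := {x | ∀ P ∈ K, eval x P = 0}

variable [Fintype σ]

/-- the flow of the vector field `∑ c_a θ_a` at the time `1`, given by its Taylor series -/
noncomputable def Fl (θ : Fin r → σ → MvPolynomial σ ℂ) (c : Fin r → ℂ) (x : σ → ℂ) : σ → ℂ :=
  fun v => psum (fl (cmb θ c) x (X v)) 1

/-- For all `x` with coordinates of absolute value at most `ρ` and all `c` with `‖c‖ ≤ R` the terms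
of the Taylor series are at most `ρ`. -/
structure Rad (θ : Fin r → σ → MvPolynomial σ ℂ) (ρ R : ℝ) : Prop where
  one_le : 1 ≤ ρ
  pos : 0 < R
  bd : ∀ x : σ → ℂ, (∀ v, ‖x v‖ ≤ ρ) → ∀ c : Fin r → ℂ, ‖c‖ ≤ R → ∀ (v : σ) (k : ℕ),
    ‖eval x ((vf (cmb θ c))^[k] (X v))‖ / k.factorial ≤ ρ

/-- the velocity: the linear map `c ↦ ∑ c_a θ_a(y)` -/
noncomputable def vel (θ : Fin r → σ → MvPolynomial σ ℂ) (y : σ → ℂ) :
    (Fin r → ℂ) →L[ℂ] (σ → ℂ) :=
  ContinuousLinearMap.pi fun v => ∑ a, eval y (θ a v) • ContinuousLinearMap.proj a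

theorem vel_apply (θ : Fin r → σ → MvPolynomial σ ℂ) (y : σ → ℂ) (c : Fin r → ℂ) (v : σ) :
    vel θ y c v = eval y (cmb θ c v) := by
  simp [vel, cmb, mul_comm]

/-- the matrix of `ad e_a` with respect to structure constants `f` -/
def adm (f : Fin r → Fin r → Fin r → ℂ) (a : Fin r) : Matrix (Fin r) (Fin r) ℂ :=
  Matrix.of fun e b => f a b e

/-- the vector `exp(-τ N) c` -/
noncomputable def ecx (N : Matrix (Fin r) (Fin r) ℂ) (τ : ℂ) (c : Fin r → ℂ) : Fin r → ℂ :=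
  fun e => ∑' k : ℕ, (-τ) ^ k / k.factorial * ((N ^ k).mulVec c) e

end flows

/-- A projective variety with `r` vector fields in charts. -/
structure FD (ι : Type) [Fintype ι] (r : ℕ) where
  /-- the good charts -/
  J : Set ι
  /-- the ideals of the variety in the charts `x_j = 1` -/
  K : ι → Ideal (MvPolynomial ι ℂ)
  /-- the vector fields in the charts -/
  th : ι → Fin r → ι → MvPolynomial ι ℂ
  /-- the structure constants -/
  f : Fin r → Fin r → Fin r → ℂ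
  /-- a bound -/
  ρ : ℝ
  /-- linear forms -/
  L : Fin (r + 1) → ι → ℂ
  hρ : 1 ≤ ρ
  one : ∀ j ∈ J, X j - 1 ∈ K j
  stab : ∀ j ∈ J, ∀ a, ∀ P ∈ K j, vf (th j a) P ∈ K j
  brk : ∀ j ∈ J, ∀ a b k, vf (th j a) (th j b k) - vf (th j b) (th j a k) -
    ∑ e, C (f a b e) * th j e k ∈ K j
  trans : ∀ j ∈ J, ∀ j' ∈ J, ∀ x ∈ Zs (K j), x j' ≠ 0 →
    (fun k => x k / x j') ∈ Zs (K j') ∧ ∀ a k, eval (fun k => x k / x j') (th j' a k) * x j' ^ 2 =
      eval x (th j a k) * x j' - x k * eval x (th j a j')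
  ndg : ∀ j ∈ J, ∀ x ∈ Zs (K j), ∀ c : Fin r → ℂ, (∀ k, eval x (cmb (th j) c k) = 0) → c = 0
  cov : ∀ j ∈ J, ∀ x ∈ Zs (K j), ∃ j' ∈ J, x j' ≠ 0 ∧ ∀ k, ‖x k‖ ≤ ρ * ‖x j'‖
  fin : ∀ k, ∃ e : ℕ, 1 ≤ e ∧ ∃ A : Fin e → MvPolynomial (Fin (r + 1)) ℂ,
    (∀ i, (A i).IsHomogeneous (e - i)) ∧ ∀ j ∈ J, ∀ x ∈ Zs (K j),
      x k ^ e + ∑ i : Fin e, eval (fun t => ∑ l, L t l * x l) (A i) * x k ^ (i : ℕ) = 0

namespace FD

variable {ι : Type} [Fintype ι] {r : ℕ} (D : FD ι r)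

/-- the vectors of homogeneous coordinates of the points of the variety -/
def St (x : ι → ℂ) : Prop := ∃ j ∈ D.J, x j ≠ 0 ∧ (fun k => x k / x j) ∈ Zs (D.K j)

/-- `g` is a curve in the variety with the velocity `∑ c_a θ_a`, in homogeneous coordinates -/
structure Cv (c : Fin r → ℂ) (Ω : Set ℂ) (g : ℂ → ι → ℂ) : Prop where
  an : ∀ k, AnalyticOnNhd ℂ (fun z => g z k) Ω
  st : ∀ z ∈ Ω, D.St (g z)
  vel : ∀ z ∈ Ω, ∀ j ∈ D.J, g z j ≠ 0 → ∀ k, HasDerivAt (fun w => g w k / g w j)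
    (eval (fun k => g z k / g z j) (cmb (D.th j) c k)) z

/-- equality of points -/
def stoid : Setoid {x : ι → ℂ // D.St x} where
  r x y := PE x.1 y.1
  iseqv := ⟨fun x => PE.refl x.1, fun h => h.symm, fun h h' => h.trans h'⟩

/-- the points of the variety -/
def Pt : Type := Quotient D.stoid

variable {D}

/-- `x` is a vector of homogeneous coordinates of the point `P` -/
def Rep (P : D.Pt) (x : ι → ℂ) : Prop := ∃ h : D.St x, P = Quotient.mk D.stoid ⟨x, h⟩

theorem exists_rep (P : D.Pt) : ∃ x, Rep P x := by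
  obtain ⟨⟨x, h⟩, rfl⟩ := Quotient.exists_rep P
  exact ⟨x, h, rfl⟩

theorem Rep.st {P : D.Pt} {x : ι → ℂ} (h : Rep P x) : D.St x := h.1

theorem Rep.pe {P : D.Pt} {x y : ι → ℂ} (hx : Rep P x) (hy : Rep P y) : PE x y := by
  obtain ⟨h1, e1⟩ := hx
  obtain ⟨h2, e2⟩ := hy
  rw [e1] at e2
  exact Quotient.exact e2

theorem Rep.eq {P Q : D.Pt} {x y : ι → ℂ} (hx : Rep P x) (hy : Rep Q y) (h : PE x y) : P = Q := by
  obtain ⟨h1, rfl⟩ := hx
  obtain ⟨h2, rfl⟩ := hy
  exact Quotient.sound h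

theorem St.pe {x y : ι → ℂ} (hx : D.St x) (h : PE x y) : D.St y := by
  obtain ⟨j, hj, hxj, hK⟩ := hx
  refine ⟨j, hj, (h.ne_iff j).1 hxj, ?_⟩
  have h1 : (fun k => y k / y j) = fun k => x k / x j := funext fun k => (h.div_eq j k).symm
  rw [h1]
  exact hK

theorem St.rep {x : ι → ℂ} (hx : D.St x) : ∃ P : D.Pt, Rep P x := ⟨_, hx, rfl⟩

theorem Rep.of_pe {P : D.Pt} {x y : ι → ℂ} (hx : Rep P x) (h : PE x y) : Rep P y := by
  obtain ⟨h1, rfl⟩ := hx
  exact ⟨h1.pe h, Quotient.sound h⟩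

variable (D)

/-- a curve with the velocity `∑ c_a θ_a`, given by local homogeneous coordinates -/
def Lc (c : Fin r → ℂ) (U : Set ℂ) (f : ℂ → D.Pt) : Prop :=
  ∀ z0 ∈ U, ∃ Ω, IsOpen Ω ∧ z0 ∈ Ω ∧ ∃ g, D.Cv c Ω g ∧ ∀ z ∈ Ω, Rep (f z) (g z)

/-- The flows on the variety: `F c P` is the point which is reached from `P` in the direction `c`
at the time `1`. -/
structure Flow (R : ℝ) (F : (Fin r → ℂ) → D.Pt → D.Pt) : Prop where
  rad : ∀ j ∈ D.J, Rad (D.th j) (D.ρ + 1) R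
  zero : ∀ P, F 0 P = P
  add : ∀ (c : Fin r → ℂ) (s t : ℂ) (P : D.Pt), F ((s + t) • c) P = F (t • c) (F (s • c) P)
  rep : ∀ j ∈ D.J, ∀ u ∈ Zs (D.K j), (∀ k, ‖u k‖ ≤ D.ρ + 1) → ∀ P : D.Pt, Rep P u →
    ∀ c : Fin r → ℂ, ‖c‖ < R → Rep (F c P) (Fl (D.th j) c u)
  lc : ∀ (c : Fin r → ℂ) (P : D.Pt), D.Lc c univ fun z => F (z • c) P

end FD

end Pool.Agent.H917.G
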