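import Mathlib

/-!
# PROJECT ALGHYP (helper917), task H1: Picard-Vessiot extensions exist and have no new constants

## Paper proof

`K` is a differential field of characteristic zero (a `ℂ`-algebra) whose constants are exactly `ℂ`, and
`A` a matrix. Let `R0 = MvPolynomial ((Fin n × Fin n) ⊕ (Fin n × Fin n)) K` with variables `X_ij`, `Y_ij`
and the derivation `∂` with `∂ (C a) = C (D a)`, `∂ X = A X`, `∂ Y = - Y A` (matrices). It is a
`ℂ`-derivation (build it with `MvPolynomial.mkDerivation` for the part on the variables plus the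
coefficientwise derivation; or as a derivation of `R0` over `ℤ` or `ℂ`, see e.g.
`Differential`/`Derivation.mapCoeff`-like constructions for `Polynomial`/`MvPolynomial`). The ideal `I0`
generated by the entries of `X Y - 1` is stable under `∂` (`∂(XY - 1) = A (XY) - (XY) A =
A (XY - 1) - (XY - 1) A`) and proper (`X = Y = 1` is a zero).

**(1) Maximal stable ideals.** By Zorn's lemma there is an ideal `J ⊇ I0` which is maximal among the
proper `∂`-stable ideals. Let `R' = R0 / J`, with the induced derivation `∂`; it has no `∂`-stable ideals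
except `0` and `R'`. `R'` is a domain: (a) let `a b = 0`, `a ≠ 0`; the set `{r | ∃ m, r b^m = 0}` is an
ideal which is `∂`-stable (`r b^m = 0` gives `∂r b^{m+1} + m r b^m ∂b = 0`, so `∂r b^{m+1} = 0`) and
contains `a ≠ 0`, so it contains `1` and `b` is nilpotent. (b) the nilradical is `∂`-stable in
characteristic zero: let `b ≠ 0` be nilpotent, `b^m = 0`, `b^{m-1} ≠ 0`, `m ≥ 2`; `0 = ∂(b^m) =
m b^{m-1} ∂b`, so `∂b` is a zero divisor (or zero) and by (a), applied to `a = b^{m-1}`, nilpotent. So the
nilradical is `0` (it does not contain `1`), and by (a) `R'` is a domain. (`R'` is a `ℚ`-algebra.)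

**(2) Constants.** Let `L = Frac R'` with the extended derivation `D'` (for derivations of a fraction
field see `Derivation` and `IsLocalization`/`IsFractionRing` in Mathlib, e.g. `Derivation.liftOfSurjective`,
`Differential`..., or define it by the quotient rule). Let `c ∈ L`, `D' c = 0`. The ideal
`{r ∈ R' | r c ∈ R'}` is `∂`-stable (`∂(r c) = ∂r · c`) and not zero, so it contains `1`: `c ∈ R'`.
For each `λ ∈ ℂ` the ideal generated by `c - λ` is `∂`-stable, so `c = λ` or `c - λ` is a unit of `R'`.
Suppose that `c ≠ λ` for all `λ ∈ ℂ`. If `c` is transcendental over `K`: `R'` is a finitely generated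
`K`-algebra and a domain, and contains the polynomial ring `K[c]`; so there is `f ∈ K[c]`, `f ≠ 0`, such
that every homomorphism `φ : K[c] → Ω` to an algebraic closure `Ω` of `K` with `φ(f) ≠ 0` extends to `R'`
(e.g. Mathlib: `PrimeSpectrum`/Chevalley, generic freeness
(`Algebra.exists_...`, `exists_integral_inj_algHom_of_fg`, `IsIntegral` and `Ideal.exists_ideal_over_...`),
`Module.Free` generic flatness; `isFractionRing`+Noether normalization of `R' ⊗ K(c)`; choose what you
like; only the following is needed: for all but finitely many `λ ∈ ℂ` there is a homomorphism from `R'`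
to a nontrivial ring which maps `c` to `λ`). As `ℂ` is infinite, `f(λ) ≠ 0` for some `λ ∈ ℂ ⊆ K`, and the
extension maps `c - λ` to `0`: it is not a unit, a contradiction. If `c` is algebraic over `K`, let
`P = T^d + a_{d-1} T^{d-1} + …` be its minimal polynomial over `K`; differentiating `P(c) = 0` gives
`∑ (D a_i) c^i = 0` of smaller degree, so `D a_i = 0` and `a_i ∈ ℂ`: `c` is algebraic over `ℂ`, hence
`c ∈ ℂ` (`ℂ` is algebraically closed), a contradiction.

**(3)** `i : K → L` is the structure map, `X`, `Y` are the images of the variables.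
-/

set_option autoImplicit false
set_option linter.overlappingInstances false
set_option linter.unusedSectionVars false

namespace Pool.Agent.H917.H1aux

/-! ### derivations from maps to dual numbers -/

section dual
variable {A T : Type} [CommRing A] [Algebra ℂ A] [CommRing T] [Algebra ℂ T]

/-- a section of the projection of dual numbers gives a derivation -/
noncomputable def ofDual (φ : T →ₐ[ℂ] TrivSqZeroExt T T) (h : ∀ x, (φ x).fst = x) :
    Derivation ℂ T T :=
  Derivation.mk'
    { toFun := fun x => (φ x).snd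
      map_add' := fun x y => by rw [map_add, TrivSqZeroExt.snd_add]
      map_smul' := fun c x => by rw [map_smul, TrivSqZeroExt.snd_smul]; rfl } (by
    intro a b
    change (φ (a * b)).snd = a • (φ b).snd + b • (φ a).snd
    rw [map_mul, TrivSqZeroExt.snd_mul, h, h]
    simp [mul_comm])

theorem ofDual_apply (φ : T →ₐ[ℂ] TrivSqZeroExt T T) (h : ∀ x, (φ x).fst = x) (x : T) :
    ofDual φ h x = (φ x).snd := rfl

/-- the map to the dual numbers given by a derivation -/
noncomputable def dualOf (d : Derivation ℂ A A) (f : A →ₐ[ℂ] T) : A →ₐ[ℂ] TrivSqZeroExt T T where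
  toFun a := (f a, f (d a))
  map_one' := by
    apply TrivSqZeroExt.ext
    · change f 1 = 1
      rw [map_one]
    · change f (d 1) = 0
      simp
  map_mul' a b := by
    apply TrivSqZeroExt.ext
    · change f (a * b) = f a * f b
      rw [map_mul]
    · rw [TrivSqZeroExt.snd_mul]
      change f (d (a * b)) = f a • f (d b) + MulOpposite.op (f b) • f (d a)
      rw [Derivation.leibniz]
      simp [mul_comm]
  map_zero' := by
    apply TrivSqZeroExt.ext
    · change f 0 = 0
      rw [map_zero]
    · change f (d 0) = 0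
      simp
  map_add' a b := by
    apply TrivSqZeroExt.ext
    · change f (a + b) = f a + f b
      rw [map_add]
    · change f (d (a + b)) = f (d a) + f (d b)
      rw [map_add, map_add]
  commutes' c := by
    apply TrivSqZeroExt.ext
    · change f (algebraMap ℂ A c) = algebraMap ℂ T c
      exact f.commutes c
    · change f (d (algebraMap ℂ A c)) = 0
      rw [Derivation.map_algebraMap, map_zero]

theorem dualOf_fst (d : Derivation ℂ A A) (f : A →ₐ[ℂ] T) (a : A) : (dualOf d f a).fst = f a := rfl
theorem dualOf_snd (d : Derivation ℂ A A) (f : A →ₐ[ℂ] T) (a : A) :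
    (dualOf d f a).snd = f (d a) := rfl

end dual

theorem exists_poly {K : Type} [Field K] [Algebra ℂ K] (D : Derivation ℂ K K) {σ : Type}
    (g : σ → MvPolynomial σ K) : ∃ d : Derivation ℂ (MvPolynomial σ K) (MvPolynomial σ K),
      (∀ a, d (MvPolynomial.C a) = MvPolynomial.C (D a)) ∧ ∀ i, d (MvPolynomial.X i) = g i := by
  let f : K →ₐ[ℂ] MvPolynomial σ K := IsScalarTower.toAlgHom ℂ K (MvPolynomial σ K)
  let e : MvPolynomial σ K →+* TrivSqZeroExt (MvPolynomial σ K) (MvPolynomial σ K) :=
    MvPolynomial.eval₂Hom (dualOf D f).toRingHom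
      (fun i => TrivSqZeroExt.inl (MvPolynomial.X i) + TrivSqZeroExt.inr (g i))
  have he : ∀ a, e (MvPolynomial.C a) = dualOf D f a := by
    intro a
    simp only [e, MvPolynomial.eval₂Hom_C]
    rfl
  have hX : ∀ i, e (MvPolynomial.X i) =
      TrivSqZeroExt.inl (MvPolynomial.X i) + TrivSqZeroExt.inr (g i) := by
    intro a
    simp only [e, MvPolynomial.eval₂Hom_X']
  let φ : MvPolynomial σ K →ₐ[ℂ] TrivSqZeroExt (MvPolynomial σ K) (MvPolynomial σ K) :=
    { e with
      commutes' := by
        intro c
        change e (algebraMap ℂ (MvPolynomial σ K) c) = _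
        rw [IsScalarTower.algebraMap_apply ℂ K (MvPolynomial σ K), MvPolynomial.algebraMap_eq, he]
        exact (dualOf D f).commutes c }
  have h : ∀ x, (φ x).fst = x := by
    intro x
    have h1 : ((TrivSqZeroExt.fstHom ℂ (MvPolynomial σ K) (MvPolynomial σ K)).toRingHom.comp e) =
        RingHom.id _ := by
      apply MvPolynomial.ringHom_ext
      · intro a
        change (e (MvPolynomial.C a)).fst = _
        rw [he, dualOf_fst]
        rfl
      · intro i
        change (e (MvPolynomial.X i)).fst = _
        rw [hX]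
        simp
    exact DFunLike.congr_fun h1 x
  refine ⟨ofDual φ h, ?_, ?_⟩
  · intro a
    rw [ofDual_apply]
    change (e (MvPolynomial.C a)).snd = _
    rw [he, dualOf_snd]
    rfl
  · intro i
    rw [ofDual_apply]
    change (e (MvPolynomial.X i)).snd = _
    rw [hX]
    simp

theorem exists_frac {A : Type} [CommRing A] [IsDomain A] [Algebra ℂ A] (d : Derivation ℂ A A) :
    ∃ D' : Derivation ℂ (FractionRing A) (FractionRing A),
      ∀ a, D' (algebraMap A (FractionRing A) a) = algebraMap A (FractionRing A) (d a) := by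
  let f : A →ₐ[ℂ] FractionRing A := IsScalarTower.toAlgHom ℂ A (FractionRing A)
  have hu : ∀ y : nonZeroDivisors A, IsUnit ((dualOf d f).toRingHom y) := by
    intro y
    rw [TrivSqZeroExt.isUnit_iff_isUnit_fst]
    change IsUnit (algebraMap A (FractionRing A) y)
    exact IsLocalization.map_units (FractionRing A) y
  let e : FractionRing A →+* TrivSqZeroExt (FractionRing A) (FractionRing A) :=
    IsLocalization.lift hu
  have he : ∀ a, e (algebraMap A (FractionRing A) a) = dualOf d f a := by
    intro a
    exact IsLocalization.lift_eq hu a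
  let φ : FractionRing A →ₐ[ℂ] TrivSqZeroExt (FractionRing A) (FractionRing A) :=
    { e with
      commutes' := by
        intro c
        change e (algebraMap ℂ (FractionRing A) c) = _
        rw [IsScalarTower.algebraMap_apply ℂ A (FractionRing A), he]
        exact (dualOf d f).commutes c }
  have h : ∀ x, (φ x).fst = x := by
    intro x
    have h1 : ((TrivSqZeroExt.fstHom ℂ (FractionRing A) (FractionRing A)).toRingHom.comp e) =
        RingHom.id _ := by
      apply IsLocalization.ringHom_ext (nonZeroDivisors A)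
      ext a
      change (e (algebraMap A (FractionRing A) a)).fst = _
      rw [he, dualOf_fst]
      rfl
    exact DFunLike.congr_fun h1 x
  refine ⟨ofDual φ h, ?_⟩
  intro a
  rw [ofDual_apply]
  change (e (algebraMap A (FractionRing A) a)).snd = _
  rw [he, dualOf_snd]
  rfl

/-! ### stable ideals -/

section stab
variable {R : Type} [CommRing R] [Algebra ℂ R]

/-- stable ideals -/
def Stab (d : Derivation ℂ R R) (I : Ideal R) : Prop := ∀ r ∈ I, d r ∈ I

theorem stab_span (d : Derivation ℂ R R) (S : Set R) (h : ∀ s ∈ S, d s ∈ Ideal.span S) :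
    Stab d (Ideal.span S) := by
  intro r hr
  induction hr using Submodule.span_induction with
  | mem x hx => exact h x hx
  | zero => rw [map_zero]; exact Submodule.zero_mem _
  | add x y _ _ hx hy => rw [map_add]; exact Submodule.add_mem _ hx hy
  | smul a x hx' hx =>
    rw [smul_eq_mul, Derivation.leibniz, smul_eq_mul, smul_eq_mul]
    exact Submodule.add_mem _ (Ideal.mul_mem_left _ _ hx) (Ideal.mul_mem_right _ _ hx')

theorem exists_max (d : Derivation ℂ R R) (I : Ideal R) (hI : Stab d I) (hI1 : I ≠ ⊤) :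
    ∃ J : Ideal R, I ≤ J ∧ Stab d J ∧ J ≠ ⊤ ∧ ∀ J' : Ideal R, Stab d J' → J ≤ J' →
      J' = J ∨ J' = ⊤ := by
  obtain ⟨J, hIJ, hJ⟩ := zorn_le_nonempty₀ {J : Ideal R | Stab d J ∧ J ≠ ⊤} (by
    intro c hc hch y hy
    refine ⟨sSup c, ⟨?_, ?_⟩, fun z hz => le_sSup hz⟩
    · intro r hr
      rw [Submodule.mem_sSup_of_directed ⟨y, hy⟩ hch.directedOn] at hr ⊢
      obtain ⟨z, hz, hrz⟩ := hr
      exact ⟨z, hz, (hc hz).1 r hrz⟩
    · rw [Ne, Ideal.eq_top_iff_one]
      intro h1
      rw [Submodule.mem_sSup_of_directed ⟨y, hy⟩ hch.directedOn] at h1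
      obtain ⟨z, hz, hrz⟩ := h1
      exact (hc hz).2 ((Ideal.eq_top_iff_one z).2 hrz)) I ⟨hI, hI1⟩
  refine ⟨J, hIJ, hJ.1.1, hJ.1.2, fun J' hJ' hle => ?_⟩
  by_cases h : J' = ⊤
  · exact Or.inr h
  · exact Or.inl (le_antisymm (hJ.2 ⟨hJ', h⟩ hle) hle)

/-- derivation on the quotient by a stable ideal -/
theorem exists_quot (d : Derivation ℂ R R) (J : Ideal R) (hJ : Stab d J) :
    ∃ d' : Derivation ℂ (R ⧸ J) (R ⧸ J),
      ∀ x, d' (Ideal.Quotient.mk J x) = Ideal.Quotient.mk J (d x) := by
  have hd : ∀ x, (Ideal.Quotient.mkₐ ℂ J) x = 0 → (Ideal.Quotient.mkₐ ℂ J) (d x) = 0 := by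
    intro x hx
    rw [Ideal.Quotient.mkₐ_eq_mk, Ideal.Quotient.eq_zero_iff_mem] at hx ⊢
    exact hJ x hx
  exact ⟨Derivation.liftOfSurjective (f := Ideal.Quotient.mkₐ ℂ J)
    (Ideal.Quotient.mkₐ_surjective ℂ J) hd, fun x =>
    Derivation.liftOfSurjective_apply (f := Ideal.Quotient.mkₐ ℂ J)
      (Ideal.Quotient.mkₐ_surjective ℂ J) hd x⟩

/-- no proper nonzero stable ideals -/
def Simp (d : Derivation ℂ R R) : Prop := ∀ I : Ideal R, Stab d I → I = ⊥ ∨ I = ⊤

theorem simp_quot (d : Derivation ℂ R R) (J : Ideal R)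
    (hm : ∀ J' : Ideal R, Stab d J' → J ≤ J' → J' = J ∨ J' = ⊤)
    (d' : Derivation ℂ (R ⧸ J) (R ⧸ J))
    (hd' : ∀ x, d' (Ideal.Quotient.mk J x) = Ideal.Quotient.mk J (d x)) : Simp d' := by
  intro I hI
  have h1 : Stab d (I.comap (Ideal.Quotient.mk J)) := by
    intro r hr
    rw [Ideal.mem_comap] at hr ⊢
    rw [← hd']
    exact hI _ hr
  have h2 : J ≤ I.comap (Ideal.Quotient.mk J) := by
    intro r hr
    rw [Ideal.mem_comap, Ideal.Quotient.eq_zero_iff_mem.2 hr]
    exact I.zero_mem
  rcases hm _ h1 h2 with h | h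
  · left
    rw [eq_bot_iff]
    intro x hx
    obtain ⟨r, rfl⟩ := Ideal.Quotient.mk_surjective x
    have : r ∈ I.comap (Ideal.Quotient.mk J) := hx
    rw [h] at this
    rw [Ideal.mem_bot]
    exact Ideal.Quotient.eq_zero_iff_mem.2 this
  · right
    rw [Ideal.eq_top_iff_one] at h ⊢
    rw [Ideal.mem_comap, map_one] at h
    exact h

theorem nilp (d : Derivation ℂ R R) (hs : Simp d) {a b : R} (hab : a * b = 0) (ha : a ≠ 0) :
    IsNilpotent b := by
  let I : Ideal R :=
    { carrier := {r | ∃ m : ℕ, r * b ^ m = 0}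
      zero_mem' := ⟨0, by simp⟩
      add_mem' := by
        rintro r s ⟨m, hm⟩ ⟨k, hk⟩
        refine ⟨m + k, ?_⟩
        rw [add_mul, pow_add]
        calc r * (b ^ m * b ^ k) + s * (b ^ m * b ^ k)
            = (r * b ^ m) * b ^ k + (s * b ^ k) * b ^ m := by ring
          _ = 0 := by rw [hm, hk]; ring
      smul_mem' := by
        rintro c r ⟨m, hm⟩
        refine ⟨m, ?_⟩
        rw [smul_eq_mul, mul_assoc, hm, mul_zero] }
  have hI : Stab d I := by
    rintro r ⟨m, hm⟩
    refine ⟨m + 1, ?_⟩
    have h1 := congrArg (fun z => d z * b) hm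
    simp only [map_zero, zero_mul, Derivation.leibniz, Derivation.leibniz_pow, smul_eq_mul,
      nsmul_eq_mul] at h1
    have h2 : r * (m * (b ^ (m - 1) * d b)) * b = 0 := by
      rcases Nat.eq_zero_or_pos m with h0 | h0
      · subst h0
        simp
      · have e : b ^ m = b ^ (m - 1) * b := by rw [← pow_succ, Nat.sub_add_cancel h0]
        calc r * (m * (b ^ (m - 1) * d b)) * b = m * d b * (r * (b ^ (m - 1) * b)) := by ring
          _ = 0 := by rw [← e, hm, mul_zero]
    rw [add_mul, h2, zero_add] at h1
    rw [pow_succ]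
    linear_combination h1
  have h1 : (1 : R) ∈ I := by
    rcases hs I hI with h | h
    · exfalso
      have : a ∈ I := ⟨1, by rw [pow_one]; exact hab⟩
      rw [h, Ideal.mem_bot] at this
      exact ha this
    · rw [h]; trivial
  obtain ⟨m, hm⟩ := h1
  exact ⟨m, by rwa [one_mul] at hm⟩

theorem dom (d : Derivation ℂ R R) (hs : Simp d) [Nontrivial R] : IsDomain R := by
  have hst : Stab d (nilradical R) := by
    intro b hb
    rw [mem_nilradical] at hb ⊢
    by_cases hb0 : b = 0
    · subst hb0
      rw [map_zero]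
      exact IsNilpotent.zero
    classical
    have hex : ∃ m, b ^ m = 0 := hb
    set m := Nat.find hex with hm
    have hm0 : b ^ m = 0 := Nat.find_spec hex
    have hm1 : m ≠ 0 := by
      intro h
      rw [h, pow_zero] at hm0
      exact one_ne_zero hm0
    have hm2 : b ^ (m - 1) ≠ 0 := Nat.find_min hex (by omega)
    have h1 : b ^ (m - 1) * ((m : R) * d b) = 0 := by
      have := congrArg d hm0
      rw [map_zero, Derivation.leibniz_pow, nsmul_eq_mul, smul_eq_mul] at this
      linear_combination this
    have h2 : IsNilpotent ((m : R) * d b) := nilp d hs h1 hm2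
    have hmu : ((m : ℂ)⁻¹ • ((m : R) * d b)) = d b := by
      have e : (m : R) * d b = (m : ℂ) • d b := by
        rw [Algebra.smul_def, map_natCast]
      rw [e, smul_smul, inv_mul_cancel₀ (by exact_mod_cast hm1), one_smul]
    rw [← hmu]
    exact IsNilpotent.smul h2 _
  have hred : nilradical R = ⊥ := by
    rcases hs _ hst with h | h
    · exact h
    · exfalso
      rw [Ideal.eq_top_iff_one, mem_nilradical] at h
      exact not_isNilpotent_one h
  have : NoZeroDivisors R := by
    constructor
    intro a b hab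
    by_cases ha : a = 0
    · exact Or.inl ha
    · right
      have h1 := nilp d hs hab ha
      have : b ∈ nilradical R := mem_nilradical.2 h1
      rw [hred] at this
      exact this
  exact NoZeroDivisors.to_isDomain R

end stab


/-! ### constants -/

section const
variable {K L : Type} [Field K] [Field L] [Algebra ℂ K] [Algebra ℂ L] [Algebra K L]
  [IsScalarTower ℂ K L]

theorem alg_const (D : Derivation ℂ K K) (hC : ∀ x, D x = 0 → ∃ c : ℂ, x = algebraMap ℂ K c)
    (D' : Derivation ℂ L L) (hD' : ∀ a, D' (algebraMap K L a) = algebraMap K L (D a)) (c : L)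
    (hc : D' c = 0) (halg : IsAlgebraic K c) : ∃ z : ℂ, c = algebraMap ℂ L z := by
  set P := minpoly K c with hP
  have hint : IsIntegral K c := halg.isIntegral
  have hmon : P.Monic := minpoly.monic hint
  set Q : Polynomial K := ∑ j ∈ Finset.range P.natDegree,
    Polynomial.C (D (P.coeff j)) * Polynomial.X ^ j with hQ
  have hpow : ∀ j : ℕ, D' (c ^ j) = 0 := by
    intro j
    rw [Derivation.leibniz_pow, hc, smul_zero, smul_zero]
  have hQc : Polynomial.aeval c Q = 0 := by
    have h1 : D' (Polynomial.aeval c P) = 0 := by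
      rw [hP, minpoly.aeval, map_zero]
    rw [Polynomial.aeval_eq_sum_range, map_sum, Finset.sum_range_succ] at h1
    have h2 : ∀ j, D' (P.coeff j • c ^ j) = algebraMap K L (D (P.coeff j)) * c ^ j := by
      intro j
      rw [Algebra.smul_def, Derivation.leibniz, hpow, hD', smul_zero, zero_add, smul_eq_mul,
        mul_comm]
    have h3 : P.coeff P.natDegree = 1 := hmon.coeff_natDegree
    rw [h2 P.natDegree, h3, Derivation.map_one_eq_zero, map_zero, zero_mul, add_zero] at h1
    rw [hQ, map_sum, ← h1]
    apply Finset.sum_congr rfl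
    intro j _
    rw [h2 j, map_mul, map_pow, Polynomial.aeval_C, Polynomial.aeval_X]
  have hQdeg : Q.degree < P.degree := by
    rw [Polynomial.degree_eq_natDegree hmon.ne_zero, hQ]
    refine lt_of_le_of_lt (Polynomial.degree_sum_le _ _) ?_
    rw [Finset.sup_lt_iff (by exact_mod_cast WithBot.bot_lt_coe _)]
    intro j hj
    refine lt_of_le_of_lt (Polynomial.degree_C_mul_X_pow_le _ _) ?_
    exact_mod_cast Finset.mem_range.1 hj
  have hQ0 : Q = 0 := by
    by_contra h
    exact absurd (minpoly.degree_le_of_ne_zero K c h hQc) (not_le.2 hQdeg)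
  have hco : ∀ j, D (P.coeff j) = 0 := by
    intro j
    rcases lt_trichotomy j P.natDegree with h | h | h
    · have h1 : Q.coeff j = D (P.coeff j) := by
        rw [hQ, Polynomial.finsetSum_coeff, Finset.sum_eq_single j]
        · rw [Polynomial.coeff_C_mul_X_pow, if_pos rfl]
        · intro i _ hi
          rw [Polynomial.coeff_C_mul_X_pow, if_neg (Ne.symm hi)]
        · intro hj
          exact absurd (Finset.mem_range.2 h) hj
      rw [← h1, hQ0, Polynomial.coeff_zero]
    · rw [h, hmon.coeff_natDegree, Derivation.map_one_eq_zero]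
    · rw [Polynomial.coeff_eq_zero_of_natDegree_lt h, map_zero]
  have hl : P ∈ Polynomial.lifts (algebraMap ℂ K) := by
    rw [Polynomial.lifts_iff_coeff_lifts]
    intro j
    obtain ⟨z, hz⟩ := hC _ (hco j)
    exact ⟨z, hz.symm⟩
  obtain ⟨P0, hP0⟩ := (Polynomial.mem_lifts _).1 hl
  have halg' : IsAlgebraic ℂ c := by
    refine ⟨P0, ?_, ?_⟩
    · intro h
      rw [h, Polynomial.map_zero] at hP0
      exact hmon.ne_zero hP0.symm
    · rw [← Polynomial.aeval_map_algebraMap K, hP0, hP, minpoly.aeval]
  have hdeg := IsAlgClosed.degree_eq_one_of_irreducible ℂ (minpoly.irreducible halg'.isIntegral)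
  obtain ⟨z, hz⟩ := minpoly.mem_range_of_degree_eq_one ℂ c hdeg
  exact ⟨z, hz.symm⟩

end const

section const2
variable {K R : Type} [Field K] [CommRing R] [IsDomain R] [Algebra ℂ K] [Algebra ℂ R] [Algebra K R]
  [IsScalarTower ℂ K R]

theorem const_mem (d : Derivation ℂ R R) (hs : Simp d)
    (D' : Derivation ℂ (FractionRing R) (FractionRing R))
    (hD' : ∀ a, D' (algebraMap R (FractionRing R) a) = algebraMap R (FractionRing R) (d a))
    (c : FractionRing R) (hc : D' c = 0) : ∃ r : R, algebraMap R (FractionRing R) r = c := by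
  let I : Ideal R :=
    { carrier := {r | ∃ s : R, algebraMap R (FractionRing R) r * c =
        algebraMap R (FractionRing R) s}
      zero_mem' := ⟨0, by simp⟩
      add_mem' := by
        rintro r r' ⟨s, hs⟩ ⟨s', hs'⟩
        exact ⟨s + s', by rw [map_add, map_add, add_mul, hs, hs']⟩
      smul_mem' := by
        rintro a r ⟨s, hs⟩
        exact ⟨a * s, by rw [smul_eq_mul, map_mul, map_mul, mul_assoc, hs]⟩ }
  have hI : Stab d I := by
    rintro r ⟨s, hs⟩
    refine ⟨d s, ?_⟩
    rw [← hD', ← hD', ← hs, Derivation.leibniz, hc, smul_zero, zero_add, smul_eq_mul, mul_comm]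
  rcases hs I hI with h | h
  · exfalso
    obtain ⟨⟨a, b⟩, hab⟩ := IsLocalization.surj (nonZeroDivisors R) c
    have h1 : (b : R) ∈ I := ⟨a, by rw [mul_comm]; exact hab⟩
    rw [h, Ideal.mem_bot] at h1
    exact nonZeroDivisors.ne_zero b.2 h1
  · have h1 : (1 : R) ∈ I := by rw [h]; trivial
    obtain ⟨s, hs⟩ := h1
    rw [map_one, one_mul] at hs
    exact ⟨s, hs.symm⟩

theorem const_frac (D : Derivation ℂ K K) (hC : ∀ x, D x = 0 → ∃ c : ℂ, x = algebraMap ℂ K c)
    (d : Derivation ℂ R R) (hs : Simp d) (hd : ∀ a, d (algebraMap K R a) = algebraMap K R (D a))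
    (D' : Derivation ℂ (FractionRing R) (FractionRing R))
    (hD' : ∀ a, D' (algebraMap R (FractionRing R) a) = algebraMap R (FractionRing R) (d a))
    (hrk : Module.rank K R ≤ Cardinal.aleph0)
    (c : FractionRing R) (hc : D' c = 0) : ∃ z : ℂ, c = algebraMap ℂ (FractionRing R) z := by
  by_contra hcon
  push Not at hcon
  obtain ⟨r, hr⟩ := const_mem d hs D' hD' c hc
  have hinj : Function.Injective (algebraMap R (FractionRing R)) :=
    IsFractionRing.injective R (FractionRing R)
  have hdr : d r = 0 := by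
    apply hinj
    rw [← hD', hr, hc, map_zero]
  have htr : Transcendental K c := by
    intro halg
    obtain ⟨z, hz⟩ := alg_const D hC D' (by
      intro a
      rw [IsScalarTower.algebraMap_apply K R (FractionRing R), hD', hd,
        ← IsScalarTower.algebraMap_apply]) c hc halg
    exact hcon z hz
  have hu : ∀ z : ℂ, ∃ u : R, algebraMap R (FractionRing R) u =
      (c - algebraMap K (FractionRing R) (algebraMap ℂ K z))⁻¹ := by
    intro z
    have e1 : c - algebraMap K (FractionRing R) (algebraMap ℂ K z) =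
        algebraMap R (FractionRing R) (r - algebraMap ℂ R z) := by
      rw [map_sub, hr, ← IsScalarTower.algebraMap_apply, ← IsScalarTower.algebraMap_apply]
    have hne : r - algebraMap ℂ R z ≠ 0 := by
      intro h
      apply hcon z
      rw [sub_eq_zero] at h
      rw [← hr, h, ← IsScalarTower.algebraMap_apply]
    have hst : Stab d (Ideal.span {r - algebraMap ℂ R z}) := by
      apply stab_span
      intro s hs
      rw [Set.mem_singleton_iff.1 hs, map_sub, hdr, Derivation.map_algebraMap, sub_zero]
      exact Submodule.zero_mem _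
    rcases hs _ hst with h | h
    · exact absurd (Ideal.span_singleton_eq_bot.1 h) hne
    · rw [Ideal.span_singleton_eq_top] at h
      obtain ⟨u, hu⟩ := h
      refine ⟨((u⁻¹ : Rˣ) : R), ?_⟩
      rw [e1, ← hu]
      apply eq_inv_of_mul_eq_one_left
      rw [← map_mul, Units.inv_mul, map_one]
  choose u hu using hu
  have hli : LinearIndependent K u := by
    have h1 : LinearIndependent K
        fun z : ℂ => (c - algebraMap K (FractionRing R) (algebraMap ℂ K z))⁻¹ :=
      htr.linearIndependent_sub_inv.comp (algebraMap ℂ K) (algebraMap ℂ K).injective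
    have h2 : LinearIndependent K
        ((IsScalarTower.toAlgHom K R (FractionRing R)).toLinearMap ∘ u) := by
      have e : ((IsScalarTower.toAlgHom K R (FractionRing R)).toLinearMap ∘ u) =
          fun z : ℂ => (c - algebraMap K (FractionRing R) (algebraMap ℂ K z))⁻¹ := by
        funext z
        exact hu z
      rw [e]
      exact h1
    exact LinearIndependent.of_comp _ h2
  have h3 := hli.cardinal_le_rank
  have h4 : Cardinal.mk ℂ ≤ Cardinal.aleph0 := h3.trans hrk
  rw [Cardinal.mk_complex] at h4
  exact absurd h4 (not_le.2 Cardinal.aleph0_lt_continuum)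

end const2

/-! ### the polynomial ring -/

section ring
variable {K : Type} [Field K] [Algebra ℂ K] {n : ℕ}

/-- the variables -/
abbrev Sg (n : ℕ) : Type := (Fin n × Fin n) ⊕ (Fin n × Fin n)

/-- the matrix of the first variables -/
noncomputable def XM (K : Type) [Field K] (n : ℕ) :
    Matrix (Fin n) (Fin n) (MvPolynomial (Sg n) K) :=
  fun a b => MvPolynomial.X (Sum.inl (a, b))

/-- the matrix of the other variables -/
noncomputable def YM (K : Type) [Field K] (n : ℕ) :
    Matrix (Fin n) (Fin n) (MvPolynomial (Sg n) K) :=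
  fun a b => MvPolynomial.X (Sum.inr (a, b))

/-- the coefficient matrix -/
noncomputable def AM (A : Matrix (Fin n) (Fin n) K) :
    Matrix (Fin n) (Fin n) (MvPolynomial (Sg n) K) :=
  fun a b => MvPolynomial.C (A a b)

theorem exists_ring (D : Derivation ℂ K K) (A : Matrix (Fin n) (Fin n) K) :
    ∃ (d : Derivation ℂ (MvPolynomial (Sg n) K) (MvPolynomial (Sg n) K))
      (I : Ideal (MvPolynomial (Sg n) K)), (∀ a, d (MvPolynomial.C a) = MvPolynomial.C (D a)) ∧
      (∀ a b, d (XM K n a b) = (AM A * XM K n) a b) ∧ Stab d I ∧ I ≠ ⊤ ∧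
      ∀ a b, (XM K n * YM K n - 1) a b ∈ I := by
  obtain ⟨d, hd1, hd2⟩ := exists_poly D (σ := Sg n)
    (Sum.elim (fun q => (AM A * XM K n) q.1 q.2)
      (fun q => -(YM K n * AM A) q.1 q.2))
  have hX : ∀ a b, d (XM K n a b) = (AM A * XM K n) a b := by
    intro a b
    exact hd2 (Sum.inl (a, b))
  have hY : ∀ a b, d (YM K n a b) = -(YM K n * AM A) a b := by
    intro a b
    exact hd2 (Sum.inr (a, b))
  let I : Ideal (MvPolynomial (Sg n) K) :=
    Ideal.span (Set.range fun q : Fin n × Fin n => (XM K n * YM K n - 1) q.1 q.2)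
  have hI : ∀ a b, (XM K n * YM K n - 1) a b ∈ I := fun a b =>
    Ideal.subset_span ⟨(a, b), rfl⟩
  refine ⟨d, I, hd1, hX, ?_, ?_, hI⟩
  · apply stab_span
    rintro _ ⟨⟨a, b⟩, rfl⟩
    have e : d ((XM K n * YM K n - 1) a b) =
        (AM A * (XM K n * YM K n - 1) -
          (XM K n * YM K n - 1) * AM A) a b := by
      have h1 : AM A * (XM K n * YM K n - 1) -
          (XM K n * YM K n - 1) * AM A =
          (AM A * XM K n) * YM K n -
            XM K n * (YM K n * AM A) := by
        noncomm_ring
      rw [h1, Matrix.sub_apply, Matrix.sub_apply, Matrix.mul_apply, Matrix.mul_apply,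
        Matrix.mul_apply, map_sub, map_sum]
      have h2 : d ((1 : Matrix (Fin n) (Fin n) (MvPolynomial (Sg n) K)) a b) = 0 := by
        rw [Matrix.one_apply]
        split_ifs
        · exact Derivation.map_one_eq_zero d
        · exact map_zero d
      rw [h2, sub_zero, ← Finset.sum_sub_distrib]
      apply Finset.sum_congr rfl
      intro k _
      rw [Derivation.leibniz, hX, hY, smul_eq_mul, smul_eq_mul]
      ring
    change d ((XM K n * YM K n - 1) a b) ∈ I
    rw [e, Matrix.sub_apply, Matrix.mul_apply, Matrix.mul_apply]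
    apply Submodule.sub_mem
    · exact Submodule.sum_mem _ fun k _ => Ideal.mul_mem_left _ _ (hI k b)
    · exact Submodule.sum_mem _ fun k _ => Ideal.mul_mem_right _ _ (hI a k)
  · rw [Ne, Ideal.eq_top_iff_one]
    intro h1
    let ev : MvPolynomial (Sg n) K →+* K := MvPolynomial.eval
      (Sum.elim (fun q => if q.1 = q.2 then 1 else 0) (fun q => if q.1 = q.2 then 1 else 0))
    have hle : I ≤ RingHom.ker ev := by
      rw [Ideal.span_le]
      rintro _ ⟨⟨a, b⟩, rfl⟩
      change ev ((XM K n * YM K n - 1) a b) = 0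
      rw [Matrix.sub_apply, Matrix.mul_apply, map_sub, map_sum]
      have h2 : ∀ k, ev (XM K n a k * YM K n k b) =
          (1 : Matrix (Fin n) (Fin n) K) a k * (1 : Matrix (Fin n) (Fin n) K) k b := by
        intro k
        rw [map_mul, XM, YM, Matrix.one_apply, Matrix.one_apply]
        simp [ev]
      rw [Finset.sum_congr rfl fun k _ => h2 k, ← Matrix.mul_apply, one_mul, Matrix.one_apply,
        Matrix.one_apply]
      split_ifs <;> simp
    have h3 : ev 1 = 0 := hle h1
    rw [map_one] at h3
    exact one_ne_zero h3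

end ring

end Pool.Agent.H917.H1aux

namespace Pool.Agent.H917

open H1aux

/-- **Picard-Vessiot extensions.** -/
theorem exists_pv {K : Type} [Field K] [Algebra ℂ K] (D : Derivation ℂ K K)
    (hC : ∀ x, D x = 0 → ∃ c : ℂ, x = algebraMap ℂ K c) {n : ℕ} (A : Matrix (Fin n) (Fin n) K) :
    ∃ (L : Type) (_ : Field L) (_ : Algebra ℂ L) (i : K →ₐ[ℂ] L) (D' : Derivation ℂ L L)
      (X Y : Matrix (Fin n) (Fin n) L), (∀ x, D' (i x) = i (D x)) ∧
      (∀ x, D' x = 0 → ∃ c : ℂ, x = algebraMap ℂ L c) ∧ X * Y = 1 ∧
      ∀ a b, D' (X a b) = ∑ k, i (A a k) * X k b := by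
  obtain ⟨d, I, hd, hX, hI1, hI2, hI3⟩ := exists_ring D A
  obtain ⟨J, hIJ, hJ1, hJ2, hJ3⟩ := exists_max d I hI1 hI2
  obtain ⟨d', hd'⟩ := exists_quot d J hJ1
  have hs : Simp d' := simp_quot d J hJ3 d' hd'
  have hnt : Nontrivial (MvPolynomial (Sg n) K ⧸ J) := Ideal.Quotient.nontrivial_iff.2 hJ2
  have hdom : IsDomain (MvPolynomial (Sg n) K ⧸ J) := dom d' hs
  obtain ⟨D', hD'⟩ := exists_frac d'
  let L := FractionRing (MvPolynomial (Sg n) K ⧸ J)
  let π : MvPolynomial (Sg n) K →+* L :=
    (algebraMap (MvPolynomial (Sg n) K ⧸ J) L).comp (Ideal.Quotient.mk J)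
  have hπ : ∀ x, D' (π x) = π (d x) := by
    intro x
    change D' (algebraMap (MvPolynomial (Sg n) K ⧸ J) L (Ideal.Quotient.mk J x)) = _
    rw [hD', hd']
    rfl
  have hi : ∀ a : K, algebraMap K L a = π (MvPolynomial.C a) := by
    intro a
    rw [IsScalarTower.algebraMap_apply K (MvPolynomial (Sg n) K ⧸ J) L]
    rfl
  have hrk : Module.rank K (MvPolynomial (Sg n) K ⧸ J) ≤ Cardinal.aleph0 := by
    have h1 : Module.rank K (MvPolynomial (Sg n) K ⧸ J) ≤
        Module.rank K (MvPolynomial (Sg n) K) :=
      LinearMap.rank_le_of_surjective (Ideal.Quotient.mkₐ K J).toLinearMap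
        (Ideal.Quotient.mkₐ_surjective K J)
    refine h1.trans ?_
    rw [MvPolynomial.rank_eq]
    exact Cardinal.mk_le_aleph0
  refine ⟨L, inferInstance, inferInstance, IsScalarTower.toAlgHom ℂ K L, D', (XM K n).map π,
    (YM K n).map π, ?_, ?_, ?_, ?_⟩
  · intro x
    change D' (algebraMap K L x) = algebraMap K L (D x)
    rw [hi, hi, hπ, hd]
  · intro x hx
    exact const_frac D hC d' hs (by
      intro a
      change d' (Ideal.Quotient.mk J (MvPolynomial.C a)) = Ideal.Quotient.mk J (MvPolynomial.C _)
      rw [hd', hd]) D' hD' hrk x hx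
  · have h1 : ∀ a b, π ((XM K n * YM K n - 1) a b) = 0 := by
      intro a b
      change algebraMap (MvPolynomial (Sg n) K ⧸ J) L (Ideal.Quotient.mk J _) = 0
      rw [Ideal.Quotient.eq_zero_iff_mem.2 (hIJ (hI3 a b)), map_zero]
    have h2 : (XM K n * YM K n - 1).map π = 0 := by
      ext a b
      exact h1 a b
    have h3 : (XM K n * YM K n - 1).map π = (XM K n).map π * (YM K n).map π - 1 := by
      have := map_sub (RingHom.mapMatrix π) (XM K n * YM K n) (1 : Matrix (Fin n) (Fin n) _)
      rw [map_mul, map_one] at this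
      exact this
    rw [h2] at h3
    exact (sub_eq_zero.1 h3.symm)
  · intro a b
    rw [Matrix.map_apply, hπ, hX, Matrix.mul_apply, map_sum]
    apply Finset.sum_congr rfl
    intro k _
    rw [map_mul, Matrix.map_apply]
    change _ = algebraMap K L (A a k) * _
    rw [hi]
    rfl

end Pool.Agent.H917
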