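import Pool.Agent.H917.B4
import Pool.Agent.H917.G.H1

/-!
# PROJECT ALGHYP (helper917), task H2: linear systems and varieties of general type, abstractly

`K0` is a differential field with the constants `ℂ`, `R` a differential subfield (as a subalgebra), and
`x` a point, with coordinates in `K0`, of a projective variety of general type, given by a solution `h` of a
linear system over `R` (up to a common factor: `D h_i = δ h_i + ∑ A_ij h_j`, and the ratios of the
`x_i` are the ratios of the `∑_j b_ij h_j`). Then the ratios of the `x_i` are algebraic over `R`. The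
variety (with the generic point `y`) is defined over `ℂ`, which acts on `K0` through a homomorphism
`σ : ℂ →+* ℂ`.

## Paper proof

Let `L`, `i`, `D'`, `X`, `Y` be given by `exists_pv` (H1) for the matrix `A`; `Cst D'` holds. Let `R0 = R.map i`
(a subfield of `L`, stable under `D'`: `GoodB D' R0` by `goodB_field`, used in
`Pool/Graph/R_pool_sql_team_seeded_1e53cb71/Helper4K9/IP/Cls.lean` and defined in `Pool.Graph.R_seed8.Y377.IL...`),
and `R1 = mat R0 X Y`: `LTow D' R0 R1` by `LTow.step LTow.base ⟨inv, mem, eq⟩`.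
Let `g_i = i (h_i)` and `c = Y g` (`c_a = ∑_j Y a j * g_j`). From `X Y = 1` (so also `Y X = 1`) and
`D' X = A X` one has `D' Y = - Y A` and `D' c_a = i δ * c_a`, and `g = X c`. Not all `c_a` vanish
(`∑ b_{j0 j} h_j ≠ 0`); let `c_e ≠ 0`. Then `D' (c_a / c_e) = 0`, so `c_a = γ_a c_e` with `γ_a ∈ ℂ`, and
`i (∑_j b_ij h_j) = c_e * ∑_j i (b_ij) * (∑_a X j a * γ_a) = c_e * u_i` with `u_i ∈ R1`. So the point `i (x_l)` is
proportional to the `u_l ∈ R1`, `i (x_l) * u_{j0} = i (x_{j0}) * u_l`, `u_{j0} ≠ 0`.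
Suppose that `x_a / x_b` is not algebraic over `R` for some `a`, `b` (so `x_b ≠ 0`, hence `u_b ≠ 0`, and
`u_a / u_b = i (x_a / x_b)` is not algebraic over `R0`). Put `t = {u_j / u_b : j}` (a `Finset`). By
`Hyp.main hyp` (`Pool.Agent.Y377.IL.hyp`, `Pool/Graph/R_seed8/Y377/IL/All.lean`; `Hyp.main` in `.../IL/Cls.lean`)
`RatFam R1 t` holds, and `rat_P` (`Pool/Graph/R_pool_sql_team_seeded_1e53cb71/Helper4K9/IP/Log.lean`) gives `M`,
`P : Fin (n+1) → Polynomial M` with `aeval P G = 0 ↔ aeval u G = 0` for all forms `G` and `P` not constant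
(exactly as in the first case of the proof of `log_mainOn` in the same file, which can be copied: `H.main ..`,
`rat_P ..`). Now regard `M` as a `ℂ`-algebra through `(algebraMap ℂ M).comp σ`; with respect to this
structure `aeval P G` is the old `aeval P (map σ G)`, which vanishes iff `aeval u (map σ G) = 0` iff
`aeval x (map σ G) = 0` (scaling; `map σ G` is a form of the same degree) iff `aeval y G = 0`. So `not_lgt`
(`Log.lean`, with `Q = 1`, `q = 0`, `aeval P 1 = C 1 * X ^ 0`) and `log_of_gt'` (B4) contradict `hGT`, as in the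
last lines of `alg_of_gt` in `Pool/Agent/H917/B4.lean`.
-/

set_option autoImplicit false
set_option linter.overlappingInstances false
set_option linter.unusedSectionVars false

namespace Pool.Agent.H917

open Pool.Agent.W602.GT (IsForm GeneralType coords)
open Pool.Agent.Y377.IL Pool.Agent.Y377.EL Pool.Agent.Helper4K9.IP

namespace H2aux

/-- another structure of an algebra on `M` -/
theorem twist {M : Type} [Field M] (iM : Algebra ℂ M) (σ : ℂ →+* ℂ) {n : ℕ}
    (P : Fin (n + 1) → Polynomial M) : ∃ iM2 : Algebra ℂ M, ∀ G : MvPolynomial (Fin (n + 1)) ℂ,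
      @MvPolynomial.aeval ℂ (Polynomial M) (Fin (n + 1)) _ _
          (@Polynomial.algebraOfAlgebra ℂ M _ _ iM2) P G =
        @MvPolynomial.aeval ℂ (Polynomial M) (Fin (n + 1)) _ _
          (@Polynomial.algebraOfAlgebra ℂ M _ _ iM) P (MvPolynomial.map σ G) :=
  ⟨((algebraMap ℂ M).comp σ).toAlgebra, fun G =>
    (MvPolynomial.eval₂_map (@algebraMap ℂ (Polynomial M) _ _
      (@Polynomial.algebraOfAlgebra ℂ M _ _ iM)) (g := P) (f := σ) G).symm⟩

/-- solutions of a linear system and a fundamental matrix -/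
theorem solve {L : Type} [Field L] [Algebra ℂ L] (D : Derivation ℂ L L)
    (hC : ∀ x, D x = 0 → ∃ c : ℂ, x = algebraMap ℂ L c) {r : ℕ}
    {X Y A : Matrix (Fin r) (Fin r) L} (hXY : X * Y = 1)
    (hX : ∀ a b, D (X a b) = ∑ k, A a k * X k b) {g : Fin r → L} {δ : L}
    (hg : ∀ a, D (g a) = δ * g a + ∑ k, A a k * g k) (hne : ∃ a, g a ≠ 0) :
    ∃ (c : L) (γ : Fin r → ℂ), c ≠ 0 ∧ ∀ a, g a = c * ∑ k, X a k * algebraMap ℂ L (γ k) := by
  classical
  have hYX : Y * X = 1 := mul_eq_one_comm.1 hXY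
  -- the derivative of `Y`
  let dX : Matrix (Fin r) (Fin r) L := X.map D
  let dY : Matrix (Fin r) (Fin r) L := Y.map D
  have h1 : dX = A * X := by
    ext a b
    rw [Matrix.mul_apply]
    exact hX a b
  have h2 : dX * Y + X * dY = 0 := by
    ext a b
    have h3 := congrArg D (congrFun (congrFun hXY a) b)
    rw [Matrix.mul_apply, map_sum] at h3
    have h4 : D ((1 : Matrix (Fin r) (Fin r) L) a b) = 0 := by
      by_cases hab : a = b
      · rw [hab, Matrix.one_apply_eq, Derivation.map_one_eq_zero]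
      · rw [Matrix.one_apply_ne hab, map_zero]
    rw [h4] at h3
    rw [Matrix.add_apply, Matrix.mul_apply, Matrix.mul_apply, ← Finset.sum_add_distrib,
      Matrix.zero_apply, ← h3]
    refine Finset.sum_congr rfl fun k _ => ?_
    rw [D.leibniz, smul_eq_mul, smul_eq_mul]
    show D (X a k) * Y k b + X a k * D (Y k b) = _
    ring
  have h3 : dY = -(Y * A) := by
    have h4 : X * dY = -A := by
      have h5 : dX * Y = A := by rw [h1, Matrix.mul_assoc, hXY, Matrix.mul_one]
      rw [h5] at h2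
      exact eq_neg_of_add_eq_zero_right h2
    calc dY = Y * (X * dY) := by rw [← Matrix.mul_assoc, hYX, Matrix.one_mul]
      _ = -(Y * A) := by rw [h4, Matrix.mul_neg]
  let c : Fin r → L := fun a => ∑ k, Y a k * g k
  have hgc : ∀ a, g a = ∑ k, X a k * c k := by
    intro a
    have h4 : X.mulVec (Y.mulVec g) = g := by
      rw [Matrix.mulVec_mulVec, hXY, Matrix.one_mulVec]
    exact (congrFun h4 a).symm
  have hDc : ∀ a, D (c a) = δ * c a := by
    intro a
    have h4 : D (c a) = ∑ k, (D (Y a k) * g k + Y a k * D (g k)) := by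
      show D (∑ k, Y a k * g k) = _
      rw [map_sum]
      refine Finset.sum_congr rfl fun k _ => ?_
      rw [D.leibniz, smul_eq_mul, smul_eq_mul]
      ring
    have h5 : ∑ k, D (Y a k) * g k = -∑ k, Y a k * ∑ j, A k j * g j := by
      have h6 : (dY.mulVec g) a = ((-(Y * A)).mulVec g) a := by rw [h3]
      have h7 : ((-(Y * A)).mulVec g) a = -(Y.mulVec (A.mulVec g)) a := by
        rw [Matrix.neg_mulVec, Matrix.mulVec_mulVec]
        rfl
      exact h6.trans h7
    have h6 : ∑ k, Y a k * D (g k) = δ * c a + ∑ k, Y a k * ∑ j, A k j * g j := by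
      show _ = δ * ∑ k, Y a k * g k + _
      rw [Finset.mul_sum, ← Finset.sum_add_distrib]
      refine Finset.sum_congr rfl fun k _ => ?_
      rw [hg k]
      ring
    rw [h4, Finset.sum_add_distrib, h5, h6]
    ring
  obtain ⟨e, he⟩ : ∃ e, c e ≠ 0 := by
    by_contra hcon
    push Not at hcon
    obtain ⟨a, ha⟩ := hne
    apply ha
    rw [hgc a]
    exact Finset.sum_eq_zero fun k _ => by rw [hcon k, mul_zero]
  have hq : ∀ a, ∃ γ : ℂ, c a = c e * algebraMap ℂ L γ := by
    intro a
    have h4 : D (c a / c e) = 0 := by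
      have h5 : c a = c a / c e * c e := (div_mul_cancel₀ _ he).symm
      have h6 := congrArg D h5
      rw [D.leibniz, smul_eq_mul, smul_eq_mul, hDc, hDc] at h6
      have h7 : c e * D (c a / c e) = 0 := by
        have h8 : c a / c e * (δ * c e) = δ * c a := by
          field_simp
        rw [h8] at h6
        linear_combination -h6
      exact (mul_eq_zero.1 h7).resolve_left he
    obtain ⟨γ, hγ⟩ := hC _ h4
    exact ⟨γ, by rw [← hγ, mul_div_cancel₀ _ he]⟩
  choose γ hγ using hq
  refine ⟨c e, γ, he, fun a => ?_⟩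
  rw [hgc a, Finset.mul_sum]
  refine Finset.sum_congr rfl fun k _ => ?_
  rw [hγ k]
  ring

end H2aux

open H2aux in
/-- **Linear systems and varieties of general type.** -/
theorem lin_cst {K0 : Type} [Field K0] [Algebra ℂ K0] (D : Derivation ℂ K0 K0)
    (hC : ∀ x, D x = 0 → ∃ c : ℂ, x = algebraMap ℂ K0 c)
    (σ : ℂ →+* ℂ) (R : Subalgebra ℂ K0) (hRf : ∀ x ∈ R, x⁻¹ ∈ R) (hst : ∀ x ∈ R, D x ∈ R)
    {n r : ℕ} {h : Fin r → K0} {δ : K0} {A : Fin r → Fin r → K0} {b : Fin (n + 1) → Fin r → K0}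
    (hA : ∀ i j, A i j ∈ R) (hb : ∀ i j, b i j ∈ R)
    (hh : ∀ i, D (h i) = δ * h i + ∑ j, A i j * h j)
    {x : Fin (n + 1) → K0} {j0 : Fin (n + 1)} (hx : x j0 ≠ 0) (h0 : ∑ j, b j0 j * h j ≠ 0)
    (hxb : ∀ i, x i * ∑ j, b j0 j * h j = x j0 * ∑ j, b i j * h j)
    {K : Type} [Field K] [Algebra ℂ K] {w : ℕ} {y : Fin (n + 1) → K} (hne : y ≠ 0)
    (hgen : coords ℂ y = ⊤) (hdim : Algebra.trdeg ℂ K = w)
    (hrel : ∀ G : MvPolynomial (Fin (n + 1)) ℂ, IsForm G →
      (MvPolynomial.aeval y G = 0 ↔ MvPolynomial.aeval x (MvPolynomial.map σ G) = 0))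
    (hGT : GeneralType ℂ K w) :
    ∀ i j, IsAlgebraic R (x i / x j) := by
  classical
  obtain ⟨L, iL1, iL2, i, D', X, Y, hi, hC', hXY, hDX⟩ := exists_pv D hC (Matrix.of A)
  have hinj : Function.Injective i := i.injective
  -- the base
  let F : IntermediateField ℂ L := (R.toIntermediateField hRf).map i
  let R0 : Subalgebra ℂ L := F.toSubalgebra
  have hR0 : ∀ z ∈ R, i z ∈ R0 := fun z hz => ⟨z, hz, rfl⟩
  have hgood : GoodB D' R0 := goodB_field F (by
    rintro _ ⟨z, hz, rfl⟩
    exact ⟨D z, hst z hz, (hi z).symm⟩)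
  let R1 : Subalgebra ℂ L := mat R0 X Y
  have htow : LTow D' R0 R1 :=
    LTow.step (M := fun a b => i (A a b)) LTow.base ⟨hXY, fun a b => hR0 _ (hA a b), hDX⟩
  have hR01 : R0 ≤ R1 := le_mat R0 X Y
  -- the solution
  have hB0 : i (∑ j, b j0 j * h j) ≠ 0 := (map_ne_zero i).2 h0
  obtain ⟨c, γ, hc, hgc⟩ := solve D' hC' (A := fun a b => i (A a b)) hXY hDX
    (g := fun a => i (h a)) (δ := i δ) (fun a => by
      rw [hi, hh a, map_add, map_mul, map_sum]
      simp only [map_mul]) (by
      by_contra hcon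
      push Not at hcon
      apply hB0
      rw [map_sum]
      exact Finset.sum_eq_zero fun j _ => by rw [map_mul, hcon j, mul_zero])
  let u : Fin (n + 1) → L := fun l => ∑ j, i (b l j) * ∑ k, X j k * algebraMap ℂ L (γ k)
  have huR : ∀ l, u l ∈ R1 := fun l => R1.sum_mem fun j _ => R1.mul_mem (hR01 (hR0 _ (hb l j)))
    (R1.sum_mem fun k _ => R1.mul_mem (mem_mat_left R0 X Y j k) (R1.algebraMap_mem _))
  have hBu : ∀ l, i (∑ j, b l j * h j) = c * u l := by
    intro l
    show _ = c * ∑ j, i (b l j) * ∑ k, X j k * algebraMap ℂ L (γ k)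
    rw [map_sum, Finset.mul_sum]
    refine Finset.sum_congr rfl fun j _ => ?_
    have h1 := hgc j
    beta_reduce at h1
    rw [map_mul, h1]
    ring
  have hu0 : u j0 ≠ 0 := by
    intro h1
    rw [hBu, h1, mul_zero] at hB0
    exact hB0 rfl
  have hxu : ∀ l, i (x l) = i (x j0) / u j0 * u l := by
    intro l
    have h1 := congrArg i (hxb l)
    rw [map_mul, map_mul, hBu, hBu] at h1
    have h2 : c * (i (x l) * u j0) = c * (i (x j0) * u l) := by linear_combination h1
    have h3 := mul_left_cancel₀ hc h2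
    rw [div_mul_eq_mul_div, eq_div_iff hu0, h3]
  have hκ : i (x j0) / u j0 ≠ 0 := div_ne_zero ((map_ne_zero i).2 hx) hu0
  -- suppose that a ratio is not algebraic
  by_contra hcon
  push Not at hcon
  obtain ⟨a, e, hae⟩ := hcon
  have hxe : x e ≠ 0 := by
    intro h1
    rw [h1, div_zero] at hae
    exact hae isAlgebraic_zero
  have hue : u e ≠ 0 := by
    intro h1
    apply hxe
    apply hinj
    rw [hxu e, h1, mul_zero, map_zero]
  have hrat : ∀ l, u l / u e = i (x l / x e) := by
    intro l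
    rw [map_div₀, hxu l, hxu e, mul_div_mul_left _ _ hκ]
  have hna : ¬ IsAlgebraic R0 (u a / u e) := by
    intro h1
    apply hae
    rw [hrat a] at h1
    let f : R →+* R0 := RingHom.codRestrict ((i : K0 →+* L).comp (algebraMap R K0)) R0
      (fun z => hR0 z z.2)
    refine IsAlgebraic.of_ringHom_of_comp_eq f (i : K0 →+* L) (a := x a / x e) h1 ?_ hinj rfl
    rintro ⟨_, z, hz, rfl⟩
    exact ⟨⟨z, hz⟩, rfl⟩
  let t : Finset L := Finset.univ.image fun j => u j / u e
  have hRF : RatFam R1 t := by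
    refine hyp.main hC' hgood htow (fun z hz => ?_) ⟨u a / u e,
      Finset.mem_image.2 ⟨a, Finset.mem_univ a, rfl⟩, hna⟩
    obtain ⟨j, -, rfl⟩ := Finset.mem_image.1 hz
    exact (frac R1).div_mem (le_frac R1 (huR j)) (le_frac R1 (huR e))
  obtain ⟨M, i1, i2, P, k1, k2⟩ := rat_P hue
    (fun j => Finset.mem_image.2 ⟨j, Finset.mem_univ j, rfl⟩)
    (fun z hz => by
      obtain ⟨j, -, rfl⟩ := Finset.mem_image.1 hz
      exact ⟨j, rfl⟩) hRF
  obtain ⟨iM2, htw⟩ := twist i2 σ P
  have hxa : ∀ G : MvPolynomial (Fin (n + 1)) ℂ, (∃ d, G.IsHomogeneous d) →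
      (MvPolynomial.aeval x G = 0 ↔ MvPolynomial.aeval u G = 0) := by
    rintro G ⟨d, hd⟩
    have h1 : i (MvPolynomial.aeval x G) = MvPolynomial.aeval (fun l => i (x l)) G :=
      MvPolynomial.comp_aeval_apply x i G
    have h2 : (fun l => i (x l)) = fun l => i (x j0) / u j0 * u l := funext hxu
    rw [← map_eq_zero_iff i hinj, h1, h2, form_scale hd, mul_eq_zero,
      or_iff_right (pow_ne_zero _ hκ)]
  have hQ1 : (1 : MvPolynomial (Fin (n + 1)) ℂ).IsHomogeneous 0 :=
    MvPolynomial.isHomogeneous_one _ _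
  refine @not_lgt n K _ _ w y 1 0 hQ1 hne hgen hdim M i1 iM2 P (fun G hG => ?_)
    ⟨1, 0, one_ne_zero, ?_⟩ k2 (log_of_gt' _ hGT)
  · obtain ⟨d, hd⟩ := hG
    have h1 : (MvPolynomial.map σ G).IsHomogeneous d := hd.map σ
    have h3 := (hrel G ⟨d, hd⟩).trans ((hxa _ ⟨d, h1⟩).trans (k1 _ ⟨d, h1⟩).symm)
    rw [← htw G] at h3
    exact h3
  · rw [map_one, map_one, pow_zero, mul_one]

end Pool.Agent.H917
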