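import Mathlib

/-!
# PROJECT ALGHYP (helper917), task H3: reduction to differential fields with the constants `ℂ`

## Paper proof

`hac` says that the field `C0 = {z ∈ M | D z = 0}` of the constants of `D` is algebraically closed
(`ℂ` is contained in `C0`, since `D` is `ℂ`-linear). Let `F0 ⊆ M` be the subfield generated by `ℂ` and all
`D^[k] u`, `u ∈ T`, `k ∈ ℕ` (e.g. `IntermediateField.adjoin ℂ ..`); it is stable under `D` (induction for
`adjoin`: the generators are mapped to generators, quotient rule), and its cardinality is that of the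
continuum, as `T` is countable (`IntermediateField`/`Algebra` cardinality lemmas: `Cardinal.mk_...adjoin..`,
e.g. it is a quotient of pairs of polynomials in countably many variables over `ℂ`:
`MvPolynomial.cardinalMk_le_max`; or `Algebra.IsAlgebraic.cardinalMk_le_max` for the next step). Let
`M1 ⊆ M` be the set of all elements of `M` which are algebraic over `F0`: a subfield
(`algebraicClosure F0 M : IntermediateField F0 M`), `#M1 = 𝔠` (`Algebra.IsAlgebraic.cardinalMk_le_max`),
stable under `D` (characteristic zero: for `z` algebraic with minimal polynomial `P` over `F0`,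
`0 = D(P(z)) = P^D(z) + P'(z) D z`, `P'(z) ≠ 0`, so `D z ∈ F0(z)`).
Let `C1 = C0 ∩ M1` (the constants in `M1`). `C1` is algebraically closed: a nonconstant monic polynomial over
`C1` has a root in `C0` by `hac`; it is algebraic over `C1 ⊆ M1`, so (transitivity) over `F0`, so it is in
`M1`. (`IsAlgClosed.of_exists_root`.) `#C1 = 𝔠` as `ℂ ⊆ C1 ⊆ M1`. So (Steinitz) there is a ring isomorphism
`τ : ℂ ≃+* C1` (`IsAlgClosed.ringEquivOfCardinalEqOfCharZero` or similar in
`Mathlib.FieldTheory.IsAlgClosed.Classification`).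
Let `K0 = M1` with the `ℂ`-algebra structure given by `ℂ → C1 ⊆ M1`, `c ↦ τ c`; `i : K0 →+* M` the
inclusion; `D0 = D|M1`, which is `ℂ`-linear for the new structure since `τ c` is a constant; its constants
are `C1 = τ(ℂ)`; `σ = τ⁻¹ ∘ (ℂ → C1)`, so that `i (algebraMap ℂ K0 (σ c)) = algebraMap ℂ M c`;
`R = {z ∈ K0 | i z ∈ C}`, a subalgebra because `C ⊇ C0 ⊇ C1` (`hcst`).
-/

set_option autoImplicit false
set_option linter.overlappingInstances false
set_option linter.unusedSectionVars false

namespace Pool.Agent.H917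

namespace H3aux

open Cardinal Polynomial

variable {M : Type} [Field M] [Algebra ℂ M] (D : Derivation ℂ M M)

/-- the generators of the small field -/
def gens (T : Set M) : Set M := Set.range (algebraMap ℂ M) ∪ {x | ∃ u ∈ T, ∃ k : ℕ, D^[k] u = x}

/-- the small field -/
def F0 (T : Set M) : Subfield M := Subfield.closure (gens D T)

theorem F0_stable (T : Set M) (x : M) (hx : x ∈ F0 D T) : D x ∈ F0 D T := by
  unfold F0 at hx ⊢
  induction hx using Subfield.closure_induction with
  | mem x hx =>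
    rcases hx with ⟨c, rfl⟩ | ⟨u, hu, k, rfl⟩
    · rw [Derivation.map_algebraMap]
      exact zero_mem _
    · apply Subfield.subset_closure
      right
      exact ⟨u, hu, k + 1, by rw [Function.iterate_succ_apply']⟩
  | one => rw [Derivation.map_one_eq_zero]; exact zero_mem _
  | add x y hx hy h1 h2 => rw [map_add]; exact add_mem h1 h2
  | neg x hx h => rw [map_neg]; exact neg_mem h
  | inv x hx h =>
    rw [Derivation.leibniz_inv, smul_eq_mul]
    exact mul_mem (neg_mem (pow_mem (inv_mem hx) 2)) h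
  | mul x y hx hy h1 h2 =>
    rw [Derivation.leibniz, smul_eq_mul, smul_eq_mul]
    exact add_mem (mul_mem hx h2) (mul_mem hy h1)

theorem gens_card (T : Set M) (hT : T.Countable) : #(gens D T) ≤ 𝔠 := by
  have h1 : #(Set.range (algebraMap ℂ M)) ≤ 𝔠 := by
    refine mk_range_le.trans ?_
    rw [mk_complex]
  have h2 : ({x | ∃ u ∈ T, ∃ k : ℕ, D^[k] u = x} : Set M).Countable := by
    have h3 : ({x | ∃ u ∈ T, ∃ k : ℕ, D^[k] u = x} : Set M) = ⋃ u ∈ T, Set.range fun k : ℕ => D^[k] u := by
      ext x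
      simp
    rw [h3]
    exact hT.biUnion fun u _ => Set.countable_range _
  have h4 : #({x | ∃ u ∈ T, ∃ k : ℕ, D^[k] u = x} : Set M) ≤ 𝔠 :=
    (le_aleph0_iff_set_countable.2 h2).trans aleph0_le_continuum
  calc #(gens D T) ≤ _ := mk_union_le _ _
    _ ≤ 𝔠 + 𝔠 := add_le_add h1 h4
    _ = 𝔠 := by simp

theorem F0_card (T : Set M) (hT : T.Countable) : #(F0 D T) ≤ 𝔠 := by
  refine (Subfield.cardinalMk_closure_le_max (gens D T)).trans ?_
  exact max_le (gens_card D T hT) aleph0_le_continuum

/-- the field of the algebraic elements -/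
noncomputable def M1 (T : Set M) : IntermediateField (F0 D T) M := algebraicClosure (F0 D T) M

theorem M1_card (T : Set M) (hT : T.Countable) : #(M1 D T) ≤ 𝔠 := by
  have : Algebra.IsAlgebraic (F0 D T) (M1 D T) := algebraicClosure.isAlgebraic (F0 D T) M
  refine (Algebra.IsAlgebraic.cardinalMk_le_max (F0 D T) (M1 D T)).trans ?_
  exact max_le (F0_card D T hT) aleph0_le_continuum

theorem F0_le_M1 (T : Set M) (x : M) (hx : x ∈ F0 D T) : x ∈ M1 D T :=
  (M1 D T).algebraMap_mem ⟨x, hx⟩

theorem M1_stable (T : Set M) (z : M) (hz : z ∈ M1 D T) : D z ∈ M1 D T := by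
  have hcM : CharZero M := charZero_of_injective_algebraMap (algebraMap ℂ M).injective
  have hcF : CharZero (F0 D T) := (F0 D T).subtype.charZero
  have key : ∀ P : (F0 D T)[X], ∃ b ∈ M1 D T,
      D (aeval z P) = b + aeval z (derivative P) * D z := by
    intro P
    induction P using Polynomial.induction_on' with
    | add p q hp hq =>
      obtain ⟨b, hb, e⟩ := hp
      obtain ⟨b', hb', e'⟩ := hq
      refine ⟨b + b', add_mem hb hb', ?_⟩
      rw [map_add, map_add, e, e', derivative_add, map_add]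
      ring
    | monomial n a =>
      refine ⟨D (a : M) * z ^ n, mul_mem (F0_le_M1 D T _ (F0_stable D T _ a.2)) (pow_mem hz n), ?_⟩
      rw [aeval_monomial, derivative_monomial, aeval_monomial]
      have e1 : (algebraMap (F0 D T) M) a = (a : M) := rfl
      have e2 : (algebraMap (F0 D T) M) (a * (n : F0 D T)) = (a : M) * n := by
        rw [map_mul, map_natCast]; rfl
      rw [e1, e2, Derivation.leibniz, Derivation.leibniz_pow]
      simp only [smul_eq_mul, nsmul_eq_mul]
      ring
  have hi : IsIntegral (F0 D T) z := mem_algebraicClosure_iff'.1 hz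
  obtain ⟨b, hb, e⟩ := key (minpoly (F0 D T) z)
  rw [minpoly.aeval, map_zero] at e
  have hne : aeval z (derivative (minpoly (F0 D T) z)) ≠ 0 :=
    (minpoly.irreducible hi).separable.aeval_derivative_ne_zero (minpoly.aeval _ _)
  have h3 : D z = -(b * (aeval z (derivative (minpoly (F0 D T) z)))⁻¹) := by
    field_simp
    linear_combination -e
  rw [h3]
  refine neg_mem (mul_mem hb (inv_mem ?_))
  have h4 : aeval z (derivative (minpoly (F0 D T) z)) ∈ (M1 D T).toSubalgebra := by
    have h5 : z ∈ (M1 D T).toSubalgebra := hz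
    have := (aeval (⟨z, h5⟩ : (M1 D T).toSubalgebra) (derivative (minpoly (F0 D T) z))).2
    rwa [← Subalgebra.coe_val, ← aeval_algHom_apply] at this
  exact h4

/-- the constants of the field of the algebraic elements -/
noncomputable def C1 (T : Set M) : Subfield M where
  carrier := {z | z ∈ M1 D T ∧ D z = 0}
  mul_mem' := fun {a b} ha hb => ⟨mul_mem ha.1 hb.1, by
    rw [Derivation.leibniz, ha.2, hb.2, smul_zero, smul_zero, add_zero]⟩
  one_mem' := ⟨one_mem _, D.map_one_eq_zero⟩
  add_mem' := fun {a b} ha hb => ⟨add_mem ha.1 hb.1, by rw [map_add, ha.2, hb.2, add_zero]⟩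
  zero_mem' := ⟨zero_mem _, map_zero D⟩
  neg_mem' := fun {a} ha => ⟨neg_mem ha.1, by rw [map_neg, ha.2, neg_zero]⟩
  inv_mem' := fun a ha => ⟨inv_mem ha.1, by rw [Derivation.leibniz_inv, ha.2, smul_zero]⟩

/-- the inclusion -/
noncomputable def j (T : Set M) : C1 D T →+* M1 D T :=
  (C1 D T).subtype.codRestrict (M1 D T) fun x => x.2.1

theorem C1_closed (hac : ∀ P : Polynomial M, P.Monic → 0 < P.natDegree →
      (∀ k, D (P.coeff k) = 0) → ∃ z, D z = 0 ∧ P.eval z = 0) (T : Set M) :
    IsAlgClosed (C1 D T) := by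
  refine IsAlgClosed.of_exists_root _ fun p hp hirr => ?_
  obtain ⟨z, hz, hz2⟩ := hac (p.map (C1 D T).subtype) (hp.map _)
    (by rw [hp.natDegree_map]; exact hirr.natDegree_pos) (fun k => by
      rw [coeff_map]
      exact (p.coeff k).2.2)
  have hint : IsIntegral (M1 D T) z := by
    refine ⟨p.map (j D T), hp.map _, ?_⟩
    rw [eval₂_map]
    rw [eval_map] at hz2
    exact hz2
  have : Algebra.IsAlgebraic (F0 D T) (M1 D T) := algebraicClosure.isAlgebraic (F0 D T) M
  have hint2 : IsIntegral (F0 D T) z := isIntegral_trans z hint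
  have hzM : z ∈ M1 D T := mem_algebraicClosure_iff'.2 hint2
  refine ⟨⟨z, hzM, hz⟩, ?_⟩
  apply Subtype.ext
  have h1 : ((eval (⟨z, hzM, hz⟩ : C1 D T) p : C1 D T) : M) =
      (C1 D T).subtype (eval (⟨z, hzM, hz⟩ : C1 D T) p) := rfl
  rw [h1, ← Polynomial.eval_map_apply]
  exact hz2

theorem C1_card (T : Set M) (hT : T.Countable) : #(C1 D T) = 𝔠 := by
  apply le_antisymm
  · have h1 : #(C1 D T) ≤ #(M1 D T) := by
      refine mk_le_of_injective (f := fun x : C1 D T => (⟨x.1, x.2.1⟩ : M1 D T)) ?_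
      intro x y h
      apply Subtype.ext
      exact congrArg (fun w : M1 D T => (w : M)) h
    exact h1.trans (M1_card D T hT)
  · rw [← mk_complex]
    have h2 : ∀ c : ℂ, algebraMap ℂ M c ∈ C1 D T := fun c =>
      ⟨F0_le_M1 D T _ (Subfield.subset_closure (Or.inl ⟨c, rfl⟩)), D.map_algebraMap c⟩
    refine mk_le_of_injective (f := fun c : ℂ => (⟨algebraMap ℂ M c, h2 c⟩ : C1 D T)) ?_
    intro x y h
    exact (algebraMap ℂ M).injective (congrArg (fun w : C1 D T => (w : M)) h)

theorem exists_tau (hac : ∀ P : Polynomial M, P.Monic → 0 < P.natDegree →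
      (∀ k, D (P.coeff k) = 0) → ∃ z, D z = 0 ∧ P.eval z = 0) (T : Set M) (hT : T.Countable) :
    Nonempty (ℂ ≃+* C1 D T) := by
  have hcM : CharZero M := charZero_of_injective_algebraMap (algebraMap ℂ M).injective
  have hcC : CharZero (C1 D T) := (C1 D T).subtype.charZero
  have hcl := C1_closed D hac T
  refine IsAlgClosed.ringEquiv_of_equiv_of_charZero ?_ ?_
  · rw [mk_complex]; exact aleph0_lt_continuum
  · rw [← Cardinal.eq, mk_complex, C1_card D T hT]

end H3aux

open H3aux in
/-- **Reduction to the constants `ℂ`.** -/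
theorem exists_cst {M : Type} [Field M] [Algebra ℂ M] (D : Derivation ℂ M M)
    (hac : ∀ P : Polynomial M, P.Monic → 0 < P.natDegree → (∀ k, D (P.coeff k) = 0) →
      ∃ z, D z = 0 ∧ P.eval z = 0)
    (C : IntermediateField ℂ M) (hcst : ∀ z, D z = 0 → z ∈ C) (T : Set M) (hT : T.Countable) :
    ∃ (K0 : Type) (_ : Field K0) (_ : Algebra ℂ K0) (D0 : Derivation ℂ K0 K0) (i : K0 →+* M)
      (σ : ℂ →+* ℂ) (R : Subalgebra ℂ K0),
      (∀ c, i (algebraMap ℂ K0 (σ c)) = algebraMap ℂ M c) ∧ (∀ z, i (D0 z) = D (i z)) ∧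
      (∀ z, D0 z = 0 → ∃ c : ℂ, z = algebraMap ℂ K0 c) ∧ (∀ z, z ∈ R ↔ i z ∈ C) ∧
      T ⊆ Set.range i := by
  obtain ⟨τ⟩ := exists_tau D hac T hT
  let alg : Algebra ℂ (M1 D T) := ((j D T).comp (τ : ℂ →+* C1 D T)).toAlgebra
  have hal : ∀ c : ℂ, ((algebraMap ℂ (M1 D T) c : M1 D T) : M) = ((τ c : C1 D T) : M) :=
    fun c => rfl
  have hτ : ∀ c : ℂ, D ((τ c : C1 D T) : M) = 0 := fun c => (τ c).2.2
  have hsm : ∀ (c : ℂ) (z : M1 D T), ((c • z : M1 D T) : M) = ((τ c : C1 D T) : M) * (z : M) :=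
    fun c z => rfl
  let Dl : M1 D T →ₗ[ℂ] M1 D T :=
    { toFun := fun z => ⟨D (z : M), M1_stable D T _ z.2⟩
      map_add' := fun x y => Subtype.ext (by
        show D ((x : M) + (y : M)) = D (x : M) + D (y : M)
        rw [map_add])
      map_smul' := fun c x => Subtype.ext (by
        show D ((c • x : M1 D T) : M) = ((τ c : C1 D T) : M) * D (x : M)
        rw [hsm, Derivation.leibniz, hτ, smul_zero, add_zero, smul_eq_mul]) }
  let D0 : Derivation ℂ (M1 D T) (M1 D T) := Derivation.mk' Dl (fun x y => Subtype.ext (by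
    show D ((x : M) * (y : M)) = (x : M) * D (y : M) + (y : M) * D (x : M)
    rw [Derivation.leibniz, smul_eq_mul, smul_eq_mul]))
  have h2 : ∀ c : ℂ, algebraMap ℂ M c ∈ C1 D T := fun c =>
    ⟨F0_le_M1 D T _ (Subfield.subset_closure (Or.inl ⟨c, rfl⟩)), D.map_algebraMap c⟩
  let ι : ℂ →+* C1 D T := (algebraMap ℂ M).codRestrict (C1 D T) h2
  let R : Subalgebra ℂ (M1 D T) :=
    { carrier := {z | (z : M) ∈ C}
      mul_mem' := fun {a b} ha hb => mul_mem (S := IntermediateField ℂ M) ha hb
      add_mem' := fun {a b} ha hb => add_mem (S := IntermediateField ℂ M) ha hb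
      algebraMap_mem' := fun c => hcst _ (hτ c) }
  refine ⟨M1 D T, inferInstance, alg, D0, (M1 D T).toSubalgebra.val.toRingHom,
    (τ.symm : C1 D T →+* ℂ).comp ι, R, ?_, fun z => rfl, ?_, fun z => Iff.rfl, ?_⟩
  · intro c
    show ((τ (τ.symm (ι c)) : C1 D T) : M) = algebraMap ℂ M c
    rw [RingEquiv.apply_symm_apply]
    rfl
  · intro z hz
    have h3 : D (z : M) = 0 := congrArg (fun w : M1 D T => (w : M)) hz
    refine ⟨τ.symm ⟨(z : M), z.2, h3⟩, Subtype.ext ?_⟩
    rw [hal, RingEquiv.apply_symm_apply]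
  · intro u hu
    exact ⟨⟨u, F0_le_M1 D T _ (Subfield.subset_closure (Or.inr ⟨u, hu, 0, rfl⟩))⟩, rfl⟩

end Pool.Agent.H917
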