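import Pool.Agent.H917.B2
import Pool.Agent.H916.Ph

/-!
# PROJECT ALGHYP (helper917), task H4: heights of the values of symmetric differentials

`F` is the function field of a curve over `ℂ` (`IsFF ℂ F`), `D` a derivation of `F`, `x` a point of the
projective variety with the ideal `p` with coordinates in `F`, and `s` a symmetric differential of degree `m`
on the variety (B1.lean). The value `s.val x (D x) ∈ F` has at most `m * pol D` poles, where `pol D` is the
number of poles of `D` (`Pool/Graph/R_pool_sql_team_seeded_b677cdb8/E8helper90/AF/Hgt.lean`).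

## Paper proof

Let `P` be a place of `F` and choose `j` with `x_j ≠ 0` and `ord_P (x_j)` minimal (`exists_pord`), so that
all `x_i / x_j` are regular at `P`. By `SymDiff.val_eq` (B1/B2, with `tanVec_der`) `s.val x (D x)` is the value of
the polynomial `s.pol j` at `loc j x (D x) = (x_i / x_j, D (x_i / x_j))` (`loc_der`). The order of
`D (x_i / x_j)` at `P` is at least `vo P D` (the definition of the order `vo P D` of the derivation `D` at `P`: `D` maps
the valuation ring `O_P` to `t^{vo P D} O_P`; see the lemmas on `vo` in `Pool/Graph/R_seed8/W603/LV/*.lean`),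
so at least `- e`, `e = max (- vo P D) 0`. Since `s.pol j` is weighted homogeneous of degree `m` in the second group
of variables (`s.hom j`), and its coefficients are constants, every monomial has order at least `- m e`, so
`ord_P (s.val x (D x)) ≥ - m e` (or the value is zero). Hence `hgt (s.val ..) = ∑_P max (-ord_P) 0 ≤
∑_P m * max (- vo P D) 0 = m * pol D` (`ph_le_of` in `Pool/Agent/H916/Ph.lean` and the proof of `hgt_der` in
`E8helper90/AF/Hgt.lean` are models: finite sums over a finite set of places outside of which both sides vanish).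
-/

set_option autoImplicit false
set_option linter.overlappingInstances false
set_option linter.unusedSectionVars false

open MvPolynomial FF Pool.Agent.W603.LV Pool.Agent.W603.PV
open Pool.Agent.E8helper90.AF (pol)

namespace Pool.Agent.H917

variable {n : ℕ} {p : Ideal (MvPolynomial (Fin (n + 1)) ℂ)}

namespace H4aux

theorem ge_prod {k K : Type} [Field k] [Field K] [Algebra k K] {P : Place k K} {ι : Type}
    (s : Finset ι) (N : ι → ℤ) (f : ι → K) (h : ∀ i ∈ s, Ge P (N i) (f i)) :
    Ge P (∑ i ∈ s, N i) (∏ i ∈ s, f i) := by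
  classical
  induction s using Finset.induction_on with
  | empty =>
    rw [Finset.sum_empty, Finset.prod_empty]
    have := Ge.const (P := P) (1 : k)
    rwa [map_one] at this
  | insert a s ha ih =>
    rw [Finset.sum_insert ha, Finset.prod_insert ha]
    exact (h a (Finset.mem_insert_self a s)).mul
      (ih fun i hi => h i (Finset.mem_insert_of_mem hi))

theorem ge_aeval {k K σ : Type} [Field k] [Field K] [Algebra k K] {P : Place k K}
    {q : MvPolynomial (σ ⊕ σ) k} {m : ℕ}
    (hq : q.IsWeightedHomogeneous (Sum.elim (fun _ => 0) fun _ => 1) m) {u v : σ → K} {e : ℤ}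
    (hu : ∀ i, Ge P 0 (u i)) (hv : ∀ i, Ge P (-e) (v i)) :
    Ge P (-(m * e)) (aeval (Sum.elim u v) q) := by
  classical
  rw [aeval_def, eval₂_eq]
  refine Ge.sum _ _ fun α hα => ?_
  have h1 : Ge P (∑ i ∈ α.support, (α i : ℤ) * (Sum.elim (fun _ => 0) (fun _ => -e) i : ℤ))
      (∏ i ∈ α.support, (Sum.elim u v) i ^ α i) := by
    refine ge_prod _ _ _ fun i _ => ?_
    rcases i with i | i
    · exact (hu i).pow _
    · exact (hv i).pow _
  have h2 : ∑ i ∈ α.support, (α i : ℤ) * (Sum.elim (fun _ => 0) (fun _ => -e) i : ℤ) =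
      -(m * e) := by
    have h3 := hq (mem_support_iff.1 hα)
    rw [Finsupp.weight_apply, Finsupp.sum] at h3
    have h4 : ((∑ i ∈ α.support, α i • (Sum.elim (fun _ => 0) (fun _ => 1) i : ℕ) : ℕ) : ℤ) =
        (m : ℤ) := by rw [h3]
    rw [← h4, Nat.cast_sum, ← neg_mul, ← Finset.sum_neg_distrib, Finset.sum_mul]
    refine Finset.sum_congr rfl fun i _ => ?_
    rcases i with i | i <;> simp
  rw [h2] at h1
  have h5 := (Ge.const (P := P) (coeff α q)).mul h1
  rwa [zero_add] at h5

end H4aux

/-- **Heights of the values of symmetric differentials.** -/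
theorem hgt_val (hp : Pool.Agent.W603.PV.IsHomog p) {m : ℕ} (s : SymDiff p m) {F : Type} [Field F]
    [Algebra ℂ F] [IsFF ℂ F] {D : Derivation ℂ F F} (hD : D ≠ 0) {x : Fin (n + 1) → F}
    (hx : x ≠ 0) (hX : ∀ H ∈ p, aeval x H = 0) :
    hgt ℂ (s.val x fun i => D (x i)) ≤ m * pol D := by
  obtain ⟨T, h1, -, h2, -⟩ := Pool.Agent.E8helper90.AF.exists_supp' hD hD
    (s.val x fun i => D (x i)) 0
  rw [hgt_finset _ T h2, Pool.Agent.E8helper90.AF.pol_finset D T h1, Finset.mul_sum]
  refine Finset.sum_le_sum fun P _ => ?_
  obtain ⟨j, hj, hord⟩ := exists_pord P (Function.ne_iff.1 hx)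
  have hreg : ∀ i, Ge P 0 (x i / x j) := by
    intro i
    by_cases hi : x i = 0
    · exact Or.inl (by rw [hi, zero_div])
    · refine Or.inr ?_
      rw [P.ord_div hi hj]
      have h3 := pord_le P hi
      omega
  set e : ℤ := max (-vo P D) 0 with he
  have he0 : 0 ≤ e := le_max_right _ _
  have hder : ∀ i, Ge P (-e) (D (x i / x j)) := by
    intro i
    refine (Pool.Agent.H916.ge_der0 P hD (hreg i)).mono ?_
    have := le_max_left (-vo P D) 0
    omega
  have hge : Ge P (-(m * e)) (s.val x fun i => D (x i)) := by
    rw [s.val_eq hp (tanVec_der D hx hX) hj, loc_der D x hj]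
    exact H4aux.ge_aeval (s.hom j) hreg hder
  have hme : 0 ≤ (m : ℤ) * e := by positivity
  rcases hge with h0 | h0
  · rw [h0, P.ord_zero]
    simpa using hme
  · exact max_le (by omega) hme

end Pool.Agent.H917
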