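import Pool.Agent.H917.D1
import Pool.Agent.H917.G.H4
import Pool.Agent.H916.Ul

/-!
# PROJECT ALGHYP (helper917), task H5a: the ultraproduct of the curves of large degree

## Paper proof

This is `exists_ultra` of `Pool/Agent/H917/D1.lean` (which can be copied) with the additional field `C` of the
elements of small height as in `Pool/Agent/H916/Ul.lean` (whose proofs can be copied, or use its ultraproduct
`UP`, `um`, `DU`, `small`, `small_closed`, `small_der`, `small_cst`, `mem_small` and make the derivation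
`ℂ`-linear; or use the ultraproduct `UProd`, `um`, `uder` of D1 and redo the few lemmas on `small`).

Index set: `I = {(G, B) : G a form, G ∉ p, B ∈ ℕ}` with the function fields `F_i`, the points `x_i` given by `h`.
Choose (`exists_pol_der`, used in `Ul.lean`, `exists_pre`) derivations `D_i ≠ 0` of `F_i` with
`pol (D_i) ≤ max (canDeg ℂ F_i) 0 =: χ_i`. Ultrafilter `U`: for each `(G0, B0)` almost all `i = (G, B)` satisfy
`G0 ∣ G` and `B0 ≤ B` (the sets `{(G, B) | G0 ∣ G, B0 ≤ B}` are directed: `(G1 G2, max B1 B2)`).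
`M` = ultraproduct of the `F_i`, `D`, `x` as in D1. `C` = the elements `um a` with `hgt (a_i) ≤ B χ_i` for
some `B : ℕ` and almost all `i`.

* `x` satisfies `aeval x H = 0` for `H ∈ p`, `aeval x G ≠ 0` for forms `G ∉ p` (D1).
* `C` is an intermediate field of `M/ℂ` (`Ul.small`, `alg_small`), algebraically closed in `M` (`small_closed`),
  stable under `D` (`small_der`), contains the constants of `D` (`small_cst`: by `const_of_der` the constants of
  `D_i` are in `ℂ`).
* The constants of `D` are algebraically closed (statement with a monic polynomial `P` of positive degree with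
  constant coefficients): `P.coeff k = um (c_k)` with `c_k i ∈ ℂ` for almost all `i` (`const_of_der`). So for almost
  all `i` the polynomial `∑_k c_k(i) T^k` (`k ≤ natDegree P`, monic) has coefficients in `ℂ` and a root in `ℂ`.
* `s_l.val x (D x) = um (s_l.val x_i (D_i x_i))` (D1), and by `hgt_val` (H4) its height is at most
  `m * pol D_i ≤ m χ_i`, so it is in `C`.
* Choose `j0` with `x j0 ≠ 0`. If all `x i / x j0` were in `C`, `hgt (x_i,k / x_i,j0) ≤ B_k χ_i` for almost all `i`, then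
  `pht (x_i) ≤ ∑_k hgt (x_i,k / x_i,j0) ≤ (∑ B_k) χ_i` (`pht_le` in `Pool/Graph/R_seed8/W603/PV/Hgt.lean`),
  which contradicts `B χ_i < pht (x_i)`, `i = (G, B)`, for the `i` with `∑ B_k ≤ B` (`χ_i ≥ 0`).
-/

set_option autoImplicit false
set_option linter.overlappingInstances false
set_option linter.unusedSectionVars false

open MvPolynomial FF Filter Pool.Agent.W603.LV Pool.Agent.W603.PV

namespace Pool.Agent.H917

namespace H5aaux

open Pool.Agent.W603.CY (hgt_add_le hgt_mul_le)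
open Pool.Agent.E8helper90.AF (pol hgt_der)

variable {I : Type} {U : Ultrafilter I} {L : I → Type} [∀ i, Field (L i)] [∀ i, Algebra ℂ (L i)]
  [∀ i, IsFF ℂ (L i)]

theorem um_ne {f : ∀ i, L i} : um U L f ≠ 0 ↔ ∀ᶠ i in (U : Filter I), f i ≠ 0 := by
  rw [Ne, um_eq_zero]
  exact Ultrafilter.eventually_not.symm

/-- the elements of small height -/
def Sm (U : Ultrafilter I) (L : I → Type) [∀ i, Field (L i)] [∀ i, Algebra ℂ (L i)] (χ : I → ℤ) :
    Set (UProd U L) :=
  {x | ∃ a : ∀ i, L i, um U L a = x ∧ ∃ B : ℕ,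
    ∀ᶠ i in (U : Filter I), hgt ℂ (a i) ≤ B * χ i}

omit [∀ i, IsFF ℂ (L i)] in
theorem mem_Sm {χ : I → ℤ} {a : ∀ i, L i} : um U L a ∈ Sm U L χ ↔ ∃ B : ℕ,
      ∀ᶠ i in (U : Filter I), hgt ℂ (a i) ≤ B * χ i := by
  constructor
  · rintro ⟨b, hb, B, hB⟩
    refine ⟨B, ?_⟩
    filter_upwards [um_eq.1 hb, hB] with i h1 h2
    rw [← h1]
    exact h2
  · rintro ⟨B, hB⟩
    exact ⟨a, rfl, B, hB⟩

variable (U L) in
/-- the field of the elements of small height -/
noncomputable def smallC (χ : I → ℤ) : IntermediateField ℂ (UProd U L) where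
  carrier := Sm U L χ
  mul_mem' := by
    rintro _ _ ⟨a, rfl, B, hB⟩ ⟨b, rfl, C, hC⟩
    refine ⟨a * b, map_mul _ _ _, B + C, ?_⟩
    filter_upwards [hB, hC] with i h1 h2
    refine (hgt_mul_le _ _).trans ((add_le_add h1 h2).trans (le_of_eq ?_))
    push_cast
    ring
  one_mem' := by
    refine ⟨1, map_one _, 0, Eventually.of_forall fun i => ?_⟩
    rw [Pi.one_apply, hgt_one]
    simp
  add_mem' := by
    rintro _ _ ⟨a, rfl, B, hB⟩ ⟨b, rfl, C, hC⟩
    refine ⟨a + b, map_add _ _ _, B + C, ?_⟩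
    filter_upwards [hB, hC] with i h1 h2
    refine (hgt_add_le _ _).trans ((add_le_add h1 h2).trans (le_of_eq ?_))
    push_cast
    ring
  zero_mem' := by
    refine ⟨0, map_zero _, 0, Eventually.of_forall fun i => ?_⟩
    rw [Pi.zero_apply, hgt_zero]
    simp
  algebraMap_mem' := by
    intro c
    refine ⟨algebraMap ℂ (∀ i, L i) c, (um U L).commutes c, 0, Eventually.of_forall fun i => ?_⟩
    rw [Pi.algebraMap_apply, hgt_algebraic (isAlgebraic_algebraMap c)]
    simp
  inv_mem' := by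
    rintro _ ⟨a, rfl, B, hB⟩
    refine ⟨_, um_inv a, B, ?_⟩
    filter_upwards [hB] with i h1
    rw [hgt_inv]
    exact h1

theorem mem_small {χ : I → ℤ} {a : ∀ i, L i} : um U L a ∈ smallC U L χ ↔ ∃ B : ℕ,
      ∀ᶠ i in (U : Filter I), hgt ℂ (a i) ≤ B * χ i := mem_Sm

/-- the field of the elements of small height is algebraically closed in the ultraproduct -/
theorem small_closed {χ : I → ℤ} {z : UProd U L} (hz : IsAlgebraic (smallC U L χ) z) :
    z ∈ smallC U L χ := by
  obtain ⟨p, hp, hp0⟩ := hz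
  obtain ⟨w, rfl⟩ := um_surj z
  have h1 : ∀ t : ℕ, ∃ e : ∀ i, L i,
      um U L e = ((p.coeff t : smallC U L χ) : UProd U L) ∧
      ∃ B : ℕ, ∀ᶠ i in (U : Filter I), hgt ℂ (e i) ≤ B * χ i := by
    intro t
    exact (p.coeff t).2
  choose e he B hB using h1
  have h2 : um U L (∑ t ∈ Finset.range (p.natDegree + 1), e t * w ^ t) = 0 := by
    rw [map_sum]
    rw [Polynomial.aeval_eq_sum_range] at hp0
    rw [← hp0]
    refine Finset.sum_congr rfl fun t _ => ?_
    rw [map_mul, map_pow, he]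
    rfl
  have h3 : um U L (e p.natDegree) ≠ 0 := by
    rw [he]
    intro h
    have h4 : p.coeff p.natDegree = 0 := Subtype.ext h
    exact hp (Polynomial.leadingCoeff_eq_zero.1 h4)
  rw [mem_small]
  refine ⟨B p.natDegree + ∑ t ∈ Finset.range p.natDegree, B t, ?_⟩
  have h5 : ∀ᶠ i in (U : Filter I), ∀ t ∈ Finset.range (p.natDegree + 1),
      hgt ℂ (e t i) ≤ B t * χ i := (Filter.eventually_all_finset _).2 fun t _ => hB t
  filter_upwards [um_eq_zero.1 h2, um_ne.1 h3, h5] with i q1 q2 q3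
  have q4 : ∑ t ∈ Finset.range (p.natDegree + 1), e t i * w i ^ t = 0 := by
    rw [Finset.sum_apply] at q1
    exact q1
  refine (hgt_root (fun t => e t i) q2 (w i) q4).trans ?_
  push_cast
  rw [add_mul, Finset.sum_mul]
  refine add_le_add (q3 _ (Finset.mem_range.2 (Nat.lt_succ_self _)))
    (Finset.sum_le_sum fun t ht => q3 t (Finset.mem_range.2 ?_))
  have := Finset.mem_range.1 ht
  omega

theorem small_der {χ : I → ℤ} {D : ∀ i, Derivation ℂ (L i) (L i)}
    (hD0 : ∀ i, D i ≠ 0) (hD : ∀ i, pol (D i) ≤ χ i) {x : UProd U L}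
    (hx : x ∈ smallC U L χ) : uder D x ∈ smallC U L χ := by
  obtain ⟨a, rfl⟩ := um_surj x
  obtain ⟨B, hB⟩ := mem_small.1 hx
  rw [uder_um, mem_small]
  refine ⟨2 * B + 1, ?_⟩
  filter_upwards [hB] with i hi
  refine (hgt_der (hD0 i) (a i)).trans ?_
  have := hD i
  push_cast
  linarith

theorem small_cst {χ : I → ℤ} {D : ∀ i, Derivation ℂ (L i) (L i)}
    (hD0 : ∀ i, D i ≠ 0) {x : UProd U L} (hx : uder D x = 0) : x ∈ smallC U L χ := by
  obtain ⟨a, rfl⟩ := um_surj x
  rw [uder_um, um_eq_zero] at hx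
  rw [mem_small]
  refine ⟨0, ?_⟩
  filter_upwards [hx] with i hi
  obtain ⟨c, hc⟩ := const_of_der (hD0 i) hi
  rw [hc, hgt_algebraic (isAlgebraic_algebraMap c)]
  simp

/-- roots of monic polynomials over the complex numbers -/
theorem exists_root {N : ℕ} (hN : 0 < N) (c : ℕ → ℂ) :
    ∃ r : ℂ, r ^ N + ∑ k ∈ Finset.range N, c k * r ^ k = 0 := by
  have h1 : (∑ k ∈ Finset.range N, Polynomial.C (c k) * Polynomial.X ^ k : Polynomial ℂ).degree <
      (N : WithBot ℕ) := by
    rw [← Polynomial.mem_degreeLT]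
    refine Submodule.sum_mem _ fun k hk => ?_
    rw [Polynomial.mem_degreeLT]
    refine (Polynomial.degree_C_mul_X_pow_le k (c k)).trans_lt ?_
    exact_mod_cast Finset.mem_range.1 hk
  obtain ⟨r, hr⟩ := IsAlgClosed.exists_root (Polynomial.X ^ N +
    ∑ k ∈ Finset.range N, Polynomial.C (c k) * Polynomial.X ^ k : Polynomial ℂ) (by
      rw [Polynomial.degree_add_eq_left_of_degree_lt (by rw [Polynomial.degree_X_pow]; exact h1),
        Polynomial.degree_X_pow]
      exact_mod_cast hN.ne')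
  refine ⟨r, ?_⟩
  rw [Polynomial.IsRoot.def, Polynomial.eval_add, Polynomial.eval_pow, Polynomial.eval_X,
    Polynomial.eval_finsetSum] at hr
  rw [← hr]
  congr 1
  refine Finset.sum_congr rfl fun k _ => ?_
  rw [Polynomial.eval_mul, Polynomial.eval_C, Polynomial.eval_pow, Polynomial.eval_X]

/-- the constants of the derivation are algebraically closed -/
theorem cst_closed {D : ∀ i, Derivation ℂ (L i) (L i)} (hD0 : ∀ i, D i ≠ 0)
    (P : Polynomial (UProd U L)) (hP : P.Monic) (hdeg : 0 < P.natDegree)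
    (hc : ∀ k, uder D (P.coeff k) = 0) : ∃ z, uder D z = 0 ∧ P.eval z = 0 := by
  choose c hcu using fun k : ℕ => um_surj (P.coeff k)
  have h1 : ∀ k, ∀ᶠ i in (U : Filter I), ∃ g : ℂ, c k i = algebraMap ℂ (L i) g := by
    intro k
    have h2 := hc k
    rw [← hcu k, uder_um, um_eq_zero] at h2
    filter_upwards [h2] with i hi
    exact const_of_der (hD0 i) hi
  have h2 : ∀ k i, ∃ g : ℂ, (∃ g' : ℂ, c k i = algebraMap ℂ (L i) g') →
      c k i = algebraMap ℂ (L i) g := by
    intro k i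
    by_cases h : ∃ g' : ℂ, c k i = algebraMap ℂ (L i) g'
    · obtain ⟨g, hg⟩ := h
      exact ⟨g, fun _ => hg⟩
    · exact ⟨0, fun h' => absurd h' h⟩
  choose g hg using h2
  choose r hr using fun i => exists_root hdeg (fun k => g k i)
  refine ⟨um U L fun i => algebraMap ℂ (L i) (r i), ?_, ?_⟩
  · rw [uder_um, um_eq_zero]
    exact Eventually.of_forall fun i => (D i).map_algebraMap _
  · have h3 : P.eval (um U L fun i => algebraMap ℂ (L i) (r i)) =
        um U L (∑ k ∈ Finset.range P.natDegree, c k * (fun i => algebraMap ℂ (L i) (r i)) ^ k +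
          (fun i => algebraMap ℂ (L i) (r i)) ^ P.natDegree) := by
      rw [Polynomial.eval_eq_sum_range, Finset.sum_range_succ, hP.coeff_natDegree, one_mul,
        map_add, map_sum, map_pow]
      congr 1
      refine Finset.sum_congr rfl fun k _ => ?_
      rw [map_mul, map_pow, hcu]
    rw [h3, um_eq_zero]
    have h5 : ∀ᶠ i in (U : Filter I), ∀ k ∈ Finset.range P.natDegree,
        ∃ g' : ℂ, c k i = algebraMap ℂ (L i) g' :=
      (Filter.eventually_all_finset _).2 fun t _ => h1 t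
    filter_upwards [h5] with i hi
    rw [Pi.add_apply, Finset.sum_apply, Pi.pow_apply]
    have h6 : ∑ k ∈ Finset.range P.natDegree,
        (c k * (fun i => algebraMap ℂ (L i) (r i)) ^ k) i =
        ∑ k ∈ Finset.range P.natDegree, algebraMap ℂ (L i) (g k i * r i ^ k) := by
      refine Finset.sum_congr rfl fun k hk => ?_
      rw [Pi.mul_apply, Pi.pow_apply, map_mul, map_pow, hg k i (hi k hk)]
    rw [h6, ← map_sum, ← map_pow, ← map_add, add_comm, hr i, map_zero]

end H5aaux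

variable {n : ℕ} {p : Ideal (MvPolynomial (Fin (n + 1)) ℂ)}

/-- **The ultraproduct of curves of large degree.** -/
theorem exists_ultra_ht (hpp : p.IsPrime) (hp : Pool.Agent.W603.PV.IsHomog p) {m N : ℕ}
    (s : Fin N → SymDiff p m)
    (h : ∀ G : MvPolynomial (Fin (n + 1)) ℂ, (∃ k, G.IsHomogeneous k) → G ∉ p → ∀ B : ℕ,
      ∃ (F : Type) (_ : Field F) (_ : Algebra ℂ F) (_ : IsFF ℂ F) (x : Fin (n + 1) → F),
        x ≠ 0 ∧ (∀ H ∈ p, aeval x H = 0) ∧ aeval x G ≠ 0 ∧
        (B : ℤ) * max (canDeg ℂ F) 0 < pht ℂ x) :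
    ∃ (M : Type) (_ : Field M) (_ : Algebra ℂ M) (D : Derivation ℂ M M) (C : IntermediateField ℂ M)
      (x : Fin (n + 1) → M),
        (∀ H ∈ p, aeval x H = 0) ∧ (∀ G : MvPolynomial (Fin (n + 1)) ℂ, (∃ k, G.IsHomogeneous k) →
          G ∉ p → aeval x G ≠ 0) ∧ x ≠ 0 ∧
        (∀ P : Polynomial M, P.Monic → 0 < P.natDegree → (∀ k, D (P.coeff k) = 0) →
          ∃ z, D z = 0 ∧ P.eval z = 0) ∧
        (∀ z, D z = 0 → z ∈ C) ∧ (∀ z ∈ C, D z ∈ C) ∧ (∀ z, IsAlgebraic C z → z ∈ C) ∧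
        (∀ l, (s l).val x (fun i => D (x i)) ∈ C) ∧ ∃ i j, x j ≠ 0 ∧ x i / x j ∉ C := by
  classical
  let I : Type := {G : MvPolynomial (Fin (n + 1)) ℂ // (∃ k, G.IsHomogeneous k) ∧ G ∉ p} × ℕ
  have h' : ∀ i : I, ∃ (F : Type) (_ : Field F) (_ : Algebra ℂ F) (_ : IsFF ℂ F)
      (x : Fin (n + 1) → F), x ≠ 0 ∧ (∀ H ∈ p, aeval x H = 0) ∧ aeval x i.1.1 ≠ 0 ∧
        (i.2 : ℤ) * max (canDeg ℂ F) 0 < pht ℂ x :=
    fun i => h i.1.1 i.1.2.1 i.1.2.2 i.2
  choose M i1 i2 i3 x h3 h1 h2 h4 using h'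
  choose D hD0 hD using fun i => Pool.Agent.H916.exists_pol_der (k := ℂ) (K := M i)
  obtain ⟨χ, hχ⟩ : ∃ χ : I → ℤ, χ = fun i => max (canDeg ℂ (M i)) 0 := ⟨_, rfl⟩
  have hDχ : ∀ i, Pool.Agent.E8helper90.AF.pol (D i) ≤ χ i := by
    rw [hχ]
    exact hD
  have hχ0 : ∀ i, 0 ≤ χ i := by
    rw [hχ]
    exact fun i => le_max_right _ _
  -- the ultrafilter
  let S : I → Set I := fun i => {i' | i.1.1 ∣ i'.1.1 ∧ i.2 ≤ i'.2}
  have hI : Nonempty I := ⟨⟨⟨1, ⟨0, isHomogeneous_one _ _⟩, fun h => (Ideal.ne_top_iff_one p).1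
    hpp.ne_top h⟩, 0⟩⟩
  have hdir : Directed (· ≥ ·) fun i : I => 𝓟 (S i) := by
    intro i1 i2
    refine ⟨⟨⟨i1.1.1 * i2.1.1, ?_, ?_⟩, max i1.2 i2.2⟩, ?_, ?_⟩
    · obtain ⟨k1, hk1⟩ := i1.1.2.1
      obtain ⟨k2, hk2⟩ := i2.1.2.1
      exact ⟨k1 + k2, hk1.mul hk2⟩
    · intro h
      rcases hpp.mem_or_mem h with h | h
      · exact i1.1.2.2 h
      · exact i2.1.2.2 h
    · change 𝓟 _ ≤ 𝓟 _
      rw [principal_mono]
      intro i hi
      exact ⟨(Dvd.intro _ rfl).trans hi.1, (le_max_left _ _).trans hi.2⟩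
    · change 𝓟 _ ≤ 𝓟 _
      rw [principal_mono]
      intro i hi
      exact ⟨(Dvd.intro_left _ rfl).trans hi.1, (le_max_right _ _).trans hi.2⟩
  have hne : (⨅ i : I, 𝓟 (S i)).NeBot := iInf_neBot_of_directed' hdir fun i =>
    principal_neBot_iff.2 ⟨i, dvd_rfl, le_rfl⟩
  let U : Ultrafilter I := Ultrafilter.of (⨅ i : I, 𝓟 (S i))
  have hU : ∀ i : I, ∀ᶠ i' in (U : Filter I), i.1.1 ∣ i'.1.1 ∧ i.2 ≤ i'.2 := by
    intro i
    have h6 : S i ∈ (⨅ i : I, 𝓟 (S i)) := mem_iInf_of_mem i (mem_principal_self _)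
    exact Ultrafilter.of_le _ h6
  -- the point
  let X' : Fin (n + 1) → UProd U M := fun j => um U M fun i => x i j
  have hXa : ∀ H : MvPolynomial (Fin (n + 1)) ℂ, aeval X' H = um U M fun i => aeval (x i) H :=
    fun H => um_aeval x H
  have hXp : ∀ H ∈ p, aeval X' H = 0 := by
    intro H hH
    rw [hXa, um_eq_zero]
    exact Eventually.of_forall fun i => h1 i H hH
  have hX0 : X' ≠ 0 := by
    intro h0
    have h6 : ∀ j, ∀ᶠ i in (U : Filter I), x i j = 0 := by
      intro j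
      have h7 := congrFun h0 j
      exact um_eq_zero.1 h7
    obtain ⟨i, hi⟩ := (eventually_all.2 h6).exists
    exact h3 i (funext hi)
  obtain ⟨j0, hj0⟩ := Function.ne_iff.1 hX0
  have hj0' : ∀ᶠ i in (U : Filter I), x i j0 ≠ 0 := by
    rw [Ultrafilter.eventually_not]
    intro h0
    exact hj0 (um_eq_zero.2 h0)
  have hval : ∀ l, (s l).val X' (fun i => uder D (X' i)) =
      um U M fun i => (s l).val (x i) fun j => D i (x i j) := by
    intro l
    rw [(s l).val_eq hp (tanVec_der (uder D) hX0 hXp) hj0]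
    have h6 : loc j0 X' (fun i => uder D (X' i)) =
        fun k => um U M fun i => loc j0 (x i) (fun j => D i (x i j)) k := by
      funext k
      rcases k with k | k
      · change um U M _ / um U M _ = um U M fun i => x i k / x i j0
        rw [um_div]
      · change (uder D (um U M _) * um U M _ - um U M _ * uder D (um U M _)) / um U M _ ^ 2 =
          um U M fun i => (D i (x i k) * x i j0 - x i k * D i (x i j0)) / x i j0 ^ 2
        rw [uder_um, uder_um, um_div, ← map_mul, ← map_mul, ← map_sub, ← map_pow]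
        rfl
    rw [h6, um_aeval, um_eq]
    filter_upwards [hj0'] with i hi
    rw [(s l).val_eq hp (tanVec_der (D i) (h3 i) (h1 i)) hi]
  refine ⟨UProd U M, inferInstance, inferInstance, uder D, H5aaux.smallC U M χ, X', hXp, ?_, hX0,
    ?_, ?_, ?_, ?_, ?_, ?_⟩
  · intro G hG hGp h0
    rw [hXa, um_eq_zero] at h0
    obtain ⟨i, hi1, hi2⟩ := (h0.and (hU ⟨⟨G, hG, hGp⟩, 0⟩)).exists
    apply h2 i
    obtain ⟨Q, hQ⟩ := hi2.1
    rw [hQ, map_mul]
    change aeval (x i) G * _ = 0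
    rw [hi1, zero_mul]
  · intro P hP hdeg hc
    exact H5aaux.cst_closed hD0 P hP hdeg hc
  · intro z hz
    exact H5aaux.small_cst hD0 hz
  · intro z hz
    exact H5aaux.small_der hD0 hDχ hz
  · intro z hz
    exact H5aaux.small_closed hz
  · intro l
    rw [hval, H5aaux.mem_small]
    refine ⟨m, Eventually.of_forall fun i => ?_⟩
    refine (hgt_val hp (s l) (hD0 i) (h3 i) (h1 i)).trans ?_
    exact mul_le_mul_of_nonneg_left (hDχ i) (Int.natCast_nonneg m)
  · by_contra hcon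
    push Not at hcon
    have h5 : ∀ k, ∃ B : ℕ, ∀ᶠ i in (U : Filter I), hgt ℂ (x i k / x i j0) ≤ B * χ i := by
      intro k
      have h6 := hcon k j0 hj0
      change um U M _ / um U M _ ∈ _ at h6
      rw [← um_div, H5aaux.mem_small] at h6
      exact h6
    choose B hB using h5
    have h6 := hU ⟨⟨1, ⟨0, isHomogeneous_one _ _⟩, fun h => (Ideal.ne_top_iff_one p).1
      hpp.ne_top h⟩, ∑ k, B k⟩
    obtain ⟨i, hi1, hi2, hi3⟩ := (h6.and (hj0'.and (eventually_all.2 hB))).exists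
    have h7 : pht ℂ (x i) ≤ ((∑ k, B k : ℕ) : ℤ) * χ i := by
      refine (pht_le (k := ℂ) (x i) hi2).trans ?_
      push_cast
      rw [Finset.sum_mul]
      exact Finset.sum_le_sum fun k _ => hi3 k
    have h8 : ((∑ k, B k : ℕ) : ℤ) * χ i ≤ (i.2 : ℤ) * χ i :=
      mul_le_mul_of_nonneg_right (by exact_mod_cast hi1.2) (hχ0 i)
    have h9 := h4 i
    rw [hχ] at h7 h8
    exact absurd (h9.trans_le (h7.trans h8)) (lt_irrefl _)

end Pool.Agent.H917
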