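import Pool.Agent.H917.B3
import Pool.Agent.H917.G.H2
import Pool.Agent.H917.G.H3
import Pool.Agent.H917.G.H5a

/-!
# PROJECT ALGHYP (helper917): the degrees of curves in varieties of general type
-/

set_option autoImplicit false
set_option linter.overlappingInstances false
set_option linter.unusedSectionVars false

open MvPolynomial FF Pool.Agent.W603.LV Pool.Agent.W603.PV
open Pool.Agent.W602.GT (IsForm GeneralType coords)
open Pool.Agent.TH143.GT (FunField)

namespace Pool.Agent.H917

variable {n : ℕ} {p : Ideal (MvPolynomial (Fin (n + 1)) ℂ)}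

/-- **Points over differential fields.** The closure of the point is of general type, the values of the
symmetric differentials are in an algebraically closed differential subfield which contains the
constants; then the point is defined over the subfield. -/
theorem point_const {M : Type} [Field M] [Algebra ℂ M] (D : Derivation ℂ M M)
    (C : IntermediateField ℂ M)
    (hac : ∀ P : Polynomial M, P.Monic → 0 < P.natDegree → (∀ k, D (P.coeff k) = 0) →
      ∃ z, D z = 0 ∧ P.eval z = 0)
    (hcst : ∀ z, D z = 0 → z ∈ C) (hst : ∀ z ∈ C, D z ∈ C) (hcl : ∀ z, IsAlgebraic C z → z ∈ C)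
    (hp : Pool.Agent.W603.PV.IsHomog p) {m N : ℕ}
    {s : Fin N → SymDiff p m} (hs : Gens p m s) (hm : 1 ≤ m) {x : Fin (n + 1) → M}
    {j0 : Fin (n + 1)} (hx : x j0 ≠ 0) (hX : ∀ H ∈ p, aeval x H = 0)
    (hval : ∀ l, (s l).val x (fun i => D (x i)) ∈ C)
    {K : Type} [Field K] [Algebra ℂ K] {w : ℕ} {y : Fin (n + 1) → K} (hne : y ≠ 0)
    (hgen : coords ℂ y = ⊤) (hdim : Algebra.trdeg ℂ K = w)
    (hrel : ∀ G : MvPolynomial (Fin (n + 1)) ℂ, IsForm G → (aeval y G = 0 ↔ aeval x G = 0))
    (hGT : GeneralType ℂ K w) (i j : Fin (n + 1)) : x i / x j ∈ C := by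
  classical
  by_cases hnc : ∃ i j, D (x i / x j) ≠ 0
  swap
  · push Not at hnc
    exact hcst _ (hnc i j)
  obtain ⟨r, h, δ, A, b, hA, hb, hh, h0, hxb⟩ := linSys_amb D C hst hp hs hm hx hX hval hnc hgen
    hrel hGT
  let T : Set M := Set.range h ∪ {δ} ∪ Set.range (fun a : Fin r × Fin r => A a.1 a.2) ∪
    Set.range (fun a : Fin (n + 1) × Fin r => b a.1 a.2) ∪ Set.range x
  have hT : T.Countable := ((((Set.countable_range h).union (Set.countable_singleton δ)).union
    (Set.countable_range _)).union (Set.countable_range _)).union (Set.countable_range x)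
  obtain ⟨K0, i1, i2, D0, ι, σ, R, h1, h2, h3, h4, h5⟩ := exists_cst D hac C hcst T hT
  have hh' : ∀ a, ∃ z, ι z = h a := fun a => h5 (Or.inl (Or.inl (Or.inl (Or.inl ⟨a, rfl⟩))))
  have hδ' : ∃ z, ι z = δ := h5 (Or.inl (Or.inl (Or.inl (Or.inr rfl))))
  have hA' : ∀ a c, ∃ z, ι z = A a c := fun a c =>
    h5 (Or.inl (Or.inl (Or.inr ⟨(a, c), rfl⟩)))
  have hb' : ∀ a c, ∃ z, ι z = b a c := fun a c => h5 (Or.inl (Or.inr ⟨(a, c), rfl⟩))
  have hx' : ∀ a, ∃ z, ι z = x a := fun a => h5 (Or.inr ⟨a, rfl⟩)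
  choose h' hh' using hh'
  obtain ⟨δ', hδ'⟩ := hδ'
  choose A' hA' using hA'
  choose b' hb' using hb'
  choose x' hx' using hx'
  have hinj : Function.Injective ι := ι.injective
  have key := lin_cst D0 h3 σ R (fun z hz => (h4 _).2 (by
      rw [map_inv₀]
      exact C.inv_mem ((h4 _).1 hz))) (fun z hz => (h4 _).2 (by
      rw [h2]
      exact hst _ ((h4 _).1 hz))) (h := h') (δ := δ') (A := A') (b := b') (x := x') (j0 := j0)
    (fun a c => (h4 _).2 (by rw [hA']; exact hA a c))
    (fun a c => (h4 _).2 (by rw [hb']; exact hb a c))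
    (fun a => hinj (by
      rw [h2, map_add, map_mul, map_sum, hh', hδ', hh a]
      simp only [map_mul, hA', hh'])) (fun h6 => hx (by rw [← hx', h6, map_zero]))
    (fun h6 => h0 (by
      have h7 := congrArg ι h6
      rw [map_sum, map_zero] at h7
      simp only [map_mul, hb', hh'] at h7
      exact h7))
    (fun a => hinj (by
      rw [map_mul, map_mul, map_sum, map_sum]
      simp only [map_mul, hb', hh', hx']
      exact hxb a)) hne hgen hdim (fun G hG => (hrel G hG).trans (by
      have h6 : aeval x G = ι (aeval x' (map σ G)) := by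
        rw [aeval_def, aeval_def, eval₂_map, ← MvPolynomial.coe_eval₂Hom,
          ← MvPolynomial.coe_eval₂Hom, ← RingHom.comp_apply]
        congr 1
        refine MvPolynomial.ringHom_ext (fun c => ?_) fun a => ?_
        · rw [RingHom.comp_apply, MvPolynomial.coe_eval₂Hom, MvPolynomial.coe_eval₂Hom,
            eval₂_C, eval₂_C, RingHom.comp_apply, h1]
        · rw [RingHom.comp_apply, MvPolynomial.coe_eval₂Hom, MvPolynomial.coe_eval₂Hom,
            eval₂_X, eval₂_X, hx']
      rw [h6, map_eq_zero_iff ι hinj])) hGT i j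
  -- transport of the algebraicity
  apply hcl
  obtain ⟨P, hP0, hP⟩ := key
  let φ : R →+* C :=
    { toFun := fun z => ⟨ι z, (h4 _).1 z.2⟩
      map_one' := Subtype.ext (map_one ι)
      map_mul' := fun a c => Subtype.ext (map_mul ι _ _)
      map_zero' := Subtype.ext (map_zero ι)
      map_add' := fun a c => Subtype.ext (map_add ι _ _) }
  have hφ : Function.Injective φ := fun a c hac => Subtype.ext (hinj (congrArg Subtype.val hac))
  refine ⟨P.map φ, (Polynomial.map_ne_zero_iff hφ).2 hP0, ?_⟩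
  have h6 : ι (x' i / x' j) = x i / x j := by rw [map_div₀, hx', hx']
  rw [← h6, Polynomial.aeval_def, Polynomial.eval₂_map]
  have h7 : (algebraMap C M).comp φ = ι.comp (algebraMap R K0) := RingHom.ext fun z => rfl
  rw [h7, ← Polynomial.hom_eval₂, ← Polynomial.aeval_def, hP, map_zero]

/-- **The degrees of curves in varieties of general type.** -/
theorem curve_bound (hpp : p.IsPrime) (hp : Pool.Agent.W603.PV.IsHomog p) {m N : ℕ}
    {s : Fin N → SymDiff p m} (hs : Gens p m s) (hm : 1 ≤ m) {K : Type} [Field K] [Algebra ℂ K]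
    {w : ℕ} {y : Fin (n + 1) → K} (hy : FunField p 1 K w y) (hGT : GeneralType ℂ K w) :
    ∃ G : MvPolynomial (Fin (n + 1)) ℂ, (∃ k, G.IsHomogeneous k) ∧ G ∉ p ∧ ∃ B : ℕ,
      ∀ (F : Type) [Field F] [Algebra ℂ F] [IsFF ℂ F] (x : Fin (n + 1) → F), x ≠ 0 →
        (∀ H ∈ p, aeval x H = 0) → aeval x G ≠ 0 → pht ℂ x ≤ B * max (canDeg ℂ F) 0 := by
  by_contra hcon
  push Not at hcon
  obtain ⟨M, i1, i2, D, C, x, hXp, hXG, hx0, hac, hcst, hst, hcl, hval, i, j, hj, hij⟩ :=
    exists_ultra_ht hpp hp s fun G hG hGp B => by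
      obtain ⟨F, j1, j2, j3, x, h1, h2, h3, h4⟩ := hcon G hG hGp B
      exact ⟨F, j1, j2, j3, x, h1, h2, h3, h4⟩
  exact hij (point_const D C hac hcst hst hcl hp hs hm hj hXp hval hy.sub.ne hy.sub.gen hy.sub.dim
    (fun G hG => by
      constructor
      · intro h0
        exact hXp G (hy.mem G hG h0)
      · intro h0
        by_contra hne
        refine hXG G hG (fun hGp => hne ?_) h0
        exact hy.sub.mem G hGp) hGT i j)

end Pool.Agent.H917
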