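import Pool.Agent.H917.F3
import Pool.Agent.H917.G.H5

/-!
# PROJECT ALGHYP (helper917), task H6: all curves outside of the union of the subvarieties not of general type

## Paper proof of `curve_bound_all`

Noetherian induction exactly as in `finite_union` (`Pool/Agent/H917/F3.lean`, which can be copied), with the
following statement `T(I)` for the homogeneous ideals `I ⊇ p`: there is `B : ℕ` such that for all function
fields `F` and all `x : Fin (n+1) → F`, `x ≠ 0`, with `aeval x H = 0` for all `H ∈ I`, either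
`pht x ≤ B * max (canDeg ℂ F) 0`, or there is a homogeneous ideal `q ≥ I` with `NotGT q` and
`aeval x H = 0` for all `H ∈ q`.

* All `X j ∈ I`: there is no such `x` (`x ≠ 0`). Otherwise:
* `I` is prime (`isPrime_of_forms`), with the function field `K` (`exists_funField`). If `K` is of general type,
  `curve_bound` (H5), with `hs.res hpI : Gens I m _`, gives `G ∉ I` and `B`; the points with `aeval x G ≠ 0` satisfy the bound
  and those with `aeval x G = 0` are points of `I ⊔ (G)`, to which the induction hypothesis is applied (take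
  the maximum of the two bounds; `max (canDeg ..) 0 ≥ 0`). If `K` is not of general type, `q = I` (`NotGT I`; `1 ≤ w` by
  `gt_zero`).
* `I` is not prime: there are forms `A, B ∉ I` with `A B ∈ I`; every point `x` of `I` is a point of `I ⊔ (A)` or
  of `I ⊔ (B)` (`F` is a field).
-/

set_option autoImplicit false
set_option linter.overlappingInstances false
set_option linter.unusedSectionVars false

open MvPolynomial FF Pool.Agent.W603.LV Pool.Agent.W603.PV

namespace Pool.Agent.H917

variable {n : ℕ} {p : Ideal (MvPolynomial (Fin (n + 1)) ℂ)}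

/-- the zeros of an ideal which are zeros of `A` are zeros of the sum -/
theorem H6aux_sup {q : Ideal (MvPolynomial (Fin (n + 1)) ℂ)} {F : Type} [Field F] [Algebra ℂ F]
    {x : Fin (n + 1) → F} (hx : ∀ H ∈ q, aeval x H = 0) {A : MvPolynomial (Fin (n + 1)) ℂ}
    (hA : aeval x A = 0) : ∀ H ∈ q ⊔ Ideal.span {A}, aeval x H = 0 := by
  intro H hH
  obtain ⟨a, ha, b, hb, rfl⟩ := Submodule.mem_sup.1 hH
  obtain ⟨c, rfl⟩ := Ideal.mem_span_singleton.1 hb
  rw [map_add, hx a ha, map_mul, hA, zero_mul, add_zero]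

/-- enlarging the constant -/
theorem H6aux_mono {B B' : ℕ} (h : B ≤ B') {a d : ℤ} (ha : a ≤ B * max d 0) :
    a ≤ B' * max d 0 :=
  ha.trans (mul_le_mul_of_nonneg_right (by exact_mod_cast h) (le_max_right _ _))

/-- **The degrees of the curves outside of the subvarieties which are not of general type.** -/
theorem curve_bound_all {m N : ℕ} {s : Fin N → SymDiff p m} (hs : Gens p m s) (hm : 1 ≤ m) :
    ∀ I : Ideal (MvPolynomial (Fin (n + 1)) ℂ), p ≤ I → Pool.Agent.W603.PV.IsHomog I →
      ∃ B : ℕ, ∀ (F : Type) [Field F] [Algebra ℂ F] [IsFF ℂ F] (x : Fin (n + 1) → F), x ≠ 0 →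
        (∀ H ∈ I, aeval x H = 0) → pht ℂ x ≤ B * max (canDeg ℂ F) 0 ∨
        ∃ q : Ideal (MvPolynomial (Fin (n + 1)) ℂ), I ≤ q ∧ Pool.Agent.W603.PV.IsHomog q ∧
          NotGT q ∧ ∀ H ∈ q, aeval x H = 0 := by
  classical
  intro I
  induction I using WellFoundedGT.induction with
  | ind I ih =>
  intro hpI hI
  by_cases hX : ∀ j, X j ∈ I
  · refine ⟨0, fun F _ _ _ x hx h => ?_⟩
    exfalso
    apply hx
    funext j
    have h1 := h _ (hX j)
    rwa [aeval_X] at h1
  · push Not at hX
    obtain ⟨j, hj⟩ := hX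
    have hltsup : ∀ A, A ∉ I → I < I ⊔ Ideal.span {A} := by
      intro A hA
      refine lt_of_le_of_ne le_sup_left fun h => hA ?_
      rw [h]
      exact Ideal.mem_sup_right (Ideal.mem_span_singleton_self A)
    by_cases hAB : ∀ A B : MvPolynomial (Fin (n + 1)) ℂ, (∃ d, A.IsHomogeneous d) →
        (∃ d, B.IsHomogeneous d) → A * B ∈ I → A ∈ I ∨ B ∈ I
    · have hIp : I.IsPrime := isPrime_of_forms hI (fun h => hj (h ▸ Submodule.mem_top)) hAB
      obtain ⟨K, i1, i2, w, y, hy0, hyg, hyd, hyf⟩ := exists_funField hIp hj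
      have hy : SubVar I K w y := by
        refine ⟨hy0, fun H hH => ?_, hyg, hyd⟩
        rw [← sum_homogeneousComponent H, map_sum]
        exact Finset.sum_eq_zero fun d _ =>
          (hyf _ ⟨d, homogeneousComponent_isHomogeneous d H⟩).2 (hI H hH d)
      by_cases hGT : Pool.Agent.W602.GT.GeneralType ℂ K w
      · obtain ⟨G, hG, hGI, B₁, hB₁⟩ := curve_bound hIp hI (hs.res hpI) hm
          (funField_of hy fun H hH => (hyf H hH).1) hGT
        obtain ⟨B₂, hB₂⟩ := ih _ (hltsup G hGI) (hpI.trans le_sup_left) (isHomog_sup hI hG)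
        refine ⟨max B₁ B₂, fun F _ _ _ x hx h => ?_⟩
        by_cases hxG : aeval x G = 0
        · rcases hB₂ F x hx (H6aux_sup h hxG) with h1 | ⟨q, hq, h2⟩
          · exact Or.inl (H6aux_mono (le_max_right _ _) h1)
          · exact Or.inr ⟨q, le_sup_left.trans hq, h2⟩
        · exact Or.inl (H6aux_mono (le_max_left _ _) (hB₁ F x hx h hxG))
      · have hw : 1 ≤ w := by
          by_contra hw
          have hw0 : w = 0 := by omega
          subst hw0
          exact hGT (gt_zero hy.dim)
        refine ⟨0, fun F _ _ _ x hx h => Or.inr ⟨I, le_rfl, hI, ?_, h⟩⟩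
        exact ⟨K, i1, i2, w, y, hw, hy, fun H hH => (hyf H hH).1, hGT⟩
    · push Not at hAB
      obtain ⟨A, B, hA, hB, hAB, hAI, hBI⟩ := hAB
      obtain ⟨B₁, h1⟩ := ih _ (hltsup A hAI) (hpI.trans le_sup_left) (isHomog_sup hI hA)
      obtain ⟨B₂, h2⟩ := ih _ (hltsup B hBI) (hpI.trans le_sup_left) (isHomog_sup hI hB)
      refine ⟨max B₁ B₂, fun F _ _ _ x hx h => ?_⟩
      have h3 := h _ hAB
      rw [map_mul, mul_eq_zero] at h3
      rcases h3 with h3 | h3
      · rcases h1 F x hx (H6aux_sup h h3) with h4 | ⟨q, hq, h5⟩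
        · exact Or.inl (H6aux_mono (le_max_left _ _) h4)
        · exact Or.inr ⟨q, le_sup_left.trans hq, h5⟩
      · rcases h2 F x hx (H6aux_sup h h3) with h4 | ⟨q, hq, h5⟩
        · exact Or.inl (H6aux_mono (le_max_right _ _) h4)
        · exact Or.inr ⟨q, le_sup_left.trans hq, h5⟩

end Pool.Agent.H917
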