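import Pool.Agent.H917.G.H6
import Pool.Agent.H916.Bb

/-!
# PROJECT ALGHYP (helper917), task H7: pointed maps

Varieties with generating symmetric differentials: there are only finitely many pointed maps from a
pointed curve with value outside of `Sp_alg`, and the degrees of the curves which are not contained
in `Sp_alg` are bounded linearly in the genus.
-/

set_option autoImplicit false
set_option linter.overlappingInstances false
set_option linter.unusedSectionVars false

open MvPolynomial FF Pool.Agent.W603.LV Pool.Agent.W603.PV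
open Pool.Agent.W602.GT (IsForm GeneralType val VarPts)
open Pool.Agent.W602.RG (HasValue PointedMaps PseudoGeomHyp)
open Pool.Agent.Y216 (OnVar canDeg_ratFunc)
open scoped LinearAlgebra.Projectivization

namespace Pool.Agent.H917

variable {n : ℕ} {p : Ideal (MvPolynomial (Fin (n + 1)) ℂ)}

/-- The morphisms from the smooth projective curve with the function field `L` to the projective
variety with the ideal `p` that map the point `c` to the point `x`. -/
def PMaps (p : Ideal (MvPolynomial (Fin (n + 1)) ℂ)) {L : Type} [Field L] [Algebra ℂ L]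
    (c : Place ℂ L) (x : Fin (n + 1) → ℂ) : Set (ℙ L (Fin (n + 1) → L)) :=
  {φ | ∃ (f : Fin (n + 1) → L) (hf : f ≠ 0), (∀ H ∈ p, aeval f H = 0) ∧ HasValue c x f ∧
    φ = Projectivization.mk L f hf}

/-- an ideal generated by forms vanishes at a point if its forms do -/
theorem H7aux_forms {q : Ideal (MvPolynomial (Fin (n + 1)) ℂ)} (hq : Pool.Agent.W603.PV.IsHomog q)
    {F : Type} [Field F] [Algebra ℂ F] {x : Fin (n + 1) → F}
    (h : ∀ H ∈ q, (∃ d, H.IsHomogeneous d) → aeval x H = 0) : ∀ H ∈ q, aeval x H = 0 := by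
  intro H hH
  rw [← sum_homogeneousComponent H, map_sum]
  exact Finset.sum_eq_zero fun d _ => h _ (hq H hH d) ⟨d, homogeneousComponent_isHomogeneous d H⟩

/-- the value of a curve in a closed subvariety is in the subvariety -/
theorem pts_of_value {q : Ideal (MvPolynomial (Fin (n + 1)) ℂ)}
    (hq : Pool.Agent.W603.PV.IsHomog q) {L : Type} [Field L] [Algebra ℂ L] {c : Place ℂ L}
    {x : Fin (n + 1) → ℂ} (hx : x ≠ 0) {f : Fin (n + 1) → L} (hf : f ≠ 0) (hv : HasValue c x f)
    (h : ∀ H ∈ q, aeval f H = 0) : x ∈ Pts q := by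
  have h1 : ∀ H ∈ q, aeval x H = 0 := by
    refine H7aux_forms hq fun H hH hd => ?_
    by_contra hcon
    exact Pool.Agent.H916.value_ne hx (Function.ne_iff.1 hf) hv hd hcon (h H hH)
  refine ⟨hx, fun H hH => ?_⟩
  have h2 := h1 H hH
  rwa [aeval_eq_eval] at h2

/-- the subvarieties which are not of general type -/
theorem spAlg_of_ngt {q : Ideal (MvPolynomial (Fin (n + 1)) ℂ)} (hpq : p ≤ q) (hq : NotGT q)
    {x : Fin (n + 1) → ℂ} (hx : x ∈ Pts q) : x ∈ SpAlg p :=
  spAlg_mono hpq (pts_sub_spAlg hq hx)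

/-- **Finiteness of pointed maps.** -/
theorem pointed_finite (hp : Pool.Agent.W603.PV.IsHomog p) {m N : ℕ} {s : Fin N → SymDiff p m}
    (hs : Gens p m s) (hm : 1 ≤ m) {L : Type} [Field L] [Algebra ℂ L] [IsFF ℂ L] (c : Place ℂ L)
    {x : Fin (n + 1) → ℂ} (hx' : x ∉ SpAlg p) :
    ∀ I : Ideal (MvPolynomial (Fin (n + 1)) ℂ), p ≤ I → Pool.Agent.W603.PV.IsHomog I →
      x ∈ Pts I → (PMaps I c x).Finite := by
  classical
  obtain ⟨B, hB⟩ := curve_bound_all hs hm p le_rfl hp
  intro I
  induction I using WellFoundedGT.induction with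
  | ind I ih =>
  intro hpI hI hx
  by_cases hX : ∀ j, X j ∈ I
  · exfalso
    apply hx.1
    funext j
    have h1 := hx.2 _ (hX j)
    rwa [eval_X] at h1
  · push Not at hX
    obtain ⟨j, hj⟩ := hX
    have hltsup : ∀ A, A ∉ I → I < I ⊔ Ideal.span {A} := by
      intro A hA
      refine lt_of_le_of_ne le_sup_left fun h => hA ?_
      rw [h]
      exact Ideal.mem_sup_right (Ideal.mem_span_singleton_self A)
    by_cases hAB : ∀ A B : MvPolynomial (Fin (n + 1)) ℂ, (∃ d, A.IsHomogeneous d) →
        (∃ d, B.IsHomogeneous d) → A * B ∈ I → A ∈ I ∨ B ∈ I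
    · have hIp : I.IsPrime := isPrime_of_forms hI (fun h => hj (h ▸ Submodule.mem_top)) hAB
      obtain ⟨K, i1, i2, w, y, hy0, hyg, hyd, hyf⟩ := exists_funField hIp hj
      have hmem : ∀ {F : Type} [Field F] [Algebra ℂ F] {f : Fin (n + 1) → F}, OnVar ℂ y f →
          ∀ H ∈ I, aeval f H = 0 := by
        intro F _ _ f hf
        exact H7aux_forms hI fun H hH hd => hf.2 H hd ((hyf H hd).2 hH)
      have hxV : x ∈ VarPts ℂ y := by
        refine ⟨hx.1, fun G hG h => ?_⟩
        have h1 := hx.2 G ((hyf G hG).1 h)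
        change aeval x G = 0
        rwa [aeval_eq_eval]
      have hPM : PMaps I c x ⊆ PointedMaps y c x := by
        rintro φ ⟨f, hf, h1, h2, h3⟩
        exact ⟨f, hf, fun H hH h => h1 H ((hyf H hH).1 h), h2, h3⟩
      have hbd : ∀ f : Fin (n + 1) → L, OnVar ℂ y f → HasValue c x f →
          pht ℂ f ≤ B * max (canDeg ℂ L) 0 := by
        intro f hf hv
        have hf0 : f ≠ 0 := Function.ne_iff.2 hf.1
        rcases hB L f hf0 (fun H hH => hmem hf H (hpI hH)) with h2 | ⟨q, hpq, hq, hngt, h3⟩
        · exact h2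
        · exact absurd (spAlg_of_ngt hpq hngt (pts_of_value hq hx.1 hf0 hv h3)) hx'
      rcases Pool.Agent.H916.finite_or_rat (x := y) (c := c) hxV (B * max (canDeg ℂ L) 0) hbd with
        h1 | ⟨g, hg, hgx, hpos⟩
      · exact h1.subset hPM
      · exfalso
        have hg0 : g ≠ 0 := Function.ne_iff.2 hg.1
        rcases hB (RatFunc ℂ) g hg0 (fun H hH => hmem hg H (hpI hH)) with h2 | ⟨q, hpq, hq, hngt, h3⟩
        · rw [canDeg_ratFunc] at h2
          have h5 : (max (-2 : ℤ) 0) = 0 := by norm_num
          rw [h5, mul_zero] at h2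
          exact absurd hpos (not_lt.2 h2)
        · apply hx'
          refine spAlg_of_ngt hpq hngt ⟨hx.1, fun H hH => ?_⟩
          have h4 : ∀ H ∈ q, aeval x H = 0 := by
            refine H7aux_forms hq fun H hH hd => ?_
            by_contra hcon
            exact hgx H hd hcon (h3 H hH)
          have h5 := h4 H hH
          rwa [aeval_eq_eval] at h5
    · push Not at hAB
      obtain ⟨A, C, hA, hC, hAC, hAI, hCI⟩ := hAB
      have hfin : ∀ E, (∃ d, E.IsHomogeneous d) → E ∉ I →
          (PMaps (I ⊔ Ideal.span {E}) c x).Finite := by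
        intro E hE hEI
        by_cases hxE : x ∈ Pts (I ⊔ Ideal.span {E})
        · exact ih _ (hltsup E hEI) (hpI.trans le_sup_left) (isHomog_sup hI hE) hxE
        · refine Set.Finite.subset Set.finite_empty fun φ => ?_
          rintro ⟨f, hf, h1, h2, -⟩
          exact hxE (pts_of_value (isHomog_sup hI hE) hx.1 hf h2 h1)
      refine ((hfin A hA hAI).union (hfin C hC hCI)).subset ?_
      rintro φ ⟨f, hf, h1, h2, h3⟩
      have h4 := h1 _ hAC
      rw [map_mul, mul_eq_zero] at h4
      rcases h4 with h4 | h4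
      · exact Or.inl ⟨f, hf, H6aux_sup h1 h4, h2, h3⟩
      · exact Or.inr ⟨f, hf, H6aux_sup h1 h4, h2, h3⟩

end Pool.Agent.H917
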