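import Pool.Agent.H917.G.H7
import Pool.Agent.H916.Ph

/-!
# PROJECT ALGHYP (helper917): no rational curves in varieties with generating symmetric differentials
-/

set_option autoImplicit false
set_option linter.overlappingInstances false
set_option linter.unusedSectionVars false

open MvPolynomial FF Pool.Agent.W603.LV Pool.Agent.W603.PV
open Pool.Agent.W602.GT (IsForm GeneralType val VarPts)
open Pool.Agent.W619.PQ
open scoped IntermediateField

namespace Pool.Agent.H917

variable {n : ℕ} {p : Ideal (MvPolynomial (Fin (n + 1)) ℂ)}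

/-- the order of the value of a symmetric differential -/
theorem ge_val (hp : Pool.Agent.W603.PV.IsHomog p) {m : ℕ} (s : SymDiff p m) {F : Type} [Field F]
    [Algebra ℂ F] [IsFF ℂ F] {D : Derivation ℂ F F} (hD : D ≠ 0) {x : Fin (n + 1) → F}
    (hx : x ≠ 0) (hX : ∀ H ∈ p, aeval x H = 0) (P : Place ℂ F) :
    Ge P (m * vo P D) (s.val x fun i => D (x i)) := by
  obtain ⟨j, hj, hord⟩ := exists_pord P (Function.ne_iff.1 hx)
  have hreg : ∀ i, Ge P 0 (x i / x j) := by
    intro i
    by_cases hi : x i = 0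
    · exact Or.inl (by rw [hi, zero_div])
    · refine Or.inr ?_
      rw [P.ord_div hi hj]
      have h3 := pord_le P hi
      omega
  have hder : ∀ i, Ge P (-(-vo P D)) (D (x i / x j)) := by
    intro i
    rw [neg_neg]
    exact Pool.Agent.H916.ge_der0 P hD (hreg i)
  have hge : Ge P (-(m * (-vo P D))) (s.val x fun i => D (x i)) := by
    rw [s.val_eq hp (tanVec_der D hx hX) hj, loc_der D x hj]
    exact H4aux.ge_aeval (s.hom j) hreg hder
  rwa [show -((m : ℤ) * (-vo P D)) = m * vo P D by ring] at hge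

/-- points at which all the symmetric differentials vanish are constant -/
theorem const_of_vals (hp : Pool.Agent.W603.PV.IsHomog p) {m N : ℕ} {s : Fin N → SymDiff p m}
    (hs : Gens p m s) {F : Type} [Field F] [Algebra ℂ F] [IsFF ℂ F]
    {D : Derivation ℂ F F} (hD : D ≠ 0) {x : Fin (n + 1) → F} (hx : x ≠ 0)
    (hX : ∀ H ∈ p, aeval x H = 0) (h0 : ∀ l, (s l).val x (fun i => D (x i)) = 0)
    (i : Fin (n + 1)) {j : Fin (n + 1)} (hj : x j ≠ 0) : ∃ c : ℂ, x i / x j = algebraMap ℂ F c := by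
  obtain ⟨b, hb⟩ := hs.genR hp j fun _ => i
  have h1 := hb F x _ (tanVec_der D hx hX) hj
  have h2 : ∀ l, aeval (H917.loc j x fun i => D (x i)) ((s l).pol j) = 0 := by
    intro l
    rw [← (s l).val_eq hp (tanVec_der D hx hX) hj]
    exact h0 l
  simp only [h2, mul_zero, Finset.sum_const_zero] at h1
  rw [loc_der D x hj] at h1
  simp only [Finset.prod_const] at h1
  exact const_of_der hD (eq_zero_of_pow_eq_zero h1)

/-- the height of a constant point -/
theorem pht_const {F : Type} [Field F] [Algebra ℂ F] [IsFF ℂ F] {x : Fin (n + 1) → F}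
    {j : Fin (n + 1)} (hj : x j ≠ 0) (h : ∀ i, ∃ c : ℂ, x i / x j = algebraMap ℂ F c) :
    pht ℂ x ≤ 0 := by
  refine (pht_le x hj).trans (Finset.sum_nonpos fun i _ => ?_)
  obtain ⟨c, hc⟩ := h i
  rw [hc, hgt_algebraic (isAlgebraic_algebraMap c)]

/-- **No rational curves.** -/
theorem no_rat (hp : Pool.Agent.W603.PV.IsHomog p) {m N : ℕ} {s : Fin N → SymDiff p m}
    (hs : Gens p m s) (hm : 1 ≤ m) {F : Type} [Field F] [Algebra ℂ F] [IsFF ℂ F]
    (hF : ∃ t : F, ℂ⟮t⟯ = ⊤) {x : Fin (n + 1) → F} (hx : x ≠ 0) (hX : ∀ H ∈ p, aeval x H = 0) :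
    pht ℂ x ≤ 0 := by
  obtain ⟨t, ht⟩ := hF
  have htt := transcendental_of_top ht
  obtain ⟨D, hD, hDt⟩ := exists_ddx htt
  obtain ⟨P, hP, hP2⟩ := pole_unique ht
  have hvo : ∀ Q : Place ℂ F, 0 ≤ vo Q D := by
    intro Q
    by_cases hQ : 0 ≤ Q.ord t
    · exact (vo_finite_place ht hD hDt Q hQ).1.ge
    · rw [hP2 Q (by omega), vo_infinite_place hD hDt P hP]
      norm_num
  have hv0 : ∀ l, (s l).val x (fun i => D (x i)) = 0 := by
    intro l
    have h1 : ∀ Q, Ge Q 0 ((s l).val x fun i => D (x i)) := fun Q =>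
      (ge_val hp (s l) hD hx hX Q).mono (mul_nonneg (Int.natCast_nonneg _) (hvo Q))
    have h2 := ge_val hp (s l) hD hx hX P
    rw [vo_infinite_place hD hDt P hP] at h2
    have h3 : hgt ℂ ((s l).val x fun i => D (x i)) ≤ 0 := by
      obtain ⟨T, -, -, h4, -⟩ := Pool.Agent.E8helper90.AF.exists_supp' hD hD
        ((s l).val x fun i => D (x i)) 0
      rw [hgt_finset _ T h4]
      refine Finset.sum_nonpos fun Q _ => ?_
      rcases h1 Q with h | h
      · rw [h, Q.ord_zero]
        norm_num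
      · exact max_le (by omega) le_rfl
    obtain ⟨c, hc⟩ := const_of_hgt h3
    rw [hc] at h2 ⊢
    have h5 : c = 0 := const_zero P (h2.mono (by
      have : (1 : ℤ) ≤ m := by exact_mod_cast hm
      linarith))
    rw [h5, map_zero]
  obtain ⟨j, hj⟩ := Function.ne_iff.1 hx
  exact pht_const hj fun i => const_of_vals hp hs hD hx hX hv0 i hj

end Pool.Agent.H917
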