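import Mathlib

/-!
# PROJECT ABCURVES (helper917), task K1: Taylor series of analytic germs

`tay a` is the Taylor series at `0` of `a : ℂ → ℂ`.
-/

set_option autoImplicit false

open Filter Topology

namespace Pool.Agent.H917.G

/-- The Taylor series at `0`. -/
noncomputable def tay (a : ℂ → ℂ) : PowerSeries ℂ :=
  PowerSeries.mk fun n => iteratedDeriv n a 0 / (n.factorial : ℂ)

theorem tay_congr {a b : ℂ → ℂ} (h : a =ᶠ[𝓝 0] b) : tay a = tay b := by
  ext n
  simp only [tay, PowerSeries.coeff_mk]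
  rw [h.iteratedDeriv_eq n]

theorem tay_const (c : ℂ) : tay (fun _ => c) = PowerSeries.C c := by
  ext n
  simp only [tay, PowerSeries.coeff_mk, PowerSeries.coeff_C]
  rw [iteratedDeriv_const]
  split_ifs with h
  · rw [h]; simp
  · simp

theorem tay_id : tay (fun s => s) = PowerSeries.X := by
  ext n
  simp only [tay, PowerSeries.coeff_mk, PowerSeries.coeff_X]
  have h := iteratedDeriv_id (𝕜 := ℂ) (n := n) (x := 0)
  rw [show (fun s : ℂ => s) = id from rfl, h]
  split_ifs with h1 h2 h2
  · omega
  · simp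
  · rw [h2]; simp
  · simp

theorem tay_add {a b : ℂ → ℂ} (ha : AnalyticAt ℂ a 0) (hb : AnalyticAt ℂ b 0) :
    tay (fun s => a s + b s) = tay a + tay b := by
  ext n
  simp only [tay, PowerSeries.coeff_mk, map_add]
  have h := iteratedDeriv_add (n := n) (x := (0 : ℂ)) ha.contDiffAt hb.contDiffAt
  rw [show (fun s => a s + b s) = a + b from rfl, h, add_div]

theorem tay_mul {a b : ℂ → ℂ} (ha : AnalyticAt ℂ a 0) (hb : AnalyticAt ℂ b 0) :
    tay (fun s => a s * b s) = tay a * tay b := by
  ext n
  rw [PowerSeries.coeff_mul]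
  simp only [tay, PowerSeries.coeff_mk]
  have h := iteratedDeriv_mul (n := n) (x := (0 : ℂ)) ha.contDiffAt hb.contDiffAt
  rw [show (fun s => a s * b s) = a * b from rfl, h, Finset.sum_div,
    Finset.Nat.sum_antidiagonal_eq_sum_range_succ_mk]
  refine Finset.sum_congr rfl fun i hi => ?_
  have hi' : i ≤ n := Nat.lt_succ_iff.1 (Finset.mem_range.1 hi)
  have h1 : ((n.choose i : ℕ) : ℂ) * (i.factorial : ℂ) * ((n - i).factorial : ℂ) = (n.factorial : ℂ) := by
    exact_mod_cast Nat.choose_mul_factorial_mul_factorial hi'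
  have h2 : (i.factorial : ℂ) ≠ 0 := by exact_mod_cast i.factorial_ne_zero
  have h3 : ((n - i).factorial : ℂ) ≠ 0 := by exact_mod_cast (n - i).factorial_ne_zero
  have h4 : (n.factorial : ℂ) ≠ 0 := by exact_mod_cast n.factorial_ne_zero
  rw [div_mul_div_comm, div_eq_div_iff h4 (mul_ne_zero h2 h3), ← h1]
  ring

theorem tay_eq_zero {a : ℂ → ℂ} (ha : AnalyticAt ℂ a 0) :
    tay a = 0 ↔ ∀ᶠ s in 𝓝 (0 : ℂ), a s = 0 := by
  have hp := ha.hasFPowerSeriesAt
  rw [hp.locally_zero_iff]
  constructor
  · intro h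
    ext n
    have h1 := congrArg (PowerSeries.coeff n) h
    simp only [tay, PowerSeries.coeff_mk, map_zero] at h1
    simp [FormalMultilinearSeries.ofScalars, h1]
  · intro h
    ext n
    have h1 := congrArg (fun p => FormalMultilinearSeries.coeff p n) h
    simp only [FormalMultilinearSeries.coeff_ofScalars] at h1
    simp only [tay, PowerSeries.coeff_mk, map_zero]
    rw [h1]
    simp [FormalMultilinearSeries.coeff]

theorem tay_constantCoeff (a : ℂ → ℂ) : PowerSeries.constantCoeff (tay a) = a 0 := by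
  rw [← PowerSeries.coeff_zero_eq_constantCoeff_apply]
  simp [tay]

theorem tay_mv {n : ℕ} {a : Fin n → ℂ → ℂ} (ha : ∀ i, AnalyticAt ℂ (a i) 0)
    (H : MvPolynomial (Fin n) ℂ) :
    tay (fun s => MvPolynomial.eval (fun i => a i s) H) =
      MvPolynomial.aeval (fun i => tay (a i)) H := by
  have key : AnalyticAt ℂ (fun s => MvPolynomial.eval (fun i => a i s) H) 0 ∧
      tay (fun s => MvPolynomial.eval (fun i => a i s) H) =
      MvPolynomial.aeval (fun i => tay (a i)) H := by
    induction H using MvPolynomial.induction_on with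
    | C c =>
      simp only [MvPolynomial.eval_C]
      refine ⟨analyticAt_const, ?_⟩
      rw [tay_const, MvPolynomial.aeval_C]
      rfl
    | add p q hp hq =>
      simp only [map_add]
      exact ⟨hp.1.add hq.1, by rw [tay_add hp.1 hq.1, hp.2, hq.2]⟩
    | mul_X p i hp =>
      simp only [map_mul, MvPolynomial.eval_X, MvPolynomial.aeval_X]
      exact ⟨hp.1.mul (ha i), by rw [tay_mul hp.1 (ha i), hp.2]⟩
  exact key.2

end Pool.Agent.H917.G
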