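import Pool.Agent.H917.G.V0

/-!
# PROJECT ABCURVES (helper917), task K12: locally constant holomorphic maps, and the maps `z ↦ f(b + k z)`

## Paper proof
`const_of_local`: let `A` be the set of all `z` such that `f` is proportional to `f b` in a neighbourhood of `z`. It is open and
contains `b`. It is closed: let `z` be in the closure and `h` a local lift of `f` at `z`, holomorphic and proportional
to `f`, on a ball `B(z, r)`. The ball contains a point of `A`, so the functions
`h_i (f b)_j - h_j (f b)_i` vanish on a nonempty open subset of the ball, hence on the ball (identity theorem; on the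
complex line through two points of the ball this is the identity theorem of one variable). So `h` is proportional to `f b` on the ball (both are nonzero
vectors; shrink `r` so that `h ≠ 0`; `PE` requires a nonzero factor), and `z ∈ A`. As `ℂ^g` is
connected, `A = ℂ^g`. (`f b ≠ 0` because it is proportional with nonzero factor to the nonzero vector `h b`.)

`exists_ne`: suppose that for all `i`, `φ_i(b + (k+1) z) = φ_i(b + (l+1) z)` for `z` near `0`, where
`φ_i = f_i/f_j`, and, by symmetry, `k < l`. With `w = (l+1) z` and `q = (k+1)/(l+1) < 1` we get `φ_i(b + w) = φ_i(b + q w)` for all `i`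
and all `w` in a ball `B(0, r)`, and by iteration `φ_i(b + w) = φ_i(b + q^m w)` for all `m`. As `f_j(b) ≠ 0`,
`φ_i` is continuous at `b` (it is equal near `b` to the quotient of coordinates of a local lift of `f`
at `b`; note that `f` itself need not be continuous). So `φ_i(b + w) = φ_i(b)`, for `w` small and all `i`, and `f_j(b + w) ≠ 0` there: `f` is
proportional to `f b` near `b`. By `const_of_local` all `f z` are proportional to `f b`, which contradicts `hne`.
-/

set_option autoImplicit false
set_option linter.overlappingInstances false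
set_option linter.unusedSectionVars false

open Filter Topology Set Metric

namespace Pool.Agent.H917.G

namespace K12aux

variable {g N : ℕ}

theorem ne_zero_of_pe {x y : Fin N → ℂ} (h : PE x y) (hy : y ≠ 0) : x ≠ 0 := by
  obtain ⟨j, hj⟩ := Function.ne_iff.1 hy
  have hj' : y j ≠ 0 := hj
  intro h0
  exact (h.ne_iff j).2 hj' (by rw [h0]; rfl)

theorem hol_ne_zero {f : (Fin g → ℂ) → Fin N → ℂ} (hf : HolMap univ f) (b : Fin g → ℂ) :
    f b ≠ 0 := by
  obtain ⟨h, hb, he⟩ := hf b (mem_univ b)
  exact ne_zero_of_pe he.self_of_nhds.2 hb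

/-- identity theorem on a ball along complex lines -/
theorem ident_ball {F : (Fin g → ℂ) → ℂ} {z a w : Fin g → ℂ} {r : ℝ}
    (hF : ∀ x ∈ ball z r, DifferentiableAt ℂ F x) (ha : a ∈ ball z r) (hw : w ∈ ball z r)
    (h0 : ∀ᶠ x in 𝓝 a, F x = 0) : F w = 0 := by
  have hc : Continuous (fun t : ℂ => a + t • (w - a)) := by fun_prop
  set U : Set ℂ := (fun t : ℂ => a + t • (w - a)) ⁻¹' (ball z r) with hU
  have hUo : IsOpen U := isOpen_ball.preimage hc
  have hUc : Convex ℝ U := by
    intro s hs t ht α β hα hβ hαβ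
    have h1 : a + (α • s + β • t) • (w - a) = α • (a + s • (w - a)) + β • (a + t • (w - a)) := by
      have h2 : a = α • a + β • a := by rw [← add_smul, hαβ, one_smul]
      funext i
      have h3 := congrFun h2 i
      simp only [Pi.add_apply, Pi.smul_apply, Complex.real_smul, smul_eq_mul, Pi.sub_apply] at h3 ⊢
      linear_combination h3
    show a + (α • s + β • t) • (w - a) ∈ ball z r
    rw [h1]
    exact convex_ball z r hs ht hα hβ hαβ
  have hd : DifferentiableOn ℂ (fun t : ℂ => F (a + t • (w - a))) U := by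
    intro t ht
    have h1 : DifferentiableAt ℂ (fun t : ℂ => a + t • (w - a)) t := by fun_prop
    exact (DifferentiableAt.comp t (hF _ ht) h1).differentiableWithinAt
  have han := hd.analyticOnNhd hUo
  have h0U : (0 : ℂ) ∈ U := by
    show a + (0 : ℂ) • (w - a) ∈ ball z r
    rw [zero_smul, add_zero]
    exact ha
  have h1U : (1 : ℂ) ∈ U := by
    show a + (1 : ℂ) • (w - a) ∈ ball z r
    rw [one_smul, add_sub_cancel]
    exact hw
  have hev : (fun t : ℂ => F (a + t • (w - a))) =ᶠ[𝓝 0] (fun _ => (0 : ℂ)) := by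
    have h1 : Tendsto (fun t : ℂ => a + t • (w - a)) (𝓝 0) (𝓝 a) := by
      have := hc.tendsto 0
      simpa using this
    exact h1.eventually h0
  have h2 := han.eqOn_of_preconnected_of_eventuallyEq (fun t _ => analyticAt_const)
    hUc.isPreconnected h0U hev h1U
  have h3 : F (a + (1 : ℂ) • (w - a)) = 0 := h2
  rwa [one_smul, add_sub_cancel] at h3

end K12aux

open K12aux in
theorem const_of_local {g N : ℕ} {f : (Fin g → ℂ) → Fin N → ℂ} (hf : HolMap univ f)
    {b : Fin g → ℂ} (h : ∀ᶠ z in 𝓝 b, PE (f z) (f b)) : ∀ z, PE (f z) (f b) := by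
  have hb := hol_ne_zero hf b
  have hopen : IsOpen {z | ∀ᶠ w in 𝓝 z, PE (f w) (f b)} := by
    rw [isOpen_iff_mem_nhds]
    intro z hz
    exact eventually_eventually_nhds.2 hz
  have hclosed : IsClosed {z | ∀ᶠ w in 𝓝 z, PE (f w) (f b)} := by
    rw [← closure_subset_iff_isClosed]
    intro z hz
    obtain ⟨h, hz0, he⟩ := hf z (mem_univ z)
    have hne : ∀ᶠ w in 𝓝 z, h w ≠ 0 :=
      he.self_of_nhds.1.continuousAt.eventually_ne hz0
    obtain ⟨r, hr, hball⟩ := Metric.eventually_nhds_iff_ball.1 (he.and hne)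
    obtain ⟨a, ha1, ha2⟩ := mem_closure_iff_nhds.1 hz (ball z r) (ball_mem_nhds z hr)
    have ha2' : ∀ᶠ w in 𝓝 a, PE (f w) (f b) := ha2
    have key : ∀ w ∈ ball z r, PE (f w) (f b) := by
      intro w hw
      refine (hball w hw).1.2.trans (pe_of_minor (hball w hw).2 hb fun i j => ?_)
      refine ident_ball (F := fun x => h x i * f b j - h x j * f b i) ?_ ha1 hw ?_
      · intro x hx
        have h1 := (hball x hx).1.1
        have h2 : ∀ k, DifferentiableAt ℂ (fun x => h x k) x := fun k => differentiableAt_pi.1 h1 k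
        exact ((h2 i).mul_const _).sub ((h2 j).mul_const _)
      · filter_upwards [ha2', isOpen_ball.mem_nhds ha1] with x hx1 hx2
        exact PE.minor ((hball x hx2).1.2.symm.trans hx1) i j
    exact Filter.mem_of_superset (ball_mem_nhds z hr) key
  have huniv := IsClopen.eq_univ ⟨hclosed, hopen⟩ ⟨b, h⟩
  intro z
  have hz : z ∈ {z | ∀ᶠ w in 𝓝 z, PE (f w) (f b)} := by
    rw [huniv]
    exact mem_univ z
  have hz' : ∀ᶠ w in 𝓝 z, PE (f w) (f b) := hz
  exact hz'.self_of_nhds

namespace K12aux

variable {g N : ℕ}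

theorem cont_quot {f : (Fin g → ℂ) → Fin N → ℂ} (hf : HolMap univ f) {b : Fin g → ℂ} {j : Fin N}
    (hj : f b j ≠ 0) : (∀ i, ContinuousAt (fun z => f z i / f z j) b) ∧ ∀ᶠ z in 𝓝 b, f z j ≠ 0 := by
  obtain ⟨h, _, he⟩ := hf b (mem_univ b)
  have h1 := he.self_of_nhds
  have h2 : ∀ k, ContinuousAt (fun x => h x k) b := fun k =>
    (differentiableAt_pi.1 h1.1 k).continuousAt
  have h3 : h b j ≠ 0 := (h1.2.ne_iff j).1 hj
  refine ⟨fun i => ?_, ?_⟩
  · refine ((h2 i).div (h2 j) h3).congr ?_
    filter_upwards [he] with z hz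
    exact (hz.2.div_eq j i).symm
  · filter_upwards [he, (h2 j).eventually_ne h3] with z hz hz2
    exact (hz.2.ne_iff j).2 hz2

theorem lt_case {f : (Fin g → ℂ) → Fin N → ℂ} (hf : HolMap univ f)
    (hne : ∃ z w, ¬ PE (f z) (f w)) {b : Fin g → ℂ} {j : Fin N} (hj : f b j ≠ 0) {k l : ℕ}
    (hkl : k < l) (hall : ∀ i, ∀ᶠ z in 𝓝 (0 : Fin g → ℂ),
      f (b + ((k : ℂ) + 1) • z) i / f (b + ((k : ℂ) + 1) • z) j =
        f (b + ((l : ℂ) + 1) • z) i / f (b + ((l : ℂ) + 1) • z) j) : False := by
  obtain ⟨hcont, hnej⟩ := cont_quot hf hj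
  have hl0 : ((l : ℂ) + 1) ≠ 0 := by exact_mod_cast Nat.succ_ne_zero l
  set q : ℂ := ((k : ℂ) + 1) / ((l : ℂ) + 1) with hq
  have hqn : ‖q‖ < 1 := by
    rw [hq, norm_div]
    have e1 : ‖(k : ℂ) + 1‖ = (k : ℝ) + 1 := by
      have := Complex.norm_natCast (k + 1)
      push_cast at this
      exact this
    have e2 : ‖(l : ℂ) + 1‖ = (l : ℝ) + 1 := by
      have := Complex.norm_natCast (l + 1)
      push_cast at this
      exact this
    rw [e1, e2, div_lt_one (by positivity)]
    have : (k : ℝ) < l := by exact_mod_cast hkl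
    linarith
  have hev : ∀ᶠ w in 𝓝 (0 : Fin g → ℂ), ∀ i,
      f (b + q • w) i / f (b + q • w) j = f (b + w) i / f (b + w) j := by
    have h1 : Tendsto (fun w : Fin g → ℂ => ((l : ℂ) + 1)⁻¹ • w) (𝓝 0) (𝓝 0) := by
      have h2 : Continuous (fun w : Fin g → ℂ => ((l : ℂ) + 1)⁻¹ • w) := by fun_prop
      have := h2.tendsto 0
      simpa using this
    have h3 := h1.eventually (eventually_all.2 hall)
    filter_upwards [h3] with w hw i
    have h4 := hw i
    rw [smul_smul, smul_smul, mul_inv_cancel₀ hl0, one_smul, ← div_eq_mul_inv] at h4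
    exact h4
  obtain ⟨r, hr, hball⟩ := Metric.eventually_nhds_iff_ball.1 hev
  have hconst : ∀ w ∈ ball (0 : Fin g → ℂ) r, ∀ i, f (b + w) i / f (b + w) j = f b i / f b j := by
    intro w hw i
    have hin : ∀ m : ℕ, q ^ m • w ∈ ball (0 : Fin g → ℂ) r := by
      intro m
      rw [mem_ball_zero_iff] at hw ⊢
      rw [norm_smul, norm_pow]
      calc ‖q‖ ^ m * ‖w‖ ≤ 1 * ‖w‖ :=
            mul_le_mul_of_nonneg_right (pow_le_one₀ (norm_nonneg _) hqn.le) (norm_nonneg _)
        _ < r := by rw [one_mul]; exact hw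
    have hm : ∀ m : ℕ, f (b + q ^ m • w) i / f (b + q ^ m • w) j = f (b + w) i / f (b + w) j := by
      intro m
      induction m with
      | zero => rw [pow_zero, one_smul]
      | succ m ih =>
        have h5 := hball _ (hin m) i
        rw [smul_smul, ← pow_succ'] at h5
        exact h5.trans ih
    have hlim : Tendsto (fun m : ℕ => b + q ^ m • w) atTop (𝓝 b) := by
      have h6 : Tendsto (fun m : ℕ => q ^ m) atTop (𝓝 0) :=
        tendsto_pow_atTop_nhds_zero_of_norm_lt_one hqn
      have h7 := (h6.smul_const w).const_add b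
      rwa [zero_smul, add_zero] at h7
    have h8 := (hcont i).tendsto.comp hlim
    have h9 : Tendsto (fun m : ℕ => f (b + q ^ m • w) i / f (b + q ^ m • w) j) atTop
        (𝓝 (f (b + w) i / f (b + w) j)) := by
      simp_rw [hm]
      exact tendsto_const_nhds
    exact tendsto_nhds_unique h9 h8
  have hloc : ∀ᶠ z in 𝓝 b, PE (f z) (f b) := by
    filter_upwards [hnej, ball_mem_nhds b hr] with z hz1 hz2
    have h1 : z - b ∈ ball (0 : Fin g → ℂ) r := by
      rw [mem_ball_zero_iff, ← dist_eq_norm]
      exact hz2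
    have h2 := hconst _ h1
    rw [add_sub_cancel] at h2
    have h3 : (fun i => f z i / f z j) = fun i => f b i / f b j := funext h2
    have h4 := pe_div hz1
    rw [h3] at h4
    exact h4.symm.trans (pe_div hj)
  obtain ⟨z, w, hzw⟩ := hne
  have h5 := const_of_local hf hloc
  exact hzw ((h5 z).trans (h5 w).symm)

end K12aux

open K12aux in
theorem exists_ne {g N : ℕ} {f : (Fin g → ℂ) → Fin N → ℂ} (hf : HolMap univ f)
    (hne : ∃ z w, ¬ PE (f z) (f w)) {b : Fin g → ℂ} {j : Fin N} (hj : f b j ≠ 0) {k l : ℕ}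
    (hkl : k ≠ l) : ∃ i, ¬ ∀ᶠ z in 𝓝 (0 : Fin g → ℂ),
      f (b + ((k : ℂ) + 1) • z) i / f (b + ((k : ℂ) + 1) • z) j =
        f (b + ((l : ℂ) + 1) • z) i / f (b + ((l : ℂ) + 1) • z) j := by
  by_contra hcon
  push Not at hcon
  rcases lt_or_gt_of_ne hkl with h | h
  · exact lt_case hf hne hj h hcon
  · refine lt_case hf hne hj h fun i => ?_
    filter_upwards [hcon i] with z hz
    exact hz.symm

end Pool.Agent.H917.G
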