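import Mathlib

/-!
# PROJECT ABCURVES (helper917), task K2: extensions all of whose linear combinations of generators have bounded degree

## Paper proof
All `x i` are algebraic over `K` (take `c = Finsupp.single i 1`). For a finite set `S` of indices let
`K_S = K(x i : i ∈ S)`, a finite extension of `K`.

Claim: `K_S` is generated by one element `∑_{i ∈ S} c_i x_i` with `c_i ∈ ℕ`. By induction on `S` it is enough
to see: for `α, β` algebraic over `K` there is `c ∈ ℕ` with `K(α, β) = K(α + c β)`. This is the proof of the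
primitive element theorem: `c` has to avoid the finitely many values `-(α' - α)/(β' - β)` (roots `α'` and
`β' ≠ β` of the minimal polynomials, in a splitting field), and `K` has characteristic zero, so that `ℕ → K` is
injective and infinitely many natural numbers are available (see `Field.primitive_element_inf_aux` and
`Field.primitive_element_inf_aux_exists_c` in `Mathlib/FieldTheory/PrimitiveElement.lean`, the proof can be
copied, with `c` chosen in the infinite set `Set.range (Nat.cast : ℕ → K)`).

Hence `[K_S : K] ≤ d` for all `S`. Choose `S` with `[K_S : K]` maximal. For every `i`, `K_{S ∪ {i}} ⊇ K_S` has the same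
degree, so `x i ∈ K_S`. So `K(x i : all i) = K_S` is a finite extension.
-/

set_option autoImplicit false

namespace Pool.Agent.H917.G

namespace K2aux

open IntermediateField

/-- two algebraic elements lie in the field generated by `α + c β` for some natural number `c` -/
theorem exists_nat {K L : Type} [Field K] [Field L] [Algebra K L] [CharZero K] (α β : L)
    (hα : IsAlgebraic K α) (hβ : IsAlgebraic K β) :
    ∃ c : ℕ, α ∈ K⟮α + (c : L) * β⟯ ∧ β ∈ K⟮α + (c : L) * β⟯ := by
  have hfd : FiniteDimensional K K⟮α, β⟯ := by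
    apply IntermediateField.finiteDimensional_adjoin
    intro y hy
    rcases hy with rfl | rfl
    · exact hα.isIntegral
    · exact hβ.isIntegral
  have hf : Finite (IntermediateField K K⟮α, β⟯) :=
    (Field.exists_primitive_element_iff_finite_intermediateField K K⟮α, β⟯).1
      ⟨inferInstance, Field.exists_primitive_element K K⟮α, β⟯⟩
  have hαm : α ∈ K⟮α, β⟯ := subset_adjoin K {α, β} (Set.mem_insert α {β})
  have hβm : β ∈ K⟮α, β⟯ := subset_adjoin K {α, β} (Set.mem_insert_of_mem α rfl)
  obtain ⟨a, ha⟩ : ∃ a : K⟮α, β⟯, (a : L) = α := ⟨⟨α, hαm⟩, rfl⟩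
  obtain ⟨b, hb⟩ : ∃ b : K⟮α, β⟯, (b : L) = β := ⟨⟨β, hβm⟩, rfl⟩
  obtain ⟨m, n, hmn, he⟩ := Finite.exists_ne_map_eq_of_infinite
    (fun c : ℕ => (K⟮a + (c : K⟮α, β⟯) * b⟯ : IntermediateField K K⟮α, β⟯))
  have h1 : a + (m : K⟮α, β⟯) * b ∈ K⟮a + (m : K⟮α, β⟯) * b⟯ := mem_adjoin_simple_self K _
  have h2 : a + (n : K⟮α, β⟯) * b ∈ K⟮a + (m : K⟮α, β⟯) * b⟯ := by
    rw [he]; exact mem_adjoin_simple_self K _
  have hne : ((m : K⟮α, β⟯) - (n : K⟮α, β⟯)) ≠ 0 := by
    have : CharZero K⟮α, β⟯ := charZero_of_injective_algebraMap (algebraMap K K⟮α, β⟯).injective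
    exact sub_ne_zero.2 (fun h => hmn (Nat.cast_injective h))
  have hbm : b ∈ K⟮a + (m : K⟮α, β⟯) * b⟯ := by
    have h3 := sub_mem h1 h2
    have h4 : ((m : K⟮α, β⟯) - (n : K⟮α, β⟯)) ∈ K⟮a + (m : K⟮α, β⟯) * b⟯ :=
      sub_mem (_root_.natCast_mem _ m) (_root_.natCast_mem _ n)
    have h5 := div_mem h3 h4
    have e : (a + (m : K⟮α, β⟯) * b - (a + (n : K⟮α, β⟯) * b)) / ((m : K⟮α, β⟯) - (n : K⟮α, β⟯)) = b := by
      rw [div_eq_iff hne]; ring
    rwa [e] at h5
  have ham : a ∈ K⟮a + (m : K⟮α, β⟯) * b⟯ := by
    have h3 := sub_mem h1 (mul_mem (_root_.natCast_mem K⟮a + (m : K⟮α, β⟯) * b⟯ m) hbm)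
    rwa [add_sub_cancel_right] at h3
  have hmap : IntermediateField.map (K⟮α, β⟯).val K⟮a + (m : K⟮α, β⟯) * b⟯ = K⟮α + (m : L) * β⟯ := by
    rw [adjoin_map, Set.image_singleton]
    congr 2
    rw [map_add, map_mul, map_natCast]
    simp only [IntermediateField.coe_val, ha, hb]
  refine ⟨m, ?_, ?_⟩
  · rw [← hmap]
    exact ⟨a, ham, ha⟩
  · rw [← hmap]
    exact ⟨b, hbm, hb⟩

end K2aux

theorem finite_of_comb {K L : Type} [Field K] [Field L] [Algebra K L] [CharZero K] {ι : Type}
    (x : ι → L) (d : ℕ)
    (h : ∀ c : ι →₀ ℕ, ∃ P : Polynomial K, P ≠ 0 ∧ P.natDegree ≤ d ∧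
      Polynomial.aeval (c.sum fun i n => (n : L) * x i) P = 0) :
    FiniteDimensional K (IntermediateField.adjoin K (Set.range x)) := by
  classical
  set g : (ι →₀ ℕ) → L := fun c => c.sum fun i n => (n : L) * x i with hg
  have hadd : ∀ (c : ι →₀ ℕ) (i : ι) (n : ℕ), g (c + Finsupp.single i n) = g c + (n : L) * x i := by
    intro c i n
    simp only [hg]
    rw [Finsupp.sum_add_index']
    · rw [Finsupp.sum_single_index (by simp)]
    · intro j; simp
    · intro j p q; push_cast; ring
  have halg : ∀ c, IsAlgebraic K (g c) := by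
    intro c
    obtain ⟨P, hP, -, h0⟩ := h c
    exact ⟨P, hP, h0⟩
  have halx : ∀ i, IsAlgebraic K (x i) := by
    intro i
    have := halg (Finsupp.single i 1)
    simp only [hg] at this
    rw [Finsupp.sum_single_index (by simp)] at this
    simpa using this
  have hdeg : ∀ c, Module.finrank K (IntermediateField.adjoin K {g c}) ≤ d := by
    intro c
    obtain ⟨P, hP, hPd, h0⟩ := h c
    rw [IntermediateField.adjoin.finrank (halg c).isIntegral]
    exact (Polynomial.natDegree_le_of_dvd (minpoly.dvd K _ h0) hP).trans hPd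
  -- a combination with maximal degree
  obtain ⟨c, hc⟩ : ∃ c, ∀ c', Module.finrank K (IntermediateField.adjoin K {g c'}) ≤
      Module.finrank K (IntermediateField.adjoin K {g c}) := by
    have hbdd : BddAbove (Set.range fun c => Module.finrank K (IntermediateField.adjoin K {g c})) :=
      ⟨d, by rintro _ ⟨c, rfl⟩; exact hdeg c⟩
    obtain ⟨c, hc⟩ := Nat.sSup_mem (Set.range_nonempty _) hbdd
    refine ⟨c, fun c' => ?_⟩
    simp only at hc
    rw [hc]
    exact le_csSup hbdd ⟨c', rfl⟩
  have hfd : ∀ c', FiniteDimensional K (IntermediateField.adjoin K {g c'}) :=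
    fun c' => IntermediateField.adjoin.finiteDimensional (halg c').isIntegral
  have hle : IntermediateField.adjoin K (Set.range x) ≤ IntermediateField.adjoin K {g c} := by
    rw [IntermediateField.adjoin_le_iff]
    rintro _ ⟨i, rfl⟩
    obtain ⟨n, h1, h2⟩ := K2aux.exists_nat (K := K) (g c) (x i) (halg c) (halx i)
    rw [← hadd] at h1 h2
    have hle' : IntermediateField.adjoin K {g c} ≤ IntermediateField.adjoin K {g (c + Finsupp.single i n)} := by
      rw [IntermediateField.adjoin_le_iff]
      rintro _ rfl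
      exact h1
    have := hfd (c + Finsupp.single i n)
    have heq : IntermediateField.adjoin K {g c} = IntermediateField.adjoin K {g (c + Finsupp.single i n)} :=
      IntermediateField.eq_of_le_of_finrank_le hle' (hc _)
    rw [heq]
    exact h2
  have := hfd c
  exact FiniteDimensional.of_injective (IntermediateField.inclusion hle).toLinearMap
    (IntermediateField.inclusion hle).injective

end Pool.Agent.H917.G
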