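import Mathlib
import Pool.Graph.R_seed8.Helper386.D5V.Helper386_FF_Div

/-!
# PROJECT ABCURVES (helper917), task K3: function fields of one variable

`IsFF k K` (library, `Helper386_FF_Div`): `Algebra.EssFiniteType k K` and `Algebra.trdeg k K = 1`.

## Paper proof
`F = ℂ(t, S)` is (the restriction of scalars of) the finite extension `ℂ(t)(S)` of `ℂ(t)`
(`IntermediateField.adjoin_adjoin_left`, or directly). Finite extensions of the finitely generated field `ℂ(t)` are
finitely generated as fields (essentially of finite type; look for lemmas on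
`Algebra.EssFiniteType` and `IntermediateField.FG`, or choose a finite set of generators of `F`), and the
transcendence degree of `F` is that of `ℂ(t)`, which is `1` (algebraic extensions do not change
`Algebra.trdeg`).
-/

set_option autoImplicit false

open FF

namespace Pool.Agent.H917.G

namespace K3aux

theorem isFF_simple {L : Type} [Field L] [Algebra ℂ L] {t : L} (ht : Transcendental ℂ t) :
    IsFF ℂ (IntermediateField.adjoin ℂ {t}) := by
  have h1 : Transcendental ℂ (IntermediateField.AdjoinSimple.gen ℂ t) := by
    intro h
    exact ht (by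
      have h2 := h.algebraMap (A := L)
      simpa using h2)
  have h2 : IntermediateField.adjoin ℂ {IntermediateField.AdjoinSimple.gen ℂ t} = ⊤ := by
    apply IntermediateField.lift_injective
    rw [IntermediateField.lift_adjoin_simple, IntermediateField.lift_top]
    rfl
  refine IsFF.of_finite h1 ?_
  rw [h2]
  exact Module.Finite.of_surjective (Algebra.linearMap (⊤ : IntermediateField ℂ
    (IntermediateField.adjoin ℂ {t})) (IntermediateField.adjoin ℂ {t}))
    (fun x => ⟨⟨x, IntermediateField.mem_top⟩, rfl⟩)

theorem isFF_of_finite {K E : Type} [Field K] [Field E] [Algebra ℂ K] [Algebra K E] [Algebra ℂ E]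
    [IsScalarTower ℂ K E] (h : IsFF ℂ K) (hfin : FiniteDimensional K E) : IsFF ℂ E := by
  have h1 := h.ess
  refine ⟨Algebra.EssFiniteType.comp ℂ K E, ?_⟩
  have h2 : Algebra.trdeg K E = 0 := trdeg_eq_zero_iff.2 inferInstance
  have h3 := _root_.trdeg_add_eq ℂ K (A := E)
  rw [h.trdeg, h2, add_zero] at h3
  exact h3.symm

end K3aux

theorem isFF_adjoin {L : Type} [Field L] [Algebra ℂ L] {t : L} (ht : Transcendental ℂ t)
    (S : Set L) (hfin : FiniteDimensional (IntermediateField.adjoin ℂ {t})
      (IntermediateField.adjoin (IntermediateField.adjoin ℂ {t}) S)) :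
    IsFF ℂ (IntermediateField.adjoin ℂ (insert t S)) := by
  have h1 : IsFF ℂ (IntermediateField.adjoin (IntermediateField.adjoin ℂ {t}) S) :=
    K3aux.isFF_of_finite (K3aux.isFF_simple ht) hfin
  have h2 : IntermediateField.adjoin ℂ (insert t S) =
      (IntermediateField.adjoin (IntermediateField.adjoin ℂ {t}) S).restrictScalars ℂ := by
    rw [IntermediateField.adjoin_adjoin_left]
    rfl
  rw [h2]
  exact h1

end Pool.Agent.H917.G
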