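import Mathlib
import Pool.Graph.R_seed8.Helper386.D5V.Helper386_FF_Place

/-!
# PROJECT ABCURVES (helper917), task K4: the place of a field of Laurent series

`Place k K` (library, `Helper386_FF_Place`): a normalized discrete valuation `ord` of `K`, trivial on `k`, with
`ord 0 = 0`. The order of Laurent series (`HahnSeries.order`) has all the properties
(`HahnSeries.order_mul`, `HahnSeries.min_order_le_order_add`, `HahnSeries.order_zero`; constants have order `0`;
the variable has order `1`).
-/

set_option autoImplicit false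

open FF

namespace Pool.Agent.H917.G

namespace K4aux

theorem order_X :
    (HahnSeries.ofPowerSeries ℤ ℂ PowerSeries.X : LaurentSeries ℂ).order = 1 := by
  rw [HahnSeries.ofPowerSeries_X, HahnSeries.order_single one_ne_zero]

theorem order_const (c : ℂ) : (algebraMap ℂ (LaurentSeries ℂ) c).order = 0 := by
  have h : algebraMap ℂ (LaurentSeries ℂ) c = HahnSeries.C c :=
    (HahnSeries.algebraMap_apply' (Γ := ℤ) (R := ℂ) c).trans
      (HahnSeries.ofPowerSeries_C (Γ := ℤ) (R := ℂ) c)
  rw [h, HahnSeries.order_C]

theorem X_ne_zero : (HahnSeries.ofPowerSeries ℤ ℂ PowerSeries.X : LaurentSeries ℂ) ≠ 0 := by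
  intro h
  have h1 := order_X
  rw [h, HahnSeries.order_zero] at h1
  exact zero_ne_one h1

end K4aux

open K4aux

theorem exists_place (F : IntermediateField ℂ (LaurentSeries ℂ))
    (hX : (HahnSeries.ofPowerSeries ℤ ℂ PowerSeries.X : LaurentSeries ℂ) ∈ F) :
    ∃ c : Place ℂ F, ∀ z : F, c.ord z = (z : LaurentSeries ℂ).order := by
  refine ⟨{ ord := fun z => (z : LaurentSeries ℂ).order
            ord_zero := ?_
            ord_mul := ?_
            ord_add := ?_
            ord_const := ?_
            surj := ?_ }, fun z => rfl⟩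
  · exact HahnSeries.order_zero
  · intro f g hf hg
    have hf' : (f : LaurentSeries ℂ) ≠ 0 := fun h => hf (Subtype.ext h)
    have hg' : (g : LaurentSeries ℂ) ≠ 0 := fun h => hg (Subtype.ext h)
    exact HahnSeries.order_mul hf' hg'
  · intro f g hf hg hfg
    have h : (f : LaurentSeries ℂ) + (g : LaurentSeries ℂ) ≠ 0 := fun h => hfg (Subtype.ext h)
    exact HahnSeries.min_order_le_order_add h
  · intro c _
    exact order_const c
  · refine ⟨⟨_, hX⟩, ?_, order_X⟩
    intro h
    exact X_ne_zero (congrArg Subtype.val h)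

theorem order_pos {φ : PowerSeries ℂ} (h : PowerSeries.constantCoeff φ = 0) (h0 : φ ≠ 0) :
    0 < (HahnSeries.ofPowerSeries ℤ ℂ φ : LaurentSeries ℂ).order := by
  by_contra hcon
  have hne : (HahnSeries.ofPowerSeries ℤ ℂ φ : LaurentSeries ℂ) ≠ 0 := by
    intro h1
    exact h0 (HahnSeries.ofPowerSeries_injective (h1.trans (map_zero _).symm))
  have h2 := HahnSeries.coeff_order_eq_zero.not.2 hne
  have h3 := PowerSeries.coeff_coe φ
    (i := (HahnSeries.ofPowerSeries ℤ ℂ φ : LaurentSeries ℂ).order)
  apply h2
  refine h3.trans ?_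
  split_ifs with h4
  · rfl
  · have h5 : (HahnSeries.ofPowerSeries ℤ ℂ φ : LaurentSeries ℂ).order = 0 := by omega
    rw [h5, Int.natAbs_zero, PowerSeries.coeff_zero_eq_constantCoeff_apply, h]

theorem transcendental_X :
    Transcendental ℂ (HahnSeries.ofPowerSeries ℤ ℂ PowerSeries.X : LaurentSeries ℂ) := by
  intro h
  have hi := h.isIntegral
  have hd := IsAlgClosed.degree_eq_one_of_irreducible ℂ (minpoly.irreducible hi)
  obtain ⟨c, hc⟩ := minpoly.mem_range_of_degree_eq_one ℂ _ hd
  have h1 := order_X
  rw [← hc, order_const] at h1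
  exact zero_ne_one h1

end Pool.Agent.H917.G
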