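import Pool.Agent.H917.G.K1
import Pool.Agent.H917.G.K2
import Pool.Agent.H917.G.K3
import Pool.Agent.H917.G.K4

/-!
# PROJECT ABCURVES (helper917), task K5: the function field generated by algebraic germs of bounded degree

`K1`-`K4` are proved in the other files. (K5 proved by helper591.)

## Paper proof
`L = LaurentSeries ℂ`, `x' i = HahnSeries.ofPowerSeries ℤ ℂ (tay (a i)) ∈ L`, `t = ofPowerSeries X = ofPowerSeries (tay (fun s => s))`,
transcendental over `ℂ` (K4). `K = ℂ(t) ⊆ L` (`IntermediateField.adjoin ℂ {t}`). For `c : ι →₀ ℕ` the hypothesis gives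
`P ≠ 0` in `ℂ[s][T]`; apply `tay` to the relation `P(s, ∑ c_i a_i(s)) = 0` (K1: `tay` is compatible with sums, products,
constants and the variable; the cleanest way may be to write the relation as
`∑_{j ≤ d} ∑_l coeff · s^l · (∑ c_i a_i(s))^j = 0` and to use `tay_mv` for the two functions `s` and
`∑ c_i a_i(s)`): `P(t, ∑ c_i x'_i) = 0` in `L`. The polynomial `P(t, T)` over `K` (`P.map` of the ring
homomorphism `ℂ[s] → K`, `s ↦ t`, which is injective as `t` is transcendental) is nonzero, of degree
`≤ d`. So K2 (`finite_of_comb`) gives that `K(range x')` is finite over `K`, and K3 that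
`F = IntermediateField.adjoin ℂ (insert t (range x'))` is a function field; K4 (`exists_place`) gives the place, as `t ∈ F`.
Put `x i = x' i ∈ F`. For the polynomial relations: `aeval (x ∘ idx) H = 0` in `F` iff in `L` iff
`aeval (tay ∘ a ∘ idx) H = 0` in the power series (`ofPowerSeries` is an injective ring homomorphism) iff
`tay (eval (a ∘ idx) H) = 0` (K1 `tay_mv`) iff `eval (a ∘ idx) H` is zero near `0` (K1 `tay_eq_zero`).
The last statement: `x i - a i 0` is the image of the power series `tay (a i) - C (a i 0)`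
with constant coefficient zero; if it is not zero its order is positive (K4 `order_pos`).
-/

set_option autoImplicit false

open FF Filter Topology

namespace Pool.Agent.H917.G

namespace K5aux

/-- the embedding of the power series in the Laurent series -/
noncomputable def ps : PowerSeries ℂ →ₐ[ℂ] LaurentSeries ℂ :=
  { HahnSeries.ofPowerSeries ℤ ℂ with commutes' := fun _ => rfl }

theorem ps_apply (φ : PowerSeries ℂ) : ps φ = HahnSeries.ofPowerSeries ℤ ℂ φ := rfl

theorem ps_inj : Function.Injective ps := HahnSeries.ofPowerSeries_injective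

theorem an_sum {ι : Type} (a : ι → ℂ → ℂ) (ha : ∀ i, AnalyticAt ℂ (a i) 0) (w : ι → ℂ) (S : Finset ι) :
    AnalyticAt ℂ (fun s => ∑ i ∈ S, w i * a i s) 0 :=
  Finset.analyticAt_fun_sum S fun i _ => analyticAt_const.mul (ha i)

theorem tay_sum {ι : Type} (a : ι → ℂ → ℂ) (ha : ∀ i, AnalyticAt ℂ (a i) 0) (w : ι → ℂ) (S : Finset ι) :
    tay (fun s => ∑ i ∈ S, w i * a i s) = ∑ i ∈ S, PowerSeries.C (w i) * tay (a i) := by
  classical
  induction S using Finset.induction_on with
  | empty =>
    simp only [Finset.sum_empty]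
    rw [tay_const, map_zero]
  | insert i S hi ih =>
    have h1 : (fun s => ∑ j ∈ insert i S, w j * a j s) = fun s => (w i * a i s) + ∑ j ∈ S, w j * a j s := by
      funext s
      rw [Finset.sum_insert hi]
    rw [h1, Finset.sum_insert hi, tay_add (a := fun s => w i * a i s) (analyticAt_const.mul (ha i)) (an_sum a ha w S), ih,
      tay_mul (a := fun _ => w i) analyticAt_const (ha i), tay_const]

/-- the polynomial in two variables -/
noncomputable def two (P : Polynomial (Polynomial ℂ)) : MvPolynomial (Fin 2) ℂ :=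
  P.eval₂ (Polynomial.eval₂RingHom MvPolynomial.C (MvPolynomial.X 0)) (MvPolynomial.X 1)

theorem two_eval (P : Polynomial (Polynomial ℂ)) (v : Fin 2 → ℂ) :
    MvPolynomial.eval v (two P) = (P.map (Polynomial.evalRingHom (v 0))).eval (v 1) := by
  unfold two
  rw [Polynomial.hom_eval₂, Polynomial.eval_map, MvPolynomial.eval_X]
  congr 1
  apply Polynomial.ringHom_ext
  · intro z
    simp
  · simp

theorem two_aeval {A : Type} [CommRing A] [Algebra ℂ A] (P : Polynomial (Polynomial ℂ)) (v : Fin 2 → A) :
    MvPolynomial.aeval v (two P) = P.eval₂ (Polynomial.aeval (R := ℂ) (v 0)).toRingHom (v 1) := by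
  unfold two
  rw [← AlgHom.coe_toRingHom, Polynomial.hom_eval₂, AlgHom.coe_toRingHom, MvPolynomial.aeval_X]
  congr 1
  apply Polynomial.ringHom_ext
  · intro z
    simp
  · simp

/-- the relation for the Taylor series -/
theorem rel {b : ℂ → ℂ} (hb : AnalyticAt ℂ b 0) (P : Polynomial (Polynomial ℂ))
    (h : ∀ᶠ s in 𝓝 (0 : ℂ), (P.map (Polynomial.evalRingHom s)).eval (b s) = 0) :
    P.eval₂ (Polynomial.aeval (R := ℂ) (PowerSeries.X : PowerSeries ℂ)).toRingHom (tay b) = 0 := by
  have h1 := tay_mv (a := ![fun s => s, b]) (fun i => by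
    fin_cases i
    · exact analyticAt_id
    · exact hb) (two P)
  rw [two_aeval] at h1
  have h2 : tay (fun s => MvPolynomial.eval (fun i => (![fun s => s, b] : Fin 2 → ℂ → ℂ) i s) (two P)) = 0 := by
    have h3 : (fun s => MvPolynomial.eval (fun i => (![fun s => s, b] : Fin 2 → ℂ → ℂ) i s) (two P)) =ᶠ[𝓝 0]
        fun _ => 0 := by
      filter_upwards [h] with s hs
      rw [two_eval]
      exact hs
    rw [tay_congr h3, tay_const, map_zero]
  rw [h2] at h1
  have h4 : tay ((![fun s => s, b] : Fin 2 → ℂ → ℂ) 0) = PowerSeries.X := tay_id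
  rw [h4] at h1
  exact h1.symm

/-- the variable -/
noncomputable def tt : LaurentSeries ℂ := HahnSeries.ofPowerSeries ℤ ℂ PowerSeries.X

theorem comb {ι : Type} (a : ι → ℂ → ℂ) (ha : ∀ i, AnalyticAt ℂ (a i) 0) (d : ℕ)
    (h : ∀ c : ι →₀ ℕ, ∃ P : Polynomial (Polynomial ℂ), P ≠ 0 ∧ P.natDegree ≤ d ∧
      ∀ᶠ s in 𝓝 (0 : ℂ),
        (P.map (Polynomial.evalRingHom s)).eval (c.sum fun i n => (n : ℂ) * a i s) = 0) (c : ι →₀ ℕ) :
    ∃ P : Polynomial (IntermediateField.adjoin ℂ {tt}), P ≠ 0 ∧ P.natDegree ≤ d ∧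
      Polynomial.aeval (c.sum fun i n => (n : LaurentSeries ℂ) * ps (tay (a i))) P = 0 := by
  obtain ⟨P, hP0, hPd, hP⟩ := h c
  set K := IntermediateField.adjoin ℂ {tt} with hK
  have htK : tt ∈ K := IntermediateField.mem_adjoin_simple_self ℂ tt
  set ρ : Polynomial ℂ →ₐ[ℂ] K := Polynomial.aeval (R := ℂ) (⟨tt, htK⟩ : K) with hρ
  have hρL : ∀ q : Polynomial ℂ, (ρ q : LaurentSeries ℂ) = Polynomial.aeval (R := ℂ) tt q := by
    intro q
    have h1 := Polynomial.aeval_algHom_apply K.val (⟨tt, htK⟩ : K) q
    exact h1.symm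
  have hinj : Function.Injective ρ.toRingHom := by
    intro p q hpq
    have h1 : ρ p = ρ q := hpq
    have h2 : Polynomial.aeval (R := ℂ) tt p = Polynomial.aeval (R := ℂ) tt q := by
      rw [← hρL, ← hρL, h1]
    exact (transcendental_iff_injective.1 transcendental_X) h2
  refine ⟨P.map ρ.toRingHom, ?_, (Polynomial.natDegree_map_le).trans hPd, ?_⟩
  · intro h0
    exact hP0 ((Polynomial.map_eq_zero_iff hinj).1 h0)
  · have hb : AnalyticAt ℂ (fun s => c.sum fun i n => (n : ℂ) * a i s) 0 := an_sum a ha (fun i => (c i : ℂ)) c.support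
    have h1 := rel hb P hP
    have h2 : tay (fun s => c.sum fun i n => (n : ℂ) * a i s) = c.sum fun i n => (n : PowerSeries ℂ) * tay (a i) := by
      have h3 := tay_sum a ha (fun i => (c i : ℂ)) c.support
      refine Eq.trans h3 ?_
      unfold Finsupp.sum
      refine Finset.sum_congr rfl fun i _ => ?_
      rw [map_natCast]
    rw [h2] at h1
    have h4 := congrArg ps.toRingHom h1
    rw [Polynomial.hom_eval₂, map_zero] at h4
    have h5 : ps.toRingHom (c.sum fun i n => (n : PowerSeries ℂ) * tay (a i)) =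
        c.sum fun i n => (n : LaurentSeries ℂ) * ps (tay (a i)) := by
      unfold Finsupp.sum
      rw [map_sum]
      refine Finset.sum_congr rfl fun i _ => ?_
      rw [map_mul, map_natCast]
      rfl
    rw [h5] at h4
    rw [Polynomial.aeval_def, Polynomial.eval₂_map]
    have h6 : (algebraMap K (LaurentSeries ℂ)).comp ρ.toRingHom =
        ps.toRingHom.comp (Polynomial.aeval (R := ℂ) (PowerSeries.X : PowerSeries ℂ)).toRingHom := by
      ext q
      · have e1 : ((algebraMap K (LaurentSeries ℂ)).comp ρ.toRingHom) (Polynomial.C q) =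
            algebraMap ℂ (LaurentSeries ℂ) q := by
          have : ((algebraMap K (LaurentSeries ℂ)).comp ρ.toRingHom) (Polynomial.C q) =
            Polynomial.aeval (R := ℂ) tt (Polynomial.C q) := hρL _
          rw [this, Polynomial.aeval_C]
        have e2 : (ps.toRingHom.comp (Polynomial.aeval (R := ℂ) (PowerSeries.X : PowerSeries ℂ)).toRingHom) (Polynomial.C q) =
            algebraMap ℂ (LaurentSeries ℂ) q := by
          have : (ps.toRingHom.comp (Polynomial.aeval (R := ℂ) (PowerSeries.X : PowerSeries ℂ)).toRingHom) (Polynomial.C q) =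
            ps (Polynomial.aeval (R := ℂ) (PowerSeries.X : PowerSeries ℂ) (Polynomial.C q)) := rfl
          rw [this, Polynomial.aeval_C]
          exact ps.commutes q
        have e3 := e1.trans e2.symm
        exact congrArg (fun z : LaurentSeries ℂ => z.coeff _) e3
      · have e1 : ((algebraMap K (LaurentSeries ℂ)).comp ρ.toRingHom) Polynomial.X = tt := by
          have : ((algebraMap K (LaurentSeries ℂ)).comp ρ.toRingHom) Polynomial.X =
            Polynomial.aeval (R := ℂ) tt Polynomial.X := hρL _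
          rw [this, Polynomial.aeval_X]
        have e2 : (ps.toRingHom.comp (Polynomial.aeval (R := ℂ) (PowerSeries.X : PowerSeries ℂ)).toRingHom) Polynomial.X = tt := by
          have : (ps.toRingHom.comp (Polynomial.aeval (R := ℂ) (PowerSeries.X : PowerSeries ℂ)).toRingHom) Polynomial.X =
            ps (Polynomial.aeval (R := ℂ) (PowerSeries.X : PowerSeries ℂ) Polynomial.X) := rfl
          rw [this, Polynomial.aeval_X]
          rfl
        have e3 := e1.trans e2.symm
        exact congrArg (fun z : LaurentSeries ℂ => z.coeff _) e3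
    rw [h6]
    exact h4

end K5aux

open K5aux in
theorem exists_ff (ι : Type) (a : ι → ℂ → ℂ) (ha : ∀ i, AnalyticAt ℂ (a i) 0) (d : ℕ)
    (h : ∀ c : ι →₀ ℕ, ∃ P : Polynomial (Polynomial ℂ), P ≠ 0 ∧ P.natDegree ≤ d ∧
      ∀ᶠ s in 𝓝 (0 : ℂ),
        (P.map (Polynomial.evalRingHom s)).eval (c.sum fun i n => (n : ℂ) * a i s) = 0) :
    ∃ (F : Type) (_ : Field F) (_ : Algebra ℂ F) (_ : IsFF ℂ F) (c : Place ℂ F) (x : ι → F),
      (∀ (n : ℕ) (idx : Fin n → ι) (H : MvPolynomial (Fin n) ℂ),
        MvPolynomial.aeval (fun j => x (idx j)) H = 0 ↔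
          ∀ᶠ s in 𝓝 (0 : ℂ), MvPolynomial.eval (fun j => a (idx j) s) H = 0) ∧
      ∀ i, x i = algebraMap ℂ F (a i 0) ∨ 0 < c.ord (x i - algebraMap ℂ F (a i 0)) := by
  have hfin := finite_of_comb (K := IntermediateField.adjoin ℂ {tt}) (L := LaurentSeries ℂ)
    (fun i => ps (tay (a i))) d (comb a ha d h)
  have hff := isFF_adjoin (L := LaurentSeries ℂ) (t := tt) transcendental_X
    (Set.range fun i => ps (tay (a i))) hfin
  set F := IntermediateField.adjoin ℂ (insert tt (Set.range fun i => ps (tay (a i)))) with hF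
  have htF : tt ∈ F := IntermediateField.subset_adjoin ℂ _ (Set.mem_insert _ _)
  have hxF : ∀ i, ps (tay (a i)) ∈ F := fun i =>
    IntermediateField.subset_adjoin ℂ _ (Set.mem_insert_of_mem _ ⟨i, rfl⟩)
  obtain ⟨c, hc⟩ := exists_place F htF
  refine ⟨F, inferInstance, inferInstance, hff, c, fun i => ⟨ps (tay (a i)), hxF i⟩, ?_, ?_⟩
  · intro n idx H
    have h1 : (F.val (MvPolynomial.aeval (fun j => (⟨ps (tay (a (idx j))), hxF (idx j)⟩ : F)) H)) =
        ps (MvPolynomial.aeval (fun j => tay (a (idx j))) H) := by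
      rw [MvPolynomial.comp_aeval_apply, MvPolynomial.comp_aeval_apply]
      rfl
    have han : AnalyticAt ℂ (fun s => MvPolynomial.eval (fun j => a (idx j) s) H) 0 := by
      have h2 := AnalyticAt.aeval_mvPolynomial (𝕜 := ℂ) (f := fun s j => a (idx j) s) (z := (0 : ℂ))
        (fun j => ha (idx j)) H
      simpa [MvPolynomial.coe_aeval_eq_eval] using h2
    have h3 := tay_eq_zero han
    have h4 := tay_mv (a := fun j => a (idx j)) (fun j => ha (idx j)) H
    rw [h4] at h3
    rw [← h3]
    constructor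
    · intro h5
      have h6 : F.val (MvPolynomial.aeval (fun j => (⟨ps (tay (a (idx j))), hxF (idx j)⟩ : F)) H) = 0 := by
        rw [h5, map_zero]
      rw [h1] at h6
      exact ps_inj (h6.trans (map_zero ps).symm)
    · intro h5
      have h6 : F.val (MvPolynomial.aeval (fun j => (⟨ps (tay (a (idx j))), hxF (idx j)⟩ : F)) H) = F.val 0 := by
        rw [h1, h5, map_zero, map_zero]
      exact F.val.injective h6
  · intro i
    by_cases h0 : tay (a i) - PowerSeries.C (a i 0) = 0
    · left
      have h1 : tay (a i) = PowerSeries.C (a i 0) := sub_eq_zero.1 h0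
      have h2 : F.val (⟨ps (tay (a i)), hxF i⟩ : F) = F.val (algebraMap ℂ F (a i 0)) := by
        have h3 : F.val (⟨ps (tay (a i)), hxF i⟩ : F) = ps (tay (a i)) := rfl
        rw [h3, h1, AlgHom.commutes]
        exact ps.commutes (a i 0)
      exact F.val.injective h2
    · right
      rw [hc]
      have h2 : (((⟨ps (tay (a i)), hxF i⟩ : F) - algebraMap ℂ F (a i 0) : F) : LaurentSeries ℂ) =
          HahnSeries.ofPowerSeries ℤ ℂ (tay (a i) - PowerSeries.C (a i 0)) := by
        rw [map_sub]
        rfl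
      rw [h2]
      apply order_pos _ h0
      rw [map_sub, tay_constantCoeff]
      simp

end Pool.Agent.H917.G
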