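import Pool.Agent.H917.G.K6d

/-!
# PROJECT ABCURVES (helper917), task K7: linear combinations of the coordinates of `f(b + k z)`

`K6d` is a stub (with sorry) proved by others; use it freely.

## Paper proof
`d` is the number of K6d (`siegel`). Given `f, b, j, c`: let `r` be such that all `(k, i)` in the support of `c` have `k < r`. Let
`F(z)` be the Segre product of the vectors `f(b + (k+1) z)`, `k < r`: its coordinates are indexed by the functions
`s : Fin r → Fin N`, and `F(z)_s = ∏_k f(b + (k+1) z)_{s k}` (use an equivalence `(Fin r → Fin N) ≃ Fin N'`, such as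
`Fintype.equivFin`). `F` is `HolMap univ`: the products of local lifts of `f` at the points `b + (k+1) z0`
are differentiable, proportional to `F`, and nonzero at `z0` (a product of nonzero coordinates). `F` is periodic up to
proportionality: `b + (k+1)(z + l) = (b + (k+1) z) + (k+1) l` and `(k+1) l ∈ Λ`. Let `ℓ0` be the coordinate with
index the constant function `j`, and `ℓ = ∑_{(k, i) ∈ supp c} c(k,i) e_{s(k,i)}`, where `s(k,i)` is the constant function `j` changed to `i`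
at `k`. If all `f(b + (k+1) z)_j ≠ 0`, `k < r`, then `lf ℓ0 (F z) ≠ 0` and
`lf ℓ (F z) / lf ℓ0 (F z) = ∑ c(k,i) f(b + (k+1) z)_i / f(b + (k+1) z)_j =: h`. Divide the relation of K6d by
`lf L0 (θ z)^{g m} · lf ℓ0 (F z)^d`: `∑_i c_i (∏_a u_a^{i.1 a}) h^{i.2} = 0` (`∑ i.1 a ≤ g m` and `i.2 ≤ d`). So
`P = ∑_i C(c_i ∏ X_a^{i.1 a}) T^{i.2}`, which is not zero because the monomials are different and some `c_i ≠ 0`.
-/

set_option autoImplicit false
set_option linter.overlappingInstances false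
set_option linter.unusedSectionVars false

open Filter Topology Set Metric

namespace Pool.Agent.H917.K7aux

open Pool.Agent.H917.G

/-- the linear form of a single coordinate -/
theorem lf_single {n : ℕ} (q : Fin n) (x : Fin n → ℂ) : lf (Pi.single q 1) x = x q := by
  unfold lf
  rw [Finset.sum_eq_single q]
  · rw [Pi.single_eq_same, one_mul]
  · intro i _ hi
    rw [Pi.single_eq_of_ne hi, zero_mul]
  · intro h
    exact absurd (Finset.mem_univ q) h

theorem lf_sum {n : ℕ} {α : Type} (S : Finset α) (t : α → ℂ) (q : α → Fin n) (x : Fin n → ℂ) :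
    lf (fun i => ∑ p ∈ S, t p * (Pi.single (q p) (1:ℂ) : Fin n → ℂ) i) x =
      ∑ p ∈ S, t p * x (q p) := by
  unfold lf
  simp only [Finset.sum_mul]
  rw [Finset.sum_comm]
  refine Finset.sum_congr rfl fun p _ => ?_
  have h := lf_single (q p) x
  unfold lf at h
  rw [← h, Finset.mul_sum]
  refine Finset.sum_congr rfl fun i _ => ?_
  rw [mul_assoc]

/-- the exponent of a function with values in `Fin m` -/
noncomputable def ex {g m : ℕ} (i : Fin g → Fin m) : Fin g →₀ ℕ :=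
  Finsupp.equivFunOnFinite.symm fun a => (i a : ℕ)

theorem ex_inj {g m : ℕ} {i i' : Fin g → Fin m} (h : ex i = ex i') : i = i' := by
  funext a
  have h1 : (ex i) a = (ex i') a := by rw [h]
  exact Fin.ext h1

/-- the polynomial -/
noncomputable def PP {g m d : ℕ} (c : (Fin g → Fin m) × Fin (d + 1) → ℂ) :
    Polynomial (MvPolynomial (Fin g) ℂ) :=
  ∑ i, Polynomial.monomial (i.2 : ℕ) (MvPolynomial.monomial (ex i.1) (c i))

theorem PP_coeff {g m d : ℕ} (c : (Fin g → Fin m) × Fin (d + 1) → ℂ)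
    (i : (Fin g → Fin m) × Fin (d + 1)) :
    MvPolynomial.coeff (ex i.1) ((PP c).coeff (i.2 : ℕ)) = c i := by
  classical
  unfold PP
  rw [Polynomial.finsetSum_coeff, MvPolynomial.coeff_sum, Finset.sum_eq_single i]
  · rw [Polynomial.coeff_monomial, if_pos rfl, MvPolynomial.coeff_monomial, if_pos rfl]
  · intro i' _ hi'
    rw [Polynomial.coeff_monomial]
    by_cases h : (i'.2 : ℕ) = (i.2 : ℕ)
    · rw [if_pos h, MvPolynomial.coeff_monomial]
      rw [if_neg]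
      intro h2
      exact hi' (Prod.ext (ex_inj h2) (Fin.ext h))
    · rw [if_neg h, MvPolynomial.coeff_zero]
  · intro h
    exact absurd (Finset.mem_univ i) h

theorem PP_ne {g m d : ℕ} {c : (Fin g → Fin m) × Fin (d + 1) → ℂ} (hc : c ≠ 0) : PP c ≠ 0 := by
  obtain ⟨i, hi⟩ := Function.ne_iff.1 hc
  intro h
  apply hi
  have h1 := PP_coeff c i
  rw [h, Polynomial.coeff_zero, MvPolynomial.coeff_zero] at h1
  exact h1.symm

theorem PP_deg {g m d : ℕ} (c : (Fin g → Fin m) × Fin (d + 1) → ℂ) : (PP c).natDegree ≤ d := by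
  unfold PP
  refine Polynomial.natDegree_sum_le_of_forall_le _ _ fun i _ => ?_
  exact (Polynomial.natDegree_monomial_le _).trans (Nat.lt_succ_iff.1 i.2.2)

theorem PP_eval {g m d : ℕ} (c : (Fin g → Fin m) × Fin (d + 1) → ℂ) (u : Fin g → ℂ) (h : ℂ) :
    ((PP c).map (MvPolynomial.eval u)).eval h =
      ∑ i, c i * (∏ a, u a ^ (i.1 a : ℕ)) * h ^ (i.2 : ℕ) := by
  unfold PP
  rw [Polynomial.map_sum, Polynomial.eval_finsetSum]
  refine Finset.sum_congr rfl fun i _ => ?_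
  rw [Polynomial.map_monomial, Polynomial.eval_monomial, MvPolynomial.eval_monomial]
  congr 2
  unfold ex
  rw [Finsupp.prod_fintype]
  · rfl
  · intro a
    exact pow_zero _

/-- dehomogenisation of the relation -/
theorem PP_root {g m d : ℕ} (c : (Fin g → Fin m) × Fin (d + 1) → ℂ) (u : Fin g → ℂ)
    {A B h : ℂ} (hA : A ≠ 0) (hB : B ≠ 0)
    (hrel : ∑ i, c i * ((∏ a, (u a * A) ^ (i.1 a : ℕ)) * A ^ (g * m - ∑ a, (i.1 a : ℕ)) *
      ((h * B) ^ (i.2 : ℕ) * B ^ (d - (i.2 : ℕ)))) = 0) :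
    ((PP c).map (MvPolynomial.eval u)).eval h = 0 := by
  rw [PP_eval]
  have h1 : (∑ i, c i * (∏ a, u a ^ (i.1 a : ℕ)) * h ^ (i.2 : ℕ)) * (A ^ (g * m) * B ^ d) = 0 := by
    rw [← hrel, Finset.sum_mul]
    refine Finset.sum_congr rfl fun i _ => ?_
    have hs : ∑ a, (i.1 a : ℕ) ≤ g * m := by
      calc ∑ a, (i.1 a : ℕ) ≤ ∑ _a : Fin g, m := Finset.sum_le_sum fun a _ => (i.1 a).2.le
        _ = g * m := by rw [Finset.sum_const, Finset.card_univ, Fintype.card_fin, smul_eq_mul]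
    have hd : (i.2 : ℕ) ≤ d := Nat.lt_succ_iff.1 i.2.2
    have e1 : ∏ a, (u a * A) ^ (i.1 a : ℕ) = (∏ a, u a ^ (i.1 a : ℕ)) * A ^ (∑ a, (i.1 a : ℕ)) := by
      rw [← Finset.prod_pow_eq_pow_sum, ← Finset.prod_mul_distrib]
      exact Finset.prod_congr rfl fun a _ => mul_pow _ _ _
    have e2 : A ^ (g * m) = A ^ (∑ a, (i.1 a : ℕ)) * A ^ (g * m - ∑ a, (i.1 a : ℕ)) := by
      rw [← pow_add, Nat.add_sub_cancel' hs]
    have e3 : B ^ d = B ^ (i.2 : ℕ) * B ^ (d - (i.2 : ℕ)) := by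
      rw [← pow_add, Nat.add_sub_cancel' hd]
    rw [e1, e2, e3, mul_pow]
    ring
  exact (mul_eq_zero.1 h1).resolve_right
    (mul_ne_zero (pow_ne_zero _ hA) (pow_ne_zero _ hB))

/-- the Segre product -/
noncomputable def Fs {g N : ℕ} (f : (Fin g → ℂ) → Fin N → ℂ) (b : Fin g → ℂ) (r : ℕ)
    (z : Fin g → ℂ) : Fin (Fintype.card (Fin r → Fin N)) → ℂ :=
  fun q => ∏ k : Fin r, f (b + ((k : ℂ) + 1) • z) ((Fintype.equivFin (Fin r → Fin N)).symm q k)

theorem Fs_pe {N r n : ℕ} {x y : Fin r → Fin N → ℂ} (e : Fin n → Fin r → Fin N)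
    (h : ∀ k, PE (x k) (y k)) :
    PE (fun q => ∏ k, x k (e q k)) (fun q => ∏ k, y k (e q k)) := by
  choose c hc hxy using h
  refine ⟨∏ k, c k, Finset.prod_ne_zero_iff.2 fun k _ => hc k, fun q => ?_⟩
  rw [← Finset.prod_mul_distrib]
  exact Finset.prod_congr rfl fun k _ => hxy k _

theorem Fs_hol {g N : ℕ} {f : (Fin g → ℂ) → Fin N → ℂ} (hf : HolMap univ f) (b : Fin g → ℂ)
    (r : ℕ) : HolMap univ (Fs f b r) := by
  intro z0 _
  have h1 : ∀ k : Fin r, ∃ h : (Fin g → ℂ) → Fin N → ℂ, h (b + ((k : ℂ) + 1) • z0) ≠ 0 ∧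
      ∀ᶠ z in 𝓝 (b + ((k : ℂ) + 1) • z0), DifferentiableAt ℂ h z ∧ PE (f z) (h z) :=
    fun k => hf _ (mem_univ _)
  choose h hne hev using h1
  refine ⟨fun z q => ∏ k : Fin r, h k (b + ((k : ℂ) + 1) • z)
    ((Fintype.equivFin (Fin r → Fin N)).symm q k), ?_, ?_⟩
  · have h2 : ∀ k : Fin r, ∃ i, h k (b + ((k : ℂ) + 1) • z0) i ≠ 0 := fun k =>
      Function.ne_iff.1 (hne k)
    choose i hi using h2
    apply Function.ne_iff.2
    refine ⟨Fintype.equivFin (Fin r → Fin N) i, ?_⟩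
    show ∏ k : Fin r, h k (b + ((k : ℂ) + 1) • z0) ((Fintype.equivFin (Fin r → Fin N)).symm
      (Fintype.equivFin (Fin r → Fin N) i) k) ≠ 0
    rw [Equiv.symm_apply_apply]
    exact Finset.prod_ne_zero_iff.2 fun k _ => hi k
  · have h3 : ∀ᶠ z in 𝓝 z0, ∀ k : Fin r, DifferentiableAt ℂ (h k) (b + ((k : ℂ) + 1) • z) ∧
        PE (f (b + ((k : ℂ) + 1) • z)) (h k (b + ((k : ℂ) + 1) • z)) := by
      rw [eventually_all]
      intro k
      have hc : ContinuousAt (fun z : Fin g → ℂ => b + ((k : ℂ) + 1) • z) z0 := by fun_prop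
      exact hc.eventually (hev k)
    filter_upwards [h3] with z hz
    refine ⟨?_, ?_⟩
    · rw [differentiableAt_pi]
      intro q
      have hk : ∀ k ∈ (Finset.univ : Finset (Fin r)), DifferentiableAt ℂ
          (fun z : Fin g → ℂ => h k (b + ((k : ℂ) + 1) • z)
            ((Fintype.equivFin (Fin r → Fin N)).symm q k)) z := by
        intro k _
        have hd : DifferentiableAt ℂ (fun z : Fin g → ℂ => b + ((k : ℂ) + 1) • z) z := by
          fun_prop
        have := (hz k).1.comp z hd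
        exact (differentiableAt_pi.1 this) _
      classical
      exact (HasFDerivAt.finsetProd fun k hk' => (hk k hk').hasFDerivAt).differentiableAt
    · exact Fs_pe (fun q k => (Fintype.equivFin (Fin r → Fin N)).symm q k) fun k => (hz k).2

theorem Fs_per {g N : ℕ} {Λ : AddSubgroup (Fin g → ℂ)} {f : (Fin g → ℂ) → Fin N → ℂ}
    (hf : ∀ z, ∀ l ∈ Λ, PE (f (z + l)) (f z)) (b : Fin g → ℂ) (r : ℕ) :
    ∀ z, ∀ l ∈ Λ, PE (Fs f b r (z + l)) (Fs f b r z) := by
  intro z l hl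
  refine Fs_pe (fun q k => (Fintype.equivFin (Fin r → Fin N)).symm q k) fun k => ?_
  have e : b + ((k : ℂ) + 1) • (z + l) = (b + ((k : ℂ) + 1) • z) + ((k : ℕ) + 1) • l := by
    rw [smul_add, ← add_assoc]
    congr 1
    have : ((k : ℂ) + 1) = (((k : ℕ) + 1 : ℕ) : ℂ) := by push_cast; rfl
    rw [this, Nat.cast_smul_eq_nsmul]
  rw [e]
  exact hf _ _ (Λ.nsmul_mem hl _)

theorem prod_one {r N : ℕ} (y : Fin r → Fin N → ℂ) (j : Fin N) (k0 : Fin r) (i : Fin N)
    (hy : y k0 j ≠ 0) :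
    ∏ k : Fin r, y k (if (k : ℕ) = (k0 : ℕ) then i else j) =
      y k0 i / y k0 j * ∏ k : Fin r, y k j := by
  classical
  rw [← Finset.mul_prod_erase Finset.univ _ (Finset.mem_univ k0),
    ← Finset.mul_prod_erase Finset.univ (fun k => y k j) (Finset.mem_univ k0), if_pos rfl,
    ← mul_assoc, div_mul_cancel₀ _ hy]
  congr 1
  refine Finset.prod_congr rfl fun k hk => ?_
  rw [if_neg]
  intro h
  exact (Finset.mem_erase.1 hk).1 (Fin.ext h)

end Pool.Agent.H917.K7aux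

namespace Pool.Agent.H917.G

open Pool.Agent.H917.K7aux

theorem comb_rel {g : ℕ} {Λ : AddSubgroup (Fin g → ℂ)}
    (hc : ∃ B : ℝ, ∀ z : Fin g → ℂ, ∃ l ∈ Λ, ‖z - l‖ ≤ B) {M : ℕ}
    {θ : (Fin g → ℂ) → Fin M → ℂ} (hθ : HolMap univ θ)
    (hθp : ∀ z, ∀ l ∈ Λ, PE (θ (z + l)) (θ z)) (L : Fin g → Fin M → ℂ) (L0 : Fin M → ℂ) :
    ∃ d : ℕ, ∀ (N : ℕ) (f : (Fin g → ℂ) → Fin N → ℂ), HolMap univ f →
      (∀ z, ∀ l ∈ Λ, PE (f (z + l)) (f z)) → ∀ (b : Fin g → ℂ) (j : Fin N)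
      (c : (ℕ × Fin N) →₀ ℕ), ∃ (r : ℕ) (P : Polynomial (MvPolynomial (Fin g) ℂ)), P ≠ 0 ∧
        P.natDegree ≤ d ∧ ∀ u z : Fin g → ℂ, (∀ a, lf (L a) (θ z) = u a * lf L0 (θ z)) →
          lf L0 (θ z) ≠ 0 → (∀ k < r, f (b + ((k : ℂ) + 1) • z) j ≠ 0) →
          (P.map (MvPolynomial.eval u)).eval (c.sum fun i t => (t : ℂ) *
            (f (b + ((i.1 : ℂ) + 1) • z) i.2 / f (b + ((i.1 : ℂ) + 1) • z) j)) = 0 := by
  obtain ⟨d, hd⟩ := siegel hc hθ hθp L L0
  refine ⟨d, ?_⟩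
  intro N f hf hfp b j c
  obtain ⟨r, hr⟩ : ∃ r : ℕ, ∀ p ∈ c.support, p.1 < r := by
    refine ⟨c.support.sup (fun p => p.1) + 1, fun p hp => Nat.lt_succ_iff.2 ?_⟩
    exact Finset.le_sup (f := fun p : ℕ × Fin N => p.1) hp
  obtain ⟨E, hE⟩ : ∃ E : (Fin r → Fin N) ≃ Fin (Fintype.card (Fin r → Fin N)),
    E = Fintype.equivFin (Fin r → Fin N) := ⟨_, rfl⟩
  obtain ⟨q, hq⟩ : ∃ q : ℕ × Fin N → Fin (Fintype.card (Fin r → Fin N)),
    q = fun p => E fun k => if (k : ℕ) = p.1 then p.2 else j := ⟨_, rfl⟩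
  obtain ⟨m, cc, hcc, hrel⟩ := hd _ (Fs f b r) (Fs_hol hf b r) (Fs_per hfp b r)
    (fun i => ∑ p ∈ c.support, (c p : ℂ) *
      (Pi.single (q p) (1:ℂ) : Fin (Fintype.card (Fin r → Fin N)) → ℂ) i)
    (Pi.single (E fun _ => j) 1)
  refine ⟨r, PP cc, PP_ne hcc, PP_deg cc, ?_⟩
  intro u z hu hL0 hne
  have hB : lf (Pi.single (E fun _ => j) 1) (Fs f b r z) ≠ 0 := by
    rw [lf_single]
    unfold Fs
    rw [← hE, Equiv.symm_apply_apply]
    exact Finset.prod_ne_zero_iff.2 fun k _ => hne k k.2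
  have hBe : lf (Pi.single (E fun _ => j) 1) (Fs f b r z) =
      ∏ k : Fin r, f (b + ((k : ℂ) + 1) • z) j := by
    rw [lf_single]
    unfold Fs
    rw [← hE, Equiv.symm_apply_apply]
  refine PP_root cc u hL0 hB ?_
  have hz := hrel z
  have hh : lf (fun i => ∑ p ∈ c.support, (c p : ℂ) *
      (Pi.single (q p) (1:ℂ) : Fin (Fintype.card (Fin r → Fin N)) → ℂ) i) (Fs f b r z) =
      (c.sum fun i t => (t : ℂ) *
            (f (b + ((i.1 : ℂ) + 1) • z) i.2 / f (b + ((i.1 : ℂ) + 1) • z) j)) *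
      lf (Pi.single (E fun _ => j) 1) (Fs f b r z) := by
    rw [lf_sum, hBe, Finsupp.sum, Finset.sum_mul]
    refine Finset.sum_congr rfl fun p hp => ?_
    have hpr := hr p hp
    rw [mul_assoc]
    congr 1
    rw [hq]
    unfold Fs
    rw [← hE]
    simp only [Equiv.symm_apply_apply]
    exact prod_one (fun k : Fin r => f (b + ((k : ℂ) + 1) • z)) j ⟨p.1, hpr⟩ p.2 (hne p.1 hpr)
  simp only [hu, hh] at hz
  exact hz

end Pool.Agent.H917.G
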