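import Pool.Agent.H917.G.K6d
import Pool.Graph.R_seed8.Helper540.Holo

/-!
# PROJECT ABCURVES (helper917), task K8: algebraic local coordinates of an abelian variety

`lf l x = ∑ i, l i * x i` (K6d). `IsAb Λ` (V0): `ℂ^g/Λ` has an embedding `θ` in a projective space.

## Paper proof
Let `θ` be the embedding of `IsAb`, and `h` the local lift of it at `z0 = 0`: `h 0 ≠ 0`, near `0` the function `h` is
differentiable and proportional to `θ`, and the derivative `h'(0) v` is a multiple of `h 0` only for `v = 0`. Let `j0` be an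
index with `h(0)_{j0} ≠ 0` and `L0 = e_{j0}` (so `lf L0 x = x_{j0}`). `τ_i = h_i/h_{j0}` is differentiable near `0`, and
`dτ_i(0) v = (h_i'(v) h_{j0}(0) - h_i(0) h_{j0}'(v))/h_{j0}(0)²`; if this is `0` for all `i` then
`h'(0) v = (h_{j0}'(v)/h_{j0}(0)) h(0)`, so `v = 0`. Hence `dτ(0) : ℂ^g → ℂ^M` is an injective linear map; let `A` be a linear left
inverse (`LinearMap.exists_leftInverse_of_injective`), with matrix `A_{a i}`, and let
`L a = A_a - (A τ(0))_a L0` (so `lf (L a) x = ∑_i A_{a i} x_i - (A τ(0))_a x_{j0}`). Then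
`u(z)_a := lf (L a) (h z)/lf L0 (h z) = (A τ(z))_a - (A τ(0))_a` is holomorphic near `0`, `u(0) = 0`, `u'(0) = id`. By the
inverse function theorem (`HasStrictFDerivAt.toOpenPartialHomeomorph` / `ContDiffAt.toOpenPartialHomeomorph`;
`u` is differentiable in a neighbourhood of `0` in `ℂ^g`; for `ContDiffAt` or strict differentiability use
analyticity of functions of several complex variables: see the files `U0`, `U1`, `T1`,... of this folder or the library for Osgood's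
lemma, used there for `fderiv` of holomorphic functions) there is a local inverse `ζ`, differentiable near `0`. As `θ z` and
`h z` are proportional with a nonzero factor, the relations `lf (L a) (θ z) = u(z)_a lf L0 (θ z)`, `lf L0 (θ z) ≠ 0` hold near `0`; take
`z = ζ x`. (Outside of the neighbourhood `u` and `ζ` are arbitrary.)
-/

set_option autoImplicit false
set_option linter.overlappingInstances false
set_option linter.unusedSectionVars false

open Filter Topology Set Metric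

namespace Pool.Agent.H917.G

namespace K8aux

/-- the inverse function theorem for holomorphic maps of several variables -/
theorem inverse {g : ℕ} {u : (Fin g → ℂ) → Fin g → ℂ} (hd : ∀ᶠ z in 𝓝 0, DifferentiableAt ℂ u z) (hu0 : u 0 = 0)
    (hu : HasFDerivAt u ((ContinuousLinearEquiv.refl ℂ (Fin g → ℂ) : (Fin g → ℂ) ≃L[ℂ] (Fin g → ℂ)) : (Fin g → ℂ) →L[ℂ] (Fin g → ℂ)) 0) :
    ∃ ζ : (Fin g → ℂ) → Fin g → ℂ, ζ 0 = 0 ∧ (∀ᶠ z in 𝓝 0, ζ (u z) = z) ∧ (∀ᶠ x in 𝓝 0, DifferentiableAt ℂ ζ x) ∧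
      ∀ᶠ x in 𝓝 0, u (ζ x) = x := by
  obtain ⟨U, hUd, hUo, hU0⟩ := _root_.eventually_nhds_iff.1 hd
  have hdU : DifferentiableOn ℂ u U := fun z hz => (hUd z hz).differentiableWithinAt
  have hc : ContDiffAt ℂ ((1 : ℕ) : WithTop ℕ∞) u 0 :=
    (Pool.Agent.Helper540.contDiffOn_of_differentiableOn hUo hdU 1).contDiffAt (hUo.mem_nhds hU0)
  have hn : ((1 : ℕ) : WithTop ℕ∞) ≠ 0 := by norm_num
  have hs := hc.hasStrictFDerivAt' hu hn
  refine ⟨hc.localInverse hu hn, ?_, ?_, ?_, ?_⟩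
  · have := hc.localInverse_apply_image hu hn
    rwa [hu0] at this
  · exact hs.eventually_left_inverse
  · have h1 := hc.to_localInverse hu hn
    rw [hu0] at h1
    have h2 : ∀ᶠ y in 𝓝 (0 : Fin g → ℂ), ContDiffAt ℂ ((1 : ℕ) : WithTop ℕ∞) (hc.localInverse hu hn) y := h1.eventually (by norm_num)
    filter_upwards [h2] with y hy
    exact hy.differentiableAt (by norm_num)
  · have h1 := hs.eventually_right_inverse
    rw [hu0] at h1
    exact h1

theorem lf_single {M : ℕ} (j : Fin M) (x : Fin M → ℂ) : lf (Pi.single j 1) x = x j := by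
  unfold lf
  rw [Finset.sum_eq_single j]
  · simp
  · intro i _ hij
    simp [hij]
  · intro h
    exact absurd (Finset.mem_univ j) h

theorem lf_lin {M g : ℕ} (A : (Fin M → ℂ) →ₗ[ℂ] (Fin g → ℂ)) (x : Fin M → ℂ) (a : Fin g) :
    lf (fun i => A (Pi.single i 1) a) x = A x a := by
  unfold lf
  conv_rhs => rw [pi_eq_sum_univ' x]
  rw [map_sum, Finset.sum_apply]
  apply Finset.sum_congr rfl
  intro i _
  rw [map_smul, Pi.smul_apply, smul_eq_mul]
  rw [mul_comm]

theorem lf_smul {M : ℕ} (l x : Fin M → ℂ) (c : ℂ) : lf l (fun i => c * x i) = c * lf l x := by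
  unfold lf
  rw [Finset.mul_sum]
  apply Finset.sum_congr rfl
  intro i _
  ring

theorem lf_sub {M : ℕ} (l l' x : Fin M → ℂ) (c : ℂ) : lf (fun i => l i - c * l' i) x = lf l x - c * lf l' x := by
  unfold lf
  rw [Finset.mul_sum, ← Finset.sum_sub_distrib]
  apply Finset.sum_congr rfl
  intro i _
  ring

end K8aux

open K8aux in
theorem exists_coord {g : ℕ} {Λ : AddSubgroup (Fin g → ℂ)} (hΛ : IsAb Λ) :
    ∃ (M : ℕ) (θ : (Fin g → ℂ) → Fin M → ℂ) (L : Fin g → Fin M → ℂ) (L0 : Fin M → ℂ)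
      (ζ u : (Fin g → ℂ) → Fin g → ℂ), HolMap univ θ ∧ (∀ z, ∀ l ∈ Λ, PE (θ (z + l)) (θ z)) ∧
      ζ 0 = 0 ∧ u 0 = 0 ∧ ContinuousAt u 0 ∧ (∀ᶠ z in 𝓝 0, ζ (u z) = z) ∧
      ∀ᶠ x in 𝓝 0, DifferentiableAt ℂ ζ x ∧ lf L0 (θ (ζ x)) ≠ 0 ∧
        ∀ a, lf (L a) (θ (ζ x)) = x a * lf L0 (θ (ζ x)) := by
  obtain ⟨N, θ, hinj, hloc⟩ := hΛ.emb
  obtain ⟨h, h0, hev, himm⟩ := hloc 0
  obtain ⟨j0, hj0⟩ := Function.ne_iff.1 h0
  have hj0 : h 0 j0 ≠ 0 := hj0
  -- the affine coordinates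
  set τ : (Fin g → ℂ) → Fin (N + 1) → ℂ := fun z i => h z i / h z j0 with hτ
  have hcont : ContinuousAt (fun z => h z j0) 0 := by
    have h1 : DifferentiableAt ℂ h 0 := (hev.self_of_nhds).1
    exact (differentiableAt_pi.1 h1 j0).continuousAt
  have hne : ∀ᶠ z in 𝓝 0, h z j0 ≠ 0 := hcont.eventually_ne hj0
  have hτd : ∀ᶠ z in 𝓝 0, DifferentiableAt ℂ τ z := by
    filter_upwards [hev, hne] with z hz hz'
    rw [differentiableAt_pi]
    intro i
    have e1 : DifferentiableAt ℂ (fun x => h x i) z := differentiableAt_pi.1 hz.1 i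
    have e2 : DifferentiableAt ℂ (fun x => h x j0) z := differentiableAt_pi.1 hz.1 j0
    simp only [hτ, div_eq_mul_inv]
    exact e1.fun_mul (e2.fun_inv hz')
  have hτ0 := hτd.self_of_nhds
  have hprod : ∀ᶠ z in 𝓝 0, h z = h z j0 • τ z := by
    filter_upwards [hne] with z hz
    funext i
    show h z i = h z j0 * (h z i / h z j0)
    field_simp
  have hker : LinearMap.ker ((fderiv ℂ τ 0 : (Fin g → ℂ) →L[ℂ] (Fin (N + 1) → ℂ)) : (Fin g → ℂ) →ₗ[ℂ] (Fin (N + 1) → ℂ)) = ⊥ := by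
    rw [LinearMap.ker_eq_bot']
    intro v hv
    have hv : fderiv ℂ τ 0 v = 0 := hv
    have hdj : DifferentiableAt ℂ (fun z => h z j0) 0 := differentiableAt_pi.1 (hev.self_of_nhds).1 j0
    have h1 : fderiv ℂ h 0 = fderiv ℂ (fun z => h z j0 • τ z) 0 := Filter.EventuallyEq.fderiv_eq hprod
    have h2 : fderiv ℂ (fun z => h z j0 • τ z) 0 v = h 0 j0 • fderiv ℂ τ 0 v + (fderiv ℂ (fun z => h z j0) 0 v) • τ 0 := by
      rw [fderiv_fun_smul hdj hτ0]
      rfl
    apply himm v (fderiv ℂ (fun z => h z j0) 0 v / h 0 j0)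
    rw [h1, h2, hv, smul_zero, zero_add]
    funext i
    show _ * (h 0 i / h 0 j0) = _ / h 0 j0 * h 0 i
    ring
  obtain ⟨A, hA⟩ := LinearMap.exists_leftInverse_of_injective _ hker
  set A' : (Fin (N + 1) → ℂ) →L[ℂ] (Fin g → ℂ) := LinearMap.toContinuousLinearMap A with hA'
  set u : (Fin g → ℂ) → Fin g → ℂ := fun z => A' (τ z) - A' (τ 0) with hu
  have hud : ∀ᶠ z in 𝓝 0, DifferentiableAt ℂ u z := by
    filter_upwards [hτd] with z hz
    exact (A'.differentiableAt.comp z hz).sub_const _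
  have hu0 : u 0 = 0 := sub_self _
  have hu' : HasFDerivAt u ((ContinuousLinearEquiv.refl ℂ (Fin g → ℂ) : (Fin g → ℂ) ≃L[ℂ] (Fin g → ℂ)) : (Fin g → ℂ) →L[ℂ] (Fin g → ℂ)) 0 := by
    have h1 : HasFDerivAt u (A'.comp (fderiv ℂ τ 0)) 0 := (A'.hasFDerivAt.comp 0 hτ0.hasFDerivAt).sub_const _
    have h2 : A'.comp (fderiv ℂ τ 0) = ((ContinuousLinearEquiv.refl ℂ (Fin g → ℂ) : (Fin g → ℂ) ≃L[ℂ] (Fin g → ℂ)) : (Fin g → ℂ) →L[ℂ] (Fin g → ℂ)) := by
      apply ContinuousLinearMap.ext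
      intro v
      exact LinearMap.congr_fun hA v
    rwa [h2] at h1
  obtain ⟨ζ, hζ0, hζl, hζd, hζr⟩ := inverse hud hu0 hu'
  have hζc : Tendsto ζ (𝓝 0) (𝓝 0) := by
    have := (hζd.self_of_nhds).continuousAt.tendsto
    rwa [hζ0] at this
  refine ⟨N + 1, θ, fun a i => A (Pi.single i 1) a - A (τ 0) a * (Pi.single j0 1 : Fin (N + 1) → ℂ) i, Pi.single j0 1, ζ, u, ?_, ?_,
    hζ0, hu0, (hud.self_of_nhds).continuousAt, hζl, ?_⟩
  · intro z0 _
    obtain ⟨k, k0, kev, _⟩ := hloc z0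
    exact ⟨k, k0, kev⟩
  · intro z l hl
    rw [hinj]
    rwa [add_sub_cancel_left]
  · filter_upwards [hζd, hζr, hζc.eventually hev, hζc.eventually hne, hζc.eventually hprod] with x k1 k2 k3 k4 k5
    obtain ⟨c, hc, hpe⟩ := k3.2
    have e0 : θ (ζ x) = fun i => c * h (ζ x) i := funext hpe
    have e1 : lf (Pi.single j0 1) (θ (ζ x)) = c * h (ζ x) j0 := by
      rw [lf_single, hpe]
    refine ⟨k1, ?_, ?_⟩
    · rw [e1]
      exact mul_ne_zero hc k4
    · intro a
      rw [e1, lf_sub, e0, lf_smul, lf_smul, lf_lin, lf_single]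
      have e2 : A (h (ζ x)) a = h (ζ x) j0 * A (τ (ζ x)) a := by
        conv_lhs => rw [k5]
        rw [map_smul, Pi.smul_apply, smul_eq_mul]
      have e3 : x a = A (τ (ζ x)) a - A (τ 0) a := by
        conv_lhs => rw [← k2]
        rfl
      rw [e2, e3]
      ring

end Pool.Agent.H917.G
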