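import Mathlib

/-!
# PROJECT ABCURVES (helper917), task K9: a point where countably many polynomials do not vanish
-/

set_option autoImplicit false

open Filter Topology

namespace Pool.Agent.H917.G

theorem exists_generic {g : ℕ} {ι : Type} [Countable ι] (Q : ι → MvPolynomial (Fin g) ℂ)
    (hQ : ∀ i, Q i ≠ 0) : ∃ v : Fin g → ℂ, ∀ i, MvPolynomial.eval v (Q i) ≠ 0 := by
  have hopen : ∀ i, IsOpen {v : Fin g → ℂ | MvPolynomial.eval v (Q i) ≠ 0} := fun i =>
    isOpen_ne_fun (MvPolynomial.continuous_eval (Q i)) continuous_const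
  have hdense : ∀ i, Dense {v : Fin g → ℂ | MvPolynomial.eval v (Q i) ≠ 0} := by
    intro i
    rw [dense_iff_inter_open]
    intro U hU hne
    by_contra hcon
    obtain ⟨x, hx⟩ := hne
    obtain ⟨ε, hε, hball⟩ := Metric.isOpen_iff.1 hU x hx
    apply hQ i
    apply MvPolynomial.funext_set (fun j => Metric.ball (x j) ε)
    · intro j
      exact infinite_of_mem_nhds (x j) (Metric.ball_mem_nhds (x j) hε)
    · intro y hy
      rw [map_zero]
      by_contra hy0
      apply hcon
      refine ⟨y, hball ?_, hy0⟩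
      rw [ball_pi x hε]
      exact hy
  have := dense_iInter_of_isOpen hopen hdense
  obtain ⟨v, hv⟩ := this.nonempty
  exact ⟨v, fun i => Set.mem_iInter.1 hv i⟩

end Pool.Agent.H917.G
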