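import Pool.Agent.H917.G.V2

/-!
Consequences for the equivalence of the notions of hyperbolicity.
-/

set_option autoImplicit false
set_option linter.overlappingInstances false
set_option linter.unusedSectionVars false

open MvPolynomial Metric Set MeasureTheory

namespace Pool.Agent.H917

open Pool.Agent.W602.GT (IsForm GeneralType coords)
open G (HolMap IsAb PE)

variable {n : ℕ} {p : Ideal (MvPolynomial (Fin (n + 1)) ℂ)}

/-- `f` is the vector of homogeneous coordinates of a nonconstant holomorphic map from the abelian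
variety `ℂ^g / Λ` to the projective variety with the ideal `p`. -/
def AbMap (p : Ideal (MvPolynomial (Fin (n + 1)) ℂ)) (g : ℕ) (Λ : AddSubgroup (Fin g → ℂ))
    (f : (Fin g → ℂ) → Fin (n + 1) → ℂ) : Prop :=
  IsAb Λ ∧ HolMap univ f ∧ (∀ z, ∀ l ∈ Λ, PE (f (z + l)) (f z)) ∧ (∀ z, f z ∈ Pts p) ∧
    ∃ z w, ¬ PE (f z) (f w)

theorem isPrime_of_subVar {q : Ideal (MvPolynomial (Fin (n + 1)) ℂ)}
    (hq : Pool.Agent.W603.PV.IsHomog q) {K : Type} [Field K] [Algebra ℂ K] {w : ℕ}
    {y : Fin (n + 1) → K} (hy : SubVar q K w y)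
    (hf : ∀ H : MvPolynomial (Fin (n + 1)) ℂ, (∃ d, H.IsHomogeneous d) → aeval y H = 0 → H ∈ q) :
    q.IsPrime := by
  refine isPrime_of_forms hq ?_ fun A B hA hB hAB => ?_
  · rintro rfl
    have h1 := hy.mem 1 Submodule.mem_top
    rw [map_one] at h1
    exact one_ne_zero h1
  · have h1 := hy.mem _ hAB
    rw [map_mul, mul_eq_zero] at h1
    exact h1.imp (hf A hA) (hf B hB)

theorem NotGT.isPrime {q : Ideal (MvPolynomial (Fin (n + 1)) ℂ)}
    (hq : Pool.Agent.W603.PV.IsHomog q) (h : NotGT q) : q.IsPrime := by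
  obtain ⟨K, i1, i2, w, y, -, hy, hf, -⟩ := h
  exact isPrime_of_subVar hq hy hf

/-- The ideal of a subvariety with a given generic point. -/
theorem exists_ideal {K : Type} [Field K] [Algebra ℂ K] {w : ℕ} {y : Fin (n + 1) → K}
    (hp : Pool.Agent.W603.PV.IsHomog p) (hy : SubVar p K w y) :
    ∃ q : Ideal (MvPolynomial (Fin (n + 1)) ℂ), p ≤ q ∧ Pool.Agent.W603.PV.IsHomog q ∧
      SubVar q K w y ∧
      ∀ H : MvPolynomial (Fin (n + 1)) ℂ, (∃ d, H.IsHomogeneous d) → aeval y H = 0 → H ∈ q := by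
  classical
  let q : Ideal (MvPolynomial (Fin (n + 1)) ℂ) :=
    { carrier := {H | ∀ d, aeval y (homogeneousComponent d H) = 0}
      add_mem' := by
        intro a b ha hb d
        rw [map_add, map_add, ha d, hb d, add_zero]
      zero_mem' := by
        intro d
        rw [map_zero, map_zero]
      smul_mem' := by
        intro c H hH d
        rw [smul_eq_mul]
        have h1 : homogeneousComponent d (c * H) = ∑ x ∈ Finset.HasAntidiagonal.antidiagonal d,
            homogeneousComponent x.1 c * homogeneousComponent x.2 H := by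
          have h2 : c * H = ∑ i ∈ Finset.range (c.totalDegree + 1),
              ∑ j ∈ Finset.range (H.totalDegree + 1),
              homogeneousComponent i c * homogeneousComponent j H := by
            conv_lhs => rw [← sum_homogeneousComponent c, ← sum_homogeneousComponent H,
              Finset.sum_mul_sum]
          rw [h2, map_sum]
          simp only [map_sum]
          have h3 : ∀ i j, homogeneousComponent d (homogeneousComponent i c *
              homogeneousComponent j H) = if i + j = d then homogeneousComponent i c *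
              homogeneousComponent j H else 0 := by
            intro i j
            have h4 := (homogeneousComponent_isHomogeneous i c).mul
              (homogeneousComponent_isHomogeneous j H)
            split_ifs with h
            · subst h
              rw [homogeneousComponent_of_mem h4, if_pos rfl]
            · rw [homogeneousComponent_of_mem h4, if_neg (fun h' => h h'.symm)]
          simp only [h3]
          rw [← Finset.sum_product', ← Finset.sum_filter]
          refine Finset.sum_subset_zero_on_sdiff ?_ ?_ fun _ _ => rfl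
          · intro x hx
            rw [Finset.mem_filter] at hx
            exact Finset.HasAntidiagonal.mem_antidiagonal.2 hx.2
          · intro x hx
            rw [Finset.mem_sdiff, Finset.HasAntidiagonal.mem_antidiagonal, Finset.mem_filter, Finset.mem_product,
              Finset.mem_range, Finset.mem_range] at hx
            by_cases h5 : x.1 < c.totalDegree + 1
            · have h6 : ¬ x.2 < H.totalDegree + 1 := fun h6 => hx.2 ⟨⟨h5, h6⟩, hx.1⟩
              rw [homogeneousComponent_eq_zero x.2 H (by omega), mul_zero]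
            · rw [homogeneousComponent_eq_zero x.1 c (by omega), zero_mul]
        rw [h1, map_sum]
        refine Finset.sum_eq_zero fun x _ => ?_
        rw [map_mul, hH, mul_zero] }
  have hqm : ∀ H, H ∈ q ↔ ∀ d, aeval y (homogeneousComponent d H) = 0 := fun H => Iff.rfl
  have hqf : ∀ H : MvPolynomial (Fin (n + 1)) ℂ, (∃ d, H.IsHomogeneous d) → aeval y H = 0 →
      H ∈ q := by
    rintro H ⟨e, he⟩ h0 d
    rw [homogeneousComponent_of_mem he]
    split_ifs
    · exact h0
    · rw [map_zero]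
  refine ⟨q, fun H hH d => hy.mem _ (hp H hH d), fun H hH d => ?_, ⟨hy.ne, fun H hH => ?_, hy.gen,
    hy.dim⟩, hqf⟩
  · exact hqf _ ⟨d, homogeneousComponent_isHomogeneous d H⟩ (hH d)
  · rw [← sum_homogeneousComponent H, map_sum]
    exact Finset.sum_eq_zero fun d _ => hH d

/-- **The equivalence of the notions of hyperbolicity** for closed subsets. -/
theorem tfae_hyp (hp : Pool.Agent.W603.PV.IsHomog p) {m N : ℕ}
    {s : Fin N → SymDiff p m} (hs : Gens p m s) (hm : 1 ≤ m) :
    List.TFAE [∀ (K : Type) [Field K] [Algebra ℂ K] (w : ℕ) (y : Fin (n + 1) → K),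
        SubVar p K w y → GeneralType ℂ K w,
      ¬ ∃ f, EntCurve p f,
      ∀ f, PuncCurve p f → Extends f,
      ¬ ∃ g Λ f, AbMap p g Λ f] := by
  have hone : ∀ x : Fin (n + 1) → ℂ, eval x (1 : MvPolynomial (Fin (n + 1)) ℂ) ≠ 0 := by
    intro x
    rw [map_one]
    exact one_ne_zero
  have h1' : (1 : MvPolynomial (Fin (n + 1)) ℂ).IsHomogeneous 0 := isHomogeneous_one _ _
  obtain ⟨e1, e2⟩ := sp_eq hp hs hm
  obtain ⟨e3, -⟩ := spAb_eq hp hs hm
  have a1 : (∀ (K : Type) [Field K] [Algebra ℂ K] (w : ℕ) (y : Fin (n + 1) → K),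
        SubVar p K w y → GeneralType ℂ K w) ↔ SpAlg p = ∅ := by
    constructor
    · intro h
      rw [Set.eq_empty_iff_forall_notMem]
      intro x hx
      exact hone x (hx.2 1 ⟨0, h1'⟩ fun K _ _ w y _ hy hngt => absurd (h K w y hy) hngt)
    · intro h K _ _ w y hy
      by_contra hngt
      have hw : 1 ≤ w := by
        by_contra hw
        have hw0 : w = 0 := by omega
        subst hw0
        exact hngt (gt_zero hy.dim)
      obtain ⟨q, hpq, hq, hyq, hqf⟩ := exists_ideal hp hy
      have hqp := isPrime_of_subVar hq hyq hqf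
      obtain ⟨j, hj⟩ := X_notMem hyq
      obtain ⟨x, hx, -⟩ := exists_pt hqp hj hj
      have h2 := spAlg_mono hpq (pts_sub_spAlg ⟨K, inferInstance, inferInstance, w, y, hw, hyq, hqf,
        hngt⟩ hx)
      rw [h] at h2
      exact h2
  have a2 : (¬ ∃ f, EntCurve p f) ↔ SpAlg p = ∅ := by
    rw [← e2, Set.eq_empty_iff_forall_notMem]
    constructor
    · intro h x hx
      exact hone x (hx.2 1 ⟨0, h1'⟩ fun f hf => absurd ⟨f, hf⟩ h)
    · rintro h ⟨f, hf⟩
      exact h (f 0) ⟨hf.2.1 0, fun G hG h2 => h2 f hf 0⟩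
  have a3 : (∀ f, PuncCurve p f → Extends f) ↔ SpAlg p = ∅ := by
    rw [← e1, Set.eq_empty_iff_forall_notMem]
    constructor
    · intro h x hx
      exact hone x (hx.2 1 ⟨0, h1'⟩ fun f hf hne => absurd (h f hf) hne)
    · intro h f hf
      by_contra hne
      have h2 : (1 / 2 : ℂ) ∈ ball (0 : ℂ) 1 \ {0} := by
        refine ⟨?_, ?_⟩
        · rw [mem_ball_zero_iff]
          norm_num
        · norm_num
      exact h (f (1 / 2)) ⟨hf.2 _ h2, fun G hG h3 => h3 f hf hne _ h2⟩
  have a4 : (¬ ∃ g Λ f, AbMap p g Λ f) ↔ SpAlg p = ∅ := by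
    rw [← e3, Set.eq_empty_iff_forall_notMem]
    constructor
    · intro h x hx
      refine hone x (hx.2 1 ⟨0, h1'⟩ fun g Λ f b1 b2 b3 b4 b5 => absurd ⟨g, Λ, f, b1, b2, b3, b4,
        b5⟩ h)
    · rintro h ⟨g, Λ, f, b1, b2, b3, b4, b5⟩
      exact h (f 0) ⟨b4 0, fun G hG h2 => h2 g Λ f b1 b2 b3 b4 b5 0⟩
  tfae_have 1 ↔ 2 := a1.trans a2.symm
  tfae_have 2 ↔ 3 := a2.trans a3.symm
  tfae_have 3 ↔ 4 := a3.trans a4.symm
  tfae_finish

/-- **Abelian varieties in the closures of entire curves.** -/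
theorem ab_dense_of_curve (hp : Pool.Agent.W603.PV.IsHomog p) {m N : ℕ}
    {s : Fin N → SymDiff p m} (hs : Gens p m s) (hm : 1 ≤ m) {f : ℂ → Fin (n + 1) → ℂ}
    (hf : EntCurve p f) {G : MvPolynomial (Fin (n + 1)) ℂ} (hG : ∃ d, G.IsHomogeneous d)
    (hGf : ∃ z, eval (f z) G ≠ 0) :
    ∃ (g : ℕ) (Λ : AddSubgroup (Fin g → ℂ)) (θ : (Fin g → ℂ) → Fin (n + 1) → ℂ), AbMap p g Λ θ ∧
      (∀ H : MvPolynomial (Fin (n + 1)) ℂ, (∃ d, H.IsHomogeneous d) → (∀ z, eval (f z) H = 0) →
        ∀ z, eval (θ z) H = 0) ∧ ∃ z, eval (θ z) G ≠ 0 := by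
  obtain ⟨m', rfl⟩ := Nat.exists_eq_add_of_le' hm
  have hd : ∀ j, Differentiable ℂ fun z => f z j := fun j z => (differentiableAt_pi.1 (hf.1 z)) j
  have han : ∀ j, AnalyticOnNhd ℂ (fun w => f w j) univ := fun j z _ => (hd j).analyticAt z
  have hX : ∀ z ∈ (univ : Set ℂ), ∀ H ∈ p, eval (f z) H = 0 := fun z _ => (hf.2.1 z).2
  obtain ⟨j0, hj0⟩ := Function.ne_iff.1 (hf.2.1 0).1
  obtain ⟨K, i1, i2, w, y, h1, h2, h3, h4, h5⟩ := Pool.Agent.TH143.GT.exists_closure f
    isPreconnected_univ han ⟨0, mem_univ _, hj0⟩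
  have hy : Pool.Agent.TH143.GT.GenPt f univ K w y := ⟨h1, h2, h3, h4⟩
  rcases Nat.eq_zero_or_pos w with hw | hw
  · exfalso
    obtain ⟨z, w', hzw⟩ := hf.2.2
    have h6 := h5 hw
    choose c hc using h6
    have hw0 : f w' j0 ≠ 0 := by
      intro h0
      apply (hf.2.1 w').1
      funext j
      rw [hc j w' (mem_univ _), h0, mul_zero]
      rfl
    apply hzw (f z j0 / f w' j0)
    funext j
    rw [Pi.smul_apply, smul_eq_mul, hc j z (mem_univ _), hc j w' (mem_univ _)]
    field_simp
  · have hgt : ¬ GeneralType ℂ K w := entire_not_gt hp hs hm hd (fun z => (hf.2.1 z).1)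
      (fun z => (hf.2.1 z).2) hf.2.2 hy
    obtain ⟨q, hpq, hq, hyq, hqf⟩ := exists_ideal hp (subVar_of_gen hp hy hX)
    have hGy : aeval y G ≠ 0 := by
      intro h0
      obtain ⟨z, hz⟩ := hGf
      exact hz ((hy.rel G hG).1 h0 z (mem_univ _))
    obtain ⟨g, Λ, θ, b1, b2, b3, b4, b5, b6⟩ := ab_of_ngt hq (hs.res hpq) hw hyq hgt hG hGy
    refine ⟨g, Λ, θ, ⟨b1, b2, b3, fun z => ⟨(b4 z).1, fun H hH => (b4 z).2 H (hpq hH)⟩, b5⟩,
      fun H hH h0 z => (b4 z).2 H (hqf H hH ((hy.rel H hH).2 fun z _ => h0 z)), 0, b6⟩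

end Pool.Agent.H917
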