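import Pool.Agent.H917.G.H7
import Pool.Graph.R_seed8.Helper540.Osgood
import Pool.Agent.H917.G.W1
import Pool.Agent.H917.G.K5
import Pool.Agent.H917.G.K7
import Pool.Agent.H917.G.K8
import Pool.Agent.H917.G.K9
import Pool.Agent.H917.G.K12

/-!
# PROJECT ABCURVES (helper917), task K13: infinitely many pointed maps from one curve (assembly)

`K5`, `K6c`, `K7`, `K8`, `K9`, `K12` are stubs (with sorry) proved by others; use them freely. `PMaps` is defined in H7,
`AbMap` in W1 (`IsAb Λ`, `HolMap univ f`, periodic, values in `Pts p`, nonconstant), `Pts p` in F1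
(nonzero zeros of the ideal).

## Paper proof
Let `b` be a point with `G(f b) ≠ 0`. `f b ≠ 0`; let `j` be an index with `f b j ≠ 0`. Let `x` be the vector `x_i = f b i / f b j`. As
`p` and `G` are homogeneous, `x ∈ Pts p` and `G(x) ≠ 0`. K8 gives `M, θ, L, L0, ζ, u`. K7 gives `d` (with
`hc = hΛ.cocp`).
For `(k, i) : ℕ × Fin (n+1)` let `φ_{k,i}(z) = f(b + (k+1) z)_i / f(b + (k+1) z)_j`. Near `0` it is equal to the quotient of the
coordinates of a local lift of `f` at `b` composed with `z ↦ b + (k+1) z`, so `φ_{k,i}` is differentiable near `0`, and so is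
`δ_{k,i} = φ_{k,i} ∘ ζ` (`ζ 0 = 0`, `ζ` is differentiable near `0`), hence analytic at `0` (several complex variables: Osgood's lemma, see
U0/U1/T1 or the library). `δ_{k,i}(0) = x_i`.

Countably many polynomials: (1) for every `c : (ℕ × Fin (n+1)) →₀ ℕ` let `P_c` be the polynomial of K7, let `q_c ≠ 0` be one of
its nonzero coefficients (an element of `MvPolynomial (Fin g) ℂ`) and `Q_c ≠ 0` one of the nonzero homogeneous components of `q_c`
(`MvPolynomial.homogeneousComponent`). (2) For `k ≠ l` let `i` be as in K12 (`exists_ne`): `φ_{k,i} ≠ φ_{l,i}` near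
`0`; then `δ_{k,i} - δ_{l,i}` is not zero near `0`, because `ζ (u z) = z` and `u` is continuous at `0` with `u 0 = 0`
(if `δ_{k,i} = δ_{l,i}` near `0` then `φ_{k,i}(z) = δ_{k,i}(u z) = δ_{l,i}(u z) = φ_{l,i}(z)` near `0`); let `Q_{k,l} ≠ 0` be the
polynomial of K6c (`exists_dir_ne`). K9 (`exists_generic`) gives `v` with `Q_c(v) ≠ 0`, `Q_{k,l}(v) ≠ 0` for all `c` and all
`k ≠ l`.

Put `a_{(k,i)}(s) = δ_{k,i}(s v)`, analytic at `0 : ℂ`. For `c : ι →₀ ℕ` let `P ∈ ℂ[s][T]` be `P_c` with the variables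
`X_a` replaced by `v_a s` (`Polynomial.map` of `MvPolynomial.aeval (fun a => C (v a) * X)`). It is not zero: the coefficient
which was `q_c` becomes `∑_e s^e (q_c)_e(v)`, `(q_c)_e` the homogeneous components of `q_c`, whose coefficient at one power of
`s` is `Q_c(v) ≠ 0`. Its degree is `≤ d`. For `s` near `0` we apply the relation of K7 with `u = s v` and `z = ζ(s v)`:
`f(b + (k+1) ζ(s v))_j ≠ 0` for the finitely many `k < r` and `s` near `0`, by the continuity of the `j`-th coordinate of the lift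
(PE). So K5 (`exists_ff`) gives a function field `F`, a place `c` and elements `y_{(k,i)} ∈ F`.

The points `y_k = (y_{(k,i)})_i ∈ F^{n+1}`: `y_{(k,j)} = 1` (the polynomial relation `X_j - 1 = 0` holds for the germs), so `y_k ≠ 0`.
For `H ∈ p`: `H(a_{(k,·)}(s)) = 0` near `0` because `a_{(k,·)}(s)` is a multiple (by a nonzero factor) of `f(...) ∈ Pts p`, and `p` is
homogeneous; so `aeval y_k H = 0`. `HasValue c x y_k`: `y_{(k,i)} - x_i` is zero or has positive order, so
`x_i y_{(k,i')} - x_{i'} y_{(k,i)} = x_i (y_{(k,i')} - x_{i'}) - x_{i'} (y_{(k,i)} - x_i)` is zero or has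
positive order, and `pord c y_k = 0` (the minimum of the orders of the coordinates: all are `≥ 0` or the coordinate is zero, and `y_{(k,j)} = 1` has
order `0`; look at the lemmas on `pord` in `W603/PV` and `W273/RG/FNW`, such as `pord_le` and the ones used in
`Pool/Agent/H916/Bb.lean`). So the class of `y_k` is in `PMaps p c x`. For `k ≠ l` the classes are different: if
`y_k = λ y_l` then `λ = 1` (coordinate `j`), so `y_{(k,i)} = y_{(l,i)}` for all `i`, so `a_{(k,i)} = a_{(l,i)}` near `0`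
(polynomial relation `X_0 - X_1`), which contradicts `Q_{k,l}(v) ≠ 0` for the `i` chosen above. So
`k ↦ [y_k]` is injective and `PMaps p c x` is infinite.
-/

set_option autoImplicit false
set_option linter.overlappingInstances false
set_option linter.unusedSectionVars false

open MvPolynomial FF Filter Topology Set
open Pool.Agent.W602.RG (HasValue)

namespace Pool.Agent.H917

open G (HolMap IsAb PE)

/-! ### auxiliary lemmas -/

namespace K13aux

/-- the substitution `X a ↦ v a * s` -/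
noncomputable def Sv {g : ℕ} (v : Fin g → ℂ) : MvPolynomial (Fin g) ℂ →ₐ[ℂ] Polynomial ℂ :=
  aeval fun a => Polynomial.C (v a) * Polynomial.X

theorem coeff_Sv {g : ℕ} (v : Fin g → ℂ) (e : ℕ) (q : MvPolynomial (Fin g) ℂ) :
    (Sv v q).coeff e = eval v (homogeneousComponent e q) := by
  induction q using MvPolynomial.induction_on' with
  | monomial m c =>
    have hm : (monomial m c : MvPolynomial (Fin g) ℂ) ∈
        homogeneousSubmodule (Fin g) ℂ m.degree := by
      rw [mem_homogeneousSubmodule]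
      exact isHomogeneous_monomial c rfl
    rw [homogeneousComponent_of_mem hm]
    have h1 : Sv v (monomial m c) =
        Polynomial.C (c * ∏ i ∈ m.support, v i ^ m i) * Polynomial.X ^ m.degree := by
      unfold Sv
      rw [aeval_monomial, Finsupp.prod, Finset.prod_congr rfl fun i _ => mul_pow _ _ _,
        Finset.prod_mul_distrib, Finset.prod_pow_eq_pow_sum, map_mul, map_prod,
        Finset.prod_congr rfl fun i _ => map_pow Polynomial.C (v i) (m i), ← mul_assoc]
      rfl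
    rw [h1, Polynomial.coeff_C_mul, Polynomial.coeff_X_pow]
    split_ifs with h2
    · rw [mul_one, eval_monomial]
      rfl
    · rw [mul_zero, map_zero]
  | add p q hp hq =>
    rw [map_add, Polynomial.coeff_add, hp, hq, map_add, map_add]

theorem eval_Sv {g : ℕ} (v : Fin g → ℂ) (s : ℂ) :
    (Polynomial.evalRingHom s).comp (Sv v : MvPolynomial (Fin g) ℂ →+* Polynomial ℂ) =
      eval (s • v) := by
  apply MvPolynomial.ringHom_ext
  · intro r
    show Polynomial.eval s (Sv v (C r)) = _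
    unfold Sv
    rw [aeval_C, eval_C]
    show Polynomial.eval s (Polynomial.C r) = r
    rw [Polynomial.eval_C]
  · intro i
    show Polynomial.eval s (Sv v (X i)) = _
    unfold Sv
    rw [aeval_X, eval_X, Polynomial.eval_mul, Polynomial.eval_C, Polynomial.eval_X]
    show v i * s = s * v i
    ring

/-- a polynomial whose value at `v` has to be nonzero -/
theorem exists_comp {g : ℕ} {P : Polynomial (MvPolynomial (Fin g) ℂ)} (hP : P ≠ 0) :
    ∃ Q : MvPolynomial (Fin g) ℂ, Q ≠ 0 ∧ ∀ v, eval v Q ≠ 0 →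
      P.map (Sv v : MvPolynomial (Fin g) ℂ →+* Polynomial ℂ) ≠ 0 := by
  obtain ⟨m, hm⟩ : ∃ m, P.coeff m ≠ 0 := by
    by_contra h
    push Not at h
    exact hP (Polynomial.ext fun m => by rw [h m, Polynomial.coeff_zero])
  obtain ⟨e, he⟩ : ∃ e, homogeneousComponent e (P.coeff m) ≠ 0 := by
    by_contra h
    push Not at h
    apply hm
    rw [← sum_homogeneousComponent (P.coeff m)]
    exact Finset.sum_eq_zero fun e _ => h e
  refine ⟨_, he, fun v hv h => hv ?_⟩
  rw [← coeff_Sv]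
  have h1 := congrArg (fun R => (R.coeff m).coeff e) h
  simp only [Polynomial.coeff_map, Polynomial.coeff_zero] at h1
  exact h1

open Pool.Agent.Helper540 in
theorem dirD_poly {g : ℕ} {δ : (Fin g → ℂ) → ℂ} {s : Set (Fin g → ℂ)} (hs : IsOpen s)
    (hδ : DifferentiableOn ℂ δ s) (m : ℕ) : ∃ c : (Fin m → Fin g) → (Fin g → ℂ) → ℂ,
      (∀ i, DifferentiableOn ℂ (c i) s) ∧ ∀ v, ∀ z ∈ s,
        dirD δ v m z = ∑ i, (∏ j, v (i j)) * c i z := by
  induction m with
  | zero =>
    refine ⟨fun _ => δ, fun _ => hδ, fun v z _ => ?_⟩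
    simp [dirD]
  | succ m ih =>
    obtain ⟨c, hc, h⟩ := ih
    refine ⟨fun i z => fderiv ℂ (c (Fin.tail i)) z (Pi.single (i 0) 1),
      fun i => differentiableOn_fderiv_apply hs (hc _) _, fun v z hz => ?_⟩
    have h1 : dirD δ v m =ᶠ[𝓝 z] fun w => ∑ i, (∏ j, v (i j)) * c i w := by
      filter_upwards [hs.mem_nhds hz] with w hw using h v w hw
    have h2 : ∀ i, DifferentiableAt ℂ (c i) z := fun i =>
      (hc i).differentiableAt (hs.mem_nhds hz)
    have h3 : HasFDerivAt (fun w => ∑ i, (∏ j, v (i j)) * c i w)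
        (∑ i : Fin m → Fin g, (∏ j, v (i j)) • fderiv ℂ (c i) z) z := by
      have := HasFDerivAt.fun_sum (u := Finset.univ) fun (i : Fin m → Fin g) _ =>
        ((h2 i).hasFDerivAt.const_mul (∏ j, v (i j)))
      exact this
    show fderiv ℂ (dirD δ v m) z v = _
    rw [h1.fderiv_eq, h3.fderiv, sum_apply]
    have h4 : ∀ i, fderiv ℂ (c i) z v = ∑ a, v a * fderiv ℂ (c i) z (Pi.single a 1) := by
      intro i
      conv_lhs => rw [← Finset.univ_sum_single v]
      rw [map_sum]
      refine Finset.sum_congr rfl fun a _ => ?_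
      have h5 : (Pi.single a (v a) : Fin g → ℂ) = v a • Pi.single a 1 := by
        rw [← Pi.single_smul, smul_eq_mul, mul_one]
      rw [h5, map_smul, smul_eq_mul]
    rw [← (Fin.consEquiv fun _ => Fin g).sum_comp, Fintype.sum_prod_type, Finset.sum_comm]
    refine Finset.sum_congr rfl fun i _ => ?_
    rw [smul_apply, h4, smul_eq_mul, Finset.mul_sum]
    refine Finset.sum_congr rfl fun a _ => ?_
    have h6 : Fin.tail ((Fin.consEquiv fun _ => Fin g) (a, i)) = i := by
      funext j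
      rfl
    beta_reduce
    rw [h6, Fin.prod_univ_succ]
    simp only [Fin.consEquiv_apply, Fin.cons_zero, Fin.cons_succ]
    ring

open Pool.Agent.Helper540 in
/-- a variant of K6c for functions which are differentiable -/
theorem exists_dir {g : ℕ} {δ : (Fin g → ℂ) → ℂ} (h : ∀ᶠ x in 𝓝 0, DifferentiableAt ℂ δ x)
    (hne : ¬ ∀ᶠ x in 𝓝 0, δ x = 0) :
    ∃ Q : MvPolynomial (Fin g) ℂ, Q ≠ 0 ∧ ∀ v, eval v Q ≠ 0 →
      ¬ ∀ᶠ s in 𝓝 (0 : ℂ), δ (s • v) = 0 := by
  obtain ⟨R, hR, hb⟩ := Metric.eventually_nhds_iff_ball.1 h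
  have hd : DifferentiableOn ℂ δ (Metric.ball 0 R) := fun x hx =>
    (hb x hx).differentiableWithinAt
  have h0 : (0 : Fin g → ℂ) ∈ Metric.ball 0 R := Metric.mem_ball_self hR
  have hQ : ∀ m, ∃ Q : MvPolynomial (Fin g) ℂ, ∀ v, eval v Q = dirD δ v m 0 := by
    intro m
    obtain ⟨c, -, hc⟩ := dirD_poly Metric.isOpen_ball hd m
    refine ⟨∑ i : Fin m → Fin g, (∏ j, X (i j)) * C (c i 0), fun v => ?_⟩
    rw [hc v 0 h0, map_sum]
    refine Finset.sum_congr rfl fun i _ => ?_
    rw [map_mul, map_prod, eval_C]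
    simp only [eval_X]
  choose Q hQ using hQ
  by_cases hz : ∃ m, Q m ≠ 0
  · obtain ⟨m, hm⟩ := hz
    refine ⟨Q m, hm, fun v hv hcon => hv ?_⟩
    rw [hQ]
    apply dirD_zero_of_zero Metric.isOpen_ball hd h0
    simpa only [zero_add] using hcon
  · exfalso
    push Not at hz
    apply hne
    filter_upwards [Metric.ball_mem_nhds (0 : Fin g → ℂ) (half_pos hR)] with x hx
    have hx' : ‖x‖ < R / 2 := mem_ball_zero_iff.1 hx
    have hsub : Metric.ball (0 : ℂ) 2 ⊆ {t : ℂ | (0 : Fin g → ℂ) + t • x ∈ Metric.ball 0 R} := by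
      intro t ht
      rw [mem_ball_zero_iff] at ht
      show (0 : Fin g → ℂ) + t • x ∈ Metric.ball 0 R
      rw [zero_add, mem_ball_zero_iff, norm_smul]
      nlinarith [norm_nonneg t, norm_nonneg x]
    have h1 := Complex.hasSum_taylorSeries_on_ball ((line_diff hd 0 x).mono hsub)
      (show (1 : ℂ) ∈ Metric.ball 0 2 by
        rw [mem_ball_zero_iff, norm_one]
        norm_num)
    have h2 : ∀ n : ℕ, iteratedDeriv n (fun t : ℂ => δ (0 + t • x)) 0 = 0 := by
      intro n
      rw [iteratedDeriv_dirD Metric.isOpen_ball hd 0 x n 0 (by simpa using hR), zero_smul,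
        zero_add, ← hQ, hz, map_zero]
    simp only [h2, smul_zero] at h1
    have h3 := h1.unique hasSum_zero
    rwa [one_smul, zero_add] at h3

section germs

open G (HolMap IsAb PE lf)

variable {g N : ℕ}

/-- the quotients of the coordinates are differentiable -/
theorem quot_diff {f : (Fin g → ℂ) → Fin N → ℂ} (hol : HolMap univ f) {b : Fin g → ℂ} {j : Fin N}
    (hj : f b j ≠ 0) : ∀ᶠ w in 𝓝 b, f w j ≠ 0 ∧
      ∀ i, DifferentiableAt ℂ (fun w => f w i / f w j) w := by
  obtain ⟨h, hh0, hh⟩ := hol b (mem_univ b)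
  have hb := hh.self_of_nhds
  have hbj : h b j ≠ 0 := (hb.2.ne_iff j).1 hj
  have hc : ContinuousAt (fun w => h w j) b :=
    (continuous_apply j).continuousAt.comp hb.1.continuousAt
  have h1 : ∀ᶠ w in 𝓝 b, h w j ≠ 0 := hc.eventually_ne hbj
  filter_upwards [hh.eventually_nhds, h1.eventually_nhds] with w hw hw1
  have hw' := hw.self_of_nhds
  have hw1' := hw1.self_of_nhds
  refine ⟨(hw'.2.ne_iff j).2 hw1', fun i => ?_⟩
  have h2 : (fun w => f w i / f w j) =ᶠ[𝓝 w] fun w => h w i / h w j := by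
    filter_upwards [hw] with x hx
    exact hx.2.div_eq j i
  have h3 : ∀ i, DifferentiableAt ℂ (fun w => h w i) w := fun i =>
    (differentiableAt_pi.1 hw'.1) i
  have h4 : DifferentiableAt ℂ ((fun w => h w i) * (fun w => h w j)⁻¹) w :=
    (h3 i).mul ((h3 j).inv hw1')
  refine h4.congr_of_eventuallyEq (h2.trans (Eventually.of_forall fun x => ?_))
  exact div_eq_mul_inv _ _

theorem germs {Λ : AddSubgroup (Fin g → ℂ)} (hΛ : IsAb Λ) {f : (Fin g → ℂ) → Fin N → ℂ}
    (hol : HolMap univ f) (hper : ∀ z, ∀ l ∈ Λ, PE (f (z + l)) (f z))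
    (hne : ∃ z w, ¬ PE (f z) (f w)) {b : Fin g → ℂ} {j : Fin N} (hj : f b j ≠ 0) :
    ∃ (a : ℕ × Fin N → ℂ → ℂ) (w : ℕ → ℂ → (Fin g → ℂ)),
      (∀ i, AnalyticAt ℂ (a i) 0) ∧ (∀ k i s, a (k, i) s = f (w k s) i / f (w k s) j) ∧
      (∀ k, w k 0 = b) ∧ (∀ k, ∀ᶠ s in 𝓝 (0 : ℂ), f (w k s) j ≠ 0) ∧
      (∃ d : ℕ, ∀ c : (ℕ × Fin N) →₀ ℕ, ∃ P : Polynomial (Polynomial ℂ), P ≠ 0 ∧
        P.natDegree ≤ d ∧ ∀ᶠ s in 𝓝 (0 : ℂ),
          (P.map (Polynomial.evalRingHom s)).eval (c.sum fun i n => (n : ℂ) * a i s) = 0) ∧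
      ∀ k l, k ≠ l → ∃ i, ¬ ∀ᶠ s in 𝓝 (0 : ℂ), a (k, i) s = a (l, i) s := by
  classical
  obtain ⟨M, θ, L, L0, ζ, u, hθ, hθp, hζ0, hu0, huc, hζu, hζ⟩ := G.exists_coord hΛ
  obtain ⟨d, hd⟩ := G.comb_rel hΛ.cocp hθ hθp L L0
  -- the maps `φ`
  obtain ⟨φ, hφ⟩ : ∃ φ : ℕ → Fin N → (Fin g → ℂ) → ℂ, ∀ k i z, φ k i z =
      f (b + ((k : ℂ) + 1) • z) i / f (b + ((k : ℂ) + 1) • z) j := ⟨_, fun _ _ _ => rfl⟩
  have hlin : ∀ k : ℕ, Tendsto (fun z : Fin g → ℂ => b + ((k : ℂ) + 1) • z) (𝓝 0) (𝓝 b) := by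
    intro k
    have h1 : Continuous fun z : Fin g → ℂ => b + ((k : ℂ) + 1) • z := by fun_prop
    have h2 := h1.tendsto 0
    rwa [smul_zero, add_zero] at h2
  have hφd : ∀ k : ℕ, ∀ᶠ z in 𝓝 0, f (b + ((k : ℂ) + 1) • z) j ≠ 0 ∧
      ∀ i, DifferentiableAt ℂ (φ k i) z := by
    intro k
    filter_upwards [(hlin k).eventually (quot_diff hol hj)] with z hz
    refine ⟨hz.1, fun i => ?_⟩
    have h1 : φ k i = (fun w => f w i / f w j) ∘ fun z : Fin g → ℂ => b + ((k : ℂ) + 1) • z := by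
      funext z
      exact hφ k i z
    rw [h1]
    exact (hz.2 i).comp z (by fun_prop)
  have hζc : Tendsto ζ (𝓝 0) (𝓝 0) := by
    have h1 := hζ.self_of_nhds.1.continuousAt.tendsto
    rwa [hζ0] at h1
  -- the maps `δ`
  have hδd : ∀ k : ℕ, ∀ᶠ x in 𝓝 0, f (b + ((k : ℂ) + 1) • ζ x) j ≠ 0 ∧
      ∀ i, DifferentiableAt ℂ (fun x => φ k i (ζ x)) x := by
    intro k
    filter_upwards [hζc.eventually (hφd k), hζ] with x hx hx1
    exact ⟨hx.1, fun i => (hx.2 i).comp x hx1.1⟩
  -- polynomials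
  choose r P hP0 hPd hP using fun c => hd N f hol hper b j c
  choose Q1 hQ1 hQ1' using fun c => exists_comp (hP0 c)
  have hdiff : ∀ k l : ℕ, k ≠ l → ∃ i, ∃ Q : MvPolynomial (Fin g) ℂ, Q ≠ 0 ∧ ∀ v, eval v Q ≠ 0 →
      ¬ ∀ᶠ s in 𝓝 (0 : ℂ), φ k i (ζ (s • v)) - φ l i (ζ (s • v)) = 0 := by
    intro k l hkl
    obtain ⟨i, hi⟩ := G.exists_ne hol hne hj hkl
    refine ⟨i, ?_⟩
    apply exists_dir (δ := fun x => φ k i (ζ x) - φ l i (ζ x))
    · filter_upwards [hδd k, hδd l] with x h1 h2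
      exact (h1.2 i).sub (h2.2 i)
    · intro h
      apply hi
      have hu : Tendsto u (𝓝 0) (𝓝 0) := by
        have h1 := huc.tendsto
        rwa [hu0] at h1
      filter_upwards [hu.eventually h, hζu] with z h1 h2
      rw [h2, hφ, hφ] at h1
      exact sub_eq_zero.1 h1
  choose i2 Q2 hQ2 hQ2' using hdiff
  obtain ⟨v, hv⟩ := G.exists_generic
    (ι := ((ℕ × Fin N) →₀ ℕ) ⊕ {kl : ℕ × ℕ // kl.1 ≠ kl.2})
    (fun x => Sum.elim Q1 (fun kl : {kl : ℕ × ℕ // kl.1 ≠ kl.2} => Q2 kl.1.1 kl.1.2 kl.2) x) (by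
      rintro (c | kl)
      · exact hQ1 c
      · exact hQ2 _ _ kl.2)
  have hsv : Tendsto (fun s : ℂ => s • v) (𝓝 0) (𝓝 0) := by
    have h1 : Continuous fun s : ℂ => s • v := by fun_prop
    have h2 := h1.tendsto 0
    rwa [zero_smul] at h2
  refine ⟨fun ki s => φ ki.1 ki.2 (ζ (s • v)), fun k s => b + ((k : ℂ) + 1) • ζ (s • v),
    ?_, fun k i s => hφ k i _, ?_, ?_, ⟨d, fun c => ?_⟩, fun k l hkl => ?_⟩
  · rintro ⟨k, i⟩
    rw [Complex.analyticAt_iff_eventually_differentiableAt]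
    filter_upwards [hsv.eventually (hδd k)] with s hs
    have h1 := hs.2 i
    exact DifferentiableAt.comp (f := fun s : ℂ => s • v) s h1 (by fun_prop)
  · intro k
    simp [hζ0]
  · intro k
    filter_upwards [hsv.eventually (hδd k)] with s hs
    exact hs.1
  · refine ⟨(P c).map (Sv v : MvPolynomial (Fin g) ℂ →+* Polynomial ℂ), hQ1' c v (hv (Sum.inl c)),
      Polynomial.natDegree_map_le.trans (hPd c), ?_⟩
    have h1 : ∀ᶠ s in 𝓝 (0 : ℂ), ∀ k ∈ Finset.range (r c),
        f (b + ((k : ℂ) + 1) • ζ (s • v)) j ≠ 0 := by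
      rw [Filter.eventually_all_finset]
      intro k _
      filter_upwards [hsv.eventually (hδd k)] with s hs using hs.1
    filter_upwards [h1, hsv.eventually hζ] with s h2 h3
    rw [Polynomial.map_map, eval_Sv]
    have h4 := hP c (s • v) (ζ (s • v)) h3.2.2 h3.2.1 fun k hk => h2 k (Finset.mem_range.2 hk)
    rw [← h4]
    congr 1
    refine Finset.sum_congr rfl fun x _ => ?_
    beta_reduce
    rw [hφ]
  · refine ⟨i2 k l hkl, fun h => hQ2' k l hkl v (hv (Sum.inr ⟨(k, l), hkl⟩)) ?_⟩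
    filter_upwards [h] with s hs
    exact sub_eq_zero.2 hs

end germs

end K13aux

variable {n : ℕ} {p : Ideal (MvPolynomial (Fin (n + 1)) ℂ)}

theorem ab_pointed (hp : Pool.Agent.W603.PV.IsHomog p) {g : ℕ} {Λ : AddSubgroup (Fin g → ℂ)}
    {f : (Fin g → ℂ) → Fin (n + 1) → ℂ} (hf : AbMap p g Λ f)
    {G : MvPolynomial (Fin (n + 1)) ℂ} (hG : ∃ d, G.IsHomogeneous d)
    (hGf : ∃ z, eval (f z) G ≠ 0) :
    ∃ (F : Type) (_ : Field F) (_ : Algebra ℂ F) (_ : IsFF ℂ F) (c : Place ℂ F)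
      (x : Fin (n + 1) → ℂ), x ∈ Pts p ∧ eval x G ≠ 0 ∧ (PMaps p c x).Infinite := by
  classical
  obtain ⟨hΛ, hol, hper, hpts, hne⟩ := hf
  obtain ⟨b, hb⟩ := hGf
  obtain ⟨j, hj⟩ := Function.ne_iff.1 (hpts b).1
  have hj : f b j ≠ 0 := hj
  obtain ⟨a, w, ha, haw, hw0, hwj, ⟨d, hrel⟩, hdist⟩ := K13aux.germs hΛ hol hper hne hj
  obtain ⟨F, iF, iA, iFF, c, y, hy1, hy2⟩ :=
    _root_.Pool.Agent.H917.G.exists_ff (ℕ × Fin (n + 1)) a ha d hrel
  have hscale : ∀ (z : Fin g → ℂ) (c : ℂ), ∀ H ∈ p, eval (fun i => c * f z i) H = 0 := by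
    intro z c H hH
    have h1 : ∀ H ∈ p, aeval (fun i => c * f z i) H = 0 := by
      refine H7aux_forms hp fun H hH hd => ?_
      obtain ⟨e, he⟩ := hd
      rw [Pool.Agent.W603.PV.aeval_scale he, aeval_eq_eval, (hpts z).2 H hH, mul_zero]
    have h2 := h1 H hH
    rwa [aeval_eq_eval] at h2
  obtain ⟨x, hx⟩ : ∃ x : Fin (n + 1) → ℂ, x = fun i => (f b j)⁻¹ * f b i := ⟨_, rfl⟩
  have hxa : ∀ k i, a (k, i) 0 = x i := by
    intro k i
    rw [haw, hw0, hx, div_eq_inv_mul]
  have hxj : x j = 1 := by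
    rw [hx]
    exact inv_mul_cancel₀ hj
  refine ⟨F, iF, iA, iFF, c, x, ⟨?_, ?_⟩, ?_, ?_⟩
  · intro h
    rw [h, Pi.zero_apply] at hxj
    exact zero_ne_one hxj
  · intro H hH
    rw [hx]
    exact hscale b _ H hH
  · obtain ⟨e, he⟩ := hG
    have h1 := Pool.Agent.W603.PV.aeval_scale he (f b) (f b j)⁻¹
    rw [aeval_eq_eval, aeval_eq_eval] at h1
    rw [hx, h1]
    exact mul_ne_zero (pow_ne_zero _ (inv_ne_zero hj)) hb
  · have hyj : ∀ k, y (k, j) = 1 := by
      intro k
      have h1 := (hy1 1 (fun _ => (k, j)) (X 0 - 1)).2 ?_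
      · rw [map_sub, map_one, aeval_X] at h1
        exact sub_eq_zero.1 h1
      · filter_upwards [hwj k] with s hs
        rw [map_sub, map_one, eval_X, haw, div_self hs, sub_self]
    have hyH : ∀ k, ∀ H ∈ p, aeval (fun i => y (k, i)) H = 0 := by
      intro k H hH
      refine (hy1 (n + 1) (fun i => (k, i)) H).2 ?_
      filter_upwards [hwj k] with s hs
      have h1 : (fun i => a (k, i) s) = fun i => (f (w k s) j)⁻¹ * f (w k s) i := by
        funext i
        rw [haw, div_eq_inv_mul]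
      rw [h1]
      exact hscale _ _ H hH
    have hy0 : ∀ k, (fun i => y (k, i)) ≠ 0 := by
      intro k h
      have h1 := congrFun h j
      beta_reduce at h1
      rw [hyj, Pi.zero_apply] at h1
      exact one_ne_zero h1
    have hyv : ∀ k, HasValue c x fun i => y (k, i) := by
      intro k i i'
      have hge : ∀ i, Pool.Agent.W603.LV.Ge c 1 (y (k, i) - algebraMap ℂ F (x i)) := by
        intro i
        rcases hy2 (k, i) with h1 | h1
        · left
          rw [h1, hxa, sub_self]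
        · right
          rw [hxa] at h1
          omega
      have e : algebraMap ℂ F (x i) * y (k, i') - algebraMap ℂ F (x i') * y (k, i) =
          algebraMap ℂ F (x i) * (y (k, i') - algebraMap ℂ F (x i')) -
            algebraMap ℂ F (x i') * (y (k, i) - algebraMap ℂ F (x i)) := by ring
      have h1 : Pool.Agent.W603.LV.Ge c 1
          (algebraMap ℂ F (x i) * y (k, i') - algebraMap ℂ F (x i') * y (k, i)) := by
        rw [e]
        have h2 := (Pool.Agent.W603.LV.Ge.const (P := c) (x i)).mul (hge i')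
        have h3 := (Pool.Agent.W603.LV.Ge.const (P := c) (x i')).mul (hge i)
        rw [zero_add] at h2 h3
        exact h2.sub h3
      rcases h1 with h1 | h1
      · left
        exact h1
      · right
        have h4 : (fun i => y (k, i)) j ≠ 0 := by
          beta_reduce
          rw [hyj]
          exact one_ne_zero
        have h5 := Pool.Agent.W603.PV.pord_le c (f := fun i => y (k, i)) h4
        beta_reduce at h5
        rw [hyj, c.ord_one] at h5
        beta_reduce
        omega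
    refine Set.infinite_of_injective_forall_mem
      (f := fun k : ℕ => Projectivization.mk F (fun i => y (k, i)) (hy0 k)) ?_ fun k =>
        ⟨_, hy0 k, hyH k, hyv k, rfl⟩
    intro k l hkl
    by_contra hne2
    obtain ⟨i, hi⟩ := hdist k l hne2
    apply hi
    beta_reduce at hkl
    rw [Projectivization.mk_eq_mk_iff'] at hkl
    obtain ⟨t, ht⟩ := hkl
    have h1 := congrFun ht j
    simp only [Pi.smul_apply, smul_eq_mul, hyj, mul_one] at h1
    have h2 := congrFun ht i
    simp only [Pi.smul_apply, smul_eq_mul, h1, one_mul] at h2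
    have h3 := (hy1 2 ![(k, i), (l, i)] (X 0 - X 1)).1 (by
      rw [map_sub, aeval_X, aeval_X]
      simp [h2])
    filter_upwards [h3] with s hs
    rw [map_sub, eval_X, eval_X] at hs
    simpa [sub_eq_zero] using hs

end Pool.Agent.H917
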