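import Pool.Agent.H917.G.V0

/-!
# PROJECT ABCURVES (helper917), task K6a: good local lifts of periodic holomorphic maps to projective space

`PE x y`: the vectors are proportional with a nonzero factor (`G0`). `HolMap univ F`: near every point `F` is
proportional to a holomorphic vector function without zeros (`V0`).

## Paper proof
Notation `⟨x, y⟩ = ∑ x_i conj(y_i)`, `|x|² = ∑ ‖x_i‖²`.
Local version: for every `z0` there are `r > 0` and `C` such that for all `a ∈ B(z0, r)` there is `h` on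
`B(a, r)` as wanted. Indeed let `k` be a local lift of `F` near `z0`: holomorphic (differentiable at all points) and proportional
to `F` on `B(z0, 4r)`, without zeros (`k z0 ≠ 0` and continuity; shrink `r`), and bounded with bounded derivative there, so
that `|k(z) - k(a)| ≤ M |z - a|` for `a, z ∈ B(z0, 2r)` (Lipschitz: `k` is differentiable on an open set of `ℂ^g`, hence
continuously differentiable there (finite dimensional complex analysis: Mathlib `DifferentiableOn.contDiffOn` is only for functions of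
one variable; for `Fin g → ℂ` the library `Pool.Agent.H917.G` files (`U0`, `U1`, `T1` ...) or Osgood's lemma may have what is
needed; alternatively get the Lipschitz bound from the one-variable Cauchy estimate along the complex line through `a` and `z`:
`t ↦ k(a + t (z - a)/|z-a|)` is holomorphic and bounded on a disc of radius `r`)). Let `c0 > 0` be a lower
bound of `|k|` on `B(z0, 2r)`. For `a ∈ B(z0, r)` put `e = k(a)/|k(a)|` and
`h(z) = k(z)/⟨k(z), e⟩`, defined when `⟨k(z), e⟩ ≠ 0`; as `⟨k(a), e⟩ = |k(a)| ≥ c0` and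
`|⟨k(z), e⟩ - ⟨k(a), e⟩| ≤ |k(z) - k(a)| ≤ M |z - a|`, this is `≥ c0/2` in absolute value for `|z - a| ≤ c0/(2M)`. On
`B(a, r')`, `r' = min(r, c0/(2M))`, `h` is holomorphic, proportional to `F`, and `⟨h(z), e⟩ = 1`, `h(a) = e`. So by
Pythagoras `|h(z)|² = 1 + |h(z) - e|²`, and `|h(z) - e| = |h(z) - h(a)| ≤ C' |z - a|` with a constant `C'`
depending only on `M`, `c0` and the upper bound of `|k|`. This gives the claim with `C = C'^2`.

Global version: the closed ball `{‖z‖ ≤ B}` (`B` from the cocompactness) is compact, and it is covered by finitely many of the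
balls `B(z0, r(z0))`; take the minimum `ρ` of the `r`'s and the maximum of the `C`'s. For an arbitrary `a` take `l ∈ Λ` with
`‖a - l‖ ≤ B` and translate: `h(z) = h_{a - l}(z - l)`.
-/

set_option autoImplicit false
set_option linter.overlappingInstances false
set_option linter.unusedSectionVars false

open Filter Topology Set Metric

namespace Pool.Agent.H917.G

namespace K6aaux

/-- the euclidean vector -/
noncomputable def ev {N : ℕ} (x : Fin N → ℂ) : EuclideanSpace ℂ (Fin N) := WithLp.toLp 2 x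

theorem ev_sq {N : ℕ} (x : Fin N → ℂ) : ‖ev x‖ ^ 2 = ∑ i, ‖x i‖ ^ 2 := by
  rw [EuclideanSpace.norm_sq_eq]
  rfl

theorem ev_diff {N : ℕ} : Differentiable ℂ (ev : (Fin N → ℂ) → EuclideanSpace ℂ (Fin N)) :=
  (PiLp.continuousLinearEquiv 2 ℂ (fun _ : Fin N => ℂ)).symm.differentiable

theorem ev_smul {N : ℕ} (c : ℂ) (x : Fin N → ℂ) : ev (c • x) = c • ev x := rfl

theorem lagr {E : Type} [NormedAddCommGroup E] [InnerProductSpace ℂ E] (u v : E) :
    ‖u‖ ^ 2 * ‖v‖ ^ 2 - ‖inner ℂ u v‖ ^ 2 ≤ ‖u‖ ^ 2 * ‖v - u‖ ^ 2 := by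
  have h1 : ‖v - u‖ ^ 2 = ‖v‖ ^ 2 - 2 * (inner ℂ v u).re + ‖u‖ ^ 2 := by
    have := @norm_sub_sq ℂ E _ _ _ v u
    simpa using this
  have h2 : (inner ℂ v u).re = (inner ℂ u v).re := by
    rw [← inner_conj_symm, Complex.conj_re]
  have h3 : ‖inner ℂ u v‖ ^ 2 = (inner ℂ u v).re ^ 2 + (inner ℂ u v).im ^ 2 := by
    rw [← Complex.normSq_eq_norm_sq, Complex.normSq_apply]
    ring
  rw [h1, h2, h3]
  nlinarith [sq_nonneg ((inner ℂ u v).re - ‖u‖ ^ 2), sq_nonneg (inner ℂ u v).im]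

theorem gauge_local {g N : ℕ} {F : (Fin g → ℂ) → Fin N → ℂ} (hF : HolMap univ F)
    (z0 : Fin g → ℂ) :
    ∃ ρ > 0, ∃ C : ℝ, 0 ≤ C ∧ ∀ a ∈ ball z0 ρ, ∃ h : (Fin g → ℂ) → Fin N → ℂ,
      ∀ z ∈ ball a ρ, DifferentiableAt ℂ h z ∧ PE (F z) (h z) ∧
        1 ≤ ∑ i, ‖h z i‖ ^ 2 ∧ ∑ i, ‖h z i‖ ^ 2 ≤ 1 + C * ‖z - a‖ ^ 2 := by
  obtain ⟨k, hk0, hk⟩ := hF z0 (mem_univ _)
  have hkc : ContinuousAt k z0 := (hk.self_of_nhds).1.continuousAt
  have hev : Continuous (ev : (Fin N → ℂ) → EuclideanSpace ℂ (Fin N)) := by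
    unfold ev
    fun_prop
  have hKc : ContinuousAt (fun z => ev (k z)) z0 := hev.continuousAt.comp hkc
  have hK0 : 0 < ‖ev (k z0)‖ := by
    rw [norm_pos_iff]
    intro h
    apply hk0
    have : WithLp.ofLp (ev (k z0)) = 0 := by rw [h]; rfl
    exact this
  set m := ‖ev (k z0)‖ with hm
  have hball : ∀ᶠ z in 𝓝 z0, dist (ev (k z)) (ev (k z0)) < m / 2 :=
    (Metric.tendsto_nhds.1 hKc) (m / 2) (by linarith)
  obtain ⟨R, hR, hRb⟩ := Metric.eventually_nhds_iff_ball.1 (hk.and hball)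
  have hKd : DifferentiableOn ℂ (fun z => ev (k z)) (ball z0 R) := by
    intro z hz
    have h1 := (hRb z hz).1.1
    exact ((ev_diff _).comp z h1).differentiableWithinAt
  have lip : ∀ a ∈ ball z0 (R / 2), ∀ z ∈ ball a (R / 2),
      ‖ev (k z) - ev (k a)‖ ≤ (2 * m / R) * ‖z - a‖ := by
    intro a ha z hz
    have hsub : ball a (R / 2) ⊆ ball z0 R := by
      intro w hw
      have h1 := mem_ball.1 hw
      have h2 := mem_ball.1 ha
      have h3 := dist_triangle w a z0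
      exact mem_ball.2 (by linarith)
    have h1 := Complex.dist_le_div_mul_dist_of_mapsTo_ball (R₂ := m) (hKd.mono hsub) (by
      intro w hw
      have h2 := (hRb w (hsub hw)).2
      have h3 := (hRb a (hsub (mem_ball_self (by linarith)))).2
      rw [mem_closedBall]
      have h4 := dist_triangle_right (ev (k w)) (ev (k a)) (ev (k z0))
      linarith) hz
    rw [dist_eq_norm, dist_eq_norm] at h1
    have h2 : m / (R / 2) = 2 * m / R := by field_simp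
    rw [h2] at h1
    exact h1
  set L := 2 * m / R with hL
  have hLpos : 0 < L := by positivity
  refine ⟨min (R / 2) (m / (4 * L)), lt_min (by linarith) (by positivity),
    4 * L ^ 2 / (m / 2) ^ 2, by positivity, ?_⟩
  intro a ha
  have haR : a ∈ ball z0 (R / 2) := ball_subset_ball (min_le_left _ _) ha
  have hae := hRb a (ball_subset_ball (by linarith) haR)
  have hau : m / 2 ≤ ‖ev (k a)‖ := by
    have h1 := hae.2
    rw [dist_eq_norm] at h1
    have h2 := norm_sub_norm_le (ev (k z0)) (ev (k a))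
    rw [← norm_neg, neg_sub] at h1
    linarith
  set u := ev (k a) with hu
  have hupos : 0 < ‖u‖ := by linarith
  refine ⟨fun z => ((‖u‖ : ℂ) / inner ℂ u (ev (k z))) • k z, ?_⟩
  intro z hz
  have hzR : z ∈ ball a (R / 2) := ball_subset_ball (min_le_left _ _) hz
  have hz2 : ‖z - a‖ < m / (4 * L) := by
    have := ball_subset_ball (min_le_right (R / 2) (m / (4 * L))) hz
    rwa [mem_ball, dist_eq_norm] at this
  have hlip := lip a haR z hzR
  have hzball : z ∈ ball z0 R := by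
    have h1 := mem_ball.1 hzR
    have h2 := mem_ball.1 haR
    have h3 := dist_triangle z a z0
    exact mem_ball.2 (by linarith)
  obtain ⟨⟨hkd, hpe⟩, -⟩ := hRb z hzball
  have hd : ‖ev (k z) - u‖ ≤ ‖u‖ / 2 := by
    have h1 : L * ‖z - a‖ ≤ L * (m / (4 * L)) := mul_le_mul_of_nonneg_left hz2.le hLpos.le
    have h2 : L * (m / (4 * L)) = m / 4 := by field_simp
    linarith
  set v := ev (k z) with hv
  have hin : ‖u‖ ^ 2 / 2 ≤ ‖inner ℂ u v‖ := by
    have h1 : inner ℂ u v = inner ℂ u u + inner ℂ u (v - u) := by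
      rw [← inner_add_right]
      congr 1
      abel
    have h2 : ‖inner ℂ u (v - u)‖ ≤ ‖u‖ * ‖v - u‖ := norm_inner_le_norm _ _
    have h3 : ‖(inner ℂ u u : ℂ)‖ = ‖u‖ ^ 2 := by
      rw [inner_self_eq_norm_sq_to_K]
      simp
    have h4 : ‖(inner ℂ u u : ℂ)‖ ≤ ‖inner ℂ u v‖ + ‖inner ℂ u (v - u)‖ := by
      have : (inner ℂ u u : ℂ) = inner ℂ u v - inner ℂ u (v - u) := by rw [h1]; ring
      rw [this]
      exact norm_sub_le _ _
    have h5 : ‖u‖ * ‖v - u‖ ≤ ‖u‖ * (‖u‖ / 2) := mul_le_mul_of_nonneg_left hd hupos.le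
    nlinarith
  have hinpos : 0 < ‖inner ℂ u v‖ := by
    have : 0 < ‖u‖ ^ 2 := by positivity
    linarith
  have hin0 : inner ℂ u v ≠ 0 := norm_pos_iff.1 hinpos
  have hsum : ∑ i, ‖(((‖u‖ : ℂ) / inner ℂ u v) • k z) i‖ ^ 2
      = ‖u‖ ^ 2 * ‖v‖ ^ 2 / ‖inner ℂ u v‖ ^ 2 := by
    rw [← ev_sq, ev_smul, norm_smul, norm_div, Complex.norm_real, norm_norm, mul_pow, div_pow]
    ring
  refine ⟨?_, ?_, ?_, ?_⟩
  · have h1 : DifferentiableAt ℂ (fun z => (inner ℂ u (ev (k z)) : ℂ)) z := by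
      have h2 : DifferentiableAt ℂ (fun z => ev (k z)) z := (ev_diff _).comp z hkd
      exact (innerSL ℂ u).differentiableAt.comp z h2
    have h2 : DifferentiableAt ℂ (fun z => (‖u‖ : ℂ) / (inner ℂ u (ev (k z)) : ℂ)) z := by
      have h3 : DifferentiableAt ℂ ((fun z => (inner ℂ u (ev (k z)) : ℂ))⁻¹) z :=
        DifferentiableAt.inv h1 hin0
      have h4 := (differentiableAt_const (x := z) (‖u‖ : ℂ)).mul h3
      refine h4.congr_of_eventuallyEq (Eventually.of_forall fun w => ?_)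
      simp [div_eq_mul_inv]
    exact h2.smul hkd
  · obtain ⟨c, hc, hc'⟩ := hpe
    have hne : ((‖u‖ : ℂ) / inner ℂ u v) ≠ 0 :=
      div_ne_zero (by exact_mod_cast hupos.ne') hin0
    refine PE.trans ⟨c, hc, hc'⟩ (PE.symm ⟨_, hne, fun i => rfl⟩)
  · show 1 ≤ ∑ i, ‖(((‖u‖ : ℂ) / inner ℂ u v) • k z) i‖ ^ 2
    rw [hsum, le_div_iff₀ (by positivity), one_mul, ← mul_pow]
    exact pow_le_pow_left₀ (norm_nonneg _) (norm_inner_le_norm _ _) 2
  · show ∑ i, ‖(((‖u‖ : ℂ) / inner ℂ u v) • k z) i‖ ^ 2 ≤ _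
    rw [hsum]
    have h1 := lagr u v
    have h2 : ‖u‖ ^ 2 * ‖v‖ ^ 2 / ‖inner ℂ u v‖ ^ 2
        ≤ 1 + ‖u‖ ^ 2 * ‖v - u‖ ^ 2 / ‖inner ℂ u v‖ ^ 2 := by
      rw [div_le_iff₀ (by positivity), add_mul, one_mul, div_mul_cancel₀ _ (by positivity)]
      linarith
    have h3 : ‖u‖ ^ 2 * ‖v - u‖ ^ 2 / ‖inner ℂ u v‖ ^ 2
        ≤ ‖u‖ ^ 2 * ‖v - u‖ ^ 2 / (‖u‖ ^ 2 / 2) ^ 2 := by
      apply div_le_div_of_nonneg_left (by positivity) (by positivity)
      exact pow_le_pow_left₀ (by positivity) hin 2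
    have h4 : ‖u‖ ^ 2 * ‖v - u‖ ^ 2 / (‖u‖ ^ 2 / 2) ^ 2 = 4 * ‖v - u‖ ^ 2 / ‖u‖ ^ 2 := by
      field_simp
      ring
    have h5 : 4 * ‖v - u‖ ^ 2 / ‖u‖ ^ 2 ≤ 4 * (L * ‖z - a‖) ^ 2 / (m / 2) ^ 2 := by
      apply div_le_div₀ (by positivity)
      · have := pow_le_pow_left₀ (norm_nonneg _) hlip 2
        linarith
      · positivity
      · exact pow_le_pow_left₀ (by positivity) hau 2
    have h6 : 4 * (L * ‖z - a‖) ^ 2 / (m / 2) ^ 2 = 4 * L ^ 2 / (m / 2) ^ 2 * ‖z - a‖ ^ 2 := by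
      ring
    linarith

end K6aaux

theorem exists_gauge {g N : ℕ} {Λ : AddSubgroup (Fin g → ℂ)}
    (hc : ∃ B : ℝ, ∀ z : Fin g → ℂ, ∃ l ∈ Λ, ‖z - l‖ ≤ B)
    {F : (Fin g → ℂ) → Fin N → ℂ} (hF : HolMap univ F)
    (hFp : ∀ z, ∀ l ∈ Λ, PE (F (z + l)) (F z)) :
    ∃ ρ > 0, ∃ C : ℝ, 0 ≤ C ∧ ∀ a : Fin g → ℂ, ∃ h : (Fin g → ℂ) → Fin N → ℂ,
      ∀ z ∈ ball a ρ, DifferentiableAt ℂ h z ∧ PE (F z) (h z) ∧
        1 ≤ ∑ i, ‖h z i‖ ^ 2 ∧ ∑ i, ‖h z i‖ ^ 2 ≤ 1 + C * ‖z - a‖ ^ 2 := by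
  obtain ⟨B, hB⟩ := hc
  have hcomp : ∃ ρ > 0, ∃ C : ℝ, 0 ≤ C ∧ ∀ a ∈ closedBall (0 : Fin g → ℂ) B,
      ∃ h : (Fin g → ℂ) → Fin N → ℂ,
      ∀ z ∈ ball a ρ, DifferentiableAt ℂ h z ∧ PE (F z) (h z) ∧
        1 ≤ ∑ i, ‖h z i‖ ^ 2 ∧ ∑ i, ‖h z i‖ ^ 2 ≤ 1 + C * ‖z - a‖ ^ 2 := by
    refine (isCompact_closedBall (0 : Fin g → ℂ) B).induction_on
      (p := fun s => ∃ ρ > 0, ∃ C : ℝ, 0 ≤ C ∧ ∀ a ∈ s,
      ∃ h : (Fin g → ℂ) → Fin N → ℂ,
      ∀ z ∈ ball a ρ, DifferentiableAt ℂ h z ∧ PE (F z) (h z) ∧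
        1 ≤ ∑ i, ‖h z i‖ ^ 2 ∧ ∑ i, ‖h z i‖ ^ 2 ≤ 1 + C * ‖z - a‖ ^ 2) ?_ ?_ ?_ ?_
    · exact ⟨1, one_pos, 0, le_rfl, fun a ha => absurd ha (notMem_empty a)⟩
    · rintro s t hst ⟨ρ, hρ, C, hC, h⟩
      exact ⟨ρ, hρ, C, hC, fun a ha => h a (hst ha)⟩
    · rintro s t ⟨ρ, hρ, C, hC, h⟩ ⟨ρ', hρ', C', hC', h'⟩
      refine ⟨min ρ ρ', lt_min hρ hρ', max C C', le_max_of_le_left hC, ?_⟩
      rintro a (ha | ha)
      · obtain ⟨k, hk⟩ := h a ha
        refine ⟨k, fun z hz => ?_⟩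
        obtain ⟨h1, h2, h3, h4⟩ := hk z (ball_subset_ball (min_le_left _ _) hz)
        refine ⟨h1, h2, h3, h4.trans ?_⟩
        have := mul_le_mul_of_nonneg_right (le_max_left C C') (sq_nonneg ‖z - a‖)
        linarith
      · obtain ⟨k, hk⟩ := h' a ha
        refine ⟨k, fun z hz => ?_⟩
        obtain ⟨h1, h2, h3, h4⟩ := hk z (ball_subset_ball (min_le_right _ _) hz)
        refine ⟨h1, h2, h3, h4.trans ?_⟩
        have := mul_le_mul_of_nonneg_right (le_max_right C C') (sq_nonneg ‖z - a‖)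
        linarith
    · intro z0 _
      obtain ⟨ρ, hρ, C, hC, h⟩ := K6aaux.gauge_local hF z0
      exact ⟨ball z0 ρ, mem_nhdsWithin_of_mem_nhds (ball_mem_nhds z0 hρ), ρ, hρ, C, hC, h⟩
  obtain ⟨ρ, hρ, C, hC, h⟩ := hcomp
  refine ⟨ρ, hρ, C, hC, fun a => ?_⟩
  obtain ⟨l, hl, hla⟩ := hB a
  obtain ⟨k, hk⟩ := h (a - l) (by rw [mem_closedBall, dist_zero_right]; exact hla)
  refine ⟨fun z => k (z - l), fun z hz => ?_⟩
  have hz' : z - l ∈ ball (a - l) ρ := by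
    rw [mem_ball, dist_eq_norm] at hz ⊢
    rwa [sub_sub_sub_cancel_right]
  obtain ⟨h1, h2, h3, h4⟩ := hk (z - l) hz'
  refine ⟨?_, ?_, h3, ?_⟩
  · exact h1.comp z (by fun_prop)
  · have := hFp (z - l) l hl
    rw [sub_add_cancel] at this
    exact this.trans h2
  · rwa [sub_sub_sub_cancel_right] at h4

end Pool.Agent.H917.G
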