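import Mathlib

/-!
# PROJECT ABCURVES (helper917), task K6b: the Schwarz lemma for a zero of higher order

## Paper proof
`f` is holomorphic on the disc of radius `R`, `|f| ≤ B`, and its derivatives of order `< μ` vanish at `0`. Then
`f(z) = z^μ k(z)` with `k` holomorphic on the disc (`AnalyticAt` order `≥ μ` at `0`: iterate `dslope f 0`
`μ` times: `Mathlib.Analysis.Complex.RemovableSingularity` has that `dslope f 0` is holomorphic; or define
`k = f/z^μ` outside of `0` and remove the singularity). For `|z| ≤ r < R` the maximum principle gives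
`|k(z)| ≤ B/r^μ`; let `r → R`.
-/

set_option autoImplicit false

open Metric

namespace Pool.Agent.H917.G

theorem schwarz_order {f : ℂ → ℂ} {R B : ℝ} {μ : ℕ} (hf : DifferentiableOn ℂ f (ball 0 R))
    (hB : ∀ z ∈ ball (0 : ℂ) R, ‖f z‖ ≤ B) (hμ : ∀ m < μ, iteratedDeriv m f 0 = 0) :
    ∀ z ∈ ball (0 : ℂ) R, ‖f z‖ ≤ B * (‖z‖ / R) ^ μ := by
  intro z hz
  have hR : 0 < R := nonempty_ball.1 ⟨z, hz⟩
  cases μ with
  | zero => rw [pow_zero, mul_one]; exact hB z hz
  | succ n =>
    have h0 : f 0 = 0 := by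
      have h := hμ 0 (Nat.succ_pos n)
      rwa [iteratedDeriv_zero] at h
    have han : AnalyticAt ℂ f 0 :=
      hf.analyticAt (isOpen_ball.mem_nhds (mem_ball_self hR))
    obtain ⟨g, hg, hfg⟩ := (natCast_le_analyticOrderAt han).1
      ((natCast_le_analyticOrderAt_iff_iteratedDeriv_eq_zero han).2 hμ)
    have ho : (fun w => f w - f 0) =o[nhds 0] fun w => ‖w - 0‖ ^ n := by
      have h1 : (fun w => f w - f 0) =ᶠ[nhds 0] fun w => w ^ (n + 1) * g w := by
        filter_upwards [hfg] with w hw
        rw [h0, sub_zero, hw, sub_zero, smul_eq_mul]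
      have h2 : (fun w : ℂ => w ^ (n + 1) * g w) =O[nhds 0] fun w : ℂ => ‖w‖ ^ (n + 1) := by
        have h3 : g =O[nhds 0] fun _ : ℂ => (1 : ℝ) :=
          hg.continuousAt.norm.isBoundedUnder_le.isBigO_one ℝ
        have h4 : (fun w : ℂ => w ^ (n + 1)) =O[nhds 0] fun w : ℂ => ‖w‖ ^ (n + 1) := by
          apply Asymptotics.isBigO_of_le
          intro w
          rw [norm_pow, norm_pow, norm_norm]
        have h5 := h4.mul h3
        simpa only [mul_one] using h5
      have h6 : (fun w : ℂ => ‖w‖ ^ (n + 1)) =o[nhds 0] fun w : ℂ => ‖w - 0‖ ^ n := by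
        simp only [sub_zero]
        exact (Asymptotics.isLittleO_pow_pow (m := n) (n := n + 1) (Nat.lt_succ_self n)).comp_tendsto
          tendsto_norm_zero
      exact (h2.trans_isLittleO h6).congr' h1.symm (Filter.EventuallyEq.refl _ _)
    have h7 := Complex.dist_le_mul_div_pow_of_mapsTo_ball_of_isLittleO hf (R₂ := B) (n := n)
      (fun w hw => by rw [h0, mem_closedBall_zero_iff]; exact hB w hw) ho hz
    rwa [h0, dist_zero_right, dist_zero_right] at h7

end Pool.Agent.H917.G
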