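import Mathlib

/-!
# PROJECT ABCURVES (helper917), task K6c: directional derivatives of functions of several variables
-/

set_option autoImplicit false

open Filter Topology

namespace Pool.Agent.H917.K6caux

/-- the polynomial `v ↦ q (v, ..., v)` -/
noncomputable def dirPoly {g m : ℕ} (q : ContinuousMultilinearMap ℂ (fun _ : Fin m => (Fin g → ℂ)) ℂ) : MvPolynomial (Fin g) ℂ :=
  ∑ idx : Fin m → Fin g, MvPolynomial.C (q (fun j => Pi.single (idx j) 1)) * ∏ j, MvPolynomial.X (idx j)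

lemma eval_dirPoly {g m : ℕ} (q : ContinuousMultilinearMap ℂ (fun _ : Fin m => (Fin g → ℂ)) ℂ) (v : Fin g → ℂ) :
    MvPolynomial.eval v (dirPoly q) = q (fun _ => v) := by
  have hv : v = ∑ k : Fin g, v k • (Pi.single k (1 : ℂ) : Fin g → ℂ) := by
    funext j
    simp [Finset.sum_apply, Pi.single_apply]
  have h1 : q (fun _ => v) = q (fun _ : Fin m => ∑ k : Fin g, v k • (Pi.single k (1 : ℂ) : Fin g → ℂ)) := by
    rw [← hv]
  rw [h1, ContinuousMultilinearMap.map_sum]
  unfold dirPoly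
  rw [map_sum]
  refine Finset.sum_congr rfl fun idx _ => ?_
  rw [ContinuousMultilinearMap.map_smul_univ, map_mul, MvPolynomial.eval_C, map_prod]
  simp only [MvPolynomial.eval_X, smul_eq_mul]
  ring

lemma homog_dirPoly {g m : ℕ} (q : ContinuousMultilinearMap ℂ (fun _ : Fin m => (Fin g → ℂ)) ℂ) :
    (dirPoly q).IsHomogeneous m := by
  unfold dirPoly
  apply MvPolynomial.IsHomogeneous.sum
  intro idx _
  have h1 : (∏ j : Fin m, (MvPolynomial.X (idx j) : MvPolynomial (Fin g) ℂ)).IsHomogeneous (∑ _j : Fin m, 1) :=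
    MvPolynomial.IsHomogeneous.prod _ _ _ (fun j _ => MvPolynomial.isHomogeneous_X _ _)
  have h2 := (MvPolynomial.isHomogeneous_C (Fin g) (q (fun j => Pi.single (idx j) 1))).mul h1
  simpa using h2

/-- the power series along a line -/
lemma line {g : ℕ} {Ψ : (Fin g → ℂ) → ℂ} {a : Fin g → ℂ} {q : FormalMultilinearSeries ℂ (Fin g → ℂ) ℂ}
    (h : HasFPowerSeriesAt Ψ q a) (v : Fin g → ℂ) :
    AnalyticAt ℂ (fun t : ℂ => Ψ (a + t • v)) 0 ∧
    ∀ m : ℕ, iteratedDeriv m (fun t : ℂ => Ψ (a + t • v)) 0 = (m.factorial : ℂ) * q m (fun _ => v) := by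
  have h1 : HasFPowerSeriesAt (fun t : ℂ => Ψ (a + t • v))
      (FormalMultilinearSeries.ofScalars ℂ (fun n => q n (fun _ => v))) 0 := by
    rw [hasFPowerSeriesAt_iff]
    have h2 := h.eventually_hasSum
    have h3 : Tendsto (fun t : ℂ => t • v) (𝓝 0) (𝓝 0) := by
      have : Continuous (fun t : ℂ => t • v) := by fun_prop
      have h4 := this.tendsto 0
      simpa using h4
    filter_upwards [h3.eventually h2] with t ht
    rw [zero_add]
    have h5 : (fun n => q n fun _ => t • v) =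
        fun n => t ^ n • (FormalMultilinearSeries.ofScalars ℂ (fun n => q n (fun _ => v))).coeff n := by
      funext n
      rw [FormalMultilinearSeries.coeff_ofScalars]
      have := (q n).map_smul_univ (fun _ => t) (fun _ => v)
      simpa using this
    rw [h5] at ht
    exact ht
  refine ⟨h1.analyticAt, fun m => ?_⟩
  have h2 := h1.analyticAt.hasFPowerSeriesAt
  have h3 := h1.eq_formalMultilinearSeries h2
  have h4 := congrArg (fun p => FormalMultilinearSeries.coeff p m) h3
  simp only [FormalMultilinearSeries.coeff_ofScalars] at h4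
  have hf : (m.factorial : ℂ) ≠ 0 := by exact_mod_cast m.factorial_ne_zero
  rw [h4, mul_div_cancel₀ _ hf]

end Pool.Agent.H917.K6caux

namespace Pool.Agent.H917.G

open Pool.Agent.H917.K6caux

theorem exists_vanish {g K μ : ℕ} {I : Type} [Fintype I] (pt : Fin K → Fin g → ℂ)
    (Ψ : I → Fin K → (Fin g → ℂ) → ℂ) (hΨ : ∀ i a, AnalyticAt ℂ (Ψ i a) (pt a))
    (hcard : K * μ ^ g < Fintype.card I) :
    ∃ c : I → ℂ, c ≠ 0 ∧ ∀ (a : Fin K) (v : Fin g → ℂ), ∀ m < μ,
      iteratedDeriv m (fun t : ℂ => ∑ i, c i * Ψ i a (pt a + t • v)) 0 = 0 := by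
  classical
  choose q hq using hΨ
  let f : (I → ℂ) →ₗ[ℂ] (Fin K × (Fin g → Fin μ) → ℂ) := Matrix.mulVecLin
    (Matrix.of fun (p : Fin K × (Fin g → Fin μ)) (i : I) =>
      MvPolynomial.coeff (Finsupp.equivFunOnFinite.symm (fun k => (p.2 k : ℕ)))
        (dirPoly (q i p.1 (∑ k, (p.2 k : ℕ)))))
  have hker : LinearMap.ker f ≠ ⊥ := by
    apply LinearMap.ker_ne_bot_of_finrank_lt
    simpa using hcard
  obtain ⟨c, hc, hc0⟩ := (Submodule.ne_bot_iff _).1 hker
  refine ⟨c, hc0, fun a v m hm => ?_⟩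
  have hf : ∀ (α : Fin g → Fin μ), ∑ i, MvPolynomial.coeff (Finsupp.equivFunOnFinite.symm (fun k => (α k : ℕ)))
        (dirPoly (q i a (∑ k, (α k : ℕ)))) * c i = 0 := by
    intro α
    have h1 := congrFun (LinearMap.mem_ker.1 hc) (a, α)
    simpa [f, Matrix.mulVec, dotProduct] using h1
  have hzero : ∑ i, MvPolynomial.C (c i) * dirPoly (q i a m) = 0 := by
    ext α
    rw [MvPolynomial.coeff_sum, MvPolynomial.coeff_zero]
    by_cases hα : ∑ k, α k = m
    · have hlt : ∀ k, α k < μ := by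
        intro k
        refine lt_of_le_of_lt ?_ hm
        rw [← hα]
        exact Finset.single_le_sum (fun _ _ => Nat.zero_le _) (Finset.mem_univ k)
      have h1 := hf (fun k => ⟨α k, hlt k⟩)
      have h2 : (Finsupp.equivFunOnFinite.symm (fun k => α k) : Fin g →₀ ℕ) = α := by
        ext k; simp
      simp only [h2] at h1
      rw [← h1]
      refine Finset.sum_congr rfl fun i _ => ?_
      rw [MvPolynomial.coeff_C_mul, mul_comm]
      subst hα
      rfl
    · refine Finset.sum_eq_zero fun i _ => ?_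
      rw [MvPolynomial.coeff_C_mul, (homog_dirPoly (q i a m)).coeff_eq_zero, mul_zero]
      rwa [Finsupp.degree_eq_sum]
  have hev := congrArg (MvPolynomial.eval v) hzero
  rw [map_sum, map_zero] at hev
  simp only [map_mul, MvPolynomial.eval_C, eval_dirPoly] at hev
  rw [iteratedDeriv_fun_sum]
  · have h1 : ∀ i, iteratedDeriv m (fun t : ℂ => c i * Ψ i a (pt a + t • v)) 0 =
        (m.factorial : ℂ) * (c i * q i a m (fun _ => v)) := by
      intro i
      rw [iteratedDeriv_const_mul_field, (line (hq i a) v).2 m]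
      ring
    simp only [h1]
    rw [← Finset.mul_sum, hev, mul_zero]
  · intro i _
    exact ((analyticAt_const.mul (line (hq i a) v).1).contDiffAt)

theorem exists_dir_ne {g : ℕ} {δ : (Fin g → ℂ) → ℂ} (h : AnalyticAt ℂ δ 0)
    (hne : ¬ ∀ᶠ x in 𝓝 0, δ x = 0) :
    ∃ Q : MvPolynomial (Fin g) ℂ, Q ≠ 0 ∧ ∀ v, MvPolynomial.eval v Q ≠ 0 →
      ¬ ∀ᶠ s in 𝓝 (0 : ℂ), δ (s • v) = 0 := by
  obtain ⟨q, hq⟩ := h
  have hex : ∃ m, dirPoly (q m) ≠ 0 := by
    by_contra hcon
    push Not at hcon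
    apply hne
    filter_upwards [hq.eventually_hasSum] with x hx
    rw [zero_add] at hx
    have h0 : ∀ n, q n (fun _ => x) = 0 := by
      intro n
      rw [← eval_dirPoly, hcon n, map_zero]
    simp only [h0] at hx
    exact hx.unique hasSum_zero
  obtain ⟨m, hm⟩ := hex
  refine ⟨dirPoly (q m), hm, fun v hv hs => hv ?_⟩
  rw [eval_dirPoly]
  have h1 := (line hq v).2 m
  have h2 : (fun t : ℂ => δ (0 + t • v)) =ᶠ[𝓝 0] fun _ => 0 := by
    filter_upwards [hs] with s hs'
    rw [zero_add]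
    exact hs'
  have h3 := h2.iteratedDeriv_eq m
  rw [h3] at h1
  have h4 : iteratedDeriv m (fun _ : ℂ => (0 : ℂ)) 0 = 0 := by
    rw [iteratedDeriv_const]
    simp
  rw [h4] at h1
  have hf : (m.factorial : ℂ) ≠ 0 := by exact_mod_cast m.factorial_ne_zero
  exact (mul_eq_zero.1 h1.symm).resolve_left hf

end Pool.Agent.H917.G
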