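import Pool.Agent.H917.G.K6a
import Pool.Agent.H917.G.K6b
import Pool.Agent.H917.G.K6c
import Pool.Agent.H551.ScAn

/-!
# PROJECT ABCURVES (helper917), task K6d: Siegel's theorem with a uniform bound of the degree

`K6a`-`K6c` are stubs (with sorry) proved by others; use them freely.

## Paper proof
`|x|² = ∑ ‖x_i‖²`. K6a for `θ` gives `ρ_1, C_1`, for `F` it gives `ρ_2, C_2`. All constants below except `m` and `ε`
and those with index 2 depend only on `θ, Λ, L, L0, g`. Let `B` be the cocompactness constant (`B ≥ 1` without loss).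

Choice of `d`. There is a constant `K_1 ≥ 1` such that for all `0 < ε ≤ 1` the ball `{‖z‖ ≤ B}` of `ℂ^g` is
covered by at most `(K_1/ε)^{2g}` balls of radius `ε` (a grid: every real coordinate is a multiple of `ε/2`; the norm is the
maximum norm; `K_1 = 8 B + 8` or so is enough). Put `A = 5 C_1 g + 1`. Choose `d : ℕ` with
`d ≥ (K_1^2 (A + 1))^g`.

Given `F, ℓ, ℓ0`: choose `0 < ε ≤ 1` with `3 ε < ρ_1, 3 ε < ρ_2`, and a finite set of points `pt a`, `a : Fin K`, `K ≤ (K_1/ε)^{2g}`, such that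
the balls `B(pt a, ε)` cover `{‖z‖ ≤ B}`. For `m : ℕ` put `μ = ⌈5 C_1 ε² g m + 5 C_2 ε² d⌉ + 1`. For large `m`,
`μ ≤ (A + 1) ε² m`, so `K μ^g ≤ (K_1/ε)^{2g} ((A+1) ε² m)^g = (K_1² (A+1))^g m^g < (d + 1) m^g`. Fix such an
`m ≥ 1`. Let `I = (Fin g → Fin m) × Fin (d + 1)`, of cardinality `m^g (d + 1)`.

For `a : Fin K` let `h_1, h_2` be the lifts of K6a of `θ` and `F` on the balls around `pt a` (of radius `ρ_1`, `ρ_2`), and let
`Ψ i a (z)` be the summand with index `i` of the sum in the statement, with `θ z`, `F z` replaced by `h_1 z`, `h_2 z`: it is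
holomorphic near `pt a` (analytic at `pt a`: in `ℂ^g`, differentiable at all points near `pt a` implies analytic: look in the
files `Pool/Agent/H917/G/U0.lean`, `U1`, `T1`, ... or in the library for Osgood's lemma / Cauchy in several
variables). By K6c (`exists_vanish`) there is `c ≠ 0` such that all directional derivatives of order `< μ` of
`Φ_a = ∑ c_i Ψ i a` at `pt a` vanish, for all `a`.

Norm: `Φ(z) = ` the sum in the statement is bihomogeneous of bidegree `(g m, d)` in `(θ z, F z)` (`∑ i.1 a ≤ g m`), so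
`‖Φ‖(z) := |Φ(z)| / (|θ z|^{g m} |F z|^d)` depends only on the proportionality classes of `θ z` and `F z`; it is `Λ`-periodic, and it
is bounded (each linear form satisfies `|lf l x| ≤ |l| |x|`, so `‖Φ‖ ≤ ∑ |c_i| ∏ |L a|^{i.1 a} |L0|^... |ℓ|^... |ℓ0|^...`).
Let `S` be its supremum. Let `z ∈ ℂ^g`; there is `l ∈ Λ` with `‖z - l‖ ≤ B`, and `a` with `z - l ∈ B(pt a, ε)`. Consider
`φ(t) = Φ_a(pt a + t (z - l - pt a))`, holomorphic for `|t| < 3`. There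
`|φ(t)| ≤ S |h_1|^{g m} |h_2|^d ≤ S (1 + 9 C_1 ε²)^{g m/2} (1 + 9 C_2 ε²)^{d/2} ≤ S exp(4.5 C_1 ε² g m + 4.5 C_2 ε² d)`. By K6b (`schwarz_order`),
`|φ(1)| ≤ 3^{-μ} S exp(...)`, and `‖Φ‖(z) = ‖Φ‖(z - l) = |φ(1)|/(|h_1|^{g m} |h_2|^d) ≤ |φ(1)|` as `|h_1|, |h_2| ≥ 1`. As
`3^μ ≥ exp(μ)` and `μ ≥ 5 C_1 ε² g m + 5 C_2 ε² d + 1` we get `‖Φ‖(z) ≤ S/e`... so `S ≤ S/e`, `S = 0`, and `Φ = 0`.
-/

set_option autoImplicit false
set_option linter.overlappingInstances false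
set_option linter.unusedSectionVars false

open Filter Topology Set Metric

namespace Pool.Agent.H917.G

/-- The linear form with the coefficients `l`. -/
noncomputable def lf {N : ℕ} (l x : Fin N → ℂ) : ℂ := ∑ i, l i * x i

end Pool.Agent.H917.G

namespace Pool.Agent.H917.K6daux

open Pool.Agent.H917.G

/-- the Euclidean norm -/
noncomputable def nm {n : ℕ} (x : Fin n → ℂ) : ℝ := √(∑ i, ‖x i‖ ^ 2)

theorem nm_nonneg {n : ℕ} (x : Fin n → ℂ) : 0 ≤ nm x := Real.sqrt_nonneg _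

theorem nm_smul {n : ℕ} {x y : Fin n → ℂ} {c : ℂ} (h : ∀ i, x i = c * y i) :
    nm x = ‖c‖ * nm y := by
  have h1 : ∑ i, ‖x i‖ ^ 2 = ‖c‖ ^ 2 * ∑ i, ‖y i‖ ^ 2 := by
    rw [Finset.mul_sum]
    refine Finset.sum_congr rfl fun i _ => ?_
    rw [h, norm_mul, mul_pow]
  rw [nm, h1, Real.sqrt_mul (by positivity), Real.sqrt_sq (norm_nonneg c), nm]

theorem lf_smul {n : ℕ} {x y : Fin n → ℂ} {c : ℂ} (h : ∀ i, x i = c * y i) (l : Fin n → ℂ) :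
    lf l x = c * lf l y := by
  rw [lf, lf, Finset.mul_sum]
  refine Finset.sum_congr rfl fun i _ => ?_
  rw [h]
  ring

theorem lf_le {n : ℕ} (l x : Fin n → ℂ) : ‖lf l x‖ ≤ nm l * nm x := by
  have h1 : ‖lf l x‖ ≤ ∑ i, ‖l i‖ * ‖x i‖ := by
    refine (norm_sum_le _ _).trans (le_of_eq ?_)
    exact Finset.sum_congr rfl fun i _ => norm_mul _ _
  refine h1.trans ?_
  have h2 := Finset.sum_mul_sq_le_sq_mul_sq Finset.univ (fun i => ‖l i‖) (fun i => ‖x i‖)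
  have h3 : 0 ≤ ∑ i, ‖l i‖ * ‖x i‖ := Finset.sum_nonneg fun i _ => by positivity
  rw [nm, nm, ← Real.sqrt_mul (Finset.sum_nonneg fun i _ => by positivity)]
  exact Real.le_sqrt_of_sq_le h2

section

variable {g M N m d : ℕ}

/-- the summands -/
noncomputable def term (L : Fin g → Fin M → ℂ) (L0 : Fin M → ℂ) (ℓ ℓ0 : Fin N → ℂ)
    (i : (Fin g → Fin m) × Fin (d + 1)) (x : Fin M → ℂ) (y : Fin N → ℂ) : ℂ :=
  (∏ a, lf (L a) x ^ (i.1 a : ℕ)) * lf L0 x ^ (g * m - ∑ a, (i.1 a : ℕ)) *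
    (lf ℓ y ^ (i.2 : ℕ) * lf ℓ0 y ^ (d - (i.2 : ℕ)))

theorem sum_le (i : Fin g → Fin m) : ∑ a, (i a : ℕ) ≤ g * m := by
  calc ∑ a, (i a : ℕ) ≤ ∑ _a : Fin g, m := Finset.sum_le_sum fun a _ => (i a).2.le
    _ = g * m := by simp

variable {L : Fin g → Fin M → ℂ} {L0 : Fin M → ℂ} {ℓ ℓ0 : Fin N → ℂ}

theorem term_smul (i : (Fin g → Fin m) × Fin (d + 1)) {x x' : Fin M → ℂ} {y y' : Fin N → ℂ}
    {c e : ℂ} (hx : ∀ i, x i = c * x' i) (hy : ∀ i, y i = e * y' i) :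
    term L L0 ℓ ℓ0 i x y = c ^ (g * m) * e ^ d * term L L0 ℓ ℓ0 i x' y' := by
  have h1 : ∑ a, (i.1 a : ℕ) ≤ g * m := sum_le i.1
  have h2 : (i.2 : ℕ) ≤ d := Nat.lt_succ_iff.1 i.2.2
  have e1 : ∏ a, lf (L a) x ^ (i.1 a : ℕ) =
      c ^ (∑ a, (i.1 a : ℕ)) * ∏ a, lf (L a) x' ^ (i.1 a : ℕ) := by
    rw [← Finset.prod_pow_eq_pow_sum, ← Finset.prod_mul_distrib]
    refine Finset.prod_congr rfl fun a _ => ?_
    rw [lf_smul hx, mul_pow]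
  have e2 : c ^ (g * m) = c ^ (∑ a, (i.1 a : ℕ)) * c ^ (g * m - ∑ a, (i.1 a : ℕ)) := by
    rw [← pow_add, Nat.add_sub_cancel' h1]
  have e3 : e ^ d = e ^ (i.2 : ℕ) * e ^ (d - (i.2 : ℕ)) := by
    rw [← pow_add, Nat.add_sub_cancel' h2]
  rw [term, term, e1, e2, e3, lf_smul hx, lf_smul hy, lf_smul hy, mul_pow, mul_pow, mul_pow]
  ring

theorem term_le {A : ℝ} (hL : ∀ a, nm (L a) ≤ A) (hL0 : nm L0 ≤ A) (hl : nm ℓ ≤ A)
    (hl0 : nm ℓ0 ≤ A) (i : (Fin g → Fin m) × Fin (d + 1)) (x : Fin M → ℂ) (y : Fin N → ℂ) :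
    ‖term L L0 ℓ ℓ0 i x y‖ ≤ (A * nm x) ^ (g * m) * (A * nm y) ^ d := by
  have h1 : ∑ a, (i.1 a : ℕ) ≤ g * m := sum_le i.1
  have h2 : (i.2 : ℕ) ≤ d := Nat.lt_succ_iff.1 i.2.2
  have hA : 0 ≤ A := (nm_nonneg _).trans hL0
  have hb : ∀ {n : ℕ} (l x : Fin n → ℂ), nm l ≤ A → ‖lf l x‖ ≤ A * nm x := by
    intro n l x h
    exact (lf_le l x).trans (mul_le_mul_of_nonneg_right h (nm_nonneg x))
  have hx0 : 0 ≤ A * nm x := mul_nonneg hA (nm_nonneg x)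
  have hy0 : 0 ≤ A * nm y := mul_nonneg hA (nm_nonneg y)
  have e1 : ‖∏ a, lf (L a) x ^ (i.1 a : ℕ)‖ ≤ (A * nm x) ^ (∑ a, (i.1 a : ℕ)) := by
    rw [norm_prod, ← Finset.prod_pow_eq_pow_sum]
    refine Finset.prod_le_prod (fun a _ => norm_nonneg _) fun a _ => ?_
    rw [norm_pow]
    exact pow_le_pow_left₀ (norm_nonneg _) (hb _ _ (hL a)) _
  have e2 : (A * nm x) ^ (g * m) =
      (A * nm x) ^ (∑ a, (i.1 a : ℕ)) * (A * nm x) ^ (g * m - ∑ a, (i.1 a : ℕ)) := by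
    rw [← pow_add, Nat.add_sub_cancel' h1]
  have e3 : (A * nm y) ^ d = (A * nm y) ^ (i.2 : ℕ) * (A * nm y) ^ (d - (i.2 : ℕ)) := by
    rw [← pow_add, Nat.add_sub_cancel' h2]
  rw [term, e2, e3, norm_mul, norm_mul, norm_mul, norm_pow, norm_pow, norm_pow]
  have h3 := pow_le_pow_left₀ (norm_nonneg _) (hb _ x hL0) (g * m - ∑ a, (i.1 a : ℕ))
  have h4 := pow_le_pow_left₀ (norm_nonneg _) (hb _ y hl) (i.2 : ℕ)
  have h5 := pow_le_pow_left₀ (norm_nonneg _) (hb _ y hl0) (d - (i.2 : ℕ))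
  exact mul_le_mul (mul_le_mul e1 h3 (by positivity) (by positivity))
    (mul_le_mul h4 h5 (by positivity) (by positivity)) (by positivity) (by positivity)

theorem diff_prod {E ι : Type} [NormedAddCommGroup E] [NormedSpace ℂ E] (s : Finset ι)
    (f : ι → E → ℂ) {x : E} (h : ∀ i, DifferentiableAt ℂ (f i) x) :
    DifferentiableAt ℂ (fun x => ∏ i ∈ s, f i x) x := by
  classical
  induction s using Finset.induction_on with
  | empty => simp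
  | insert a s ha ih =>
    have h1 : (fun x => ∏ i ∈ insert a s, f i x) = fun x => f a x * ∏ i ∈ s, f i x := by
      funext x
      rw [Finset.prod_insert ha]
    rw [h1]
    exact (h a).mul ih

theorem term_diff (i : (Fin g → Fin m) × Fin (d + 1)) {h1 : (Fin g → ℂ) → Fin M → ℂ}
    {h2 : (Fin g → ℂ) → Fin N → ℂ} {z : Fin g → ℂ} (d1 : DifferentiableAt ℂ h1 z)
    (d2 : DifferentiableAt ℂ h2 z) :
    DifferentiableAt ℂ (fun z => term L L0 ℓ ℓ0 i (h1 z) (h2 z)) z := by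
  have e1 : ∀ l : Fin M → ℂ, DifferentiableAt ℂ (fun z => lf l (h1 z)) z := by
    intro l
    unfold lf
    have : ∀ j, DifferentiableAt ℂ (fun z => h1 z j) z := fun j => differentiableAt_pi.1 d1 j
    fun_prop
  have e2 : ∀ l : Fin N → ℂ, DifferentiableAt ℂ (fun z => lf l (h2 z)) z := by
    intro l
    unfold lf
    have : ∀ j, DifferentiableAt ℂ (fun z => h2 z j) z := fun j => differentiableAt_pi.1 d2 j
    fun_prop
  have e3 : DifferentiableAt ℂ (fun z => ∏ a, lf (L a) (h1 z) ^ (i.1 a : ℕ)) z :=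
    diff_prod _ _ fun a => (e1 (L a)).pow _
  unfold term
  exact (e3.mul ((e1 L0).pow _)).mul (((e2 ℓ).pow _).mul ((e2 ℓ0).pow _))

/-- the sum -/
noncomputable def tot (L : Fin g → Fin M → ℂ) (L0 : Fin M → ℂ) (ℓ ℓ0 : Fin N → ℂ)
    (c : (Fin g → Fin m) × Fin (d + 1) → ℂ) (x : Fin M → ℂ) (y : Fin N → ℂ) : ℂ :=
  ∑ i, c i * term L L0 ℓ ℓ0 i x y

/-- the bound -/
def BD (L : Fin g → Fin M → ℂ) (L0 : Fin M → ℂ) (ℓ ℓ0 : Fin N → ℂ)
    (c : (Fin g → Fin m) × Fin (d + 1) → ℂ) (S : ℝ) (x : Fin M → ℂ) (y : Fin N → ℂ) : Prop :=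
  ‖tot L L0 ℓ ℓ0 c x y‖ ≤ S * nm x ^ (g * m) * nm y ^ d

variable {c : (Fin g → Fin m) × Fin (d + 1) → ℂ}

theorem BD.pe {S : ℝ} {x x' : Fin M → ℂ} {y y' : Fin N → ℂ} (h : BD L L0 ℓ ℓ0 c S x y)
    (hx : PE x x') (hy : PE y y') : BD L L0 ℓ ℓ0 c S x' y' := by
  obtain ⟨k, hk, hx⟩ := hx
  obtain ⟨e, he, hy⟩ := hy
  have h1 : tot L L0 ℓ ℓ0 c x y = k ^ (g * m) * e ^ d * tot L L0 ℓ ℓ0 c x' y' := by
    rw [tot, tot, Finset.mul_sum]
    refine Finset.sum_congr rfl fun i _ => ?_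
    rw [term_smul i hx hy]
    ring
  rw [BD, h1, nm_smul hx, nm_smul hy, norm_mul, norm_mul, norm_pow, norm_pow, mul_pow,
    mul_pow] at h
  have hk' : 0 < ‖k‖ := norm_pos_iff.2 hk
  have he' : 0 < ‖e‖ := norm_pos_iff.2 he
  have hpos : 0 < ‖k‖ ^ (g * m) * ‖e‖ ^ d := by positivity
  rw [BD]
  refine le_of_mul_le_mul_left ?_ hpos
  calc ‖k‖ ^ (g * m) * ‖e‖ ^ d * ‖tot L L0 ℓ ℓ0 c x' y'‖
      ≤ S * (‖k‖ ^ (g * m) * nm x' ^ (g * m)) * (‖e‖ ^ d * nm y' ^ d) := h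
    _ = _ := by ring

theorem exists_bd : ∃ S : ℝ, 0 ≤ S ∧ ∀ (x : Fin M → ℂ) (y : Fin N → ℂ), BD L L0 ℓ ℓ0 c S x y := by
  set A : ℝ := (∑ a, nm (L a)) + nm L0 + nm ℓ + nm ℓ0 with hA
  have h1 := nm_nonneg L0
  have h2 := nm_nonneg ℓ
  have h3 := nm_nonneg ℓ0
  have h4 : 0 ≤ ∑ a, nm (L a) := Finset.sum_nonneg fun a _ => nm_nonneg _
  have h5 : ∀ a, nm (L a) ≤ ∑ a, nm (L a) := fun a =>
    Finset.single_le_sum (f := fun a => nm (L a)) (fun a _ => nm_nonneg _) (Finset.mem_univ a)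
  have hA0 : 0 ≤ A := by positivity
  refine ⟨(∑ i, ‖c i‖) * (A ^ (g * m) * A ^ d), by positivity, fun x y => ?_⟩
  rw [BD, tot]
  calc ‖∑ i, c i * term L L0 ℓ ℓ0 i x y‖ ≤ ∑ i, ‖c i‖ * ((A * nm x) ^ (g * m) * (A * nm y) ^ d) := by
        refine (norm_sum_le _ _).trans (Finset.sum_le_sum fun i _ => ?_)
        rw [norm_mul]
        refine mul_le_mul_of_nonneg_left ?_ (norm_nonneg _)
        exact term_le (fun a => by linarith [h5 a]) (by linarith) (by linarith) (by linarith) i x y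
    _ = _ := by
        rw [← Finset.sum_mul, mul_pow, mul_pow]
        ring

end

/-- a grid on the real line -/
theorem cover_real {B δ : ℝ} (hδ : 0 < δ) (x : ℝ) (hx : |x| ≤ B) :
    ∃ j : Fin (⌊2 * B / δ⌋₊ + 1), |x - (-B + (j : ℕ) * δ)| ≤ δ := by
  rw [abs_le] at hx
  have h0 : 0 ≤ (x + B) / δ := div_nonneg (by linarith) hδ.le
  have h1 : (x + B) / δ ≤ 2 * B / δ := by
    apply div_le_div_of_nonneg_right _ hδ.le
    linarith
  refine ⟨⟨⌊(x + B) / δ⌋₊, Nat.lt_succ_iff.2 (Nat.floor_le_floor h1)⟩, ?_⟩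
  have h2 := Nat.floor_le h0
  have h3 := Nat.lt_floor_add_one ((x + B) / δ)
  rw [le_div_iff₀ hδ] at h2
  rw [div_lt_iff₀ hδ] at h3
  simp only
  rw [abs_le]
  constructor <;> nlinarith

/-- a grid -/
theorem cover (g : ℕ) {B ε : ℝ} (hB : 0 ≤ B) (hε : 0 < ε) (hε1 : ε ≤ 1) :
    ∃ n : ℕ, (n : ℝ) ≤ (6 * B + 1) / ε ∧ ∃ pt : (Fin g → Fin n × Fin n) → (Fin g → ℂ),
      ∀ w : Fin g → ℂ, ‖w‖ ≤ B → ∃ a, ‖w - pt a‖ < ε := by
  set δ : ℝ := ε / 3 with hδ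
  have hδ0 : 0 < δ := by positivity
  refine ⟨⌊2 * B / δ⌋₊ + 1, ?_, fun a k => (((-B + ((a k).1 : ℕ) * δ : ℝ) : ℂ) +
    ((-B + ((a k).2 : ℕ) * δ : ℝ) : ℂ) * Complex.I), fun w hw => ?_⟩
  · have h1 : ((⌊2 * B / δ⌋₊ : ℕ) : ℝ) ≤ 2 * B / δ := Nat.floor_le (by positivity)
    have h2 : 2 * B / δ = 6 * B / ε := by
      rw [hδ]
      field_simp
      ring
    push_cast
    rw [add_div]
    have h3 : 1 ≤ 1 / ε := by rwa [one_le_div hε]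
    linarith
  · have h1 : ∀ k, ∃ j : Fin (⌊2 * B / δ⌋₊ + 1) × Fin (⌊2 * B / δ⌋₊ + 1),
        |(w k).re - (-B + (j.1 : ℕ) * δ)| ≤ δ ∧ |(w k).im - (-B + (j.2 : ℕ) * δ)| ≤ δ := by
      intro k
      have h2 : ‖w k‖ ≤ B := (norm_le_pi_norm w k).trans hw
      obtain ⟨j1, hj1⟩ := cover_real hδ0 (w k).re ((Complex.abs_re_le_norm _).trans h2)
      obtain ⟨j2, hj2⟩ := cover_real hδ0 (w k).im ((Complex.abs_im_le_norm _).trans h2)
      exact ⟨(j1, j2), hj1, hj2⟩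
    choose a ha using h1
    refine ⟨a, ?_⟩
    rw [pi_norm_lt_iff hε]
    intro k
    obtain ⟨ha1, ha2⟩ := ha k
    refine lt_of_le_of_lt (Complex.norm_le_abs_re_add_abs_im _) ?_
    simp only [Pi.sub_apply, Complex.sub_re, Complex.add_re, Complex.ofReal_re, Complex.mul_re,
      Complex.I_re, mul_zero, Complex.ofReal_im, Complex.I_im, mul_one, sub_self, add_zero,
      Complex.sub_im, Complex.add_im, Complex.mul_im, zero_add]
    linarith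

/-- the gauge is small -/
theorem nm_le {n : ℕ} {x : Fin n → ℂ} {C t : ℝ} (h : ∑ i, ‖x i‖ ^ 2 ≤ 1 + C * t) (k : ℕ) :
    nm x ^ k ≤ Real.exp (C * t / 2 * k) := by
  have h1 : nm x ≤ Real.exp (C * t / 2) := by
    rw [nm, Real.sqrt_le_left (Real.exp_pos _).le, ← Real.exp_nat_mul]
    have h2 := Real.add_one_le_exp (C * t)
    have h3 : ((2 : ℕ) : ℝ) * (C * t / 2) = C * t := by push_cast; ring
    rw [h3]
    linarith
  calc nm x ^ k ≤ Real.exp (C * t / 2) ^ k := pow_le_pow_left₀ (nm_nonneg x) h1 k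
    _ = _ := by rw [← Real.exp_nat_mul]; congr 1; ring

theorem one_le_nm {n : ℕ} {x : Fin n → ℂ} (h : 1 ≤ ∑ i, ‖x i‖ ^ 2) : 1 ≤ nm x := by
  rw [nm, Real.one_le_sqrt]
  exact h

/-- the contraction of the bound -/
theorem step {g M N m d μ : ℕ} {L : Fin g → Fin M → ℂ} {L0 : Fin M → ℂ} {ℓ ℓ0 : Fin N → ℂ}
    {c : (Fin g → Fin m) × Fin (d + 1) → ℂ} {ε C1 C2 S : ℝ} (hC1 : 0 ≤ C1) (hC2 : 0 ≤ C2)
    (hS : 0 ≤ S) {θ : (Fin g → ℂ) → Fin M → ℂ} {F : (Fin g → ℂ) → Fin N → ℂ}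
    {p w : Fin g → ℂ} (hw : ‖w - p‖ < ε) {h1 : (Fin g → ℂ) → Fin M → ℂ}
    {h2 : (Fin g → ℂ) → Fin N → ℂ}
    (H1 : ∀ z ∈ ball p (3 * ε), DifferentiableAt ℂ h1 z ∧ PE (θ z) (h1 z) ∧
        1 ≤ ∑ i, ‖h1 z i‖ ^ 2 ∧ ∑ i, ‖h1 z i‖ ^ 2 ≤ 1 + C1 * ‖z - p‖ ^ 2)
    (H2 : ∀ z ∈ ball p (3 * ε), DifferentiableAt ℂ h2 z ∧ PE (F z) (h2 z) ∧
        1 ≤ ∑ i, ‖h2 z i‖ ^ 2 ∧ ∑ i, ‖h2 z i‖ ^ 2 ≤ 1 + C2 * ‖z - p‖ ^ 2)
    (hb : ∀ z, BD L L0 ℓ ℓ0 c S (θ z) (F z))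
    (hv : ∀ (v : Fin g → ℂ), ∀ k < μ,
      iteratedDeriv k (fun t : ℂ => tot L L0 ℓ ℓ0 c (h1 (p + t • v)) (h2 (p + t • v))) 0 = 0)
    (hμ : 9 / 2 * C1 * ε ^ 2 * (g * m) + 9 / 2 * C2 * ε ^ 2 * d + 1 ≤ μ) :
    BD L L0 ℓ ℓ0 c (S * Real.exp (-1)) (θ w) (F w) := by
  have hε : 0 < ε := lt_of_le_of_lt (norm_nonneg _) hw
  set v := w - p with hvdef
  have hin : ∀ t ∈ ball (0 : ℂ) 3, p + t • v ∈ ball p (3 * ε) := by
    intro t ht
    rw [mem_ball, dist_zero_right] at ht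
    rw [mem_ball, dist_eq_norm, add_sub_cancel_left, norm_smul]
    exact lt_of_le_of_lt (mul_le_mul_of_nonneg_right ht.le (norm_nonneg v))
      (mul_lt_mul_of_pos_left hw (by norm_num))
  have hsq : ∀ t ∈ ball (0 : ℂ) 3, ‖p + t • v - p‖ ^ 2 ≤ 9 * ε ^ 2 := by
    intro t ht
    have h3 := hin t ht
    rw [mem_ball, dist_eq_norm] at h3
    calc ‖p + t • v - p‖ ^ 2 ≤ (3 * ε) ^ 2 := pow_le_pow_left₀ (norm_nonneg _) h3.le 2
      _ = 9 * ε ^ 2 := by ring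
  set φ : ℂ → ℂ := fun t => tot L L0 ℓ ℓ0 c (h1 (p + t • v)) (h2 (p + t • v)) with hφ
  have hd : DifferentiableOn ℂ φ (ball 0 3) := by
    intro t ht
    have h3 : DifferentiableAt ℂ (fun z => tot L L0 ℓ ℓ0 c (h1 z) (h2 z)) (p + t • v) := by
      unfold tot
      refine DifferentiableAt.fun_sum fun i _ => ?_
      exact (term_diff i (H1 _ (hin t ht)).1 (H2 _ (hin t ht)).1).const_mul _
    have h4 : DifferentiableAt ℂ (fun t : ℂ => p + t • v) t := by fun_prop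
    exact (DifferentiableAt.comp t h3 h4).differentiableWithinAt
  set T : ℝ := 9 / 2 * C1 * ε ^ 2 * (g * m) + 9 / 2 * C2 * ε ^ 2 * d with hT
  have hB : ∀ t ∈ ball (0 : ℂ) 3, ‖φ t‖ ≤ S * Real.exp T := by
    intro t ht
    obtain ⟨-, a2, a3, a4⟩ := H1 _ (hin t ht)
    obtain ⟨-, b2, b3, b4⟩ := H2 _ (hin t ht)
    have h3 : BD L L0 ℓ ℓ0 c S (h1 (p + t • v)) (h2 (p + t • v)) := (hb _).pe a2 b2
    have a5 : ∑ i, ‖h1 (p + t • v) i‖ ^ 2 ≤ 1 + C1 * (9 * ε ^ 2) :=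
      a4.trans (by linarith [mul_le_mul_of_nonneg_left (hsq t ht) hC1])
    have b5 : ∑ i, ‖h2 (p + t • v) i‖ ^ 2 ≤ 1 + C2 * (9 * ε ^ 2) :=
      b4.trans (by linarith [mul_le_mul_of_nonneg_left (hsq t ht) hC2])
    have a6 := nm_le a5 (g * m)
    have b6 := nm_le b5 d
    rw [BD] at h3
    refine h3.trans ?_
    calc S * nm (h1 (p + t • v)) ^ (g * m) * nm (h2 (p + t • v)) ^ d
        ≤ S * Real.exp (C1 * (9 * ε ^ 2) / 2 * (g * m : ℕ)) *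
          Real.exp (C2 * (9 * ε ^ 2) / 2 * d) := by
          gcongr
          exact pow_nonneg (nm_nonneg _) _
      _ = S * Real.exp T := by
          rw [mul_assoc, ← Real.exp_add, hT]
          congr 2
          push_cast
          ring
  have h1mem : (1 : ℂ) ∈ ball (0 : ℂ) 3 := by simp
  have hsch := schwarz_order hd hB (hv v) 1 h1mem
  have hw1 : p + (1 : ℂ) • v = w := by rw [one_smul, hvdef]; abel
  have hwin : w ∈ ball p (3 * ε) := by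
    have := hin 1 h1mem
    rwa [hw1] at this
  obtain ⟨-, a2, a3, a4⟩ := H1 _ hwin
  obtain ⟨-, b2, b3, b4⟩ := H2 _ hwin
  have h5 : ‖tot L L0 ℓ ℓ0 c (h1 w) (h2 w)‖ ≤ S * Real.exp (-1) := by
    have h6 : φ 1 = tot L L0 ℓ ℓ0 c (h1 w) (h2 w) := by rw [hφ]; simp only [hw1]
    rw [← h6]
    refine hsch.trans ?_
    have h7 : (‖(1 : ℂ)‖ / 3) ^ μ ≤ Real.exp (-μ) := by
      have h8 : (‖(1 : ℂ)‖ / 3) ≤ Real.exp (-1) := by
        rw [norm_one, Real.exp_neg, one_div]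
        exact inv_anti₀ (Real.exp_pos 1) (by linarith [Real.exp_one_lt_d9])
      calc (‖(1 : ℂ)‖ / 3) ^ μ ≤ Real.exp (-1) ^ μ := pow_le_pow_left₀ (by positivity) h8 μ
        _ = _ := by rw [← Real.exp_nat_mul]; congr 1; ring
    calc S * Real.exp T * (‖(1 : ℂ)‖ / 3) ^ μ ≤ S * Real.exp T * Real.exp (-μ) := by
          gcongr
      _ = S * Real.exp (T - μ) := by rw [mul_assoc, ← Real.exp_add]; rfl
      _ ≤ S * Real.exp (-1) := by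
          gcongr
          linarith
  have h9 : BD L L0 ℓ ℓ0 c (S * Real.exp (-1)) (h1 w) (h2 w) := by
    rw [BD]
    refine h5.trans ?_
    have a5 : 1 ≤ nm (h1 w) ^ (g * m) := one_le_pow₀ (one_le_nm a3)
    have b5 : 1 ≤ nm (h2 w) ^ d := one_le_pow₀ (one_le_nm b3)
    have h10 : 0 ≤ S * Real.exp (-1) := mul_nonneg hS (Real.exp_pos _).le
    rw [mul_assoc]
    exact le_mul_of_one_le_right h10 (one_le_mul_of_one_le_of_one_le a5 b5)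
  exact h9.pe a2.symm b2.symm

end Pool.Agent.H917.K6daux

namespace Pool.Agent.H917.G

open Pool.Agent.H917.K6daux

theorem siegel {g : ℕ} {Λ : AddSubgroup (Fin g → ℂ)}
    (hc : ∃ B : ℝ, ∀ z : Fin g → ℂ, ∃ l ∈ Λ, ‖z - l‖ ≤ B) {M : ℕ}
    {θ : (Fin g → ℂ) → Fin M → ℂ} (hθ : HolMap univ θ)
    (hθp : ∀ z, ∀ l ∈ Λ, PE (θ (z + l)) (θ z)) (L : Fin g → Fin M → ℂ) (L0 : Fin M → ℂ) :
    ∃ d : ℕ, ∀ (N : ℕ) (F : (Fin g → ℂ) → Fin N → ℂ), HolMap univ F →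
      (∀ z, ∀ l ∈ Λ, PE (F (z + l)) (F z)) → ∀ ℓ ℓ0 : Fin N → ℂ,
      ∃ (m : ℕ) (c : (Fin g → Fin m) × Fin (d + 1) → ℂ), c ≠ 0 ∧ ∀ z,
        ∑ i, c i * ((∏ a, lf (L a) (θ z) ^ (i.1 a : ℕ)) *
          lf L0 (θ z) ^ (g * m - ∑ a, (i.1 a : ℕ)) *
          (lf ℓ (F z) ^ (i.2 : ℕ) * lf ℓ0 (F z) ^ (d - (i.2 : ℕ)))) = 0 := by
  obtain ⟨B, hB⟩ := hc
  have hB0 : 0 ≤ B := by
    obtain ⟨l, -, h⟩ := hB 0
    exact (norm_nonneg _).trans h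
  obtain ⟨ρ1, hρ1, C1, hC1, G1⟩ := exists_gauge ⟨B, hB⟩ hθ hθp
  set K1 : ℝ := 6 * B + 1 with hK1
  have hK1p : 0 < K1 := by positivity
  obtain ⟨D, hD⟩ := exists_nat_ge (K1 ^ 2 * (5 * C1 * g) + 1)
  refine ⟨D ^ g, fun N F hF hFp ℓ ℓ0 => ?_⟩
  set d : ℕ := D ^ g with hd
  obtain ⟨ρ2, hρ2, C2, hC2, G2⟩ := exists_gauge ⟨B, hB⟩ hF hFp
  obtain ⟨ε, hε, hε1, hερ1, hερ2⟩ : ∃ ε : ℝ, 0 < ε ∧ ε ≤ 1 ∧ 3 * ε ≤ ρ1 ∧ 3 * ε ≤ ρ2 := by
    refine ⟨min 1 (min (ρ1 / 3) (ρ2 / 3)), by positivity, min_le_left _ _, ?_, ?_⟩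
    · have : min 1 (min (ρ1 / 3) (ρ2 / 3)) ≤ ρ1 / 3 := (min_le_right _ _).trans (min_le_left _ _)
      linarith
    · have : min 1 (min (ρ1 / 3) (ρ2 / 3)) ≤ ρ2 / 3 := (min_le_right _ _).trans (min_le_right _ _)
      linarith
  obtain ⟨n, hn, pt, hpt⟩ := cover g hB0 hε hε1
  rw [← hK1] at hn
  obtain ⟨m, hm⟩ := exists_nat_ge (K1 ^ 2 * (5 * C2 * d) + 2 * K1 ^ 2 / ε ^ 2 + 1)
  have hm1 : 1 ≤ m := by
    have h1 : (1 : ℝ) ≤ m := by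
      have : 0 ≤ K1 ^ 2 * (5 * C2 * d) + 2 * K1 ^ 2 / ε ^ 2 := by positivity
      linarith
    exact_mod_cast h1
  set μ : ℕ := ⌈5 * C1 * ε ^ 2 * (g * m) + 5 * C2 * ε ^ 2 * d⌉₊ + 1 with hμ
  have hμ1 : 5 * C1 * ε ^ 2 * (g * m) + 5 * C2 * ε ^ 2 * d + 1 ≤ (μ : ℝ) := by
    rw [hμ]
    push_cast
    linarith [Nat.le_ceil (5 * C1 * ε ^ 2 * (g * m) + 5 * C2 * ε ^ 2 * d)]
  have hμ2 : (μ : ℝ) ≤ 5 * C1 * ε ^ 2 * (g * m) + 5 * C2 * ε ^ 2 * d + 2 := by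
    rw [hμ]
    push_cast
    have : 0 ≤ 5 * C1 * ε ^ 2 * (g * m) + 5 * C2 * ε ^ 2 * d := by positivity
    linarith [Nat.ceil_lt_add_one this]
  have hcard0 : n * n * μ ≤ D * m := by
    have h1 : (n : ℝ) * n ≤ K1 ^ 2 / ε ^ 2 := by
      calc (n : ℝ) * n ≤ (K1 / ε) * (K1 / ε) := by gcongr
        _ = _ := by rw [div_mul_div_comm]; ring
    have h2 : (n : ℝ) * n * μ ≤ D * m := by
      calc (n : ℝ) * n * μ ≤ K1 ^ 2 / ε ^ 2 *
            (5 * C1 * ε ^ 2 * (g * m) + 5 * C2 * ε ^ 2 * d + 2) := by gcongr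
        _ = K1 ^ 2 * (5 * C1 * g) * m + (K1 ^ 2 * (5 * C2 * d) + 2 * K1 ^ 2 / ε ^ 2) := by
            field_simp
            ring
        _ ≤ K1 ^ 2 * (5 * C1 * g) * m + m := by linarith
        _ = (K1 ^ 2 * (5 * C1 * g) + 1) * m := by ring
        _ ≤ D * m := by gcongr
    exact_mod_cast h2
  set K : ℕ := Fintype.card (Fin g → Fin n × Fin n) with hK
  have hKe : K = (n * n) ^ g := by rw [hK]; simp
  have hcard : K * μ ^ g < Fintype.card ((Fin g → Fin m) × Fin (d + 1)) := by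
    rw [hKe, ← mul_pow]
    have h1 : Fintype.card ((Fin g → Fin m) × Fin (d + 1)) = m ^ g * (d + 1) := by simp
    rw [h1]
    calc (n * n * μ) ^ g ≤ (D * m) ^ g := Nat.pow_le_pow_left hcard0 g
      _ = m ^ g * d := by rw [mul_pow, hd]; ring
      _ < m ^ g * (d + 1) := by
          have : 0 < m ^ g := Nat.pow_pos hm1
          nlinarith
  let e := Fintype.equivFin (Fin g → Fin n × Fin n)
  choose u1 hu1 using G1
  choose u2 hu2 using G2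
  have H1 : ∀ a, ∀ z ∈ ball a (3 * ε), DifferentiableAt ℂ (u1 a) z ∧ PE (θ z) (u1 a z) ∧
      1 ≤ ∑ i, ‖u1 a z i‖ ^ 2 ∧ ∑ i, ‖u1 a z i‖ ^ 2 ≤ 1 + C1 * ‖z - a‖ ^ 2 :=
    fun a z hz => hu1 a z (ball_subset_ball hερ1 hz)
  have H2 : ∀ a, ∀ z ∈ ball a (3 * ε), DifferentiableAt ℂ (u2 a) z ∧ PE (F z) (u2 a z) ∧
      1 ≤ ∑ i, ‖u2 a z i‖ ^ 2 ∧ ∑ i, ‖u2 a z i‖ ^ 2 ≤ 1 + C2 * ‖z - a‖ ^ 2 :=
    fun a z hz => hu2 a z (ball_subset_ball hερ2 hz)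
  have hΨ : ∀ (i : (Fin g → Fin m) × Fin (d + 1)) (k : Fin K),
      AnalyticAt ℂ (fun z => term L L0 ℓ ℓ0 i (u1 (pt (e.symm k)) z) (u2 (pt (e.symm k)) z))
        (pt (e.symm k)) := by
    intro i k
    refine Pool.Agent.H551.ScAn.analyticAt_ball (R := 3 * ε) (by positivity) ?_
    intro z hz
    exact (term_diff i (H1 _ z hz).1 (H2 _ z hz).1).differentiableWithinAt
  obtain ⟨c, hc0, hc⟩ := exists_vanish (fun k => pt (e.symm k))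
    (fun i k z => term L L0 ℓ ℓ0 i (u1 (pt (e.symm k)) z) (u2 (pt (e.symm k)) z)) hΨ hcard
  refine ⟨m, c, hc0, ?_⟩
  -- the contraction
  have hstep : ∀ S : ℝ, 0 ≤ S → (∀ z, BD L L0 ℓ ℓ0 c S (θ z) (F z)) →
      ∀ z, BD L L0 ℓ ℓ0 c (S * Real.exp (-1)) (θ z) (F z) := by
    intro S hS hb z
    obtain ⟨l, hl, hzl⟩ := hB z
    obtain ⟨a, ha⟩ := hpt (z - l) hzl
    have h1 : BD L L0 ℓ ℓ0 c (S * Real.exp (-1)) (θ (z - l)) (F (z - l)) := by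
      refine step (μ := μ) hC1 hC2 hS ha (H1 (pt a)) (H2 (pt a)) hb ?_ ?_
      · intro v k hk
        have h2 := hc (e a) v k hk
        simp only [Equiv.symm_apply_apply] at h2
        exact h2
      · refine le_trans ?_ hμ1
        have h3 : 0 ≤ C1 * ε ^ 2 * (g * m) := by positivity
        have h4 : 0 ≤ C2 * ε ^ 2 * d := by positivity
        linarith
    have h5 := hθp (z - l) l hl
    have h6 := hFp (z - l) l hl
    rw [sub_add_cancel] at h5 h6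
    exact h1.pe h5.symm h6.symm
  obtain ⟨S0, hS0, hb0⟩ := exists_bd (L := L) (L0 := L0) (ℓ := ℓ) (ℓ0 := ℓ0) (c := c)
  have hiter : ∀ k : ℕ, ∀ z, BD L L0 ℓ ℓ0 c (S0 * Real.exp (-1) ^ k) (θ z) (F z) := by
    intro k
    induction k with
    | zero => intro z; rw [pow_zero, mul_one]; exact hb0 _ _
    | succ k ih =>
      intro z
      have := hstep _ (by positivity) ih z
      rwa [mul_assoc, ← pow_succ] at this
  intro z
  have h1 : ‖tot L L0 ℓ ℓ0 c (θ z) (F z)‖ ≤ 0 := by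
    have h2 : Tendsto (fun k : ℕ => S0 * Real.exp (-1) ^ k * nm (θ z) ^ (g * m) * nm (F z) ^ d)
        atTop (𝓝 (S0 * 0 * nm (θ z) ^ (g * m) * nm (F z) ^ d)) := by
      have h3 : Tendsto (fun k : ℕ => Real.exp (-1) ^ k) atTop (𝓝 0) :=
        tendsto_pow_atTop_nhds_zero_of_lt_one (Real.exp_pos _).le
          (by rw [Real.exp_lt_one_iff]; norm_num)
      exact ((h3.const_mul S0).mul_const _).mul_const _
    have h4 := ge_of_tendsto' h2 fun k => hiter k z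
    simpa using h4
  exact norm_le_zero_iff.1 h1

end Pool.Agent.H917.G
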