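import Pool.Agent.H917.G.T4
import Pool.Graph.R_seed8.Y190.AN.Wei

/-!
# PROJECT TORI (helper917), task T7: global homogeneous coordinates

## Paper proof of `Lc.lift`

This is `exists_lift` of `Pool/Agent/H917/E8.lean` (on main) for a general finite index set `ι` instead of `Fin (n + 1)`; the
proof can be copied: it gives `F : ℂ → ι → ℂ`, all components entire, with `PE (F z) (f z)` for a function
`f : ℂ → ι → ℂ` with local holomorphic representatives `g` (`g z0 ≠ 0`). Apply it to a choice of representatives of the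
points, then use `Cv.scale` (T4) locally to see that `F` is a `Cv`. `Pool.Agent.Y190.AN.weier` is the theorem of Weierstrass
on entire functions with given zeros (module `Pool.Graph.R_seed8.Y190.AN.Wei` of the read-only library:
`team-store fetch /workdir/pool Pool/Graph/R_seed8/Y190/AN/Wei.lean`, then compile it and its dependencies to oleans with
`lake env lean -o`, or copy the files).
-/

set_option autoImplicit false
set_option linter.overlappingInstances false
set_option linter.unusedSectionVars false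

open MvPolynomial Filter Topology Metric Set

namespace Pool.Agent.H917.G

namespace T7aux

/-- **The lifting of holomorphic maps to the projective space.** -/
theorem exists_lift {ι : Type} {f : ℂ → ι → ℂ}
    (hf : ∀ z0, ∃ g : ℂ → ι → ℂ, (∀ i, AnalyticAt ℂ (fun z => g z i) z0) ∧ g z0 ≠ 0 ∧
      ∀ᶠ z in 𝓝 z0, PE (f z) (g z)) :
    ∃ F : ℂ → ι → ℂ, (∀ i, Differentiable ℂ fun z => F z i) ∧ ∀ z, PE (F z) (f z) := by
  classical
  choose g han hne hev using hf
  obtain ⟨j0, hj0⟩ := Function.ne_iff.1 (hne 0)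
  have hj0 : g 0 0 j0 ≠ 0 := hj0
  -- the coordinate does not vanish identically
  have hz : ∀ z0, ∀ᶠ z in 𝓝 z0, (f z j0 = 0 ↔ g z0 z j0 = 0) := by
    intro z0
    filter_upwards [hev z0] with z hz
    obtain ⟨c, hc, hcz⟩ := hz
    rw [hcz]
    simp [hc]
  obtain ⟨A, hA'⟩ : ∃ A : Set ℂ, ∀ z, z ∈ A ↔ ∀ᶠ w in 𝓝 z, f w j0 = 0 :=
    ⟨{z | ∀ᶠ w in 𝓝 z, f w j0 = 0}, fun _ => Iff.rfl⟩
  have hA : IsOpen A := by
    rw [isOpen_iff_mem_nhds]
    intro z hz
    filter_upwards [((hA' z).1 hz).eventually_nhds] with w hw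
    exact (hA' w).2 hw
  have hpt : ∀ z0, z0 ∉ A → ∀ᶠ z in 𝓝[≠] z0, f z j0 ≠ 0 := by
    intro z0 hz0
    rcases (han z0 j0).eventually_eq_zero_or_eventually_ne_zero with h1 | h1
    · exfalso
      apply hz0
      rw [hA']
      filter_upwards [h1, hz z0] with z h2 h3
      exact h3.2 h2
    · filter_upwards [h1, nhdsWithin_le_nhds (hz z0)] with z h2 h3
      exact fun h4 => h2 (h3.1 h4)
  have hAc : IsClosed A := by
    rw [← isOpen_compl_iff, isOpen_iff_mem_nhds]
    intro z0 hz0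
    have h1 := hpt z0 hz0
    rw [eventually_nhdsWithin_iff] at h1
    filter_upwards [h1] with z h2 hzA
    by_cases h3 : z = z0
    · exact hz0 (h3 ▸ hzA)
    · exact h2 h3 ((hA' z).1 hzA).self_of_nhds
  have hA0 : (0 : ℂ) ∉ A := by
    intro h0
    exact hj0 ((hz 0).self_of_nhds.1 ((hA' 0).1 h0).self_of_nhds)
  have hAe : A = ∅ := by
    rcases isClopen_iff.1 ⟨hAc, hA⟩ with h1 | h1
    · exact h1
    · exact absurd (h1 ▸ mem_univ (0 : ℂ)) hA0
  have hp1 : ∀ z0, ∀ᶠ z in 𝓝[≠] z0, f z j0 ≠ 0 := fun z0 => hpt z0 (by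
    rw [hAe]
    exact Set.notMem_empty z0)
  -- the orders
  have htop : ∀ z0, analyticOrderAt (fun z => g z0 z j0) z0 ≠ ⊤ := by
    intro z0 h1
    rw [analyticOrderAt_eq_top] at h1
    have h2 : z0 ∈ A := by
      rw [hA']
      filter_upwards [h1, hz z0] with z h2 h3
      exact h3.2 h2
    rw [hAe] at h2
    exact h2
  obtain ⟨μ, hμ⟩ : ∃ μ : ℂ → ℕ, ∀ z0, analyticOrderAt (fun z => g z0 z j0) z0 = μ z0 := by
    choose μ hμ using fun z0 => ENat.ne_top_iff_exists.1 (htop z0)
    exact ⟨μ, fun z0 => (hμ z0).symm⟩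
  have hμf : ∀ z, μ z ≠ 0 → f z j0 = 0 := by
    intro z h1
    refine (hz z).self_of_nhds.2 ?_
    by_contra h2
    apply h1
    have h3 := (han z j0).analyticOrderAt_eq_zero.2 h2
    rw [hμ z] at h3
    exact_mod_cast h3
  have hfin : ∀ r : ℝ, {z : ℂ | ‖z‖ ≤ r ∧ μ z ≠ 0}.Finite := by
    intro r
    have h1 : (closedBall (0 : ℂ) r ∩ {z | f z j0 = 0}).Finite := by
      refine (isCompact_closedBall (0 : ℂ) r).induction_on
        (p := fun s => (s ∩ {z | f z j0 = 0}).Finite) ?_ ?_ ?_ ?_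
      · rw [empty_inter]
        exact finite_empty
      · intro s t hst ht
        exact ht.subset (inter_subset_inter_left _ hst)
      · intro s t hs ht
        rw [union_inter_distrib_right]
        exact hs.union ht
      · intro x _
        have h2 := hp1 x
        rw [eventually_nhdsWithin_iff] at h2
        obtain ⟨t, ht, htx⟩ := Filter.eventually_iff_exists_mem.1 h2
        refine ⟨t, nhdsWithin_le_nhds ht, (finite_singleton x).subset ?_⟩
        rintro z ⟨h3, h4⟩
        by_contra h5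
        exact htx z h3 h5 h4
    refine h1.subset ?_
    rintro z ⟨h2, h3⟩
    exact ⟨mem_closedBall_zero_iff.2 h2, hμf z h3⟩
  obtain ⟨h, hhd, hho⟩ := Pool.Agent.Y190.AN.weier μ hfin
  have hunit : ∀ z0, ∃ e : ℂ → ℂ, AnalyticAt ℂ e z0 ∧ e z0 ≠ 0 ∧
      ∀ᶠ z in 𝓝 z0, h z = e z * g z0 z j0 := by
    intro z0
    obtain ⟨h1, h2, h3, h4⟩ := (hhd.analyticAt z0).analyticOrderAt_eq_natCast.1 (hho z0)
    obtain ⟨g1, g2, g3, g4⟩ := (han z0 j0).analyticOrderAt_eq_natCast.1 (hμ z0)
    refine ⟨fun z => h1 z / g1 z, h2.fun_div g2 g3, div_ne_zero h3 g3, ?_⟩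
    filter_upwards [h4, g4, g2.continuousAt.eventually_ne g3] with z h5 h6 h7
    rw [h5, h6, smul_eq_mul, smul_eq_mul]
    field_simp
  choose e hea hene heh using hunit
  obtain ⟨F, hF⟩ : ∃ F : ℂ → ι → ℂ, ∀ z i, F z i = e z z * g z z i :=
    ⟨_, fun _ _ => rfl⟩
  have hloc : ∀ z0, ∀ᶠ z in 𝓝 z0, ∀ i, F z i = e z0 z * g z0 z i := by
    intro z0
    have h1 := hp1 z0
    rw [eventually_nhdsWithin_iff] at h1
    filter_upwards [h1, heh z0, hev z0] with z h2 h3 h4 i
    by_cases h5 : z = z0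
    · rw [hF, h5]
    · have h6 := h2 h5
      have h7 := (heh z).self_of_nhds
      have h8 := (hev z).self_of_nhds.minor i j0
      have h9 := h4.minor i j0
      rw [hF]
      refine mul_right_cancel₀ h6 ?_
      have e1 : e z z * g z z i * f z j0 = e z z * g z z j0 * f z i := by
        linear_combination (-(e z z)) * h8
      have e2 : e z0 z * g z0 z i * f z j0 = e z0 z * g z0 z j0 * f z i := by
        linear_combination (-(e z0 z)) * h9
      rw [e1, e2, ← h7, ← h3]
  refine ⟨F, fun i z0 => ?_, fun z => ?_⟩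
  · have h1 : (fun z => e z0 z * g z0 z i) =ᶠ[𝓝 z0] fun z => F z i := by
      filter_upwards [hloc z0] with z hz
      exact (hz i).symm
    exact (((hea z0).fun_mul (han z0 i)).congr h1).differentiableAt
  · exact PE.trans ⟨e z z, hene z, fun i => hF z i⟩ (hev z).self_of_nhds.symm

end T7aux

namespace FD

variable {ι : Type} [Fintype ι] {r : ℕ} {D : FD ι r}

theorem Lc.lift {c : Fin r → ℂ} {f : ℂ → D.Pt} (hf : D.Lc c univ f) :
    ∃ g : ℂ → ι → ℂ, D.Cv c univ g ∧ ∀ z, Rep (f z) (g z) := by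
  choose x hx using fun z => exists_rep (f z)
  obtain ⟨F, hF, hFx⟩ := T7aux.exists_lift (f := x) (by
    intro z0
    obtain ⟨Ω, hΩ, hz0, g, hg, hr⟩ := hf z0 (mem_univ z0)
    refine ⟨g, fun i => hg.an i z0 hz0, (hg.st z0 hz0).ne_zero, ?_⟩
    filter_upwards [hΩ.mem_nhds hz0] with z hz
    exact (hx z).pe (hr z hz))
  have key : ∀ z0, ∃ Ω, z0 ∈ Ω ∧ D.Cv c Ω F := by
    intro z0
    obtain ⟨Ω, hΩ, hz0, g, hg, hr⟩ := hf z0 (mem_univ z0)
    refine ⟨Ω, hz0, Cv.scale hΩ hg (fun k z _ => (hF k).analyticAt z) fun z hz => ?_⟩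
    exact (hFx z).trans ((hx z).pe (hr z hz))
  refine ⟨F, ⟨fun k z _ => (hF k).analyticAt z, fun z _ => ?_, fun z _ => ?_⟩, fun z => ?_⟩
  · obtain ⟨Ω, hz, h⟩ := key z
    exact h.st z hz
  · obtain ⟨Ω, hz, h⟩ := key z
    exact h.vel z hz
  · exact (hx z).of_pe (hFx z).symm

end FD

end Pool.Agent.H917.G
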