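import Pool.Agent.H917.G.V0
import Pool.Agent.H917.G.T7

/-!
# PROJECT TORI (helper917), task M1: entire curves in the images of meromorphic maps

## Paper proof

`line_dense`: let `v ≠ 0` and let `Z ⊆ ℂ^g` have `(2g-2)`-dimensional Hausdorff measure zero. Then the set of the `e ∈ ℂ^g` such that
the line `e + ℂ v` does not meet `Z` is dense. Proof: let `π : ℂ^g → (ι → ℝ)` be a surjective real-linear map with kernel `ℂ v`,
`ι = Fin (2 g - 2)` (the quotient of the real vector space `ℂ^g` by the plane `ℂ v` has the dimension `2 g - 2`). It is Lipschitz and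
an open map. `μH[2g-2] (π Z) = 0` (`LipschitzWith.hausdorffMeasure_image_le`) and `μH[card ι] = volume` on `ι → ℝ`
(`MeasureTheory.hausdorffMeasure_pi_real`), so `π Z` contains no nonempty open set. If the line `e + ℂ v` meets `Z` for all `e` in
a nonempty open set `W`, then `π W ⊆ π Z`, and `π W` is open and nonempty, a contradiction. (`g = 0` is impossible, `g = 1`: `ι` is empty.)

`mer_curve`: there is `w ∉ Z` with `¬ PE (f z0) (f w)` (otherwise `f` is constant outside `Z`). Let `v = w - z0`; `v ≠ 0`. By the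
continuity of `f` (local representatives; the conditions `¬ PE` and `G ≠ 0` are open: for `¬ PE` a minor of the local
representatives is not zero) there is a neighbourhood of `0` such that for `e` in it: `z0 + e, w + e ∉ Z` (`Z` is closed),
`¬ PE (f (z0 + e)) (f (w + e))`, `G(f (z0 + e)) ≠ 0`. By `line_dense` choose such an `e` for which the line `z0 + e + ℂ v` does
not meet `Z`. The map `t ↦ f (z0 + e + t v)` from `ℂ` to the projective space is holomorphic, by `T7aux.exists_lift` (in `G/T7.lean`, which is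
proved; the file in the tar may still be the stub: the statement is
`theorem T7aux.exists_lift {ι : Type} {f : ℂ → ι → ℂ} (hf : ∀ z0, ∃ g : ℂ → ι → ℂ, (∀ i, AnalyticAt ℂ (fun z => g z i) z0) ∧ g z0 ≠ 0 ∧ ∀ᶠ z in 𝓝 z0, PE (f z) (g z)) : ∃ F : ℂ → ι → ℂ, (∀ i, Differentiable ℂ fun z => F z i) ∧ ∀ z, PE (F z) (f z)`)
it has a global vector `h` of homogeneous coordinates. The values at `t = 0` and `t = 1` are different points.
(A function which is differentiable near a point of `ℂ` is analytic there: `Complex.analyticAt_iff_eventually_differentiableAt`.)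
-/

set_option autoImplicit false
set_option linter.overlappingInstances false
set_option linter.unusedSectionVars false

open MvPolynomial Filter Topology Set MeasureTheory

namespace Pool.Agent.H917.G

namespace M1aux

/-- a real linear map with the kernel `ℂ v` -/
theorem exists_proj {g : ℕ} {v : Fin g → ℂ} (hv : v ≠ 0) :
    ∃ π : (Fin g → ℂ) →L[ℝ] (Fin (2 * g - 2) → ℝ), Function.Surjective π ∧
      ∀ (e : Fin g → ℂ) (t : ℂ), π (e + t • v) = π e := by
  classical
  let S : Submodule ℝ (Fin g → ℂ) := (Submodule.span ℂ {v}).restrictScalars ℝ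
  have hS : Module.finrank ℝ S = 2 := by
    have h1 : Module.finrank ℂ (Submodule.span ℂ {v}) = 1 := finrank_span_singleton hv
    have h2 : Module.finrank ℝ (Submodule.span ℂ {v}) = 2 := by
      have h3 := finrank_real_of_complex (Submodule.span ℂ {v})
      rw [h1] at h3
      exact h3
    exact h2
  have hE : Module.finrank ℝ (Fin g → ℂ) = 2 * g := by
    have h3 := finrank_real_of_complex (Fin g → ℂ)
    rw [Module.finrank_fin_fun] at h3
    exact h3
  have hQ : Module.finrank ℝ ((Fin g → ℂ) ⧸ S) = 2 * g - 2 := by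
    have h4 := S.finrank_quotient_add_finrank
    rw [hS, hE] at h4
    omega
  have hQ2 : Module.finrank ℝ ((Fin g → ℂ) ⧸ S) = Module.finrank ℝ (Fin (2 * g - 2) → ℝ) := by
    rw [hQ, Module.finrank_fin_fun]
  let eq : ((Fin g → ℂ) ⧸ S) ≃ₗ[ℝ] (Fin (2 * g - 2) → ℝ) := LinearEquiv.ofFinrankEq _ _ hQ2
  let π₀ : (Fin g → ℂ) →ₗ[ℝ] (Fin (2 * g - 2) → ℝ) := eq.toLinearMap ∘ₗ S.mkQ
  refine ⟨LinearMap.toContinuousLinearMap π₀, ?_, ?_⟩
  · exact eq.surjective.comp S.mkQ_surjective
  · intro e t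
    show eq (S.mkQ (e + t • v)) = eq (S.mkQ e)
    rw [map_add]
    have : S.mkQ (t • v) = 0 := by
      rw [Submodule.mkQ_apply, Submodule.Quotient.mk_eq_zero]
      exact Submodule.smul_mem _ t (Submodule.mem_span_singleton_self v)
    rw [this, add_zero]

theorem pe_ne_zero {ι : Type} {x y : ι → ℂ} (h : PE x y) (hy : y ≠ 0) : x ≠ 0 := by
  obtain ⟨c, hc, h⟩ := h
  obtain ⟨j, hj⟩ := Function.ne_iff.1 hy
  have hj : y j ≠ 0 := hj
  intro h0
  have h1 := h j
  rw [h0] at h1
  exact mul_ne_zero hc hj h1.symm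

theorem eval_smul {n d : ℕ} {G : MvPolynomial (Fin n) ℂ} (hd : G.IsHomogeneous d) (c : ℂ)
    (y : Fin n → ℂ) : eval (c • y) G = c ^ d * eval y G := by
  rw [eval_eq, eval_eq, Finset.mul_sum]
  refine Finset.sum_congr rfl fun m hm => ?_
  have h1 : ∑ i ∈ m.support, m i = d := by
    have h2 := hd (mem_support_iff.1 hm)
    rw [Finsupp.weight_apply, Finsupp.sum] at h2
    rw [← h2]
    refine Finset.sum_congr rfl fun i _ => ?_
    simp
  have h3 : ∏ i ∈ m.support, (c • y) i ^ m i = c ^ d * ∏ i ∈ m.support, y i ^ m i := by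
    rw [← h1, ← Finset.prod_pow_eq_pow_sum, ← Finset.prod_mul_distrib]
    refine Finset.prod_congr rfl fun i _ => ?_
    rw [Pi.smul_apply, smul_eq_mul, mul_pow]
  rw [h3]
  ring

theorem pe_eval {n : ℕ} {x y : Fin n → ℂ} (h : PE x y) {G : MvPolynomial (Fin n) ℂ}
    (hG : ∃ d, G.IsHomogeneous d) (hy : eval y G ≠ 0) : eval x G ≠ 0 := by
  obtain ⟨c, hc, h⟩ := h
  obtain ⟨d, hd⟩ := hG
  have h1 : x = c • y := funext fun i => h i
  rw [h1, eval_smul hd]
  exact mul_ne_zero (pow_ne_zero _ hc) hy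

end M1aux

theorem line_dense {g : ℕ} {Z : Set (Fin g → ℂ)} (hZ : μH[2 * (g : ℝ) - 2] Z = 0)
    {v : Fin g → ℂ} (hv : v ≠ 0) : Dense {e : Fin g → ℂ | ∀ t : ℂ, e + t • v ∉ Z} := by
  have hg : 1 ≤ g := by
    obtain ⟨j, -⟩ := Function.ne_iff.1 hv
    exact Nat.succ_le_of_lt (lt_of_le_of_lt (Nat.zero_le _) j.2)
  obtain ⟨π, hsurj, hπ⟩ := M1aux.exists_proj hv
  have hcard : (2 * (g : ℝ) - 2) = ((Fintype.card (Fin (2 * g - 2)) : ℕ) : ℝ) := by
    rw [Fintype.card_fin, Nat.cast_sub (by omega)]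
    push_cast
    ring
  have hnull : (volume : Measure (Fin (2 * g - 2) → ℝ)) (π '' Z) = 0 := by
    rw [← hausdorffMeasure_pi_real, ← hcard]
    have h1 := π.lipschitz.hausdorffMeasure_image_le (d := 2 * (g : ℝ) - 2)
      (by
        have : (1 : ℝ) ≤ g := by exact_mod_cast hg
        linarith) Z
    rw [hZ, mul_zero] at h1
    exact le_antisymm h1 zero_le
  rw [dense_iff_inter_open]
  intro W hW hWne
  by_contra hcon
  have hsub : π '' W ⊆ π '' Z := by
    rintro _ ⟨e, he, rfl⟩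
    have h2 : ¬ ∀ t : ℂ, e + t • v ∉ Z := fun h => hcon ⟨e, he, h⟩
    push Not at h2
    obtain ⟨t, ht⟩ := h2
    exact ⟨e + t • v, ht, hπ e t⟩
  have hopen : IsOpen (π '' W) := π.isOpenMap hsurj W hW
  exact (hopen.measure_ne_zero volume (hWne.image _)) (measure_mono_null hsub hnull)

theorem mer_curve {g n : ℕ} {Z : Set (Fin g → ℂ)} (hZc : IsClosed Z)
    (hZ : μH[2 * (g : ℝ) - 2] Z = 0) {f : (Fin g → ℂ) → Fin (n + 1) → ℂ} (hf : HolMap Zᶜ f)
    (hnc : ∃ z ∉ Z, ∃ w ∉ Z, ¬ PE (f z) (f w)) {G : MvPolynomial (Fin (n + 1)) ℂ}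
    (hG : ∃ d, G.IsHomogeneous d) {z0 : Fin g → ℂ} (hz0 : z0 ∉ Z) (hG0 : eval (f z0) G ≠ 0) :
    ∃ h : ℂ → Fin (n + 1) → ℂ, Differentiable ℂ h ∧ (∀ t, h t ≠ 0) ∧
      (∀ t, ∃ w ∉ Z, PE (h t) (f w)) ∧ (∃ s t, ¬ PE (h s) (h t)) ∧ ∃ t, eval (h t) G ≠ 0 := by
  -- a second point
  obtain ⟨w, hw, hwne⟩ : ∃ w ∉ Z, ¬ PE (f z0) (f w) := by
    by_contra hcon
    push Not at hcon
    obtain ⟨z, hz, w, hw, hne⟩ := hnc
    exact hne ((hcon z hz).symm.trans (hcon w hw))
  let v : Fin g → ℂ := w - z0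
  have hv : v ≠ 0 := by
    intro h0
    have : w = z0 := sub_eq_zero.1 h0
    rw [this] at hwne
    exact hwne (PE.refl _)
  -- local representatives
  obtain ⟨h1, h1ne, h1ev⟩ := hf z0 hz0
  obtain ⟨h2, h2ne, h2ev⟩ := hf w hw
  have hp1 := h1ev.self_of_nhds
  have hp2 := h2ev.self_of_nhds
  have hnPE : ¬ PE (h1 z0) (h2 w) := fun h => hwne ((hp1.2.trans h).trans hp2.2.symm)
  obtain ⟨i, j, hij⟩ : ∃ i j, h1 z0 i * h2 w j - h1 z0 j * h2 w i ≠ 0 := by
    by_contra hcon
    push Not at hcon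
    exact hnPE (pe_of_minor h1ne h2ne hcon)
  have hcadd : Tendsto (fun e : Fin g → ℂ => e + v) (𝓝 z0) (𝓝 w) := by
    have h3 : Continuous (fun e : Fin g → ℂ => e + v) := continuous_id.add continuous_const
    have h4 := h3.tendsto z0
    have h5 : z0 + v = w := by
      show z0 + (w - z0) = w
      abel
    rwa [h5] at h4
  have hc1 : ContinuousAt h1 z0 := hp1.1.continuousAt
  have hc2 : ContinuousAt h2 w := hp2.1.continuousAt
  have hev1 : ∀ᶠ e in 𝓝 z0, h1 e i * h2 (e + v) j - h1 e j * h2 (e + v) i ≠ 0 := by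
    have h3 : Tendsto (fun e => h1 e i * h2 (e + v) j - h1 e j * h2 (e + v) i) (𝓝 z0)
        (𝓝 (h1 z0 i * h2 w j - h1 z0 j * h2 w i)) := by
      have a1 : ∀ k, Tendsto (fun e => h1 e k) (𝓝 z0) (𝓝 (h1 z0 k)) := fun k =>
        ((continuous_apply k).tendsto _).comp hc1
      have a2 : ∀ k, Tendsto (fun e => h2 (e + v) k) (𝓝 z0) (𝓝 (h2 w k)) := fun k =>
        (((continuous_apply k).tendsto _).comp hc2).comp hcadd
      exact ((a1 i).mul (a2 j)).sub ((a1 j).mul (a2 i))
    exact h3.eventually_ne hij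
  have hG1 : eval (h1 z0) G ≠ 0 := M1aux.pe_eval hp1.2.symm hG hG0
  have hev2 : ∀ᶠ e in 𝓝 z0, eval (h1 e) G ≠ 0 := by
    have h3 : Tendsto (fun e => eval (h1 e) G) (𝓝 z0) (𝓝 (eval (h1 z0) G)) :=
      ((MvPolynomial.continuous_eval G).tendsto _).comp hc1
    exact h3.eventually_ne hG1
  have hev : ∀ᶠ e in 𝓝 z0, ¬ PE (f e) (f (e + v)) ∧ eval (f e) G ≠ 0 := by
    filter_upwards [hev1, hev2, h1ev, hcadd.eventually h2ev] with e he1 he2 he3 he4
    refine ⟨fun h => he1 ?_, M1aux.pe_eval he3.2 hG he2⟩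
    exact ((he3.2.symm.trans h).trans he4.2).minor i j
  -- the line
  obtain ⟨e, ⟨he1, he2⟩, he3⟩ : ∃ e, (¬ PE (f e) (f (e + v)) ∧ eval (f e) G ≠ 0) ∧
      ∀ t : ℂ, e + t • v ∉ Z := by
    have h3 := (line_dense hZ hv).inter_nhds_nonempty hev
    obtain ⟨e, he, he'⟩ := h3
    exact ⟨e, he', he⟩
  have hcont : Continuous (fun t : ℂ => e + t • v) :=
    continuous_const.add (continuous_id.smul continuous_const)
  have hdiff : Differentiable ℂ (fun t : ℂ => e + t • v) :=
    (differentiable_const e).add (differentiable_id.smul_const v)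
  obtain ⟨F, hF1, hF2⟩ := T7aux.exists_lift (f := fun t : ℂ => f (e + t • v)) (by
    intro t0
    obtain ⟨h, hne, hevt⟩ := hf (e + t0 • v) (he3 t0)
    have hevt' := (hcont.tendsto t0).eventually hevt
    refine ⟨fun t => h (e + t • v), fun k => ?_, hne, hevt'.mono fun t ht => ht.2⟩
    rw [Complex.analyticAt_iff_eventually_differentiableAt]
    filter_upwards [hevt'] with t ht
    have h4 : DifferentiableAt ℂ (fun t : ℂ => h (e + t • v)) t := ht.1.comp t (hdiff t)
    exact (differentiableAt_pi.1 h4) k)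
  have hF0 : PE (F 0) (f e) := by
    have := hF2 0
    simpa using this
  have hF1' : PE (F 1) (f (e + v)) := by
    have := hF2 1
    simpa using this
  refine ⟨F, differentiable_pi.2 hF1, fun t => ?_, fun t => ⟨_, he3 t, hF2 t⟩, ⟨0, 1, fun h => ?_⟩,
    ⟨0, M1aux.pe_eval hF0 hG he2⟩⟩
  · obtain ⟨h, hne, hevt⟩ := hf (e + t • v) (he3 t)
    exact M1aux.pe_ne_zero ((hF2 t).trans hevt.self_of_nhds.2) hne
  · exact he1 ((hF0.symm.trans h).trans hF1')

end Pool.Agent.H917.G
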