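import Mathlib

/-!
# PROJECT TORI (helper917), task RANK: finite projections have maximal rank somewhere; stable solutions

`rank_lemma`: let `w` be a holomorphic map from a nonempty convex open set `Ω ⊆ ℂ^r` to `ℂ^ι` with `w_j = 1` and
with injective derivative at every point. Let `L_0, …, L_r` be linear forms on `ℂ^ι` such that every coordinate
`w_k` satisfies on `Ω` a monic homogeneous equation over the `L_t(w)` (`A_i` is a form of degree `e - i`). Then
at some point `c ∈ Ω` some `L_{t0}(w)` is not zero and the map to `ℂ^r` given by the quotients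
`L_t(w)/L_{t0}(w)`, `t ≠ t0`, has an injective derivative.

## Paper proof of `rank_lemma`

(1) At each `c ∈ Ω` some `L_t(w(c)) ≠ 0`: otherwise, since `A_i` is homogeneous of positive degree `e - i`, the
equation gives `w_k(c)^e = 0` for all `k`, but `w_j = 1`. Fix `c_0 ∈ Ω`, `t0` with `L_{t0}(w(c_0)) ≠ 0`; by
continuity replace `Ω` by a small ball around `c_0` on which `L_{t0}(w) ≠ 0`. Put `ℓ_t := L_t(w)/L_{t0}(w)`
(`t ≠ t0`), `g := (ℓ_t)_t`, and `ω_k := w_k/L_{t0}(w)`. Dividing the equation by `L_{t0}(w)^e`, `ω_k` satisfies a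
monic polynomial equation of degree `e` whose coefficients are polynomials in the `ℓ_t`.
(2) For each `k` consider the polynomials `P ∈ (MvPolynomial (Fin r) ℂ)[W]` (one variable `W` over the polynomial
ring) such that `P(ℓ(c), ω_k(c)) = 0` for all `c ∈ Ω` and the leading coefficient of `P`, evaluated at `ℓ(c)`, is
not identically zero on `Ω`. There is one (the monic one). Let `P_k` be one of minimal degree `d_k ≥ 1` (degree `0`
is impossible). Its derivative `P_k'` with respect to `W` has degree `d_k - 1` and leading coefficient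
`d_k · lc(P_k)`, so by minimality `κ_k(c) := P_k'(ℓ(c), ω_k(c))` is not identically zero on `Ω`.
(3) There is one `c ∈ Ω` with `κ_k(c) ≠ 0` for all `k`: functions which are holomorphic on the convex open set
`Ω` and not identically zero have a product which is not identically zero: if `κ(a) ≠ 0`, `κ'(b) ≠ 0`, restrict
both to the complex line through `a` and `b` (intersected with `Ω`: a convex open subset of `ℂ`) and use the
identity theorem in one variable (`AnalyticOnNhd.eqOn_zero_or_eventually_ne_zero_of_preconnected` etc.). Induct.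
(4) At such a `c` let `v ∈ ℂ^r` with `Dg(c) v = 0`. Differentiate `P_k(ℓ, ω_k) = 0` in the direction `v`: the
derivatives of the coefficients vanish, so `κ_k(c) · Dω_k(c) v = 0`, so `Dω_k(c) v = 0` for all `k`. As
`ω_j = 1/L_{t0}(w)`, also `D(L_{t0}(w))(c) v = 0` and so `D(w_k)(c) v = 0` (`w_k = ω_k · L_{t0}(w)`), i.e.
`Dw(c) v = 0` and `v = 0`.

## Paper proof of `stable`

`A := Dg(c)` is an injective linear endomorphism of `ℂ^r`, so a linear equivalence. Choose `κ` small against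
`‖A⁻¹‖⁻¹` and a closed ball `Q ⊆ U` around `c` on which `‖Dg - A‖ ≤ κ/2`; for `ν` large `‖Dg_ν - A‖ ≤ κ` on `Q`, so
(mean value inequality on the convex set `Q`) `g_ν` approximates `A` on `Q` with the constant `κ`
(`ApproximatesLinearOn`), and `ApproximatesLinearOn.surjOn_closedBall_of_nonlinearRightInverse` (or a
contraction argument) shows that `g_ν(Q)` contains a ball of fixed radius around `g_ν(c)`; `g_ν(c) → g(c)`.
-/

set_option autoImplicit false

open MvPolynomial Filter Topology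

namespace Pool.Agent.H917.G

variable {ι : Type} [Fintype ι]

/-- the value of a linear form -/
noncomputable def lin (l : ι → ℂ) (x : ι → ℂ) : ℂ := ∑ k, l k * x k

namespace RANKaux

/-- the value of a form on the point scaled by `a` -/
theorem eval_smul {σ : Type} [Fintype σ] {n : ℕ} {A : MvPolynomial σ ℂ} (hA : A.IsHomogeneous n)
    (a : ℂ) (x : σ → ℂ) : eval (fun s => a * x s) A = a ^ n * eval x A := by
  rw [MvPolynomial.eval_eq', MvPolynomial.eval_eq', Finset.mul_sum]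
  refine Finset.sum_congr rfl (fun d hd => ?_)
  have h1 : ∑ i, d i = n := by
    have := hA (MvPolynomial.mem_support_iff.mp hd)
    rw [← this]
    simp [Finsupp.weight_apply, Finsupp.sum_fintype]
  have h2 : ∏ i, (a * x i) ^ d i = a ^ n * ∏ i, x i ^ d i := by
    rw [← h1, ← Finset.prod_pow_eq_pow_sum, ← Finset.prod_mul_distrib]
    exact Finset.prod_congr rfl (fun i _ => mul_pow _ _ _)
  rw [h2]
  ring

section Core

variable {r : ℕ} {σ : Type}

/-- `v` is in the kernel of the derivatives of all `ℓ_s`: then it is in the kernel of the derivative of a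
polynomial in the `ℓ_s` -/
theorem poly_deriv {ℓ : (Fin r → ℂ) → σ → ℂ} {c v : Fin r → ℂ}
    (hℓ : ∀ s, DifferentiableAt ℂ (fun c => ℓ c s) c)
    (hv : ∀ s, fderiv ℂ (fun c => ℓ c s) c v = 0) (a : MvPolynomial σ ℂ) :
    ∃ F' : (Fin r → ℂ) →L[ℂ] ℂ, HasFDerivAt (fun c => eval (ℓ c) a) F' c ∧ F' v = 0 := by
  induction a using MvPolynomial.induction_on with
  | C a =>
    refine ⟨0, ?_, by simp⟩
    simp only [eval_C]
    exact hasFDerivAt_const a c
  | add p q hp hq =>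
    obtain ⟨p', hp1, hp2⟩ := hp
    obtain ⟨q', hq1, hq2⟩ := hq
    refine ⟨p' + q', ?_, by simp [hp2, hq2]⟩
    simp only [map_add]
    exact hp1.add hq1
  | mul_X p s hp =>
    obtain ⟨p', hp1, hp2⟩ := hp
    have h := hp1.mul (hℓ s).hasFDerivAt
    refine ⟨eval (ℓ c) p • fderiv ℂ (fun c => ℓ c s) c + ℓ c s • p', ?_, ?_⟩
    · simp only [map_mul, eval_X]
      exact h
    · simp [hp2, hv s]

/-- the derivative of `P(ℓ, ω)` in a direction killed by the derivatives of the `ℓ_s` -/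
theorem poly2_deriv {ℓ : (Fin r → ℂ) → σ → ℂ} {ω : (Fin r → ℂ) → ℂ} {c v : Fin r → ℂ}
    (hℓ : ∀ s, DifferentiableAt ℂ (fun c => ℓ c s) c) (hω : DifferentiableAt ℂ ω c)
    (hv : ∀ s, fderiv ℂ (fun c => ℓ c s) c v = 0) (P : Polynomial (MvPolynomial σ ℂ)) :
    ∃ F' : (Fin r → ℂ) →L[ℂ] ℂ, HasFDerivAt (fun c => P.eval₂ (eval (ℓ c)) (ω c)) F' c ∧
      F' v = P.derivative.eval₂ (eval (ℓ c)) (ω c) * fderiv ℂ ω c v := by
  induction P using Polynomial.induction_on' with
  | add p q hp hq =>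
    obtain ⟨p', hp1, hp2⟩ := hp
    obtain ⟨q', hq1, hq2⟩ := hq
    refine ⟨p' + q', ?_, ?_⟩
    · simp only [Polynomial.eval₂_add]
      exact hp1.add hq1
    · rw [Polynomial.derivative_add, Polynomial.eval₂_add, add_mul, ← hp2, ← hq2]
      rfl
  | monomial n a =>
    obtain ⟨a', ha1, ha2⟩ := poly_deriv hℓ hv a
    have h := ha1.mul (hω.hasFDerivAt.pow n)
    refine ⟨eval (ℓ c) a • (n • ω c ^ (n - 1)) • fderiv ℂ ω c + ω c ^ n • a', ?_, ?_⟩
    · simp only [Polynomial.eval₂_monomial]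
      exact h
    · simp [ha2, Polynomial.derivative_monomial, Polynomial.eval₂_monomial]
      ring

theorem poly2_diff {ℓ : (Fin r → ℂ) → σ → ℂ} {ω : (Fin r → ℂ) → ℂ} {c : Fin r → ℂ}
    (hℓ : ∀ s, DifferentiableAt ℂ (fun c => ℓ c s) c) (hω : DifferentiableAt ℂ ω c)
    (P : Polynomial (MvPolynomial σ ℂ)) :
    DifferentiableAt ℂ (fun c => P.eval₂ (eval (ℓ c)) (ω c)) c := by
  obtain ⟨F', h, -⟩ := poly2_deriv (v := 0) hℓ hω (fun s => by simp) P
  exact h.differentiableAt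

/-- an algebraic relation whose derivative is not identically zero -/
theorem good_rel {B : Set (Fin r → ℂ)} {ℓ : (Fin r → ℂ) → σ → ℂ} {ω : (Fin r → ℂ) → ℂ} (hne : B.Nonempty)
    (hfin : ∃ P : Polynomial (MvPolynomial σ ℂ), P.Monic ∧ ∀ c ∈ B, P.eval₂ (eval (ℓ c)) (ω c) = 0) :
    ∃ P : Polynomial (MvPolynomial σ ℂ), (∀ c ∈ B, P.eval₂ (eval (ℓ c)) (ω c) = 0) ∧
      ∃ c ∈ B, P.derivative.eval₂ (eval (ℓ c)) (ω c) ≠ 0 := by
  classical
  have hex : ∃ n : ℕ, ∃ P : Polynomial (MvPolynomial σ ℂ), P.natDegree = n ∧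
      (∀ c ∈ B, P.eval₂ (eval (ℓ c)) (ω c) = 0) ∧ ∃ c ∈ B, eval (ℓ c) P.leadingCoeff ≠ 0 := by
    obtain ⟨P, hP, hP2⟩ := hfin
    obtain ⟨c, hc⟩ := hne
    refine ⟨P.natDegree, P, rfl, hP2, c, hc, ?_⟩
    rw [hP.leadingCoeff]
    simp
  obtain ⟨P, hPn, hP1, hP2⟩ := Nat.find_spec hex
  refine ⟨P, hP1, ?_⟩
  by_contra hcon
  push Not at hcon
  have hdeg : P.natDegree ≠ 0 := by
    intro h0
    obtain ⟨a, ha⟩ := Polynomial.natDegree_eq_zero.mp h0
    obtain ⟨c, hc, hc2⟩ := hP2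
    have h1 := hP1 c hc
    rw [← ha, Polynomial.eval₂_C] at h1
    rw [← ha, Polynomial.leadingCoeff_C] at hc2
    exact hc2 h1
  have hlt := Polynomial.natDegree_derivative_lt hdeg
  rw [hPn] at hlt
  refine Nat.find_min hex hlt ⟨P.derivative, rfl, hcon, ?_⟩
  obtain ⟨c, hc, hc2⟩ := hP2
  refine ⟨c, hc, ?_⟩
  rw [Polynomial.leadingCoeff_derivative, map_mul, map_natCast]
  exact mul_ne_zero hc2 (Nat.cast_ne_zero.mpr hdeg)

/-- a product of two functions which are not identically zero is not identically zero -/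
theorem mul_ne {B : Set (Fin r → ℂ)} (hB : IsOpen B) (hcv : Convex ℝ B)
    {f g : (Fin r → ℂ) → ℂ} (hf : ∀ c ∈ B, DifferentiableAt ℂ f c) (hg : ∀ c ∈ B, DifferentiableAt ℂ g c)
    (hf1 : ∃ c ∈ B, f c ≠ 0) (hg1 : ∃ c ∈ B, g c ≠ 0) : ∃ c ∈ B, f c * g c ≠ 0 := by
  obtain ⟨a, ha, hfa⟩ := hf1
  obtain ⟨b, hb, hgb⟩ := hg1
  by_contra hcon
  push Not at hcon
  let γ : ℂ → (Fin r → ℂ) := fun s => a + s • (b - a)
  have hγ : Differentiable ℂ γ := by
    intro s
    exact ((differentiableAt_id.smul_const (b - a)).const_add a)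
  let V : Set ℂ := γ ⁻¹' B
  have hV : IsOpen V := hB.preimage hγ.continuous
  have hVc : Convex ℝ V := by
    intro s hs t ht p q hp hq hpq
    show γ (p • s + q • t) ∈ B
    have e : γ (p • s + q • t) = p • γ s + q • γ t := by
      funext i
      have hpq' : (p : ℂ) + (q : ℂ) = 1 := by exact_mod_cast hpq
      simp only [γ, Pi.add_apply, Pi.smul_apply, Pi.sub_apply, smul_eq_mul, Complex.real_smul]
      linear_combination (-(a i)) * hpq'
    rw [e]
    exact hcv hs ht hp hq hpq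
  have hfV : AnalyticOnNhd ℂ (fun s => f (γ s)) V := by
    refine DifferentiableOn.analyticOnNhd ?_ hV
    intro s hs
    exact ((hf (γ s) hs).comp s (hγ s)).differentiableWithinAt
  have hgV : AnalyticOnNhd ℂ (fun s => g (γ s)) V := by
    refine DifferentiableOn.analyticOnNhd ?_ hV
    intro s hs
    exact ((hg (γ s) hs).comp s (hγ s)).differentiableWithinAt
  have h0 : (0 : ℂ) ∈ V := by
    show γ 0 ∈ B
    simpa [γ] using ha
  have h1 : (1 : ℂ) ∈ V := by
    show γ 1 ∈ B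
    simpa [γ] using hb
  rcases AnalyticOnNhd.eq_zero_or_eq_zero_of_mul_eq_zero hfV hgV (fun s hs => hcon (γ s) hs)
    hVc.isPreconnected with h | h
  · have := h 0 h0
    simp [γ] at this
    exact hfa this
  · have := h 1 h1
    simp [γ] at this
    exact hgb this

theorem prod_diff {c : Fin r → ℂ} {κ : ι → (Fin r → ℂ) → ℂ} (h : ∀ k, DifferentiableAt ℂ (κ k) c)
    (S : Finset ι) : DifferentiableAt ℂ (fun c => ∏ k ∈ S, κ k c) c := by
  classical
  induction S using Finset.induction_on with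
  | empty => simp
  | insert k S hk ih =>
    have e : (fun c => ∏ i ∈ insert k S, κ i c) = fun c => κ k c * ∏ i ∈ S, κ i c := by
      funext x
      exact Finset.prod_insert hk
    rw [e]
    exact (h k).mul ih

theorem div_fderiv {f g : (Fin r → ℂ) → ℂ} {c : Fin r → ℂ} (hf : DifferentiableAt ℂ f c)
    (hg : DifferentiableAt ℂ g c) (h : g c ≠ 0) :
    ∃ F' : (Fin r → ℂ) →L[ℂ] ℂ, HasFDerivAt (fun x => f x / g x) F' c ∧
      ∀ v, fderiv ℂ f c v = 0 → fderiv ℂ g c v = 0 → F' v = 0 := by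
  have h1 := hf.hasFDerivAt.mul ((hasFDerivAt_inv (𝕜 := ℂ) h).comp c hg.hasFDerivAt)
  refine ⟨_, h1, ?_⟩
  intro v hv1 hv2
  simp [hv1, hv2]

theorem div_diff {f g : (Fin r → ℂ) → ℂ} {c : Fin r → ℂ} (hf : DifferentiableAt ℂ f c)
    (hg : DifferentiableAt ℂ g c) (h : g c ≠ 0) : DifferentiableAt ℂ (fun x => f x / g x) c := by
  obtain ⟨F', h1, -⟩ := div_fderiv hf hg h
  exact h1.differentiableAt

theorem prod_ne {B : Set (Fin r → ℂ)} (hB : IsOpen B) (hcv : Convex ℝ B) (hne : B.Nonempty)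
    {κ : ι → (Fin r → ℂ) → ℂ} (hκ : ∀ k, ∀ c ∈ B, DifferentiableAt ℂ (κ k) c)
    (hκ1 : ∀ k, ∃ c ∈ B, κ k c ≠ 0) : ∃ c ∈ B, ∀ k, κ k c ≠ 0 := by
  classical
  have key : ∀ S : Finset ι, ∃ c ∈ B, ∏ k ∈ S, κ k c ≠ 0 := by
    intro S
    induction S using Finset.induction_on with
    | empty =>
      obtain ⟨c, hc⟩ := hne
      exact ⟨c, hc, by simp⟩
    | insert k S hk ih =>
      obtain ⟨c, hc, h⟩ := mul_ne hB hcv (f := κ k) (g := fun c => ∏ k ∈ S, κ k c) (hκ k)
        (fun c hc => prod_diff (fun k => hκ k c hc) S) (hκ1 k) ih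
      refine ⟨c, hc, ?_⟩
      rw [Finset.prod_insert hk]
      exact h
  obtain ⟨c, hc, h⟩ := key Finset.univ
  refine ⟨c, hc, fun k => ?_⟩
  exact Finset.prod_ne_zero_iff.mp h k (Finset.mem_univ k)

/-- functions algebraic over the `ℓ_s` have at some point derivatives which vanish where those of the `ℓ_s` do -/
theorem core {B : Set (Fin r → ℂ)} (hB : IsOpen B) (hcv : Convex ℝ B) (hne : B.Nonempty)
    {ℓ : (Fin r → ℂ) → σ → ℂ} (hℓ : ∀ c ∈ B, ∀ s, DifferentiableAt ℂ (fun c => ℓ c s) c)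
    {ω : ι → (Fin r → ℂ) → ℂ} (hω : ∀ k, ∀ c ∈ B, DifferentiableAt ℂ (ω k) c)
    (hfin : ∀ k, ∃ P : Polynomial (MvPolynomial σ ℂ), P.Monic ∧
      ∀ c ∈ B, P.eval₂ (eval (ℓ c)) (ω k c) = 0) :
    ∃ c ∈ B, ∀ v, (∀ s, fderiv ℂ (fun c => ℓ c s) c v = 0) → ∀ k, fderiv ℂ (ω k) c v = 0 := by
  choose P hP1 hP2 using fun k => good_rel (ω := ω k) hne (hfin k)
  obtain ⟨c, hc, h⟩ := prod_ne hB hcv hne
    (κ := fun k c => (P k).derivative.eval₂ (eval (ℓ c)) (ω k c))
    (fun k c hc => poly2_diff (hℓ c hc) (hω k c hc) _) hP2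
  refine ⟨c, hc, fun v hv k => ?_⟩
  obtain ⟨F', hF1, hF2⟩ := poly2_deriv (hℓ c hc) (hω k c hc) hv (P k)
  have h0 : F' = 0 := by
    have h1 : HasFDerivAt (fun c => (P k).eval₂ (eval (ℓ c)) (ω k c)) (0 : (Fin r → ℂ) →L[ℂ] ℂ) c := by
      refine (hasFDerivAt_const (0 : ℂ) c).congr_of_eventuallyEq ?_
      filter_upwards [hB.mem_nhds hc] with x hx
      exact hP1 k x hx
    exact hF1.unique h1
  rw [h0] at hF2
  have h2 := hF2.symm
  rw [zero_apply, mul_eq_zero] at h2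
  exact h2.resolve_left (h k)

end Core

end RANKaux

theorem rank_lemma {r : ℕ} {Ω : Set (Fin r → ℂ)} (hΩ : IsOpen Ω) (hc : Convex ℝ Ω)
    (hne : Ω.Nonempty) {w : (Fin r → ℂ) → ι → ℂ} (hw : DifferentiableOn ℂ w Ω) {j : ι}
    (hj : ∀ c ∈ Ω, w c j = 1) (hinj : ∀ c ∈ Ω, Function.Injective (fderiv ℂ w c))
    (L : Fin (r + 1) → ι → ℂ)
    (hfin : ∀ k, ∃ e : ℕ, 1 ≤ e ∧ ∃ A : Fin e → MvPolynomial (Fin (r + 1)) ℂ,
      (∀ i, (A i).IsHomogeneous (e - i)) ∧ ∀ c ∈ Ω,
        w c k ^ e + ∑ i : Fin e, eval (fun t => lin (L t) (w c)) (A i) * w c k ^ (i : ℕ) = 0) :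
    ∃ c ∈ Ω, ∃ t0 : Fin (r + 1), lin (L t0) (w c) ≠ 0 ∧
      Function.Injective (fderiv ℂ (fun (c : Fin r → ℂ) (t : Fin r) =>
        lin (L (t0.succAbove t)) (w c) / lin (L t0) (w c)) c) := by
  classical
  -- (1) the point `c0` and the index `t0`
  obtain ⟨c0, hc0⟩ := hne
  obtain ⟨t0, ht0⟩ : ∃ t0, lin (L t0) (w c0) ≠ 0 := by
    by_contra hcon
    push Not at hcon
    obtain ⟨e, he, A, hA, hA2⟩ := hfin j
    have h1 := hA2 c0 hc0
    rw [hj c0 hc0] at h1
    have h2 : ∀ i : Fin e, eval (fun t => lin (L t) (w c0)) (A i) = 0 := by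
      intro i
      have e1 : (fun t => lin (L t) (w c0)) = fun t => (0 : ℂ) * (0 : Fin (r + 1) → ℂ) t := by
        funext t; rw [hcon t]; simp
      rw [e1, RANKaux.eval_smul (hA i), zero_pow (by have := i.2; omega), zero_mul]
    simp [h2] at h1
  have hwd : ∀ c ∈ Ω, DifferentiableAt ℂ w c := fun c hc => (hw c hc).differentiableAt (hΩ.mem_nhds hc)
  have hwk : ∀ c ∈ Ω, ∀ k, DifferentiableAt ℂ (fun c => w c k) c := fun c hc k =>
    (differentiableAt_pi.mp (hwd c hc)) k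
  have hlin : ∀ c ∈ Ω, ∀ t, DifferentiableAt ℂ (fun c => lin (L t) (w c)) c := by
    intro c hc t
    unfold lin
    exact DifferentiableAt.fun_sum (fun k _ => (hwk c hc k).const_mul _)
  have hnear : ∀ᶠ c in 𝓝 c0, c ∈ Ω ∧ lin (L t0) (w c) ≠ 0 := by
    refine Filter.Eventually.and (hΩ.mem_nhds hc0) ?_
    exact (hlin c0 hc0 t0).continuousAt.eventually_ne ht0
  obtain ⟨ρ, hρ, hball⟩ := Metric.eventually_nhds_iff_ball.mp hnear
  have hB0 : ∀ c ∈ Metric.ball c0 ρ, c ∈ Ω := fun c hc => (hball c hc).1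
  have hB1 : ∀ c ∈ Metric.ball c0 ρ, lin (L t0) (w c) ≠ 0 := fun c hc => (hball c hc).2
  obtain ⟨c, hcB, hcore⟩ := RANKaux.core (ι := ι) (σ := Fin (r + 1)) (B := Metric.ball c0 ρ) Metric.isOpen_ball
    (convex_ball c0 ρ) ⟨c0, Metric.mem_ball_self hρ⟩
    (ℓ := fun c t => lin (L t) (w c) / lin (L t0) (w c))
    (fun c hc t => RANKaux.div_diff (hlin c (hB0 c hc) t) (hlin c (hB0 c hc) t0) (hB1 c hc))
    (ω := fun k c => w c k / lin (L t0) (w c))
    (fun k c hc => RANKaux.div_diff (hwk c (hB0 c hc) k) (hlin c (hB0 c hc) t0) (hB1 c hc)) (by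
      intro k
      obtain ⟨e, he, A, hA, hA2⟩ := hfin k
      refine ⟨Polynomial.X ^ e + ∑ i : Fin e, Polynomial.C (A i) * Polynomial.X ^ (i : ℕ),
        Polynomial.monic_X_pow_add (Polynomial.degree_sum_fin_lt A), ?_⟩
      intro c hc
      have h1 := hA2 c (hB0 c hc)
      have hlam := hB1 c hc
      set lam := lin (L t0) (w c) with hlamdef
      rw [Polynomial.eval₂_add, Polynomial.eval₂_pow, Polynomial.eval₂_X, Polynomial.eval₂_finsetSum]
      have h2 : ∀ i : Fin e, Polynomial.eval₂ (eval (fun t => lin (L t) (w c) / lam)) (w c k / lam)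
          (Polynomial.C (A i) * Polynomial.X ^ (i : ℕ)) =
          (lam⁻¹) ^ e * (eval (fun t => lin (L t) (w c)) (A i) * w c k ^ (i : ℕ)) := by
        intro i
        rw [Polynomial.eval₂_mul, Polynomial.eval₂_pow, Polynomial.eval₂_X, Polynomial.eval₂_C]
        have e1 : (fun t => lin (L t) (w c) / lam) = fun t => lam⁻¹ * lin (L t) (w c) := by
          funext t; rw [div_eq_inv_mul]
        rw [e1, RANKaux.eval_smul (hA i)]
        have e2 : (lam⁻¹) ^ e = (lam⁻¹) ^ (e - (i : ℕ)) * (lam⁻¹) ^ (i : ℕ) := by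
          rw [← pow_add]
          have := i.2
          congr 1; omega
        rw [e2, div_eq_inv_mul, mul_pow]
        ring
      rw [Finset.sum_congr rfl (fun i _ => h2 i), ← Finset.mul_sum, div_eq_inv_mul, mul_pow, ← mul_add, h1,
        mul_zero])
  have hcΩ := hB0 c hcB
  have hlam := hB1 c hcB
  refine ⟨c, hcΩ, t0, hlam, ?_⟩
  rw [injective_iff_map_eq_zero]
  intro v hv
  -- the derivatives of all quotients vanish
  have hdq : ∀ t, DifferentiableAt ℂ (fun c => lin (L t) (w c) / lin (L t0) (w c)) c :=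
    fun t => RANKaux.div_diff (hlin c hcΩ t) (hlin c hcΩ t0) hlam
  have hgd : DifferentiableAt ℂ (fun (c : Fin r → ℂ) (t : Fin r) =>
      lin (L (t0.succAbove t)) (w c) / lin (L t0) (w c)) c :=
    differentiableAt_pi.mpr (fun t => hdq _)
  have hl : ∀ t, fderiv ℂ (fun c => lin (L t) (w c) / lin (L t0) (w c)) c v = 0 := by
    intro t
    by_cases ht : t = t0
    · subst ht
      have h1 : HasFDerivAt (fun c => lin (L t) (w c) / lin (L t) (w c)) (0 : (Fin r → ℂ) →L[ℂ] ℂ) c := by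
        refine (hasFDerivAt_const (1 : ℂ) c).congr_of_eventuallyEq ?_
        filter_upwards [Metric.isOpen_ball.mem_nhds hcB] with x hx
        exact div_self (hB1 x hx)
      rw [h1.fderiv]
      rfl
    · obtain ⟨s, rfl⟩ := Fin.exists_succAbove_eq ht
      have h1 := congrFun hv s
      rw [fderiv_pi (fun t => hdq _)] at h1
      exact h1
  have hω := hcore v hl
  -- the derivative of `w`
  have hwv : ∀ k, fderiv ℂ (fun c => w c k) c v = 0 := by
    intro k
    have hj1 : w c j / lin (L t0) (w c) ≠ 0 := by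
      rw [hj c hcΩ]
      exact div_ne_zero one_ne_zero hlam
    have hdk : ∀ k, DifferentiableAt ℂ (fun c => w c k / lin (L t0) (w c)) c :=
      fun k => RANKaux.div_diff (hwk c hcΩ k) (hlin c hcΩ t0) hlam
    obtain ⟨F', hF1, hF2⟩ := RANKaux.div_fderiv (hdk k) (hdk j) hj1
    have h1 : HasFDerivAt (fun c => w c k) F' c := by
      refine hF1.congr_of_eventuallyEq ?_
      filter_upwards [Metric.isOpen_ball.mem_nhds hcB] with x hx
      show w x k = (w x k / lin (L t0) (w x)) / (w x j / lin (L t0) (w x))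
      rw [hj x (hB0 x hx)]
      have := hB1 x hx
      field_simp
    rw [h1.fderiv]
    exact hF2 v (hω k) (hω j)
  apply hinj c hcΩ
  rw [map_zero]
  have h3 : fderiv ℂ w c = ContinuousLinearMap.pi (fun k => fderiv ℂ (fun c => w c k) c) :=
    fderiv_pi (fun k => hwk c hcΩ k)
  rw [h3]
  funext k
  exact hwv k

theorem stable {r : ℕ} {U : Set (Fin r → ℂ)} (hU : IsOpen U) {c : Fin r → ℂ} (hc : c ∈ U)
    {g : (Fin r → ℂ) → Fin r → ℂ} {G : ℕ → (Fin r → ℂ) → Fin r → ℂ}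
    (hg : ∀ x ∈ U, DifferentiableAt ℂ g x) (hG : ∀ ν, ∀ x ∈ U, DifferentiableAt ℂ (G ν) x)
    (hcont : ContinuousOn (fun x => fderiv ℂ g x) U)
    (hlim : Tendsto (fun ν => G ν c) atTop (𝓝 (g c)))
    (hunif : ∀ ε > 0, ∀ᶠ ν in atTop, ∀ x ∈ U, ‖fderiv ℂ (G ν) x - fderiv ℂ g x‖ ≤ ε)
    (hinj : Function.Injective (fderiv ℂ g c)) :
    ∀ᶠ ν in atTop, ∃ x ∈ U, G ν x = g c := by
  rcases subsingleton_or_nontrivial (Fin r → ℂ) with hs | hs
  · exact Eventually.of_forall (fun ν => ⟨c, hc, Subsingleton.elim _ _⟩)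
  let A : (Fin r → ℂ) ≃L[ℂ] (Fin r → ℂ) :=
    (LinearEquiv.ofInjectiveEndo (fderiv ℂ g c : (Fin r → ℂ) →ₗ[ℂ] (Fin r → ℂ)) hinj).toContinuousLinearEquiv
  have hA : (A : (Fin r → ℂ) →L[ℂ] (Fin r → ℂ)) = fderiv ℂ g c := by
    ext v
    rfl
  let N : NNReal := ‖(A.symm : (Fin r → ℂ) →L[ℂ] (Fin r → ℂ))‖₊
  have hN : 0 < N := by
    have := A.symm.norm_pos
    exact_mod_cast this
  let κ : NNReal := N⁻¹ / 2
  have hκ : 0 < κ := by positivity
  -- a closed ball
  have hev : ∀ᶠ x in 𝓝 c, x ∈ U ∧ ‖fderiv ℂ g x - fderiv ℂ g c‖ ≤ κ / 2 := by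
    refine Filter.Eventually.and (hU.mem_nhds hc) ?_
    have h1 : ContinuousAt (fun x => fderiv ℂ g x) c := hcont.continuousAt (hU.mem_nhds hc)
    have h2 := Metric.continuousAt_iff'.mp h1 (κ / 2) (by positivity)
    filter_upwards [h2] with x hx
    rw [dist_eq_norm] at hx
    exact hx.le
  obtain ⟨ρ, hρ, hball⟩ := Metric.nhds_basis_closedBall.eventually_iff.mp hev
  have hUn := hunif (κ / 2) (by positivity)
  have hlim2 : ∀ᶠ ν in atTop, dist (G ν c) (g c) < (N : ℝ)⁻¹ / 2 * ρ :=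
    (Metric.tendsto_nhds.mp hlim) _ (by positivity)
  filter_upwards [hUn, hlim2] with ν h1 h2
  have hap : ApproximatesLinearOn (G ν) (A : (Fin r → ℂ) →L[ℂ] (Fin r → ℂ)) (Metric.closedBall c ρ) κ := by
    intro x hx y hy
    refine (convex_closedBall c ρ).norm_image_sub_le_of_norm_fderiv_le' (𝕜 := ℂ)
      (fun z hz => hG ν z (hball hz).1) ?_ hy hx
    intro z hz
    rw [hA]
    calc ‖fderiv ℂ (G ν) z - fderiv ℂ g c‖
        = ‖(fderiv ℂ (G ν) z - fderiv ℂ g z) + (fderiv ℂ g z - fderiv ℂ g c)‖ := by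
          rw [sub_add_sub_cancel]
      _ ≤ ‖fderiv ℂ (G ν) z - fderiv ℂ g z‖ + ‖fderiv ℂ g z - fderiv ℂ g c‖ := norm_add_le _ _
      _ ≤ κ / 2 + κ / 2 := add_le_add (h1 z (hball hz).1) (hball hz).2
      _ = κ := by ring
  have hsurj := hap.surjOn_closedBall_of_nonlinearRightInverse A.toNonlinearRightInverse hρ.le
    (le_refl _)
  have hmem : g c ∈ Metric.closedBall (G ν c)
      (((A.toNonlinearRightInverse.nnnorm : ℝ)⁻¹ - κ) * ρ) := by
    rw [Metric.mem_closedBall, dist_comm]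
    refine h2.le.trans (le_of_eq ?_)
    have e1 : (A.toNonlinearRightInverse.nnnorm : ℝ) = N := rfl
    have e2 : (κ : ℝ) = (N : ℝ)⁻¹ / 2 := by
      simp [κ]
    rw [e1, e2]
    ring
  obtain ⟨x, hx, hx2⟩ := hsurj hmem
  exact ⟨x, (hball hx).1, hx2⟩

end Pool.Agent.H917.G
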