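import Pool.Agent.H917.G.G0

/-!
# PROJECT TORI (helper917), task T1: the flow of polynomial vector fields at the time one

The definitions are in `G/G0.lean` (`cmb`, `Fl`, `Rad`, `Zs`) and in `E1.lean`, `E2.lean` (`psum`, `vf`,
`fl`, `flh`, `exists_radius`, `psum_aeval`, `Cv_of_bound`, `hasDeriv_psum`, `fl_der`, `fl_eq`).

## Paper proof

* `exists_rad`: apply `exists_radius` (E2) to the polynomial system in the variables `σ ⊕ Fin r` with
  `θ'(inl v) = ∑_a X (inr a) * rename inl (θ a v)` and `θ'(inr a) = 0` (the parameters `c_a` are treated as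
  variables with zero derivative). By induction `(vf θ')^[k] (rename inl P)` evaluated at `(x, c)` is
  `eval x ((vf (cmb θ c))^[k] P)` (e.g. apply the algebra homomorphism evaluate the `inr`-variables at `c`,
  which intertwines `vf θ'` and `vf (cmb θ c)`). So there is `R₀ > 0` such that for `‖x v‖ ≤ ρ`, `‖c a‖ ≤ 1`:
  `‖eval x ((vf (cmb θ c))^[k] (X v))‖ / k! * R₀ ^ k ≤ ρ`. As `cmb θ (t • c) = C t * cmb θ c`, one has
  `(vf (cmb θ (t • c)))^[k] = t ^ k (vf (cmb θ c))^[k]`, so `R := R₀` works for `Rad` (write `c = R₀ • c'`, `‖c'‖ ≤ 1`).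
* `Rad.bound`: scaling again: for `c ≠ 0` write `c = (‖c‖ / R) • c'` with `‖c'‖ = R`. For `c = 0`, `k ≥ 1` the
  left-hand side is `0`.
* For `‖c‖ < R` choose `R₁ > 1` with `R₁ ‖c‖ ≤ R`. Then `‖coeff k (fl (cmb θ c) x (X v))‖ * R₁ ^ k ≤ ρ`, so
  `fl (cmb θ c) x (X v) ∈ Cv R₁` (`Cv_of_bound`); since `Cv R₁` is a subalgebra the same holds for `fl (cmb θ c) x P`
  for each polynomial `P` (`fl_eq`), and `psum_aeval` gives `Rad.hasSum`.
* `Rad.hasDeriv`: `Fl θ (w • c) x v = psum (fl (cmb θ c) x (X v)) w` for `‖w • c‖ < R` (scaling of the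
  coefficients), then `hasDeriv_psum` with `fl_der`, as in `exists_flow` (E2).
* `Rad.mem`: all terms of the series of `Rad.hasSum` vanish for `P ∈ K`.
* `Rad.close`: the terms with `k ≥ 1` are at most `ρ (‖c‖ / R) ^ k`.
* `Rad.cont`: each term is a polynomial in `(c, x)` (or: continuous in `(c, x)`), and the series converges
  uniformly: the terms are at most `ρ (R' / R) ^ k` (`continuousOn_tsum`).
-/

set_option autoImplicit false
set_option linter.overlappingInstances false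
set_option linter.unusedSectionVars false

open MvPolynomial Filter Topology Metric Set

namespace Pool.Agent.H917.G

namespace T1aux

section alg

variable {σ : Type} [Fintype σ] {r : ℕ}

theorem cmb_smul (θ : Fin r → σ → MvPolynomial σ ℂ) (t : ℂ) (c : Fin r → ℂ) (v : σ) :
    cmb θ (t • c) v = C t * cmb θ c v := by
  simp only [cmb, Pi.smul_apply, smul_eq_mul, map_mul, Finset.mul_sum, mul_assoc]

theorem vf_cmb_smul (θ : Fin r → σ → MvPolynomial σ ℂ) (t : ℂ) (c : Fin r → ℂ)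
    (P : MvPolynomial σ ℂ) : vf (cmb θ (t • c)) P = C t * vf (cmb θ c) P := by
  have h : vf (cmb θ (t • c)) = t • vf (cmb θ c) := by
    refine MvPolynomial.derivation_ext fun i => ?_
    rw [vf_X, Derivation.smul_apply, vf_X, cmb_smul, smul_eq_C_mul]
  rw [h, Derivation.smul_apply, smul_eq_C_mul]

theorem iter_C_mul (D : Derivation ℂ (MvPolynomial σ ℂ) (MvPolynomial σ ℂ)) (t : ℂ) (k : ℕ)
    (P : MvPolynomial σ ℂ) : D^[k] (C t * P) = C t * D^[k] P := by
  induction k with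
  | zero => rfl
  | succ k ih =>
    rw [Function.iterate_succ_apply', ih, Function.iterate_succ_apply', ← smul_eq_C_mul,
      ← smul_eq_C_mul, Derivation.map_smul]

theorem iter_smul (θ : Fin r → σ → MvPolynomial σ ℂ) (t : ℂ) (c : Fin r → ℂ) (k : ℕ)
    (P : MvPolynomial σ ℂ) :
    (vf (cmb θ (t • c)))^[k] P = C (t ^ k) * (vf (cmb θ c))^[k] P := by
  induction k with
  | zero => simp
  | succ k ih =>
    rw [Function.iterate_succ_apply', ih, vf_cmb_smul, Function.iterate_succ_apply',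
      ← smul_eq_C_mul (vf (cmb θ c) _), ← smul_eq_C_mul, Derivation.map_smul, smul_eq_C_mul,
      smul_eq_C_mul, ← mul_assoc, ← C_mul, pow_succ, mul_comm t]

theorem eval_iter_smul (θ : Fin r → σ → MvPolynomial σ ℂ) (t : ℂ) (c : Fin r → ℂ) (k : ℕ)
    (x : σ → ℂ) (P : MvPolynomial σ ℂ) :
    eval x ((vf (cmb θ (t • c)))^[k] P) = t ^ k * eval x ((vf (cmb θ c))^[k] P) := by
  rw [iter_smul, map_mul, eval_C]

theorem vf_cmb (θ : Fin r → σ → MvPolynomial σ ℂ) (c : Fin r → ℂ) (P : MvPolynomial σ ℂ) :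
    vf (cmb θ c) P = ∑ a, C (c a) * vf (θ a) P := by
  induction P using MvPolynomial.induction_on with
  | C a =>
    rw [vf_C]
    simp
  | add p q hp hq =>
    rw [map_add, hp, hq, ← Finset.sum_add_distrib]
    refine Finset.sum_congr rfl fun a _ => ?_
    rw [map_add, mul_add]
  | mul_X p j hp =>
    rw [Derivation.leibniz, hp, vf_X, cmb, smul_eq_mul, smul_eq_mul, Finset.mul_sum,
      Finset.mul_sum, ← Finset.sum_add_distrib]
    refine Finset.sum_congr rfl fun a _ => ?_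
    rw [Derivation.leibniz, vf_X, smul_eq_mul, smul_eq_mul]
    ring

/-- the vector field in the variables and the parameters -/
noncomputable def ext (θ : Fin r → σ → MvPolynomial σ ℂ) :
    σ ⊕ Fin r → MvPolynomial (σ ⊕ Fin r) ℂ :=
  Sum.elim (fun v => ∑ a, X (Sum.inr a) * rename Sum.inl (θ a v)) fun _ => 0

/-- the values of the parameters -/
noncomputable def spc (σ : Type) (c : Fin r → ℂ) :
    MvPolynomial (σ ⊕ Fin r) ℂ →ₐ[ℂ] MvPolynomial σ ℂ :=
  aeval (Sum.elim X fun a => C (c a))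

theorem spc_inl (c : Fin r → ℂ) (v : σ) : spc σ c (X (Sum.inl v)) = X v := by
  rw [spc, aeval_X, Sum.elim_inl]

theorem spc_inr (c : Fin r → ℂ) (a : Fin r) : spc σ c (X (Sum.inr a)) = C (c a) := by
  rw [spc, aeval_X, Sum.elim_inr]

theorem spc_rename (c : Fin r → ℂ) (P : MvPolynomial σ ℂ) : spc σ c (rename Sum.inl P) = P := by
  have h : (spc σ c).comp (rename Sum.inl) = AlgHom.id ℂ (MvPolynomial σ ℂ) := by
    refine MvPolynomial.algHom_ext fun v => ?_
    rw [AlgHom.comp_apply, rename_X, spc_inl, AlgHom.id_apply]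
  exact AlgHom.congr_fun h P

theorem spc_vf (θ : Fin r → σ → MvPolynomial σ ℂ) (c : Fin r → ℂ)
    (Q : MvPolynomial (σ ⊕ Fin r) ℂ) : spc σ c (vf (ext θ) Q) = vf (cmb θ c) (spc σ c Q) := by
  have hX : ∀ j, spc σ c (ext θ j) = vf (cmb θ c) (spc σ c (X j)) := by
    rintro (v | a)
    · rw [spc_inl, vf_X, ext, Sum.elim_inl, map_sum, cmb]
      refine Finset.sum_congr rfl fun a _ => ?_
      rw [map_mul, spc_inr, spc_rename]
    · rw [spc_inr, vf_C, ext, Sum.elim_inr, map_zero]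
  induction Q using MvPolynomial.induction_on with
  | C a =>
    rw [vf_C, map_zero, ← algebraMap_eq, AlgHom.commutes, algebraMap_eq, vf_C]
  | add p q hp hq => rw [map_add, map_add, hp, hq, map_add, map_add]
  | mul_X p j hp =>
    rw [Derivation.leibniz, vf_X, map_add, smul_eq_mul, smul_eq_mul, map_mul, map_mul, hp, hX,
      map_mul, Derivation.leibniz, smul_eq_mul, smul_eq_mul]

theorem spc_iter (θ : Fin r → σ → MvPolynomial σ ℂ) (c : Fin r → ℂ) (k : ℕ)
    (Q : MvPolynomial (σ ⊕ Fin r) ℂ) :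
    spc σ c ((vf (ext θ))^[k] Q) = (vf (cmb θ c))^[k] (spc σ c Q) := by
  induction k with
  | zero => rfl
  | succ k ih => rw [Function.iterate_succ_apply', spc_vf, ih, Function.iterate_succ_apply']

theorem eval_spc (c : Fin r → ℂ) (x : σ → ℂ) (Q : MvPolynomial (σ ⊕ Fin r) ℂ) :
    eval x (spc σ c Q) = eval (Sum.elim x c) Q := by
  have h : (eval x).comp (spc σ c : MvPolynomial (σ ⊕ Fin r) ℂ →+* MvPolynomial σ ℂ) =
      eval (Sum.elim x c) := by
    refine MvPolynomial.ringHom_ext (fun a => ?_) fun j => ?_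
    · rw [RingHom.comp_apply, ← algebraMap_eq]
      change eval x (spc σ c (algebraMap ℂ _ a)) = _
      rw [AlgHom.commutes, algebraMap_eq, algebraMap_eq, eval_C, eval_C]
    · rw [RingHom.comp_apply]
      change eval x (spc σ c (X j)) = _
      rcases j with v | a
      · rw [spc_inl, eval_X, eval_X, Sum.elim_inl]
      · rw [spc_inr, eval_C, eval_X, Sum.elim_inr]
  exact RingHom.congr_fun h Q

theorem eval_iter (θ : Fin r → σ → MvPolynomial σ ℂ) (c : Fin r → ℂ) (x : σ → ℂ) (k : ℕ)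
    (v : σ) : eval x ((vf (cmb θ c))^[k] (X v)) =
      eval (Sum.elim x c) ((vf (ext θ))^[k] (X (Sum.inl v))) := by
  rw [← eval_spc, spc_iter, spc_inl]

end alg

theorem exists_R1 {a b R : ℝ} (hb : 0 ≤ b) (h : a * b < R) : ∃ R₁, a < R₁ ∧ R₁ * b ≤ R := by
  refine ⟨a + (R - a * b) / (b + 1), ?_, ?_⟩
  · have h1 : 0 < (R - a * b) / (b + 1) := div_pos (by linarith) (by linarith)
    linarith
  · have h1 : (R - a * b) / (b + 1) * b ≤ R - a * b := by
      rw [div_mul_eq_mul_div, div_le_iff₀ (by linarith)]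
      nlinarith
    rw [add_mul]
    linarith

theorem aeval_mem {σ : Type} {R : ℝ} {x : σ → PowerSeries ℂ} (hx : ∀ i, x i ∈ Cv R)
    (P : MvPolynomial σ ℂ) : aeval x P ∈ Cv R := by
  have h2 := comp_aeval_apply (f := fun i => (⟨x i, hx i⟩ : Cv R)) (Cv R).val P
  have h3 : (aeval x P : PowerSeries ℂ) = (Cv R).val (aeval (fun i => (⟨x i, hx i⟩ : Cv R)) P) := by
    rw [h2]
    rfl
  rw [h3]
  exact Subtype.property _

section flow

variable {σ : Type} [Fintype σ] {r : ℕ} {θ : Fin r → σ → MvPolynomial σ ℂ} {ρ R : ℝ}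

theorem mem_Cv (h : Rad θ ρ R) {x : σ → ℂ} (hx : ∀ v, ‖x v‖ ≤ ρ) {c : Fin r → ℂ} {R₁ : ℝ}
    (h0 : 0 < R₁) (h1 : R₁ * ‖c‖ ≤ R) (P : MvPolynomial σ ℂ) : fl (cmb θ c) x P ∈ Cv R₁ := by
  have hX : ∀ v, fl (cmb θ c) x (X v) ∈ Cv R₁ := by
    intro v
    refine Cv_of_bound (C := ρ) h0 fun k => ?_
    have h2 := h.bd x hx ((R₁ : ℂ) • c) (by
      rw [norm_smul, Complex.norm_real, Real.norm_of_nonneg h0.le]
      exact h1) v k
    rw [eval_iter_smul, norm_mul, norm_pow, Complex.norm_real, Real.norm_of_nonneg h0.le] at h2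
    rw [coeff_fl, norm_div, Complex.norm_natCast]
    calc _ = R₁ ^ k * ‖eval x ((vf (cmb θ c))^[k] (X v))‖ / k.factorial := by ring
      _ ≤ ρ := h2
  rw [fl_eq]
  exact aeval_mem hX P

theorem psum_smul (x : σ → ℂ) (c : Fin r → ℂ) (w : ℂ) (P : MvPolynomial σ ℂ) :
    psum (fl (cmb θ (w • c)) x P) 1 = psum (fl (cmb θ c) x P) w := by
  rw [psum, psum]
  refine tsum_congr fun k => ?_
  rw [coeff_fl, coeff_fl, eval_iter_smul, one_pow]
  ring

theorem psum_eval (h : Rad θ ρ R) {x : σ → ℂ} (hx : ∀ v, ‖x v‖ ≤ ρ) {c : Fin r → ℂ} {z : ℂ}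
    (hz : ‖z • c‖ < R) (P : MvPolynomial σ ℂ) :
    psum (fl (cmb θ c) x P) z = eval (Fl θ (z • c) x) P := by
  rw [norm_smul] at hz
  obtain ⟨R₁, h1, h2⟩ := exists_R1 (norm_nonneg c) hz
  have h0 : 0 < R₁ := (norm_nonneg z).trans_lt h1
  have h3 := psum_aeval (fun v => mem_Cv h hx h0 h2 (X v)) h1 P
  rw [← fl_eq] at h3
  rw [h3]
  have h4 : Fl θ (z • c) x = fun v => psum (fl (cmb θ c) x (X v)) z := by
    funext v
    exact psum_smul x c z (X v)
  rw [h4]

end flow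

end T1aux

open T1aux

variable {σ : Type} [Fintype σ] {r : ℕ} {θ : Fin r → σ → MvPolynomial σ ℂ} {ρ R : ℝ}

theorem exists_rad (θ : Fin r → σ → MvPolynomial σ ℂ) {ρ : ℝ} (hρ : 1 ≤ ρ) : ∃ R, Rad θ ρ R := by
  obtain ⟨R, hR, h⟩ := exists_radius (ext θ) hρ
  refine ⟨R, hρ, hR, fun x hx c hc v k => ?_⟩
  obtain ⟨c', hc', rfl⟩ : ∃ c' : Fin r → ℂ, ‖c'‖ ≤ 1 ∧ c = (R : ℂ) • c' := by
    refine ⟨(R : ℂ)⁻¹ • c, ?_, ?_⟩
    · rw [norm_smul, norm_inv, Complex.norm_real, Real.norm_of_nonneg hR.le,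
        inv_mul_le_iff₀ hR, mul_one]
      exact hc
    · rw [smul_smul, mul_inv_cancel₀ (by exact_mod_cast hR.ne'), one_smul]
  have h1 := h (Sum.elim x c') (by
    rintro (w | a)
    · exact hx w
    · exact ((norm_le_pi_norm c' a).trans hc').trans hρ) (Sum.inl v) k
  rw [← eval_iter] at h1
  rw [eval_iter_smul, norm_mul, norm_pow, Complex.norm_real, Real.norm_of_nonneg hR.le]
  calc _ = ‖eval x ((vf (cmb θ c'))^[k] (X v))‖ / k.factorial * R ^ k := by ring
    _ ≤ ρ := h1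

theorem Rad.mono (h : Rad θ ρ R) {R' : ℝ} (h0 : 0 < R') (hR : R' ≤ R) : Rad θ ρ R' :=
  ⟨h.one_le, h0, fun x hx c hc v k => h.bd x hx c (hc.trans hR) v k⟩

theorem Rad.bound (h : Rad θ ρ R) {x : σ → ℂ} (hx : ∀ v, ‖x v‖ ≤ ρ) {c : Fin r → ℂ}
    (hc : ‖c‖ ≤ R) (v : σ) (k : ℕ) :
    ‖eval x ((vf (cmb θ c))^[k] (X v))‖ / k.factorial ≤ ρ * (‖c‖ / R) ^ k := by
  have hR := h.pos
  obtain ⟨c', hc', e⟩ : ∃ c' : Fin r → ℂ, ‖c'‖ ≤ R ∧ c = ((‖c‖ / R : ℝ) : ℂ) • c' := by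
    rcases eq_or_ne c 0 with rfl | h0
    · exact ⟨0, by rw [norm_zero]; exact hR.le, by rw [smul_zero]⟩
    · have h1 : 0 < ‖c‖ := norm_pos_iff.2 h0
      refine ⟨((R / ‖c‖ : ℝ) : ℂ) • c, ?_, ?_⟩
      · rw [norm_smul, Complex.norm_real, Real.norm_of_nonneg (by positivity),
          div_mul_cancel₀ _ h1.ne']
      · rw [smul_smul, ← Complex.ofReal_mul, div_mul_div_comm, mul_comm R, div_self
          (mul_pos h1 hR).ne', Complex.ofReal_one, one_smul]
  have hq : 0 ≤ ‖c‖ / R := div_nonneg (norm_nonneg c) hR.le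
  have h1 := h.bd x hx c' hc' v k
  have h2 : ‖eval x ((vf (cmb θ c))^[k] (X v))‖ =
      (‖c‖ / R) ^ k * ‖eval x ((vf (cmb θ c'))^[k] (X v))‖ := by
    have h3 : eval x ((vf (cmb θ c))^[k] (X v)) = (((‖c‖ / R : ℝ) : ℂ)) ^ k *
        eval x ((vf (cmb θ c'))^[k] (X v)) := by
      rw [← eval_iter_smul, ← e]
    rw [h3, norm_mul, norm_pow, Complex.norm_real, Real.norm_of_nonneg hq]
  rw [h2, mul_div_assoc, mul_comm]
  exact mul_le_mul_of_nonneg_right h1 (by positivity)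

theorem Fl_zero (θ : Fin r → σ → MvPolynomial σ ℂ) (x : σ → ℂ) : Fl θ 0 x = x := by
  funext v
  have h := psum_smul (θ := θ) x 0 0 (X v)
  rw [smul_zero, psum_zero, coeff_fl] at h
  rw [Fl, h]
  simp

theorem Rad.hasSum (h : Rad θ ρ R) {x : σ → ℂ} (hx : ∀ v, ‖x v‖ ≤ ρ) {c : Fin r → ℂ}
    (hc : ‖c‖ < R) (P : MvPolynomial σ ℂ) :
    HasSum (fun k : ℕ => eval x ((vf (cmb θ c))^[k] P) / k.factorial) (eval (Fl θ c x) P) := by
  have h1 := psum_eval h hx (c := c) (z := 1) (by rw [one_smul]; exact hc) P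
  rw [one_smul] at h1
  obtain ⟨R₁, h2, h3⟩ := exists_R1 (a := 1) (norm_nonneg c) (by rw [one_mul]; exact hc)
  have h4 := (summable_psum (mem_Cv h hx (by linarith) h3 P) (z := 1)
    (by rw [norm_one]; exact h2)).of_norm.hasSum
  rw [← h1, psum]
  refine h4.congr_fun ?_
  intro k
  rw [coeff_fl, one_pow, mul_one]

theorem Rad.summable (h : Rad θ ρ R) {x : σ → ℂ} (hx : ∀ v, ‖x v‖ ≤ ρ) {c : Fin r → ℂ}
    (hc : ‖c‖ < R) (P : MvPolynomial σ ℂ) :
    Summable fun k : ℕ => ‖eval x ((vf (cmb θ c))^[k] P)‖ / k.factorial := by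
  obtain ⟨R₁, h2, h3⟩ := exists_R1 (a := 1) (norm_nonneg c) (by rw [one_mul]; exact hc)
  refine (summable_psum (mem_Cv h hx (by linarith) h3 P) (z := 1)
    (by rw [norm_one]; exact h2)).congr fun k => ?_
  rw [coeff_fl, one_pow, mul_one, norm_div, Complex.norm_natCast]

theorem Rad.hasDeriv (h : Rad θ ρ R) {x : σ → ℂ} (hx : ∀ v, ‖x v‖ ≤ ρ) {c : Fin r → ℂ} {z : ℂ}
    (hz : ‖z • c‖ < R) (v : σ) :
    HasDerivAt (fun w => Fl θ (w • c) x v) (eval (Fl θ (z • c) x) (cmb θ c v)) z := by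
  have hz' := hz
  rw [norm_smul] at hz'
  obtain ⟨R₁, h1, h2⟩ := exists_R1 (norm_nonneg c) hz'
  have h0 : 0 < R₁ := (norm_nonneg z).trans_lt h1
  have h3 := hasDeriv_psum (mem_Cv h hx h0 h2 (X v)) (g := fl (cmb θ c) x (vf (cmb θ c) (X v)))
    (fun k => fl_der (cmb θ c) x (X v) k) h1
  rw [vf_X, psum_eval h hx hz] at h3
  have h4 : (fun w => Fl θ (w • c) x v) = psum (fl (cmb θ c) x (X v)) := by
    funext w
    exact psum_smul x c w (X v)
  rw [h4]
  exact h3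

theorem Rad.mem (h : Rad θ ρ R) {x : σ → ℂ} (hx : ∀ v, ‖x v‖ ≤ ρ) {c : Fin r → ℂ}
    (hc : ‖c‖ < R) {K : Ideal (MvPolynomial σ ℂ)} (hK : ∀ a, ∀ P ∈ K, vf (θ a) P ∈ K)
    (hxK : x ∈ Zs K) : Fl θ c x ∈ Zs K := by
  intro P hP
  have h1 : ∀ k, (vf (cmb θ c))^[k] P ∈ K := by
    intro k
    induction k with
    | zero => exact hP
    | succ k ih =>
      rw [Function.iterate_succ_apply', vf_cmb]
      exact Ideal.sum_mem K fun a _ => Ideal.mul_mem_left K _ (hK a _ ih)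
  have h2 := h.hasSum hx hc P
  have h3 : HasSum (fun k : ℕ => eval x ((vf (cmb θ c))^[k] P) / (k.factorial : ℂ)) 0 := by
    have h4 : (fun k : ℕ => eval x ((vf (cmb θ c))^[k] P) / (k.factorial : ℂ)) = fun _ => 0 := by
      funext k
      rw [hxK _ (h1 k), zero_div]
    rw [h4]
    exact hasSum_zero
  exact h2.unique h3

theorem Rad.close (h : Rad θ ρ R) {x : σ → ℂ} (hx : ∀ v, ‖x v‖ ≤ ρ) {c : Fin r → ℂ}
    (hc : ‖c‖ < R) (v : σ) : ‖Fl θ c x v - x v‖ ≤ ρ * (‖c‖ / R) / (1 - ‖c‖ / R) := by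
  have hR := h.pos
  have hq0 : 0 ≤ ‖c‖ / R := div_nonneg (norm_nonneg c) hR.le
  have hq1 : ‖c‖ / R < 1 := (div_lt_one hR).2 hc
  have h1 := h.hasSum hx hc (X v)
  rw [eval_X] at h1
  have h2 := (hasSum_nat_add_iff' 1).2 h1
  rw [Finset.sum_range_one] at h2
  have h3 : eval x ((vf (cmb θ c))^[0] (X v)) / ((Nat.factorial 0 : ℕ) : ℂ) = x v := by
    simp
  rw [h3] at h2
  have h4 : HasSum (fun k : ℕ => ρ * (‖c‖ / R) * (‖c‖ / R) ^ k)
      (ρ * (‖c‖ / R) * (1 - ‖c‖ / R)⁻¹) :=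
    (hasSum_geometric_of_lt_one hq0 hq1).mul_left _
  rw [div_eq_mul_inv (ρ * (‖c‖ / R))]
  refine h2.norm_le_of_bounded h4 fun k => ?_
  have h5 := h.bound hx hc.le v (k + 1)
  rw [norm_div, Complex.norm_natCast]
  calc _ ≤ ρ * (‖c‖ / R) ^ (k + 1) := h5
    _ = _ := by ring

theorem Rad.cont (h : Rad θ ρ R) {R' : ℝ} (hR' : R' < R) :
    ContinuousOn (fun p : (Fin r → ℂ) × (σ → ℂ) => Fl θ p.1 p.2)
      (closedBall 0 R' ×ˢ {x | ∀ v, ‖x v‖ ≤ ρ}) := by
  have hR := h.pos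
  have hρ : 0 ≤ ρ := zero_le_one.trans h.one_le
  refine continuousOn_pi.2 fun v => ?_
  have hm0 : 0 ≤ max R' 0 / R := div_nonneg (le_max_right _ _) hR.le
  have hm1 : max R' 0 / R < 1 := (div_lt_one hR).2 (max_lt hR' hR)
  change ContinuousOn (fun p : (Fin r → ℂ) × (σ → ℂ) => ∑' k,
    PowerSeries.coeff k (fl (cmb θ p.1) p.2 (X v)) * 1 ^ k) _
  refine continuousOn_tsum (u := fun k : ℕ => ρ * (max R' 0 / R) ^ k) (fun k => ?_)
    ((summable_geometric_of_lt_one hm0 hm1).mul_left ρ) fun k p hp => ?_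
  · have h1 : (fun p : (Fin r → ℂ) × (σ → ℂ) =>
        PowerSeries.coeff k (fl (cmb θ p.1) p.2 (X v)) * 1 ^ k) = fun p =>
          eval (Sum.elim p.2 p.1) ((vf (ext θ))^[k] (X (Sum.inl v))) / k.factorial := by
      funext p
      rw [coeff_fl, one_pow, mul_one, eval_iter]
    rw [h1]
    have h2 : Continuous fun p : (Fin r → ℂ) × (σ → ℂ) => (Sum.elim p.2 p.1 : σ ⊕ Fin r → ℂ) := by
      refine continuous_pi fun j => ?_
      rcases j with w | a
      · exact (continuous_apply w).comp continuous_snd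
      · exact (continuous_apply a).comp continuous_fst
    exact (((MvPolynomial.continuous_eval _).comp h2).div_const _).continuousOn
  · obtain ⟨hp1, hp2⟩ := hp
    rw [mem_closedBall_zero_iff] at hp1
    have h1 := h.bound hp2 (hp1.trans hR'.le) v k
    rw [coeff_fl, one_pow, mul_one, norm_div, Complex.norm_natCast]
    refine h1.trans (mul_le_mul_of_nonneg_left ?_ hρ)
    refine pow_le_pow_left₀ (div_nonneg (norm_nonneg _) hR.le) ?_ k
    exact div_le_div_of_nonneg_right (hp1.trans (le_max_left _ _)) hR.le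

end Pool.Agent.H917.G
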