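import Pool.Agent.H917.G.G0

/-!
# PROJECT TORI (helper917), task T4: uniqueness of the curves with given velocity

All statements are about the structure `FD` of `G/G0.lean`.

## Paper proof

* `St.chart`: `x` is given by a chart `j0 ∈ J` (`x_{j0} ≠ 0`, `x / x_{j0} ∈ Zs (K j0)`); apply `FD.trans` to
  `x / x_{j0}` and `j`.
* `exists_chart`: `FD.cov` for `x / x_{j0}`.
* `Cv.of_chart`: a curve in the zero set of `K j` (so its `j`-coordinate is `1`) which satisfies the differential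
  equation in the chart `j` satisfies it in all charts: quotient rule and `FD.trans` (with `eval (cmb ..) = ∑ c_a eval ..`).
* `Cv.scale`: the quotients `h_k / h_j` and `g_k / g_j` agree near each point.
* `Cv.chart`: by definition, with `Ω' = {z ∈ Ω | g z j ≠ 0}`.
* `Cv.unique`: choose a chart with `exists_chart`; there both curves `g_i / g_{i,j}` satisfy the same polynomial
  differential equation with the same value at `z0`, so they agree near `z0`: see `flow_unique` (and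
  `hasDeriv_vf`, `iter_vf`, `eq_of_iter`) in `Pool/Agent/H917/E3.lean` on main, whose proofs you may copy (do not
  import `E3`, which imports much more); two vectors with the same quotients by the `j`-coordinate are `PE`.
* `Lc.ident`: the set of the `z ∈ U` with `f1 z = f2 z` is open (by `Cv.unique`) and relatively closed in `U` (at a
  point `z1 ∈ U` of its closure take local coordinates `g1`, `g2` of the two curves near `z1`; the continuous functions
  `g1_i g2_j - g1_j g2_i` vanish at the points of the set near `z1`, so they vanish at `z1`, and `pe_of_minor`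
  applies; states are nonzero vectors). Then use that `U` is preconnected.
* `Lc.comp_add`, `Lc.comp_mul`: chain rule.
-/

set_option autoImplicit false
set_option linter.overlappingInstances false
set_option linter.unusedSectionVars false

open MvPolynomial Filter Topology Metric Set

namespace Pool.Agent.H917.G

namespace T4aux

section jets

variable {σ : Type} [Fintype σ] {θ : σ → MvPolynomial σ ℂ} {x : ℂ → σ → ℂ} {z0 : ℂ}

theorem hasDeriv_vf {z : ℂ} (hx : ∀ v, HasDerivAt (fun w => x w v) (eval (x z) (θ v)) z)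
    (P : MvPolynomial σ ℂ) :
    HasDerivAt (fun w => eval (x w) P) (eval (x z) (vf θ P)) z := by
  induction P using MvPolynomial.induction_on with
  | C a =>
    rw [vf_C, map_zero]
    simp only [eval_C]
    exact hasDerivAt_const z a
  | add p q hp hq =>
    simp only [map_add]
    exact hp.add hq
  | mul_X p v hp =>
    have h1 := hp.mul (hx v)
    simp only [map_mul, eval_X]
    rw [Derivation.leibniz, map_add, vf_X]
    simp only [smul_eq_mul, map_mul, eval_X]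
    refine h1.congr_deriv ?_
    ring

theorem iter_vf (hx : ∀ᶠ z in 𝓝 z0, ∀ v, HasDerivAt (fun w => x w v) (eval (x z) (θ v)) z)
    (P : MvPolynomial σ ℂ) (k : ℕ) :
    ∀ᶠ z in 𝓝 z0, iteratedDeriv k (fun w => eval (x w) P) z = eval (x z) ((vf θ)^[k] P) := by
  induction k with
  | zero => exact Eventually.of_forall fun z => by rw [iteratedDeriv_zero]; rfl
  | succ k ih =>
    filter_upwards [ih.eventually_nhds, hx] with z h1 h2
    rw [iteratedDeriv_succ, Function.iterate_succ_apply']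
    have h3 : deriv (iteratedDeriv k fun w => eval (x w) P) z =
        deriv (fun w => eval (x w) ((vf θ)^[k] P)) z := Filter.EventuallyEq.deriv_eq h1
    rw [h3]
    exact (hasDeriv_vf h2 _).deriv

/-- analytic functions with the same derivatives at a point -/
theorem eq_of_iter {f g : ℂ → ℂ} (hf : AnalyticAt ℂ f z0) (hg : AnalyticAt ℂ g z0)
    (h : ∀ k, iteratedDeriv k f z0 = iteratedDeriv k g z0) : f =ᶠ[𝓝 z0] g := by
  have h1 := hf.hasFPowerSeriesAt
  have h2 := hg.hasFPowerSeriesAt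
  have h3 : (FormalMultilinearSeries.ofScalars ℂ fun k => iteratedDeriv k f z0 / k.factorial) =
      FormalMultilinearSeries.ofScalars ℂ fun k => iteratedDeriv k g z0 / k.factorial := by
    congr 1
    funext k
    rw [h k]
  rw [h3] at h1
  have h4 := h1.sub h2
  rw [sub_self] at h4
  filter_upwards [h4.eventually_eq_zero] with z hz
  exact sub_eq_zero.1 hz

/-- uniqueness of the solutions -/
theorem flow_unique {y : ℂ → σ → ℂ}
    (hx : ∀ᶠ z in 𝓝 z0, ∀ v, HasDerivAt (fun w => x w v) (eval (x z) (θ v)) z)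
    (hy : ∀ᶠ z in 𝓝 z0, ∀ v, HasDerivAt (fun w => y w v) (eval (y z) (θ v)) z)
    (hxy : x z0 = y z0) : ∀ᶠ z in 𝓝 z0, x z = y z := by
  have han : ∀ {x : ℂ → σ → ℂ},
      (∀ᶠ z in 𝓝 z0, ∀ v, HasDerivAt (fun w => x w v) (eval (x z) (θ v)) z) → ∀ v,
      AnalyticAt ℂ (fun w => x w v) z0 := by
    intro x hx v
    rw [Complex.analyticAt_iff_eventually_differentiableAt]
    filter_upwards [hx] with z hz
    exact (hz v).differentiableAt
  have h1 : ∀ v, (fun w => x w v) =ᶠ[𝓝 z0] fun w => y w v := by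
    intro v
    refine eq_of_iter (han hx v) (han hy v) fun k => ?_
    have h2 := (iter_vf hx (X v) k).self_of_nhds
    have h3 := (iter_vf hy (X v) k).self_of_nhds
    simp only [eval_X] at h2 h3
    rw [h2, h3, hxy]
  filter_upwards [Filter.eventually_all.2 h1] with z hz
  funext v
  exact hz v

end jets

theorem eval_cmb {σ : Type} {r : ℕ} (θ : Fin r → σ → MvPolynomial σ ℂ) (c : Fin r → ℂ) (v : σ)
    (x : σ → ℂ) : eval x (cmb θ c v) = ∑ a, c a * eval x (θ a v) := by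
  simp [cmb, map_sum]

end T4aux

namespace FD

variable {ι : Type} [Fintype ι] {r : ℕ} {D : FD ι r}

theorem St.ne_zero {x : ι → ℂ} (hx : D.St x) : x ≠ 0 := by
  obtain ⟨j, -, hj, -⟩ := hx
  intro h
  rw [h] at hj
  exact hj rfl

theorem St.chart {x : ι → ℂ} (hx : D.St x) {j : ι} (hj : j ∈ D.J) (hxj : x j ≠ 0) :
    (fun k => x k / x j) ∈ Zs (D.K j) := by
  obtain ⟨j0, hj0, hx0, hK⟩ := hx
  have h1 := (D.trans j0 hj0 j hj _ hK (div_ne_zero hxj hx0)).1
  have h2 : (fun k => x k / x j0 / (x j / x j0)) = fun k => x k / x j := by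
    funext k
    exact div_div_div_cancel_right₀ hx0 _ _
  rw [h2] at h1
  exact h1

theorem zs_one {j : ι} (hj : j ∈ D.J) {u : ι → ℂ} (hu : u ∈ Zs (D.K j)) : u j = 1 := by
  have h1 := hu _ (D.one j hj)
  rw [map_sub, eval_X, map_one] at h1
  exact sub_eq_zero.1 h1

theorem st_of_zs {j : ι} (hj : j ∈ D.J) {u : ι → ℂ} (hu : u ∈ Zs (D.K j)) : D.St u := by
  have h1 := zs_one hj hu
  refine ⟨j, hj, by rw [h1]; exact one_ne_zero, ?_⟩
  have h2 : (fun k => u k / u j) = u := by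
    funext k
    rw [h1, div_one]
  rw [h2]
  exact hu

theorem exists_chart {x : ι → ℂ} (hx : D.St x) : ∃ j ∈ D.J, x j ≠ 0 ∧
    (fun k => x k / x j) ∈ Zs (D.K j) ∧ ∀ k, ‖x k / x j‖ ≤ D.ρ := by
  have hx' := hx
  obtain ⟨j0, hj0, hx0, hK⟩ := hx'
  obtain ⟨j, hj, hne, hb⟩ := D.cov j0 hj0 _ hK
  have hxj : x j ≠ 0 := fun h => hne (by rw [h, zero_div])
  refine ⟨j, hj, hxj, hx.chart hj hxj, fun k => ?_⟩
  have h1 := hb k
  have h2 : x k / x j = (x k / x j0) / (x j / x j0) := (div_div_div_cancel_right₀ hx0 _ _).symm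
  rw [h2, norm_div, div_le_iff₀ (norm_pos_iff.2 hne)]
  exact h1

/-- each point is given by a bounded vector in a good chart -/
theorem exists_chart_rep (P : D.Pt) : ∃ j ∈ D.J, ∃ u ∈ Zs (D.K j), (∀ k, ‖u k‖ ≤ D.ρ) ∧
    Rep P u := by
  obtain ⟨x, hx⟩ := exists_rep P
  obtain ⟨j, hj, hxj, hK, hb⟩ := exists_chart hx.st
  exact ⟨j, hj, _, hK, hb, hx.of_pe (pe_div hxj).symm⟩

theorem Cv.mono {c : Fin r → ℂ} {Ω Ω' : Set ℂ} {g : ℂ → ι → ℂ} (hg : D.Cv c Ω g) (h : Ω' ⊆ Ω) :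
    D.Cv c Ω' g :=
  ⟨fun k z hz => hg.an k z (h hz), fun z hz => hg.st z (h hz), fun z hz => hg.vel z (h hz)⟩

theorem Cv.of_chart {j : ι} (hj : j ∈ D.J) {c : Fin r → ℂ} {Ω : Set ℂ} (hΩ : IsOpen Ω)
    {g : ℂ → ι → ℂ} (hK : ∀ z ∈ Ω, g z ∈ Zs (D.K j))
    (hg : ∀ z ∈ Ω, ∀ k, HasDerivAt (fun w => g w k) (eval (g z) (cmb (D.th j) c k)) z) :
    D.Cv c Ω g := by
  refine ⟨fun k => ?_, fun z hz => st_of_zs hj (hK z hz), ?_⟩
  · refine DifferentiableOn.analyticOnNhd (fun z hz => ?_) hΩ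
    exact (hg z hz k).differentiableAt.differentiableWithinAt
  · intro z hz j' hj' hne k
    have h1 := (hg z hz k).div (hg z hz j') hne
    refine h1.congr_deriv ?_
    have h2 := (D.trans j hj j' hj' (g z) (hK z hz) hne).2
    rw [T4aux.eval_cmb, T4aux.eval_cmb, T4aux.eval_cmb, div_eq_iff (pow_ne_zero 2 hne),
      Finset.sum_mul, Finset.sum_mul, Finset.mul_sum, ← Finset.sum_sub_distrib]
    refine Finset.sum_congr rfl fun a _ => ?_
    have h3 := h2 a k
    linear_combination (-(c a)) * h3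

theorem Cv.scale {c : Fin r → ℂ} {Ω : Set ℂ} (hΩ : IsOpen Ω) {g h : ℂ → ι → ℂ}
    (hg : D.Cv c Ω g) (han : ∀ k, AnalyticOnNhd ℂ (fun z => h z k) Ω)
    (hgh : ∀ z ∈ Ω, PE (h z) (g z)) : D.Cv c Ω h := by
  refine ⟨han, fun z hz => (hg.st z hz).pe (hgh z hz).symm, ?_⟩
  intro z hz j hj hne k
  have hne' : g z j ≠ 0 := ((hgh z hz).ne_iff j).1 hne
  have h1 := hg.vel z hz j hj hne' k
  have h2 : (fun k => h z k / h z j) = fun k => g z k / g z j :=
    funext fun k => (hgh z hz).div_eq j k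
  rw [h2]
  refine h1.congr_of_eventuallyEq ?_
  filter_upwards [hΩ.mem_nhds hz] with w hw
  exact (hgh w hw).div_eq j k

theorem Cv.chart {c : Fin r → ℂ} {Ω : Set ℂ} (hΩ : IsOpen Ω) {g : ℂ → ι → ℂ}
    (hg : D.Cv c Ω g) {z0 : ℂ} (hz0 : z0 ∈ Ω) {j : ι} (hj : j ∈ D.J) (hgj : g z0 j ≠ 0) :
    ∃ Ω' ⊆ Ω, IsOpen Ω' ∧ z0 ∈ Ω' ∧ (∀ z ∈ Ω', g z j ≠ 0) ∧
      (∀ z ∈ Ω', (fun k => g z k / g z j) ∈ Zs (D.K j)) ∧
      ∀ z ∈ Ω', ∀ k, HasDerivAt (fun w => g w k / g w j)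
        (eval (fun k => g z k / g z j) (cmb (D.th j) c k)) z := by
  have hc : ContinuousOn (fun z => g z j) Ω := (hg.an j).continuousOn
  have hopen : IsOpen (Ω ∩ (fun z => g z j) ⁻¹' {w : ℂ | w ≠ 0}) :=
    hc.isOpen_inter_preimage hΩ isOpen_ne
  exact ⟨Ω ∩ (fun z => g z j) ⁻¹' {w : ℂ | w ≠ 0}, inter_subset_left, hopen, ⟨hz0, hgj⟩,
    fun z hz => hz.2, fun z hz => (hg.st z hz.1).chart hj hz.2,
    fun z hz k => hg.vel z hz.1 j hj hz.2 k⟩

theorem Cv.unique {c : Fin r → ℂ} {Ω1 Ω2 : Set ℂ} (hΩ1 : IsOpen Ω1) (hΩ2 : IsOpen Ω2)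
    {g1 g2 : ℂ → ι → ℂ} (h1 : D.Cv c Ω1 g1) (h2 : D.Cv c Ω2 g2) {z0 : ℂ} (hz1 : z0 ∈ Ω1)
    (hz2 : z0 ∈ Ω2) (h : PE (g1 z0) (g2 z0)) : ∀ᶠ z in 𝓝 z0, PE (g1 z) (g2 z) := by
  obtain ⟨j, hj, hne, -, -⟩ := exists_chart (h1.st z0 hz1)
  have hne2 : g2 z0 j ≠ 0 := (h.ne_iff j).1 hne
  obtain ⟨V1, -, hV1, hzV1, hn1, -, hd1⟩ := h1.chart hΩ1 hz1 hj hne
  obtain ⟨V2, -, hV2, hzV2, hn2, -, hd2⟩ := h2.chart hΩ2 hz2 hj hne2
  have e1 : ∀ᶠ z in 𝓝 z0, ∀ k, HasDerivAt (fun w => (fun k => g1 w k / g1 w j) k)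
      (eval (fun k => g1 z k / g1 z j) (cmb (D.th j) c k)) z := by
    filter_upwards [hV1.mem_nhds hzV1] with z hz k
    exact hd1 z hz k
  have e2 : ∀ᶠ z in 𝓝 z0, ∀ k, HasDerivAt (fun w => (fun k => g2 w k / g2 w j) k)
      (eval (fun k => g2 z k / g2 z j) (cmb (D.th j) c k)) z := by
    filter_upwards [hV2.mem_nhds hzV2] with z hz k
    exact hd2 z hz k
  have e3 := T4aux.flow_unique (x := fun w k => g1 w k / g1 w j)
    (y := fun w k => g2 w k / g2 w j) e1 e2 (funext fun k => h.div_eq j k)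
  filter_upwards [e3, hV1.mem_nhds hzV1, hV2.mem_nhds hzV2] with z hz hz1 hz2
  have e4 : PE (fun k => g1 z k / g1 z j) (g1 z) := pe_div (hn1 z hz1)
  have e5 : PE (fun k => g2 z k / g2 z j) (g2 z) := pe_div (hn2 z hz2)
  have e6 : (fun k => g1 z k / g1 z j) = fun k => g2 z k / g2 z j := hz
  rw [e6] at e4
  exact e4.symm.trans e5

theorem Cv.lc {c : Fin r → ℂ} {Ω : Set ℂ} (hΩ : IsOpen Ω) {g : ℂ → ι → ℂ} (hg : D.Cv c Ω g)
    {f : ℂ → D.Pt} (hf : ∀ z ∈ Ω, Rep (f z) (g z)) : D.Lc c Ω f :=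
  fun _ hz0 => ⟨Ω, hΩ, hz0, g, hg, hf⟩

theorem Lc.mono {c : Fin r → ℂ} {U V : Set ℂ} {f : ℂ → D.Pt} (hf : D.Lc c U f) (h : V ⊆ U) :
    D.Lc c V f := fun z hz => hf z (h hz)

/-- **Uniqueness.** -/
theorem Lc.ident {c : Fin r → ℂ} {U : Set ℂ} (hU : IsPreconnected U) {f1 f2 : ℂ → D.Pt}
    (h1 : D.Lc c U f1) (h2 : D.Lc c U f2) {z0 : ℂ} (hz0 : z0 ∈ U) (h : f1 z0 = f2 z0) :
    ∀ z ∈ U, f1 z = f2 z := by
  have hopenA : IsOpen {z | ∀ᶠ w in 𝓝 z, f1 w = f2 w} := isOpen_setOfPred_eventually_nhds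
  have hopenB : IsOpen {z | ∀ᶠ w in 𝓝 z, f1 w ≠ f2 w} := isOpen_setOfPred_eventually_nhds
  -- local uniqueness
  have key : ∀ z1 ∈ U, f1 z1 = f2 z1 → ∀ᶠ w in 𝓝 z1, f1 w = f2 w := by
    intro z1 hz1 he
    obtain ⟨Ω1, hΩ1, hm1, g1, hg1, hr1⟩ := h1 z1 hz1
    obtain ⟨Ω2, hΩ2, hm2, g2, hg2, hr2⟩ := h2 z1 hz1
    have hPE : PE (g1 z1) (g2 z1) := by
      have e1 := hr1 z1 hm1
      rw [he] at e1
      exact e1.pe (hr2 z1 hm2)
    filter_upwards [hg1.unique hΩ1 hΩ2 hg2 hm1 hm2 hPE, hΩ1.mem_nhds hm1, hΩ2.mem_nhds hm2] with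
      w hw hw1 hw2
    exact (hr1 w hw1).eq (hr2 w hw2) hw
  have hcov : U ⊆ {z | ∀ᶠ w in 𝓝 z, f1 w = f2 w} ∪ {z | ∀ᶠ w in 𝓝 z, f1 w ≠ f2 w} := by
    intro z1 hz1
    by_cases hB : ∀ᶠ w in 𝓝 z1, f1 w ≠ f2 w
    · exact Or.inr hB
    · left
      have hfr : ∃ᶠ w in 𝓝 z1, f1 w = f2 w := by
        intro hcon
        exact hB hcon
      obtain ⟨Ω1, hΩ1, hm1, g1, hg1, hr1⟩ := h1 z1 hz1
      obtain ⟨Ω2, hΩ2, hm2, g2, hg2, hr2⟩ := h2 z1 hz1
      have hmin : ∀ i j, g1 z1 i * g2 z1 j - g1 z1 j * g2 z1 i = 0 := by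
        intro i j
        have hc : ContinuousAt (fun z => g1 z i * g2 z j - g1 z j * g2 z i) z1 := by
          have a1 := (hg1.an i z1 hm1).continuousAt
          have a2 := (hg1.an j z1 hm1).continuousAt
          have a3 := (hg2.an i z1 hm2).continuousAt
          have a4 := (hg2.an j z1 hm2).continuousAt
          exact (a1.mul a4).sub (a2.mul a3)
        have hf0 : ∃ᶠ w in 𝓝 z1, (fun z => g1 z i * g2 z j - g1 z j * g2 z i) w ∈ ({0} : Set ℂ) := by
          have hΩe : ∀ᶠ w in 𝓝 z1, w ∈ Ω1 ∧ w ∈ Ω2 :=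
            Filter.Eventually.and (hΩ1.mem_nhds hm1) (hΩ2.mem_nhds hm2)
          refine (hfr.and_eventually hΩe).mono ?_
          rintro w ⟨hw, hw1, hw2⟩
          have e1 := hr1 w hw1
          rw [hw] at e1
          exact (e1.pe (hr2 w hw2)).minor i j
        by_contra hne
        have h3 : ∀ᶠ w in 𝓝 z1, (fun z => g1 z i * g2 z j - g1 z j * g2 z i) w ≠ 0 :=
          hc.eventually_ne hne
        exact hf0 (h3.mono fun w hw hw' => hw hw')
      have hPE : PE (g1 z1) (g2 z1) :=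
        pe_of_minor (hg1.st z1 hm1).ne_zero (hg2.st z1 hm2).ne_zero hmin
      exact key z1 hz1 ((hr1 z1 hm1).eq (hr2 z1 hm2) hPE)
  intro z hz
  by_contra hne
  have hzB : z ∈ {z | ∀ᶠ w in 𝓝 z, f1 w ≠ f2 w} := by
    rcases hcov hz with h3 | h3
    · exact absurd (Filter.Eventually.self_of_nhds h3) hne
    · exact h3
  obtain ⟨w, -, hwA, hwB⟩ := hU _ _ hopenA hopenB hcov ⟨z0, hz0, key z0 hz0 h⟩ ⟨z, hz, hzB⟩
  have hA : ∀ᶠ v in 𝓝 w, f1 v = f2 v := hwA
  have hB : ∀ᶠ v in 𝓝 w, f1 v ≠ f2 v := hwB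
  exact hB.self_of_nhds hA.self_of_nhds

theorem Lc.comp_add {c : Fin r → ℂ} {U : Set ℂ} {f : ℂ → D.Pt} (hf : D.Lc c U f) (a : ℂ) :
    D.Lc c {z | z + a ∈ U} fun z => f (z + a) := by
  intro z0 hz0
  obtain ⟨Ω, hΩ, hm, g, hg, hr⟩ := hf (z0 + a) hz0
  refine ⟨(fun z => z + a) ⁻¹' Ω, hΩ.preimage (continuous_id.add continuous_const), hm,
    fun z => g (z + a), ⟨fun k z hz => ?_, fun z hz => hg.st _ hz, fun z hz j hj hne k => ?_⟩,
    fun z hz => hr _ hz⟩
  · have h1 : AnalyticAt ℂ (fun w => g w k) (z + a) := hg.an k _ hz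
    have h2 : AnalyticAt ℂ (fun z : ℂ => z + a) z := analyticAt_id.add analyticAt_const
    exact AnalyticAt.comp (g := fun w => g w k) (f := fun z : ℂ => z + a) h1 h2
  · exact (hg.vel (z + a) hz j hj hne k).comp_add_const z a

theorem Lc.comp_mul {c : Fin r → ℂ} {U : Set ℂ} {f : ℂ → D.Pt} (hf : D.Lc c U f) (s : ℂ) :
    D.Lc (s • c) {z | s * z ∈ U} fun z => f (s * z) := by
  intro z0 hz0
  obtain ⟨Ω, hΩ, hm, g, hg, hr⟩ := hf (s * z0) hz0
  refine ⟨(fun z => s * z) ⁻¹' Ω, hΩ.preimage (continuous_const.mul continuous_id), hm,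
    fun z => g (s * z), ⟨fun k z hz => ?_, fun z hz => hg.st _ hz, fun z hz j hj hne k => ?_⟩,
    fun z hz => hr _ hz⟩
  · have h1 : AnalyticAt ℂ (fun w => g w k) (s * z) := hg.an k _ hz
    have h2 : AnalyticAt ℂ (fun z : ℂ => s * z) z := analyticAt_const.mul analyticAt_id
    exact AnalyticAt.comp (g := fun w => g w k) (f := fun z : ℂ => s * z) h1 h2
  · have h1 := hg.vel (s * z) hz j hj hne k
    have h2 : HasDerivAt (fun z : ℂ => s * z) s z := by
      have := (hasDerivAt_id z).const_mul s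
      rwa [mul_one] at this
    have h3 := HasDerivAt.comp z h1 h2
    refine h3.congr_deriv ?_
    rw [T4aux.eval_cmb, T4aux.eval_cmb, Finset.sum_mul]
    refine Finset.sum_congr rfl fun a _ => ?_
    show _ = (s * c a) * _
    ring

end FD

end Pool.Agent.H917.G
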