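import Pool.Agent.H917.G.T3
import Pool.Agent.H917.G.T4

/-!
# PROJECT TORI (helper917), task T10: the global shift

## Paper proof of `Flow.shift`

Fix `a`, `τ` with `‖τ‖ < R`, `c`, `P`. Let `c' = ecx (adm D.f a) τ c`. Both sides are functions of `z ∈ ℂ`; the right-hand side is an
`Lc` in the direction `c'` (`Flow.lc` for the point `F (Pi.single a τ) P`; `z ↦ F (z • c')`), and at `z = 0` both sides are
`F (Pi.single a τ) P` (`Flow.zero`). By `Lc.ident` it is enough that the left-hand side is an `Lc` in the direction `c'`. Let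
`z0 ∈ ℂ`. The curve `z ↦ F (z • c) P` is an `Lc` in the direction `c`, so near `z0` it is given by a `Cv` `g0`; choose a chart
`j ∈ J` for `g0 z0` by `exists_chart` (`‖g0 z0 k / g0 z0 j‖ ≤ ρ`); by `Cv.chart` and continuity there is an open
neighbourhood `U` of `z0` on which `g := g0 / g0_j` satisfies `g z ∈ Zs (K j)`, the differential equation, and `‖g z k‖ ≤ ρ + 1`,
and `g z` represents `F (z • c) P`. Then `F (Pi.single a τ) (F (z • c) P)` is represented by
`h z := Fl (th j) (Pi.single a τ) (g z)` (`Flow.rep`, `‖Pi.single a τ‖ = ‖τ‖ < R`), `h z ∈ Zs (K j)` (`Rad.mem`, T1), and by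
`Rad.shift` (T3) (with `Flow.rad`, `FD.stab`, `FD.brk`) `h` satisfies the differential equation for the direction `c'` in the chart
`j`; so `h` is a `Cv` in the direction `c'` (`Cv.of_chart`).
-/

set_option autoImplicit false
set_option linter.overlappingInstances false
set_option linter.unusedSectionVars false

open MvPolynomial Filter Topology Metric Set

namespace Pool.Agent.H917.G

namespace FD

variable {ι : Type} [Fintype ι] {r : ℕ} {D : FD ι r} {R : ℝ} {F : (Fin r → ℂ) → D.Pt → D.Pt}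

theorem Flow.shift (hR : 0 < R) (hF : D.Flow R F) (a : Fin r) {τ : ℂ} (hτ : ‖τ‖ < R)
    (c : Fin r → ℂ) (z : ℂ) (P : D.Pt) :
    F (Pi.single a τ) (F (z • c) P) =
      F (z • ecx (adm D.f a) τ c) (F (Pi.single a τ) P) := by
  have hnorm : ‖(Pi.single a τ : Fin r → ℂ)‖ < R := by
    rw [Pi.norm_single]
    exact hτ
  have h2 : D.Lc (ecx (adm D.f a) τ c) univ
      (fun z => F (z • ecx (adm D.f a) τ c) (F (Pi.single a τ) P)) := hF.lc _ _
  have h0 : F (Pi.single a τ) (F ((0 : ℂ) • c) P) =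
      F ((0 : ℂ) • ecx (adm D.f a) τ c) (F (Pi.single a τ) P) := by
    rw [zero_smul, zero_smul, hF.zero, hF.zero]
  have h1 : D.Lc (ecx (adm D.f a) τ c) univ (fun z => F (Pi.single a τ) (F (z • c) P)) := by
    intro z0 _
    obtain ⟨Ω, hΩ, hz0, g0, hg0, hrep⟩ := hF.lc c P z0 (mem_univ z0)
    obtain ⟨j, hj, hj0, -, hb0⟩ := exists_chart (hg0.st z0 hz0)
    obtain ⟨Ω', hΩ'Ω, hΩ', hz0', hne, hZ, hder⟩ := hg0.chart hΩ hz0 hj hj0
    have hev : ∀ᶠ z in 𝓝 z0, ∀ k, ‖g0 z k / g0 z j‖ < D.ρ + 1 := by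
      rw [eventually_all]
      intro k
      have hc : ContinuousAt (fun w => ‖g0 w k / g0 w j‖) z0 :=
        (hder z0 hz0' k).continuousAt.norm
      exact hc.eventually (Iio_mem_nhds (lt_of_le_of_lt (hb0 k) (lt_add_one D.ρ)))
    obtain ⟨V, hV, hVo, hz0V⟩ := _root_.eventually_nhds_iff.1 hev
    have hUo : IsOpen (Ω' ∩ V) := hΩ'.inter hVo
    have hUρ : ∀ z ∈ Ω' ∩ V, ∀ k, ‖(fun k => g0 z k / g0 z j) k‖ ≤ D.ρ + 1 :=
      fun z hz k => (hV z hz.2 k).le
    have hUZ : ∀ z ∈ Ω' ∩ V, (fun k => g0 z k / g0 z j) ∈ Zs (D.K j) := fun z hz => hZ z hz.1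
    have hUrep : ∀ z ∈ Ω' ∩ V, Rep (F (z • c) P) (fun k => g0 z k / g0 z j) := fun z hz =>
      (hrep z (hΩ'Ω hz.1)).of_pe (pe_div (hne z hz.1)).symm
    have hsh := (hF.rad j hj).shift (fun a P hP => D.stab j hj a P hP)
      (fun a b v => D.brk j hj a b v) a c hUo (g := fun z k => g0 z k / g0 z j)
      (fun z hz k => hder z hz.1 k) hUZ hUρ hτ
    refine ⟨Ω' ∩ V, hUo, ⟨hz0', hz0V⟩, fun z => Fl (D.th j) (Pi.single a τ)
      (fun k => g0 z k / g0 z j), ?_, ?_⟩
    · exact Cv.of_chart hj hUo (fun z hz => (hF.rad j hj).mem (hUρ z hz) hnorm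
        (fun a P hP => D.stab j hj a P hP) (hUZ z hz)) hsh
    · intro z hz
      exact hF.rep j hj _ (hUZ z hz) (hUρ z hz) _ (hUrep z hz) _ hnorm
  exact Lc.ident isPreconnected_univ h1 h2 (mem_univ 0) h0 z (mem_univ z)

end FD

end Pool.Agent.H917.G
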