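import Pool.Agent.H917.G.G0

/-!
# PROJECT TORI (helper917), task T11a: the exponential `ecx`

## Paper proof

`ecx N τ c = exp(-τ N) c` (`ecx_eq`: the exponential series of the matrix `(-τ) • N` applied to `c`; use the norm
`Matrix.linftyOpNormedRing`, cf. `Pool/Agent/H917/D2.lean` on main; `NormedSpace.expSeries_hasSum..`). Then
`ecx N (τ + τ') c = ecx N τ (ecx N τ' c)`, `ecx N 0 c = c`, and `τ ↦ ecx N τ c` is entire with the derivative
`- N (ecx N τ c)`. If it is bounded it is constant (Liouville, componentwise: `Differentiable.apply_eq_apply_of_bounded`), so the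
derivative at `0`, which is `-N c`, is zero.
-/

set_option autoImplicit false
set_option linter.overlappingInstances false
set_option linter.unusedSectionVars false

open Filter Topology Metric Set

namespace Pool.Agent.H917.G

namespace T11aaux

attribute [local instance] Matrix.linftyOpNormedRing Matrix.linftyOpNormedAlgebra

variable {r : ℕ} (N : Matrix (Fin r) (Fin r) ℂ)

/-- evaluation of an entry of `M c` -/
noncomputable def entry (c : Fin r → ℂ) (e : Fin r) : Matrix (Fin r) (Fin r) ℂ →L[ℂ] ℂ :=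
  LinearMap.toContinuousLinearMap
    { toFun := fun M => (M.mulVec c) e
      map_add' := fun M M' => by rw [Matrix.add_mulVec]; rfl
      map_smul' := fun a M => by rw [Matrix.smul_mulVec]; rfl }

theorem entry_apply (c : Fin r → ℂ) (e : Fin r) (M : Matrix (Fin r) (Fin r) ℂ) :
    entry c e M = (M.mulVec c) e := rfl

theorem ecx_eq (τ : ℂ) (c : Fin r → ℂ) :
    ecx N τ c = (NormedSpace.exp (τ • (-N))).mulVec c := by
  funext e
  have h1 := NormedSpace.exp_series_hasSum_exp' (𝕂 := ℂ) (τ • (-N))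
  have h2 := h1.mapL (entry c e)
  refine Eq.trans ?_ h2.tsum_eq
  unfold ecx
  refine tsum_congr fun k => ?_
  have h3 : (τ • (-N)) ^ k = (-τ) ^ k • N ^ k := by
    rw [smul_neg, ← neg_smul, smul_pow]
  rw [h3, map_smul, map_smul, entry_apply, smul_eq_mul, smul_eq_mul]
  ring

theorem hasDeriv (c : Fin r → ℂ) (τ : ℂ) (e : Fin r) :
    HasDerivAt (fun t : ℂ => ((NormedSpace.exp (t • (-N))).mulVec c) e)
      (-(N.mulVec ((NormedSpace.exp (τ • (-N))).mulVec c)) e) τ := by
  have h1 := hasDerivAt_exp_smul_const' (𝕂 := ℂ) (𝔸 := Matrix (Fin r) (Fin r) ℂ) (-N) τ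
  have h2 := ((entry c e).hasFDerivAt (x := NormedSpace.exp (τ • (-N)))).comp_hasDerivAt τ h1
  have h3 : (entry c e) (-N * NormedSpace.exp (τ • (-N))) =
      -(N.mulVec ((NormedSpace.exp (τ • (-N))).mulVec c)) e := by
    rw [entry_apply, ← Matrix.mulVec_mulVec, Matrix.neg_mulVec]
    rfl
  exact HasDerivAt.congr_deriv h2 h3

theorem expadd (τ τ' : ℂ) : NormedSpace.exp ((τ + τ') • (-N)) =
    NormedSpace.exp (τ • (-N)) * NormedSpace.exp (τ' • (-N)) := by
  rw [add_smul]
  exact Matrix.exp_add_of_commute _ _ (((Commute.refl (-N)).smul_left τ).smul_right τ')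

end T11aaux

variable {r : ℕ} (N : Matrix (Fin r) (Fin r) ℂ)

theorem ecx_zero (c : Fin r → ℂ) : ecx N 0 c = c := by
  rw [T11aaux.ecx_eq, zero_smul, NormedSpace.exp_zero, Matrix.one_mulVec]

theorem ecx_add (τ τ' : ℂ) (c : Fin r → ℂ) : ecx N (τ + τ') c = ecx N τ (ecx N τ' c) := by
  rw [T11aaux.ecx_eq, T11aaux.ecx_eq, T11aaux.ecx_eq, Matrix.mulVec_mulVec, T11aaux.expadd]

theorem ecx_hasDeriv (c : Fin r → ℂ) (τ : ℂ) (e : Fin r) :
    HasDerivAt (fun t => ecx N t c e) (-(N.mulVec (ecx N τ c)) e) τ := by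
  have h1 : (fun t => ecx N t c e) = fun t : ℂ => ((NormedSpace.exp (t • (-N))).mulVec c) e := by
    funext t
    rw [T11aaux.ecx_eq]
  rw [h1, T11aaux.ecx_eq]
  exact T11aaux.hasDeriv N c τ e

theorem ecx_liouville {c : Fin r → ℂ} {B : ℝ} (h : ∀ τ, ‖ecx N τ c‖ ≤ B) : N.mulVec c = 0 := by
  funext e
  have hdiff : Differentiable ℂ fun t => ecx N t c e := fun t =>
    (ecx_hasDeriv N c t e).differentiableAt
  have hb : Bornology.IsBounded (range fun t => ecx N t c e) := by
    rw [isBounded_iff_forall_norm_le]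
    refine ⟨B, ?_⟩
    rintro _ ⟨t, rfl⟩
    exact (norm_le_pi_norm (ecx N t c) e).trans (h t)
  have hconst : (fun t => ecx N t c e) = fun _ => ecx N 0 c e := by
    funext t
    exact hdiff.apply_eq_apply_of_bounded hb t 0
  have h1 := ecx_hasDeriv N c 0 e
  rw [hconst] at h1
  have h2 := h1.unique (hasDerivAt_const (0 : ℂ) (ecx N 0 c e))
  rw [ecx_zero, neg_eq_zero] at h2
  exact h2

end Pool.Agent.H917.G
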