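import Pool.Agent.H917.G.T4
import Pool.Agent.H917.G.AREA

/-!
# PROJECT TORI (helper917), task T8: the Fubini-Study derivative of the curves is comparable to `‖c‖`

`nsq`, `ip`, `dvt`, `eFS` are defined in `G/AREA.lean`.

## Paper proof of `efs_bounds`

* Lagrange's identity: `nsq x * nsq y - ‖ip y x‖² = (1/2) ∑_{i,k} |x_i y_k - x_k y_i|²` for all vectors `x, y`
  (`efs_minor`). So `eFS g z = (1/2) ∑ |g_i g_k' - g_k g_i'|² / nsq (g z)²`, and if `g = λ u` with `λ` holomorphic without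
  zeros near `z` then `g_i g_k' - g_k g_i' = λ² (u_i u_k' - u_k u_i')` and `eFS g z = eFS u z` (`efs_scale`).
* Let `g` be a `Cv` in the direction `c`, `z ∈ Ω`, choose `j` by `exists_chart` and let `u = g / g_j` near `z`
  (`Cv.chart`): `u(z) ∈ Zs (K j)`, `‖u k‖ ≤ ρ` at `z`, `u_j = 1`, `u' = v := eval u (cmb (th j) c)`, `u_j' = v_j = 0`
  (derivative of the constant `1`).
  Upper bound: `eFS u z ≤ nsq v / nsq u ≤ nsq v` (`nsq u ≥ 1`), and `nsq v ≤ κ2 ‖c‖²` as the `v_k` are linear in `c` with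
  coefficients bounded on the box `‖u k‖ ≤ ρ`.
  Lower bound: the terms with `i = j` (and `k = j`) of Lagrange's identity give
  `nsq u * nsq v - ‖ip v u‖² ≥ ∑_k |u_j v_k - u_k v_j|² = nsq v`, so `eFS u z ≥ nsq v / nsq u² ≥ nsq v / (#ι ρ²)²`
  (`nsq u ≤ #ι ρ²`). Finally `nsq v ≥ κ ‖c‖²` with `κ > 0`: `(u, c) ↦ nsq v` is continuous and positive (`FD.ndg`) on the
  compact set of the `u ∈ Zs (K j)` with `‖u k‖ ≤ ρ` and the `c` with `‖c‖ = 1`, and `v` is linear in `c`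
  (`ι` is finite, so one takes the minimum over `j ∈ J`; if the set is empty, any `κ` will do; the case
  `c = 0` is trivial).
-/

set_option autoImplicit false
set_option linter.overlappingInstances false
set_option linter.unusedSectionVars false

open MvPolynomial Filter Topology Metric Set

namespace Pool.Agent.H917.G

namespace T8aux

open AREAaux

variable {ι : Type} [Fintype ι]

lemma ip_left (a b : ℂ) (x y w : ι → ℂ) :
    ip (fun i => a * x i + b * y i) w = a * ip x w + b * ip y w := by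
  unfold ip
  rw [Finset.mul_sum, Finset.mul_sum, ← Finset.sum_add_distrib]
  exact Finset.sum_congr rfl fun i _ => by ring

lemma ip_right (a b : ℂ) (x y w : ι → ℂ) :
    ip w (fun i => a * x i + b * y i) =
      (starRingEnd ℂ) a * ip w x + (starRingEnd ℂ) b * ip w y := by
  unfold ip
  rw [Finset.mul_sum, Finset.mul_sum, ← Finset.sum_add_distrib]
  exact Finset.sum_congr rfl fun i _ => by
    rw [map_add, map_mul, map_mul]
    ring

lemma num_cast (x y : ι → ℂ) : ((nsq x * nsq y - ‖ip y x‖ ^ 2 : ℝ) : ℂ) =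
    ip x x * ip y y - ip y x * ip x y := by
  have h := norm_sq_ip y x
  rw [Complex.ofReal_sub, Complex.ofReal_mul, h, ← ip_self, ← ip_self]

lemma num_scale (a b : ℂ) (x y : ι → ℂ) :
    nsq (fun i => a * x i) * nsq (fun i => b * x i + a * y i) -
      ‖ip (fun i => b * x i + a * y i) (fun i => a * x i)‖ ^ 2 =
    (‖a‖ ^ 2) ^ 2 * (nsq x * nsq y - ‖ip y x‖ ^ 2) := by
  apply Complex.ofReal_injective
  rw [num_cast]
  have h0 : (fun i => a * x i) = fun i => a * x i + 0 * x i := by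
    funext i
    ring
  have ha : ((‖a‖ ^ 2 : ℝ) : ℂ) = a * (starRingEnd ℂ) a := by
    rw [Complex.mul_conj, Complex.normSq_eq_norm_sq]
  rw [Complex.ofReal_mul, num_cast, Complex.ofReal_pow, ha, h0]
  simp only [ip_left, ip_right, map_zero]
  ring

lemma nsq_scale (a : ℂ) (x : ι → ℂ) : nsq (fun i => a * x i) = ‖a‖ ^ 2 * nsq x := by
  unfold nsq
  rw [Finset.mul_sum]
  exact Finset.sum_congr rfl fun i _ => by rw [norm_mul, mul_pow]

lemma one_le_nsq {j : ι} {x : ι → ℂ} (hx : x j = 1) : 1 ≤ nsq x := by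
  have h1 := Finset.single_le_sum (f := fun i => ‖x i‖ ^ 2) (fun i _ => by positivity)
    (Finset.mem_univ j)
  simp only [hx, norm_one, one_pow] at h1
  exact h1

lemma num_lower {j : ι} {x y : ι → ℂ} (hx : x j = 1) (hy : y j = 0) :
    nsq y ≤ nsq x * nsq y - ‖ip y x‖ ^ 2 := by
  classical
  have h1 : ip y x = ip y (Function.update x j 0) := by
    unfold ip
    refine Finset.sum_congr rfl fun i _ => ?_
    by_cases hi : i = j
    · rw [hi, hy, zero_mul, zero_mul]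
    · rw [Function.update_of_ne hi]
  have h2 : nsq (Function.update x j 0) = nsq x - 1 := by
    unfold nsq
    rw [← Finset.add_sum_erase Finset.univ (fun i => ‖Function.update x j 0 i‖ ^ 2)
      (Finset.mem_univ j), ← Finset.add_sum_erase Finset.univ (fun i => ‖x i‖ ^ 2)
      (Finset.mem_univ j)]
    have h3 : ∑ i ∈ Finset.univ.erase j, ‖Function.update x j 0 i‖ ^ 2 =
        ∑ i ∈ Finset.univ.erase j, ‖x i‖ ^ 2 :=
      Finset.sum_congr rfl fun i hi => by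
        rw [Function.update_of_ne (Finset.ne_of_mem_erase hi)]
    rw [h3, Function.update_self, hx]
    simp
  have h3 := cs y (Function.update x j 0)
  rw [h2] at h3
  rw [h1]
  linarith

lemma num_upper (x y : ι → ℂ) : nsq x * nsq y - ‖ip y x‖ ^ 2 ≤ nsq x * nsq y := by
  have : 0 ≤ ‖ip y x‖ ^ 2 := by positivity
  linarith

lemma nsq_le {x : ι → ℂ} {B : ℝ} (h : ∀ i, ‖x i‖ ≤ B) :
    nsq x ≤ Fintype.card ι * B ^ 2 := by
  unfold nsq
  calc ∑ i, ‖x i‖ ^ 2 ≤ ∑ _i : ι, B ^ 2 :=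
        Finset.sum_le_sum fun i _ => pow_le_pow_left₀ (norm_nonneg _) (h i) 2
    _ = Fintype.card ι * B ^ 2 := by
        rw [Finset.sum_const, Finset.card_univ, nsmul_eq_mul]

lemma eval_cmb {σ : Type} {r : ℕ} (θ : Fin r → σ → MvPolynomial σ ℂ) (c : Fin r → ℂ)
    (u : σ → ℂ) (k : σ) : eval u (cmb θ c k) = ∑ a, c a * eval u (θ a k) := by
  unfold cmb
  rw [map_sum]
  exact Finset.sum_congr rfl fun a _ => by rw [map_mul, eval_C]

lemma zs_closed {σ : Type} (K : Ideal (MvPolynomial σ ℂ)) : IsClosed (Zs K) := by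
  have h : Zs K = ⋂ P ∈ K, {x | eval x P = 0} := by
    ext x
    simp only [Zs, Set.mem_iInter]
    rfl
  rw [h]
  exact isClosed_biInter fun P _ => isClosed_eq (MvPolynomial.continuous_eval P) continuous_const

lemma lower_j {r : ℕ} (D : FD ι r) {j : ι} (hj : j ∈ D.J) : ∃ κ : ℝ, 0 < κ ∧
    ∀ u ∈ Zs (D.K j), (∀ k, ‖u k‖ ≤ D.ρ) → ∀ c : Fin r → ℂ,
      κ * ‖c‖ ^ 2 ≤ nsq (fun k => eval u (cmb (D.th j) c k)) := by
  have hρ0 : 0 ≤ D.ρ := zero_le_one.trans D.hρ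
  let F : (ι → ℂ) × (Fin r → ℂ) → ℝ := fun p => nsq (fun k => eval p.1 (cmb (D.th j) p.2 k))
  have hF : Continuous F := by
    have h1 : F = fun p => ∑ k, ‖∑ a, p.2 a * eval p.1 (D.th j a k)‖ ^ 2 := by
      funext p
      simp only [F, nsq, eval_cmb]
    rw [h1]
    refine continuous_finsetSum _ fun k _ => (Continuous.norm ?_).pow 2
    refine continuous_finsetSum _ fun a _ => ?_
    exact ((continuous_apply a).comp continuous_snd).mul
      ((MvPolynomial.continuous_eval (D.th j a k)).comp continuous_fst)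
  let S : Set ((ι → ℂ) × (Fin r → ℂ)) :=
    (Metric.closedBall 0 D.ρ ×ˢ Metric.sphere 0 1) ∩ (Prod.fst ⁻¹' Zs (D.K j))
  have hS : IsCompact S :=
    ((isCompact_closedBall _ _).prod (isCompact_sphere _ _)).inter_right
      ((zs_closed _).preimage continuous_fst)
  have hmem : ∀ u ∈ Zs (D.K j), (∀ k, ‖u k‖ ≤ D.ρ) → ∀ c : Fin r → ℂ, ‖c‖ = 1 →
      ((u, c) : (ι → ℂ) × (Fin r → ℂ)) ∈ S := by
    intro u hu hk c hc
    refine ⟨⟨?_, ?_⟩, hu⟩
    · rw [Metric.mem_closedBall, dist_zero_right]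
      exact (pi_norm_le_iff_of_nonneg hρ0).2 hk
    · rw [Metric.mem_sphere, dist_zero_right]
      exact hc
  have key : ∃ κ : ℝ, 0 < κ ∧ ∀ p ∈ S, κ ≤ F p := by
    by_cases hne : S.Nonempty
    · obtain ⟨p, hp, hmin⟩ := hS.exists_isMinOn hne hF.continuousOn
      refine ⟨F p, ?_, fun q hq => hmin hq⟩
      apply nsq_pos
      intro h0
      have h1 := D.ndg j hj p.1 hp.2 p.2 (fun k => congrFun h0 k)
      have h2 := hp.1.2
      rw [h1, Metric.mem_sphere, dist_zero_right, norm_zero] at h2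
      exact zero_ne_one h2
    · exact ⟨1, one_pos, fun p hp => (hne ⟨p, hp⟩).elim⟩
  obtain ⟨κ, hκ, hmin⟩ := key
  refine ⟨κ, hκ, fun u hu hk c => ?_⟩
  by_cases hc : c = 0
  · rw [hc, norm_zero]
    have := nsq_nonneg (fun k => eval u (cmb (D.th j) (0 : Fin r → ℂ) k))
    simpa using this
  · have hn : 0 < ‖c‖ := norm_pos_iff.2 hc
    have h1 : ‖(((‖c‖ : ℝ) : ℂ)⁻¹) • c‖ = 1 := by
      rw [norm_smul, norm_inv, Complex.norm_real, norm_norm, inv_mul_cancel₀ hn.ne']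
    have h2 := hmin _ (hmem u hu hk _ h1)
    have h3 : (fun k => eval u (cmb (D.th j) c k)) =
        fun k => ((‖c‖ : ℝ) : ℂ) * eval u (cmb (D.th j) ((((‖c‖ : ℝ) : ℂ)⁻¹) • c) k) := by
      funext k
      rw [eval_cmb, eval_cmb, Finset.mul_sum]
      refine Finset.sum_congr rfl fun a _ => ?_
      have hn' : ((‖c‖ : ℝ) : ℂ) ≠ 0 := Complex.ofReal_ne_zero.2 hn.ne'
      rw [Pi.smul_apply, smul_eq_mul, ← mul_assoc, ← mul_assoc, mul_inv_cancel₀ hn', one_mul]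
    rw [h3, nsq_scale, Complex.norm_real, norm_norm, mul_comm]
    exact mul_le_mul_of_nonneg_left h2 (by positivity)

lemma lower_all {r : ℕ} (D : FD ι r) : ∃ κ : ℝ, 0 < κ ∧ ∀ j ∈ D.J,
    ∀ u ∈ Zs (D.K j), (∀ k, ‖u k‖ ≤ D.ρ) → ∀ c : Fin r → ℂ,
      κ * ‖c‖ ^ 2 ≤ nsq (fun k => eval u (cmb (D.th j) c k)) := by
  have h : ∀ j : ι, ∃ κ : ℝ, 0 < κ ∧ (j ∈ D.J → ∀ u ∈ Zs (D.K j), (∀ k, ‖u k‖ ≤ D.ρ) →
      ∀ c : Fin r → ℂ, κ * ‖c‖ ^ 2 ≤ nsq (fun k => eval u (cmb (D.th j) c k))) := by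
    intro j
    by_cases hj : j ∈ D.J
    · obtain ⟨κ, h1, h2⟩ := lower_j D hj
      exact ⟨κ, h1, fun _ => h2⟩
    · exact ⟨1, one_pos, fun h => (hj h).elim⟩
  choose κ hκ hκ' using h
  have hs : ∀ j, (κ j)⁻¹ ≤ 1 + ∑ j, (κ j)⁻¹ := by
    intro j
    have := Finset.single_le_sum (f := fun j => (κ j)⁻¹) (fun i _ => (inv_pos.2 (hκ i)).le)
      (Finset.mem_univ j)
    linarith
  have hpos : 0 < 1 + ∑ j, (κ j)⁻¹ :=
    add_pos_of_pos_of_nonneg one_pos (Finset.sum_nonneg fun i _ => (inv_pos.2 (hκ i)).le)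
  refine ⟨(1 + ∑ j, (κ j)⁻¹)⁻¹, inv_pos.2 hpos, fun j hj u hu hk c => ?_⟩
  refine le_trans ?_ (hκ' j hj u hu hk c)
  refine mul_le_mul_of_nonneg_right ?_ (by positivity)
  exact inv_le_of_inv_le₀ (hκ j) (hs j)

lemma upper_all {r : ℕ} (D : FD ι r) : ∃ κ : ℝ, 0 ≤ κ ∧ ∀ (j : ι) (u : ι → ℂ),
    (∀ k, ‖u k‖ ≤ D.ρ) → ∀ c : Fin r → ℂ,
      nsq (fun k => eval u (cmb (D.th j) c k)) ≤ κ * ‖c‖ ^ 2 := by
  have hρ0 : 0 ≤ D.ρ := zero_le_one.trans D.hρ
  have h : ∀ q : ι × Fin r × ι, ∃ M : ℝ, 0 ≤ M ∧ ∀ u : ι → ℂ, (∀ k, ‖u k‖ ≤ D.ρ) →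
      ‖eval u (D.th q.1 q.2.1 q.2.2)‖ ≤ M := by
    intro q
    obtain ⟨M, hM⟩ := (isCompact_closedBall (0 : ι → ℂ) D.ρ).exists_bound_of_continuousOn
      (MvPolynomial.continuous_eval (D.th q.1 q.2.1 q.2.2)).continuousOn
    refine ⟨max M 0, le_max_right _ _, fun u hu => (hM u ?_).trans (le_max_left _ _)⟩
    rw [Metric.mem_closedBall, dist_zero_right]
    exact (pi_norm_le_iff_of_nonneg hρ0).2 hu
  choose M hM hM' using h
  set B := ∑ q, M q with hB
  have hB0 : 0 ≤ B := Finset.sum_nonneg fun q _ => hM q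
  have hMB : ∀ q, M q ≤ B := fun q => Finset.single_le_sum (f := M) (fun i _ => hM i)
    (Finset.mem_univ q)
  refine ⟨Fintype.card ι * (r * B) ^ 2, by positivity, fun j u hu c => ?_⟩
  have h1 : ∀ k, ‖eval u (cmb (D.th j) c k)‖ ≤ r * B * ‖c‖ := by
    intro k
    rw [eval_cmb]
    calc ‖∑ a, c a * eval u (D.th j a k)‖ ≤ ∑ a, ‖c a * eval u (D.th j a k)‖ := norm_sum_le _ _
      _ ≤ ∑ _a : Fin r, ‖c‖ * B := by
          refine Finset.sum_le_sum fun a _ => ?_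
          rw [norm_mul]
          exact mul_le_mul (norm_le_pi_norm c a) ((hM' (j, a, k) u hu).trans (hMB _))
            (norm_nonneg _) (norm_nonneg _)
      _ = r * B * ‖c‖ := by
          rw [Finset.sum_const, Finset.card_univ, Fintype.card_fin, nsmul_eq_mul]
          ring
  refine (nsq_le h1).trans (le_of_eq ?_)
  ring

end T8aux

theorem efs_scale {ι : Type} [Fintype ι] {g u : ℂ → ι → ℂ} {l : ℂ → ℂ} {z : ℂ}
    (hu : ∀ k, DifferentiableAt ℂ (fun w => u w k) z) (hl : DifferentiableAt ℂ l z) (hl0 : l z ≠ 0)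
    (h : ∀ᶠ w in 𝓝 z, ∀ k, g w k = l w * u w k) : eFS g z = eFS u z := by
  have hgz : g z = fun i => l z * u z i := funext fun k => h.self_of_nhds k
  have hd : dvt g z = fun i => deriv l z * u z i + l z * dvt u z i := by
    funext k
    have h1 : (fun w => g w k) =ᶠ[𝓝 z] fun w => l w * u w k := h.mono fun w hw => hw k
    change deriv (fun w => g w k) z = _
    rw [h1.deriv_eq]
    exact (hl.hasDerivAt.mul (hu k).hasDerivAt).deriv
  have hl2 : (‖l z‖ ^ 2) ^ 2 ≠ 0 := pow_ne_zero _ (pow_ne_zero _ (norm_ne_zero_iff.2 hl0))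
  unfold eFS
  rw [hgz, hd, T8aux.num_scale, T8aux.nsq_scale, mul_pow, mul_div_mul_left _ _ hl2]

namespace FD

variable {ι : Type} [Fintype ι] {r : ℕ}

theorem efs_bounds (D : FD ι r) : ∃ κ1 κ2 : ℝ, 0 < κ1 ∧ 0 ≤ κ2 ∧ ∀ (c : Fin r → ℂ) (Ω : Set ℂ)
    (g : ℂ → ι → ℂ), IsOpen Ω → D.Cv c Ω g → ∀ z ∈ Ω,
      κ1 * ‖c‖ ^ 2 ≤ eFS g z ∧ eFS g z ≤ κ2 * ‖c‖ ^ 2 := by
  obtain ⟨κ, hκ, hlow⟩ := T8aux.lower_all D
  obtain ⟨κ2, hκ2, hup⟩ := T8aux.upper_all D
  set B : ℝ := Fintype.card ι * D.ρ ^ 2 + 1 with hB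
  have hB0 : 0 < B := by positivity
  refine ⟨κ / B ^ 2, κ2, by positivity, hκ2, fun c Ω g hΩ hg z hz => ?_⟩
  obtain ⟨j, hj, hgj, hK, hb⟩ := exists_chart (hg.st z hz)
  set u : ℂ → ι → ℂ := fun w k => g w k / g w j with hu
  set v : ι → ℂ := fun k => eval (u z) (cmb (D.th j) c k) with hv
  have hder : ∀ k, HasDerivAt (fun w => u w k) (v k) z := hg.vel z hz j hj hgj
  have hnz : ∀ᶠ w in 𝓝 z, g w j ≠ 0 :=
    (hg.an j z hz).continuousAt.eventually_ne hgj
  have hscale : eFS g z = eFS u z := by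
    refine efs_scale (l := fun w => g w j) (fun k => (hder k).differentiableAt)
      (hg.an j z hz).differentiableAt hgj (hnz.mono fun w hw k => ?_)
    rw [hu]
    field_simp
  have huj : u z j = 1 := div_self hgj
  have hvj : v j = 0 := by
    have h1 : (fun w => u w j) =ᶠ[𝓝 z] fun _ => (1 : ℂ) := hnz.mono fun w hw => div_self hw
    have h2 : HasDerivAt (fun w => u w j) 0 z := (hasDerivAt_const z (1 : ℂ)).congr_of_eventuallyEq h1
    exact (hder j).unique h2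
  have hdvt : dvt u z = v := funext fun k => (hder k).deriv
  have h1 : 1 ≤ nsq (u z) := T8aux.one_le_nsq huj
  have h2 : nsq (u z) ≤ B := (T8aux.nsq_le hb).trans (by rw [hB]; linarith)
  have h3 := T8aux.num_lower huj hvj
  have h4 := T8aux.num_upper (u z) v
  have h5 := hlow j hj (u z) hK hb c
  have h6 := hup j (u z) hb c
  have hp : 0 < nsq (u z) := by linarith
  rw [hscale]
  unfold eFS
  rw [hdvt]
  constructor
  · rw [le_div_iff₀ (by positivity)]
    have h7 : nsq (u z) ^ 2 ≤ B ^ 2 := pow_le_pow_left₀ hp.le h2 2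
    calc κ / B ^ 2 * ‖c‖ ^ 2 * nsq (u z) ^ 2 ≤ κ / B ^ 2 * ‖c‖ ^ 2 * B ^ 2 :=
          mul_le_mul_of_nonneg_left h7 (by positivity)
      _ = κ * ‖c‖ ^ 2 := by field_simp
      _ ≤ nsq v := h5
      _ ≤ _ := h3
  · rw [div_le_iff₀ (by positivity)]
    have h8 : 0 ≤ nsq v := AREAaux.nsq_nonneg v
    calc nsq (u z) * nsq v - ‖ip v (u z)‖ ^ 2 ≤ nsq (u z) * nsq v := h4
      _ ≤ nsq (u z) ^ 2 * nsq v := by
          refine mul_le_mul_of_nonneg_right ?_ h8
          nlinarith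
      _ = nsq v * nsq (u z) ^ 2 := mul_comm _ _
      _ ≤ κ2 * ‖c‖ ^ 2 * nsq (u z) ^ 2 := mul_le_mul_of_nonneg_right h6 (by positivity)

end FD

end Pool.Agent.H917.G
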