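import Pool.Agent.H917.G.T1
import Pool.Agent.H917.G.T4
import Pool.Agent.H917.G.AREA

/-!
# PROJECT TORI (helper917), task T9: small flows move the points little

## Paper proof of `Flow.close`

Represent `P` by a pair `(j, u)` of `exists_chart_rep` (T4): `u ∈ Zs (K j)`, `‖u k‖ ≤ ρ`, `u j = 1`. For `‖c‖ < R` the point
`F c P` is represented by `w := Fl (th j) c u` (`Flow.rep`) and by `Rad.close` (T1)
`‖w k - u k‖ ≤ (ρ + 1) (‖c‖ / R) / (1 - ‖c‖ / R)`, which is at most `η := 1 / (6 * (#ι + 1))` if `‖c‖ < δ`, `δ` small (independent of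
`P`). The inequality is invariant under rescaling both vectors, so it is enough to show
`nsq u * nsq w ≤ 2 ‖ip u w‖²`: with `|·| = sqrt nsq` one has `|u| ≥ 1`, `|w - u| ≤ 1/6 ≤ |u| / 6`,
`‖ip u w‖ ≥ |u|² - |u| |w - u| ≥ (5/6) |u|²` (Cauchy-Schwarz: `‖ip u x‖² ≤ nsq u * nsq x`) and `|w| ≤ (7/6) |u|`, and
`(7/6)² = 49/36 ≤ 2 * 25/36`.
-/

set_option autoImplicit false
set_option linter.overlappingInstances false
set_option linter.unusedSectionVars false

open MvPolynomial Filter Topology Metric Set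

namespace Pool.Agent.H917.G

namespace T9aux

variable {ι : Type} [Fintype ι]

theorem ip_add_right (u v w : ι → ℂ) : ip u (v + w) = ip u v + ip u w := by
  unfold ip
  rw [← Finset.sum_add_distrib]
  refine Finset.sum_congr rfl fun i _ => ?_
  rw [Pi.add_apply, map_add]
  ring

theorem ip_add_left (u v w : ι → ℂ) : ip (u + v) w = ip u w + ip v w := by
  unfold ip
  rw [← Finset.sum_add_distrib]
  refine Finset.sum_congr rfl fun i _ => ?_
  rw [Pi.add_apply]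
  ring

theorem norm_ip_self (u : ι → ℂ) : ‖ip u u‖ = nsq u := by
  rw [AREAaux.ip_self, Complex.norm_real, Real.norm_eq_abs, abs_of_nonneg (AREAaux.nsq_nonneg u)]

theorem norm_ip_comm (u v : ι → ℂ) : ‖ip u v‖ = ‖ip v u‖ := by
  rw [← AREAaux.ip_conj u v]
  exact (Complex.norm_conj _).symm

/-- the estimate for normalised vectors -/
theorem core {u d : ι → ℂ} (hA : 1 ≤ nsq u) (hE : nsq d ≤ 1 / 36) :
    nsq u * nsq (u + d) ≤ 2 * ‖ip u (u + d)‖ ^ 2 := by
  have hA0 : 0 ≤ nsq u := AREAaux.nsq_nonneg u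
  have hE0 : 0 ≤ nsq d := AREAaux.nsq_nonneg d
  have hp0 : 0 ≤ ‖ip u d‖ := norm_nonneg _
  have hp : ‖ip u d‖ ≤ nsq u / 6 := by
    apply le_of_sq_le_sq _ (by positivity)
    have h1 := AREAaux.cs u d
    nlinarith
  have hw : nsq (u + d) ≤ 49 / 36 * nsq u := by
    have h1 : ip (u + d) (u + d) = ip u u + ip u d + (ip d u + ip d d) := by
      rw [ip_add_left, ip_add_right, ip_add_right]
    have h2 : nsq (u + d) ≤ nsq u + ‖ip u d‖ + (‖ip d u‖ + nsq d) := by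
      rw [← norm_ip_self (u + d), h1, ← norm_ip_self u, ← norm_ip_self d]
      exact (norm_add_le _ _).trans (add_le_add (norm_add_le _ _) (norm_add_le _ _))
    rw [norm_ip_comm d u] at h2
    linarith
  have hi : 5 / 6 * nsq u ≤ ‖ip u (u + d)‖ := by
    rw [ip_add_right]
    have h1 : ‖ip u u‖ ≤ ‖ip u u + ip u d‖ + ‖ip u d‖ := by
      have h2 := norm_sub_le (ip u u + ip u d) (ip u d)
      rwa [add_sub_cancel_right] at h2
    rw [norm_ip_self] at h1
    linarith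
  have h3 : (5 / 6 * nsq u) ^ 2 ≤ ‖ip u (u + d)‖ ^ 2 := pow_le_pow_left₀ (by positivity) hi 2
  have h4 : nsq u * nsq (u + d) ≤ nsq u * (49 / 36 * nsq u) := mul_le_mul_of_nonneg_left hw hA0
  nlinarith

theorem scale {x y u w : ι → ℂ} (hx : PE x u) (hy : PE y w)
    (h : nsq u * nsq w ≤ 2 * ‖ip u w‖ ^ 2) : nsq x * nsq y ≤ 2 * ‖ip x y‖ ^ 2 := by
  obtain ⟨a, _, ha⟩ := hx
  obtain ⟨b, _, hb⟩ := hy
  have h1 : nsq x = ‖a‖ ^ 2 * nsq u := by
    unfold nsq
    rw [Finset.mul_sum]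
    refine Finset.sum_congr rfl fun i _ => ?_
    rw [ha, norm_mul, mul_pow]
  have h2 : nsq y = ‖b‖ ^ 2 * nsq w := by
    unfold nsq
    rw [Finset.mul_sum]
    refine Finset.sum_congr rfl fun i _ => ?_
    rw [hb, norm_mul, mul_pow]
  have h3 : ip x y = a * (starRingEnd ℂ) b * ip u w := by
    unfold ip
    rw [Finset.mul_sum]
    refine Finset.sum_congr rfl fun i _ => ?_
    rw [ha, hb, map_mul]
    ring
  have h4 : ‖ip x y‖ = ‖a‖ * ‖b‖ * ‖ip u w‖ := by
    rw [h3, norm_mul, norm_mul]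
    congr 2
    exact Complex.norm_conj b
  rw [h1, h2, h4]
  have h5 : 0 ≤ ‖a‖ ^ 2 * ‖b‖ ^ 2 := by positivity
  have h6 := mul_le_mul_of_nonneg_left h h5
  nlinarith

theorem nsq_small {d : ι → ℂ} (h : ∀ i, ‖d i‖ ≤ 1 / (6 * ((Fintype.card ι : ℝ) + 1))) :
    nsq d ≤ 1 / 36 := by
  have hn : (0 : ℝ) ≤ (Fintype.card ι : ℝ) := Nat.cast_nonneg _
  have h1 : nsq d ≤ ∑ _i : ι, (1 / (6 * ((Fintype.card ι : ℝ) + 1))) ^ 2 := by
    unfold nsq
    exact Finset.sum_le_sum fun i _ => pow_le_pow_left₀ (norm_nonneg _) (h i) 2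
  rw [Finset.sum_const, Finset.card_univ, nsmul_eq_mul] at h1
  refine h1.trans ?_
  rw [div_pow, one_pow, mul_one_div, div_le_div_iff₀ (by positivity) (by norm_num)]
  nlinarith

end T9aux

namespace FD

variable {ι : Type} [Fintype ι] {r : ℕ} {D : FD ι r} {R : ℝ} {F : (Fin r → ℂ) → D.Pt → D.Pt}

theorem Flow.close (hR : 0 < R) (hF : D.Flow R F) : ∃ δ > 0, ∀ c : Fin r → ℂ, ‖c‖ < δ →
    ∀ (P : D.Pt) (x y : ι → ℂ), Rep P x → Rep (F c P) y → nsq x * nsq y ≤ 2 * ‖ip x y‖ ^ 2 := by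
  have hρ : 1 ≤ D.ρ := D.hρ
  have hn : (0 : ℝ) ≤ (Fintype.card ι : ℝ) := Nat.cast_nonneg _
  have hη : 0 < 1 / (6 * ((Fintype.card ι : ℝ) + 1)) := by positivity
  refine ⟨min (R / 2) (1 / (6 * ((Fintype.card ι : ℝ) + 1)) * R / (2 * (D.ρ + 1))),
    lt_min (by positivity) (by positivity), ?_⟩
  intro c hc P x y hx hy
  obtain ⟨hc1, hc2⟩ := lt_min_iff.1 hc
  obtain ⟨j, hj, u, hu, hub, hPu⟩ := exists_chart_rep P
  have hub' : ∀ k, ‖u k‖ ≤ D.ρ + 1 := fun k => (hub k).trans (by linarith)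
  have hcR : ‖c‖ < R := by linarith
  have hw := hF.rep j hj u hu hub' P hPu c hcR
  have hcl : ∀ k, ‖Fl (D.th j) c u k - u k‖ ≤ 1 / (6 * ((Fintype.card ι : ℝ) + 1)) := by
    intro k
    refine ((hF.rad j hj).close hub' hcR k).trans ?_
    have h1 : ‖c‖ / R ≤ 1 / 2 := by
      rw [div_le_iff₀ hR]
      linarith
    have h2 : 0 < 1 - ‖c‖ / R := by linarith
    rw [div_le_iff₀ h2]
    have h3 : (D.ρ + 1) * (‖c‖ / R) ≤ 1 / (6 * ((Fintype.card ι : ℝ) + 1)) / 2 := by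
      rw [lt_div_iff₀ (by positivity)] at hc2
      rw [mul_div_assoc', div_le_iff₀ hR]
      linarith
    nlinarith
  have hA : 1 ≤ nsq u := by
    have h1 : ‖u j‖ ^ 2 ≤ nsq u := by
      unfold nsq
      exact Finset.single_le_sum (f := fun i => ‖u i‖ ^ 2) (fun i _ => by positivity)
        (Finset.mem_univ j)
    rw [zs_one hj hu, norm_one, one_pow] at h1
    exact h1
  have hcore := T9aux.core (u := u) (d := Fl (D.th j) c u - u) hA
    (T9aux.nsq_small fun i => by rw [Pi.sub_apply]; exact hcl i)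
  rw [add_sub_cancel] at hcore
  exact T9aux.scale (hx.pe hPu) (hy.pe hw) hcore

end FD

end Pool.Agent.H917.G
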