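import Pool.Agent.H917.G.T7
import Pool.Agent.H917.G.T8
import Pool.Agent.H917.G.T9
import Pool.Agent.H917.G.T10
import Pool.Agent.H917.G.T11a

/-!
# PROJECT TORI (helper917), task T11: the vector fields commute

## Paper proof of `Flow.comm`

Fix `a : Fin r`, `N = adm D.f a`, `c : Fin r → ℂ`. By `ecx_liouville` (T11a) it is enough that
`κ1 ‖ecx N τ c‖² ≤ κ2 ‖c‖²` for all `τ`, with `κ1`, `κ2` of `efs_bounds` (T8); indeed then `N c = 0` for all `c`, so
`D.f a b e = (N e_b)_e = 0`. Fix `τ`, and let `n ≥ 1` be such that `‖τ / n‖ < min δ R` (`δ` of `Flow.close`, T9). Let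
`P_k = F (Pi.single a (k τ / n)) P0`, `c_k = ecx N (k τ / n) c`. By `Flow.add` (on the line `ℂ · Pi.single a 1`)
`P_{k+1} = F (Pi.single a (τ/n)) P_k`, by `ecx_add` `c_{k+1} = ecx N (τ/n) c_k`, and by `Flow.shift` (T10)
`F (Pi.single a (τ/n)) (F (z • c_k) P_k) = F (z • c_{k+1}) P_{k+1}` for all `z`. Let `f_k : ℂ → ι → ℂ` be the entire `Cv` in the
direction `c_k` which represents `z ↦ F (z • c_k) P_k` (`Flow.lc`, `Lc.lift`, T7). `Flow.close` gives
`nsq (f_k z) * nsq (f_{k+1} z) ≤ 2 ‖ip (f_k z) (f_{k+1} z)‖²`. Apply `area` (G/AREA.lean) to `f_0, …, f_n` with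
`A = κ1 ‖c_n‖²`, `B = κ2 ‖c_0‖²`, `C = κ2 (max_k ‖c_k‖)²` (or the sum of the `‖c_k‖²`): `κ1 ‖c_n‖² ≤ κ2 ‖c‖²`, `c_n = ecx N τ c`.
-/

set_option autoImplicit false
set_option linter.overlappingInstances false
set_option linter.unusedSectionVars false

open MvPolynomial Filter Topology Metric Set

namespace Pool.Agent.H917.G

namespace FD

variable {ι : Type} [Fintype ι] {r : ℕ} {D : FD ι r} {R : ℝ} {F : (Fin r → ℂ) → D.Pt → D.Pt}

theorem Flow.comm (hR : 0 < R) (hF : D.Flow R F) (P0 : D.Pt) (a b e : Fin r) :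
    D.f a b e = 0 := by
  set N := adm D.f a with hN
  obtain ⟨κ1, κ2, hκ1, -, hκ⟩ := efs_bounds D
  obtain ⟨δ, hδ, hclose⟩ := Flow.close hR hF
  have key : ∀ (c : Fin r → ℂ) (τ : ℂ), κ1 * ‖ecx N τ c‖ ^ 2 ≤ κ2 * ‖c‖ ^ 2 := by
    intro c τ
    obtain ⟨n, hn⟩ := exists_nat_gt (‖τ‖ / min δ R)
    have hm : 0 < min δ R := lt_min hδ hR
    have hn0 : (0 : ℝ) < n := lt_of_le_of_lt (div_nonneg (norm_nonneg _) hm.le) hn
    have hnC : (n : ℂ) ≠ 0 := by
      have : (n : ℝ) ≠ 0 := hn0.ne'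
      exact_mod_cast this
    set t : ℂ := τ / n with ht
    have htn : ‖t‖ < min δ R := by
      rw [ht, norm_div, Complex.norm_natCast, div_lt_iff₀ hn0]
      rwa [div_lt_iff₀ hm, mul_comm] at hn
    have htδ : ‖t‖ < δ := lt_of_lt_of_le htn (min_le_left _ _)
    have htR : ‖t‖ < R := lt_of_lt_of_le htn (min_le_right _ _)
    set w : Fin r → ℂ := Pi.single a t with hw
    have hwn : ‖w‖ < δ := by rwa [hw, Pi.norm_single]
    set P : ℕ → D.Pt := fun k => F ((k : ℂ) • w) P0 with hP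
    set C : ℕ → Fin r → ℂ := fun k => ecx N ((k : ℂ) * t) c with hC
    have hPs : ∀ k, P (k + 1) = F w (P k) := by
      intro k
      have h1 := hF.add w (k : ℂ) 1 P0
      rw [one_smul] at h1
      show F (((k + 1 : ℕ) : ℂ) • w) P0 = _
      rw [Nat.cast_add, Nat.cast_one, h1]
    have hCs : ∀ k, C (k + 1) = ecx N t (C k) := by
      intro k
      show ecx N (((k + 1 : ℕ) : ℂ) * t) c = ecx N t (ecx N ((k : ℂ) * t) c)
      rw [← ecx_add]
      congr 1
      push_cast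
      ring
    have hsh : ∀ k (z : ℂ), F w (F (z • C k) (P k)) = F (z • C (k + 1)) (P (k + 1)) := by
      intro k z
      rw [hw, Flow.shift hR hF a htR (C k) z (P k), ← hN, ← hCs, ← hw, ← hPs]
    have hlift : ∀ k, ∃ g : ℂ → ι → ℂ, D.Cv (C k) univ g ∧
        ∀ z, Rep (F (z • C k) (P k)) (g z) := fun k => (hF.lc (C k) (P k)).lift
    choose g hg hrep using hlift
    have hC0 : C 0 = c := by
      show ecx N (((0 : ℕ) : ℂ) * t) c = c
      rw [Nat.cast_zero, zero_mul, ecx_zero]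
    have hCn : C n = ecx N τ c := by
      show ecx N ((n : ℂ) * t) c = _
      rw [ht, mul_div_cancel₀ _ hnC]
    have hbound : ∀ k z, κ1 * ‖C k‖ ^ 2 ≤ eFS (g k) z ∧ eFS (g k) z ≤ κ2 * ‖C k‖ ^ 2 :=
      fun k z => hκ (C k) univ (g k) isOpen_univ (hg k) z (mem_univ z)
    have harea := area (A := κ1 * ‖C n‖ ^ 2) (B := κ2 * ‖C 0‖ ^ 2)
      (C := ∑ k ∈ Finset.range (n + 1), |κ2 * ‖C k‖ ^ 2|) n g
      (fun k _ i => by
        have h1 := (hg k).an i
        have h2 := h1.differentiableOn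
        rwa [differentiableOn_univ] at h2)
      (fun k _ z h0 => by
        obtain ⟨j, -, hj, -⟩ := (hg k).st z (mem_univ z)
        apply hj
        rw [h0]
        rfl)
      (fun z => (hbound n z).1) (fun z => (hbound 0 z).2)
      (fun k hk z => by
        refine (hbound k z).2.trans ((le_abs_self _).trans ?_)
        exact Finset.single_le_sum (f := fun k => |κ2 * ‖C k‖ ^ 2|)
          (fun i _ => abs_nonneg _) (Finset.mem_range.2 (by omega)))
      (fun k _ z => by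
        refine hclose w hwn (F (z • C k) (P k)) (g k z) (g (k + 1) z) (hrep k z) ?_
        rw [hsh]
        exact hrep (k + 1) z)
    rw [hC0, hCn] at harea
    exact harea
  have h0 : ∀ c : Fin r → ℂ, N.mulVec c = 0 := by
    intro c
    refine ecx_liouville N (B := κ2 * ‖c‖ ^ 2 / κ1 + 1) fun τ => ?_
    have h1 := key c τ
    have h2 : ‖ecx N τ c‖ ^ 2 ≤ κ2 * ‖c‖ ^ 2 / κ1 := by
      rw [le_div_iff₀ hκ1]; linarith
    nlinarith [sq_nonneg (‖ecx N τ c‖ - 1), norm_nonneg (ecx N τ c), sq_nonneg ‖ecx N τ c‖]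
  have h3 := congrFun (h0 (Pi.single b 1)) e
  rw [Matrix.mulVec_single_one] at h3
  exact h3

end FD

end Pool.Agent.H917.G
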