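import Pool.Agent.H917.G.T2
import Pool.Agent.H917.G.T4

/-!
# PROJECT TORI (helper917), task T12: the action of `ℂ^r`

## Paper proof

If all structure constants vanish, `FD.brk` says that the hypothesis `hcomm` of `Rad.hasFDeriv` (T2) holds in all good
charts.

`Flow.add_small`: let `‖a‖ + ‖b‖ < R` (`a, b : Fin r → ℂ`), and let `(j, u)` be a pair of `exists_chart_rep` for `P`. Consider the open
convex set `U = {z : ℂ | ‖a + z • b‖ < R}`; it contains `0` and `1`. On `U` the curve `z ↦ F (a + z • b) P` is represented by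
`Fl (th j) (a + z • b) u` (`Flow.rep`), whose derivative is `vel (th j) (..) b = eval (..) (cmb (th j) b ·)` by
`Rad.hasFDeriv` (chain rule; `vel_apply`) and which lies in `Zs (K j)` (`Rad.mem`), so it is a `Cv` in the direction `b`
(`Cv.of_chart`). The curve `z ↦ F (z • b) (F a P)` is an `Lc` in the direction `b` (`Flow.lc`). Both have the value `F a P` at
`0`, so they agree at `z = 1` (`Lc.ident`).

`Flow.add_all`: for `n` large `F (c / n)` are small; from `Flow.add` and induction `F c = (F (c / n))^[n]`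
(`c / n = (1 / n : ℂ) • c`); `F (a / n)` and `F (b / n)` commute by `add_small` and `F ((a + b) / n) = F (b / n) ∘ F (a / n)`; take
the `n`-th iterate (`Function.Commute.comp_iterate`).

`Flow.hol`: choose `(j, u)` for the point `F c0 P` (`exists_chart_rep`). For `‖c - c0‖ < R` the point
`F c P = F (c - c0) (F c0 P)` is represented by `g c := Fl (th j) (c - c0) u`; use `Rad.mem`, `Rad.hasFDeriv`, `Fl_zero`.
-/

set_option autoImplicit false
set_option linter.overlappingInstances false
set_option linter.unusedSectionVars false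

open MvPolynomial Filter Topology Metric Set

namespace Pool.Agent.H917.G

namespace FD

variable {ι : Type} [Fintype ι] {r : ℕ} {D : FD ι r} {R : ℝ} {F : (Fin r → ℂ) → D.Pt → D.Pt}

/-- commuting vector fields -/
theorem T12aux.comm (hf : ∀ a b e, D.f a b e = 0) {j : ι} (hj : j ∈ D.J) (a b : Fin r) (v : ι) :
    vf (D.th j a) (D.th j b v) - vf (D.th j b) (D.th j a v) ∈ D.K j := by
  have h := D.brk j hj a b v
  simp only [hf, map_zero, zero_mul, Finset.sum_const_zero, sub_zero] at h
  exact h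

theorem Flow.add_small (hF : D.Flow R F) (hf : ∀ a b e, D.f a b e = 0) (a b : Fin r → ℂ)
    (hab : ‖a‖ + ‖b‖ < R) (P : D.Pt) : F (a + b) P = F b (F a P) := by
  obtain ⟨j, hj, u, huK, huρ, hu⟩ := exists_chart_rep P
  have hrad := hF.rad j hj
  have huρ' : ∀ k, ‖u k‖ ≤ D.ρ + 1 := fun k => (huρ k).trans (by linarith)
  set U : Set ℂ := {z : ℂ | ‖a + z • b‖ < R} with hU
  have hmem : ∀ z : ℂ, ‖z‖ ≤ 1 → z ∈ U := by
    intro z hz
    have h1 := norm_add_le a (z • b)
    rw [norm_smul] at h1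
    have h2 : ‖z‖ * ‖b‖ ≤ 1 * ‖b‖ := mul_le_mul_of_nonneg_right hz (norm_nonneg b)
    change ‖a + z • b‖ < R
    linarith
  have hcont : Continuous fun z : ℂ => a + z • b :=
    continuous_const.add (continuous_id.smul continuous_const)
  have hUo : IsOpen U := isOpen_lt hcont.norm continuous_const
  have hUc : Convex ℝ U := by
    intro z hz w hw s t hs ht hst
    have h1 : a + (s • z + t • w) • b = s • (a + z • b) + t • (a + w • b) := by
      funext i
      simp only [Pi.add_apply, Pi.smul_apply, smul_eq_mul, Complex.real_smul]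
      have h2 : (s : ℂ) + t = 1 := by exact_mod_cast hst
      linear_combination (-(a i)) * h2
    change ‖a + (s • z + t • w) • b‖ < R
    rw [h1]
    have hball : Convex ℝ (ball (0 : Fin r → ℂ) R) := convex_ball 0 R
    have h3 : s • (a + z • b) + t • (a + w • b) ∈ ball (0 : Fin r → ℂ) R :=
      hball (mem_ball_zero_iff.2 hz) (mem_ball_zero_iff.2 hw) hs ht hst
    exact mem_ball_zero_iff.1 h3
  have h0 : (0 : ℂ) ∈ U := hmem 0 (by simp)
  have h1 : (1 : ℂ) ∈ U := hmem 1 (by simp)
  have hcv : D.Cv b U fun z => Fl (D.th j) (a + z • b) u := by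
    refine Cv.of_chart hj hUo (fun z hz => hrad.mem huρ' hz (D.stab j hj) huK) fun z hz k => ?_
    have h2 := hrad.hasFDeriv (D.stab j hj) (T12aux.comm hf hj) huρ' huK (c := a + z • b) hz
    have h3 : HasDerivAt (fun w : ℂ => a + w • b) b z := by
      have := ((hasDerivAt_id z).smul_const b).const_add a
      rwa [one_smul] at this
    have h4 := h2.comp_hasDerivAt z h3
    have h5 := (hasDerivAt_pi.1 h4) k
    rw [vel_apply] at h5
    exact h5
  have hlc1 : D.Lc b U fun z => F (a + z • b) P :=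
    Cv.lc hUo hcv fun z hz => hF.rep j hj u huK huρ' P hu _ hz
  have hlc2 : D.Lc b U fun z => F (z • b) (F a P) := (hF.lc b (F a P)).mono (subset_univ _)
  have h2 := Lc.ident hUc.isPreconnected hlc1 hlc2 h0 (by
    rw [zero_smul, add_zero, hF.zero]) 1 h1
  change F (a + (1 : ℂ) • b) P = F ((1 : ℂ) • b) (F a P) at h2
  rwa [one_smul] at h2

theorem T12aux.iter (hF : D.Flow R F) (c : Fin r → ℂ) (k : ℕ) (P : D.Pt) :
    F ((k : ℂ) • c) P = (F c)^[k] P := by
  induction k with
  | zero =>
    rw [Nat.cast_zero, zero_smul, hF.zero]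
    rfl
  | succ k ih =>
    rw [Nat.cast_succ, hF.add, ih, one_smul, Function.iterate_succ_apply']

theorem Flow.add_all (hR : 0 < R) (hF : D.Flow R F) (hf : ∀ a b e, D.f a b e = 0)
    (a b : Fin r → ℂ) (P : D.Pt) : F (a + b) P = F b (F a P) := by
  obtain ⟨n, hn⟩ := exists_nat_gt ((‖a‖ + ‖b‖) / R)
  have hn0 : (0 : ℝ) < n := lt_of_le_of_lt (by positivity) hn
  have hnC : (n : ℂ) ≠ 0 := by
    have : n ≠ 0 := by
      rintro rfl
      simp at hn0
    exact_mod_cast this
  set a' : Fin r → ℂ := (n : ℂ)⁻¹ • a with ha'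
  set b' : Fin r → ℂ := (n : ℂ)⁻¹ • b with hb'
  have hna : (n : ℂ) • a' = a := by rw [ha', smul_smul, mul_inv_cancel₀ hnC, one_smul]
  have hnb : (n : ℂ) • b' = b := by rw [hb', smul_smul, mul_inv_cancel₀ hnC, one_smul]
  have hnab : (n : ℂ) • (a' + b') = a + b := by rw [smul_add, hna, hnb]
  have hsmall : ‖a'‖ + ‖b'‖ < R := by
    rw [ha', hb', norm_smul, norm_smul, norm_inv, Complex.norm_natCast, ← mul_add,
      inv_mul_lt_iff₀ hn0]
    rwa [div_lt_iff₀ hR] at hn
  have h1 : ∀ Q, F (a' + b') Q = F b' (F a' Q) := fun Q => hF.add_small hf a' b' hsmall Q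
  have h2 : ∀ Q, F (a' + b') Q = F a' (F b' Q) := fun Q => by
    rw [add_comm a' b']
    exact hF.add_small hf b' a' (by linarith) Q
  have hcomm : Function.Commute (F b') (F a') := fun Q => by rw [← h1, h2]
  have hcomp : F (a' + b') = F b' ∘ F a' := funext h1
  have h3 := T12aux.iter hF (a' + b') n P
  rw [hnab, hcomp, hcomm.comp_iterate n] at h3
  rw [h3, Function.comp_apply, ← T12aux.iter hF a' n P, ← T12aux.iter hF b' n, hna, hnb]

theorem Flow.hol (hR : 0 < R) (hF : D.Flow R F) (hf : ∀ a b e, D.f a b e = 0)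
    (c0 : Fin r → ℂ) (P : D.Pt) : ∃ j ∈ D.J, ∃ g : (Fin r → ℂ) → ι → ℂ,
      (∀ k, ‖g c0 k‖ ≤ D.ρ) ∧ ∀ c ∈ ball c0 R, g c ∈ Zs (D.K j) ∧ Rep (F c P) (g c) ∧
        HasFDerivAt g (vel (D.th j) (g c)) c := by
  obtain ⟨j, hj, u, huK, huρ, hu⟩ := exists_chart_rep (F c0 P)
  have hrad := hF.rad j hj
  have huρ' : ∀ k, ‖u k‖ ≤ D.ρ + 1 := fun k => (huρ k).trans (by linarith)
  refine ⟨j, hj, fun c => Fl (D.th j) (c - c0) u, fun k => ?_, fun c hc => ?_⟩
  · have h1 : Fl (D.th j) (c0 - c0) u = u := by rw [sub_self, Fl_zero]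
    change ‖Fl (D.th j) (c0 - c0) u k‖ ≤ D.ρ
    rw [h1]
    exact huρ k
  · have hc' : ‖c - c0‖ < R := by
      rw [← dist_eq_norm]
      exact hc
    refine ⟨hrad.mem huρ' hc' (D.stab j hj) huK, ?_, ?_⟩
    · have h1 : F c P = F (c - c0) (F c0 P) := by
        rw [← Flow.add_all hR hF hf, add_sub_cancel]
      rw [h1]
      exact hF.rep j hj u huK huρ' _ hu _ hc'
    · have h2 := hrad.hasFDeriv (D.stab j hj) (T12aux.comm hf hj) huρ' huK (c := c - c0) hc'
      have h3 : HasFDerivAt (fun c : Fin r → ℂ => c - c0)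
          (ContinuousLinearMap.id ℂ (Fin r → ℂ)) c := (hasFDerivAt_id c).sub_const c0
      have h4 := h2.comp c h3
      rw [ContinuousLinearMap.comp_id] at h4
      exact h4

end FD

end Pool.Agent.H917.G
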