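import Pool.Agent.H917.G.T12

/-!
# PROJECT TORI (helper917), task T13: the stabilizers are discrete

## Paper proof of `Flow.disc`

Take `j`, `g` of `Flow.hol` (T12) for `c0 = 0`, `P = P0`. On the ball of radius `R` around `0` the map `g` is differentiable with
the derivative `vel (th j) (g c)`, which depends continuously on `c` (`g` is continuous, the entries are polynomials), so
`g` has the strict derivative `vel (th j) (g 0)` at `0` (`hasStrictFDerivAt_of_hasFDerivAt_of_continuousAt`), which is injective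
(`FD.ndg`, `vel_apply`). So `g` is injective near `0` (an injective linear map on a finite-dimensional space is bounded below:
`LinearMap.exists_antilipschitzWith` / `ContinuousLinearMap.exists_antilipschitzWith`; then
`HasStrictFDerivAt.approximates_deriv_on_nhds` and `ApproximatesLinearOn`..., or directly with
`‖g c - g 0 - A c‖ ≤ ε ‖c‖`; only `g c ≠ g 0` for small `c ≠ 0` is needed, for which `HasFDerivAt` at `0` is sufficient!).
If `F c P0 = P0` then `g c` and `g 0` represent the same point, and `g c j = 1 = g 0 j` (`zs_one`), so `g c = g 0`.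
-/

set_option autoImplicit false
set_option linter.overlappingInstances false
set_option linter.unusedSectionVars false

open MvPolynomial Filter Topology Metric Set

namespace Pool.Agent.H917.G

namespace FD

variable {ι : Type} [Fintype ι] {r : ℕ} {D : FD ι r} {R : ℝ} {F : (Fin r → ℂ) → D.Pt → D.Pt}

theorem Flow.disc (hR : 0 < R) (hF : D.Flow R F) (hf : ∀ a b e, D.f a b e = 0) (P0 : D.Pt) :
    ∃ ε > 0, ∀ c : Fin r → ℂ, ‖c‖ < ε → F c P0 = P0 → c = 0 := by
  obtain ⟨j, hj, g, -, hg⟩ := Flow.hol hR hF hf 0 P0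
  have h0 : (0 : Fin r → ℂ) ∈ ball (0 : Fin r → ℂ) R := mem_ball_self hR
  obtain ⟨hZ0, hR0, hD0⟩ := hg 0 h0
  -- the coordinate `j` is one
  have hone : ∀ x ∈ Zs (D.K j), x j = 1 := by
    intro x hx
    have h1 := hx _ (D.one j hj)
    rw [map_sub, eval_X, map_one] at h1
    exact sub_eq_zero.1 h1
  -- the derivative is bounded below
  set A : (Fin r → ℂ) →L[ℂ] (ι → ℂ) := vel (D.th j) (g 0) with hA
  have hinj : Function.Injective A := by
    rw [injective_iff_map_eq_zero]
    intro c hc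
    refine D.ndg j hj (g 0) hZ0 c fun k => ?_
    rw [← vel_apply, ← hA, hc]
    rfl
  obtain ⟨K, hK0, hK⟩ := LinearMap.exists_antilipschitzWith (A : (Fin r → ℂ) →ₗ[ℂ] (ι → ℂ))
    (LinearMap.ker_eq_bot.2 hinj)
  have hKr : (0 : ℝ) < K := hK0
  have hlow : ∀ c : Fin r → ℂ, ‖c‖ ≤ K * ‖A c‖ := by
    intro c
    have h1 := hK.le_mul_dist c 0
    rw [dist_zero_right] at h1
    have h2 : dist ((A : (Fin r → ℂ) →ₗ[ℂ] (ι → ℂ)) c) ((A : (Fin r → ℂ) →ₗ[ℂ] (ι → ℂ)) 0) =
        ‖A c‖ := by
      rw [map_zero, dist_zero_right]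
      rfl
    rw [h2] at h1
    exact h1
  have hlit := hD0.isLittleO
  rw [Asymptotics.isLittleO_iff] at hlit
  have hev := hlit (c := 1 / (2 * K)) (by positivity)
  rw [Metric.eventually_nhds_iff_ball] at hev
  obtain ⟨ε, hε, hb⟩ := hev
  refine ⟨min ε R, lt_min hε hR, fun c hc hfix => ?_⟩
  have hcε : c ∈ ball (0 : Fin r → ℂ) ε := by
    rw [mem_ball_zero_iff]; exact hc.trans_le (min_le_left _ _)
  have hcR : c ∈ ball (0 : Fin r → ℂ) R := by
    rw [mem_ball_zero_iff]; exact hc.trans_le (min_le_right _ _)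
  obtain ⟨hZc, hRc, -⟩ := hg c hcR
  rw [hfix] at hRc
  rw [hF.zero] at hR0
  have hpe : PE (g c) (g 0) := hRc.pe hR0
  have hgc : g c = g 0 := by
    funext k
    have h1 := hpe.div_eq j k
    rw [hone _ hZc, hone _ hZ0, div_one, div_one] at h1
    exact h1
  have h2 := hb c hcε
  rw [hgc, sub_self, zero_sub, norm_neg, sub_zero] at h2
  have h3 := hlow c
  have h4 : (K : ℝ) * ‖A c‖ ≤ K * (1 / (2 * K) * ‖c‖) := mul_le_mul_of_nonneg_left h2 hKr.le
  have h5 : (K : ℝ) * (1 / (2 * K) * ‖c‖) = ‖c‖ / 2 := by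
    field_simp
  rw [h5] at h4
  have h6 : ‖c‖ ≤ 0 := by linarith
  exact norm_le_zero_iff.1 h6

end FD

end Pool.Agent.H917.G
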