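import Pool.Agent.H917.G.T12
import Pool.Agent.H917.G.RANK

/-!
# PROJECT TORI (helper917), task T14: the stabilizers are cocompact

`rank_lemma`, `stable`, `lin` are in `G/RANK.lean` (`lin l x = ∑ k, l k * x k`).

## Paper proof of `Flow.cocp`

`Λ := {λ | F λ P0 = P0}` is a subgroup (`Flow.add_all`, `Flow.zero`), and `F c P0 = F c' P0` iff `c - c' ∈ Λ`. Suppose that no `B`
exists. Choose inductively `c_ν` (`ν : ℕ`) with `‖c_ν - λ‖ > 2 + ‖c_μ‖` for all `λ ∈ Λ`, `μ < ν`. Then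
`‖c_ν - c_μ - λ‖ > 2` for all `λ ∈ Λ`, `μ < ν`, hence (as `Λ = -Λ`) for all `μ ≠ ν`.
Let `P_ν = F c_ν P0`, represented by `(j_ν, u_ν)` of `exists_chart_rep` (T4). After passing to a subsequence `j_ν = j` is constant
(`J ⊆ ι` finite) and `u_ν → u` (the box `‖u k‖ ≤ ρ` is compact), `u ∈ Zs (K j)`, `‖u k‖ ≤ ρ`. For `‖c‖ < R` let
`w_ν c = Fl (th j) c u_ν`, `w c = Fl (th j) c u`; these are in `Zs (K j)`, differentiable with the derivatives
`vel (th j) (w_ν c)`, `vel (th j) (w c)` (T2, `Rad.hasFDeriv`), and `w_ν → w` uniformly on `‖c‖ ≤ R'` for each `R' < R`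
(`Rad.cont`, uniform continuity on compact sets); `F (c_ν + c) P0` is represented by `w_ν c`.
Apply `rank_lemma` to `w` on `Ω = ball 0 R'`, `R' = min (R/2) 1` (a ball is convex and open; `w_j = 1`; the derivative is injective by
`FD.ndg`), with the linear forms `D.L` and the equations `D.fin`: there are `c* ∈ Ω` and `t0` such that
`lin (L t0) (w c*) ≠ 0` and the derivative of `g c := (lin (L (t0.succAbove t)) (w c) / lin (L t0) (w c))_t` at `c*` is injective.
Choose an open ball `U ⊆ Ω` around `c*` on which `|lin (L t0) (w c)| ≥ κ > 0`. For large `ν` also `|lin (L t0) (w_ν c)| ≥ κ/2` on `U`, and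
`g_ν c := (lin (L (t0.succAbove t)) (w_ν c) / lin (L t0) (w_ν c))_t` and its derivative converge uniformly on `U` to `g` and `fderiv g`
(explicit formulas: quotients of polynomials in `w_ν` with denominators bounded below, and the `w_ν` are bounded). By `stable` for
all large `ν` there is `x_ν ∈ U` with `g_ν(x_ν) = g(c*)`. (`stable` assumes differentiability for all `ν`; drop finitely many `ν`.)
The points `F (c_ν + x_ν) P0` are pairwise distinct, as `‖x_ν - x_μ‖ < 2`. They are represented by `w_ν(x_ν)`, or by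
`y_ν := w_ν(x_ν) / lin (L t0) (w_ν x_ν)`, which satisfies `lin (L t) y_ν = ` fixed numbers `γ_t` (independent of `ν`): `γ_{t0} = 1` and
`γ_{t0.succAbove t} = g(c*)_t`. By homogeneity of the equation in `D.fin` each coordinate `y_{ν,k}` is a root of the monic
polynomial `W^e + ∑ eval γ (A i) W^i`, so there are only finitely many `y_ν`: a contradiction.
-/

set_option autoImplicit false
set_option linter.overlappingInstances false
set_option linter.unusedSectionVars false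

open MvPolynomial Filter Topology Metric Set

namespace Pool.Agent.H917.G

namespace T14aux

theorem fin_roots {e : ℕ} (a : Fin e → ℂ) :
    {z : ℂ | z ^ e + ∑ i : Fin e, a i * z ^ (i : ℕ) = 0}.Finite := by
  classical
  set p : Polynomial ℂ := Polynomial.X ^ e +
    ∑ i : Fin e, Polynomial.C (a i) * Polynomial.X ^ (i : ℕ) with hp
  have hm : p.Monic := Polynomial.monic_X_pow_add (Polynomial.degree_sum_fin_lt a)
  have hsub : {z : ℂ | z ^ e + ∑ i : Fin e, a i * z ^ (i : ℕ) = 0} ⊆ (p.roots.toFinset : Set ℂ) := by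
    intro z hz
    have hz' : z ^ e + ∑ i : Fin e, a i * z ^ (i : ℕ) = 0 := hz
    simp only [Finset.mem_coe, Multiset.mem_toFinset]
    rw [Polynomial.mem_roots hm.ne_zero, Polynomial.IsRoot.def, hp]
    simp only [Polynomial.eval_add, Polynomial.eval_pow, Polynomial.eval_X,
      Polynomial.eval_finsetSum, Polynomial.eval_mul, Polynomial.eval_C]
    exact hz'
  exact (Finset.finite_toSet _).subset hsub

variable {σ : Type} [Fintype σ] {r : ℕ}

theorem vel_cont (θ : Fin r → σ → MvPolynomial σ ℂ) : Continuous fun y => vel θ y := by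
  rw [continuous_clm_apply]
  intro c
  refine continuous_pi fun v => ?_
  simp only [vel_apply]
  exact MvPolynomial.continuous_eval _

/-- the quotients of the linear forms -/
noncomputable def qf (L : Fin (r + 1) → σ → ℂ) (t0 : Fin (r + 1)) (y : σ → ℂ) : Fin r → ℂ :=
  fun t => lin (L (t0.succAbove t)) y / lin (L t0) y

theorem lin_contDiff (l : σ → ℂ) : ContDiff ℂ 1 (fun y : σ → ℂ => lin l y) := by
  unfold lin
  fun_prop

theorem qf_contDiffAt (L : Fin (r + 1) → σ → ℂ) (t0 : Fin (r + 1)) {y : σ → ℂ}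
    (hy : lin (L t0) y ≠ 0) : ContDiffAt ℂ 1 (qf L t0) y := by
  rw [contDiffAt_pi]
  intro t
  exact (lin_contDiff _).contDiffAt.div (lin_contDiff _).contDiffAt hy

/-- the derivative of the composition -/
noncomputable def ph (θ : Fin r → σ → MvPolynomial σ ℂ) (L : Fin (r + 1) → σ → ℂ)
    (t0 : Fin (r + 1)) (y : σ → ℂ) : (Fin r → ℂ) →L[ℂ] (Fin r → ℂ) :=
  (fderiv ℂ (qf L t0) y).comp (vel θ y)

theorem ph_continuousAt (θ : Fin r → σ → MvPolynomial σ ℂ) (L : Fin (r + 1) → σ → ℂ)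
    (t0 : Fin (r + 1)) {y : σ → ℂ} (hy : lin (L t0) y ≠ 0) : ContinuousAt (ph θ L t0) y := by
  have h1 : ContinuousAt (fderiv ℂ (qf L t0)) y :=
    ((qf_contDiffAt L t0 hy).fderiv_right (m := 0) (by norm_num)).continuousAt
  exact h1.clm_comp (vel_cont θ).continuousAt

theorem lin_smul (l : σ → ℂ) (a : ℂ) (x : σ → ℂ) : lin l (fun k => a * x k) = a * lin l x := by
  unfold lin
  rw [Finset.mul_sum]
  refine Finset.sum_congr rfl fun k _ => ?_
  ring

theorem flow_unif {θ : Fin r → σ → MvPolynomial σ ℂ} {ρ R : ℝ} (h : Rad θ ρ R) {u : ℕ → σ → ℂ}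
    {u0 : σ → ℂ} (hu : ∀ n k, ‖u n k‖ ≤ ρ) (hu0 : ∀ k, ‖u0 k‖ ≤ ρ)
    (hlim : Tendsto u atTop (𝓝 u0)) {R' : ℝ} (hR' : R' < R) {ε : ℝ} (hε : 0 < ε) :
    ∀ᶠ n in atTop, ∀ c : Fin r → ℂ, ‖c‖ ≤ R' → dist (Fl θ c u0) (Fl θ c (u n)) < ε := by
  have hcp : IsCompact ((closedBall (0 : Fin r → ℂ) R') ×ˢ {x : σ → ℂ | ∀ v, ‖x v‖ ≤ ρ}) := by
    refine (isCompact_closedBall _ _).prod ?_
    have e : {x : σ → ℂ | ∀ v, ‖x v‖ ≤ ρ} = Set.pi univ fun _ => closedBall (0 : ℂ) ρ := by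
      ext x
      simp [Set.mem_pi]
    rw [e]
    exact isCompact_univ_pi fun _ => isCompact_closedBall _ _
  have huc := hcp.uniformContinuousOn_of_continuous (h.cont hR')
  rw [Metric.uniformContinuousOn_iff] at huc
  obtain ⟨δ, hδ, hd⟩ := huc ε hε
  have h1 : ∀ᶠ n in atTop, dist u0 (u n) < δ := by
    have h2 := (Metric.tendsto_nhds.1 hlim) δ hδ
    filter_upwards [h2] with n hn
    rwa [dist_comm]
  filter_upwards [h1] with n hn c hc
  have hc' : c ∈ closedBall (0 : Fin r → ℂ) R' := by rwa [mem_closedBall, dist_zero_right]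
  refine hd (c, u0) ⟨hc', hu0⟩ (c, u n) ⟨hc', hu n⟩ ?_
  rw [Prod.dist_eq, dist_self]
  exact max_lt hδ hn

theorem core {ι : Type} [Fintype ι] {D : FD ι r} {R : ℝ} (hR : 0 < R)
    (hf : ∀ a b e, D.f a b e = 0) {j : ι} (hj : j ∈ D.J) (hrad : Rad (D.th j) (D.ρ + 1) R)
    {u : ℕ → ι → ℂ} {u0 : ι → ℂ} (hu : ∀ n, u n ∈ Zs (D.K j)) (hu0 : u0 ∈ Zs (D.K j))
    (hub : ∀ n k, ‖u n k‖ ≤ D.ρ + 1) (hu0b : ∀ k, ‖u0 k‖ ≤ D.ρ + 1)
    (hlim : Tendsto u atTop (𝓝 u0)) :
    ∃ n m : ℕ, n ≠ m ∧ ∃ a b : Fin r → ℂ, ‖a‖ < min (R / 2) 1 ∧ ‖b‖ < min (R / 2) 1 ∧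
      PE (Fl (D.th j) a (u n)) (Fl (D.th j) b (u m)) := by
  classical
  set R' : ℝ := min (R / 2) 1 with hR'
  have hR'0 : 0 < R' := lt_min (by linarith) one_pos
  have hR'R : R' < R := lt_of_le_of_lt (min_le_left _ _) (by linarith)
  have hcomm : ∀ a b v, vf (D.th j a) (D.th j b v) - vf (D.th j b) (D.th j a v) ∈ D.K j := by
    intro a b v
    have h1 := D.brk j hj a b v
    have h2 : ∑ e, C (D.f a b e) * D.th j e v = 0 :=
      Finset.sum_eq_zero fun e _ => by rw [hf, C_0, zero_mul]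
    rwa [h2, sub_zero] at h1
  have hder : ∀ x : ι → ℂ, x ∈ Zs (D.K j) → (∀ k, ‖x k‖ ≤ D.ρ + 1) → ∀ c : Fin r → ℂ, ‖c‖ < R →
      HasFDerivAt (fun c => Fl (D.th j) c x) (vel (D.th j) (Fl (D.th j) c x)) c :=
    fun x hx hb c hc => hrad.hasFDeriv (D.stab j hj) hcomm hb hx hc
  have hmem : ∀ x : ι → ℂ, x ∈ Zs (D.K j) → (∀ k, ‖x k‖ ≤ D.ρ + 1) → ∀ c : Fin r → ℂ, ‖c‖ < R →
      Fl (D.th j) c x ∈ Zs (D.K j) :=
    fun x hx hb c hc => hrad.mem hb hc (D.stab j hj) hx
  set w : (Fin r → ℂ) → ι → ℂ := fun c => Fl (D.th j) c u0 with hw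
  -- the rank lemma
  have hΩ : ∀ c ∈ ball (0 : Fin r → ℂ) R', ‖c‖ < R := by
    intro c hc
    rw [mem_ball, dist_zero_right] at hc
    linarith
  obtain ⟨cs, hcs, t0, ht0, hinj⟩ := rank_lemma (Ω := ball (0 : Fin r → ℂ) R') isOpen_ball
    (convex_ball _ _) ⟨0, mem_ball_self hR'0⟩ (w := w)
    (fun c hc => (hder u0 hu0 hu0b c (hΩ c hc)).differentiableAt.differentiableWithinAt) (j := j)
    (fun c hc => FD.zs_one hj (hmem u0 hu0 hu0b c (hΩ c hc)))
    (fun c hc => by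
      rw [(hder u0 hu0 hu0b c (hΩ c hc)).fderiv]
      rw [injective_iff_map_eq_zero]
      intro v hv
      refine D.ndg j hj _ (hmem u0 hu0 hu0b c (hΩ c hc)) v fun k => ?_
      rw [← vel_apply, hv]
      rfl) D.L
    (fun k => by
      obtain ⟨e, he, A, hA, hA2⟩ := D.fin k
      exact ⟨e, he, A, hA, fun c hc => hA2 j hj _ (hmem u0 hu0 hu0b c (hΩ c hc))⟩)
  -- a small closed ball around `cs`
  have hwc : ContinuousAt (fun c => lin (D.L t0) (w c)) cs := by
    have h1 : ContinuousAt w cs := (hder u0 hu0 hu0b cs (hΩ cs hcs)).continuousAt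
    exact ContinuousAt.comp (g := fun y => lin (D.L t0) y)
      (lin_contDiff (D.L t0)).continuous.continuousAt h1
  obtain ⟨s, hs, hsU⟩ : ∃ s > 0, closedBall cs s ⊆
      ball (0 : Fin r → ℂ) R' ∩ {c | lin (D.L t0) (w c) ≠ 0} := by
    have h1 : ball (0 : Fin r → ℂ) R' ∩ {c | lin (D.L t0) (w c) ≠ 0} ∈ 𝓝 cs :=
      Filter.inter_mem (isOpen_ball.mem_nhds hcs) (hwc.eventually_ne ht0)
    obtain ⟨s, hs, h2⟩ := Metric.nhds_basis_closedBall.mem_iff.1 h1
    exact ⟨s, hs, h2⟩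
  have hUR : ∀ x ∈ ball cs s, ‖x‖ < R' := fun x hx => by
    have := (hsU (ball_subset_closedBall hx)).1
    rwa [mem_ball, dist_zero_right] at this
  have hUne : ∀ x ∈ closedBall cs s, lin (D.L t0) (w x) ≠ 0 := fun x hx => (hsU hx).2
  have hwcont : ContinuousOn w (closedBall cs s) := by
    intro x hx
    have h1 := (hsU hx).1
    exact (hder u0 hu0 hu0b x (hΩ x h1)).continuousAt.continuousWithinAt
  set Kc : Set (ι → ℂ) := w '' closedBall cs s with hKc
  have hKcp : IsCompact Kc := (isCompact_closedBall cs s).image_of_continuousOn hwcont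
  have hKne : ∀ y ∈ Kc, lin (D.L t0) y ≠ 0 := by
    rintro _ ⟨x, hx, rfl⟩
    exact hUne x hx
  -- nonvanishing near the compact set
  have hVopen : IsOpen {y : ι → ℂ | lin (D.L t0) y ≠ 0} :=
    (lin_contDiff (D.L t0)).continuous.isOpen_preimage _ isOpen_ne
  obtain ⟨δ0, hδ0, hth⟩ := hKcp.exists_thickening_subset_open hVopen hKne
  -- uniform convergence
  have hunif : ∀ ε > 0, ∀ᶠ n in atTop, ∀ x ∈ closedBall cs s,
      dist (w x) (Fl (D.th j) x (u n)) < ε := by
    intro ε hε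
    filter_upwards [flow_unif hrad hub hu0b hlim hR'R hε] with n hn x hx
    have h1 := (hsU hx).1
    rw [mem_ball, dist_zero_right] at h1
    exact hn x h1.le
  obtain ⟨N0, hN0⟩ := Filter.eventually_atTop.1 (hunif δ0 hδ0)
  have hne' : ∀ n, N0 ≤ n → ∀ x ∈ closedBall cs s, lin (D.L t0) (Fl (D.th j) x (u n)) ≠ 0 := by
    intro n hn x hx
    have h1 := hN0 n hn x hx
    have h2 : Fl (D.th j) x (u n) ∈ thickening δ0 Kc := by
      rw [mem_thickening_iff]
      exact ⟨w x, ⟨x, hx, rfl⟩, by rw [dist_comm]; exact h1⟩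
    exact hth h2
  -- the functions `g` and `G`
  have hcomp : ∀ x : ι → ℂ, x ∈ Zs (D.K j) → (∀ k, ‖x k‖ ≤ D.ρ + 1) → ∀ c : Fin r → ℂ, ‖c‖ < R →
      lin (D.L t0) (Fl (D.th j) c x) ≠ 0 →
      HasFDerivAt (fun c => qf D.L t0 (Fl (D.th j) c x)) (ph (D.th j) D.L t0 (Fl (D.th j) c x)) c := by
    intro x hx hb c hc hne
    have h1 : HasFDerivAt (qf D.L t0) (fderiv ℂ (qf D.L t0) (Fl (D.th j) c x)) (Fl (D.th j) c x) :=
      ((qf_contDiffAt D.L t0 hne).differentiableAt (by norm_num)).hasFDerivAt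
    exact HasFDerivAt.comp (g := qf D.L t0) c h1 (hder x hx hb c hc)
  have hg1 : ∀ x ∈ ball cs s, HasFDerivAt (fun c => qf D.L t0 (w c))
      (ph (D.th j) D.L t0 (w x)) x := fun x hx =>
    hcomp u0 hu0 hu0b x ((hUR x hx).trans hR'R) (hUne x (ball_subset_closedBall hx))
  have hG1 : ∀ n, ∀ x ∈ ball cs s, HasFDerivAt (fun c => qf D.L t0 (Fl (D.th j) c (u (n + N0))))
      (ph (D.th j) D.L t0 (Fl (D.th j) x (u (n + N0)))) x := fun n x hx =>
    hcomp _ (hu _) (hub _) x ((hUR x hx).trans hR'R)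
      (hne' _ (Nat.le_add_left _ _) x (ball_subset_closedBall hx))
  have hst : ∀ᶠ n in atTop, ∃ x ∈ ball cs s,
      (fun c => qf D.L t0 (Fl (D.th j) c (u (n + N0)))) x = (fun c => qf D.L t0 (w c)) cs := by
    refine stable (U := ball cs s) isOpen_ball (mem_ball_self hs)
      (g := fun c => qf D.L t0 (w c)) (G := fun n c => qf D.L t0 (Fl (D.th j) c (u (n + N0))))
      (fun x hx => (hg1 x hx).differentiableAt) (fun n x hx => (hG1 n x hx).differentiableAt) ?_ ?_
      ?_ hinj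
    · have h1 : ContinuousOn (fun x => ph (D.th j) D.L t0 (w x)) (ball cs s) := by
        intro x hx
        have h2 : ContinuousAt (ph (D.th j) D.L t0) (w x) :=
          ph_continuousAt _ _ _ (hUne x (ball_subset_closedBall hx))
        have h3 : ContinuousAt w x :=
          (hder u0 hu0 hu0b x ((hUR x hx).trans hR'R)).continuousAt
        exact (ContinuousAt.comp (g := ph (D.th j) D.L t0) h2 h3).continuousWithinAt
      exact h1.congr fun x hx => (hg1 x hx).fderiv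
    · have h1 : Tendsto (fun n => Fl (D.th j) cs (u (n + N0))) atTop (𝓝 (w cs)) := by
        rw [Metric.tendsto_atTop]
        intro ε hε
        obtain ⟨N1, hN1⟩ := Filter.eventually_atTop.1 (hunif ε hε)
        refine ⟨N1, fun n hn => ?_⟩
        rw [dist_comm]
        exact hN1 (n + N0) (by omega) cs (mem_closedBall_self hs.le)
      have h2 : ContinuousAt (qf D.L t0) (w cs) :=
        (qf_contDiffAt D.L t0 (hUne cs (mem_closedBall_self hs.le))).continuousAt
      exact h2.tendsto.comp h1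
    · intro ε hε
      have h1 := hKcp.uniformContinuousAt_of_continuousAt (ph (D.th j) D.L t0)
        (fun y hy => ph_continuousAt _ _ _ (hKne y hy)) (Metric.dist_mem_uniformity hε)
      obtain ⟨δ, hδ, h2⟩ := Metric.mem_uniformity_dist.1 h1
      obtain ⟨N1, hN1⟩ := Filter.eventually_atTop.1 (hunif δ hδ)
      filter_upwards [Filter.eventually_ge_atTop N1] with n hn x hx
      rw [(hG1 n x hx).fderiv, (hg1 x hx).fderiv]
      have h3 := h2 (hN1 (n + N0) (by omega) x (ball_subset_closedBall hx))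
        ⟨x, ball_subset_closedBall hx, rfl⟩
      have h4 : dist (ph (D.th j) D.L t0 (w x)) (ph (D.th j) D.L t0 (Fl (D.th j) x (u (n + N0)))) <
        ε := h3
      rw [dist_comm, dist_eq_norm] at h4
      exact h4.le
  obtain ⟨N1, hN1⟩ := Filter.eventually_atTop.1 hst
  choose! x hx using hN1
  -- the finite set
  set γ : Fin (r + 1) → ℂ := fun t => lin (D.L t) (w cs) / lin (D.L t0) (w cs) with hγ
  choose e he A hA hA2 using D.fin
  have hfinS : (Set.pi univ fun k : ι =>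
      {z : ℂ | z ^ (e k) + ∑ i : Fin (e k), eval γ (A k i) * z ^ (i : ℕ) = 0}).Finite :=
    Set.Finite.pi fun k => fin_roots _
  set y : ℕ → ι → ℂ := fun n k =>
    (lin (D.L t0) (Fl (D.th j) (x (n + N1)) (u (n + N1 + N0))))⁻¹ *
      Fl (D.th j) (x (n + N1)) (u (n + N1 + N0)) k with hy
  have hynS : ∀ n, y n ∈ (Set.pi univ fun k : ι =>
      {z : ℂ | z ^ (e k) + ∑ i : Fin (e k), eval γ (A k i) * z ^ (i : ℕ) = 0}) := by
    intro n k _
    obtain ⟨hxU, hxe⟩ := hx (n + N1) (Nat.le_add_left _ _)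
    set v : ι → ℂ := Fl (D.th j) (x (n + N1)) (u (n + N1 + N0)) with hv
    have hvne : lin (D.L t0) v ≠ 0 :=
      hne' _ (Nat.le_add_left _ _) _ (ball_subset_closedBall hxU)
    have hvm : v ∈ Zs (D.K j) := hmem _ (hu _) (hub _) _ ((hUR _ hxU).trans hR'R)
    have hlt : ∀ t, (lin (D.L t0) v)⁻¹ * lin (D.L t) v = γ t := by
      intro t
      rcases Fin.eq_self_or_eq_succAbove t0 t with rfl | ⟨t', rfl⟩
      · rw [inv_mul_cancel₀ hvne, hγ]
        exact (div_self ht0).symm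
      · have h5 := congrFun hxe t'
        have h6 : lin (D.L (t0.succAbove t')) v / lin (D.L t0) v =
          lin (D.L (t0.succAbove t')) (w cs) / lin (D.L t0) (w cs) := h5
        show (lin (D.L t0) v)⁻¹ * lin (D.L (t0.succAbove t')) v =
          lin (D.L (t0.succAbove t')) (w cs) / lin (D.L t0) (w cs)
        rw [← h6]
        ring
    have h7 := hA2 k j hj v hvm
    show ((lin (D.L t0) v)⁻¹ * v k) ^ (e k) + ∑ i : Fin (e k),
      eval γ (A k i) * ((lin (D.L t0) v)⁻¹ * v k) ^ (i : ℕ) = 0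
    have h8 : ∀ i : Fin (e k), eval γ (A k i) * ((lin (D.L t0) v)⁻¹ * v k) ^ (i : ℕ) =
        (lin (D.L t0) v)⁻¹ ^ (e k) * (eval (fun t => ∑ l, D.L t l * v l) (A k i) * v k ^ (i : ℕ)) := by
      intro i
      have h9 : γ = fun t => (lin (D.L t0) v)⁻¹ * (fun t => lin (D.L t) v) t :=
        funext fun t => (hlt t).symm
      rw [h9, RANKaux.eval_smul (hA k i)]
      have h10 : (lin (D.L t0) v)⁻¹ ^ (e k) =
          (lin (D.L t0) v)⁻¹ ^ (e k - (i : ℕ)) * (lin (D.L t0) v)⁻¹ ^ (i : ℕ) := by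
        rw [← pow_add]
        congr 1
        have := i.2
        omega
      rw [h10, mul_pow]
      show _ * eval (fun t => ∑ l, D.L t l * v l) (A k i) * _ = _
      ring
    rw [Finset.sum_congr rfl fun i _ => h8 i, ← Finset.mul_sum, mul_pow, ← mul_add, h7, mul_zero]
  obtain ⟨n, m, hnm, hyy⟩ : ∃ n m : ℕ, n ≠ m ∧ y n = y m := by
    by_contra hcon
    push Not at hcon
    have hinj' : Function.Injective y := fun a b hab => by
      by_contra hne
      exact hcon a b hne hab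
    exact (Set.infinite_range_of_injective hinj') (hfinS.subset (by
      rintro _ ⟨a, rfl⟩
      exact hynS a))
  obtain ⟨hxn, -⟩ := hx (n + N1) (Nat.le_add_left _ _)
  obtain ⟨hxm, -⟩ := hx (m + N1) (Nat.le_add_left _ _)
  refine ⟨n + N1 + N0, m + N1 + N0, by omega, x (n + N1), x (m + N1), hUR _ hxn, hUR _ hxm, ?_⟩
  have hn0 := hne' (n + N1 + N0) (Nat.le_add_left _ _) _ (ball_subset_closedBall hxn)
  have hm0 := hne' (m + N1 + N0) (Nat.le_add_left _ _) _ (ball_subset_closedBall hxm)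
  have p1 : PE (y n) (Fl (D.th j) (x (n + N1)) (u (n + N1 + N0))) :=
    ⟨_, inv_ne_zero hn0, fun _ => rfl⟩
  have p2 : PE (y m) (Fl (D.th j) (x (m + N1)) (u (m + N1 + N0))) :=
    ⟨_, inv_ne_zero hm0, fun _ => rfl⟩
  rw [hyy] at p1
  exact p1.symm.trans p2

end T14aux

namespace FD

variable {ι : Type} [Fintype ι] {r : ℕ} {D : FD ι r} {R : ℝ} {F : (Fin r → ℂ) → D.Pt → D.Pt}

theorem Flow.cocp (hR : 0 < R) (hF : D.Flow R F) (hf : ∀ a b e, D.f a b e = 0) (P0 : D.Pt) :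
    ∃ B : ℝ, ∀ c : Fin r → ℂ, ∃ l : Fin r → ℂ, F l P0 = P0 ∧ ‖c - l‖ ≤ B := by
  by_contra hcon
  push Not at hcon
  have hadd := Flow.add_all hR hF hf
  have hneg : ∀ l, F l P0 = P0 → F (-l) P0 = P0 := by
    intro l hl
    have h1 := hadd l (-l) P0
    rw [add_neg_cancel, hF.zero, hl] at h1
    exact h1.symm
  have hsub : ∀ a b, F a P0 = F b P0 → F (a - b) P0 = P0 := by
    intro a b hab
    rw [sub_eq_add_neg, hadd, hab, ← hadd, add_neg_cancel, hF.zero]
  -- the sequence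
  obtain ⟨c, -, hc⟩ := exists_seq_of_forall_finset_exists (α := Fin r → ℂ) (fun _ => True)
    (fun x y => ∀ l, F l P0 = P0 → 2 < ‖y - x - l‖) (by
    intro s _
    obtain ⟨y, hy⟩ := hcon (2 + ∑ x ∈ s, ‖x‖)
    refine ⟨y, trivial, fun x hx l hl => ?_⟩
    have h1 := hy l hl
    have h2 : ‖x‖ ≤ ∑ x ∈ s, ‖x‖ := Finset.single_le_sum (fun i _ => norm_nonneg i) hx
    have h3 : ‖y - l‖ ≤ ‖y - x - l‖ + ‖x‖ := by
      have e : y - l = (y - x - l) + x := by abel
      rw [e]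
      exact norm_add_le _ _
    linarith)
  have hc' : ∀ m n, m ≠ n → ∀ l, F l P0 = P0 → 2 < ‖c n - c m - l‖ := by
    intro m n hmn l hl
    rcases lt_or_gt_of_ne hmn with h | h
    · exact hc m n h l hl
    · have h1 := hc n m h (-l) (hneg l hl)
      have h2 : ‖c m - c n - -l‖ = ‖c n - c m - l‖ := by
        rw [← norm_neg]
        congr 1
        abel
      rwa [h2] at h1
  -- representation by bounded vectors
  choose j hj u hu hub hrep using fun n => exists_chart_rep (F (c n) P0)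
  obtain ⟨j0, hj0⟩ := Finite.exists_infinite_fiber j
  have hinf : (j ⁻¹' {j0}).Infinite := Set.infinite_coe_iff.1 hj0
  obtain ⟨ψ, hψ, hψj⟩ := extraction_of_frequently_atTop
    (P := fun n => j n = j0) (Nat.frequently_atTop_iff_infinite.2 hinf)
  have hcp : IsCompact {x : ι → ℂ | ∀ v, ‖x v‖ ≤ D.ρ} := by
    have e : {x : ι → ℂ | ∀ v, ‖x v‖ ≤ D.ρ} = Set.pi univ fun _ => closedBall (0 : ℂ) D.ρ := by
      ext x
      simp [Set.mem_pi]
    rw [e]
    exact isCompact_univ_pi fun _ => isCompact_closedBall _ _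
  obtain ⟨u0, hu0, φ, hφ, hlim⟩ := hcp.tendsto_subseq (x := fun n => u (ψ n))
    (fun n => hub (ψ n))
  have hj0J : j0 ∈ D.J := by
    have := hj (ψ 0)
    rwa [hψj 0] at this
  have huK : ∀ n, u (ψ (φ n)) ∈ Zs (D.K j0) := by
    intro n
    have := hu (ψ (φ n))
    rwa [hψj (φ n)] at this
  have hu0K : u0 ∈ Zs (D.K j0) := by
    intro P hP
    have hev : Tendsto (fun x : ι → ℂ => eval x P) (𝓝 u0) (𝓝 (eval u0 P)) :=
      (MvPolynomial.continuous_eval P).tendsto u0
    have h1 : Tendsto (fun n => eval (u (ψ (φ n))) P) atTop (𝓝 (eval u0 P)) :=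
      Tendsto.comp (g := fun x : ι → ℂ => eval x P) (f := fun n => u (ψ (φ n))) hev hlim
    have hz : ∀ n, eval (u (ψ (φ n))) P = 0 := by
      intro n
      have h3 : ∀ Q ∈ D.K j0, eval (u (ψ (φ n))) Q = 0 := huK n
      exact h3 P hP
    have h2 : Tendsto (fun n => eval (u (ψ (φ n))) P) atTop (𝓝 0) := by
      simp only [hz]
      exact tendsto_const_nhds
    exact tendsto_nhds_unique h1 h2
  have hub1 : ∀ n k, ‖u (ψ (φ n)) k‖ ≤ D.ρ + 1 := by
    intro n k
    have h1 := hub (ψ (φ n)) k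
    linarith
  have hu01 : ∀ k, ‖u0 k‖ ≤ D.ρ + 1 := by
    intro k
    have h1 : ‖u0 k‖ ≤ D.ρ := hu0 k
    linarith
  have hlim1 : Tendsto (fun n => u (ψ (φ n))) atTop (𝓝 u0) := hlim
  obtain ⟨n, m, hnm, a, b, ha, hb, hpe⟩ := T14aux.core hR hf hj0J (hF.rad j0 hj0J)
    (u := fun n => u (ψ (φ n))) huK hu0K hub1 hu01 hlim1
  have hR'R : min (R / 2) 1 < R := lt_of_le_of_lt (min_le_left _ _) (by linarith)
  have hrepn : ∀ n (a : Fin r → ℂ), ‖a‖ < min (R / 2) 1 →
      Rep (F (c (ψ (φ n)) + a) P0) (Fl (D.th j0) a (u (ψ (φ n)))) := by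
    intro n a ha
    rw [hadd (c (ψ (φ n))) a P0]
    exact hF.rep j0 hj0J (u (ψ (φ n))) (huK n) (hub1 n) (F (c (ψ (φ n))) P0) (hrep (ψ (φ n))) a
      (ha.trans hR'R)
  have heq : F (c (ψ (φ n)) + a) P0 = F (c (ψ (φ m)) + b) P0 :=
    (hrepn n a ha).eq (hrepn m b hb) hpe
  have hl := hsub _ _ heq
  have hne : ψ (φ m) ≠ ψ (φ n) := fun h => hnm ((hφ.injective (hψ.injective h)).symm)
  have h1 := hc' _ _ hne _ hl
  have h2 : c (ψ (φ n)) - c (ψ (φ m)) - (c (ψ (φ n)) + a - (c (ψ (φ m)) + b)) = b - a := by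
    abel
  rw [h2] at h1
  have h3 := norm_sub_le b a
  have h4 : min (R / 2) 1 ≤ 1 := min_le_right _ _
  linarith

end FD

end Pool.Agent.H917.G
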