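import Pool.Agent.H917.G.T6
import Pool.Agent.H917.G.T11
import Pool.Agent.H917.G.T13
import Pool.Agent.H917.G.T14

/-!
# PROJECT TORI (helper917), task T15: assembly, the torus

## Paper proof of `torus`

Take `R`, `F` of `exists_flow` (T6), let `P0` be the point of `x0` (`st_of_zs`, `St.rep`). `D.f = 0` by `Flow.comm` (T11). Let
`Λ = {l | F l P0 = P0}`; it is a subgroup by `Flow.add_all`, `Flow.zero` (T12) and `F z P0 = F w P0 ↔ z - w ∈ Λ`
(`F (w + (z - w)) P0 = F (z - w) (F w P0)` and `F (z - w) (F w P0) = F w (F (z - w) P0)`, `F w` is injective with inverse `F (-w)`).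
`Φ z` is a vector of coordinates of `F z P0` (`exists_rep`). Use `Flow.disc`, `Flow.cocp`, `Flow.hol`.
-/

set_option autoImplicit false
set_option linter.overlappingInstances false
set_option linter.unusedSectionVars false

open MvPolynomial Filter Topology Metric Set

namespace Pool.Agent.H917.G

namespace FD

variable {ι : Type} [Fintype ι] {r : ℕ}

theorem torus (D : FD ι r) {j0 : ι} (hj0 : j0 ∈ D.J) {x0 : ι → ℂ} (hx0 : x0 ∈ Zs (D.K j0)) :
    ∃ (Λ : AddSubgroup (Fin r → ℂ)) (Φ : (Fin r → ℂ) → ι → ℂ),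
      (∃ ε > 0, ∀ l ∈ Λ, ‖l‖ < ε → l = 0) ∧
      (∃ B : ℝ, ∀ z : Fin r → ℂ, ∃ l ∈ Λ, ‖z - l‖ ≤ B) ∧
      (∀ z w, PE (Φ z) (Φ w) ↔ z - w ∈ Λ) ∧ PE (Φ 0) x0 ∧
      ∀ z0, ∃ j ∈ D.J, ∃ g : (Fin r → ℂ) → ι → ℂ, ∀ᶠ z in 𝓝 z0,
        g z ∈ Zs (D.K j) ∧ PE (Φ z) (g z) ∧ HasFDerivAt g (vel (D.th j) (g z)) z := by
  obtain ⟨R, F, hR, hF⟩ := exists_flow D
  obtain ⟨P0, hP0⟩ := (st_of_zs hj0 hx0).rep
  have hf : ∀ a b e, D.f a b e = 0 := fun a b e => Flow.comm hR hF P0 a b e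
  have hadd : ∀ (a b : Fin r → ℂ) (P : D.Pt), F (a + b) P = F b (F a P) :=
    fun a b P => Flow.add_all hR hF hf a b P
  have hinv : ∀ (a : Fin r → ℂ) (P : D.Pt), F (-a) (F a P) = P := fun a P => by
    rw [← hadd, add_neg_cancel, hF.zero]
  choose Φ hΦ using fun z : Fin r → ℂ => exists_rep (F z P0)
  refine ⟨{ carrier := {l | F l P0 = P0}
            add_mem' := fun {a b} ha hb => ?_
            zero_mem' := hF.zero P0
            neg_mem' := fun {a} ha => ?_ }, Φ, ?_, ?_, ?_, ?_, ?_⟩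
  · have ha' : F a P0 = P0 := ha
    have hb' : F b P0 = P0 := hb
    change F (a + b) P0 = P0
    rw [hadd, ha', hb']
  · have ha' : F a P0 = P0 := ha
    have h1 := hinv a P0
    rw [ha'] at h1
    exact h1
  · obtain ⟨ε, hε, h⟩ := Flow.disc hR hF hf P0
    exact ⟨ε, hε, fun l hl hn => h l hn hl⟩
  · obtain ⟨B, hB⟩ := Flow.cocp hR hF hf P0
    refine ⟨B, fun z => ?_⟩
    obtain ⟨l, hl, hb⟩ := hB z
    exact ⟨l, hl, hb⟩
  · intro z w
    constructor
    · intro h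
      have h1 : F z P0 = F w P0 := (hΦ z).eq (hΦ w) h
      change F (z - w) P0 = P0
      rw [sub_eq_add_neg, hadd, h1, hinv]
    · intro h
      have h1 : F (z - w) P0 = P0 := h
      have h2 : F z P0 = F w P0 := by
        have h3 := hadd (z - w) w P0
        rw [sub_add_cancel, h1] at h3
        exact h3
      have h4 := hΦ z
      rw [h2] at h4
      exact h4.pe (hΦ w)
  · have h1 := hΦ 0
    rw [hF.zero] at h1
    exact h1.pe hP0
  · intro z0
    obtain ⟨j, hj, g, -, hg⟩ := Flow.hol hR hF hf z0 P0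
    refine ⟨j, hj, g, ?_⟩
    filter_upwards [ball_mem_nhds z0 hR] with z hz
    obtain ⟨h1, h2, h3⟩ := hg z hz
    exact ⟨h1, (hΦ z).pe h2, h3⟩

end FD

end Pool.Agent.H917.G
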