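import Pool.Agent.H917.G.T1

/-!
# PROJECT TORI (helper917), task T2: commuting vector fields, the derivative of the flow

## Paper proof of `Rad.hasFDeriv`

Write `δ_c = vf (cmb θ c) = ∑ c_a vf (θ a)`. The ideal `K` is stable under all `δ_c`, and for all polynomials `P`:
`δ_c (δ_{c'} P) - δ_{c'} (δ_c P) ∈ K` (the commutator is a derivation which maps the variables to `K`).
Fix `x ∈ Zs K`. The functions `p_k(c) := eval x (δ_c^k (X v)) / k!` are polynomials in `c`, homogeneous of degree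
`k`, with `|p_k(c)| ≤ ρ (‖c‖ / R) ^ k` for `‖c‖ ≤ R` (`Rad.bound`); `Fl θ c x v = ∑_k p_k(c)` (`Rad.hasSum`).
The derivative of `p_k` at `c` in the direction `c'` is
`∑_{i + j = k - 1} eval x (δ_c^i δ_{c'} δ_c^j (X v)) / k! = eval x (δ_c^{k-1} (δ_{c'} (X v))) / (k-1)!`
because modulo `K` the derivations commute and `x` is a zero of the stable ideal `K`. The sum over `k ≥ 1` is
`eval (Fl θ c x) (δ_{c'} (X v)) = eval (Fl θ c x) (cmb θ c' v) = vel θ (Fl θ c x) c' v` (`Rad.hasSum` for
`P = δ_{c'} (X v)`). The series can be differentiated term by term: e.g. `hasFDerivAt_tsum_of_isPreconnected` or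
`hasFDerivAt_of_tendstoUniformlyOnFilter` on the ball of radius `R₁ < R` with a bound for the norms of the
derivatives of the `p_k` on this ball (Cauchy's estimate for the polynomial `p_k`, e.g. via one variable:
`t ↦ p_k(c + t c')` is a polynomial bounded by `ρ q^k` for `|t| ‖c'‖ ≤ (R - R₁) / 2`, so its derivative at `0` is at
most `ρ q^k / ((R - R₁)/2) ‖c'‖`); or use Weierstrass' theorem in several variables from the read-only
library (`differentiableAt_of_tendstoUniformlyOn` in
`Pool/Graph/R_pool_sql_team_ae5b0c61/H97/Weier.lean`: `team-store fetch /workdir/pool <path>`) to get the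
differentiability of `c ↦ Fl θ c x`, and then compute the directional derivatives with one complex variable
(`hasDerivAt` of locally uniform limits, Mathlib's `hasSum_deriv_of_summable_norm`).
-/

set_option autoImplicit false
set_option linter.overlappingInstances false
set_option linter.unusedSectionVars false

open MvPolynomial Filter Topology Metric Set

namespace Pool.Agent.H917.G.T2aux

variable {σ : Type} [Fintype σ] {r : ℕ} {θ : Fin r → σ → MvPolynomial σ ℂ} {ρ R : ℝ}

theorem zero_smul_clm (L : (Fin r → ℂ) →L[ℂ] ℂ) : (0 : ℂ) • L = 0 := by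
  refine ContinuousLinearMap.ext fun c' => ?_
  rw [_root_.smul_apply, smul_eq_mul, zero_mul]
  rfl

theorem iter_sum (D : σ → MvPolynomial σ ℂ) {ι : Type} (s : Finset ι) (c : ι → ℂ)
    (Q : ι → MvPolynomial σ ℂ) (k : ℕ) :
    (vf D)^[k] (∑ i ∈ s, c i • Q i) = ∑ i ∈ s, c i • (vf D)^[k] (Q i) := by
  induction k with
  | zero => rfl
  | succ k ih =>
    rw [Function.iterate_succ_apply', ih, map_sum]
    refine Finset.sum_congr rfl fun i _ => ?_
    rw [Derivation.map_smul, Function.iterate_succ_apply']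

theorem iter_sub (D : σ → MvPolynomial σ ℂ) (P Q : MvPolynomial σ ℂ) (k : ℕ) :
    (vf D)^[k] (P - Q) = (vf D)^[k] P - (vf D)^[k] Q := by
  induction k with
  | zero => rfl
  | succ k ih => rw [Function.iterate_succ_apply', ih, map_sub, Function.iterate_succ_apply',
      Function.iterate_succ_apply']

/-- the combination of the derivations -/
theorem vf_cmb (c : Fin r → ℂ) (P : MvPolynomial σ ℂ) :
    vf (cmb θ c) P = ∑ a, c a • vf (θ a) P := by
  induction P using MvPolynomial.induction_on with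
  | C z =>
    rw [vf_C]
    symm
    refine Finset.sum_eq_zero fun a _ => ?_
    rw [vf_C, smul_zero]
  | add P Q hP hQ =>
    rw [map_add, hP, hQ, ← Finset.sum_add_distrib]
    refine Finset.sum_congr rfl fun a _ => ?_
    rw [map_add, smul_add]
  | mul_X P v hP =>
    rw [Derivation.leibniz, vf_X, hP, cmb, smul_eq_mul, smul_eq_mul, Finset.mul_sum,
      Finset.mul_sum, ← Finset.sum_add_distrib]
    refine Finset.sum_congr rfl fun a _ => ?_
    rw [Derivation.leibniz, vf_X, smul_eq_mul, smul_eq_mul, MvPolynomial.smul_eq_C_mul,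
      MvPolynomial.smul_eq_C_mul]
    ring

/-- the ideal is stable -/
theorem iter_mem {K : Ideal (MvPolynomial σ ℂ)} (hK : ∀ a, ∀ P ∈ K, vf (θ a) P ∈ K)
    (c : Fin r → ℂ) (k : ℕ) {P : MvPolynomial σ ℂ} (hP : P ∈ K) : (vf (cmb θ c))^[k] P ∈ K := by
  induction k with
  | zero => exact hP
  | succ k ih =>
    rw [Function.iterate_succ_apply', vf_cmb]
    refine K.sum_mem fun a _ => ?_
    rw [MvPolynomial.smul_eq_C_mul]
    exact K.mul_mem_left _ (hK a _ ih)

/-- the derivations commute modulo the ideal -/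
theorem comm_mem {K : Ideal (MvPolynomial σ ℂ)}
    (hcomm : ∀ a b v, vf (θ a) (θ b v) - vf (θ b) (θ a v) ∈ K) (a b : Fin r)
    (P : MvPolynomial σ ℂ) : vf (θ a) (vf (θ b) P) - vf (θ b) (vf (θ a) P) ∈ K := by
  induction P using MvPolynomial.induction_on with
  | C z => rw [vf_C, vf_C, map_zero, map_zero, sub_zero]; exact K.zero_mem
  | add P Q hP hQ =>
    simp only [map_add]
    have : vf (θ a) (vf (θ b) P) + vf (θ a) (vf (θ b) Q) -
        (vf (θ b) (vf (θ a) P) + vf (θ b) (vf (θ a) Q)) =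
        (vf (θ a) (vf (θ b) P) - vf (θ b) (vf (θ a) P)) +
        (vf (θ a) (vf (θ b) Q) - vf (θ b) (vf (θ a) Q)) := by ring
    rw [this]
    exact K.add_mem hP hQ
  | mul_X P v hP =>
    have h1 := hcomm a b v
    have : vf (θ a) (vf (θ b) (P * X v)) - vf (θ b) (vf (θ a) (P * X v)) =
        P * (vf (θ a) (θ b v) - vf (θ b) (θ a v)) +
        X v * (vf (θ a) (vf (θ b) P) - vf (θ b) (vf (θ a) P)) := by
      simp only [Derivation.leibniz, smul_eq_mul, map_add, vf_X]
      ring
    rw [this]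
    exact K.add_mem (K.mul_mem_left _ h1) (K.mul_mem_left _ hP)

/-- the derivative of the terms -/
theorem term_deriv {K : Ideal (MvPolynomial σ ℂ)}
    (hK : ∀ a, ∀ P ∈ K, vf (θ a) P ∈ K)
    (hcomm : ∀ a b v, vf (θ a) (θ b v) - vf (θ b) (θ a v) ∈ K) {x : σ → ℂ} (hxK : x ∈ Zs K)
    (k : ℕ) : ∀ (P : MvPolynomial σ ℂ) (c : Fin r → ℂ),
    HasFDerivAt (fun c => eval x ((vf (cmb θ c))^[k] P))
      (∑ a, ((k : ℂ) * eval x ((vf (cmb θ c))^[k - 1] (vf (θ a) P))) •
        (ContinuousLinearMap.proj a : (Fin r → ℂ) →L[ℂ] ℂ)) c := by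
  induction k with
  | zero =>
    intro P c
    have h0 : (∑ a, (((0 : ℕ) : ℂ) * eval x ((vf (cmb θ c))^[0 - 1] (vf (θ a) P))) •
        (ContinuousLinearMap.proj a : (Fin r → ℂ) →L[ℂ] ℂ)) = 0 := by
      refine Finset.sum_eq_zero fun a _ => ?_
      rw [Nat.cast_zero, zero_mul]
      exact zero_smul_clm _
    rw [h0]
    exact hasFDerivAt_const (eval x P) c
  | succ k ih =>
    intro P c
    have h1 : (fun c : Fin r → ℂ => eval x ((vf (cmb θ c))^[k + 1] P)) =
        fun c => ∑ a, c a * eval x ((vf (cmb θ c))^[k] (vf (θ a) P)) := by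
      funext c
      rw [Function.iterate_succ_apply, vf_cmb, iter_sum, map_sum]
      refine Finset.sum_congr rfl fun a _ => ?_
      rw [MvPolynomial.smul_eval]
    rw [h1]
    have h2 : ∀ a : Fin r, HasFDerivAt (fun c : Fin r → ℂ =>
        c a * eval x ((vf (cmb θ c))^[k] (vf (θ a) P)))
        (c a • (∑ b, ((k : ℂ) * eval x ((vf (cmb θ c))^[k - 1] (vf (θ b) (vf (θ a) P)))) •
          (ContinuousLinearMap.proj b : (Fin r → ℂ) →L[ℂ] ℂ)) +
        eval x ((vf (cmb θ c))^[k] (vf (θ a) P)) •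
          (ContinuousLinearMap.proj a : (Fin r → ℂ) →L[ℂ] ℂ)) c := by
      intro a
      exact (ContinuousLinearMap.proj a : (Fin r → ℂ) →L[ℂ] ℂ).hasFDerivAt.mul (ih (vf (θ a) P) c)
    have h3 := HasFDerivAt.fun_sum (u := Finset.univ) fun a _ => h2 a
    refine h3.congr_fderiv ?_
    rw [Finset.sum_add_distrib]
    -- exchange
    have h4 : ∀ a b : Fin r, eval x ((vf (cmb θ c))^[k - 1] (vf (θ b) (vf (θ a) P))) =
        eval x ((vf (cmb θ c))^[k - 1] (vf (θ a) (vf (θ b) P))) := by
      intro a b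
      have h5 := hxK _ (iter_mem hK c (k - 1) (comm_mem hcomm b a P))
      rw [iter_sub, map_sub, sub_eq_zero] at h5
      exact h5
    have h6 : ∀ b : Fin r, (k : ℂ) * ∑ a, c a * eval x ((vf (cmb θ c))^[k - 1]
        (vf (θ a) (vf (θ b) P))) = k * eval x ((vf (cmb θ c))^[k] (vf (θ b) P)) := by
      intro b
      rcases Nat.eq_zero_or_pos k with rfl | hk
      · simp
      · obtain ⟨l, rfl⟩ : ∃ l, k = l + 1 := ⟨k - 1, by omega⟩
        rw [Nat.add_sub_cancel, Function.iterate_succ_apply, vf_cmb, iter_sum, map_sum]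
        congr 1
        refine Finset.sum_congr rfl fun a _ => ?_
        rw [MvPolynomial.smul_eval]
    ext c'
    simp only [_root_.add_apply, _root_.sum_apply,
      _root_.smul_apply, ContinuousLinearMap.proj_apply, smul_eq_mul]
    rw [Nat.add_sub_cancel]
    have h7 : ∑ a, c a * ∑ b, (k : ℂ) * eval x ((vf (cmb θ c))^[k - 1]
        (vf (θ b) (vf (θ a) P))) * c' b =
        ∑ b, (k : ℂ) * eval x ((vf (cmb θ c))^[k] (vf (θ b) P)) * c' b := by
      simp only [Finset.mul_sum]
      rw [Finset.sum_comm]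
      refine Finset.sum_congr rfl fun b _ => ?_
      rw [← h6 b, Finset.mul_sum, Finset.sum_mul]
      refine Finset.sum_congr rfl fun a _ => ?_
      rw [h4 a b]
      ring
    rw [h7, ← Finset.sum_add_distrib]
    refine Finset.sum_congr rfl fun b _ => ?_
    push_cast
    ring

/-- uniform bounds for the terms -/
theorem unif (h : Rad θ ρ R) {R₁ : ℝ} (h0 : 0 ≤ R₁) (hR : R₁ < R) (P : MvPolynomial σ ℂ) :
    ∃ u : ℕ → ℝ, Summable u ∧ (∀ k, 0 ≤ u k) ∧ ∀ x : σ → ℂ, (∀ v, ‖x v‖ ≤ ρ) →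
      ∀ c : Fin r → ℂ, ‖c‖ ≤ R₁ → ∀ k,
        ‖PowerSeries.coeff k (fl (cmb θ c) x P)‖ ≤ u k := by
  have hρ := h.one_le
  have hR0 := h.pos
  induction P using MvPolynomial.induction_on with
  | C z =>
    refine ⟨fun k => if k = 0 then ‖z‖ else 0, ?_, ?_, ?_⟩
    · refine summable_of_ne_finset_zero (s := {0}) fun m hm => ?_
      rw [if_neg (by simpa using hm)]
    · intro k
      show 0 ≤ if k = 0 then ‖z‖ else 0
      split_ifs
      · exact norm_nonneg _
      · exact le_rfl
    · intro x hx c hc k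
      rw [fl_C, PowerSeries.algebraMap_apply, PowerSeries.coeff_C]
      show _ ≤ if k = 0 then ‖z‖ else 0
      split_ifs
      · exact le_rfl
      · rw [norm_zero]
  | add P Q hP hQ =>
    obtain ⟨u, hu, hu0, hu1⟩ := hP
    obtain ⟨w, hw, hw0, hw1⟩ := hQ
    refine ⟨fun k => u k + w k, hu.add hw, fun k => add_nonneg (hu0 k) (hw0 k), ?_⟩
    intro x hx c hc k
    rw [fl_add, map_add]
    exact (norm_add_le _ _).trans (add_le_add (hu1 x hx c hc k) (hw1 x hx c hc k))
  | mul_X P v hP =>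
    obtain ⟨u, hu, hu0, hu1⟩ := hP
    obtain ⟨g, hg⟩ : ∃ g : ℕ → ℝ, g = fun k => ρ * (R₁ / R) ^ k := ⟨_, rfl⟩
    have hgs : Summable g := by
      rw [hg]
      exact (summable_geometric_of_lt_one (by positivity) ((div_lt_one hR0).2 hR)).mul_left ρ
    have hg0 : ∀ k, 0 ≤ g k := fun k => by rw [hg]; positivity
    refine ⟨fun k => ∑ p ∈ Finset.HasAntidiagonal.antidiagonal k, u p.1 * g p.2, ?_, ?_, ?_⟩
    · exact (summable_norm_sum_mul_antidiagonal_of_summable_norm (f := u) (g := g)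
        (hu.congr fun k => (Real.norm_of_nonneg (hu0 k)).symm)
        (hgs.congr fun k => (Real.norm_of_nonneg (hg0 k)).symm)).of_norm
    · intro k
      exact Finset.sum_nonneg fun p _ => mul_nonneg (hu0 _) (hg0 _)
    · intro x hx c hc k
      rw [fl_mul, PowerSeries.coeff_mul]
      refine (norm_sum_le _ _).trans (Finset.sum_le_sum fun p _ => ?_)
      rw [norm_mul]
      refine mul_le_mul (hu1 x hx c hc _) ?_ (norm_nonneg _) (hu0 _)
      rw [coeff_fl, norm_div, Complex.norm_natCast]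
      refine (h.bound hx (hc.trans hR.le) v p.2).trans ?_
      rw [hg]
      refine mul_le_mul_of_nonneg_left ?_ (by linarith)
      exact pow_le_pow_left₀ (by positivity) (div_le_div_of_nonneg_right hc hR0.le) _

end Pool.Agent.H917.G.T2aux

namespace Pool.Agent.H917.G

variable {σ : Type} [Fintype σ] {r : ℕ} {θ : Fin r → σ → MvPolynomial σ ℂ} {ρ R : ℝ}

theorem Rad.hasFDeriv (h : Rad θ ρ R) {K : Ideal (MvPolynomial σ ℂ)}
    (hK : ∀ a, ∀ P ∈ K, vf (θ a) P ∈ K)
    (hcomm : ∀ a b v, vf (θ a) (θ b v) - vf (θ b) (θ a v) ∈ K) {x : σ → ℂ}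
    (hx : ∀ v, ‖x v‖ ≤ ρ) (hxK : x ∈ Zs K) {c : Fin r → ℂ} (hc : ‖c‖ < R) :
    HasFDerivAt (fun c => Fl θ c x) (vel θ (Fl θ c x)) c := by
  obtain ⟨R₁, hcR₁, hR₁⟩ := exists_between hc
  have hR₁0 : 0 ≤ R₁ := (norm_nonneg c).trans hcR₁.le
  rw [hasFDerivAt_pi']
  intro v
  -- the terms and their derivatives
  let f : ℕ → (Fin r → ℂ) → ℂ := fun k c => eval x ((vf (cmb θ c))^[k] (X v)) / k.factorial
  let f' : ℕ → (Fin r → ℂ) → ((Fin r → ℂ) →L[ℂ] ℂ) := fun k c => ∑ a,
    (((k : ℂ) * eval x ((vf (cmb θ c))^[k - 1] (θ a v))) / k.factorial) •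
      (ContinuousLinearMap.proj a : (Fin r → ℂ) →L[ℂ] ℂ)
  have hf : ∀ k c, HasFDerivAt (f k) (f' k c) c := by
    intro k c
    have h1 := T2aux.term_deriv hK hcomm hxK k (X v) c
    have h2 := h1.mul_const (k.factorial : ℂ)⁻¹
    refine h2.congr_fderiv ?_
    ext c'
    simp only [f', _root_.sum_apply, _root_.smul_apply,
      ContinuousLinearMap.proj_apply, smul_eq_mul, Finset.mul_sum]
    refine Finset.sum_congr rfl fun a _ => ?_
    rw [vf_X]
    ring
  -- the coefficients
  have hcoef : ∀ (k : ℕ) (c : Fin r → ℂ) (a : Fin r),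
      ((k + 1 : ℕ) : ℂ) * eval x ((vf (cmb θ c))^[k + 1 - 1] (θ a v)) / (k + 1).factorial =
        PowerSeries.coeff k (fl (cmb θ c) x (θ a v)) := by
    intro k c a
    rw [coeff_fl, Nat.add_sub_cancel, Nat.factorial_succ]
    have h1 : (k.factorial : ℂ) ≠ 0 := by exact_mod_cast k.factorial_ne_zero
    have h2 : ((k + 1 : ℕ) : ℂ) ≠ 0 := by exact_mod_cast k.succ_ne_zero
    push_cast at h2 ⊢
    field_simp
  choose u hu hu0 hu1 using fun a => T2aux.unif h hR₁0 hR₁ (θ a v)
  let w : ℕ → ℝ := fun k => Nat.casesOn k 0 fun k => ∑ a, u a k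
  have hw : Summable w := by
    rw [← summable_nat_add_iff 1]
    exact summable_sum fun a _ => hu a
  have hbd : ∀ (k : ℕ) (c : Fin r → ℂ), c ∈ ball (0 : Fin r → ℂ) R₁ → ‖f' k c‖ ≤ w k := by
    intro k c hc
    rw [mem_ball_zero_iff] at hc
    cases k with
    | zero =>
      have : f' 0 c = 0 := by
        refine Finset.sum_eq_zero fun a _ => ?_
        rw [Nat.cast_zero, zero_mul, zero_div]
        exact T2aux.zero_smul_clm _
      rw [this, norm_zero]
      exact le_rfl
    | succ k =>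
      show ‖∑ a, (((k + 1 : ℕ) : ℂ) * eval x ((vf (cmb θ c))^[k + 1 - 1] (θ a v)) /
        (k + 1).factorial) • (ContinuousLinearMap.proj a : (Fin r → ℂ) →L[ℂ] ℂ)‖ ≤ ∑ a, u a k
      refine (norm_sum_le _ _).trans (Finset.sum_le_sum fun a _ => ?_)
      rw [hcoef, norm_smul]
      have h3 : ‖(ContinuousLinearMap.proj a : (Fin r → ℂ) →L[ℂ] ℂ)‖ ≤ 1 := by
        refine ContinuousLinearMap.opNorm_le_bound _ zero_le_one fun c' => ?_
        rw [one_mul]
        exact norm_le_pi_norm c' a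
      exact (mul_le_mul (hu1 a x hx c hc.le k) h3 (norm_nonneg _) (hu0 a k)).trans (mul_one _).le
  have hc1 : c ∈ ball (0 : Fin r → ℂ) R₁ := by rwa [mem_ball_zero_iff]
  have hmain := hasFDerivAt_tsum_of_isPreconnected (f := f) (f' := f') hw isOpen_ball
    (convex_ball (0 : Fin r → ℂ) R₁).isPreconnected (fun k c _ => hf k c) hbd hc1
    (h.hasSum hx hc (X v)).summable hc1
  have hfun : (fun c => Fl θ c x v) = fun c => ∑' k, f k c := by
    funext c
    unfold Fl psum
    refine tsum_congr fun k => ?_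
    rw [coeff_fl, one_pow, mul_one]
  rw [hfun]
  refine hmain.congr_fderiv ?_
  -- the sum of the derivatives
  have hsum : HasSum (fun k => f' k c) (∑ a, eval (Fl θ c x) (θ a v) •
      (ContinuousLinearMap.proj a : (Fin r → ℂ) →L[ℂ] ℂ)) := by
    rw [← hasSum_nat_add_iff' 1]
    have h4 : f' 0 c = 0 := by
      refine Finset.sum_eq_zero fun a _ => ?_
      rw [Nat.cast_zero, zero_mul, zero_div]
      exact T2aux.zero_smul_clm _
    rw [Finset.sum_range_one, h4, sub_zero]
    refine hasSum_sum fun a _ => ?_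
    refine HasSum.smul_const ?_ _
    have h5 := h.hasSum hx hc (θ a v)
    refine h5.congr_fun ?_
    intro k
    rw [hcoef, coeff_fl]
  rw [hsum.tsum_eq]
  ext c'
  rw [ContinuousLinearMap.comp_apply, ContinuousLinearMap.proj_apply, vel]
  rfl

end Pool.Agent.H917.G
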