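import Pool.Agent.H917.G.T1

/-!
# PROJECT TORI (helper917), task T3: shifting a curve by a flow (without commutativity)

## Paper proof of `Rad.shift`

Write `δ_c = vf (cmb θ c) = ∑ c_b vf (θ b)`, `δ_a = vf (θ a)`, `N = adm f a`, so `(N c)_e = ∑_b f a b e c_b`.
The ideal `K` is stable under all `δ_c`, and for all polynomials `P` and all `c`:
`δ_a (δ_c P) - δ_c (δ_a P) - δ_{N c} P ∈ K` (the left-hand side is a derivation applied to `P`; it maps the
variables to `K` by `hbrk`). So modulo `K`: `δ_c δ_a = δ_a δ_c + δ_{(-N) c}`, and by induction on `k`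
`δ_c δ_a^k ≡ ∑_{i ≤ k} (k choose i) δ_a^{k-i} δ_{(-N)^i c}` modulo `K` (as maps on all polynomials).
Let `H z v := Fl θ (Pi.single a τ) (g z) v`. As `cmb θ (Pi.single a τ) = C τ * θ a`, `Rad.hasSum` says
`eval (H z) P = ∑_k τ^k / k! * eval (g z) (δ_a^k P)` for all `P`. Each function `z ↦ eval (g z) Q` has on `U` the
derivative `eval (g z) (δ_c Q)` (chain rule; induction on `Q`, cf. `hasDeriv_vf` in
`Pool/Agent/H917/E3.lean` on main). The series for `P = X v` consists of holomorphic functions on `U` which are bounded by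
`ρ (‖τ‖ / R)^k` (`Rad.bound`), so it can be differentiated term by term
(`Complex.hasSum_deriv_of_summable_norm` and `Complex.differentiableOn_tsum_of_summable_norm` or similar in Mathlib):
`H' = ∑_k τ^k / k! * eval (g z) (δ_c δ_a^k (X v)) = ∑_k ∑_{i+j=k} (τ^j / j!) (τ^i / i!) eval (g z) (δ_a^j δ_{(-N)^i c} (X v))`
(`g z ∈ Zs K`). With `δ_{(-N)^i c} (X v) = ∑_e ((-N)^i c)_e θ e v` this is
`∑_e (∑_i τ^i / i! ((-N)^i c)_e) (∑_j τ^j / j! eval (g z) (δ_a^j (θ e v)))` (Cauchy product of two absolutely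
convergent series: `Rad.summable` for `P = θ e v`, the exponential series for the other one)
`= ∑_e (ecx N τ c)_e * eval (H z) (θ e v) = eval (H z) (cmb θ (ecx N τ c) v)`.
-/

set_option autoImplicit false
set_option linter.overlappingInstances false
set_option linter.unusedSectionVars false

open MvPolynomial Filter Topology Metric Set

namespace Pool.Agent.H917.G

variable {σ : Type} [Fintype σ] {r : ℕ} {θ : Fin r → σ → MvPolynomial σ ℂ} {ρ R : ℝ}

namespace T3aux

theorem hasDeriv_ev {η : σ → MvPolynomial σ ℂ} {x : ℂ → σ → ℂ} {z : ℂ}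
    (hx : ∀ v, HasDerivAt (fun w => x w v) (eval (x z) (η v)) z) (P : MvPolynomial σ ℂ) :
    HasDerivAt (fun w => eval (x w) P) (eval (x z) (vf η P)) z := by
  induction P using MvPolynomial.induction_on with
  | C a =>
    rw [vf_C, map_zero]
    simp only [eval_C]
    exact hasDerivAt_const z a
  | add p q hp hq =>
    simp only [map_add]
    exact hp.add hq
  | mul_X p v hp =>
    have h1 := hp.mul (hx v)
    simp only [map_mul, eval_X]
    rw [Derivation.leibniz, map_add, vf_X]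
    simp only [smul_eq_mul, map_mul, eval_X]
    refine h1.congr_deriv ?_
    ring

theorem vf_cmb (θ : Fin r → σ → MvPolynomial σ ℂ) (c : Fin r → ℂ) (P : MvPolynomial σ ℂ) :
    vf (cmb θ c) P = ∑ b, C (c b) * vf (θ b) P := by
  induction P using MvPolynomial.induction_on with
  | C a => simp
  | add p q hp hq => simp only [map_add, hp, hq, mul_add, Finset.sum_add_distrib]
  | mul_X p v hp =>
    rw [Derivation.leibniz, hp, vf_X]
    simp only [Derivation.leibniz, vf_X, smul_eq_mul, cmb, mul_add, Finset.sum_add_distrib,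
      Finset.mul_sum]
    congr 1
    · exact Finset.sum_congr rfl fun b _ => by ring
    · exact Finset.sum_congr rfl fun b _ => by ring

theorem vf_cmb_mem {K : Ideal (MvPolynomial σ ℂ)} (hK : ∀ a, ∀ P ∈ K, vf (θ a) P ∈ K)
    (c : Fin r → ℂ) (P : MvPolynomial σ ℂ) (hP : P ∈ K) : vf (cmb θ c) P ∈ K := by
  rw [vf_cmb]
  exact K.sum_mem fun b _ => K.mul_mem_left _ (hK b P hP)

theorem vf_single (θ : Fin r → σ → MvPolynomial σ ℂ) (a : Fin r) (τ : ℂ)
    (P : MvPolynomial σ ℂ) : vf (cmb θ (Pi.single a τ)) P = C τ * vf (θ a) P := by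
  rw [vf_cmb, Finset.sum_eq_single a]
  · rw [Pi.single_eq_same]
  · intro b _ hb
    rw [Pi.single_eq_of_ne hb, C_0, zero_mul]
  · intro h; exact absurd (Finset.mem_univ _) h

theorem vf_smul (θ : Fin r → σ → MvPolynomial σ ℂ) (t : ℂ) (c : Fin r → ℂ)
    (P : MvPolynomial σ ℂ) : vf (cmb θ (t • c)) P = C t * vf (cmb θ c) P := by
  rw [vf_cmb, vf_cmb, Finset.mul_sum]
  refine Finset.sum_congr rfl fun b _ => ?_
  rw [Pi.smul_apply, smul_eq_mul, C_mul, mul_assoc]

theorem comm {K : Ideal (MvPolynomial σ ℂ)} {f : Fin r → Fin r → Fin r → ℂ}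
    (hbrk : ∀ a b v, vf (θ a) (θ b v) - vf (θ b) (θ a v) - ∑ e, C (f a b e) * θ e v ∈ K)
    (a : Fin r) (c : Fin r → ℂ) (Q : MvPolynomial σ ℂ) :
    vf (θ a) (vf (cmb θ c) Q) - vf (cmb θ c) (vf (θ a) Q) -
      vf (cmb θ ((adm f a).mulVec c)) Q ∈ K := by
  induction Q using MvPolynomial.induction_on with
  | C z => simp
  | add p q hp hq =>
    have h := K.add_mem hp hq
    simp only [map_add] at h ⊢
    have e : vf (θ a) (vf (cmb θ c) p) + vf (θ a) (vf (cmb θ c) q) -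
        (vf (cmb θ c) (vf (θ a) p) + vf (cmb θ c) (vf (θ a) q)) -
        (vf (cmb θ ((adm f a).mulVec c)) p + vf (cmb θ ((adm f a).mulVec c)) q) =
        vf (θ a) (vf (cmb θ c) p) - vf (cmb θ c) (vf (θ a) p) -
          vf (cmb θ ((adm f a).mulVec c)) p +
        (vf (θ a) (vf (cmb θ c) q) - vf (cmb θ c) (vf (θ a) q) -
          vf (cmb θ ((adm f a).mulVec c)) q) := by ring
    rw [e]
    exact h
  | mul_X p v hp =>
    have hX : vf (θ a) (cmb θ c v) - vf (cmb θ c) (θ a v) -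
        cmb θ ((adm f a).mulVec c) v ∈ K := by
      have e : vf (θ a) (cmb θ c v) - vf (cmb θ c) (θ a v) - cmb θ ((adm f a).mulVec c) v =
          ∑ b, C (c b) * (vf (θ a) (θ b v) - vf (θ b) (θ a v) - ∑ e, C (f a b e) * θ e v) := by
        have e1 : vf (θ a) (cmb θ c v) = ∑ b, C (c b) * vf (θ a) (θ b v) := by
          unfold cmb
          rw [map_sum]
          refine Finset.sum_congr rfl fun b _ => ?_
          rw [Derivation.leibniz, vf_C, smul_zero, add_zero, smul_eq_mul]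
        have e2 : cmb θ ((adm f a).mulVec c) v =
            ∑ b, C (c b) * ∑ e, C (f a b e) * θ e v := by
          unfold cmb
          simp only [Matrix.mulVec, dotProduct, adm, Matrix.of_apply, map_sum, Finset.sum_mul,
            Finset.mul_sum]
          rw [Finset.sum_comm]
          refine Finset.sum_congr rfl fun b _ => Finset.sum_congr rfl fun e _ => ?_
          rw [C_mul]; ring
        rw [e1, e2, vf_cmb, ← Finset.sum_sub_distrib, ← Finset.sum_sub_distrib]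
        exact Finset.sum_congr rfl fun b _ => by ring
      rw [e]
      exact K.sum_mem fun b _ => K.mul_mem_left _ (hbrk a b v)
    have h := K.add_mem (K.mul_mem_left p hX) (K.mul_mem_left (X v) hp)
    have e : vf (θ a) (vf (cmb θ c) (p * X v)) - vf (cmb θ c) (vf (θ a) (p * X v)) -
        vf (cmb θ ((adm f a).mulVec c)) (p * X v) =
        p * (vf (θ a) (cmb θ c v) - vf (cmb θ c) (θ a v) - cmb θ ((adm f a).mulVec c) v) +
        X v * (vf (θ a) (vf (cmb θ c) p) - vf (cmb θ c) (vf (θ a) p) -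
          vf (cmb θ ((adm f a).mulVec c)) p) := by
      simp only [Derivation.leibniz, vf_X, smul_eq_mul, map_add]
      ring
    rw [e]
    exact h

/-- the vectors `(-τ N)^i c` -/
noncomputable def mm (N : Matrix (Fin r) (Fin r) ℂ) (τ : ℂ) (i : ℕ) (c : Fin r → ℂ) :
    Fin r → ℂ := (-τ) ^ i • (N ^ i).mulVec c

theorem mm_zero (N : Matrix (Fin r) (Fin r) ℂ) (τ : ℂ) (c : Fin r → ℂ) : mm N τ 0 c = c := by
  simp [mm]

theorem mm_succ (N : Matrix (Fin r) (Fin r) ℂ) (τ : ℂ) (i : ℕ) (c : Fin r → ℂ) :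
    mm N τ i ((-τ) • N.mulVec c) = mm N τ (i + 1) c := by
  unfold mm
  rw [Matrix.mulVec_smul, Matrix.mulVec_mulVec, smul_smul, ← pow_succ, ← pow_succ]

theorem comm' {K : Ideal (MvPolynomial σ ℂ)} {f : Fin r → Fin r → Fin r → ℂ}
    (hbrk : ∀ a b v, vf (θ a) (θ b v) - vf (θ b) (θ a v) - ∑ e, C (f a b e) * θ e v ∈ K)
    (a : Fin r) (τ : ℂ) (c : Fin r → ℂ) (Q : MvPolynomial σ ℂ) :
    vf (cmb θ c) (vf (cmb θ (Pi.single a τ)) Q) - vf (cmb θ (Pi.single a τ)) (vf (cmb θ c) Q) -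
      vf (cmb θ ((-τ) • (adm f a).mulVec c)) Q ∈ K := by
  have h := K.mul_mem_left (-(C τ)) (comm hbrk a c Q)
  have e : vf (cmb θ c) (vf (cmb θ (Pi.single a τ)) Q) -
      vf (cmb θ (Pi.single a τ)) (vf (cmb θ c) Q) -
      vf (cmb θ ((-τ) • (adm f a).mulVec c)) Q =
      -(C τ) * (vf (θ a) (vf (cmb θ c) Q) - vf (cmb θ c) (vf (θ a) Q) -
        vf (cmb θ ((adm f a).mulVec c)) Q) := by
    rw [vf_single, vf_single, vf_smul, Derivation.leibniz, vf_C, smul_zero, add_zero,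
      smul_eq_mul, C_neg]
    ring
  rw [e]
  exact h

/-- the iterated commutation relation -/
theorem iter {K : Ideal (MvPolynomial σ ℂ)} (hK : ∀ a, ∀ P ∈ K, vf (θ a) P ∈ K)
    {f : Fin r → Fin r → Fin r → ℂ}
    (hbrk : ∀ a b v, vf (θ a) (θ b v) - vf (θ b) (θ a v) - ∑ e, C (f a b e) * θ e v ∈ K)
    (a : Fin r) (τ : ℂ) (P : MvPolynomial σ ℂ) (k : ℕ) : ∀ (c : Fin r → ℂ),
    vf (cmb θ c) ((vf (cmb θ (Pi.single a τ)))^[k] P) -
      ∑ ij ∈ Finset.HasAntidiagonal.antidiagonal k, k.choose ij.1 •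
        (vf (cmb θ (Pi.single a τ)))^[ij.2] (vf (cmb θ (mm (adm f a) τ ij.1 c)) P) ∈ K := by
  set D := vf (cmb θ (Pi.single a τ)) with hD
  induction k with
  | zero =>
    intro c
    simp [mm_zero]
  | succ k ih =>
    intro c
    have h1 := comm' hbrk a τ c (D^[k] P)
    rw [← hD] at h1
    have h2 := vf_cmb_mem hK (Pi.single a τ) _ (ih c)
    rw [← hD] at h2
    have h3 := ih ((-τ) • (adm f a).mulVec c)
    have h4 := K.add_mem (K.add_mem h1 h2) h3
    have e : vf (cmb θ c) (D^[k + 1] P) -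
        ∑ ij ∈ Finset.HasAntidiagonal.antidiagonal (k + 1), (k + 1).choose ij.1 •
          D^[ij.2] (vf (cmb θ (mm (adm f a) τ ij.1 c)) P) =
        vf (cmb θ c) (D (D^[k] P)) - D (vf (cmb θ c) (D^[k] P)) -
          vf (cmb θ ((-τ) • (adm f a).mulVec c)) (D^[k] P) +
        D (vf (cmb θ c) (D^[k] P) - ∑ ij ∈ Finset.HasAntidiagonal.antidiagonal k, k.choose ij.1 •
          D^[ij.2] (vf (cmb θ (mm (adm f a) τ ij.1 c)) P)) +
        (vf (cmb θ ((-τ) • (adm f a).mulVec c)) (D^[k] P) -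
          ∑ ij ∈ Finset.HasAntidiagonal.antidiagonal k, k.choose ij.1 •
            D^[ij.2] (vf (cmb θ (mm (adm f a) τ ij.1 ((-τ) • (adm f a).mulVec c))) P)) := by
      rw [Finset.sum_antidiagonal_choose_succ_nsmul
        (fun i j => D^[j] (vf (cmb θ (mm (adm f a) τ i c)) P)) k, Function.iterate_succ_apply']
      have e1 : D (∑ ij ∈ Finset.HasAntidiagonal.antidiagonal k, k.choose ij.1 •
          D^[ij.2] (vf (cmb θ (mm (adm f a) τ ij.1 c)) P)) =
          ∑ ij ∈ Finset.HasAntidiagonal.antidiagonal k, k.choose ij.1 •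
            D^[ij.2 + 1] (vf (cmb θ (mm (adm f a) τ ij.1 c)) P) := by
        rw [map_sum]
        refine Finset.sum_congr rfl fun ij _ => ?_
        rw [map_nsmul, Function.iterate_succ_apply']
      have e2 : ∑ ij ∈ Finset.HasAntidiagonal.antidiagonal k, k.choose ij.1 •
            D^[ij.2] (vf (cmb θ (mm (adm f a) τ ij.1 ((-τ) • (adm f a).mulVec c))) P) =
          ∑ ij ∈ Finset.HasAntidiagonal.antidiagonal k, k.choose ij.2 •
            D^[ij.2] (vf (cmb θ (mm (adm f a) τ (ij.1 + 1) c)) P) := by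
        refine Finset.sum_congr rfl fun ij hij => ?_
        rw [mm_succ, Nat.choose_symm_of_eq_add (Finset.HasAntidiagonal.mem_antidiagonal.1 hij).symm]
      rw [map_sub, e1, e2]
      ring
    rw [e]
    exact h4

theorem iter_lin (D : Derivation ℂ (MvPolynomial σ ℂ) (MvPolynomial σ ℂ)) (j : ℕ)
    (P : MvPolynomial σ ℂ) : D^[j] P = ((D : MvPolynomial σ ℂ →ₗ[ℂ] MvPolynomial σ ℂ) ^ j) P := by
  rw [Module.End.pow_apply]
  rfl

theorem eval_iter_cmb (D : Derivation ℂ (MvPolynomial σ ℂ) (MvPolynomial σ ℂ)) (j : ℕ)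
    (θ : Fin r → σ → MvPolynomial σ ℂ) (c : Fin r → ℂ) (v : σ) (x : σ → ℂ) :
    eval x (D^[j] (cmb θ c v)) = ∑ e, c e * eval x (D^[j] (θ e v)) := by
  simp only [iter_lin]
  unfold cmb
  rw [map_sum, map_sum]
  refine Finset.sum_congr rfl fun e _ => ?_
  rw [← smul_eq_C_mul, map_smul, smul_eval]

/-- the terms of the differentiated series -/
theorem eval_term {K : Ideal (MvPolynomial σ ℂ)} (hK : ∀ a, ∀ P ∈ K, vf (θ a) P ∈ K)
    {f : Fin r → Fin r → Fin r → ℂ}
    (hbrk : ∀ a b v, vf (θ a) (θ b v) - vf (θ b) (θ a v) - ∑ e, C (f a b e) * θ e v ∈ K)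
    (a : Fin r) (τ : ℂ) (c : Fin r → ℂ) (v : σ) (k : ℕ) {x : σ → ℂ} (hx : x ∈ Zs K) :
    eval x (vf (cmb θ c) ((vf (cmb θ (Pi.single a τ)))^[k] (X v))) / k.factorial =
      ∑ e, ∑ ij ∈ Finset.HasAntidiagonal.antidiagonal k, (mm (adm f a) τ ij.1 c e / ij.1.factorial) *
        (eval x ((vf (cmb θ (Pi.single a τ)))^[ij.2] (θ e v)) / ij.2.factorial) := by
  have h := hx _ (iter hK hbrk a τ (X v) k c)
  rw [map_sub, sub_eq_zero] at h
  rw [h, map_sum, Finset.sum_div, Finset.sum_comm]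
  refine Finset.sum_congr rfl fun ij hij => ?_
  rw [vf_X, map_nsmul, eval_iter_cmb, nsmul_eq_mul, Finset.mul_sum, Finset.sum_div]
  refine Finset.sum_congr rfl fun e _ => ?_
  have h1 : ij.1 + ij.2 = k := Finset.HasAntidiagonal.mem_antidiagonal.1 hij
  have h2 := Nat.add_choose_mul_factorial_mul_factorial ij.1 ij.2
  rw [h1, ← Nat.choose_symm_of_eq_add h1.symm] at h2
  have h3 : ((k.choose ij.1 : ℕ) : ℂ) * ij.1.factorial * ij.2.factorial = k.factorial := by
    exact_mod_cast h2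
  have h4 : ((ij.1.factorial : ℕ) : ℂ) ≠ 0 := by exact_mod_cast ij.1.factorial_ne_zero
  have h5 : ((ij.2.factorial : ℕ) : ℂ) ≠ 0 := by exact_mod_cast ij.2.factorial_ne_zero
  have h6 : ((k.factorial : ℕ) : ℂ) ≠ 0 := by exact_mod_cast k.factorial_ne_zero
  rw [← h3]
  rw [← h3] at h6
  have h7 : ((k.choose ij.1 : ℕ) : ℂ) ≠ 0 := fun h => h6 (by rw [h]; ring)
  field_simp

/-- bound for the powers of a matrix -/
theorem norm_pow_mulVec (N : Matrix (Fin r) (Fin r) ℂ) (c : Fin r → ℂ) :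
    ∃ L : ℝ, 0 ≤ L ∧ ∀ i : ℕ, ‖(N ^ i).mulVec c‖ ≤ L ^ i * ‖c‖ := by
  refine ⟨∑ e, ∑ b, ‖N e b‖, by positivity, fun i => ?_⟩
  induction i with
  | zero => simp
  | succ i ih =>
    set L := ∑ e, ∑ b, ‖N e b‖ with hL
    have hL0 : 0 ≤ L := by positivity
    rw [pow_succ', ← Matrix.mulVec_mulVec]
    have h1 : ∀ d : Fin r → ℂ, ‖N.mulVec d‖ ≤ L * ‖d‖ := by
      intro d
      rw [pi_norm_le_iff_of_nonneg (by positivity)]
      intro e
      calc ‖N.mulVec d e‖ = ‖∑ b, N e b * d b‖ := rfl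
        _ ≤ ∑ b, ‖N e b * d b‖ := norm_sum_le _ _
        _ ≤ ∑ b, ‖N e b‖ * ‖d‖ := Finset.sum_le_sum fun b _ => by
            rw [norm_mul]
            exact mul_le_mul_of_nonneg_left (norm_le_pi_norm d b) (norm_nonneg _)
        _ = (∑ b, ‖N e b‖) * ‖d‖ := by rw [Finset.sum_mul]
        _ ≤ L * ‖d‖ := by
            apply mul_le_mul_of_nonneg_right _ (norm_nonneg _)
            exact Finset.single_le_sum (f := fun e => ∑ b, ‖N e b‖)
              (fun e _ => by positivity) (Finset.mem_univ e)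
    refine (h1 _).trans ?_
    calc L * ‖(N ^ i).mulVec c‖ ≤ L * (L ^ i * ‖c‖) := mul_le_mul_of_nonneg_left ih hL0
      _ = L ^ (i + 1) * ‖c‖ := by ring

theorem summable_mm (N : Matrix (Fin r) (Fin r) ℂ) (τ : ℂ) (c : Fin r → ℂ) (e : Fin r) :
    Summable fun i : ℕ => ‖mm N τ i c e / i.factorial‖ := by
  obtain ⟨L, hL, h⟩ := norm_pow_mulVec N c
  have h1 : Summable fun i : ℕ => ‖c‖ * ((‖τ‖ * L) ^ i / i.factorial) :=
    (Real.summable_pow_div_factorial (‖τ‖ * L)).mul_left _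
  refine Summable.of_nonneg_of_le (fun i => norm_nonneg _) (fun i => ?_) h1
  rw [norm_div, Complex.norm_natCast]
  unfold mm
  rw [Pi.smul_apply, smul_eq_mul, norm_mul, norm_pow, norm_neg]
  have h2 : ‖((N ^ i).mulVec c) e‖ ≤ L ^ i * ‖c‖ := (norm_le_pi_norm _ e).trans (h i)
  rw [mul_pow, ← mul_div_assoc]
  apply div_le_div_of_nonneg_right _ (by positivity)
  calc ‖τ‖ ^ i * ‖((N ^ i).mulVec c) e‖ ≤ ‖τ‖ ^ i * (L ^ i * ‖c‖) :=
        mul_le_mul_of_nonneg_left h2 (by positivity)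
    _ = ‖c‖ * (‖τ‖ ^ i * L ^ i) := by ring

theorem ecx_eq (N : Matrix (Fin r) (Fin r) ℂ) (τ : ℂ) (c : Fin r → ℂ) (e : Fin r) :
    ecx N τ c e = ∑' i : ℕ, mm N τ i c e / i.factorial := by
  unfold ecx mm
  refine tsum_congr fun i => ?_
  rw [Pi.smul_apply, smul_eq_mul]
  ring

end T3aux

open T3aux in
theorem Rad.shift (h : Rad θ ρ R) {K : Ideal (MvPolynomial σ ℂ)}
    (hK : ∀ a, ∀ P ∈ K, vf (θ a) P ∈ K) {f : Fin r → Fin r → Fin r → ℂ}
    (hbrk : ∀ a b v, vf (θ a) (θ b v) - vf (θ b) (θ a v) - ∑ e, C (f a b e) * θ e v ∈ K)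
    (a : Fin r) (c : Fin r → ℂ) {U : Set ℂ} (hU : IsOpen U) {g : ℂ → σ → ℂ}
    (hg : ∀ z ∈ U, ∀ v, HasDerivAt (fun w => g w v) (eval (g z) (cmb θ c v)) z)
    (hgK : ∀ z ∈ U, g z ∈ Zs K) (hgρ : ∀ z ∈ U, ∀ v, ‖g z v‖ ≤ ρ) {τ : ℂ} (hτ : ‖τ‖ < R) :
    ∀ z ∈ U, ∀ v, HasDerivAt (fun w => Fl θ (Pi.single a τ) (g w) v)
      (eval (Fl θ (Pi.single a τ) (g z)) (cmb θ (ecx (adm f a) τ c) v)) z := by
  intro z hz v
  set s : Fin r → ℂ := Pi.single a τ with hs
  have hsn : ‖s‖ = ‖τ‖ := by rw [hs, Pi.norm_single]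
  have hsR : ‖s‖ < R := by rw [hsn]; exact hτ
  -- the terms
  set F : ℕ → ℂ → ℂ := fun k w => eval (g w) ((vf (cmb θ s))^[k] (X v)) / k.factorial with hF
  have hFd : ∀ k, ∀ w ∈ U, HasDerivAt (F k)
      (eval (g w) (vf (cmb θ c) ((vf (cmb θ s))^[k] (X v))) / k.factorial) w := fun k w hw =>
    (hasDeriv_ev (hg w hw) _).div_const _
  have hFdiff : ∀ k, DifferentiableOn ℂ (F k) U := fun k w hw =>
    (hFd k w hw).differentiableAt.differentiableWithinAt
  have hR := h.pos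
  have hq : ‖s‖ / R < 1 := (div_lt_one hR).2 hsR
  have hu : Summable fun k : ℕ => ρ * (‖s‖ / R) ^ k :=
    (summable_geometric_of_lt_one (by positivity) hq).mul_left _
  have hFle : ∀ k, ∀ w ∈ U, ‖F k w‖ ≤ ρ * (‖s‖ / R) ^ k := fun k w hw => by
    have h1 := h.bound (hgρ w hw) hsR.le v k
    rw [hF]
    simp only
    rw [norm_div, Complex.norm_natCast]
    exact h1
  have hsum : ∀ w ∈ U, Fl θ s (g w) v = ∑' k, F k w := fun w hw => by
    have h1 := h.hasSum (hgρ w hw) hsR (X v)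
    rw [eval_X] at h1
    exact h1.tsum_eq.symm
  have hdiff := Complex.differentiableOn_tsum_of_summable_norm hu hFdiff hU hFle
  have hd1 : HasDerivAt (fun w => ∑' k, F k w) (deriv (fun w => ∑' k, F k w) z) z :=
    (hdiff.differentiableAt (hU.mem_nhds hz)).hasDerivAt
  have hd2 := Complex.hasSum_deriv_of_summable_norm hu hFdiff hU hFle hz
  -- the derivative
  have hd3 : HasSum (fun k => deriv (F k) z)
      (eval (Fl θ s (g z)) (cmb θ (ecx (adm f a) τ c) v)) := by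
    have h1 : ∀ k, deriv (F k) z = ∑ e, ∑ ij ∈ Finset.HasAntidiagonal.antidiagonal k,
        (mm (adm f a) τ ij.1 c e / ij.1.factorial) *
        (eval (g z) ((vf (cmb θ s))^[ij.2] (θ e v)) / ij.2.factorial) := fun k => by
      rw [(hFd k z hz).deriv]
      exact eval_term hK hbrk a τ c v k (hgK z hz)
    simp only [h1]
    have h2 : eval (Fl θ s (g z)) (cmb θ (ecx (adm f a) τ c) v) =
        ∑ e, ecx (adm f a) τ c e * eval (Fl θ s (g z)) (θ e v) := by
      unfold cmb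
      simp only [map_sum, map_mul, eval_C]
    rw [h2]
    apply hasSum_sum
    intro e _
    have hA := summable_mm (adm f a) τ c e
    have hB : Summable fun j : ℕ =>
        ‖eval (g z) ((vf (cmb θ s))^[j] (θ e v)) / j.factorial‖ := by
      have h3 := h.summable (hgρ z hz) hsR (θ e v)
      refine h3.congr fun j => ?_
      rw [norm_div, Complex.norm_natCast]
    have h3 := summable_norm_sum_mul_antidiagonal_of_summable_norm hA hB
    have h4 := tsum_mul_tsum_eq_tsum_sum_antidiagonal_of_summable_norm hA hB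
    rw [← ecx_eq, (h.hasSum (hgρ z hz) hsR (θ e v)).tsum_eq] at h4
    rw [h4]
    exact h3.of_norm.hasSum
  rw [hd2.unique hd3] at hd1
  refine hd1.congr_of_eventuallyEq ?_
  filter_upwards [hU.mem_nhds hz] with w hw
  exact hsum w hw

end Pool.Agent.H917.G
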