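import Pool.Agent.H917.G.T1
import Pool.Agent.H917.G.T4

/-!
# PROJECT TORI (helper917), task T5: the local flow on the points of the variety

## Paper proof of `exists_loc`

`ι` is finite, so by `exists_rad` (T1) and `Rad.mono` there is one `R > 0` with `Rad (D.th j) (D.ρ + 1) R` for all
`j ∈ D.J`. Let `j ∈ J`, `u ∈ Zs (K j)`, `‖u k‖ ≤ ρ + 1`. For `c : Fin r → ℂ` the curve `z ↦ Fl (th j) (z • c) u` on the
open convex set `{z | ‖z • c‖ < R}` is a `Cv` in the direction `c` (`Rad.hasDeriv`, `Rad.mem`, `Cv.of_chart`), and its value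
at `0` is `u` (`Fl_zero`). If `(j', u')` is another such pair and `u`, `u'` represent the same point `P`, the two curves
define the same points (`St.rep`, `Lc.ident`); so `fl (z • c) P := [Fl (th j) (z • c) u]` does not depend on the choices:
define `fl c P` for `‖c‖ < R` by the pair of `exists_chart_rep` (and, e.g., `fl c P := P` if `R ≤ ‖c‖`); this
gives the second, third and fourth property. The last one: let `Q = fl (s • c) P`. The curves
`t ↦ fl ((s + t) • c) P` (`Lc.comp_add`) and `t ↦ fl (t • c) Q` on `{t | ‖t • c‖ < R / 2}` agree at `t = 0`; use `Lc.ident`.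
-/

set_option autoImplicit false
set_option linter.overlappingInstances false
set_option linter.unusedSectionVars false

open MvPolynomial Filter Topology Metric Set

namespace Pool.Agent.H917.G

namespace T5aux

variable {ι : Type} [Fintype ι] {r : ℕ}

theorem isOpen_disc (c : Fin r → ℂ) (R : ℝ) : IsOpen {z : ℂ | ‖z • c‖ < R} :=
  isOpen_lt (continuous_id.smul continuous_const).norm continuous_const

theorem isPreconnected_disc (c : Fin r → ℂ) (R : ℝ) : IsPreconnected {z : ℂ | ‖z • c‖ < R} := by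
  have h1 : IsLinearMap ℝ fun z : ℂ => z • c :=
    ⟨fun x y => add_smul x y c, fun a x => smul_assoc a x c⟩
  have h2 : {z : ℂ | ‖z • c‖ < R} = (fun z : ℂ => z • c) ⁻¹' ball (0 : Fin r → ℂ) R := by
    ext z
    simp
  rw [h2]
  exact ((convex_ball (0 : Fin r → ℂ) R).is_linear_preimage h1).isPreconnected

/-- the point with the homogeneous coordinates `x` (or `P`) -/
noncomputable def pt {D : FD ι r} (P : D.Pt) (x : ι → ℂ) : D.Pt :=
  open Classical in if h : D.St x then Quotient.mk D.stoid ⟨x, h⟩ else P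

theorem rep_pt {D : FD ι r} (P : D.Pt) {x : ι → ℂ} (h : D.St x) : FD.Rep (pt P x) x := by
  unfold pt
  rw [dif_pos h]
  exact ⟨h, rfl⟩

theorem exists_unif (D : FD ι r) : ∃ R : ℝ, 0 < R ∧ ∀ j, Rad (D.th j) (D.ρ + 1) R := by
  have hρ : 1 ≤ D.ρ + 1 := by
    have := D.hρ
    linarith
  choose Rf hRf using fun j => exists_rad (D.th j) hρ
  classical
  have hne : (insert (1 : ℝ) (Finset.univ.image Rf)).Nonempty := ⟨1, Finset.mem_insert_self _ _⟩
  have hpos : 0 < (insert (1 : ℝ) (Finset.univ.image Rf)).min' hne := by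
    have h1 := Finset.min'_mem _ hne
    rcases Finset.mem_insert.1 h1 with h2 | h2
    · rw [h2]
      exact one_pos
    · obtain ⟨j, -, hj⟩ := Finset.mem_image.1 h2
      rw [← hj]
      exact (hRf j).pos
  refine ⟨_, hpos, fun j => (hRf j).mono hpos ?_⟩
  exact Finset.min'_le _ _ (Finset.mem_insert_of_mem
    (Finset.mem_image_of_mem _ (Finset.mem_univ j)))

/-- the flow in a chart is a curve in the variety -/
theorem cv_fl {D : FD ι r} {R : ℝ} {j : ι} (hj : j ∈ D.J) (hR : Rad (D.th j) (D.ρ + 1) R)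
    {u : ι → ℂ} (hu : u ∈ Zs (D.K j)) (hb : ∀ k, ‖u k‖ ≤ D.ρ + 1) (c : Fin r → ℂ) :
    D.Cv c {z | ‖z • c‖ < R} fun z => Fl (D.th j) (z • c) u :=
  FD.Cv.of_chart hj (isOpen_disc c R)
    (fun _ hz => hR.mem hb hz (D.stab j hj) hu) fun _ hz k => hR.hasDeriv hb hz k

/-- two charts give the same point -/
theorem pe_fl {D : FD ι r} {R : ℝ} (hR0 : 0 < R) (hR : ∀ j, Rad (D.th j) (D.ρ + 1) R)
    {j j' : ι} (hj : j ∈ D.J) (hj' : j' ∈ D.J) {u u' : ι → ℂ} (hu : u ∈ Zs (D.K j))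
    (hu' : u' ∈ Zs (D.K j')) (hb : ∀ k, ‖u k‖ ≤ D.ρ + 1) (hb' : ∀ k, ‖u' k‖ ≤ D.ρ + 1)
    {P : D.Pt} (hP : FD.Rep P u) (hP' : FD.Rep P u') {c : Fin r → ℂ} (hc : ‖c‖ < R) :
    PE (Fl (D.th j) c u) (Fl (D.th j') c u') := by
  have h1 := cv_fl hj (hR j) hu hb c
  have h2 := cv_fl hj' (hR j') hu' hb' c
  have r1 : ∀ z ∈ {z : ℂ | ‖z • c‖ < R}, FD.Rep (pt P (Fl (D.th j) (z • c) u))
      (Fl (D.th j) (z • c) u) := fun z hz => rep_pt P (h1.st z hz)
  have r2 : ∀ z ∈ {z : ℂ | ‖z • c‖ < R}, FD.Rep (pt P (Fl (D.th j') (z • c) u'))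
      (Fl (D.th j') (z • c) u') := fun z hz => rep_pt P (h2.st z hz)
  have l1 := FD.Cv.lc (isOpen_disc c R) h1 r1
  have l2 := FD.Cv.lc (isOpen_disc c R) h2 r2
  have h0 : (0 : ℂ) ∈ {z : ℂ | ‖z • c‖ < R} := by
    show ‖(0 : ℂ) • c‖ < R
    rw [zero_smul, norm_zero]
    exact hR0
  have e0 : pt P (Fl (D.th j) ((0 : ℂ) • c) u) = pt P (Fl (D.th j') ((0 : ℂ) • c) u') := by
    have a1 := r1 0 h0
    have a2 := r2 0 h0
    rw [zero_smul, Fl_zero] at a1 a2
    rw [zero_smul, Fl_zero, Fl_zero]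
    exact a1.eq a2 (hP.pe hP')
  have hone : (1 : ℂ) ∈ {z : ℂ | ‖z • c‖ < R} := by
    show ‖(1 : ℂ) • c‖ < R
    rw [one_smul]
    exact hc
  have e1 := FD.Lc.ident (isPreconnected_disc c R) l1 l2 h0 e0 1 hone
  have a1 := r1 1 hone
  have a2 := r2 1 hone
  rw [e1] at a1
  have a3 := a1.pe a2
  rw [one_smul] at a3
  exact a3

end T5aux

namespace FD

variable {ι : Type} [Fintype ι] {r : ℕ}

theorem exists_loc (D : FD ι r) : ∃ R : ℝ, 0 < R ∧ (∀ j ∈ D.J, Rad (D.th j) (D.ρ + 1) R) ∧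
    ∃ fl : (Fin r → ℂ) → D.Pt → D.Pt, (∀ P, fl 0 P = P) ∧
      (∀ j ∈ D.J, ∀ u ∈ Zs (D.K j), (∀ k, ‖u k‖ ≤ D.ρ + 1) → ∀ P : D.Pt, Rep P u →
        ∀ c : Fin r → ℂ, ‖c‖ < R → Rep (fl c P) (Fl (D.th j) c u)) ∧
      (∀ (c : Fin r → ℂ) (P : D.Pt), D.Lc c {z | ‖z • c‖ < R} fun z => fl (z • c) P) ∧
      ∀ (c : Fin r → ℂ) (s t : ℂ) (P : D.Pt), ‖s • c‖ < R / 2 → ‖t • c‖ < R / 2 →
        fl ((s + t) • c) P = fl (t • c) (fl (s • c) P) := by
  obtain ⟨R, hR0, hR⟩ := T5aux.exists_unif D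
  choose jj hjj uu huu hbd hrep using fun P : D.Pt => exists_chart_rep P
  have hbd' : ∀ P k, ‖uu P k‖ ≤ D.ρ + 1 := fun P k => (hbd P k).trans (by linarith)
  classical
  -- the flow
  have hfl : ∃ fl : (Fin r → ℂ) → D.Pt → D.Pt, ∀ c P, ‖c‖ < R →
      Rep (fl c P) (Fl (D.th (jj P)) c (uu P)) := by
    refine ⟨fun c P => T5aux.pt P (Fl (D.th (jj P)) c (uu P)), fun c P hc => ?_⟩
    refine T5aux.rep_pt P ?_
    have h1 := T5aux.cv_fl (hjj P) (hR (jj P)) (huu P) (hbd' P) c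
    have h2 := h1.st 1 (by
      show ‖(1 : ℂ) • c‖ < R
      rw [one_smul]
      exact hc)
    rw [one_smul] at h2
    exact h2
  obtain ⟨fl, hfl⟩ := hfl
  have h0 : ∀ P, fl 0 P = P := by
    intro P
    have h1 := hfl 0 P (by rw [norm_zero]; exact hR0)
    rw [Fl_zero] at h1
    exact h1.eq (hrep P) (PE.refl _)
  have hlc : ∀ (c : Fin r → ℂ) (P : D.Pt), D.Lc c {z | ‖z • c‖ < R} fun z => fl (z • c) P :=
    fun c P => Cv.lc (T5aux.isOpen_disc c R)
      (T5aux.cv_fl (hjj P) (hR (jj P)) (huu P) (hbd' P) c) fun z hz => hfl (z • c) P hz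
  refine ⟨R, hR0, fun j _ => hR j, fl, h0, ?_, hlc, ?_⟩
  · intro j hj u hu hb P hP c hc
    exact (hfl c P hc).of_pe
      (T5aux.pe_fl hR0 hR (hjj P) hj (huu P) hu (hbd' P) hb (hrep P) hP hc)
  · intro c s t P hs ht
    have l1 : D.Lc c {z | ‖z • c‖ < R / 2} fun z => fl ((z + s) • c) P := by
      refine ((hlc c P).comp_add s).mono fun z hz => ?_
      have hz : ‖z • c‖ < R / 2 := hz
      show ‖(z + s) • c‖ < R
      rw [add_smul]
      refine (norm_add_le _ _).trans_lt ?_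
      linarith
    have l2 : D.Lc c {z | ‖z • c‖ < R / 2} fun z => fl (z • c) (fl (s • c) P) :=
      (hlc c (fl (s • c) P)).mono fun z hz => by
        have hz : ‖z • c‖ < R / 2 := hz
        show ‖z • c‖ < R
        linarith
    have z0 : (0 : ℂ) ∈ {z : ℂ | ‖z • c‖ < R / 2} := by
      show ‖(0 : ℂ) • c‖ < R / 2
      rw [zero_smul, norm_zero]
      linarith
    have e0 : fl ((0 + s) • c) P = fl ((0 : ℂ) • c) (fl (s • c) P) := by
      rw [zero_add, zero_smul, h0]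
    have e1 := Lc.ident (T5aux.isPreconnected_disc c (R / 2)) l1 l2 z0 e0 t ht
    rw [add_comm s t]
    exact e1

end FD

end Pool.Agent.H917.G
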