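import Pool.Agent.H917.G.T5

/-!
# PROJECT TORI (helper917), task T6: the global flow

## Paper proof

`glue`: for `c : E` and `n ≥ 1` with `‖c‖ / n < R` let `F_n(c) = f (c / n) ^ n` (`c / n = (1 / n : ℂ) • c`). By `h` (on the
line `ℂ c`) and induction `f (k • x) = f x ^ k` as long as `‖k • x‖ < R` (or `≤`; all partial sums have norm `< R`), so
`f (c / n) = f (c / (n m)) ^ m`, and `F_n(c) = F_{nm}(c)`. Let `F(c) := F_n(c)` for one (every) such `n`. If
`‖c‖ < R`, `n = 1` is allowed. Second property: take `n` large for `s • c`, `t • c` and `(s + t) • c`; `f (s c / n)` and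
`f (t c / n)` commute by `h` (used in both orders) and `f ((s + t) c / n) = f (t c / n) * f (s c / n)`; take the `n`-th
power (`Commute.mul_pow`). Third property: the same with `a / n`, `b / n` of norm `< R'`.

`exists_flow`: apply `glue` to `G = Function.End D.Pt` (multiplication = composition) and the local flow of
`exists_loc` with `R / 2` instead of `R`. The radius in `Flow` is `R / 2` (`Rad.mono`). For `lc`: near `z0`,
`F (z • c) P = F ((z - z0) • c) (F (z0 • c) P) = fl ((z - z0) • c) Q` with `Q = F (z0 • c) P`; use the `Lc`-property of the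
local flow at `Q` and `Lc.comp_add`.
-/

set_option autoImplicit false
set_option linter.overlappingInstances false
set_option linter.unusedSectionVars false

open MvPolynomial Filter Topology Metric Set

namespace Pool.Agent.H917.G

namespace T6aux

section

variable {E : Type} [NormedAddCommGroup E] [NormedSpace ℂ E] {G : Type} [Monoid G]
  {f : E → G} {R : ℝ}

theorem norm_nat_smul (k : ℕ) (x : E) : ‖(k : ℂ) • x‖ = k * ‖x‖ := by
  rw [norm_smul, Complex.norm_natCast]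

theorem norm_inv_smul (n : ℕ) (x : E) : ‖((n : ℂ)⁻¹) • x‖ = ‖x‖ / n := by
  rw [norm_smul, norm_inv, Complex.norm_natCast, div_eq_inv_mul]

theorem f_pow (h0 : f 0 = 1)
    (h : ∀ (c : E) (s t : ℂ), ‖s • c‖ < R → ‖t • c‖ < R → f ((s + t) • c) = f (t • c) * f (s • c))
    (x : E) : ∀ k : ℕ, ‖(k : ℂ) • x‖ < R → f ((k : ℂ) • x) = f x ^ k
  | 0, _ => by simp [h0]
  | k + 1, hk => by
    rw [norm_nat_smul] at hk
    push_cast at hk
    have hx := norm_nonneg x
    have hk0 : (0 : ℝ) ≤ k := Nat.cast_nonneg k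
    have h1 : ‖(k : ℂ) • x‖ < R := by
      rw [norm_nat_smul]
      nlinarith
    have h2 : ‖(1 : ℂ) • x‖ < R := by
      rw [one_smul]
      nlinarith
    have h3 := h x k 1 h1 h2
    rw [Nat.cast_succ, h3, f_pow h0 h x k h1, one_smul, pow_succ']

/-- the number of the steps -/
noncomputable def nn (R : ℝ) (c : E) : ℕ := ⌊‖c‖ / R⌋₊ + 1

theorem nn_pos (R : ℝ) (c : E) : 1 ≤ nn R c := Nat.succ_le_succ (Nat.zero_le _)

theorem nn_lt (hR : 0 < R) (c : E) : ‖c‖ / (nn R c : ℕ) < R := by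
  have h1 : ‖c‖ / R < (nn R c : ℕ) := by
    unfold nn
    push_cast
    exact Nat.lt_floor_add_one _
  have h2 : (0 : ℝ) < (nn R c : ℕ) := by
    have := nn_pos R c
    exact_mod_cast this
  rw [div_lt_iff₀ hR] at h1
  rw [div_lt_iff₀ h2]
  linarith

theorem f_step (h0 : f 0 = 1)
    (h : ∀ (c : E) (s t : ℂ), ‖s • c‖ < R → ‖t • c‖ < R → f ((s + t) • c) = f (t • c) * f (s • c))
    (c : E) (n m : ℕ) (hn : 1 ≤ n) (hm : 1 ≤ m) (hc : ‖c‖ / n < R) :
    f (((n : ℂ)⁻¹) • c) ^ n = f ((((n * m : ℕ) : ℂ)⁻¹) • c) ^ (n * m) := by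
  have hn0 : (n : ℂ) ≠ 0 := by
    have : n ≠ 0 := by omega
    exact_mod_cast this
  have hm0 : (m : ℂ) ≠ 0 := by
    have : m ≠ 0 := by omega
    exact_mod_cast this
  have e : ((n : ℂ)⁻¹) • c = (m : ℂ) • (((n * m : ℕ) : ℂ)⁻¹ • c) := by
    rw [smul_smul]
    congr 1
    push_cast
    field_simp
  have h1 : ‖(m : ℂ) • (((n * m : ℕ) : ℂ)⁻¹ • c)‖ < R := by
    rw [← e, norm_inv_smul]
    exact hc
  rw [e, f_pow h0 h _ m h1, ← pow_mul, mul_comm m n]

/-- the global flow -/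
noncomputable def FF (f : E → G) (R : ℝ) (c : E) : G :=
  f (((nn R c : ℕ) : ℂ)⁻¹ • c) ^ (nn R c)

theorem FF_eq (hR : 0 < R) (h0 : f 0 = 1)
    (h : ∀ (c : E) (s t : ℂ), ‖s • c‖ < R → ‖t • c‖ < R → f ((s + t) • c) = f (t • c) * f (s • c))
    (c : E) (n : ℕ) (hn : 1 ≤ n) (hc : ‖c‖ / n < R) : FF f R c = f (((n : ℂ)⁻¹) • c) ^ n := by
  unfold FF
  rw [f_step h0 h c (nn R c) n (nn_pos R c) hn (nn_lt hR c),
    f_step h0 h c n (nn R c) hn (nn_pos R c) hc, mul_comm n]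

theorem exists_n (R' : ℝ) (hR' : 0 < R') (M : ℝ) :
    ∃ n : ℕ, 1 ≤ n ∧ ∀ x : E, ‖x‖ ≤ M → ‖x‖ / n < R' := by
  obtain ⟨n, hn⟩ := exists_nat_gt (M / R')
  refine ⟨n + 1, by omega, fun x hx => ?_⟩
  have h2 : (0 : ℝ) < ((n + 1 : ℕ) : ℝ) := by positivity
  rw [div_lt_iff₀ h2]
  rw [div_lt_iff₀ hR'] at hn
  push_cast
  nlinarith

end

end T6aux

theorem glue {E : Type} [NormedAddCommGroup E] [NormedSpace ℂ E] {G : Type} [Monoid G]
    (f : E → G) {R : ℝ} (hR : 0 < R) (h0 : f 0 = 1)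
    (h : ∀ (c : E) (s t : ℂ), ‖s • c‖ < R → ‖t • c‖ < R → f ((s + t) • c) = f (t • c) * f (s • c)) :
    ∃ F : E → G, (∀ c, ‖c‖ < R → F c = f c) ∧
      (∀ (c : E) (s t : ℂ), F ((s + t) • c) = F (t • c) * F (s • c)) ∧
      ∀ R' : ℝ, 0 < R' → R' ≤ R → (∀ a b, ‖a‖ < R' → ‖b‖ < R' → f (a + b) = f b * f a) →
        ∀ a b, F (a + b) = F b * F a := by
  refine ⟨T6aux.FF f R, ?_, ?_, ?_⟩
  · intro c hc
    rw [T6aux.FF_eq hR h0 h c 1 le_rfl (by simpa using hc)]
    simp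
  · intro c s t
    obtain ⟨n, hn, hb⟩ := T6aux.exists_n (E := E) R hR (max ‖(s + t) • c‖ (max ‖s • c‖ ‖t • c‖))
    have b1 := hb ((s + t) • c) (le_max_left _ _)
    have b2 := hb (s • c) ((le_max_left _ _).trans (le_max_right _ _))
    have b3 := hb (t • c) ((le_max_right _ _).trans (le_max_right _ _))
    rw [T6aux.FF_eq hR h0 h _ n hn b1, T6aux.FF_eq hR h0 h _ n hn b2,
      T6aux.FF_eq hR h0 h _ n hn b3]
    rw [smul_comm _ (s + t) c, smul_comm _ s c, smul_comm _ t c]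
    have c2 : ‖s • ((n : ℂ)⁻¹ • c)‖ < R := by
      rw [← smul_comm, T6aux.norm_inv_smul]
      exact b2
    have c3 : ‖t • ((n : ℂ)⁻¹ • c)‖ < R := by
      rw [← smul_comm, T6aux.norm_inv_smul]
      exact b3
    have e1 := h _ s t c2 c3
    have e2 := h _ t s c3 c2
    have hcom : Commute (f (t • ((n : ℂ)⁻¹ • c))) (f (s • ((n : ℂ)⁻¹ • c))) := by
      change _ = _
      rw [← e1, ← e2, add_comm]
    rw [e1, hcom.mul_pow]
  · intro R' hR' _ hab a b
    obtain ⟨n, hn, hb⟩ := T6aux.exists_n (E := E) (min R R') (lt_min hR hR')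
      (max ‖a + b‖ (max ‖a‖ ‖b‖))
    have b1 := hb (a + b) (le_max_left _ _)
    have b2 := hb a ((le_max_left _ _).trans (le_max_right _ _))
    have b3 := hb b ((le_max_right _ _).trans (le_max_right _ _))
    rw [T6aux.FF_eq hR h0 h _ n hn (b1.trans_le (min_le_left _ _)),
      T6aux.FF_eq hR h0 h _ n hn (b2.trans_le (min_le_left _ _)),
      T6aux.FF_eq hR h0 h _ n hn (b3.trans_le (min_le_left _ _))]
    have c2 : ‖(n : ℂ)⁻¹ • a‖ < R' := by
      rw [T6aux.norm_inv_smul]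
      exact b2.trans_le (min_le_right _ _)
    have c3 : ‖(n : ℂ)⁻¹ • b‖ < R' := by
      rw [T6aux.norm_inv_smul]
      exact b3.trans_le (min_le_right _ _)
    have e1 := hab _ _ c2 c3
    have e2 := hab _ _ c3 c2
    have hcom : Commute (f ((n : ℂ)⁻¹ • b)) (f ((n : ℂ)⁻¹ • a)) := by
      change _ = _
      rw [← e1, ← e2, add_comm]
    rw [smul_add, e1, hcom.mul_pow]

namespace FD

variable {ι : Type} [Fintype ι] {r : ℕ}

theorem exists_flow (D : FD ι r) : ∃ (R : ℝ) (F : (Fin r → ℂ) → D.Pt → D.Pt), 0 < R ∧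
    D.Flow R F := by
  obtain ⟨R, hR, hrad, fl, hf0, hrep, hlc, hadd⟩ := exists_loc D
  have hR2 : 0 < R / 2 := half_pos hR
  obtain ⟨F, hF1, hF2, -⟩ := glue (E := Fin r → ℂ) (G := Function.End D.Pt) (fun c => fl c) hR2
    (funext fun P => hf0 P) (fun c s t hs ht => funext fun P => hadd c s t P hs ht)
  have hFf : ∀ (c : Fin r → ℂ) (P : D.Pt), ‖c‖ < R / 2 → F c P = fl c P := fun c P hc =>
    congrFun (hF1 c hc) P
  have hFadd : ∀ (c : Fin r → ℂ) (s t : ℂ) (P : D.Pt),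
      F ((s + t) • c) P = F (t • c) (F (s • c) P) := fun c s t P => congrFun (hF2 c s t) P
  refine ⟨R / 2, fun c P => F c P, hR2, ?_⟩
  refine ⟨fun j hj => (hrad j hj).mono hR2 (by linarith), ?_, hFadd, ?_, ?_⟩
  · intro P
    rw [hFf 0 P (by rw [norm_zero]; exact hR2), hf0]
  · intro j hj u hu hub P hP c hc
    rw [hFf c P hc]
    exact hrep j hj u hu hub P hP c (by linarith)
  · intro c P z0 _
    have h1 := (hlc c (F (z0 • c) P)).comp_add (-z0)
    obtain ⟨Ω, hΩ, hz0, g, hg, hgr⟩ := h1 z0 (by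
      change ‖(z0 + -z0) • c‖ < R
      rw [add_neg_cancel, zero_smul, norm_zero]
      exact hR)
    have hVo : IsOpen {z : ℂ | ‖(z + -z0) • c‖ < R / 2} := by
      apply isOpen_lt _ continuous_const
      fun_prop
    refine ⟨Ω ∩ {z : ℂ | ‖(z + -z0) • c‖ < R / 2}, hΩ.inter hVo, ⟨hz0, ?_⟩, g,
      hg.mono inter_subset_left, ?_⟩
    · change ‖(z0 + -z0) • c‖ < R / 2
      rw [add_neg_cancel, zero_smul, norm_zero]
      exact hR2
    · rintro z ⟨hz, hzV⟩
      have hzV' : ‖(z + -z0) • c‖ < R / 2 := hzV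
      have h2 := hgr z hz
      have h3 : F (z • c) P = fl ((z + -z0) • c) (F (z0 • c) P) := by
        rw [← hFf _ _ hzV', ← hFadd]
        congr 2
        ring
      change Rep (F (z • c) P) (g z)
      rw [h3]
      exact h2

end FD

end Pool.Agent.H917.G
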