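import Pool.Agent.H917.G.G0

/-!
# PROJECT TORI: definitions for the algebraic part
-/

set_option autoImplicit false
set_option linter.overlappingInstances false
set_option linter.unusedSectionVars false

open MvPolynomial

namespace Pool.Agent.H917.G

/-- `w` satisfies a monic homogeneous equation over the elements `y_k` -/
def HInt (C : Type) {M κ : Type} [Field C] [Field M] [Algebra C M] (y : κ → M) (w : M) : Prop :=
  ∃ e : ℕ, 1 ≤ e ∧ ∃ A : Fin e → MvPolynomial κ C, (∀ i, (A i).IsHomogeneous (e - i)) ∧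
    w ^ e + ∑ i : Fin e, aeval y (A i) * w ^ (i : ℕ) = 0

/-- The derivations `D_a` span all derivations over `C`, and the symmetric differentials have the
values `T_l(c)` with coefficients in `C` on `∑ c_a D_a` at the point `y` of the projective space. -/
structure SF {n r N : ℕ} (m' : ℕ) {C M : Type} [Field C] [Field M] [Algebra C M] [Algebra ℂ M]
    (y : Fin (n + 1) → M) (D : Fin r → Derivation C M M) (T : Fin N → MvPolynomial (Fin r) C) :
    Prop where
  ne : y ≠ 0
  hom : ∀ l, (T l).IsHomogeneous (m' + 1)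
  span : Submodule.span C (Set.range T) = homogeneousSubmodule (Fin r) C (m' + 1)
  der : ∀ E : Derivation C M M, ∃ g : Fin r → M, ∀ x, E x = ∑ a, g a * D a x
  rel : ∀ j, y j ≠ 0 → ∀ i0 k, ∃ b : Fin N → MvPolynomial (Fin (n + 1)) ℂ, ∀ c : Fin r → M,
    (∑ a, c a * D a (y k / y j)) * (∑ a, c a * D a (y i0 / y j)) ^ m' =
      ∑ l, aeval (fun i => y i / y j) (b l) * aeval c (T l)
  val : ∀ j, y j ≠ 0 → ∀ l, ∃ S : MvPolynomial (Fin (n + 1) ⊕ Fin (n + 1)) ℂ,
    S.IsWeightedHomogeneous (Sum.elim (fun _ => 0) fun _ => 1) (m' + 1) ∧ ∀ c : Fin r → M,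
      aeval (Sum.elim (fun i => y i / y j) fun k => ∑ a, c a * D a (y k / y j)) S = aeval c (T l)

/-- The algebraic form of the structure `FD`: `Y` is the generic point of a projective variety over
`C` with `r` vector fields. -/
structure AD {C M ι : Type} [Field C] [Field M] [Algebra C M] [Fintype ι] {r : ℕ} (J : Set ι)
    (Y : ι → M) (D : Fin r → Derivation C M M) (f : Fin r → Fin r → Fin r → C)
    (th : ι → Fin r → ι → MvPolynomial ι C) (L : Fin (r + 1) → ι → C) : Prop where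
  ne : ∀ j ∈ J, Y j ≠ 0
  vel : ∀ j ∈ J, ∀ a k, D a (Y k / Y j) = aeval (fun k => Y k / Y j) (th j a k)
  brk : ∀ a b (x : M), D a (D b x) - D b (D a x) = ∑ e, algebraMap C M (f a b e) * D e x
  ndg : ∀ j ∈ J, ∀ a, ∃ m : ℕ, 1 ≤ m ∧ ∃ q : ι → MvPolynomial (ι ⊕ Fin r) C, ∀ c : Fin r → M,
    ∑ k, aeval (Sum.elim (fun k => Y k / Y j) c) (q k) * ∑ b, c b * D b (Y k / Y j) = c a ^ m
  cov : ∀ k, HInt C (fun j : J => Y j) (Y k)
  fin : ∀ k, HInt C (fun t => ∑ l, algebraMap C M (L t l) * Y l) (Y k)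

/-- the coordinates of the states: the products `y_i y_k` and `y_i D_b y_k - y_k D_b y_i` -/
abbrev Ix (n r : ℕ) : Type := (Fin (n + 1) × Fin (n + 1)) ⊕ (Fin (n + 1) × Fin (n + 1) × Fin r)

/-- the state vector -/
def YY {n r : ℕ} {C M : Type} [Field C] [Field M] [Algebra C M] (y : Fin (n + 1) → M)
    (D : Fin r → Derivation C M M) : Ix n r → M :=
  Sum.elim (fun p => y p.1 * y p.2) fun q => y q.1 * D q.2.2 (y q.2.1) - y q.2.1 * D q.2.2 (y q.1)

/-- the good charts -/
def JJ {n : ℕ} (r : ℕ) {M : Type} [Field M] (y : Fin (n + 1) → M) : Set (Ix n r) :=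
  {x | ∃ j, y j ≠ 0 ∧ x = Sum.inl (j, j)}

end Pool.Agent.H917.G
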