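import Pool.Agent.H917.G.U0

/-!
# PROJECT TORI (helper917), task U1: the valuative criterion for homogeneous integral equations

## Paper proof

`hint_of_val`: If all `y k = 0`, the hypothesis for `O = ⊤` (or any `O ⊇ C`), `x = 0` gives `w = 0`; take `e = 1`, `A = 0`. Otherwise
let `M(s)` be the field of rational functions (`RatFunc M` or `FractionRing (Polynomial M)`), `S = C[y_k s] ⊆ M(s)` the
`C`-subalgebra generated by the `y_k s`. Claim: `w s` is integral over `S`. If not, then there is a valuation subring `O'` of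
`M(s)` which contains `S` but not `w s` (Mathlib: `Subring.exists_le_valuationSubring_of_isIntegrallyClosedIn` applied to
the integral closure of `S` in `M(s)`, or a similar statement). Let `O = O' ∩ M` (`ValuationSubring.comap`); it contains `C`.
Among the finitely many `k` with `y_k ≠ 0` choose `j` with `y_k / y_j ∈ O` for all `k` (`O` is a valuation ring, so divisibility is
a total preorder). By the hypothesis with `x = y_j`: `w = b y_j` with `b ∈ O`. So `w s = b (y_j s) ∈ O'`, a contradiction.
Write the integral equation as `(w s)^e + ∑_{i<e} P_i(y s) (w s)^i = 0` with `P_i ∈ C[X_k]`. This is an identity in `M[s]`;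
compare the coefficients of `s^e`: `w^e + ∑_{i<e} (P_i)_{e-i}(y) w^i = 0`, `(P_i)_{e-i}` the homogeneous component of degree
`e - i` (`MvPolynomial.homogeneousComponent`). (`e ≥ 1` since `1 ≠ 0`.)

`HInt.val`: if `x = 0`, then `y = 0`, `aeval y (A i) = 0` as `e - i ≥ 1`, so `w^e = 0`. Otherwise divide by `x^e`:
`w / x` is a root of the monic polynomial with the coefficients `aeval (y / x) (A i) ∈ O`, and valuation rings are integrally closed
(directly: if `w / x ∉ O` then `x / w ∈ O` is in the maximal ideal, divide by `(w / x)^e`).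
-/

set_option autoImplicit false
set_option linter.overlappingInstances false
set_option linter.unusedSectionVars false

open MvPolynomial

namespace Pool.Agent.H917.G

namespace U1aux

/-- the substitution `X_k ↦ y_k s` -/
noncomputable def psi {C M κ : Type} [Field C] [Field M] [Algebra C M] (y : κ → M) :
    MvPolynomial κ C →+* Polynomial M :=
  eval₂Hom (Polynomial.C.comp (algebraMap C M)) (fun k => Polynomial.C (y k) * Polynomial.X)

theorem psi_C {C M κ : Type} [Field C] [Field M] [Algebra C M] (y : κ → M) (a : C) :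
    psi y (MvPolynomial.C a) = Polynomial.C (algebraMap C M a) := by
  unfold psi
  rw [eval₂Hom_C]
  rfl

theorem psi_X {C M κ : Type} [Field C] [Field M] [Algebra C M] (y : κ → M) (k : κ) :
    psi (C := C) y (MvPolynomial.X k) = Polynomial.C (y k) * Polynomial.X := by
  unfold psi
  rw [eval₂Hom_X']

theorem psi_monomial {C M κ : Type} [Field C] [Field M] [Algebra C M] (y : κ → M) (d : κ →₀ ℕ)
    (a : C) : psi y (monomial d a) =
      Polynomial.C (algebraMap C M a * d.prod fun k n => y k ^ n) * Polynomial.X ^ d.degree := by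
  unfold psi
  rw [coe_eval₂Hom, eval₂_monomial]
  simp only [mul_pow, Finsupp.prod, Finset.prod_mul_distrib, Finset.prod_pow_eq_pow_sum,
    ← map_pow, ← map_prod, RingHom.comp_apply, Polynomial.C_mul, Finsupp.degree, mul_assoc]
  rfl

theorem coeff_psi {C M κ : Type} [Field C] [Field M] [Algebra C M] (y : κ → M)
    (P : MvPolynomial κ C) (m : ℕ) :
    (psi y P).coeff m = aeval y (homogeneousComponent m P) := by
  induction P using MvPolynomial.induction_on' with
  | monomial d a =>
    rw [psi_monomial, Polynomial.coeff_C_mul_X_pow, aeval_def]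
    by_cases hd : m = d.degree
    · rw [if_pos hd, homogeneousComponent_eq_self
        (by rw [hd]; exact isHomogeneous_monomial _ rfl), eval₂_monomial]
    · rw [if_neg hd, homogeneousComponent_of_mem (m := m) (n := d.degree)
        (isHomogeneous_monomial a rfl), if_neg (fun h => hd h), eval₂_zero]
  | add p q hp hq =>
    rw [map_add, Polynomial.coeff_add, hp, hq, map_add, map_add]

theorem aeval_mem {C M κ : Type} [Field C] [Field M] [Algebra C M] (O : ValuationSubring M)
    (hO : ∀ a : C, algebraMap C M a ∈ O) (z : κ → M) (hz : ∀ k, z k ∈ O) (P : MvPolynomial κ C) :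
    aeval z P ∈ O := by
  induction P using MvPolynomial.induction_on with
  | C a => rw [aeval_C]; exact hO a
  | add p q hp hq => rw [map_add]; exact O.add_mem _ _ hp hq
  | mul_X p k hp => rw [map_mul, aeval_X]; exact O.mul_mem _ _ hp (hz k)

theorem aeval_smul_hom {C M κ : Type} [Field C] [Field M] [Algebra C M] (x : M) (z : κ → M)
    {m : ℕ} (P : MvPolynomial κ C) (hP : P.IsHomogeneous m) :
    aeval (fun k => z k * x) P = aeval z P * x ^ m := by
  rw [aeval_def, aeval_def, eval₂_eq, eval₂_eq, Finset.sum_mul]
  refine Finset.sum_congr rfl fun d hd => ?_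
  have h1 : d.degree = m := by
    have h0 := hP (mem_support_iff.1 hd)
    have h1 : Finsupp.weight (1 : κ → ℕ) d = d.degree :=
      (congrFun (congrArg DFunLike.coe (Finsupp.degree_eq_weight_one (R := ℕ) (σ := κ))) d).symm
    rw [← h1]
    exact h0
  simp only [mul_pow, Finset.prod_mul_distrib, Finset.prod_pow_eq_pow_sum]
  rw [← h1, mul_assoc]
  rfl

end U1aux

variable {C M κ : Type} [Field C] [Field M] [Algebra C M] [Fintype κ]

theorem hint_of_val {y : κ → M} {w : M}
    (h : ∀ O : ValuationSubring M, (∀ a : C, algebraMap C M a ∈ O) → ∀ x : M,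
      (∀ k, ∃ b ∈ O, y k = b * x) → ∃ b ∈ O, w = b * x) : HInt C y w := by
  classical
  by_cases hy : ∀ k, y k = 0
  · obtain ⟨b, -, hb⟩ := h ⊤ (fun a => ValuationSubring.mem_top _) 0
      (fun k => ⟨1, ValuationSubring.mem_top _, by rw [hy k, mul_zero]⟩)
    refine ⟨1, le_rfl, fun _ => 0, fun i => isHomogeneous_zero _ _ _, ?_⟩
    simp [hb]
  push Not at hy
  obtain ⟨k0, hk0⟩ := hy
  -- the field M(s)
  let ι : Polynomial M →+* RatFunc M := algebraMap (Polynomial M) (RatFunc M)
  have hι : Function.Injective ι := RatFunc.algebraMap_injective M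
  let φ : MvPolynomial κ C →+* RatFunc M := ι.comp (U1aux.psi y)
  let s : Set (RatFunc M) := (φ.range : Set (RatFunc M))
  have hcl : Subring.closure s = φ.range := Subring.closure_eq _
  let ws : RatFunc M := ι (Polynomial.C w * Polynomial.X)
  have hall : ws ∈ (⨅ V : {V : ValuationSubring (RatFunc M) // s ⊆ V.toSubring}, V.1.toSubring) := by
    rw [Subring.mem_iInf]
    rintro ⟨V, hV⟩
    have hV' : ∀ P, φ P ∈ V := fun P => hV ⟨P, rfl⟩
    let O : ValuationSubring M := V.comap (ι.comp Polynomial.C)
    have hOC : ∀ a : C, algebraMap C M a ∈ O := by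
      intro a
      have h1 := hV' (MvPolynomial.C a)
      have h2 : φ (MvPolynomial.C a) = ι (Polynomial.C (algebraMap C M a)) := by
        change ι (U1aux.psi y (MvPolynomial.C a)) = _
        rw [U1aux.psi_C]
      rw [h2] at h1
      exact h1
    have : Nonempty κ := ⟨k0⟩
    obtain ⟨j, hj⟩ := Finite.exists_max (fun k => O.valuation (y k))
    have hyj : y j ≠ 0 := by
      intro h0
      have h1 := hj k0
      simp only [h0, map_zero, le_zero_iff] at h1
      exact hk0 ((map_eq_zero _).1 h1)
    obtain ⟨b, hb, hw⟩ := h O hOC (y j) (fun k => ⟨y k / y j, by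
      rw [← O.valuation_le_one_iff, map_div₀]
      exact div_le_one_of_le₀ (hj k) zero_le, by field_simp⟩)
    have h1 := hV' (MvPolynomial.X j)
    have h2 : φ (MvPolynomial.X j) = ι (Polynomial.C (y j) * Polynomial.X) := by
      change ι (U1aux.psi y (MvPolynomial.X j)) = _
      rw [U1aux.psi_X]
    rw [h2] at h1
    have h3 : ws = ι (Polynomial.C b) * ι (Polynomial.C (y j) * Polynomial.X) := by
      change ι (Polynomial.C w * Polynomial.X) = _
      rw [hw, ← map_mul, Polynomial.C_mul, mul_assoc]
    change ws ∈ V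
    rw [h3]
    exact V.mul_mem _ _ hb h1
  rw [iInf_valuationSubring_superset] at hall
  have hint : IsIntegral (Subring.closure s) ws := hall
  obtain ⟨p, hp, hpe⟩ := hint
  have hcoef : ∀ i, ∃ P : MvPolynomial κ C, φ P = ((p.coeff i : Subring.closure s) : RatFunc M) := by
    intro i
    have h1 : ((p.coeff i : Subring.closure s) : RatFunc M) ∈ φ.range := by
      rw [← hcl]
      exact (p.coeff i).2
    exact h1
  choose P hP using hcoef
  set e := p.natDegree with he
  have hsum : ws ^ e + ∑ i ∈ Finset.range e, φ (P i) * ws ^ i = 0 := by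
    rw [Polynomial.eval₂_eq_sum_range, Finset.sum_range_succ, ← he] at hpe
    have h1 : p.coeff e = 1 := hp
    rw [h1, map_one, one_mul, add_comm] at hpe
    rw [← hpe]
    refine congrArg₂ (· + ·) rfl (Finset.sum_congr rfl fun i _ => ?_)
    rw [hP i]
    rfl
  have hsum2 : (Polynomial.C w * Polynomial.X) ^ e +
      ∑ i ∈ Finset.range e, U1aux.psi y (P i) * (Polynomial.C w * Polynomial.X) ^ i = 0 := by
    apply hι
    rw [map_zero, map_add, map_sum, map_pow]
    rw [← hsum]
    refine congrArg₂ (· + ·) rfl (Finset.sum_congr rfl fun i _ => ?_)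
    rw [map_mul, map_pow]
    rfl
  have hcf := congrArg (fun q : Polynomial M => q.coeff e) hsum2
  simp only [Polynomial.coeff_add, Polynomial.finsetSum_coeff, Polynomial.coeff_zero] at hcf
  have e1 : 1 ≤ e := by
    rcases Nat.eq_zero_or_pos e with h0 | h0
    · exfalso
      rw [h0] at hsum
      simp at hsum
    · exact h0
  refine ⟨e, e1, fun i => homogeneousComponent (e - i) (P i),
    fun i => homogeneousComponent_isHomogeneous _ _, ?_⟩
  rw [← hcf]
  refine congrArg₂ (· + ·) ?_ ?_
  · rw [mul_pow, ← map_pow, Polynomial.coeff_C_mul, Polynomial.coeff_X_pow_self, mul_one]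
  · rw [Finset.sum_range]
    refine Finset.sum_congr rfl fun i _ => ?_
    rw [mul_pow, ← map_pow, ← mul_assoc, Polynomial.coeff_mul_X_pow', if_pos i.2.le,
      Polynomial.coeff_mul_C, U1aux.coeff_psi]

theorem HInt.val {y : κ → M} {w : M} (h : HInt C y w) {O : ValuationSubring M}
    (hO : ∀ a : C, algebraMap C M a ∈ O) {x : M} (hx : ∀ k, ∃ b ∈ O, y k = b * x) :
    ∃ b ∈ O, w = b * x := by
  obtain ⟨e, he, A, hA, hw⟩ := h
  choose z hz hyz using hx
  have hyz' : y = fun k => z k * x := funext hyz
  by_cases hx0 : x = 0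
  · have h1 : ∀ i : Fin e, aeval y (A i) * w ^ (i : ℕ) = 0 := by
      intro i
      rw [hyz', U1aux.aeval_smul_hom x z (A i) (hA i), hx0, zero_pow (by omega), mul_zero, zero_mul]
    rw [Finset.sum_congr rfl (fun i _ => h1 i), Finset.sum_const_zero, add_zero] at hw
    exact ⟨0, O.zero_mem, by rw [zero_mul]; exact pow_eq_zero_iff (by omega) |>.1 hw⟩
  refine ⟨w / x, ?_, by field_simp⟩
  set t := w / x with ht
  have hwt : w = t * x := by rw [ht]; field_simp
  have h1 : t ^ e + ∑ i : Fin e, aeval z (A i) * t ^ (i : ℕ) = 0 := by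
    have h2 : (t ^ e + ∑ i : Fin e, aeval z (A i) * t ^ (i : ℕ)) * x ^ e = 0 := by
      rw [← hw, add_mul, Finset.sum_mul]
      refine congrArg₂ (· + ·) ?_ (Finset.sum_congr rfl fun i _ => ?_)
      · rw [hwt, mul_pow]
      · rw [hyz', U1aux.aeval_smul_hom x z (A i) (hA i), hwt, mul_pow]
        have h3 : x ^ e = x ^ (e - i) * x ^ (i : ℕ) := by
          rw [← pow_add]
          congr 1
          omega
        rw [h3]
        ring
    exact (mul_eq_zero.1 h2).resolve_right (pow_ne_zero _ hx0)
  by_contra hcon
  rw [← O.valuation_le_one_iff, not_le] at hcon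
  have h2 : t ^ e = -∑ i : Fin e, aeval z (A i) * t ^ (i : ℕ) := by
    linear_combination h1
  have h3 : O.valuation (∑ i : Fin e, aeval z (A i) * t ^ (i : ℕ)) < O.valuation t ^ e := by
    have hpos : (0 : O.ValueGroup) < O.valuation t := lt_trans zero_lt_one hcon
    refine Valuation.map_sum_lt' _ (pow_pos hpos _) fun i _ => ?_
    rw [map_mul, map_pow]
    have h4 : O.valuation (aeval z (A i)) ≤ 1 :=
      (O.valuation_le_one_iff _).2 (U1aux.aeval_mem O hO z hz _)
    calc O.valuation (aeval z (A i)) * O.valuation t ^ (i : ℕ)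
        ≤ 1 * O.valuation t ^ (i : ℕ) := mul_le_mul_left h4 _
      _ = O.valuation t ^ (i : ℕ) := one_mul _
      _ < O.valuation t ^ e := pow_lt_pow_right₀ hcon i.2
  have h5 := congrArg O.valuation h2
  rw [Valuation.map_neg, map_pow] at h5
  rw [← h5] at h3
  exact lt_irrefl _ h3

end Pool.Agent.H917.G
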