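import Pool.Agent.H917.G.U1

/-!
# PROJECT TORI (helper917), task U2: homogeneous Noether normalization

## Paper proof of `nn`

Call a tuple `T_1, …, T_n ∈ C^κ` of linear forms good if for each valuation subring `O ⊇ C` of `M` and each `x ∈ M`:
if all `T_t(y) ∈ x O` then all `y_k ∈ x O` (`T_t(y) = ∑ T t l * y l`; `z ∈ x O` means `∃ b ∈ O, z = b * x`). The tuple of all
coordinates is good. Take a good tuple with `n` minimal.
Claim: `n ≤ r + 1`. Suppose `n ≥ r + 2`. The elements `z_t = T_t(y)` of `M` satisfy a homogeneous relation `F(z) = 0`, `F ≠ 0` a form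
over `C` of some degree `d`: if some `z_t ≠ 0`, say `t = 0`, then the `n - 1 > r ≥ trdeg M` elements `z_t / z_0` are
algebraically dependent over `C`; homogenize the relation. (If all `z_t = 0` take `F = X_0`.) As `C` is infinite there is
`c ∈ C^n` with `F(c) ≠ 0` (`MvPolynomial.funext`), `d ≥ 1` (else `F` is a nonzero constant and `F(z) ≠ 0`), so some `c_k ≠ 0`; by
homogeneity we may assume `c_k = 1`. Let `T'_t = T_t - c_t T_k` for `t ≠ k`. This tuple of length `n - 1` is good: let
`T'_t(y) ∈ x O` for all `t ≠ k`. It suffices that `z_k ∈ x O` (then all `z_t ∈ x O`, and `T` is good). Otherwise `x = z_k u` with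
`u` in the maximal ideal of `O` (valuation ring: `z_k ∉ x O` implies `x ∈ z_k 𝔪`), in particular `z_k ≠ 0`, and
`z_t / z_k = c_t + T'_t(y) / z_k ≡ c_t` modulo `𝔪`. So `0 = F(z) / z_k^d = F(z / z_k) ≡ F(c)` modulo `𝔪`, but `F(c) ∈ C^×` is a unit of `O`.
Contradiction to minimality. So `n ≤ r + 1`; pad the tuple with zero forms to length `r + 1` (still good). Finally
`hint_of_val` (U1) gives the equations.
(The same argument for discrete valuations is `PNorm.step` in `Pool/Agent/H917/A3.lean` on main.)
-/

set_option autoImplicit false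
set_option linter.overlappingInstances false
set_option linter.unusedSectionVars false

open MvPolynomial

namespace Pool.Agent.H917.G

namespace U2aux

/-- the homogenization -/
noncomputable def hm {R : Type} [CommRing R] {n : ℕ} (G : MvPolynomial (Fin n) R) :
    MvPolynomial (Fin (n + 1)) R :=
  ∑ e ∈ Finset.range (G.totalDegree + 1),
    X 0 ^ (G.totalDegree - e) * rename Fin.succ (homogeneousComponent e G)

theorem hm_ne {R : Type} [CommRing R] {n : ℕ} {G : MvPolynomial (Fin n) R} (hG : G ≠ 0) :
    hm G ≠ 0 := by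
  intro h0
  apply hG
  have h1 : aeval (Fin.cons 1 X : Fin (n + 1) → MvPolynomial (Fin n) R) (hm G) = G := by
    unfold hm
    rw [map_sum]
    conv_rhs => rw [← sum_homogeneousComponent G]
    refine Finset.sum_congr rfl fun e _ => ?_
    rw [map_mul, map_pow, aeval_X, Fin.cons_zero, one_pow, one_mul, aeval_rename]
    have h2 : (Fin.cons 1 X : Fin (n + 1) → MvPolynomial (Fin n) R) ∘ Fin.succ = X := by
      funext i
      simp
    rw [h2, aeval_X_left_apply]
  rw [← h1, h0, map_zero]

theorem hm_homog {R : Type} [CommRing R] {n : ℕ} (G : MvPolynomial (Fin n) R) :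
    (hm G).IsHomogeneous G.totalDegree := by
  unfold hm
  apply IsHomogeneous.sum
  intro e he
  have he' : e ≤ G.totalDegree := by
    rw [Finset.mem_range] at he
    omega
  have h1 : (X (0 : Fin (n + 1)) ^ (G.totalDegree - e) : MvPolynomial (Fin (n + 1)) R).IsHomogeneous
      (G.totalDegree - e) := by
    simpa using (isHomogeneous_X R (0 : Fin (n + 1))).pow (G.totalDegree - e)
  have h2 : (rename Fin.succ (homogeneousComponent e G) :
      MvPolynomial (Fin (n + 1)) R).IsHomogeneous e :=
    (homogeneousComponent_isHomogeneous e G).rename_isHomogeneous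
  have h3 := h1.mul h2
  rwa [Nat.sub_add_cancel he'] at h3

variable {C M : Type} [Field C] [Field M] [Algebra C M]

theorem aeval_smul {n : ℕ} (c : M) (v : Fin n → M) {G : MvPolynomial (Fin n) C} {d : ℕ}
    (hG : G.IsHomogeneous d) :
    aeval (fun i => c * v i) G = c ^ d * aeval v G := by
  rw [aeval_def, aeval_def, eval₂_eq', eval₂_eq', Finset.mul_sum]
  refine Finset.sum_congr rfl fun m hm => ?_
  have hd : ∑ i, m i = d := by
    have h1 := hG (mem_support_iff.1 hm)
    rw [← h1, Finsupp.weight_apply, Finsupp.sum_fintype _ _ (fun i => by simp)]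
    simp
  have h2 : ∏ i, (c * v i) ^ m i = c ^ d * ∏ i, v i ^ m i := by
    rw [← hd, ← Finset.prod_pow_eq_pow_sum, ← Finset.prod_mul_distrib]
    refine Finset.prod_congr rfl fun i _ => ?_
    rw [mul_pow]
  rw [h2]
  ring

theorem aeval_hm {n : ℕ} (v : Fin (n + 1) → M) (hv : v 0 ≠ 0) (G : MvPolynomial (Fin n) C) :
    aeval v (hm G) = v 0 ^ G.totalDegree * aeval (fun i => v (Fin.succ i) / v 0) G := by
  have h1 : aeval (fun i => v (Fin.succ i) / v 0) G =
      ∑ e ∈ Finset.range (G.totalDegree + 1),
        aeval (fun i => v (Fin.succ i) / v 0) (homogeneousComponent e G) := by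
    rw [← map_sum, sum_homogeneousComponent]
  rw [h1, Finset.mul_sum]
  unfold hm
  rw [map_sum]
  refine Finset.sum_congr rfl fun e he => ?_
  have he' : e ≤ G.totalDegree := by
    rw [Finset.mem_range] at he
    omega
  rw [map_mul, map_pow, aeval_X, aeval_rename]
  have h2 : (v ∘ Fin.succ : Fin n → M) = fun i => v 0 * (v (Fin.succ i) / v 0) := by
    funext i
    simp only [Function.comp_apply]
    field_simp
  rw [h2, aeval_smul (v 0) _ (homogeneousComponent_isHomogeneous e G), ← mul_assoc, ← pow_add,
    Nat.sub_add_cancel he']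

theorem aeval_c {n : ℕ} (c : Fin n → C) (f : MvPolynomial (Fin n) C) :
    aeval (fun i => algebraMap C M (c i)) f = algebraMap C M (eval c f) := by
  induction f using MvPolynomial.induction_on with
  | C a => simp
  | add p q hp hq => rw [map_add, hp, hq, map_add, map_add]
  | mul_X p i hp => rw [map_mul, hp, aeval_X, map_mul, eval_X, map_mul]

/-- a homogeneous relation -/
theorem exists_rel {r n : ℕ} (htr : Algebra.trdeg C M ≤ r) (hn : r < n) (z : Fin (n + 1) → M) :
    ∃ (F : MvPolynomial (Fin (n + 1)) C) (d : ℕ), F.IsHomogeneous d ∧ F ≠ 0 ∧ aeval z F = 0 := by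
  classical
  by_cases h0 : ∀ t, z t = 0
  · refine ⟨X 0, 1, isHomogeneous_X C _, X_ne_zero _, ?_⟩
    rw [aeval_X]
    exact h0 0
  · push Not at h0
    obtain ⟨s, hs⟩ := h0
    obtain ⟨v, hv⟩ : ∃ v : Fin (n + 1) → M, v = fun t => z (Equiv.swap 0 s t) := ⟨_, rfl⟩
    have hv0 : v 0 ≠ 0 := by
      rw [hv]
      simpa using hs
    have hdep : ¬ AlgebraicIndependent C (fun i : Fin n => v (Fin.succ i) / v 0) := by
      intro hind
      have h1 := hind.cardinalMk_le_trdeg
      have h2 := h1.trans htr
      rw [Cardinal.mk_fin] at h2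
      have h3 : n ≤ r := by exact_mod_cast h2
      omega
    rw [AlgebraicIndependent, injective_iff_map_eq_zero] at hdep
    push Not at hdep
    obtain ⟨G, hG0, hG⟩ := hdep
    refine ⟨rename (Equiv.swap 0 s) (hm G), G.totalDegree,
      (hm_homog G).rename_isHomogeneous, ?_, ?_⟩
    · intro h
      apply hm_ne hG
      apply rename_injective _ (Equiv.swap (0 : Fin (n + 1)) s).injective
      rw [h, map_zero]
    · rw [aeval_rename]
      have h4 : z ∘ (Equiv.swap 0 s) = v := by
        rw [hv]
        rfl
      rw [h4, aeval_hm v hv0, hG0, mul_zero]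

/-- congruence of the values of polynomials -/
theorem val_sub {n : ℕ} {O : ValuationSubring M} (hO : ∀ a : C, algebraMap C M a ∈ O)
    (f : MvPolynomial (Fin n) C) {u w : Fin n → M} (hw : ∀ i, O.valuation (w i) ≤ 1)
    (huw : ∀ i, O.valuation (u i - w i) < 1) :
    O.valuation (aeval u f - aeval w f) < 1 := by
  have hu : ∀ i, O.valuation (u i) ≤ 1 := by
    intro i
    have h1 : u i = (u i - w i) + w i := by ring
    rw [h1]
    exact (O.valuation.map_add _ _).trans (max_le (huw i).le (hw i))
  have hreg : ∀ (g : MvPolynomial (Fin n) C) (w : Fin n → M), (∀ i, O.valuation (w i) ≤ 1) →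
      O.valuation (aeval w g) ≤ 1 := by
    intro g w hw
    induction g using MvPolynomial.induction_on with
    | C a =>
      rw [aeval_C]
      exact (O.valuation_le_one_iff _).2 (hO a)
    | add p q hp hq =>
      rw [map_add]
      exact (O.valuation.map_add _ _).trans (max_le hp hq)
    | mul_X p i hp =>
      rw [map_mul, aeval_X, map_mul]
      exact mul_le_one' hp (hw i)
  induction f using MvPolynomial.induction_on with
  | C a => rw [aeval_C, aeval_C, sub_self, map_zero]; exact zero_lt_one
  | add p q hp hq =>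
    rw [map_add, map_add, add_sub_add_comm]
    exact (O.valuation.map_add _ _).trans_lt (max_lt hp hq)
  | mul_X p i hp =>
    rw [map_mul, map_mul, aeval_X, aeval_X]
    have h1 : aeval u p * u i - aeval w p * w i =
        (aeval u p - aeval w p) * u i + aeval w p * (u i - w i) := by ring
    rw [h1]
    refine (O.valuation.map_add _ _).trans_lt (max_lt ?_ ?_)
    · rw [map_mul]
      exact (mul_le_of_le_one_right' (hu i)).trans_lt hp
    · rw [map_mul]
      exact (mul_le_of_le_one_left' (hreg p w hw)).trans_lt (huw i)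

/-- divisibility in the valuation ring -/
theorem mem_iff (O : ValuationSubring M) (z x : M) :
    (∃ b ∈ O, z = b * x) ↔ O.valuation z ≤ O.valuation x := by
  constructor
  · rintro ⟨b, hb, rfl⟩
    rw [map_mul]
    exact mul_le_of_le_one_left' ((O.valuation_le_one_iff b).2 hb)
  · intro h
    by_cases hx : x = 0
    · subst hx
      rw [map_zero, le_zero_iff, map_eq_zero] at h
      exact ⟨0, O.zero_mem, by rw [h, mul_zero]⟩
    · refine ⟨z / x, ?_, (div_mul_cancel₀ z hx).symm⟩
      rw [← O.valuation_le_one_iff, map_div₀]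
      have hvx : O.valuation x ≠ 0 := by
        rw [Ne, map_eq_zero]
        exact hx
      exact div_le_one_of_le₀ h zero_le

variable {κ : Type} [Fintype κ]

/-- the value of a linear form -/
noncomputable def lf (y : κ → M) (T : κ → C) : M := ∑ l, algebraMap C M (T l) * y l

/-- good tuples of linear forms -/
def Good (y : κ → M) {n : ℕ} (T : Fin n → κ → C) : Prop :=
  ∀ O : ValuationSubring M, (∀ a : C, algebraMap C M a ∈ O) → ∀ x : M,
    (∀ t, O.valuation (lf y (T t)) ≤ O.valuation x) → ∀ k, O.valuation (y k) ≤ O.valuation x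

theorem good_all (y : κ → M) : ∃ n : ℕ, ∃ T : Fin n → κ → C, Good y T := by
  classical
  refine ⟨Fintype.card κ, fun t l => if l = (Fintype.equivFin κ).symm t then 1 else 0, ?_⟩
  intro O _ x h k
  have h1 := h (Fintype.equivFin κ k)
  have h2 : lf y (fun l : κ => if l = (Fintype.equivFin κ).symm (Fintype.equivFin κ k) then
      (1 : C) else 0) = y k := by
    unfold lf
    rw [Equiv.symm_apply_apply, Finset.sum_eq_single k]
    · simp
    · intro l _ hl
      simp [hl]
    · intro hk
      exact absurd (Finset.mem_univ k) hk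
  rw [h2] at h1
  exact h1

theorem good_pad {y : κ → M} {n : ℕ} {T : Fin n → κ → C} (h : Good y T) :
    ∃ T' : Fin (n + 1) → κ → C, Good y T' := by
  refine ⟨Fin.cons 0 T, ?_⟩
  intro O hO x hx
  apply h O hO x
  intro t
  have := hx t.succ
  rwa [Fin.cons_succ] at this

theorem good_step [Infinite C] {r n : ℕ} (htr : Algebra.trdeg C M ≤ r) (hn : r < n) {y : κ → M}
    {T : Fin (n + 1) → κ → C} (h : Good y T) : ∃ T' : Fin n → κ → C, Good y T' := by
  classical
  obtain ⟨z, hz⟩ : ∃ z : Fin (n + 1) → M, z = fun t => lf y (T t) := ⟨_, rfl⟩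
  obtain ⟨F, d, hF, hF0, hFz⟩ := exists_rel (C := C) htr hn z
  obtain ⟨c, hc⟩ : ∃ c : Fin (n + 1) → C, eval c F ≠ 0 := by
    by_contra hcon
    push Not at hcon
    exact hF0 (MvPolynomial.funext fun c => by rw [hcon c, map_zero])
  have hck : ∃ k, c k ≠ 0 := by
    by_contra hcon
    push Not at hcon
    have hc0 : c = 0 := funext hcon
    subst hc0
    rcases Nat.eq_zero_or_pos d with hd | hd
    · subst hd
      have h1 : F = MvPolynomial.C (coeff 0 F) :=
        totalDegree_eq_zero_iff_eq_C.1 (Nat.le_zero.1 hF.totalDegree_le)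
      rw [h1] at hFz hc
      rw [aeval_C, map_eq_zero] at hFz
      rw [eval_C] at hc
      exact hc hFz
    · apply hc
      rw [eval_zero, constantCoeff_eq]
      by_contra h1
      have h2 := hF h1
      simp at h2
      omega
  obtain ⟨k, hk⟩ := hck
  obtain ⟨q, hq⟩ : ∃ q : Fin (n + 1) → C, q = fun t => (c k)⁻¹ * c t := ⟨_, rfl⟩
  have hqk : q k = 1 := by
    rw [hq]
    exact inv_mul_cancel₀ hk
  have hFq : eval q F ≠ 0 := by
    have h1 := aeval_smul (C := C) (M := C) ((c k)⁻¹) c hF
    rw [← hq] at h1
    have h2 : ∀ v : Fin (n + 1) → C, aeval v F = eval v F := fun v => by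
      rw [aeval_eq_eval]
    rw [h2, h2] at h1
    rw [h1]
    exact mul_ne_zero (pow_ne_zero _ (inv_ne_zero hk)) hc
  refine ⟨fun i l => T (k.succAbove i) l - q (k.succAbove i) * T k l, ?_⟩
  intro O hO x hx
  have hlf : ∀ i, lf y (fun l => T (k.succAbove i) l - q (k.succAbove i) * T k l) =
      z (k.succAbove i) - algebraMap C M (q (k.succAbove i)) * z k := by
    intro i
    rw [hz]
    unfold lf
    rw [Finset.mul_sum, ← Finset.sum_sub_distrib]
    refine Finset.sum_congr rfl fun l _ => ?_
    rw [map_sub, map_mul]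
    ring
  have hx' : ∀ i, O.valuation (z (k.succAbove i) - algebraMap C M (q (k.succAbove i)) * z k) ≤
      O.valuation x := fun i => by
    rw [← hlf i]
    exact hx i
  have hqle : ∀ t, O.valuation (algebraMap C M (q t)) ≤ 1 := fun t =>
    (O.valuation_le_one_iff _).2 (hO _)
  have hkey : O.valuation (z k) ≤ O.valuation x := by
    by_contra hcon
    rw [not_le] at hcon
    have hzk : z k ≠ 0 := by
      intro h0
      rw [h0, map_zero] at hcon
      exact absurd hcon not_lt_zero
    have hvk : O.valuation (z k) ≠ 0 := by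
      rw [Ne, map_eq_zero]
      exact hzk
    have h1 : ∀ t, O.valuation (z t / z k - algebraMap C M (q t)) < 1 := by
      intro t
      by_cases ht : t = k
      · subst ht
        rw [hqk, map_one, div_self hzk, sub_self, map_zero]
        exact zero_lt_one
      · obtain ⟨i, rfl⟩ := Fin.exists_succAbove_eq ht
        have h2 : z (k.succAbove i) / z k - algebraMap C M (q (k.succAbove i)) =
            (z (k.succAbove i) - algebraMap C M (q (k.succAbove i)) * z k) / z k := by
          field_simp
        rw [h2, map_div₀]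
        have h3 := (hx' i).trans_lt hcon
        rw [div_lt_one₀ (zero_lt_iff.2 hvk)]
        exact h3
    have h2 := val_sub hO F (u := fun t => z t / z k) (w := fun t => algebraMap C M (q t)) hqle h1
    have h3 : aeval (fun t => z t / z k) F = 0 := by
      have h4 := aeval_smul (C := C) (z k)⁻¹ z hF
      rw [hFz, mul_zero] at h4
      rw [← h4]
      congr 1
      congr 1
      funext t
      rw [div_eq_mul_inv, mul_comm]
    rw [h3, zero_sub, Valuation.map_neg, aeval_c] at h2
    have h5 : O.valuation (algebraMap C M (eval q F)) * O.valuation (algebraMap C M (eval q F)⁻¹)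
        = 1 := by
      rw [← map_mul, ← map_mul, mul_inv_cancel₀ hFq, map_one, map_one]
    have h6 : O.valuation (algebraMap C M (eval q F)⁻¹) ≤ 1 :=
      (O.valuation_le_one_iff _).2 (hO _)
    have h7 := (mul_le_of_le_one_right' h6).trans_lt h2
    rw [h5] at h7
    exact lt_irrefl _ h7
  apply h O hO x
  intro t
  by_cases ht : t = k
  · subst ht
    rw [hz] at hkey
    exact hkey
  · obtain ⟨i, rfl⟩ := Fin.exists_succAbove_eq ht
    have h1 : lf y (T (k.succAbove i)) =
        (z (k.succAbove i) - algebraMap C M (q (k.succAbove i)) * z k) +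
          algebraMap C M (q (k.succAbove i)) * z k := by
      rw [sub_add_cancel, hz]
    rw [h1]
    refine (O.valuation.map_add _ _).trans (max_le (hx' i) ?_)
    rw [map_mul]
    exact (mul_le_of_le_one_left' (hqle _)).trans hkey

theorem good_exists [Infinite C] {r : ℕ} (htr : Algebra.trdeg C M ≤ r) (y : κ → M) :
    ∃ T : Fin (r + 1) → κ → C, Good y T := by
  have hdown : ∀ m : ℕ, (∃ T : Fin (r + 1 + m) → κ → C, Good y T) →
      ∃ T : Fin (r + 1) → κ → C, Good y T := by
    intro m
    induction m with
    | zero => exact fun h => h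
    | succ m ih =>
      rintro ⟨T, hT⟩
      exact ih (good_step (n := r + 1 + m) htr (by omega) hT)
  have hup : ∀ n m : ℕ, (∃ T : Fin n → κ → C, Good y T) →
      ∃ T : Fin (n + m) → κ → C, Good y T := by
    intro n m h
    induction m with
    | zero => exact h
    | succ m ih =>
      obtain ⟨T, hT⟩ := ih
      exact good_pad hT
  obtain ⟨n, T, hT⟩ := good_all (C := C) y
  rcases le_total n (r + 1) with h | h
  · obtain ⟨m, hm⟩ := Nat.exists_eq_add_of_le h
    rw [hm]
    exact hup n m ⟨T, hT⟩
  · obtain ⟨m, rfl⟩ := Nat.exists_eq_add_of_le h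
    exact hdown m ⟨T, hT⟩

end U2aux

variable {C M κ : Type} [Field C] [Field M] [Algebra C M] [Fintype κ]

theorem nn [Infinite C] {r : ℕ} (htr : Algebra.trdeg C M ≤ r) (y : κ → M) :
    ∃ T : Fin (r + 1) → κ → C, ∀ k, HInt C (fun t => ∑ l, algebraMap C M (T t l) * y l) (y k) := by
  obtain ⟨T, hT⟩ := U2aux.good_exists (C := C) htr y
  refine ⟨T, fun k => hint_of_val fun O hO x hx => ?_⟩
  rw [U2aux.mem_iff]
  exact hT O hO x (fun t => (U2aux.mem_iff O _ x).1 (hx t)) k

end Pool.Agent.H917.G
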