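import Pool.Agent.H917.C6
import Pool.Agent.H917.G.FRAME
import Pool.Agent.H917.G.U0

/-!
Derivations with constant symmetric differentials: all directions.
-/

set_option autoImplicit false
set_option linter.overlappingInstances false
set_option linter.unusedSectionVars false

open FF MvPolynomial Pool.Agent.W603.LV Pool.Agent.W619.PQ Pool.Agent.W602.GT
  Pool.Agent.W619.TW Pool.Agent.W619.Y Pool.Agent.Y174 Pool.Agent.Y174.T

namespace Pool.Agent.H917.G

variable {n : ℕ} {p : Ideal (MvPolynomial (Fin (n + 1)) ℂ)}

/-- a derivation which vanishes on a subfield is linear over it -/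
def toDer {C M : Type} [Field C] [Field M] [Algebra ℂ M] [Algebra C M] (D : Derivation ℂ M M)
    (h : ∀ c : C, D (algebraMap C M c) = 0) : Derivation C M M where
  toFun := D
  map_add' := map_add D
  map_smul' := by
    intro c x
    rw [Algebra.smul_def, D.leibniz, h c, smul_zero, add_zero]
    exact algebraMap_smul M c (D x)
  map_one_eq_zero' := D.map_one_eq_zero
  leibniz' := D.leibniz

theorem toDer_apply {C M : Type} [Field C] [Field M] [Algebra ℂ M] [Algebra C M]
    (D : Derivation ℂ M M) (h : ∀ c : C, D (algebraMap C M c) = 0) (x : M) :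
    toDer D h x = D x := rfl

/-- the products in the relations -/
theorem prod_loc' {K : Type} [Field K] {m' : ℕ} (j i0 k : Fin (n + 1)) (x x' : Fin (n + 1) → K) :
    ∏ a, loc j x x' (Sum.inr ((Fin.cons k fun _ => i0 : Fin (m' + 1) → Fin (n + 1)) a)) =
      loc j x x' (Sum.inr k) * loc j x x' (Sum.inr i0) ^ m' := by
  rw [Fin.prod_univ_succ, Fin.cons_zero]
  simp only [Fin.cons_succ, Finset.prod_const, Finset.card_univ, Fintype.card_fin]

theorem frames (hp : Pool.Agent.W603.PV.IsHomog p) {m' N : ℕ} {s : Fin N → SymDiff p (m' + 1)}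
    (hs : Gens p (m' + 1) s) {F : Type} [Field F] [Algebra ℂ F] {M : Type} [Field M]
    [Algebra F M] [Algebra ℂ M] [IsScalarTower ℂ F M] [IsAlgClosure F M] {d : ℕ} (hd : 1 ≤ d)
    {y : Fin (n + 1) → F} (hy : y ≠ 0) (hmem : ∀ H ∈ p, aeval y H = 0) (hgen : coords ℂ y = ⊤)
    (htr : Algebra.trdeg ℂ F = d) (hngt : ¬ GeneralType ℂ F d) :
    ∃ (C : Type) (_ : Field C) (_ : CharZero C) (_ : IsAlgClosed C) (_ : Algebra ℂ C)
      (_ : Algebra C M) (_ : IsScalarTower ℂ C M) (r : ℕ) (D : Fin r → Derivation C M M)
      (T : Fin N → MvPolynomial (Fin r) C), 1 ≤ r ∧ Algebra.trdeg C M ≤ r ∧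
      SF m' (fun i => algebraMap F M (y i)) D T := by
  classical
  have hMc : IsAlgClosed M := IsAlgClosure.isAlgClosed F
  have hMa : Algebra.IsAlgebraic F M := IsAlgClosure.isAlgebraic
  obtain ⟨κ, r, hdr, t, η, E, hr, hE, ⟨Ng, g0, hg00, hg0, hg⟩, halg⟩ := exists_iitaka hd htr hngt
  obtain ⟨V, hV⟩ : ∃ V : Set (Place ℂ F), V = {P : Place ℂ F | Divisorial d P} := ⟨_, rfl⟩
  rw [← hV] at hg0 hg halg
  obtain ⟨j0, hj0⟩ := Function.ne_iff.1 hy
  have hj0 : y j0 ≠ 0 := hj0
  obtain ⟨E', hE'⟩ : ∃ E' : Fin r → Derivation ℂ F F, E' = fun c => E (Fin.natAdd κ c) := ⟨_, rfl⟩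
  obtain ⟨S, hSd⟩ : ∃ S : Fin N → MvPolynomial (Fin r) F, S = fun l => Sf E' y j0 (s l) := ⟨_, rfl⟩
  have hSr : ∀ l, RegSym V t η (S l) := by
    intro l
    rw [hSd, hE']
    exact Sf_reg hp hE hmem hj0 (s l) V
  have hSh : ∀ l, (S l).IsHomogeneous (m' + 1) := by
    intro l
    rw [hSd]
    exact Sf_hom E' y j0 (s l)
  have hSspan : Submodule.span F (Set.range S) = homogeneousSubmodule (Fin r) F (m' + 1) := by
    rw [hSd, hE']
    exact Sf_span hp hs hE hmem hj0 hgen
  have hSpow : ∀ q, Submodule.span F (Set.range fun μ : Fin q → Fin N => ∏ a, S (μ a)) =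
      homogeneousSubmodule (Fin r) F ((m' + 1) * q) := by
    intro q
    rw [hSd, hE']
    exact Sf_span_pow hp hs hE hmem hj0 hgen q
  -- the constants
  let K0 : IntermediateField ℂ F := IntermediateField.adjoin ℂ (Set.range t)
  let C0 : IntermediateField K0 M := algebraicClosure K0 M
  have hC0 : IsAlgClosed C0 := IsAlgClosure.isAlgClosed K0
  have hC00 : CharZero C0 := charZero_of_injective_algebraMap (algebraMap K0 C0).injective
  have hst : IsScalarTower ℂ C0 M := IsScalarTower.of_algebraMap_eq fun _ => rfl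
  -- the forms over `M`
  obtain ⟨SM, hSM⟩ : ∃ SM : Fin N → MvPolynomial (Fin r) M,
      SM = fun l => map (algebraMap F M) (S l) := ⟨_, rfl⟩
  have hSMh : ∀ l, (SM l).IsHomogeneous (m' + 1) := fun l => by
    rw [hSM]
    exact (hSh l).map _
  have hSMs : Submodule.span M (Set.range SM) = homogeneousSubmodule (Fin r) M (m' + 1) := by
    apply le_antisymm
    · rw [Submodule.span_le]
      rintro _ ⟨l, rfl⟩
      exact hSMh l
    · rw [hSM]
      exact span_map S hSspan
  obtain ⟨A, T, hA, hTh, hTs, hTv⟩ := frame (C := C0) (M := M) hr (Nat.succ_pos m') SM hSMh hSMs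
    (fun q hq => by
    obtain ⟨hmq, β, hβ⟩ := exists_subbasis _ (hSpow q)
    refine ⟨Ex r ((m' + 1) * q), inferInstance, β, ?_, fun μ => ?_⟩
    · have h1 := indep_map (M := M) _ hβ
      have h2 : (fun j => ∏ a, SM (β j a)) = fun j => map (algebraMap F M)
          (∏ a, S (β j a)) := by
        funext j
        rw [map_prod, hSM]
      rw [h2]
      exact h1
    · obtain ⟨x, hx, hsx⟩ := coeff_alg hr (Nat.mul_pos (Nat.succ_pos m') hq) hg00 hg0 hg halg
        (fun j => (⟨∏ a, S (β j a), hmq (β j)⟩ : homogeneousSubmodule (Fin r) F ((m' + 1) * q)))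
        (fun j => RegSym.prod _ fun a _ => hSr _) hβ ⟨∏ a, S (μ a), hmq μ⟩
        (RegSym.prod _ fun a _ => hSr _)
      have hxC : ∀ j, algebraMap F M (x j) ∈ C0 := by
        intro j
        rw [mem_algebraicClosure_iff]
        exact (hx j).algebraMap
      refine ⟨fun j => ⟨algebraMap F M (x j), hxC j⟩, ?_⟩
      have h1 := congrArg (fun P : homogeneousSubmodule (Fin r) F ((m' + 1) * q) =>
        map (algebraMap F M) (P : MvPolynomial (Fin r) F)) hsx
      simp only [Submodule.coe_sum, Submodule.coe_smul, map_sum, map_prod, smul_eq_C_mul,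
        map_mul, map_C] at h1
      rw [hSM]
      simp only [smul_eq_C_mul]
      exact h1)
  have hAu : IsUnit A.det := isUnit_iff_ne_zero.2 hA
  -- derivations
  have hzM : IsTranscendenceBasis ℂ (algebraMap F M ∘ (Fin.append t η : Fin (κ + r) → F)) :=
    hE.bas.algebraMap_comp
  have hkill : ∀ D : Derivation ℂ M M, (∀ i, D (algebraMap F M (t i)) = 0) →
      ∀ c : C0, D (algebraMap C0 M c) = 0 := by
    intro D hDt c
    refine der_zero_of_alg (k := ℂ) D ?_
    have h1 : IsAlgebraic K0 (algebraMap C0 M c) := by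
      have h2 : (algebraMap C0 M c) ∈ C0 := c.2
      rw [mem_algebraicClosure_iff] at h2
      exact h2
    refine alg_of_range ?_ h1
    rintro ⟨a, ha⟩
    have h3 : IntermediateField.adjoin ℂ (Set.range t) ≤
        (consts D).comap (IsScalarTower.toAlgHom ℂ F M) := by
      rw [IntermediateField.adjoin_le_iff]
      rintro _ ⟨i, rfl⟩
      exact hDt i
    exact ⟨⟨algebraMap F M a, h3 ha⟩, rfl⟩
  have htC : ∀ i, algebraMap F M (t i) ∈ C0 := by
    intro i
    rw [mem_algebraicClosure_iff]
    exact isAlgebraic_algebraMap (⟨t i, IntermediateField.subset_adjoin ℂ _ ⟨i, rfl⟩⟩ : K0)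
  have hex : ∀ v : Fin r → M, ∃ D : Derivation C0 M M, ∀ c, D (algebraMap F M (η c)) = v c := by
    intro v
    obtain ⟨D, hD⟩ := exists_der _ hzM (Fin.append (fun _ : Fin κ => (0 : M)) v)
    have hDt : ∀ i, D (algebraMap F M (t i)) = 0 := by
      intro i
      have h1 := hD (Fin.castAdd r i)
      rw [Function.comp_apply, Fin.append_left, Fin.append_left] at h1
      exact h1
    have hDη : ∀ c, D (algebraMap F M (η c)) = v c := by
      intro c
      have h1 := hD (Fin.natAdd κ c)
      rw [Function.comp_apply, Fin.append_right, Fin.append_right] at h1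
      exact h1
    exact ⟨toDer D (hkill D hDt), hDη⟩
  choose D hD using fun a : Fin r => hex fun c => A⁻¹ c a
  -- all derivations
  have hz0 : ∀ E1 : Derivation ℂ M M, (∀ i, E1 (algebraMap F M (t i)) = 0) →
      (∀ c, E1 (algebraMap F M (η c)) = 0) → ∀ x, E1 x = 0 := by
    intro E1 h1 h2 x
    refine der_zero (K := M) (L := M) E1 _ hzM (fun i => ?_) x
    rw [Function.comp_apply]
    refine Fin.addCases (fun i => ?_) (fun i => ?_) i
    · rw [Fin.append_left]
      exact h1 i
    · rw [Fin.append_right]
      exact h2 i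
  have hDt : ∀ (E1 : Derivation C0 M M) (i : Fin κ), E1 (algebraMap F M (t i)) = 0 := by
    intro E1 i
    exact E1.map_algebraMap (⟨algebraMap F M (t i), htC i⟩ : C0)
  have hspanD : ∀ E1 : Derivation C0 M M, ∃ g : Fin r → M, ∀ x, E1 x = ∑ a, g a * D a x := by
    intro E1
    obtain ⟨g, hg⟩ : ∃ g : Fin r → M, g = A.mulVec fun c => E1 (algebraMap F M (η c)) := ⟨_, rfl⟩
    refine ⟨g, fun x => ?_⟩
    have h1 := hz0 ((E1 - ∑ a, g a • D a).restrictScalars ℂ) (fun i => by
      exact hDt _ i) (fun c => by
      change (E1 - ∑ a, g a • D a) (algebraMap F M (η c)) = 0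
      rw [Derivation.sub_apply, der_sum]
      simp only [hD]
      have h2 : ∑ a, g a * A⁻¹ c a = (A⁻¹.mulVec g) c := by
        rw [Matrix.mulVec, dotProduct]
        exact Finset.sum_congr rfl fun a _ => mul_comm _ _
      rw [h2, hg, Matrix.mulVec_mulVec, Matrix.nonsing_inv_mul _ hAu, Matrix.one_mulVec,
        sub_self]) x
    change (E1 - ∑ a, g a • D a) x = 0 at h1
    rw [Derivation.sub_apply, der_sum, sub_eq_zero] at h1
    exact h1
  -- the values of the symmetric differentials
  have hj0M : algebraMap F M (y j0) ≠ 0 := fun h => hj0 ((map_eq_zero _).1 h)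
  have hyM : (fun i => algebraMap F M (y i)) ≠ 0 := by
    intro h
    have h1 := congrFun h j0
    exact hj0M h1
  have hmemM : ∀ H ∈ p, aeval (fun i => algebraMap F M (y i)) H = 0 := by
    intro H hH
    have h1 := aeval_algebraMap_apply (A := F) M y H
    have h2 : (algebraMap F M ∘ y) = fun i => algebraMap F M (y i) := rfl
    rw [← h2, h1, hmem H hH, map_zero]
  have hval : ∀ (D1 : Derivation ℂ M M) (v : Fin r → M), (∀ i, D1 (algebraMap F M (t i)) = 0) →
      (∀ c, D1 (algebraMap F M (η c)) = v c) → ∀ l,
      (s l).val (fun i => algebraMap F M (y i)) (fun i => D1 (algebraMap F M (y i))) =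
        eval v (SM l) := by
    intro D1 v hDt hDη l
    have hDF : ∀ f : F, D1 (algebraMap F M f) = ∑ c, v c * algebraMap F M (E' c f) := by
      intro f
      have h1 := der_zero ((D1.compAlgebraMap F) -
        ∑ c, v c • ((Algebra.linearMap F M).compDer (E' c))) _ hE.bas (fun i => by
          rw [Derivation.sub_apply]
          have h2 : (∑ c, v c • ((Algebra.linearMap F M).compDer (E' c))) (Fin.append t η i) =
              ∑ c, v c * algebraMap F M (E' c (Fin.append t η i)) := by
            rw [← Derivation.coeFnAddMonoidHom_apply, map_sum, Finset.sum_apply]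
            rfl
          rw [h2]
          change D1 (algebraMap F M (Fin.append t η i)) - _ = 0
          refine Fin.addCases (fun i => ?_) (fun i => ?_) i
          · rw [Fin.append_left, hDt, zero_sub, neg_eq_zero]
            refine Finset.sum_eq_zero fun c _ => ?_
            have h3 := hE.dual (Fin.natAdd κ c) (Fin.castAdd r i)
            rw [Fin.append_left, if_neg (by
              intro h
              have := congrArg Fin.val h
              simp at this
              omega)] at h3
            rw [hE', h3, map_zero, mul_zero]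
          · rw [Fin.append_right, hDη, sub_eq_zero, Finset.sum_eq_single i]
            · have h3 := hE.dual (Fin.natAdd κ i) (Fin.natAdd κ i)
              rw [Fin.append_right, if_pos rfl] at h3
              rw [hE', h3, map_one, mul_one]
            · intro c _ hc
              have h3 := hE.dual (Fin.natAdd κ c) (Fin.natAdd κ i)
              rw [Fin.append_right, if_neg (fun h => hc (Fin.natAdd_injective _ _ h))] at h3
              rw [hE', h3, map_zero, mul_zero]
            · intro h
              exact absurd (Finset.mem_univ _) h) f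
      rw [Derivation.sub_apply] at h1
      have h2 : (∑ c, v c • ((Algebra.linearMap F M).compDer (E' c))) f =
          ∑ c, v c * algebraMap F M (E' c f) := by
        rw [← Derivation.coeFnAddMonoidHom_apply, map_sum, Finset.sum_apply]
        rfl
      rw [h2] at h1
      exact sub_eq_zero.1 h1
    rw [(s l).val_eq hp (tanVec_der D1 hyM hmemM) hj0M, loc_der D1 _ hj0M, hSM, hSd]
    have h1 : eval v (map (algebraMap F M) (Sf E' y j0 (s l))) =
        ((aeval v : MvPolynomial (Fin r) F →ₐ[F] M).restrictScalars ℂ) (Sf E' y j0 (s l)) := by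
      rw [AlgHom.restrictScalars_apply, aeval_def, eval_map]
    change _ = eval v (map (algebraMap F M) (Sf E' y j0 (s l)))
    rw [h1, Sf, comp_aeval_apply]
    congr 2
    funext k
    rcases k with k | k
    · rw [Sum.elim_inl, AlgHom.restrictScalars_apply, aeval_C]
      change algebraMap F M (y k) / algebraMap F M (y j0) = _
      rw [map_div₀]
    · rw [Sum.elim_inr, AlgHom.restrictScalars_apply, Lf, map_sum]
      change D1 (algebraMap F M (y k) / algebraMap F M (y j0)) = _
      rw [← map_div₀, hDF]
      refine Finset.sum_congr rfl fun c _ => ?_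
      rw [map_mul, aeval_C, aeval_X, mul_comm]
  -- the values on combinations
  have hvalc : ∀ (c : Fin r → M) (l : Fin N), (s l).val (fun i => algebraMap F M (y i))
      (fun i => ((∑ a, c a • D a : Derivation C0 M M).restrictScalars ℂ)
        (algebraMap F M (y i))) = aeval c (T l) := by
    intro c l
    have h1 := hval ((∑ a, c a • D a : Derivation C0 M M).restrictScalars ℂ) (A⁻¹.mulVec c)
      (fun i => hDt _ i) (fun e => by
        change (∑ a, c a • D a : Derivation C0 M M) (algebraMap F M (η e)) = _
        rw [der_sum]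
        simp only [hD]
        rw [Matrix.mulVec, dotProduct]
        exact Finset.sum_congr rfl fun a _ => mul_comm _ _) l
    rw [hTv, Matrix.mulVec_mulVec, Matrix.mul_nonsing_inv _ hAu, Matrix.one_mulVec] at h1
    exact h1
  refine ⟨C0, inferInstance, hC00, hC0, inferInstance, inferInstance, inferInstance, r, D, T, hr,
    ?_, hyM, hTh, hTs, hspanD, ?_, ?_⟩
  · have h1 := trdeg_add_eq ℂ C0 (A := M)
    have h2 : Algebra.trdeg ℂ M = ((κ + r : ℕ) : Cardinal) := by
      rw [← hzM.cardinalMk_eq_trdeg, Cardinal.mk_fin]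
    have h3 : AlgebraicIndependent ℂ fun i : Fin κ => (⟨algebraMap F M (t i), htC i⟩ : C0) := by
      have h4 : AlgebraicIndependent ℂ fun i : Fin κ => algebraMap F M (t i) := by
        have h5 := hzM.1.comp (Fin.castAdd r) (Fin.castAdd_injective κ r)
        have h6 : ((algebraMap F M ∘ (Fin.append t η : Fin (κ + r) → F)) ∘ Fin.castAdd r) =
            fun i : Fin κ => algebraMap F M (t i) := by
          funext i
          rw [Function.comp_apply, Function.comp_apply, Fin.append_left]
        rw [h6] at h5
        exact h5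
      exact AlgebraicIndependent.of_comp (IsScalarTower.toAlgHom ℂ C0 M) h4
    have h4 := h3.cardinalMk_le_trdeg
    rw [Cardinal.mk_fin] at h4
    rw [h2] at h1
    push_cast at h1
    have h5 : (κ : Cardinal) + Algebra.trdeg C0 M ≤ κ + r := by
      rw [← h1]
      exact add_le_add h4 le_rfl
    exact (Cardinal.add_le_add_iff_of_lt_aleph0 Cardinal.natCast_lt_aleph0).1 (by
      rw [add_comm _ (κ : Cardinal), add_comm _ (κ : Cardinal)]
      exact h5)
  · intro j hj i0 k
    obtain ⟨b, hb⟩ := hs.genR hp j (Fin.cons k fun _ => i0)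
    refine ⟨b, fun c => ?_⟩
    have htan := tanVec_der (p := p) ((∑ a, c a • D a : Derivation C0 M M).restrictScalars ℂ)
      hyM hmemM
    have h1 := hb M _ _ htan hj
    rw [prod_loc', loc_der _ _ hj] at h1
    have h2 : ∀ i, ((∑ a, c a • D a : Derivation C0 M M).restrictScalars ℂ)
        (algebraMap F M (y i) / algebraMap F M (y j)) =
        ∑ a, c a * D a (algebraMap F M (y i) / algebraMap F M (y j)) := by
      intro i
      exact der_sum _ _ _ _
    change ((∑ a, c a • D a : Derivation C0 M M).restrictScalars ℂ)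
        (algebraMap F M (y k) / algebraMap F M (y j)) *
      ((∑ a, c a • D a : Derivation C0 M M).restrictScalars ℂ)
        (algebraMap F M (y i0) / algebraMap F M (y j)) ^ m' = _ at h1
    rw [h2, h2] at h1
    rw [h1]
    refine Finset.sum_congr rfl fun l _ => ?_
    have h3 := hvalc c l
    rw [(s l).val_eq hp htan hj, loc_der _ _ hj] at h3
    rw [h3]
  · intro j hj l
    refine ⟨(s l).pol j, (s l).hom j, fun c => ?_⟩
    have htan := tanVec_der (p := p) ((∑ a, c a • D a : Derivation C0 M M).restrictScalars ℂ)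
      hyM hmemM
    have h3 := hvalc c l
    rw [(s l).val_eq hp htan hj, loc_der _ _ hj] at h3
    rw [← h3]
    congr 2
    funext k
    rcases k with k | k
    · rfl
    · exact (der_sum _ _ _ _).symm

end Pool.Agent.H917.G
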