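import Pool.Agent.H917.G.U0

/-!
# PROJECT TORI (helper917), task U4: brackets and second derivatives

The structure `SF` is in `G/U0.lean`. Notation: for `y j ≠ 0` let `u_k = y k / y j`, `V_{ka} = D_a(u_k)`, `v_k(c) = ∑ c_a V_{ka}`. So
`v_k(c) v_{i0}(c)^{m'} = ∑_l b_l(u) T_l(c)` (`SF.rel`) and `S_l(u, v(c)) = T_l(c)` (`SF.val`) for all `c ∈ M^r`.
-/

set_option autoImplicit false
set_option linter.overlappingInstances false
set_option linter.unusedSectionVars false

open MvPolynomial

namespace Pool.Agent.H917.G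

namespace U4aux

/-- the algebra of the differential equation -/
theorem alg_step {K : Type} [Field K] [CharZero K] {ι : Type} {i0 : ι} {m' : ℕ}
    {v v' g dg : ι → K} {w : K} (hw : w * v i0 = 1) (hg : ∀ k, v k * v i0 ^ m' = g k)
    (hdg : ∀ k, v' k * v i0 ^ m' + v k * (m' * v i0 ^ (m' - 1) * v' i0) = dg k) :
    v' i0 = (m' + 1 : K)⁻¹ * w ^ m' * dg i0 ∧
    ∀ k, v' k = w ^ m' * dg k - m' / (m' + 1) * g k * w ^ (2 * m' + 1) * dg i0 := by
  have hm : (m' + 1 : K) ≠ 0 := by exact_mod_cast m'.succ_ne_zero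
  have hVW : v i0 ^ m' * w ^ m' = 1 := by rw [← mul_pow, mul_comm, hw, one_pow]
  have hl : (m' : K) * (v i0 ^ (m' - 1) * w ^ m') = m' * w := by
    rcases Nat.eq_zero_or_pos m' with rfl | hm'
    · simp
    · obtain ⟨l, rfl⟩ : ∃ l, m' = l + 1 := ⟨m' - 1, by omega⟩
      have h5 : v i0 ^ l * w ^ l = 1 := by rw [← mul_pow, mul_comm, hw, one_pow]
      rw [Nat.add_sub_cancel, pow_succ]
      linear_combination ((l + 1 : ℕ) : K) * w * h5
  have hl' : (m' : K) * (v i0 * v i0 ^ (m' - 1)) = m' * v i0 ^ m' := by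
    rcases Nat.eq_zero_or_pos m' with rfl | hm'
    · simp
    · obtain ⟨l, rfl⟩ : ∃ l, m' = l + 1 := ⟨m' - 1, by omega⟩
      rw [Nat.add_sub_cancel, pow_succ]
      ring
  have h1 : v' i0 = (m' + 1 : K)⁻¹ * w ^ m' * dg i0 := by
    have h2 := hdg i0
    have h6 : w ^ m' * dg i0 = (m' + 1) * v' i0 := by
      rw [← h2]
      linear_combination (w ^ m' * v' i0) * hl' + ((m' : K) + 1) * v' i0 * hVW
    rw [mul_assoc, h6, inv_mul_cancel_left₀ hm]
  refine ⟨h1, fun k => ?_⟩
  have h2 := hdg k
  have h3 : v' k = w ^ m' * dg k - m' * (v k * w) * v' i0 := by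
    rw [← h2]
    linear_combination -(v' k) * hVW - (v k * v' i0) * hl
  have h4 : v k = g k * w ^ m' := by
    rw [← hg k, mul_assoc, hVW, mul_one]
  rw [h3, h1, h4]
  have h5 : w ^ (2 * m' + 1) = w ^ m' * w * w ^ m' := by ring
  rw [h5]
  field_simp

/-- values of polynomials are in a subring which contains the coefficients and the arguments -/
theorem aeval_mem {R M σ : Type} [CommRing R] [CommRing M] [Algebra R M] {S : Subring M}
    (hR : ∀ a : R, algebraMap R M a ∈ S) {x : σ → M} (hx : ∀ i, x i ∈ S)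
    (p : MvPolynomial σ R) : aeval x p ∈ S := by
  induction p using MvPolynomial.induction_on with
  | C a => rw [aeval_C]; exact hR a
  | add p q hp hq => rw [map_add]; exact S.add_mem hp hq
  | mul_X p i hp => rw [map_mul, aeval_X]; exact S.mul_mem hp (hx i)

/-- the derivative of a value of a polynomial -/
theorem der_aeval_mem {C M σ : Type} [Field C] [Field M] [Algebra ℂ C] [Algebra C M] [Algebra ℂ M]
    [IsScalarTower ℂ C M] {S : Subring M} (hR : ∀ a : C, algebraMap C M a ∈ S) {x : σ → M}
    (hx : ∀ i, x i ∈ S) (D : Derivation C M M) (hD : ∀ i, D (x i) ∈ S) (p : MvPolynomial σ ℂ) :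
    D (aeval x p) ∈ S := by
  have hR' : ∀ a : ℂ, algebraMap ℂ M a ∈ S := fun a => by
    rw [IsScalarTower.algebraMap_apply ℂ C M]; exact hR _
  induction p using MvPolynomial.induction_on with
  | C a =>
    rw [aeval_C, IsScalarTower.algebraMap_apply ℂ C M, Derivation.map_algebraMap]
    exact S.zero_mem
  | add p q hp hq => rw [map_add, map_add]; exact S.add_mem hp hq
  | mul_X p i hp =>
    rw [map_mul, aeval_X, Derivation.leibniz, smul_eq_mul, smul_eq_mul]
    exact S.add_mem (S.mul_mem (aeval_mem hR' hx p) (hD i)) (S.mul_mem (hx i) hp)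

/-- a weighted homogeneous polynomial of positive degree in the second group of variables -/
theorem exists_quot {R ι κ : Type} [CommRing R] [Fintype κ] {d : ℕ}
    {S : MvPolynomial (ι ⊕ κ) R}
    (hS : S.IsWeightedHomogeneous (Sum.elim (fun _ => 0) fun _ => 1 : ι ⊕ κ → ℕ) (d + 1)) :
    ∃ Q : κ → MvPolynomial (ι ⊕ κ) R, S = ∑ k, Q k * X (Sum.inr k) := by
  classical
  have h1 : S ∈ Ideal.span (MvPolynomial.X '' (Set.range (Sum.inr : κ → ι ⊕ κ)) :
      Set (MvPolynomial (ι ⊕ κ) R)) := by
    rw [MvPolynomial.mem_ideal_span_X_image]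
    intro m hm
    have hw := hS (mem_support_iff.1 hm)
    by_contra hcon
    push Not at hcon
    have h0 : ∀ k, m (Sum.inr k) = 0 := fun k => hcon _ ⟨k, rfl⟩
    have : Finsupp.weight (Sum.elim (fun _ => 0) fun _ => 1 : ι ⊕ κ → ℕ) m = 0 := by
      rw [Finsupp.weight_apply, Finsupp.sum]
      refine Finset.sum_eq_zero fun i _ => ?_
      rcases i with i | k
      · simp
      · simp [h0 k]
    omega
  rw [← Set.range_comp] at h1
  obtain ⟨Q, hQ⟩ := (Submodule.mem_span_range_iff_exists_fun _).1 h1
  exact ⟨Q, hQ.symm⟩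

/-- valuation rings are closed under roots -/
theorem mem_of_pow {M : Type} [Field M] {O : ValuationSubring M} {x : M} {d : ℕ}
    (h : x ^ (d + 1) ∈ O) : x ∈ O := by
  rcases O.mem_or_inv_mem x with h1 | h1
  · exact h1
  · by_cases hx : x = 0
    · rw [hx]; exact O.zero_mem
    · have : x = x ^ (d + 1) * (x⁻¹) ^ d := by
        rw [pow_succ, mul_assoc, mul_comm x, ← mul_assoc, ← mul_pow, mul_inv_cancel₀ hx, one_pow,
          one_mul]
      rw [this]
      exact O.mul_mem _ _ h (pow_mem h1 d)

/-- an element of all valuation rings over `C` is in `C` -/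
theorem mem_range {C M : Type} [Field C] [IsAlgClosed C] [Field M] [Algebra C M] {x : M}
    (h : ∀ O : ValuationSubring M, (∀ a : C, algebraMap C M a ∈ O) → x ∈ O) :
    ∃ a : C, algebraMap C M a = x := by
  by_contra hcon
  let R : Subring M := (algebraMap C M).range
  have hx : x ∉ R := fun h => hcon (RingHom.mem_range.1 h)
  letI : Algebra C R := (algebraMap C M).rangeRestrict.toAlgebra
  haveI : IsScalarTower C R M := IsScalarTower.of_algebraMap_eq fun a => rfl
  haveI : Algebra.IsIntegral C R := ⟨fun r => by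
    obtain ⟨a, ha⟩ := (algebraMap C M).rangeRestrict_surjective r
    have : r = algebraMap C R a := ha.symm
    rw [this]
    exact isIntegral_algebraMap⟩
  haveI : IsIntegrallyClosedIn R M := by
    rw [Subring.isIntegrallyClosedIn_iff]
    intro z hz
    have h1 : IsIntegral C z := isIntegral_trans (R := C) (A := R) z hz
    have h2 := minpoly.mem_range_of_degree_eq_one C z
      (IsAlgClosed.degree_eq_one_of_irreducible C (minpoly.irreducible h1))
    exact h2
  obtain ⟨V, hV1, hV2⟩ := Subring.exists_le_valuationSubring_of_isIntegrallyClosedIn hx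
  exact hV2 (h V fun a => hV1 ⟨a, rfl⟩)

end U4aux

open U4aux

variable {n r N m' : ℕ} {C M : Type} [Field C] [CharZero C] [IsAlgClosed C] [Field M] [Algebra ℂ C]
  [Algebra C M] [Algebra ℂ M] [IsScalarTower ℂ C M] {y : Fin (n + 1) → M}
  {D : Fin r → Derivation C M M} {T : Fin N → MvPolynomial (Fin r) C}

theorem SF.pow_mem (h : SF m' y D T) (a : Fin r) : ∃ c : Fin N → C,
    (X a : MvPolynomial (Fin r) C) ^ (m' + 1) = ∑ l, c l • T l := by
  have h1 : (X a : MvPolynomial (Fin r) C) ^ (m' + 1) ∈ Submodule.span C (Set.range T) := by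
    rw [h.span, mem_homogeneousSubmodule]
    have := (isHomogeneous_X C a).pow (m' + 1)
    rwa [one_mul] at this
  obtain ⟨c, hc⟩ := (Submodule.mem_span_range_iff_exists_fun _).1 h1
  exact ⟨c, hc.symm⟩

/-- the value of `X_a ^ (m' + 1)` -/
theorem SF.pow_val (h : SF m' y D T) (a : Fin r) : ∃ l : Fin N → C, ∀ c : Fin r → M,
    c a ^ (m' + 1) = ∑ i, algebraMap C M (l i) * aeval c (T i) := by
  obtain ⟨l, hl⟩ := h.pow_mem a
  refine ⟨l, fun c => ?_⟩
  have := congrArg (aeval c) hl
  rw [map_pow, aeval_X, map_sum] at this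
  rw [this]
  refine Finset.sum_congr rfl fun i _ => ?_
  rw [map_smul, Algebra.smul_def]

theorem SF.eq_zero (h : SF m' y D T) {c : Fin r → M} (hc : ∀ l, aeval c (T l) = 0) : c = 0 := by
  funext a
  obtain ⟨l, hl⟩ := h.pow_val a
  have := hl c
  simp only [hc, mul_zero, Finset.sum_const_zero] at this
  exact pow_eq_zero_iff (Nat.succ_ne_zero _) |>.1 this

namespace U4aux

/-- the value of a sum at a unit vector -/
theorem sum_single {z : Fin r → M} (b : Fin r) :
    ∑ a, (Pi.single b 1 : Fin r → M) a * z a = z b := by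
  classical
  rw [Finset.sum_eq_single b]
  · simp
  · intro a _ hab
    simp [hab]
  · simp

theorem aeval_single (b : Fin r) (p : MvPolynomial (Fin r) C) :
    aeval (Pi.single b 1 : Fin r → M) p = algebraMap C M (aeval (Pi.single b 1 : Fin r → C) p) := by
  classical
  have : (Pi.single b 1 : Fin r → M) =
      fun i => algebraMap C M ((Pi.single b 1 : Fin r → C) i) := by
    funext i
    by_cases hi : i = b
    · subst hi; simp
    · simp [hi]
  rw [this]
  exact MvPolynomial.aeval_algebraMap_apply _ _ _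

end U4aux

theorem SF.first (h : SF m' y D T) {O : ValuationSubring M} (hO : ∀ a : C, algebraMap C M a ∈ O)
    {j : Fin (n + 1)} (hj : y j ≠ 0) (hu : ∀ i, y i / y j ∈ O) (a : Fin r) (k : Fin (n + 1)) :
    D a (y k / y j) ∈ O := by
  classical
  obtain ⟨b, hb⟩ := h.rel j hj k k
  have h1 := hb (Pi.single a 1)
  rw [sum_single (z := fun a => D a (y k / y j))] at h1
  have hOC : ∀ a : ℂ, algebraMap ℂ M a ∈ O.toSubring := fun a => by
    rw [IsScalarTower.algebraMap_apply ℂ C M]; exact hO _
  apply mem_of_pow (d := m')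
  rw [pow_succ', h1]
  refine O.toSubring.sum_mem fun l _ => O.toSubring.mul_mem (aeval_mem hOC hu _) ?_
  rw [aeval_single]
  exact hO _

/-- a general version of `second`: membership in subrings -/
theorem SF.second_mem (h : SF m' y D T) {j : Fin (n + 1)} (hj : y j ≠ 0) (a b : Fin r)
    (k : Fin (n + 1)) {R : Subring M} (hR : ∀ a : C, algebraMap C M a ∈ R)
    (hu : ∀ i, y i / y j ∈ R) (hV : ∀ i e, D e (y i / y j) ∈ R) :
    D a (D b (y k / y j)) ∈ R := by
  classical
  haveI : CharZero M := charZero_of_injective_algebraMap (algebraMap C M).injective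
  have hRC : ∀ a : ℂ, algebraMap ℂ M a ∈ R := fun a => by
    rw [IsScalarTower.algebraMap_apply ℂ C M]; exact hR _
  set z := D a (D b (y k / y j)) with hz
  -- the ideal
  let I : Ideal R :=
    { carrier := {x | (x : M) * z ∈ R}
      add_mem' := fun {x y} hx hy => by
        change ((x + y : R) : M) * z ∈ R
        rw [Subring.coe_add, add_mul]
        exact R.add_mem hx hy
      zero_mem' := by
        change ((0 : R) : M) * z ∈ R
        rw [Subring.coe_zero, zero_mul]
        exact R.zero_mem
      smul_mem' := fun c x hx => by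
        change ((c • x : R) : M) * z ∈ R
        rw [smul_eq_mul, Subring.coe_mul, mul_assoc]
        exact R.mul_mem c.2 hx }
  have hI : ∀ x : R, x ∈ I ↔ (x : M) * z ∈ R := fun x => Iff.rfl
  let vR : Fin (n + 1) → R := fun i => ⟨D b (y i / y j), hV i b⟩
  -- the powers are in the ideal
  have hpow : ∀ i, vR i ^ (2 * m' + 1) ∈ I := by
    intro i
    rw [hI, Subring.coe_pow]
    change (D b (y i / y j)) ^ (2 * m' + 1) * z ∈ R
    by_cases h0 : D b (y i / y j) = 0
    · rw [h0, zero_pow (by omega), zero_mul]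
      exact R.zero_mem
    · choose B hB using h.rel j hj i
      have hg : ∀ k', D b (y k' / y j) * (D b (y i / y j)) ^ m' =
          ∑ l, aeval (fun i => y i / y j) (B k' l) *
            algebraMap C M (aeval (Pi.single b 1 : Fin r → C) (T l)) := by
        intro k'
        have h1 := hB k' (Pi.single b 1)
        rw [sum_single (z := fun a => D a (y k' / y j)),
          sum_single (z := fun a => D a (y i / y j))] at h1
        rw [h1]
        refine Finset.sum_congr rfl fun l _ => ?_
        rw [aeval_single]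
      have hdg : ∀ k', D a (D b (y k' / y j)) * (D b (y i / y j)) ^ m' +
          D b (y k' / y j) * (m' * (D b (y i / y j)) ^ (m' - 1) * D a (D b (y i / y j))) =
          D a (∑ l, aeval (fun i => y i / y j) (B k' l) *
            algebraMap C M (aeval (Pi.single b 1 : Fin r → C) (T l))) := by
        intro k'
        rw [← hg k', Derivation.leibniz, Derivation.leibniz_pow, smul_eq_mul, smul_eq_mul,
          smul_eq_mul, nsmul_eq_mul]
        ring
      have hgR : ∀ k', ∑ l, aeval (fun i => y i / y j) (B k' l) *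
          algebraMap C M (aeval (Pi.single b 1 : Fin r → C) (T l)) ∈ R := fun k' =>
        R.sum_mem fun l _ => R.mul_mem (aeval_mem hRC hu _) (hR _)
      have hdgR : ∀ k', D a (∑ l, aeval (fun i => y i / y j) (B k' l) *
          algebraMap C M (aeval (Pi.single b 1 : Fin r → C) (T l))) ∈ R := fun k' => by
        rw [map_sum]
        refine R.sum_mem fun l _ => ?_
        rw [Derivation.leibniz, Derivation.map_algebraMap, smul_zero, zero_add, smul_eq_mul]
        exact R.mul_mem (hR _) (der_aeval_mem hR hu (D a) (fun i => hV i a) _)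
      have hst := (alg_step (i0 := i) (m' := m') (v := fun k' => D b (y k' / y j))
        (v' := fun k' => D a (D b (y k' / y j))) (w := (D b (y i / y j))⁻¹)
        (inv_mul_cancel₀ h0) hg hdg).2 k
      have hst' : z = _ := hst
      rw [hst']
      have hc : (m' : M) / (m' + 1) ∈ R := by
        have := hR ((m' : C) / (m' + 1))
        simpa using this
      have e1 : (D b (y i / y j)) ^ (2 * m' + 1) * (D b (y i / y j))⁻¹ ^ m' =
          (D b (y i / y j)) ^ (m' + 1) := by
        rw [show 2 * m' + 1 = (m' + 1) + m' by ring, pow_add, mul_assoc, ← mul_pow,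
          mul_inv_cancel₀ h0, one_pow, mul_one]
      have e2 : (D b (y i / y j)) ^ (2 * m' + 1) * (D b (y i / y j))⁻¹ ^ (2 * m' + 1) = 1 := by
        rw [← mul_pow, mul_inv_cancel₀ h0, one_pow]
      have e3 : ∀ g dk d0 c w1 w2 p : M, p * (w1 * dk - c * g * w2 * d0) =
          (p * w1) * dk - c * g * (p * w2) * d0 := by intros; ring
      rw [e3, e1, e2, mul_one]
      exact R.sub_mem (R.mul_mem (R.pow_mem (hV i b) _) (hdgR k))
        (R.mul_mem (R.mul_mem hc (hgR k)) (hdgR i))
  -- the unit ideal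
  obtain ⟨l, hl⟩ : ∃ l, aeval (Pi.single b 1 : Fin r → M) (T l) ≠ 0 := by
    by_contra hcon
    push Not at hcon
    have := h.eq_zero hcon
    have := congrFun this b
    simp at this
  obtain ⟨S, hS, hSv⟩ := h.val j hj l
  obtain ⟨Q, hQ⟩ := exists_quot hS
  have h1 := hSv (Pi.single b 1)
  simp only [sum_single (z := fun a => D a (y _ / y j))] at h1
  rw [hQ, map_sum] at h1
  simp only [map_mul, aeval_X, Sum.elim_inr] at h1
  rw [aeval_single] at hl h1
  set t := aeval (Pi.single b 1 : Fin r → C) (T l) with ht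
  have ht0 : t ≠ 0 := fun h => hl (by rw [h, map_zero])
  have hQR : ∀ k, aeval (Sum.elim (fun i => y i / y j) fun k => D b (y k / y j)) (Q k) ∈ R :=
    fun k => aeval_mem hRC (by
      rintro (i | i)
      · exact hu i
      · exact hV i b) _
  have htop : Ideal.span (Set.range vR) = ⊤ := by
    rw [Ideal.eq_top_iff_one]
    have : (1 : R) = ∑ k, (⟨algebraMap C M t⁻¹, hR _⟩ *
        ⟨aeval (Sum.elim (fun i => y i / y j) fun k => D b (y k / y j)) (Q k), hQR k⟩ : R) * vR k := by
      apply Subtype.ext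
      rw [Subring.coe_one]
      have h2 : (algebraMap C M t⁻¹) * (∑ k, aeval (Sum.elim (fun i => y i / y j)
          fun k => D b (y k / y j)) (Q k) * D b (y k / y j)) = 1 := by
        rw [h1, ← map_mul, inv_mul_cancel₀ ht0, map_one]
      rw [← h2, Finset.mul_sum]
      simp only [AddSubmonoidClass.coe_finset_sum, Subring.coe_mul]
      refine Finset.sum_congr rfl fun k _ => ?_
      rw [mul_assoc]
    rw [this]
    exact Ideal.sum_mem _ fun k _ => Ideal.mul_mem_left _ _ (Ideal.subset_span ⟨k, rfl⟩)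
  have htop2 := Ideal.span_pow_eq_top _ htop (2 * m' + 1)
  have hle : Ideal.span ((fun x => x ^ (2 * m' + 1)) '' Set.range vR) ≤ I := by
    rw [Ideal.span_le]
    rintro _ ⟨_, ⟨i, rfl⟩, rfl⟩
    exact hpow i
  rw [htop2] at hle
  have h1I : (1 : R) ∈ I := hle trivial
  rw [hI, Subring.coe_one, one_mul] at h1I
  exact h1I

theorem SF.val_mem (h : SF m' y D T) {O : ValuationSubring M} (hO : ∀ a : C, algebraMap C M a ∈ O)
    {j : Fin (n + 1)} (hj : y j ≠ 0) (hu : ∀ i, y i / y j ∈ O) :
    (∀ a k, D a (y k / y j) ∈ O) ∧ ∀ a b k, D a (D b (y k / y j)) ∈ O :=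
  ⟨fun a k => h.first hO hj hu a k, fun a b k =>
    h.second_mem hj a b k (R := O.toSubring) hO hu fun i e => h.first hO hj hu e i⟩

theorem SF.brk (h : SF m' y D T) : ∃ f : Fin r → Fin r → Fin r → C, ∀ a b (x : M),
    D a (D b x) - D b (D a x) = ∑ e, algebraMap C M (f a b e) * D e x := by
  classical
  have key : ∀ a b, ∃ f : Fin r → C, ∀ x : M,
      D a (D b x) - D b (D a x) = ∑ e, algebraMap C M (f e) * D e x := by
    intro a b
    obtain ⟨g, hg⟩ := h.der ⁅D a, D b⁆
    simp only [Derivation.commutator_apply] at hg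
    have hgr : ∀ e, ∃ c : C, algebraMap C M c = g e := by
      intro e
      apply mem_range
      intro O hO
      -- the chart
      obtain ⟨j, hj, hu⟩ : ∃ j, y j ≠ 0 ∧ ∀ i, y i / y j ∈ O := by
        obtain ⟨j, hjmax⟩ := Finite.exists_max (fun i => O.valuation (y i))
        have hj : y j ≠ 0 := by
          intro h0
          apply h.ne
          funext i
          have := hjmax i
          rw [h0, map_zero] at this
          exact (map_eq_zero O.valuation).1 (le_antisymm this zero_le')
        refine ⟨j, hj, fun i => ?_⟩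
        rw [← O.valuation_le_one_iff, map_div₀]
        exact div_le_one_of_le₀ (hjmax i) zero_le'
      have hv : ∀ k, ∑ e, g e * D e (y k / y j) ∈ O := fun k => by
        rw [← hg]
        exact O.toSubring.sub_mem ((h.val_mem hO hj hu).2 a b k) ((h.val_mem hO hj hu).2 b a k)
      have hOC : ∀ a : ℂ, algebraMap ℂ M a ∈ O.toSubring := fun a => by
        rw [IsScalarTower.algebraMap_apply ℂ C M]; exact hO _
      have hT : ∀ l, aeval g (T l) ∈ O := fun l => by
        obtain ⟨S, -, hS⟩ := h.val j hj l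
        rw [← hS g]
        exact aeval_mem (S := O.toSubring) hOC (by
          rintro (i | i)
          · exact hu i
          · exact hv i) _
      apply mem_of_pow (d := m')
      obtain ⟨l, hl⟩ := h.pow_val e
      rw [hl g]
      exact O.toSubring.sum_mem fun i _ => O.toSubring.mul_mem (hO _) (hT i)
    choose f hf using hgr
    refine ⟨f, fun x => ?_⟩
    rw [hg]
    exact Finset.sum_congr rfl fun e _ => by rw [hf]
  choose f hf using key
  exact ⟨f, hf⟩

theorem SF.second (h : SF m' y D T) {j : Fin (n + 1)} (hj : y j ≠ 0) (a b : Fin r)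
    (k : Fin (n + 1)) : ∃ B : MvPolynomial (Fin (n + 1) ⊕ (Fin (n + 1) × Fin r)) C,
      D a (D b (y k / y j)) =
        aeval (Sum.elim (fun i => y i / y j) fun p => D p.2 (y p.1 / y j)) B := by
  let φ : MvPolynomial (Fin (n + 1) ⊕ (Fin (n + 1) × Fin r)) C →ₐ[C] M :=
    aeval (Sum.elim (fun i => y i / y j) fun p => D p.2 (y p.1 / y j))
  have h1 : D a (D b (y k / y j)) ∈ φ.toRingHom.range := by
    apply h.second_mem hj a b k
    · intro c
      exact ⟨MvPolynomial.C c, by simp [φ]⟩
    · intro i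
      exact ⟨X (Sum.inl i), by simp [φ]⟩
    · intro i e
      exact ⟨X (Sum.inr (i, e)), by simp [φ]⟩
  obtain ⟨B, hB⟩ := h1
  exact ⟨B, hB.symm⟩

theorem SF.ndg (h : SF m' y D T) {j : Fin (n + 1)} (hj : y j ≠ 0) (a : Fin r) :
    ∃ q : Fin (n + 1) → MvPolynomial ((Fin (n + 1) ⊕ (Fin (n + 1) × Fin r)) ⊕ Fin r) C,
      ∀ c : Fin r → M,
        ∑ k, aeval (Sum.elim (Sum.elim (fun i => y i / y j) fun p => D p.2 (y p.1 / y j)) c) (q k) *
          ∑ b, c b * D b (y k / y j) = c a ^ (m' + 1) := by
  classical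
  obtain ⟨lam, hlam⟩ := h.pow_val a
  choose S hS hSv using h.val j hj
  choose Q hQ using fun l => exists_quot (hS l)
  let s : Fin (n + 1) ⊕ Fin (n + 1) →
      MvPolynomial ((Fin (n + 1) ⊕ (Fin (n + 1) × Fin r)) ⊕ Fin r) C :=
    Sum.elim (fun i => X (Sum.inl (Sum.inl i)))
      fun k => ∑ b, X (Sum.inr b) * X (Sum.inl (Sum.inr (k, b)))
  refine ⟨fun k => ∑ l, MvPolynomial.C (lam l) * aeval s (Q l k), fun c => ?_⟩
  set φ : MvPolynomial ((Fin (n + 1) ⊕ (Fin (n + 1) × Fin r)) ⊕ Fin r) C →ₐ[C] M :=
    aeval (Sum.elim (Sum.elim (fun i => y i / y j) fun p => D p.2 (y p.1 / y j)) c) with hφ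
  have hcomp : ∀ p : MvPolynomial (Fin (n + 1) ⊕ Fin (n + 1)) ℂ, φ (aeval s p) =
      aeval (Sum.elim (fun i => y i / y j) fun k => ∑ a, c a * D a (y k / y j)) p := by
    intro p
    induction p using MvPolynomial.induction_on with
    | C x =>
      rw [aeval_C, aeval_C, IsScalarTower.algebraMap_apply ℂ C
        (MvPolynomial ((Fin (n + 1) ⊕ (Fin (n + 1) × Fin r)) ⊕ Fin r) C), AlgHom.commutes,
        ← IsScalarTower.algebraMap_apply ℂ C M]
    | add p q hp hq => rw [map_add, map_add, hp, hq, map_add]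
    | mul_X p i hp =>
      rw [map_mul, map_mul, hp, map_mul, aeval_X, aeval_X]
      congr 1
      rcases i with i | i
      · simp [s, φ]
      · simp [s, φ]
  simp only [map_sum, map_mul, hcomp]
  rw [hlam c]
  simp only [← hSv _ c]
  have hSQ : ∀ l, aeval (Sum.elim (fun i => y i / y j) fun k => ∑ a, c a * D a (y k / y j)) (S l) =
      ∑ k, aeval (Sum.elim (fun i => y i / y j) fun k => ∑ a, c a * D a (y k / y j)) (Q l k) *
        ∑ b, c b * D b (y k / y j) := by
    intro l
    conv_lhs => rw [hQ l]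
    rw [map_sum]
    refine Finset.sum_congr rfl fun k _ => ?_
    rw [map_mul, aeval_X, Sum.elim_inr]
  simp only [hSQ]
  have hC : ∀ x : C, φ (MvPolynomial.C x) = algebraMap C M x := fun x => by rw [hφ, aeval_C]
  simp only [hC]
  have e1 : ∀ (A : Fin N → M) (B : Fin N → Fin (n + 1) → M) (V : Fin (n + 1) → M),
      ∑ k, (∑ l, A l * B l k) * V k = ∑ l, A l * ∑ k, B l k * V k := by
    intro A B V
    simp only [Finset.mul_sum, Finset.sum_mul]
    rw [Finset.sum_comm]
    refine Finset.sum_congr rfl fun l _ => Finset.sum_congr rfl fun k _ => ?_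
    ring
  exact e1 _ _ _

end Pool.Agent.H917.G
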