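import Pool.Agent.H917.G.U2
import Pool.Agent.H917.G.U4

/-!
# PROJECT TORI (helper917), task U5: the structure `AD`

`YY`, `JJ`, `AD`, `SF` are in `G/U0.lean`.

## Paper proof

Let `Y = YY y D`, and for `j` with `y j ≠ 0`: `Y_{jj} = Y (inl (j, j)) = y_j²`, `u_k = y_k / y_j`, `V_{kb} = D_b(u_k)`. Then
`Y(inl (i, k)) / Y_{jj} = u_i u_k` and `Y(inr (i, k, b)) / Y_{jj} = u_i V_{kb} - u_k V_{ib}` (quotient rule), in particular
`u_i = Y(inl (i, j)) / Y_{jj}` and `V_{kb} = Y(inr (j, k, b)) / Y_{jj}` (as `u_j = 1`, `V_{jb} = 0`).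
* `vel`: `D_a(u_i u_k) = u_i V_{ka} + u_k V_{ia}`, `D_a(u_i V_{kb} - u_k V_{ib}) = V_{ia} V_{kb} + u_i D_a V_{kb} - V_{ka} V_{ib} - u_k D_a V_{ib}`, and
  `SF.second` (U4) expresses the second derivatives by polynomials in `u`, `V`; substitute `u_i`, `V_{kb}` by the variables
  `X (inl (i, j))`, `X (inr (j, k, b))`.
* `brk`: `SF.brk`. `ndg`: `SF.ndg`, with `m = m' + 1`; `∑_b c_b D_b(u_k)` is the term of the index `inl (k, j) : Ix n r`
  (`Y (inl (k, j)) / Y_{jj} = u_k`); all other `q`'s are zero; substitute the variables.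
* `cov`: by `hint_of_val` (U1), used with the finite index type `JJ r y`: let `O ⊇ C` be a valuation subring, `x ∈ M` with
  `y_j² ∈ x O` for all `j` with `y_j ≠ 0`. Choose `j` with `y_j ≠ 0` and `u_i = y_i / y_j ∈ O` for all `i`. Then all `u_i`, `V_{kb} ∈ O`
  (`SF.val_mem`), so `Y_k / y_j² ∈ O` and `Y_k ∈ y_j² O ⊆ x O`.
* `fin`: `nn` (U2) for `Y`.
-/

set_option autoImplicit false
set_option linter.overlappingInstances false
set_option linter.unusedSectionVars false

open MvPolynomial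

namespace Pool.Agent.H917.G

variable {n r N m' : ℕ} {C M : Type} [Field C] [CharZero C] [IsAlgClosed C] [Field M] [Algebra ℂ C]
  [Algebra C M] [Algebra ℂ M] [IsScalarTower ℂ C M] {y : Fin (n + 1) → M}
  {D : Fin r → Derivation C M M} {T : Fin N → MvPolynomial (Fin r) C}

namespace U5aux

theorem exists_max {n : ℕ} {M : Type} [Field M] (O : ValuationSubring M) {y : Fin (n + 1) → M}
    (hy : y ≠ 0) : ∃ j, y j ≠ 0 ∧ ∀ i, y i / y j ∈ O := by
  obtain ⟨j, hj⟩ := Finite.exists_max (fun i => O.valuation (y i))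
  have hj0 : y j ≠ 0 := by
    intro h0
    apply hy
    funext i
    have h1 := hj i
    rw [h0, map_zero, le_zero_iff] at h1
    exact (O.valuation.zero_iff).1 h1
  refine ⟨j, hj0, fun i => ?_⟩
  rw [← O.valuation_le_one_iff, map_div₀]
  exact div_le_one_of_le₀ (hj i) zero_le

variable {n r : ℕ} {C M : Type} [Field C] [Field M] [Algebra C M] {y : Fin (n + 1) → M}
  {D : Fin r → Derivation C M M}

/-- the indices of the coordinates `u_i`, `V_{kb}` -/
def gg (r : ℕ) (j : Fin (n + 1)) : Fin (n + 1) ⊕ (Fin (n + 1) × Fin r) → Ix n r :=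
  Sum.elim (fun i => Sum.inl (i, j)) fun p => Sum.inr (j, p.1, p.2)

theorem YY_inl {j : Fin (n + 1)} (hj : y j ≠ 0) (i k : Fin (n + 1)) :
    YY y D (Sum.inl (i, k)) / YY y D (Sum.inl (j, j)) = y i / y j * (y k / y j) := by
  simp only [YY, Sum.elim_inl]
  field_simp

theorem YY_inr {j : Fin (n + 1)} (hj : y j ≠ 0) (i k : Fin (n + 1)) (b : Fin r) :
    YY y D (Sum.inr (i, k, b)) / YY y D (Sum.inl (j, j)) =
      y i / y j * D b (y k / y j) - y k / y j * D b (y i / y j) := by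
  simp only [YY, Sum.elim_inl, Sum.elim_inr]
  rw [Derivation.leibniz_div, Derivation.leibniz_div]
  simp only [smul_eq_mul]
  field_simp
  ring

theorem YY_u {j : Fin (n + 1)} (hj : y j ≠ 0) (i : Fin (n + 1)) :
    YY y D (Sum.inl (i, j)) / YY y D (Sum.inl (j, j)) = y i / y j := by
  rw [YY_inl hj, div_self hj, mul_one]

theorem YY_V {j : Fin (n + 1)} (hj : y j ≠ 0) (k : Fin (n + 1)) (b : Fin r) :
    YY y D (Sum.inr (j, k, b)) / YY y D (Sum.inl (j, j)) = D b (y k / y j) := by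
  rw [YY_inr hj, div_self hj, one_mul, Derivation.map_one_eq_zero, mul_zero, sub_zero]

theorem elim_gg {j : Fin (n + 1)} (hj : y j ≠ 0) :
    (Sum.elim (fun i => y i / y j) fun p : Fin (n + 1) × Fin r => D p.2 (y p.1 / y j)) =
      (fun k => YY y D k / YY y D (Sum.inl (j, j))) ∘ gg r j := by
  funext s
  rcases s with i | p
  · exact (YY_u hj i).symm
  · exact (YY_V hj p.1 p.2).symm

theorem elim_gg' {j : Fin (n + 1)} (hj : y j ≠ 0) (c : Fin r → M) :
    Sum.elim (Sum.elim (fun i => y i / y j) fun p : Fin (n + 1) × Fin r => D p.2 (y p.1 / y j)) c =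
      Sum.elim (fun k => YY y D k / YY y D (Sum.inl (j, j))) c ∘ Sum.map (gg r j) id := by
  rw [elim_gg hj]
  funext s
  rcases s with i | p <;> rfl

end U5aux

open U5aux

theorem SF.ad (h : SF m' y D T) (htr : Algebra.trdeg C M ≤ r) :
    ∃ (f : Fin r → Fin r → Fin r → C) (th : Ix n r → Fin r → Ix n r → MvPolynomial (Ix n r) C)
      (L : Fin (r + 1) → Ix n r → C), AD (JJ r y) (YY y D) D f th L := by
  obtain ⟨f, hf⟩ := h.brk
  obtain ⟨L, hL⟩ := nn htr (YY y D)
  have hvel : ∀ x ∈ JJ r y, ∀ a k, ∃ P : MvPolynomial (Ix n r) C,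
      D a (YY y D k / YY y D x) = aeval (fun k => YY y D k / YY y D x) P := by
    rintro _ ⟨j, hj, rfl⟩ a k
    rcases k with ⟨i, l⟩ | ⟨i, l, b⟩
    · refine ⟨X (Sum.inl (i, j)) * X (Sum.inr (j, l, a)) +
        X (Sum.inl (l, j)) * X (Sum.inr (j, i, a)), ?_⟩
      rw [YY_inl hj, Derivation.leibniz]
      simp only [map_add, map_mul, aeval_X, YY_u hj, YY_V hj, smul_eq_mul]
    · obtain ⟨B1, hB1⟩ := h.second hj a b l
      obtain ⟨B2, hB2⟩ := h.second hj a b i
      rw [elim_gg hj, ← aeval_rename] at hB1 hB2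
      refine ⟨X (Sum.inr (j, i, a)) * X (Sum.inr (j, l, b)) +
        X (Sum.inl (i, j)) * rename (gg r j) B1 - X (Sum.inr (j, l, a)) * X (Sum.inr (j, i, b)) -
        X (Sum.inl (l, j)) * rename (gg r j) B2, ?_⟩
      rw [YY_inr hj, map_sub, Derivation.leibniz, Derivation.leibniz]
      simp only [map_add, map_sub, map_mul, aeval_X, YY_u hj, YY_V hj, smul_eq_mul]
      rw [← hB1, ← hB2]
      ring
  choose! th hth using hvel
  refine ⟨f, th, L, ?_, hth, hf, ?_, ?_, hL⟩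
  · rintro _ ⟨j, hj, rfl⟩
    exact mul_ne_zero hj hj
  · rintro _ ⟨j, hj, rfl⟩ a
    obtain ⟨q, hq⟩ := h.ndg hj a
    refine ⟨m' + 1, Nat.succ_pos m', Sum.elim (fun p => if p.2 = j then
      rename (Sum.map (gg r j) id) (q p.1) else 0) fun _ => 0, fun c => ?_⟩
    rw [← hq c, Fintype.sum_sum_type, Fintype.sum_prod_type]
    simp only [Sum.elim_inl, Sum.elim_inr, map_zero, zero_mul, Finset.sum_const_zero, add_zero]
    refine Finset.sum_congr rfl fun k _ => ?_
    rw [Finset.sum_eq_single j]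
    · rw [if_pos rfl, aeval_rename, elim_gg' hj]
      simp only [YY_u hj]
    · intro l _ hl
      rw [if_neg hl, map_zero, zero_mul]
    · intro h0
      exact absurd (Finset.mem_univ j) h0
  · intro k
    have : Fintype (JJ r y) := Fintype.ofFinite _
    refine hint_of_val fun O hO x hx => ?_
    obtain ⟨j, hj, hu⟩ := exists_max O h.ne
    obtain ⟨hV, hW⟩ := h.val_mem hO hj hu
    obtain ⟨b, hb, hbx⟩ := hx ⟨Sum.inl (j, j), j, hj, rfl⟩
    have hY0 : YY y D (Sum.inl (j, j)) ≠ 0 := mul_ne_zero hj hj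
    have hk : YY y D k / YY y D (Sum.inl (j, j)) ∈ O := by
      rcases k with ⟨i, l⟩ | ⟨i, l, b⟩
      · rw [YY_inl hj]
        exact O.mul_mem _ _ (hu i) (hu l)
      · rw [YY_inr hj]
        exact sub_mem (O.mul_mem _ _ (hu i) (hV b l)) (O.mul_mem _ _ (hu l) (hV b i))
    refine ⟨_, O.mul_mem _ _ hk hb, ?_⟩
    change YY y D (Sum.inl (j, j)) = b * x at hbx
    rw [mul_assoc, ← hbx, div_mul_cancel₀ _ hY0]

end Pool.Agent.H917.G
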