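import Pool.Agent.H917.G.U0

/-!
# PROJECT TORI (helper917), task U6: specialization to the complex numbers

`AD` is in `G/U0.lean`, `FD`, `Zs` in `G/G0.lean`.

## Paper proof of `AD.spec`

Let `R0 ⊆ C` be the `ℂ`-subalgebra generated by the (finitely many) coefficients of all polynomials which occur in `h`: those
of the `th j a k`, the `f a b e`, the `L t l`, the `q`'s of `ndg`, and the `A`'s of `cov` and `fin`. So these polynomials come from polynomials
with coefficients in `R0`. Let `B ⊆ M` be the `ℂ`-subalgebra generated by the image of `R0`, by the `Y k / Y j0` and by the inverse of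
`g = aeval (Y / Y j0) G ≠ 0`. It is a finitely generated `ℂ`-algebra and a domain, so there is a homomorphism `ω : B → ℂ` of
`ℂ`-algebras (Nullstellensatz; e.g. `exists_algHom` in `G/FRAME.lean`, whose proof you may copy). Let `φ : R0 → ℂ` be its restriction.
For `j ∈ J` let `Ker_j = {P ∈ R0[X_ι] | P(Y / Y j) = 0}` and `K j = {map φ P | P ∈ Ker_j}`, an ideal of `ℂ[X_ι]` since
`map φ : R0[X] → ℂ[X]` is surjective (`ℂ ⊆ R0`, `φ` is `ℂ`-linear). Hence the transfer principle:
(*) if `P ∈ R0[X]` vanishes at `Y / Y j`, `j ∈ J`, then `map φ P` vanishes at all `x ∈ Zs (K j)`.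
(**) if `P ∈ R0[X]` is homogeneous and `P(Y) = 0` then `P(Y / Y j) = 0` for all `j ∈ J`.
Let `E.th = map φ th`, `E.f = φ f`, `E.L = φ L`, `E.J = J`. The fields:
* `one`: `X j - 1 ∈ Ker_j`.
* `stab`: for `P ∈ Ker_j`: `0 = D_a(P(Y / Y j)) = (vf (th j a) P)(Y / Y j)` (`D_a` kills `R0`; the same with `vf` over `R0`, or: define
  `∑_k pderiv k P * th j a k`; note that `vf θ P = ∑ pderiv k P * θ k`), and `map φ` commutes with `pderiv`.
* `brk`: `D_a(D_b(Y k / Y j)) = (∑_l pderiv l (th j b k) * th j a l)(Y / Y j)` etc.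
* `trans`: let `x ∈ Zs (K j)`, `x j' ≠ 0`. If `P ∈ Ker_{j'}` has degree at most `d` then `P~ := X_{j'}^d P(X / X_{j'})` (a polynomial:
  `∑_i X_{j'}^{d-i} P_i`, `P_i` the homogeneous components) vanishes at `Y / Y j` (its value is `(Y j' / Y j)^d P(Y / Y j')`), so
  `0 = (map φ P~)(x) = x_{j'}^d (map φ P)(x / x_{j'})`. Velocities: `D_a(Y k / Y j') * (Y j' / Y j)² = D_a(Y k / Y j) (Y j' / Y j) - (Y k / Y j) D_a(Y j' / Y j)`
  (quotient rule), i.e. `th j' a k (Y / Y j') * u_{j'}² = th j a k (u) u_{j'} - u_k th j a j' (u)` with `u = Y / Y j`; multiply by `u_{j'}^d`, `d`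
  large, to get polynomial identities in `u`, and transfer by (*).
* `ndg`: `∑_k q_k(u, c) ∑_b c_b (th j b k)(u) = c_a^m` holds for all `c ∈ M^r`; as `M` is infinite it is an identity of polynomials in
  `c` (`MvPolynomial.funext`), i.e. all coefficients (polynomials in `u` over `R0`) of the difference vanish at `u = Y / Y j`; by (*) the identity
  holds for `x ∈ Zs (K j)` with `φ`-coefficients: `∑_k q_k(x, c) (∑_b c_b (th j b k)(x)) = c_a^m` for all `c ∈ ℂ^r`. So if the velocity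
  `eval x (cmb (th j) c k)` vanishes for all `k`, then `c_a^m = 0` for all `a`.
* `cov`: by (**) and (*) `x_k^e + ∑ A_i((x_j)_{j ∈ J}) x_k^i = 0` for `x ∈ Zs (K j)`, where `A_i` is homogeneous of degree `e - i`. Choose
  `j' ∈ J` with `t := |x_{j'}|` maximal (`J` is finite; `x_j = 1`, so `t ≥ 1`). `|A_i(..)| ≤ a_i t^{e-i}`, `a_i` the sum of the absolute values of the
  coefficients. If `|x_k| > (1 + ∑ a_i) t` then `|x_k|^e ≤ ∑ a_i t^{e-i} |x_k|^i ≤ (∑ a_i) t |x_k|^{e-1} < |x_k|^e`, a contradiction. So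
  `ρ := 1 + ∑` (over all `k`, `i`) works.
* `fin`: (**) and (*).
* The point: `x0 k = ω(Y k / Y j0)`. If `P ∈ Ker_{j0}` then `(map φ P)(x0) = ω(P(Y / Y j0)) = 0`; `eval x0 G = ω(g) ≠ 0`.
* The last two claims: polynomials with coefficients in `ℂ ⊆ R0` are fixed by `φ`; `th j a k - H` vanishes at `Y / Y j`.
-/

set_option autoImplicit false
set_option linter.overlappingInstances false
set_option linter.unusedSectionVars false

open MvPolynomial

namespace Pool.Agent.H917.G.U6aux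

section generic

variable {R F : Type} [CommRing R] [Field F] {ι : Type}

/-- homogenization with respect to the variable `j` -/
noncomputable def hz (j : ι) (d : ℕ) (P : MvPolynomial ι R) : MvPolynomial ι R :=
  ∑ α ∈ P.support, monomial (α + Finsupp.single j (d - α.degree)) (coeff α P)

theorem eval₂_hz (φ : R →+* F) (y : ι → F) {j : ι} (hy : y j ≠ 0) {d : ℕ}
    {P : MvPolynomial ι R} (hd : P.totalDegree ≤ d) :
    eval₂ φ y (hz j d P) = y j ^ d * eval₂ φ (fun k => y k / y j) P := by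
  classical
  rw [hz, eval₂_sum, eval₂_eq φ (fun k => y k / y j) P, Finset.mul_sum]
  refine Finset.sum_congr rfl fun α hα => ?_
  rw [eval₂_monomial]
  have hdeg : α.degree ≤ d := (le_totalDegree hα).trans hd
  have h1 : (α + Finsupp.single j (d - α.degree)).prod (fun n e => y n ^ e) =
      (α.prod fun n e => y n ^ e) * y j ^ (d - α.degree) := by
    rw [Finsupp.prod_add_index']
    · rw [Finsupp.prod_single_index (h := fun n e => y n ^ e) (pow_zero _)]
    · intro a; exact pow_zero _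
    · intro a b c; exact pow_add _ _ _
  rw [h1]
  have h2 : ∏ i ∈ α.support, (y i / y j) ^ α i = (α.prod fun n e => y n ^ e) / y j ^ α.degree := by
    rw [Finsupp.prod, Finsupp.degree_apply, ← Finset.prod_pow_eq_pow_sum, ← Finset.prod_div_distrib]
    exact Finset.prod_congr rfl fun i _ => div_pow _ _ _
  rw [h2]
  have h3 : y j ^ d = y j ^ (d - α.degree) * y j ^ α.degree := by
    rw [← pow_add, Nat.sub_add_cancel hdeg]
  rw [h3]
  field_simp

theorem eval₂_div {κ' : Type} (φ : R →+* F) (v : κ' → F) {s : F} {d : ℕ}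
    {P : MvPolynomial κ' R} (hP : P.IsHomogeneous d) :
    eval₂ φ (fun k => v k / s) P = eval₂ φ v P / s ^ d := by
  classical
  rw [eval₂_eq φ (fun k => v k / s) P, eval₂_eq φ v P, Finset.sum_div]
  refine Finset.sum_congr rfl fun α hα => ?_
  have hdeg : α.degree = d := by
    have := hP (mem_support_iff.1 hα)
    rwa [Finsupp.degree_eq_weight_one]
  have h2 : ∏ i ∈ α.support, (v i / s) ^ α i = (∏ i ∈ α.support, v i ^ α i) / s ^ d := by
    rw [← hdeg, Finsupp.degree_apply, ← Finset.prod_pow_eq_pow_sum, ← Finset.prod_div_distrib]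
    exact Finset.prod_congr rfl fun i _ => div_pow _ _ _
  rw [h2, mul_div_assoc]

/-- homogeneous equations -/
theorem hom_div {κ' : Type} (φ : R →+* F) (v : κ' → F) {s z : F} {e : ℕ}
    {A : Fin e → MvPolynomial κ' R} (hA : ∀ i, (A i).IsHomogeneous (e - i))
    (h : z ^ e + ∑ i : Fin e, eval₂ φ v (A i) * z ^ (i : ℕ) = 0) :
    (z / s) ^ e + ∑ i : Fin e, eval₂ φ (fun k => v k / s) (A i) * (z / s) ^ (i : ℕ) = 0 := by
  have h1 : ∀ i : Fin e, eval₂ φ (fun k => v k / s) (A i) * (z / s) ^ (i : ℕ) =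
      eval₂ φ v (A i) * z ^ (i : ℕ) / s ^ e := by
    intro i
    have h2 : s ^ e = s ^ (e - (i : ℕ)) * s ^ (i : ℕ) := by
      rw [← pow_add, Nat.sub_add_cancel i.2.le]
    rw [eval₂_div φ v (hA i), h2, div_pow, div_mul_div_comm]
  rw [Finset.sum_congr rfl fun i _ => h1 i, ← Finset.sum_div, div_pow, ← add_div, h, zero_div]

/-- values of a derivation on values of polynomials with constant coefficients -/
theorem der_eval {C : Type} [Field C] [Algebra C F] [Fintype ι] (D : Derivation C F F)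
    (κ : R →+* F) (hκ : ∀ c, D (κ c) = 0) (u : ι → F) (P : MvPolynomial ι R) :
    D (eval₂ κ u P) = ∑ k, eval₂ κ u (pderiv k P) * D (u k) := by
  classical
  induction P using MvPolynomial.induction_on with
  | C a =>
    rw [eval₂_C, hκ]
    symm
    refine Finset.sum_eq_zero fun k _ => ?_
    rw [pderiv_C, eval₂_zero, zero_mul]
  | add p q hp hq =>
    rw [eval₂_add, map_add, hp, hq, ← Finset.sum_add_distrib]
    refine Finset.sum_congr rfl fun k _ => ?_
    rw [map_add, eval₂_add, add_mul]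
  | mul_X p i hp =>
    rw [eval₂_mul, eval₂_X, Derivation.leibniz, hp, smul_eq_mul, smul_eq_mul]
    have h1 : ∀ k, eval₂ κ u (pderiv k (p * X i)) * D (u k) =
        (if k = i then eval₂ κ u p * D (u i) else 0) + u i * (eval₂ κ u (pderiv k p) * D (u k)) := by
      intro k
      rw [Derivation.leibniz, smul_eq_mul, smul_eq_mul, pderiv_X, eval₂_add, eval₂_mul, eval₂_mul,
        eval₂_X]
      by_cases h : k = i
      · subst h
        rw [Pi.single_eq_same, if_pos rfl, eval₂_one]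
        ring
      · rw [Pi.single_eq_of_ne' h, if_neg h, eval₂_zero]
        ring
    rw [Finset.sum_congr rfl fun k _ => h1 k, Finset.sum_add_distrib, ← Finset.mul_sum,
      Finset.sum_ite_eq' Finset.univ i, if_pos (Finset.mem_univ i)]

/-- an identity for all values of the second set of variables -/
theorem eval_transfer {r : ℕ} [Infinite F] (κ : R →+* F) (φ : R →+* ℂ) (u : ι → F) (x : ι → ℂ)
    (hx : ∀ P : MvPolynomial ι R, eval₂ κ u P = 0 → eval₂ φ x P = 0)
    (Q : MvPolynomial (ι ⊕ Fin r) R)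
    (hQ : ∀ c : Fin r → F, eval₂ κ (Sum.elim u c) Q = 0) (c : Fin r → ℂ) :
    eval₂ φ (Sum.elim x c) Q = 0 := by
  -- the polynomial with coefficients which are polynomials
  let Ψ : MvPolynomial (ι ⊕ Fin r) R →+* MvPolynomial (Fin r) (MvPolynomial ι R) :=
    eval₂Hom (MvPolynomial.C.comp MvPolynomial.C) (Sum.elim (fun i => C (X i)) X)
  have key : ∀ {S : Type} [CommRing S] (κ : R →+* S) (u : ι → S) (c : Fin r → S),
      eval₂ (eval₂Hom κ u) c (Ψ Q) = eval₂ κ (Sum.elim u c) Q := by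
    intro S _ κ u c
    have h : (eval₂Hom (eval₂Hom κ u) c).comp Ψ = eval₂Hom κ (Sum.elim u c) := by
      apply MvPolynomial.ringHom_ext
      · intro a
        simp [Ψ]
      · rintro (i | i)
        · simp [Ψ]
        · simp [Ψ]
    exact RingHom.congr_fun h Q
  have h1 : map (eval₂Hom κ u) (Ψ Q) = 0 := by
    apply MvPolynomial.funext
    intro c
    rw [eval_map, key, hQ, map_zero]
  have h2 : ∀ β, eval₂ κ u (coeff β (Ψ Q)) = 0 := by
    intro β
    have := congrArg (coeff β) h1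
    rw [coeff_map, coeff_zero] at this
    exact this
  have h3 : map (eval₂Hom φ x) (Ψ Q) = 0 := by
    ext β
    rw [coeff_map, coeff_zero]
    exact hx _ (h2 β)
  rw [← key φ x c, ← eval_map, h3, map_zero]

end generic

section bounds

variable {κ : Type}

/-- a bound for the values of a homogeneous polynomial -/
theorem norm_eval_le {d : ℕ} {P : MvPolynomial κ ℂ} (hP : P.IsHomogeneous d) {y : κ → ℂ} {t : ℝ}
    (hy : ∀ i, ‖y i‖ ≤ t) :
    ‖eval y P‖ ≤ (∑ α ∈ P.support, ‖coeff α P‖) * t ^ d := by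
  classical
  rw [eval_eq, Finset.sum_mul]
  refine (norm_sum_le _ _).trans (Finset.sum_le_sum fun α hα => ?_)
  rw [norm_mul]
  refine mul_le_mul_of_nonneg_left ?_ (norm_nonneg _)
  rw [norm_prod]
  have hdeg : α.degree = d := by
    have := hP (mem_support_iff.1 hα)
    rwa [Finsupp.degree_eq_weight_one]
  have h1 : t ^ d = ∏ i ∈ α.support, t ^ α i := by
    rw [Finset.prod_pow_eq_pow_sum, ← hdeg, Finsupp.degree_apply]
  rw [h1]
  refine Finset.prod_le_prod (fun i _ => norm_nonneg _) fun i _ => ?_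
  rw [norm_pow]
  exact pow_le_pow_left₀ (norm_nonneg _) (hy i) _

/-- a bound for the roots of a polynomial -/
theorem root_bound {e : ℕ} (he : 1 ≤ e) {z : ℂ} {b : Fin e → ℂ} {a : Fin e → ℝ} {t : ℝ}
    (ht : 0 < t) (ha : ∀ i, 0 ≤ a i) (hb : ∀ i : Fin e, ‖b i‖ ≤ a i * t ^ (e - (i : ℕ)))
    (h : z ^ e + ∑ i : Fin e, b i * z ^ (i : ℕ) = 0) : ‖z‖ ≤ (1 + ∑ i, a i) * t := by
  by_contra hcon
  rw [not_le] at hcon
  have hA : 0 ≤ ∑ i, a i := Finset.sum_nonneg fun i _ => ha i
  have htz : t ≤ ‖z‖ := by nlinarith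
  have hz : 0 < ‖z‖ := ht.trans_le htz
  have h1 : ‖z‖ ^ e ≤ ∑ i : Fin e, ‖b i‖ * ‖z‖ ^ (i : ℕ) := by
    have h2 : z ^ e = -∑ i : Fin e, b i * z ^ (i : ℕ) := by linear_combination h
    rw [← norm_pow, h2, norm_neg]
    refine (norm_sum_le _ _).trans (le_of_eq ?_)
    exact Finset.sum_congr rfl fun i _ => by rw [norm_mul, norm_pow]
  have h3 : ∀ i : Fin e, ‖b i‖ * ‖z‖ ^ (i : ℕ) ≤ a i * (t * ‖z‖ ^ (e - 1)) := by
    intro i
    have hi : (i : ℕ) < e := i.2
    have h4 : t ^ (e - (i : ℕ)) * ‖z‖ ^ (i : ℕ) ≤ t * ‖z‖ ^ (e - 1) := by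
      have h5 : e - (i : ℕ) = (e - 1 - i) + 1 := by omega
      have h6 : e - 1 = (e - 1 - i) + i := by omega
      rw [h5, pow_succ]
      calc t ^ (e - 1 - (i : ℕ)) * t * ‖z‖ ^ (i : ℕ) =
            t * (t ^ (e - 1 - (i : ℕ)) * ‖z‖ ^ (i : ℕ)) := by ring
        _ ≤ t * (‖z‖ ^ (e - 1 - (i : ℕ)) * ‖z‖ ^ (i : ℕ)) := by
            refine mul_le_mul_of_nonneg_left ?_ ht.le
            exact mul_le_mul_of_nonneg_right (pow_le_pow_left₀ ht.le htz _) (by positivity)
        _ = t * ‖z‖ ^ (e - 1) := by rw [← pow_add, ← h6]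
    calc ‖b i‖ * ‖z‖ ^ (i : ℕ) ≤ a i * t ^ (e - (i : ℕ)) * ‖z‖ ^ (i : ℕ) :=
          mul_le_mul_of_nonneg_right (hb i) (by positivity)
      _ = a i * (t ^ (e - (i : ℕ)) * ‖z‖ ^ (i : ℕ)) := by ring
      _ ≤ _ := mul_le_mul_of_nonneg_left h4 (ha i)
  have h7 : ‖z‖ ^ e ≤ (∑ i, a i) * (t * ‖z‖ ^ (e - 1)) := by
    rw [Finset.sum_mul]
    exact h1.trans (Finset.sum_le_sum fun i _ => h3 i)
  have h8 : ‖z‖ ^ e = ‖z‖ * ‖z‖ ^ (e - 1) := by
    rw [← pow_succ']
    congr 1
    omega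
  rw [h8] at h7
  have h9 : 0 < ‖z‖ ^ (e - 1) := by positivity
  have h10 : ‖z‖ ≤ (∑ i, a i) * t := by
    have : ‖z‖ * ‖z‖ ^ (e - 1) ≤ ((∑ i, a i) * t) * ‖z‖ ^ (e - 1) := by linarith
    exact le_of_mul_le_mul_right this h9
  nlinarith

end bounds

/-- a finitely generated algebra over an algebraically closed field has a point -/
theorem exists_algHom {C B : Type} [Field C] [IsAlgClosed C] [CommRing B] [Nontrivial B]
    [Algebra C B] [Algebra.FiniteType C B] : Nonempty (B →ₐ[C] C) := by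
  obtain ⟨I, hI⟩ := Ideal.exists_maximal B
  let _ : Field (B ⧸ I) := Ideal.Quotient.field I
  have h1 : Algebra.FiniteType C (B ⧸ I) :=
    Algebra.FiniteType.of_surjective (Ideal.Quotient.mkₐ C I) (Ideal.Quotient.mkₐ_surjective C I)
  have h2 : Module.Finite C (B ⧸ I) := finite_of_finite_type_of_isJacobsonRing C (B ⧸ I)
  have h3 : Function.Bijective (algebraMap C (B ⧸ I)) :=
    IsAlgClosed.algebraMap_bijective_of_isIntegral
  exact ⟨((AlgEquiv.ofBijective (Algebra.ofId C (B ⧸ I)) h3).symm.toAlgHom).comp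
    (Ideal.Quotient.mkₐ C I)⟩

end Pool.Agent.H917.G.U6aux

namespace Pool.Agent.H917.G

open U6aux

variable {C M ι : Type} [Field C] [Field M] [Algebra ℂ C] [Algebra C M] [Algebra ℂ M]
  [IsScalarTower ℂ C M] [Fintype ι] {r : ℕ} {J : Set ι} {Y : ι → M} {D : Fin r → Derivation C M M}
  {f : Fin r → Fin r → Fin r → C} {th : ι → Fin r → ι → MvPolynomial ι C} {L : Fin (r + 1) → ι → C}

theorem U6aux.build {R : Type} [CommRing R] (κ : R →+* M) (φ : R →+* ℂ)
    (hφ : Function.Surjective φ) (hκD : ∀ a c, D a (κ c) = 0) (hJ : ∀ j ∈ J, Y j ≠ 0)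
    (th0 : ι → Fin r → ι → MvPolynomial ι R)
    (hvel : ∀ j ∈ J, ∀ a k, D a (Y k / Y j) = eval₂ κ (fun k => Y k / Y j) (th0 j a k))
    (f0 : Fin r → Fin r → Fin r → R)
    (hbrk : ∀ a b (x : M), D a (D b x) - D b (D a x) = ∑ e, κ (f0 a b e) * D e x)
    (m : ι → Fin r → ℕ)
    (q0 : ι → Fin r → ι → MvPolynomial (ι ⊕ Fin r) R)
    (hq : ∀ j ∈ J, ∀ a, ∀ c : Fin r → M, ∑ k, eval₂ κ (Sum.elim (fun k => Y k / Y j) c) (q0 j a k) *
      ∑ b, c b * D b (Y k / Y j) = c a ^ m j a)
    (e1 : ι → ℕ) (he1 : ∀ k, 1 ≤ e1 k) (A1 : ∀ k, Fin (e1 k) → MvPolynomial J R)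
    (hA1 : ∀ k i, (A1 k i).IsHomogeneous (e1 k - i))
    (hA1' : ∀ k, Y k ^ e1 k + ∑ i : Fin (e1 k), eval₂ κ (fun j : J => Y j) (A1 k i) *
      Y k ^ (i : ℕ) = 0)
    (L0 : Fin (r + 1) → ι → R)
    (e2 : ι → ℕ) (he2 : ∀ k, 1 ≤ e2 k) (A2 : ∀ k, Fin (e2 k) → MvPolynomial (Fin (r + 1)) R)
    (hA2 : ∀ k i, (A2 k i).IsHomogeneous (e2 k - i))
    (hA2' : ∀ k, Y k ^ e2 k + ∑ i : Fin (e2 k), eval₂ κ (fun t => ∑ l, κ (L0 t l) * Y l) (A2 k i) *
      Y k ^ (i : ℕ) = 0) [CharZero M] :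
    ∃ E : FD ι r, E.J = J ∧ (∀ j P, P ∈ E.K j ↔ ∃ P0 : MvPolynomial ι R,
      eval₂ κ (fun k => Y k / Y j) P0 = 0 ∧ map φ P0 = P) ∧
      ∀ j a k, E.th j a k = map φ (th0 j a k) := by
  classical
  let K : ι → Ideal (MvPolynomial ι ℂ) := fun j =>
    Ideal.map (map φ) (RingHom.ker (eval₂Hom κ (fun k => Y k / Y j)))
  have hK : ∀ j P, P ∈ K j ↔ ∃ P0 : MvPolynomial ι R,
      eval₂ κ (fun k => Y k / Y j) P0 = 0 ∧ map φ P0 = P := by
    intro j P
    change P ∈ Ideal.map (map φ) (RingHom.ker (eval₂Hom κ (fun k => Y k / Y j))) ↔ _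
    rw [Ideal.mem_map_iff_of_surjective (map φ) (map_surjective φ hφ)]
    rfl
  have tr : ∀ j, ∀ x ∈ Zs (K j), ∀ P : MvPolynomial ι R, eval₂ κ (fun k => Y k / Y j) P = 0 →
      eval₂ φ x P = 0 := by
    intro j x hx P hP
    rw [← eval_map]
    exact hx _ ((hK j _).2 ⟨P, hP, rfl⟩)
  have h1 : ∀ j ∈ J, ∀ x ∈ Zs (K j), x j = 1 := by
    intro j hj x hx
    have := tr j x hx (X j - 1) (by rw [eval₂_sub, eval₂_X, eval₂_one, div_self (hJ j hj), sub_self])
    rw [eval₂_sub, eval₂_X, eval₂_one] at this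
    exact sub_eq_zero.1 this
  -- vector fields
  have hvf : ∀ (θ : ι → MvPolynomial ι R) (P : MvPolynomial ι R),
      vf (fun k => map φ (θ k)) (map φ P) = map φ (∑ k, pderiv k P * θ k) := by
    intro θ P
    induction P using MvPolynomial.induction_on with
    | C a =>
      rw [map_C, vf_C]
      symm
      rw [show (∑ k, pderiv k (MvPolynomial.C a : MvPolynomial ι R) * θ k) = 0 from
        Finset.sum_eq_zero fun k _ => by rw [pderiv_C, zero_mul], map_zero]
    | add p q hp hq =>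
      rw [map_add, map_add, hp, hq, ← map_add, ← Finset.sum_add_distrib]
      congr 1
      exact Finset.sum_congr rfl fun k _ => by rw [map_add, add_mul]
    | mul_X p i hp =>
      rw [map_mul, map_X, Derivation.leibniz, vf_X, hp, smul_eq_mul, smul_eq_mul]
      have h2 : ∑ k, pderiv k (p * X i) * θ k = p * θ i + X i * ∑ k, pderiv k p * θ k := by
        have h3 : ∀ k, pderiv k (p * X i) * θ k =
            (if k = i then p * θ i else 0) + X i * (pderiv k p * θ k) := by
          intro k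
          rw [Derivation.leibniz, smul_eq_mul, smul_eq_mul, pderiv_X]
          by_cases h : k = i
          · subst h
            rw [Pi.single_eq_same, if_pos rfl]
            ring
          · rw [Pi.single_eq_of_ne' h, if_neg h]
            ring
        rw [Finset.sum_congr rfl fun k _ => h3 k, Finset.sum_add_distrib, ← Finset.mul_sum,
          Finset.sum_ite_eq' Finset.univ i, if_pos (Finset.mem_univ i)]
      rw [h2, map_add, map_mul, map_mul, map_X]
  have hvel' : ∀ j ∈ J, ∀ a (P : MvPolynomial ι R),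
      eval₂ κ (fun k => Y k / Y j) (∑ k, pderiv k P * th0 j a k) =
        D a (eval₂ κ (fun k => Y k / Y j) P) := by
    intro j hj a P
    rw [der_eval (D a) κ (hκD a), eval₂_sum]
    refine Finset.sum_congr rfl fun k _ => ?_
    rw [eval₂_mul, hvel j hj]
  -- the fields
  have one : ∀ j ∈ J, X j - 1 ∈ K j := by
    intro j hj
    refine (hK j _).2 ⟨X j - 1, ?_, ?_⟩
    · rw [eval₂_sub, eval₂_X, eval₂_one, div_self (hJ j hj), sub_self]
    · rw [map_sub, map_X, map_one]
  have stab : ∀ j ∈ J, ∀ a, ∀ P ∈ K j, vf (fun k => map φ (th0 j a k)) P ∈ K j := by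
    intro j hj a P hP
    obtain ⟨P0, h0, rfl⟩ := (hK j P).1 hP
    rw [hvf]
    refine (hK j _).2 ⟨_, ?_, rfl⟩
    rw [hvel' j hj, h0, map_zero]
  have brk : ∀ j ∈ J, ∀ a b k, vf (fun k => map φ (th0 j a k)) (map φ (th0 j b k)) -
      vf (fun k => map φ (th0 j b k)) (map φ (th0 j a k)) -
      ∑ e, MvPolynomial.C (φ (f0 a b e)) * map φ (th0 j e k) ∈ K j := by
    intro j hj a b k
    refine (hK j _).2 ⟨(∑ l, pderiv l (th0 j b k) * th0 j a l) -
      (∑ l, pderiv l (th0 j a k) * th0 j b l) - ∑ e, MvPolynomial.C (f0 a b e) * th0 j e k, ?_, ?_⟩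
    · rw [eval₂_sub, eval₂_sub, hvel' j hj, hvel' j hj, ← hvel j hj, ← hvel j hj, hbrk, eval₂_sum,
        sub_eq_zero]
      refine Finset.sum_congr rfl fun e _ => ?_
      rw [eval₂_mul, eval₂_C, hvel j hj]
    · rw [map_sub, map_sub, hvf, hvf, map_sum (map φ) (fun e => MvPolynomial.C (f0 a b e) * th0 j e k)]
      congr 1
      refine Finset.sum_congr rfl fun e _ => ?_
      rw [map_mul, map_C]
  have trans : ∀ j ∈ J, ∀ j' ∈ J, ∀ x ∈ Zs (K j), x j' ≠ 0 →
      (fun k => x k / x j') ∈ Zs (K j') ∧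
      ∀ a k, eval (fun k => x k / x j') (map φ (th0 j' a k)) * x j' ^ 2 =
      eval x (map φ (th0 j a k)) * x j' - x k * eval x (map φ (th0 j a j')) := by
    intro j hj j' hj' x hx hxj'
    have hYj := hJ j hj
    have hYj' := hJ j' hj'
    have hu : (fun k => Y k / Y j) j' ≠ 0 := div_ne_zero hYj' hYj
    have huu : (fun k => (fun k => Y k / Y j) k / (fun k => Y k / Y j) j') =
        fun k => Y k / Y j' := by
      funext k
      field_simp
    have hz' : ∀ P : MvPolynomial ι R, eval₂ κ (fun k => Y k / Y j) (hz j' P.totalDegree P) =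
        (Y j' / Y j) ^ P.totalDegree * eval₂ κ (fun k => Y k / Y j') P := by
      intro P
      have h := eval₂_hz κ (fun k => Y k / Y j) (j := j') hu (P := P) le_rfl
      rw [huu] at h
      exact h
    refine ⟨?_, ?_⟩
    · intro P hP
      obtain ⟨P0, h0, rfl⟩ := (hK j' P).1 hP
      have h2 : eval₂ κ (fun k => Y k / Y j) (hz j' P0.totalDegree P0) = 0 := by
        rw [hz', h0, mul_zero]
      have h3 := tr j x hx _ h2
      rw [eval₂_hz φ x hxj' le_rfl] at h3
      rw [eval_map]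
      exact (mul_eq_zero.1 h3).resolve_left (pow_ne_zero _ hxj')
    · intro a k
      have h2 : eval₂ κ (fun k => Y k / Y j)
          (hz j' (th0 j' a k).totalDegree (th0 j' a k) * X j' ^ 2 -
            X j' ^ (th0 j' a k).totalDegree * (th0 j a k * X j' - X k * th0 j a j')) = 0 := by
        have h3 : D a (Y k / Y j') * (Y j' / Y j) ^ 2 =
            D a (Y k / Y j) * (Y j' / Y j) - Y k / Y j * D a (Y j' / Y j) := by
          have h4 : Y k / Y j = (Y k / Y j') * (Y j' / Y j) := by field_simp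
          have h5 := congrArg (D a) h4
          rw [Derivation.leibniz, smul_eq_mul, smul_eq_mul] at h5
          rw [h5]
          field_simp
          ring
        rw [eval₂_sub, eval₂_mul, eval₂_mul, eval₂_pow, eval₂_pow, eval₂_X, eval₂_sub, eval₂_mul,
          eval₂_mul, eval₂_X, eval₂_X, hz', ← hvel j' hj', ← hvel j hj,
          ← hvel j hj]
        linear_combination (Y j' / Y j) ^ (th0 j' a k).totalDegree * h3
      have h3 := tr j x hx _ h2
      rw [eval₂_sub, eval₂_mul, eval₂_mul, eval₂_pow, eval₂_pow, eval₂_X, eval₂_sub, eval₂_mul,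
        eval₂_mul, eval₂_X, eval₂_X, eval₂_hz φ _ hxj' le_rfl] at h3
      rw [eval_map, eval_map, eval_map]
      have h4 : x j' ^ (th0 j' a k).totalDegree ≠ 0 := pow_ne_zero _ hxj'
      apply mul_left_cancel₀ h4
      linear_combination h3
  have ndg : ∀ j ∈ J, ∀ x ∈ Zs (K j), ∀ c : Fin r → ℂ,
      (∀ k, eval x (cmb (fun a k => map φ (th0 j a k)) c k) = 0) → c = 0 := by
    intro j hj x hx c hc
    funext a
    have h2 := eval_transfer κ φ (fun k => Y k / Y j) x (tr j x hx)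
      (∑ k, q0 j a k * ∑ b, X (Sum.inr b) * rename Sum.inl (th0 j b k) - X (Sum.inr a) ^ m j a)
      (by
        intro c
        rw [eval₂_sub, eval₂_sum, eval₂_pow, eval₂_X, Sum.elim_inr, sub_eq_zero, ← hq j hj a c]
        refine Finset.sum_congr rfl fun k _ => ?_
        rw [eval₂_mul, eval₂_sum]
        congr 1
        refine Finset.sum_congr rfl fun b _ => ?_
        rw [eval₂_mul, eval₂_X, Sum.elim_inr, eval₂_rename, Sum.elim_comp_inl, hvel j hj]) c
    rw [eval₂_sub, eval₂_sum, eval₂_pow, eval₂_X, Sum.elim_inr] at h2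
    have h3 : ∀ k, eval₂ φ (Sum.elim x c) (q0 j a k * ∑ b, X (Sum.inr b) *
        rename Sum.inl (th0 j b k)) = 0 := by
      intro k
      rw [eval₂_mul, eval₂_sum]
      have h4 : ∑ b, eval₂ φ (Sum.elim x c) (X (Sum.inr b) * rename Sum.inl (th0 j b k)) =
          eval x (cmb (fun a k => map φ (th0 j a k)) c k) := by
        rw [cmb, map_sum]
        refine Finset.sum_congr rfl fun b _ => ?_
        rw [eval₂_mul, eval₂_X, Sum.elim_inr, eval₂_rename, Sum.elim_comp_inl, map_mul, eval_C,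
          eval_map]
      rw [h4, hc, mul_zero]
    rw [Finset.sum_eq_zero fun k _ => h3 k, zero_sub, neg_eq_zero] at h2
    exact eq_zero_of_pow_eq_zero h2
  have fin : ∀ k, ∃ e : ℕ, 1 ≤ e ∧ ∃ A : Fin e → MvPolynomial (Fin (r + 1)) ℂ,
      (∀ i, (A i).IsHomogeneous (e - i)) ∧ ∀ j ∈ J, ∀ x ∈ Zs (K j),
      x k ^ e + ∑ i : Fin e, eval (fun t => ∑ l, φ (L0 t l) * x l) (A i) * x k ^ (i : ℕ) = 0 := by
    intro k
    refine ⟨e2 k, he2 k, fun i => map φ (A2 k i), fun i => (hA2 k i).map φ, ?_⟩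
    intro j hj x hx
    have h2 := hom_div κ _ (s := Y j) (hA2 k) (hA2' k)
    have hval : ∀ {S : Type} [CommRing S] (ψ : R →+* S) (u : ι → S),
        eval₂ ψ u (X k ^ e2 k + ∑ i : Fin (e2 k),
          bind₁ (fun t => ∑ l, MvPolynomial.C (L0 t l) * X l) (A2 k i) * X k ^ (i : ℕ)) =
        u k ^ e2 k + ∑ i : Fin (e2 k), eval₂ ψ (fun t => ∑ l, ψ (L0 t l) * u l) (A2 k i) *
          u k ^ (i : ℕ) := by
      intro S _ ψ u
      rw [eval₂_add, eval₂_pow, eval₂_X, eval₂_sum]
      congr 1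
      refine Finset.sum_congr rfl fun i _ => ?_
      rw [eval₂_mul, eval₂_pow, eval₂_X]
      congr 1
      have h3 := eval₂Hom_bind₁ ψ u (fun t => ∑ l, MvPolynomial.C (L0 t l) * X l) (A2 k i)
      have h4 : (fun t => eval₂Hom ψ u (∑ l, MvPolynomial.C (L0 t l) * X l)) =
          fun t => ∑ l, ψ (L0 t l) * u l := by
        funext t
        rw [map_sum]
        refine Finset.sum_congr rfl fun l _ => ?_
        rw [map_mul, eval₂Hom_C, eval₂Hom_X']
      rw [h4] at h3
      exact h3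
    have h3 := tr j x hx _ (by
      rw [hval κ (fun k => Y k / Y j)]
      have h4 : (fun t => ∑ l, κ (L0 t l) * (Y l / Y j)) =
          fun t => (∑ l, κ (L0 t l) * Y l) / Y j := by
        funext t
        rw [Finset.sum_div]
        exact Finset.sum_congr rfl fun l _ => (mul_div_assoc _ _ _).symm
      rw [h4]
      exact h2)
    rw [hval φ x] at h3
    simpa only [eval_map] using h3
  let ρ : ℝ := 1 + ∑ k, ∑ i : Fin (e1 k), ∑ α ∈ (map φ (A1 k i)).support,
    ‖coeff α (map φ (A1 k i))‖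
  have hρ : 1 ≤ ρ := by
    have : 0 ≤ ∑ k, ∑ i : Fin (e1 k), ∑ α ∈ (map φ (A1 k i)).support,
        ‖coeff α (map φ (A1 k i))‖ := by positivity
    change 1 ≤ 1 + _
    linarith
  have cov : ∀ j ∈ J, ∀ x ∈ Zs (K j), ∃ j' ∈ J, x j' ≠ 0 ∧ ∀ k, ‖x k‖ ≤ ρ * ‖x j'‖ := by
    intro j hj x hx
    obtain ⟨j', hj', hmax⟩ := Set.exists_max_image J (fun i => ‖x i‖) (Set.toFinite J) ⟨j, hj⟩
    have ht : 1 ≤ ‖x j'‖ := by
      have := hmax j hj
      rw [h1 j hj x hx, norm_one] at this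
      exact this
    refine ⟨j', hj', ?_, ?_⟩
    · intro h0
      rw [h0, norm_zero] at ht
      linarith
    · intro k
      have h2 := hom_div κ _ (s := Y j) (hA1 k) (hA1' k)
      have hval : ∀ {S : Type} [CommRing S] (ψ : R →+* S) (u : ι → S),
          eval₂ ψ u (X k ^ e1 k + ∑ i : Fin (e1 k),
            rename (fun j : J => (j : ι)) (A1 k i) * X k ^ (i : ℕ)) =
          u k ^ e1 k + ∑ i : Fin (e1 k), eval₂ ψ (fun j : J => u j) (A1 k i) *
            u k ^ (i : ℕ) := by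
        intro S _ ψ u
        rw [eval₂_add, eval₂_pow, eval₂_X, eval₂_sum]
        congr 1
        refine Finset.sum_congr rfl fun i _ => ?_
        rw [eval₂_mul, eval₂_pow, eval₂_X, eval₂_rename]
        rfl
      have h3 := tr j x hx _ (by
        rw [hval κ (fun k => Y k / Y j)]
        exact h2)
      rw [hval φ x] at h3
      have h4 := root_bound (he1 k) (t := ‖x j'‖) (by linarith)
        (a := fun i => ∑ α ∈ (map φ (A1 k i)).support, ‖coeff α (map φ (A1 k i))‖)
        (fun i => by positivity) (fun i => by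
          have h5 := norm_eval_le ((hA1 k i).map φ) (y := fun j : J => x j) (t := ‖x j'‖)
            (fun i => hmax i i.2)
          rw [eval_map] at h5
          exact h5) h3
      refine h4.trans (mul_le_mul_of_nonneg_right ?_ (norm_nonneg _))
      have h6 := Finset.single_le_sum (f := fun k => ∑ i : Fin (e1 k),
        ∑ α ∈ (map φ (A1 k i)).support, ‖coeff α (map φ (A1 k i))‖)
        (fun k _ => by positivity) (Finset.mem_univ k)
      change 1 + _ ≤ 1 + _
      linarith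
  exact ⟨{
    J := J
    K := K
    th := fun j a k => map φ (th0 j a k)
    f := fun a b e => φ (f0 a b e)
    ρ := ρ
    L := fun t l => φ (L0 t l)
    hρ := hρ
    one := one
    stab := stab
    brk := brk
    trans := trans
    ndg := ndg
    cov := cov
    fin := fin }, rfl, hK, fun _ _ _ => rfl⟩

theorem AD.spec (h : AD J Y D f th L) {j0 : ι} (hj0 : j0 ∈ J) {G : MvPolynomial ι ℂ}
    (hG : aeval (fun k => Y k / Y j0) G ≠ 0) :
    ∃ E : FD ι r, E.J = J ∧ (∃ x0 ∈ Zs (E.K j0), eval x0 G ≠ 0) ∧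
      (∀ j ∈ J, ∀ H : MvPolynomial ι ℂ, aeval (fun k => Y k / Y j) H = 0 → H ∈ E.K j) ∧
      ∀ j ∈ J, ∀ a k, ∀ H : MvPolynomial ι ℂ,
        D a (Y k / Y j) = aeval (fun k => Y k / Y j) H → E.th j a k - H ∈ E.K j := by
  classical
  have hcz : CharZero M := charZero_of_injective_algebraMap (algebraMap ℂ M).injective
  have hndg := h.ndg
  choose! m hm q hq using hndg
  have hcov : ∀ k, ∃ e : ℕ, 1 ≤ e ∧ ∃ A : Fin e → MvPolynomial J C,
    (∀ i, (A i).IsHomogeneous (e - i)) ∧
    Y k ^ e + ∑ i : Fin e, aeval (fun j : J => Y j) (A i) * Y k ^ (i : ℕ) = 0 := h.cov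
  choose e1 he1 A1 hA1 hA1' using hcov
  have hfin : ∀ k, ∃ e : ℕ, 1 ≤ e ∧ ∃ A : Fin e → MvPolynomial (Fin (r + 1)) C,
    (∀ i, (A i).IsHomogeneous (e - i)) ∧
    Y k ^ e + ∑ i : Fin e, aeval (fun t => ∑ l, algebraMap C M (L t l) * Y l) (A i) *
      Y k ^ (i : ℕ) = 0 := h.fin
  choose e2 he2 A2 hA2 hA2' using hfin
  -- the coefficients
  obtain ⟨Gc, hGc⟩ : ∃ Gc : Set C, Gc =
      (⋃ j : ι, ⋃ a : Fin r, ⋃ k : ι, ((th j a k).coeffs : Set C)) ∪
      (⋃ a : Fin r, ⋃ b : Fin r, Set.range (f a b)) ∪ (⋃ t : Fin (r + 1), Set.range (L t)) ∪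
      (⋃ j : ι, ⋃ a : Fin r, ⋃ k : ι, ((q j a k).coeffs : Set C)) ∪
      (⋃ k : ι, ⋃ i : Fin (e1 k), ((A1 k i).coeffs : Set C)) ∪
      (⋃ k : ι, ⋃ i : Fin (e2 k), ((A2 k i).coeffs : Set C)) := ⟨_, rfl⟩
  have hGcf : Gc.Finite := by
    rw [hGc]
    refine Set.Finite.union (Set.Finite.union (Set.Finite.union (Set.Finite.union
      (Set.Finite.union ?_ ?_) ?_) ?_) ?_) ?_
    · exact Set.finite_iUnion fun j => Set.finite_iUnion fun a => Set.finite_iUnion fun k =>
        Finset.finite_toSet _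
    · exact Set.finite_iUnion fun j => Set.finite_iUnion fun a => Set.finite_range _
    · exact Set.finite_iUnion fun j => Set.finite_range _
    · exact Set.finite_iUnion fun j => Set.finite_iUnion fun a => Set.finite_iUnion fun k =>
        Finset.finite_toSet _
    · exact Set.finite_iUnion fun j => Set.finite_iUnion fun a => Finset.finite_toSet _
    · exact Set.finite_iUnion fun j => Set.finite_iUnion fun a => Finset.finite_toSet _
  obtain ⟨g, hg⟩ : ∃ g : M, g = aeval (fun k => Y k / Y j0) G := ⟨_, rfl⟩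
  have hg0 : g ≠ 0 := by rw [hg]; exact hG
  obtain ⟨Gm, hGm⟩ : ∃ Gm : Set M, Gm = (algebraMap C M '' Gc) ∪
      (Set.range fun k => Y k / Y j0) ∪ {g⁻¹} := ⟨_, rfl⟩
  have hGmf : Gm.Finite := by
    rw [hGm]
    exact ((hGcf.image _).union (Set.finite_range _)).union (Set.finite_singleton _)
  obtain ⟨B, hB⟩ : ∃ B : Subalgebra ℂ M, B = Algebra.adjoin ℂ Gm := ⟨_, rfl⟩
  have hBf : Algebra.FiniteType ℂ B := by
    rw [← Subalgebra.fg_iff_finiteType, hB]
    have h1 := Subalgebra.fg_adjoin_finset (R := ℂ) hGmf.toFinset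
    rwa [Set.Finite.coe_toFinset] at h1
  have hGB : ∀ x ∈ Gm, x ∈ B := fun x hx => by
    rw [hB]
    exact Algebra.subset_adjoin hx
  obtain ⟨ω⟩ := exists_algHom (C := ℂ) (B := B)
  obtain ⟨R, hR⟩ : ∃ R : Subalgebra ℂ C, R = B.comap (IsScalarTower.toAlgHom ℂ C M) := ⟨_, rfl⟩
  have hRB' : ∀ c ∈ R, algebraMap C M c ∈ B := by
    rw [hR]
    exact fun c hc => hc
  have hRB : ∀ c : R, algebraMap C M c ∈ B := fun c => hRB' c c.2
  have hGR : ∀ c ∈ Gc, c ∈ R := by
    intro c hc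
    rw [hR]
    change algebraMap C M c ∈ B
    exact hGB _ (by rw [hGm]; exact Or.inl (Or.inl ⟨c, hc, rfl⟩))
  let τ : R →ₐ[ℂ] B := ((IsScalarTower.toAlgHom ℂ C M).comp R.val).codRestrict B hRB
  let φ : R →ₐ[ℂ] ℂ := ω.comp τ
  let κ : R →+* M := (algebraMap C M).comp (R.val : R →+* C)
  have hκD : ∀ a c, D a (κ c) = 0 := fun a c => Derivation.map_algebraMap _ _
  have hτκ : ∀ c : R, ((τ c : B) : M) = κ c := fun c => rfl
  -- lifting polynomials
  have lift : ∀ {σ : Type} (P : MvPolynomial σ C), (∀ c ∈ P.coeffs, c ∈ Gc) →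
      ∃ P0 : MvPolynomial σ R, map (R.val : R →+* C) P0 = P := by
    intro σ P hP
    have h1 : P ∈ Set.range (MvPolynomial.map (σ := σ) (R.val : R →+* C)) := by
      rw [mem_range_map_iff_coeffs_subset]
      intro x hx
      exact ⟨⟨x, hGR x (hP x hx)⟩, rfl⟩
    exact h1
  have ev : ∀ {σ : Type} (P : MvPolynomial σ R) (u : σ → M),
      eval₂ κ u P = aeval u (map (R.val : R →+* C) P) := by
    intro σ P u
    rw [aeval_def, eval₂_map]
  have hth : ∀ j a k, ∃ P0 : MvPolynomial ι R, map (R.val : R →+* C) P0 = th j a k := by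
    intro j a k
    refine lift _ fun c hc => ?_
    rw [hGc]
    exact Or.inl (Or.inl (Or.inl (Or.inl (Or.inl (Set.mem_iUnion.2 ⟨j, Set.mem_iUnion.2 ⟨a,
      Set.mem_iUnion.2 ⟨k, hc⟩⟩⟩)))))
  choose th0 hth0 using hth
  have hf : ∀ a b e, f a b e ∈ R := by
    intro a b e
    refine hGR _ ?_
    rw [hGc]
    exact Or.inl (Or.inl (Or.inl (Or.inl (Or.inr (Set.mem_iUnion.2 ⟨a, Set.mem_iUnion.2 ⟨b,
      ⟨e, rfl⟩⟩⟩)))))
  have hL : ∀ t l, L t l ∈ R := by
    intro t l
    refine hGR _ ?_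
    rw [hGc]
    exact Or.inl (Or.inl (Or.inl (Or.inr (Set.mem_iUnion.2 ⟨t, ⟨l, rfl⟩⟩))))
  have hq' : ∀ j a k, ∃ P0 : MvPolynomial (ι ⊕ Fin r) R, map (R.val : R →+* C) P0 = q j a k := by
    intro j a k
    refine lift _ fun c hc => ?_
    rw [hGc]
    exact Or.inl (Or.inl (Or.inr (Set.mem_iUnion.2 ⟨j, Set.mem_iUnion.2 ⟨a,
      Set.mem_iUnion.2 ⟨k, hc⟩⟩⟩)))
  choose q0 hq0 using hq'
  have hA1'' : ∀ k i, ∃ P0 : MvPolynomial J R, map (R.val : R →+* C) P0 = A1 k i := by
    intro k i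
    refine lift _ fun c hc => ?_
    rw [hGc]
    exact Or.inl (Or.inr (Set.mem_iUnion.2 ⟨k, Set.mem_iUnion.2 ⟨i, hc⟩⟩))
  choose A10 hA10 using hA1''
  have hA2'' : ∀ k i, ∃ P0 : MvPolynomial (Fin (r + 1)) R, map (R.val : R →+* C) P0 = A2 k i := by
    intro k i
    refine lift _ fun c hc => ?_
    rw [hGc]
    exact Or.inr (Set.mem_iUnion.2 ⟨k, Set.mem_iUnion.2 ⟨i, hc⟩⟩)
  choose A20 hA20 using hA2''
  have hinj : Function.Injective (R.val : R →+* C) := Subtype.val_injective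
  have hφs : Function.Surjective (φ : R →+* ℂ) := fun z => ⟨algebraMap ℂ R z, φ.commutes z⟩
  obtain ⟨E, hEJ, hEK, hEth⟩ := U6aux.build (D := D) κ (φ : R →+* ℂ) hφs hκD h.ne th0
    (by
      intro j hj a k
      rw [ev, hth0, h.vel j hj])
    (fun a b e => ⟨f a b e, hf a b e⟩) (fun a b x => h.brk a b x) m q0
    (by
      intro j hj a c
      rw [← hq j hj a c]
      refine Finset.sum_congr rfl fun k _ => ?_
      rw [ev, hq0])
    e1 he1 A10 (fun k i => IsHomogeneous.of_map hinj (by rw [hA10]; exact hA1 k i))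
    (by
      intro k
      rw [← hA1' k]
      congr 1
      refine Finset.sum_congr rfl fun i _ => ?_
      rw [ev, hA10])
    (fun t l => ⟨L t l, hL t l⟩)
    e2 he2 A20 (fun k i => IsHomogeneous.of_map hinj (by rw [hA20]; exact hA2 k i))
    (by
      intro k
      rw [← hA2' k]
      congr 1
      refine Finset.sum_congr rfl fun i _ => ?_
      rw [ev, hA20]
      rfl)
  -- polynomials with complex coefficients
  have hcx : ∀ (u : ι → M) (H : MvPolynomial ι ℂ),
      eval₂ κ u (map (algebraMap ℂ R) H) = aeval u H := by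
    intro u H
    rw [eval₂_map, aeval_def]
    congr 1
    ext z
    · change algebraMap C M ((algebraMap ℂ R z : R) : C) = algebraMap ℂ M z
      rw [IsScalarTower.algebraMap_apply ℂ C M]
      rfl
  have hcx' : ∀ H : MvPolynomial ι ℂ, map (φ : R →+* ℂ) (map (algebraMap ℂ R) H) = H := by
    intro H
    rw [map_map]
    have : (φ : R →+* ℂ).comp (algebraMap ℂ R) = RingHom.id ℂ := by
      ext z
      exact φ.commutes z
    rw [this, map_id]
  refine ⟨E, hEJ, ?_, ?_, ?_⟩
  · -- the point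
    let yB : ι → B := fun k => ⟨Y k / Y j0, hGB _ (by rw [hGm]; exact Or.inl (Or.inr ⟨k, rfl⟩))⟩
    refine ⟨fun k => ω (yB k), ?_, ?_⟩
    · intro P hP
      obtain ⟨P0, h0, rfl⟩ := (hEK j0 P).1 hP
      rw [eval_map]
      have h1 : eval₂ (φ : R →+* ℂ) (fun k => ω (yB k)) P0 =
          ω (eval₂ (τ : R →+* B) yB P0) := by
        have := MvPolynomial.hom_eval₂ P0 (τ : R →+* B) (ω : B →+* ℂ) yB
        exact this.symm
      have h2 : ((eval₂ (τ : R →+* B) yB P0 : B) : M) = eval₂ κ (fun k => Y k / Y j0) P0 := by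
        have := MvPolynomial.hom_eval₂ P0 (τ : R →+* B) (B.val : B →+* M) yB
        exact this
      have h3 : eval₂ (τ : R →+* B) yB P0 = 0 := by
        apply Subtype.val_injective
        rw [h2, h0]
        rfl
      rw [h1, h3, map_zero]
    · have h1 : eval (fun k => ω (yB k)) G = ω (aeval yB G) := by
        have := MvPolynomial.hom_eval₂ G (algebraMap ℂ B) (ω : B →+* ℂ) yB
        rw [aeval_def]
        change _ = (ω : B →+* ℂ) _
        rw [this]
        have h2 : (ω : B →+* ℂ).comp (algebraMap ℂ B) = RingHom.id ℂ := by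
          ext z
          exact ω.commutes z
        rw [h2]
        rfl
      have h2 : ((aeval yB G : B) : M) = g := by
        have := MvPolynomial.hom_eval₂ G (algebraMap ℂ B) (B.val : B →+* M) yB
        rw [hg, aeval_def, aeval_def]
        exact this
      have h3 : aeval yB G * (⟨g⁻¹, hGB _ (by rw [hGm]; exact Or.inr rfl)⟩ : B) = 1 := by
        apply Subtype.val_injective
        change ((aeval yB G : B) : M) * g⁻¹ = 1
        rw [h2, mul_inv_cancel₀ hg0]
      rw [h1]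
      intro h4
      have h5 := congrArg ω h3
      rw [map_mul, h4, zero_mul, map_one] at h5
      exact zero_ne_one h5
  · intro j hj H hH
    exact (hEK j H).2 ⟨map (algebraMap ℂ R) H, by rw [hcx, hH], hcx' H⟩
  · intro j hj a k H hH
    refine (hEK j _).2 ⟨th0 j a k - map (algebraMap ℂ R) H, ?_, ?_⟩
    · rw [eval₂_sub, hcx, ← hH, ev, hth0, h.vel j hj, sub_self]
    · rw [map_sub, hcx', hEth]

end Pool.Agent.H917.G
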