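import Pool.Agent.H917.G.G0

/-!
# PROJECT TORI: definitions for the final statements
-/

set_option autoImplicit false
set_option linter.overlappingInstances false
set_option linter.unusedSectionVars false

open Filter Topology Set

namespace Pool.Agent.H917.G

/-- The map from `U` to the projective space with the vector `f z` of homogeneous coordinates is
holomorphic: locally it has a holomorphic vector of homogeneous coordinates. -/
def HolMap {g N : ℕ} (U : Set (Fin g → ℂ)) (f : (Fin g → ℂ) → Fin N → ℂ) : Prop :=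
  ∀ z0 ∈ U, ∃ h : (Fin g → ℂ) → Fin N → ℂ, h z0 ≠ 0 ∧
    ∀ᶠ z in 𝓝 z0, DifferentiableAt ℂ h z ∧ PE (f z) (h z)

/-- `Λ` is a lattice in `ℂ^g`, and the complex torus `ℂ^g / Λ` is an abelian variety: it has a
holomorphic embedding (an injective immersion) `θ` in a projective space. -/
structure IsAb {g : ℕ} (Λ : AddSubgroup (Fin g → ℂ)) : Prop where
  disc : ∃ ε > 0, ∀ l ∈ Λ, ‖l‖ < ε → l = 0
  cocp : ∃ B : ℝ, ∀ z : Fin g → ℂ, ∃ l ∈ Λ, ‖z - l‖ ≤ B
  emb : ∃ (N : ℕ) (θ : (Fin g → ℂ) → Fin (N + 1) → ℂ), (∀ z w, PE (θ z) (θ w) ↔ z - w ∈ Λ) ∧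
    ∀ z0, ∃ h : (Fin g → ℂ) → Fin (N + 1) → ℂ, h z0 ≠ 0 ∧
      (∀ᶠ z in 𝓝 z0, DifferentiableAt ℂ h z ∧ PE (θ z) (h z)) ∧
      ∀ (v : Fin g → ℂ) (c : ℂ), fderiv ℂ h z0 v = c • h z0 → v = 0

end Pool.Agent.H917.G
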