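import Pool.Agent.H917.G.V0
import Pool.Agent.H917.G.T15
import Pool.Agent.H917.G.U5
import Pool.Agent.H917.G.U6

/-!
# PROJECT TORI (helper917), task V1: abelian varieties through general points

## Paper proof of `SF.torus`

Let `Y = YY y D` (see `G/U0.lean`), `AD (JJ r y) Y D f th L` by `SF.ad` (U5). Choose `i0` with `y i0 ≠ 0`, `j0 = inl (i0, i0)`, and
`G' = rename (fun i => inl (i, i0)) G`, so `aeval (Y / Y j0) G' = aeval (fun i => y i / y i0) G = (y i0)^{-d} aeval y G ≠ 0` (`G` is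
homogeneous of degree `d`). Apply `AD.spec` (U6): `E : FD (Ix n r) r`, `x0`; then `FD.torus` (T15): `Λ`, `Φ`.
By the third property of `AD.spec` every polynomial relation with coefficients in `ℂ` between the `Y k / Y (inl (j, j))`, `y j ≠ 0`,
holds at all `x ∈ Zs (E.K (inl (j, j)))`; for example (with `x_{ik} = x (inl (i, k))`, `x_{ikb} = x (inr (i, k, b))`)
`x_{jj} = 1`, `x_{ik} = x_{ij} x_{kj}`, `x_{ikb} = x_{ij} x_{jkb} - x_{kj} x_{jib}`, and `H(x_{0j}, …, x_{nj}) = 0` if `H` is homogeneous and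
`aeval y H = 0`. In homogeneous form, for each vector `x` which is `PE` to such a vector: `x_{ij'} x_{kj} = x_{ij} x_{kj'}` for all
`i, k, j, j'`, and `x_{jj'}² = x_{jj} x_{j'j'}`; so if `x_{jj} ≠ 0` and `x_{j'j'} ≠ 0` the vectors `(x_{ij})_i` and `(x_{ij'})_i` are `PE`.
For each `z` choose `j(z)` with `Φ z (inl (j(z), j(z))) ≠ 0` (exists by the last property in `FD.torus`: the `j`-coordinate of `g z` is
`1`) and let `f z i = Φ z (inl (i, j(z)))`.
* If `g` is a local representative of `Φ` near `z0` in the chart `inl (j, j)`, then `h z i = g z (inl (i, j))` is a local representative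
  of `f` (`h z j = 1`). So `f` is a `HolMap`, and it satisfies the equations `H`.
* `PE (Φ z) (Φ w)` implies `PE (f z) (f w)`: periodicity. `eval (f 0) G ≠ 0`, as `eval x0 G' ≠ 0`, i.e. `G((x0_{i i0})_i) ≠ 0`, and `f 0` is `PE` to
  `(x0_{i i0})_i`.
* Nonconstant: suppose `PE (f z) (f w)` for all `z, w`. Let `g`, `j` be as above for `z0 = 0`; `h z i = g z (inl (i, j))` is constant near
  `0`, as `h z j = 1`. So the `inl (i, j)`-components of the derivative `vel (E.th (inl (j, j))) (g z)` of `g` vanish for all `i`. By the fourth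
  property of `AD.spec` (`D_a(Y (inl (i, j)) / Y (inl (j, j))) = D_a(y_i / y_j) = Y (inr (j, i, a)) / Y (inl (j, j))`) the
  `inl (i, j)`-component of `vel .. e_a` is `g z (inr (j, i, a))`. So `g z (inr (j, i, a)) = 0` near `0`, and by the relations above all
  components of `g` are constant near `0`, the derivative `vel .. ` of `g` at `0` vanishes, which contradicts `FD.ndg` for `c = e_a` (`r ≥ 1`).
* `IsAb Λ`: `θ = Φ` with the index set `Ix n r` numbered (`Fintype.equivFinOfCardEq`/`Fintype.equivFin`; it has at least one element, write its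
  cardinality as `N + 1`); for the immersion take `h = g` numbered: if
  `vel (th j) (g z0) v = c • g z0`, the `j`-component of the left-hand side is the derivative of the constant `1`
  (`g z j = 1` near `z0`), so `c = 0` and `v = 0` by `FD.ndg`.
-/

set_option autoImplicit false
set_option linter.overlappingInstances false
set_option linter.unusedSectionVars false

open MvPolynomial Filter Topology Set

namespace Pool.Agent.H917.G

namespace V1aux

theorem hom_scale {κ : Type} [Fintype κ] {A : Type} [CommRing A] [Algebra ℂ A]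
    {G : MvPolynomial κ ℂ} {d : ℕ} (hG : G.IsHomogeneous d) (c : A) (y : κ → A) :
    aeval (fun i => c * y i) G = c ^ d * aeval y G := by
  rw [aeval_def, aeval_def, eval₂_eq', eval₂_eq', Finset.mul_sum]
  refine Finset.sum_congr rfl fun m hm => ?_
  have h1 : ∑ i, m i = d := by
    have h2 := hG (mem_support_iff.1 hm)
    rw [Finsupp.weight_apply, Finsupp.sum_fintype _ _ (fun i => by simp)] at h2
    simpa using h2
  simp only [mul_pow, Finset.prod_mul_distrib, Finset.prod_pow_eq_pow_sum, h1]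
  ring

theorem hom_eval {κ : Type} [Fintype κ] {G : MvPolynomial κ ℂ} {d : ℕ} (hG : G.IsHomogeneous d)
    {x y : κ → ℂ} (h : PE x y) : eval x G = 0 ↔ eval y G = 0 := by
  obtain ⟨c, hc, h⟩ := h
  have h1 := hom_scale hG c y
  have h2 : (fun i => c * y i) = x := funext fun i => (h i).symm
  rw [h2] at h1
  have h3 : ∀ z : κ → ℂ, aeval z G = eval z G := fun z => by
    rw [MvPolynomial.aeval_eq_eval]
  rw [h3, h3] at h1
  rw [h1, mul_eq_zero]
  simp [hc]

theorem pe_sq {κ : Type} {u u' : κ → ℂ} {c c' : ℂ} (hc : c ≠ 0) (hc' : c' ≠ 0) (hu : u ≠ 0)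
    (h : ∀ i k, c * (u i * u k) = c' * (u' i * u' k)) : PE u u' := by
  obtain ⟨k, hk⟩ := Function.ne_iff.1 hu
  have hk : u k ≠ 0 := hk
  have hk' : u' k ≠ 0 := by
    intro h0
    have := h k k
    rw [h0, mul_zero, mul_zero] at this
    exact (mul_ne_zero hc (mul_ne_zero hk hk)) this
  refine ⟨c' * u' k / (c * u k), div_ne_zero (mul_ne_zero hc' hk') (mul_ne_zero hc hk),
    fun i => ?_⟩
  have h1 := h i k
  field_simp
  linear_combination h1

section rel

variable {n r : ℕ} {C M : Type} [Field C] [Field M] [Algebra ℂ C]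
  [Algebra C M] [Algebra ℂ M] [IsScalarTower ℂ C M] {y : Fin (n + 1) → M}
  {D : Fin r → Derivation C M M}

/-- the relations between the coordinates of the states in the chart `j` -/
structure Rl (y : Fin (n + 1) → M) (j : Fin (n + 1)) (x : Ix n r → ℂ) : Prop where
  one : x (Sum.inl (j, j)) = 1
  r2 : ∀ i k, x (Sum.inl (i, k)) = x (Sum.inl (i, j)) * x (Sum.inl (k, j))
  r3 : ∀ i k b, x (Sum.inr (i, k, b)) = x (Sum.inl (i, j)) * x (Sum.inr (j, k, b)) -
    x (Sum.inl (k, j)) * x (Sum.inr (j, i, b))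
  r4 : ∀ H : MvPolynomial (Fin (n + 1)) ℂ, (∃ d, H.IsHomogeneous d) → aeval y H = 0 →
    eval (fun i => x (Sum.inl (i, j))) H = 0

theorem rl_of {j : Fin (n + 1)} (hj : y j ≠ 0) {x : Ix n r → ℂ}
    (hx : ∀ H : MvPolynomial (Ix n r) ℂ,
      aeval (fun k => YY y D k / YY y D (Sum.inl (j, j))) H = 0 → eval x H = 0) :
    Rl y j x := by
  have hjj : YY y D (Sum.inl (j, j)) = y j * y j := rfl
  have hy : ∀ i k, YY y D (Sum.inl (i, k)) = y i * y k := fun _ _ => rfl
  have hz : ∀ i k b, YY y D (Sum.inr (i, k, b)) = y i * D b (y k) - y k * D b (y i) :=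
    fun _ _ _ => rfl
  refine ⟨?_, fun i k => ?_, fun i k b => ?_, fun H ⟨d, hH⟩ h0 => ?_⟩
  · have h1 := hx (X (Sum.inl (j, j)) - 1) (by
      rw [map_sub, aeval_X, map_one, hy, div_self (mul_ne_zero hj hj), sub_self])
    rw [map_sub, eval_X, map_one] at h1
    exact sub_eq_zero.1 h1
  · have h1 := hx (X (Sum.inl (i, k)) - X (Sum.inl (i, j)) * X (Sum.inl (k, j))) (by
      rw [map_sub, map_mul, aeval_X, aeval_X, aeval_X, hy, hy, hy, hy]
      field_simp
      ring)
    rw [map_sub, map_mul, eval_X, eval_X, eval_X] at h1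
    exact sub_eq_zero.1 h1
  · have h1 := hx (X (Sum.inr (i, k, b)) - (X (Sum.inl (i, j)) * X (Sum.inr (j, k, b)) -
        X (Sum.inl (k, j)) * X (Sum.inr (j, i, b)))) (by
      simp only [map_sub, map_mul, aeval_X, hy, hz]
      field_simp
      ring)
    simp only [map_sub, map_mul, eval_X] at h1
    exact sub_eq_zero.1 h1
  · have h1 := hx (rename (fun i => Sum.inl (i, j)) H) (by
      rw [aeval_rename]
      have h2 : ((fun k => YY y D k / YY y D (Sum.inl (j, j))) ∘ fun i => Sum.inl (i, j)) =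
          fun i => (y j)⁻¹ * y i := by
        funext i
        simp only [Function.comp_apply, hy]
        field_simp
      rw [h2, hom_scale hH, h0, mul_zero])
    rw [eval_rename] at h1
    exact h1

end rel

end V1aux

variable {n r N m' : ℕ} {C M : Type} [Field C] [CharZero C] [IsAlgClosed C] [Field M] [Algebra ℂ C]
  [Algebra C M] [Algebra ℂ M] [IsScalarTower ℂ C M] {y : Fin (n + 1) → M}
  {D : Fin r → Derivation C M M} {T : Fin N → MvPolynomial (Fin r) C}

theorem SF.torus (h : SF m' y D T) (htr : Algebra.trdeg C M ≤ r) (hr : 1 ≤ r)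
    {G : MvPolynomial (Fin (n + 1)) ℂ} (hG : ∃ d, G.IsHomogeneous d) (hGy : aeval y G ≠ 0) :
    ∃ (Λ : AddSubgroup (Fin r → ℂ)) (f : (Fin r → ℂ) → Fin (n + 1) → ℂ), IsAb Λ ∧
      HolMap univ f ∧ (∀ z, ∀ l ∈ Λ, PE (f (z + l)) (f z)) ∧
      (∀ z, f z ≠ 0 ∧ ∀ H : MvPolynomial (Fin (n + 1)) ℂ, (∃ d, H.IsHomogeneous d) →
        aeval y H = 0 → eval (f z) H = 0) ∧
      (∃ z w, ¬ PE (f z) (f w)) ∧ eval (f 0) G ≠ 0 := by
  classical
  obtain ⟨f, th, L, hAD⟩ := h.ad htr
  obtain ⟨i0, hi0⟩ := Function.ne_iff.1 h.ne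
  have hi0 : y i0 ≠ 0 := hi0
  have hj0 : (Sum.inl (i0, i0) : Ix n r) ∈ JJ r y := ⟨i0, hi0, rfl⟩
  obtain ⟨d, hGd⟩ := hG
  have hG' : aeval (fun k => YY y D k / YY y D (Sum.inl (i0, i0)))
      (rename (fun i => (Sum.inl (i, i0) : Ix n r)) G) ≠ 0 := by
    rw [aeval_rename]
    have h2 : ((fun k => YY y D k / YY y D (Sum.inl (i0, i0))) ∘
        fun i => (Sum.inl (i, i0) : Ix n r)) = fun i => (y i0)⁻¹ * y i := by
      funext i
      show y i * y i0 / (y i0 * y i0) = _
      field_simp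
    rw [h2, V1aux.hom_scale hGd]
    exact mul_ne_zero (pow_ne_zero _ (inv_ne_zero hi0)) hGy
  obtain ⟨E, hEJ, ⟨x0, hx0, hGx0⟩, hrel, hvel⟩ := hAD.spec hj0 hG'
  have hj0' : (Sum.inl (i0, i0) : Ix n r) ∈ E.J := by rw [hEJ]; exact hj0
  obtain ⟨Λ, Φ, hdisc, hcocp, hper, hΦ0, hloc⟩ := E.torus hj0' hx0
  -- the relations
  have hR : ∀ j, y j ≠ 0 → ∀ x ∈ Zs (E.K (Sum.inl (j, j))), V1aux.Rl y j x := fun j hj x hx =>
    V1aux.rl_of (D := D) hj fun H hH => hx H (hrel _ ⟨j, hj, rfl⟩ H hH)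
  have hV : ∀ j, y j ≠ 0 → ∀ x ∈ Zs (E.K (Sum.inl (j, j))), ∀ a i,
      eval x (E.th (Sum.inl (j, j)) a (Sum.inl (i, j))) = x (Sum.inr (j, i, a)) := by
    intro j hj x hx a i
    have h1 := hvel (Sum.inl (j, j)) ⟨j, hj, rfl⟩ a (Sum.inl (i, j)) (X (Sum.inr (j, i, a))) (by
      rw [aeval_X]
      show D a (y i * y j / (y j * y j)) = (y j * D a (y i) - y i * D a (y j)) / (y j * y j)
      rw [mul_div_mul_right _ _ hj, Derivation.leibniz_div]
      simp only [smul_eq_mul]
      field_simp)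
    have h2 := hx _ h1
    rw [map_sub, eval_X] at h2
    exact sub_eq_zero.1 h2
  -- the local representatives
  have hl : ∀ z0, ∃ j, y j ≠ 0 ∧ ∃ g : (Fin r → ℂ) → Ix n r → ℂ, ∀ᶠ z in 𝓝 z0,
      g z ∈ Zs (E.K (Sum.inl (j, j))) ∧ PE (Φ z) (g z) ∧
        HasFDerivAt g (vel (E.th (Sum.inl (j, j))) (g z)) z := by
    intro z0
    obtain ⟨J', hJ', g, hg⟩ := hloc z0
    rw [hEJ] at hJ'
    obtain ⟨j, hj, rfl⟩ := hJ'
    exact ⟨j, hj, g, hg⟩
  have hsq : ∀ z, ∃ u : Fin (n + 1) → ℂ, u ≠ 0 ∧ ∃ c : ℂ, c ≠ 0 ∧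
      ∀ i k, Φ z (Sum.inl (i, k)) = c * (u i * u k) := by
    intro z
    obtain ⟨j, hj, g, hg⟩ := hl z
    obtain ⟨h1, ⟨c, hc, h2⟩, -⟩ := hg.self_of_nhds
    have h3 := hR j hj _ h1
    refine ⟨fun i => g z (Sum.inl (i, j)), fun h0 => ?_, c, hc, fun i k => ?_⟩
    · have h4 := congrFun h0 j
      simp only [h3.one] at h4
      exact one_ne_zero h4
    · rw [h2, h3.r2]
  choose u hu0 c hc hu using hsq
  have hpe : ∀ (z : Fin r → ℂ) (j : Fin (n + 1)) (x : Ix n r → ℂ), V1aux.Rl y j x →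
      PE (Φ z) x → PE (u z) (fun i => x (Sum.inl (i, j))) := by
    intro z j x hx ⟨c', hc', h1⟩
    refine V1aux.pe_sq (hc z) hc' (hu0 z) fun i k => ?_
    rw [← hu, h1, hx.r2]
  have hdiff : ∀ {g : (Fin r → ℂ) → Ix n r → ℂ} {z : Fin r → ℂ}
      {G' : (Fin r → ℂ) →L[ℂ] (Ix n r → ℂ)}, HasFDerivAt g G' z → ∀ k : Ix n r,
      HasFDerivAt (fun z => g z k) ((ContinuousLinearMap.proj k).comp G') z := by
    intro g z G' hg k
    exact (hasFDerivAt_pi'.1 hg) k
  refine ⟨Λ, u, ⟨hdisc, hcocp, ?_⟩, ?_, ?_, ?_, ?_, ?_⟩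
  · -- the embedding
    obtain ⟨N', hN'⟩ : ∃ N', Fintype.card (Ix n r) = N' + 1 :=
      Nat.exists_eq_succ_of_ne_zero (@Fintype.card_ne_zero _ _ ⟨Sum.inl (i0, i0)⟩)
    let e : Fin (N' + 1) ≃ Ix n r := (Fintype.equivFinOfCardEq hN').symm
    refine ⟨N', fun z k => Φ z (e k), fun z w => ?_, fun z0 => ?_⟩
    · rw [← hper]
      constructor
      · rintro ⟨c', hc', h1⟩
        refine ⟨c', hc', fun k => ?_⟩
        have h2 : Φ z (e (e.symm k)) = c' * Φ w (e (e.symm k)) := h1 (e.symm k)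
        rwa [e.apply_symm_apply] at h2
      · rintro ⟨c', hc', h1⟩
        exact ⟨c', hc', fun k => h1 _⟩
    · obtain ⟨j, hj, g, hg⟩ := hl z0
      have hg1 : ∀ᶠ z in 𝓝 z0, g z (Sum.inl (j, j)) = 1 := by
        filter_upwards [hg] with z hz
        exact (hR j hj _ hz.1).one
      have hg0 := hg.self_of_nhds
      refine ⟨fun z k => g z (e k), fun h0 => ?_, ?_, fun v c' hv => ?_⟩
      · have h1 := congrFun h0 (e.symm (Sum.inl (j, j)))
        simp only [e.apply_symm_apply, hg1.self_of_nhds] at h1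
        exact one_ne_zero h1
      · filter_upwards [hg] with z hz
        refine ⟨?_, ?_⟩
        · exact differentiableAt_pi.2 fun k => (hdiff hz.2.2 (e k)).differentiableAt
        · obtain ⟨c', hc', h1⟩ := hz.2.1
          exact ⟨c', hc', fun k => h1 _⟩
      · have hd : HasFDerivAt (fun z k => g z (e k)) (ContinuousLinearMap.pi fun k =>
            (ContinuousLinearMap.proj (e k)).comp (vel (E.th (Sum.inl (j, j))) (g z0))) z0 :=
          hasFDerivAt_pi.2 fun k => hdiff hg0.2.2 (e k)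
        rw [hd.fderiv] at hv
        have hv' : ∀ k, vel (E.th (Sum.inl (j, j))) (g z0) v k = c' * g z0 k := by
          intro k
          have h1 := congrFun hv (e.symm k)
          simpa using h1
        have h0 : c' = 0 := by
          have h1 := hv' (Sum.inl (j, j))
          have h2 : HasFDerivAt (fun z => g z (Sum.inl (j, j))) (0 : (Fin r → ℂ) →L[ℂ] ℂ) z0 :=
            (hasFDerivAt_const (1 : ℂ) z0).congr_of_eventuallyEq hg1
          have h3 := (hdiff hg0.2.2 (Sum.inl (j, j))).unique h2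
          have h4 := congrArg (fun l : (Fin r → ℂ) →L[ℂ] ℂ => l v) h3
          simp only [ContinuousLinearMap.comp_apply, ContinuousLinearMap.proj_apply,
            _root_.zero_apply] at h4
          rw [h4, hg1.self_of_nhds, mul_one] at h1
          exact h1.symm
        refine E.ndg _ (by rw [hEJ]; exact ⟨j, hj, rfl⟩) _ hg0.1 v fun k => ?_
        rw [← vel_apply, hv', h0, zero_mul]
  · -- holomorphic
    intro z0 _
    obtain ⟨j, hj, g, hg⟩ := hl z0
    refine ⟨fun z i => g z (Sum.inl (i, j)), fun h0 => ?_, ?_⟩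
    · have h4 := congrFun h0 j
      simp only [(hR j hj _ hg.self_of_nhds.1).one] at h4
      exact one_ne_zero h4
    · filter_upwards [hg] with z hz
      exact ⟨differentiableAt_pi.2 fun k => (hdiff hz.2.2 _).differentiableAt,
        hpe z j _ (hR j hj _ hz.1) hz.2.1⟩
  · -- periodic
    intro z l hl'
    obtain ⟨c', hc', h1⟩ := (hper (z + l) z).2 (by rwa [add_sub_cancel_left])
    refine V1aux.pe_sq (hc (z + l)) (mul_ne_zero hc' (hc z)) (hu0 (z + l)) fun i k => ?_
    rw [← hu, h1, hu]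
    ring
  · -- equations
    intro z
    refine ⟨hu0 z, fun H hH h0 => ?_⟩
    obtain ⟨j, hj, g, hg⟩ := hl z
    have h1 := hg.self_of_nhds
    have h2 := hR j hj _ h1.1
    obtain ⟨d', hH'⟩ := hH
    exact (V1aux.hom_eval hH' (hpe z j _ h2 h1.2.1)).2 (h2.r4 H ⟨d', hH'⟩ h0)
  · -- not constant
    by_contra hcon
    push Not at hcon
    obtain ⟨j, hj, g, hg⟩ := hl 0
    have hjJ : (Sum.inl (j, j) : Ix n r) ∈ E.J := by rw [hEJ]; exact ⟨j, hj, rfl⟩
    have hg0 := hg.self_of_nhds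
    have hR0 := hR j hj _ hg0.1
    have hcs : ∀ᶠ z in 𝓝 (0 : Fin r → ℂ), ∀ i, g z (Sum.inl (i, j)) = g 0 (Sum.inl (i, j)) := by
      filter_upwards [hg] with z hz
      have hRz := hR j hj _ hz.1
      obtain ⟨c', hc', h1⟩ := ((hpe z j _ hRz hz.2.1).symm.trans (hcon z 0)).trans
        (hpe 0 j _ hR0 hg0.2.1)
      have h2 : c' = 1 := by
        have h3 := h1 j
        simp only [hRz.one, hR0.one, mul_one] at h3
        exact h3.symm
      intro i
      have h3 := h1 i
      rwa [h2, one_mul] at h3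
    have hin : ∀ᶠ z in 𝓝 (0 : Fin r → ℂ), ∀ i a, g z (Sum.inr (j, i, a)) = 0 := by
      filter_upwards [hg, hcs.eventually_nhds] with z hz hz2 i a
      have h2 : HasFDerivAt (fun z => g z (Sum.inl (i, j))) (0 : (Fin r → ℂ) →L[ℂ] ℂ) z :=
        (hasFDerivAt_const (g 0 (Sum.inl (i, j))) z).congr_of_eventuallyEq
          (hz2.mono fun w hw => hw i)
      have h3 := (hdiff hz.2.2 (Sum.inl (i, j))).unique h2
      have h4 := congrArg (fun l : (Fin r → ℂ) →L[ℂ] ℂ => l (Pi.single a 1)) h3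
      simp only [ContinuousLinearMap.comp_apply, ContinuousLinearMap.proj_apply,
        _root_.zero_apply] at h4
      rw [vel_apply, cmb, map_sum, Finset.sum_eq_single a] at h4
      · rw [Pi.single_eq_same, map_mul, eval_C, one_mul, hV j hj _ hz.1] at h4
        exact h4
      · intro b _ hb
        rw [Pi.single_eq_of_ne hb, C_0, zero_mul, map_zero]
      · intro hb
        exact absurd (Finset.mem_univ a) hb
    have hc2 : ∀ᶠ z in 𝓝 (0 : Fin r → ℂ), g z = g 0 := by
      filter_upwards [hg, hcs, hin] with z hz h1 h2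
      have hRz := hR j hj _ hz.1
      have h20 := hin.self_of_nhds
      funext k
      rcases k with ⟨i, k⟩ | ⟨i, k, b⟩
      · rw [hRz.r2, hR0.r2, h1, h1]
      · rw [hRz.r3, hR0.r3, h2, h2, h20, h20]
        simp
    have h5 : HasFDerivAt g (0 : (Fin r → ℂ) →L[ℂ] (Ix n r → ℂ)) 0 :=
      (hasFDerivAt_const (g 0) 0).congr_of_eventuallyEq hc2
    have h6 := hg0.2.2.unique h5
    have h7 := E.ndg _ hjJ _ hg0.1 (Pi.single (⟨0, hr⟩ : Fin r) 1) fun k => by
      rw [← vel_apply, h6]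
      rfl
    have h8 := congrFun h7 ⟨0, hr⟩
    rw [Pi.single_eq_same] at h8
    exact one_ne_zero h8
  · -- the open condition
    intro h0
    have h1 := hR i0 hi0 x0 hx0
    have h2 := (V1aux.hom_eval hGd (hpe 0 i0 _ h1 hΦ0)).1 h0
    apply hGx0
    rw [eval_rename]
    exact h2

end Pool.Agent.H917.G
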