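import Pool.Agent.H917.F3
import Pool.Agent.H917.G.U3
import Pool.Agent.H917.G.V1
import Pool.Agent.H917.G.M1

/-!
The special sets defined by abelian varieties and by meromorphic maps.
-/

set_option autoImplicit false
set_option linter.overlappingInstances false
set_option linter.unusedSectionVars false

open MvPolynomial Metric Set MeasureTheory

namespace Pool.Agent.H917

open Pool.Agent.W602.GT (IsForm GeneralType coords)
open Pool.Agent.TH143.GT (FunField)
open G (HolMap IsAb PE)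

variable {n : ℕ} {p : Ideal (MvPolynomial (Fin (n + 1)) ℂ)}

/-- The Zariski closure of the union of the images of the nonconstant holomorphic maps from abelian
varieties to the projective variety with the ideal `p`. -/
def SpAb (p : Ideal (MvPolynomial (Fin (n + 1)) ℂ)) : Set (Fin (n + 1) → ℂ) :=
  {x | x ∈ Pts p ∧ ∀ G : MvPolynomial (Fin (n + 1)) ℂ, (∃ d, G.IsHomogeneous d) →
    (∀ (g : ℕ) (Λ : AddSubgroup (Fin g → ℂ)) (f : (Fin g → ℂ) → Fin (n + 1) → ℂ), IsAb Λ →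
      HolMap univ f → (∀ z, ∀ l ∈ Λ, PE (f (z + l)) (f z)) → (∀ z, f z ∈ Pts p) →
      (∃ z w, ¬ PE (f z) (f w)) → ∀ z, eval (f z) G = 0) → eval x G = 0}

/-- The Zariski closure of the union of the images of the nonconstant holomorphic maps to the
projective variety with the ideal `p` which are defined on the complement of a closed subset of
`ℂ^g` whose `(2g-2)`-dimensional Hausdorff measure is zero (for example of an analytic subset of
codimension at least two). -/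
def SpMer (p : Ideal (MvPolynomial (Fin (n + 1)) ℂ)) : Set (Fin (n + 1) → ℂ) :=
  {x | x ∈ Pts p ∧ ∀ G : MvPolynomial (Fin (n + 1)) ℂ, (∃ d, G.IsHomogeneous d) →
    (∀ (g : ℕ) (Z : Set (Fin g → ℂ)) (f : (Fin g → ℂ) → Fin (n + 1) → ℂ), IsClosed Z →
      μH[2 * (g : ℝ) - 2] Z = 0 → HolMap Zᶜ f → (∀ z ∉ Z, f z ∈ Pts p) →
      (∃ z ∉ Z, ∃ w ∉ Z, ¬ PE (f z) (f w)) → ∀ z ∉ Z, eval (f z) G = 0) → eval x G = 0}

theorem spAb_sub_spMer (p : Ideal (MvPolynomial (Fin (n + 1)) ℂ)) : SpAb p ⊆ SpMer p := by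
  intro x hx
  refine ⟨hx.1, fun G hG h => hx.2 G hG fun g Λ f _ hf _ hP hnc z => ?_⟩
  refine h g ∅ f isClosed_empty measure_empty ?_ (fun z _ => hP z) ?_ z (Set.notMem_empty z)
  · rw [Set.compl_empty]
    exact hf
  · obtain ⟨z, w, hzw⟩ := hnc
    exact ⟨z, Set.notMem_empty z, w, Set.notMem_empty w, hzw⟩

theorem pts_of_pe (hp : Pool.Agent.W603.PV.IsHomog p) {x y : Fin (n + 1) → ℂ} (h : PE x y)
    (hy : y ∈ Pts p) : x ∈ Pts p := by
  obtain ⟨c, hc, h⟩ := h
  have h1 : x = fun i => c * y i := funext h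
  refine ⟨fun h0 => hy.1 ?_, fun H hH => ?_⟩
  · funext i
    have h2 := congrFun h0 i
    rw [h i] at h2
    exact (mul_eq_zero.1 h2).resolve_left hc
  · rw [← sum_homogeneousComponent H, map_sum]
    refine Finset.sum_eq_zero fun k _ => ?_
    rw [h1, ← ae, aeval_smul_homog _ _ (homogeneousComponent_isHomogeneous k H), ae,
      hy.2 _ (hp H hH k), mul_zero]

theorem spMer_sub_spH (hp : Pool.Agent.W603.PV.IsHomog p) : SpMer p ⊆ SpH p := by
  intro x hx
  refine ⟨hx.1, fun G hG hcur => hx.2 G hG fun g Z f hZc hZ hf hP hnc z0 hz0 => ?_⟩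
  by_contra hG0
  obtain ⟨h, hd, hne, him, ⟨s, t, hst⟩, t0, ht0⟩ := H917.G.mer_curve hZc hZ hf hnc hG hz0 hG0
  refine ht0 (hcur h ⟨hd, fun t => ?_, s, t, fun c hc => ?_⟩ t0)
  · obtain ⟨w, hw, hw'⟩ := him t
    exact pts_of_pe hp hw' (hP w hw)
  · rcases eq_or_ne c 0 with hc0 | hc0
    · rw [hc0, zero_smul] at hc
      exact hne s hc
    · exact hst ⟨c, hc0, fun i => by rw [hc]; rfl⟩

/-- **Abelian varieties through general points of subvarieties which are not of general type.** -/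
theorem ab_of_ngt (hp : Pool.Agent.W603.PV.IsHomog p) {m' N : ℕ}
    {s : Fin N → SymDiff p (m' + 1)} (hs : Gens p (m' + 1) s) {K : Type} [Field K] [Algebra ℂ K]
    {w : ℕ} {y : Fin (n + 1) → K} (hw : 1 ≤ w) (hy : SubVar p K w y) (hngt : ¬ GeneralType ℂ K w)
    {G : MvPolynomial (Fin (n + 1)) ℂ} (hG : ∃ k, G.IsHomogeneous k) (hGy : aeval y G ≠ 0) :
    ∃ (g : ℕ) (Λ : AddSubgroup (Fin g → ℂ)) (f : (Fin g → ℂ) → Fin (n + 1) → ℂ), IsAb Λ ∧
      HolMap univ f ∧ (∀ z, ∀ l ∈ Λ, PE (f (z + l)) (f z)) ∧ (∀ z, f z ∈ Pts p) ∧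
      (∃ z w, ¬ PE (f z) (f w)) ∧ eval (f 0) G ≠ 0 := by
  obtain ⟨C, _, _, _, _, _, _, r, D, T, hr, htr, hSF⟩ := H917.G.frames (M := AlgebraicClosure K) hp hs
    hw hy.ne hy.mem hy.gen hy.dim hngt
  have hmemM : ∀ H : MvPolynomial (Fin (n + 1)) ℂ,
      aeval (fun i => algebraMap K (AlgebraicClosure K) (y i)) H =
        algebraMap K (AlgebraicClosure K) (aeval y H) := by
    intro H
    have h1 := aeval_algebraMap_apply (A := K) (AlgebraicClosure K) y H
    have h2 : (algebraMap K (AlgebraicClosure K) ∘ y) =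
      fun i => algebraMap K (AlgebraicClosure K) (y i) := rfl
    rw [← h2, h1]
  obtain ⟨Λ, f, h1, h2, h3, h4, h5, h6⟩ := hSF.torus htr hr hG (by
    rw [hmemM]
    exact fun h => hGy ((map_eq_zero _).1 h))
  refine ⟨r, Λ, f, h1, h2, h3, fun z => ⟨(h4 z).1, fun H hH => ?_⟩, h5, h6⟩
  rw [← sum_homogeneousComponent H, map_sum]
  refine Finset.sum_eq_zero fun k _ => ?_
  refine (h4 z).2 _ ⟨k, homogeneousComponent_isHomogeneous k H⟩ ?_
  rw [hmemM, hy.mem _ (hp H hH k), map_zero]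

theorem spAlg_sub_spAb (hp : Pool.Agent.W603.PV.IsHomog p) {m N : ℕ} {s : Fin N → SymDiff p m}
    (hs : Gens p m s) (hm : 1 ≤ m) : SpAlg p ⊆ SpAb p := by
  obtain ⟨m', rfl⟩ := Nat.exists_eq_add_of_le' hm
  intro x hx
  refine ⟨hx.1, fun G hG hcur => hx.2 G hG fun K _ _ w y hw hy hngt => ?_⟩
  by_contra hGy
  obtain ⟨g, Λ, f, h1, h2, h3, h4, h5, h6⟩ := ab_of_ngt hp hs hw hy hngt hG hGy
  exact h6 (hcur g Λ f h1 h2 h3 h4 h5 0)

/-- **The special sets coincide.** -/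
theorem spAb_eq (hp : Pool.Agent.W603.PV.IsHomog p) {m N : ℕ} {s : Fin N → SymDiff p m}
    (hs : Gens p m s) (hm : 1 ≤ m) : SpAb p = SpAlg p ∧ SpMer p = SpAlg p := by
  have h1 := spAlg_sub_spAb hp hs hm
  have h2 := spAb_sub_spMer p
  have h3 := (spMer_sub_spH hp).trans (spH_sub hp hs hm)
  exact ⟨(h2.trans h3).antisymm h1, h3.antisymm (h1.trans h2)⟩

end Pool.Agent.H917
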