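import Pool.Agent.H917.G.W1

/-!
The exceptional set of a variety of general type with generating symmetric differentials.
-/

set_option autoImplicit false
set_option linter.overlappingInstances false
set_option linter.unusedSectionVars false

open MvPolynomial Metric Set MeasureTheory

namespace Pool.Agent.H917

open Pool.Agent.W602.GT (IsForm GeneralType coords)
open G (HolMap IsAb PE)

variable {n : ℕ} {p : Ideal (MvPolynomial (Fin (n + 1)) ℂ)}

/-- A subvariety of a finite union of closed subsets is contained in one of them. -/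
theorem sub_of_union {S : Finset (Ideal (MvPolynomial (Fin (n + 1)) ℂ))}
    (hS : ∀ r ∈ S, Pool.Agent.W603.PV.IsHomog r) {q : Ideal (MvPolynomial (Fin (n + 1)) ℂ)}
    (hq : Pool.Agent.W603.PV.IsHomog q) {K : Type} [Field K] [Algebra ℂ K] {w : ℕ}
    {y : Fin (n + 1) → K} (hy : SubVar q K w y)
    (hf : ∀ H : MvPolynomial (Fin (n + 1)) ℂ, (∃ d, H.IsHomogeneous d) → aeval y H = 0 → H ∈ q)
    (h : ∀ x ∈ Pts q, ∃ r ∈ S, x ∈ Pts r) : ∃ r ∈ S, ∀ H ∈ r, aeval y H = 0 := by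
  classical
  by_contra hcon
  push Not at hcon
  have h1 : ∀ r ∈ S, ∃ H ∈ r, ∃ d, H.IsHomogeneous d ∧ aeval y H ≠ 0 := by
    intro r hr
    obtain ⟨H, hH, hHy⟩ := hcon r hr
    have h2 : ∃ d, aeval y (homogeneousComponent d H) ≠ 0 := by
      by_contra h3
      push Not at h3
      apply hHy
      rw [← sum_homogeneousComponent H, map_sum]
      exact Finset.sum_eq_zero fun d _ => h3 d
    obtain ⟨d, hd⟩ := h2
    exact ⟨_, hS r hr H hH d, d, homogeneousComponent_isHomogeneous d H, hd⟩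
  choose! H hH d hd hHy using h1
  have hqp := isPrime_of_subVar hq hy hf
  obtain ⟨j, hj⟩ := X_notMem hy
  have h2 : ∏ r ∈ S, H r ∉ q := by
    intro h3
    have h4 := hy.mem _ h3
    rw [map_prod, Finset.prod_eq_zero_iff] at h4
    obtain ⟨r, hr, h5⟩ := h4
    exact hHy r hr h5
  obtain ⟨x, hx, hxH⟩ := exists_pt hqp hj h2
  obtain ⟨r, hr, hxr⟩ := h x hx
  rw [map_prod, Finset.prod_ne_zero_iff] at hxH
  exact hxH r hr (hxr.2 _ (hH r hr))

/-- **The exceptional set of a variety of general type.** -/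
theorem strongly (hpp : p.IsPrime) (hp : Pool.Agent.W603.PV.IsHomog p) {m N : ℕ}
    {s : Fin N → SymDiff p m} (hs : Gens p m s) (hm : 1 ≤ m) {K : Type} [Field K] [Algebra ℂ K]
    {w : ℕ} {y : Fin (n + 1) → K} (hy : SubVar p K w y)
    (hf : ∀ H : MvPolynomial (Fin (n + 1)) ℂ, (∃ d, H.IsHomogeneous d) → aeval y H = 0 → H ∈ p)
    (hGT : GeneralType ℂ K w) :
    ∃ S : Finset (Ideal (MvPolynomial (Fin (n + 1)) ℂ)),
      (∀ r ∈ S, p < r ∧ r.IsPrime ∧ Pool.Agent.W603.PV.IsHomog r ∧ NotGT r) ∧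
      (∀ (F : Type) [Field F] [Algebra ℂ F] (d : ℕ) (x : Fin (n + 1) → F), 1 ≤ d →
        SubVar p F d x → ¬ GeneralType ℂ F d → ∃ r ∈ S, ∀ H ∈ r, aeval x H = 0) ∧
      SpAlg p = {x | ∃ r ∈ S, x ∈ Pts r} := by
  obtain ⟨S, h3, h4⟩ := spAlg_eq hp hs hm
  have hne : SpAlg p ≠ Pts p := ((tfae_gt hpp hp hs hm hy hf).out 0 1).1 hGT
  refine ⟨S, fun r hr => ?_, fun F _ _ d x hd hx hngt => ?_, h4⟩
  · obtain ⟨h5, h6, h7⟩ := h3 r hr
    refine ⟨lt_of_le_of_ne h5 fun h8 => hne ?_, h7.isPrime h6, h6, h7⟩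
    subst h8
    exact Subset.antisymm (fun x hx => hx.1) (pts_sub_spAlg h7)
  · obtain ⟨q, hpq, hq, hxq, hqf⟩ := exists_ideal hp hx
    refine sub_of_union (fun r hr => (h3 r hr).2.1) hq hxq hqf fun z hz => ?_
    have h5 := spAlg_mono hpq (pts_sub_spAlg ⟨F, inferInstance, inferInstance, d, x, hd, hxq, hqf,
      hngt⟩ hz)
    rw [h4] at h5
    exact h5

end Pool.Agent.H917
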