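import Pool.Agent.H917.G.H8
import Pool.Agent.H917.G.K13
import Pool.Agent.H917.G.W2

/-!
The algebraic notions of hyperbolicity.
-/

set_option autoImplicit false
set_option linter.overlappingInstances false
set_option linter.unusedSectionVars false

open MvPolynomial Metric Set FF Pool.Agent.W603.LV Pool.Agent.W603.PV
open Pool.Agent.W602.GT (IsForm GeneralType val VarPts)
open Pool.Agent.W602.RG (HasValue PointedMaps)
open Pool.Agent.Y216 (OnVar canDeg_ratFunc)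
open scoped LinearAlgebra.Projectivization

namespace Pool.Agent.H917

variable {n : ℕ} {p : Ideal (MvPolynomial (Fin (n + 1)) ℂ)}

/-- The degrees of the morphisms from smooth projective curves to the projective variety with the
ideal `q`, whose image is not contained in `G = 0`, are bounded linearly in the genus of the
curve. -/
def LinBound (q : Ideal (MvPolynomial (Fin (n + 1)) ℂ)) (G : MvPolynomial (Fin (n + 1)) ℂ) : Prop :=
  ∃ B : ℕ, ∀ (F : Type) [Field F] [Algebra ℂ F] [IsFF ℂ F] (x : Fin (n + 1) → F), x ≠ 0 →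
    (∀ H ∈ q, aeval x H = 0) → aeval x G ≠ 0 → pht ℂ x ≤ B * max (canDeg ℂ F) 0

/-- The degrees of the morphisms from every smooth projective curve to the projective variety with
the ideal `q`, whose image is not contained in `G = 0`, are bounded. -/
def Bounded (q : Ideal (MvPolynomial (Fin (n + 1)) ℂ)) (G : MvPolynomial (Fin (n + 1)) ℂ) : Prop :=
  ∀ (F : Type) [Field F] [Algebra ℂ F] [IsFF ℂ F], ∃ B : ℤ, ∀ x : Fin (n + 1) → F, x ≠ 0 →
    (∀ H ∈ q, aeval x H = 0) → aeval x G ≠ 0 → pht ℂ x ≤ B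

/-- For every pointed curve `(C, c)` and every point `x` of the projective variety with the ideal
`q`, outside of `G = 0`, there are only finitely many morphisms from `C` to the variety which map
`c` to `x`. -/
def PointedFin (q : Ideal (MvPolynomial (Fin (n + 1)) ℂ)) (G : MvPolynomial (Fin (n + 1)) ℂ) :
    Prop :=
  ∀ (F : Type) [Field F] [Algebra ℂ F] [IsFF ℂ F] (c : Place ℂ F), ∀ x ∈ Pts q, eval x G ≠ 0 →
    (PMaps q c x).Finite

/-- infinitely many pointed maps to an irreducible component -/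
theorem exists_prime_inf {L : Type} [Field L] [Algebra ℂ L] {c : Place ℂ L}
    {x : Fin (n + 1) → ℂ} :
    ∀ I : Ideal (MvPolynomial (Fin (n + 1)) ℂ), Pool.Agent.W603.PV.IsHomog I →
      (PMaps I c x).Infinite → ∃ q : Ideal (MvPolynomial (Fin (n + 1)) ℂ), I ≤ q ∧
        Pool.Agent.W603.PV.IsHomog q ∧ q.IsPrime ∧ (PMaps q c x).Infinite := by
  classical
  intro I
  induction I using WellFoundedGT.induction with
  | ind I ih =>
  intro hI hinf
  have hltsup : ∀ A, A ∉ I → I < I ⊔ Ideal.span {A} := by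
    intro A hA
    refine lt_of_le_of_ne le_sup_left fun h => hA ?_
    rw [h]
    exact Ideal.mem_sup_right (Ideal.mem_span_singleton_self A)
  by_cases hAB : ∀ A B : MvPolynomial (Fin (n + 1)) ℂ, (∃ d, A.IsHomogeneous d) →
      (∃ d, B.IsHomogeneous d) → A * B ∈ I → A ∈ I ∨ B ∈ I
  · refine ⟨I, le_rfl, hI, isPrime_of_forms hI ?_ hAB, hinf⟩
    rintro rfl
    obtain ⟨φ, f, hf, h1, -⟩ := hinf.nonempty
    have h2 := h1 1 Submodule.mem_top
    rw [map_one] at h2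
    exact one_ne_zero h2
  · push Not at hAB
    obtain ⟨A, C, hA, hC, hAC, hAI, hCI⟩ := hAB
    have hsub : PMaps I c x ⊆ PMaps (I ⊔ Ideal.span {A}) c x ∪ PMaps (I ⊔ Ideal.span {C}) c x := by
      rintro φ ⟨f, hf, h1, h2, h3⟩
      have h4 := h1 _ hAC
      rw [map_mul, mul_eq_zero] at h4
      rcases h4 with h4 | h4
      · exact Or.inl ⟨f, hf, H6aux_sup h1 h4, h2, h3⟩
      · exact Or.inr ⟨f, hf, H6aux_sup h1 h4, h2, h3⟩
    rcases Set.infinite_union.1 (hinf.mono hsub) with h | h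
    · obtain ⟨q, h1, h2⟩ := ih _ (hltsup A hAI) (isHomog_sup hI hA) h
      exact ⟨q, le_sup_left.trans h1, h2⟩
    · obtain ⟨q, h1, h2⟩ := ih _ (hltsup C hCI) (isHomog_sup hI hC) h
      exact ⟨q, le_sup_left.trans h1, h2⟩

/-- infinitely many pointed maps have unbounded degrees -/
theorem unbounded_of_inf (hp : Pool.Agent.W603.PV.IsHomog p) {m N : ℕ}
    {s : Fin N → SymDiff p m} (hs : Gens p m s) (hm : 1 ≤ m) {L : Type} [Field L] [Algebra ℂ L]
    [IsFF ℂ L] {c : Place ℂ L} {x : Fin (n + 1) → ℂ} {q : Ideal (MvPolynomial (Fin (n + 1)) ℂ)}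
    (hpq : p ≤ q) (hq : Pool.Agent.W603.PV.IsHomog q) (hx0 : x ≠ 0)
    (hinf : (PMaps q c x).Infinite) (D : ℤ) :
    ∃ f : Fin (n + 1) → L, f ≠ 0 ∧ (∀ H ∈ q, aeval f H = 0) ∧ HasValue c x f ∧ D < pht ℂ f := by
  by_contra hcon
  push Not at hcon
  obtain ⟨I, hqI, hI, hIp, hinf'⟩ := exists_prime_inf q hq hinf
  obtain ⟨φ, f0, hf0, hf01, hf02, -⟩ := hinf'.nonempty
  have hxI : x ∈ Pts I := pts_of_value hI hx0 hf0 hf02 hf01
  obtain ⟨j, hj⟩ : ∃ j, X j ∉ I := by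
    by_contra hX
    push Not at hX
    apply hf0
    funext j
    have h1 := hf01 _ (hX j)
    rwa [aeval_X] at h1
  obtain ⟨K, i1, i2, w, y, hy0, hyg, hyd, hyf⟩ := exists_funField hIp hj
  have hmem : ∀ {F : Type} [Field F] [Algebra ℂ F] {f : Fin (n + 1) → F}, OnVar ℂ y f →
      ∀ H ∈ I, aeval f H = 0 := by
    intro F _ _ f hf
    exact H7aux_forms hI fun H hH hd => hf.2 H hd ((hyf H hd).2 hH)
  have hxV : x ∈ VarPts ℂ y := by
    refine ⟨hx0, fun G hG h => ?_⟩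
    have h1 := hxI.2 G ((hyf G hG).1 h)
    change aeval x G = 0
    rwa [aeval_eq_eval]
  have hPM : PMaps I c x ⊆ PointedMaps y c x := by
    rintro φ ⟨f, hf, h1, h2, h3⟩
    exact ⟨f, hf, fun H hH h => h1 H ((hyf H hH).1 h), h2, h3⟩
  rcases Pool.Agent.H916.finite_or_rat (x := y) (c := c) hxV D (fun f hf hv =>
      hcon f (Function.ne_iff.2 hf.1) (fun H hH => hmem hf H (hqI hH)) hv) with h | ⟨g, hg, -, hpos⟩
  · exact hinf' (h.subset hPM)
  · have h1 := no_rat hp hs hm ⟨(RatFunc.X : RatFunc ℂ), RatFunc.adjoin_X⟩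
      (Function.ne_iff.2 hg.1) (fun H hH => hmem hg H (hqI (hpq hH)))
    omega

/-- **The algebraic notions of hyperbolicity.** -/
theorem tfae_alg (hp : Pool.Agent.W603.PV.IsHomog p) {m N : ℕ}
    {s : Fin N → SymDiff p m} (hs : Gens p m s) (hm : 1 ≤ m) :
    List.TFAE [∀ (K : Type) [Field K] [Algebra ℂ K] (w : ℕ) (y : Fin (n + 1) → K),
        SubVar p K w y → GeneralType ℂ K w,
      ¬ ∃ f, EntCurve p f,
      ∀ f, PuncCurve p f → Extends f,
      ¬ ∃ g Λ f, AbMap p g Λ f,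
      LinBound p 1, Bounded p 1, PointedFin p 1] := by
  have h0 := tfae_hyp hp hs hm
  have hone : ∀ {F : Type} [Field F] [Algebra ℂ F] (x : Fin (n + 1) → F),
      aeval x (1 : MvPolynomial (Fin (n + 1)) ℂ) ≠ 0 := by
    intro F _ _ x
    rw [map_one]
    exact one_ne_zero
  have h1' : ∃ d, (1 : MvPolynomial (Fin (n + 1)) ℂ).IsHomogeneous d := ⟨0, isHomogeneous_one _ _⟩
  tfae_have 1 ↔ 2 := h0.out 0 1
  tfae_have 1 ↔ 3 := h0.out 0 2
  tfae_have 1 ↔ 4 := h0.out 0 3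
  tfae_have 1 → 5 := by
    intro h
    obtain ⟨B, hB⟩ := curve_bound_all hs hm p le_rfl hp
    refine ⟨B, fun F _ _ _ x hx hX _ => ?_⟩
    rcases hB F x hx hX with h2 | ⟨q, hpq, hq, ⟨K, i1, i2, w, y, hw, hy, hf, hngt⟩, h3⟩
    · exact h2
    · exact absurd (h K w y ⟨hy.ne, fun H hH => hy.mem H (hpq hH), hy.gen, hy.dim⟩) hngt
  tfae_have 5 → 6 := by
    rintro ⟨B, hB⟩ F _ _ _
    exact ⟨B * max (canDeg ℂ F) 0, fun x hx hX hG => hB F x hx hX hG⟩
  tfae_have 1 → 7 := by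
    intro h F _ _ _ c x hx _
    refine pointed_finite hp hs hm c ?_ p le_rfl hp hx
    intro hSp
    refine absurd (hSp.2 1 h1' fun K _ _ w y hw hy hngt => absurd (h K w y hy) hngt) ?_
    rw [map_one]
    exact one_ne_zero
  have key : (¬ ∃ g Λ f, AbMap p g Λ f) ∨ ∃ (F : Type) (_ : Field F) (_ : Algebra ℂ F)
      (_ : IsFF ℂ F) (c : Place ℂ F) (x : Fin (n + 1) → ℂ), x ∈ Pts p ∧
        (PMaps p c x).Infinite := by
    by_cases h : ∃ g Λ f, AbMap p g Λ f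
    · obtain ⟨g, Λ, f, hf⟩ := h
      obtain ⟨F, i1, i2, i3, c, x, hx, -, hinf⟩ := ab_pointed hp hf h1' ⟨0, by
        rw [map_one]
        exact one_ne_zero⟩
      exact Or.inr ⟨F, i1, i2, i3, c, x, hx, hinf⟩
    · exact Or.inl h
  tfae_have 6 → 4 := by
    intro h
    rcases key with h1 | ⟨F, i1, i2, i3, c, x, hx, hinf⟩
    · exact h1
    · obtain ⟨D, hD⟩ := h F
      obtain ⟨f, hf, hf1, -, hf2⟩ := unbounded_of_inf hp hs hm le_rfl hp hx.1 hinf D
      exact absurd (hD f hf hf1 (hone f)) (not_le.2 hf2)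
  tfae_have 7 → 4 := by
    intro h
    rcases key with h1 | ⟨F, i1, i2, i3, c, x, hx, hinf⟩
    · exact h1
    · exact absurd (h F c x hx (by
        rw [map_one]
        exact one_ne_zero)) hinf
  tfae_finish

/-- **The pseudo-notions of hyperbolicity.** -/
theorem tfae_pseudo (hpp : p.IsPrime) (hp : Pool.Agent.W603.PV.IsHomog p) {m N : ℕ}
    {s : Fin N → SymDiff p m} (hs : Gens p m s) (hm : 1 ≤ m) {K : Type} [Field K] [Algebra ℂ K]
    {w : ℕ} {y : Fin (n + 1) → K} (hy : SubVar p K w y)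
    (hf : ∀ H : MvPolynomial (Fin (n + 1)) ℂ, (∃ d, H.IsHomogeneous d) → aeval y H = 0 → H ∈ p) :
    List.TFAE [GeneralType ℂ K w,
      ∃ G : MvPolynomial (Fin (n + 1)) ℂ, (∃ d, G.IsHomogeneous d) ∧ G ∉ p ∧
        ∀ f, EntCurve p f → ∀ z, eval (f z) G = 0,
      ∃ G : MvPolynomial (Fin (n + 1)) ℂ, (∃ d, G.IsHomogeneous d) ∧ G ∉ p ∧
        ∀ g Λ f, AbMap p g Λ f → ∀ z, eval (f z) G = 0,
      ∃ G : MvPolynomial (Fin (n + 1)) ℂ, (∃ d, G.IsHomogeneous d) ∧ G ∉ p ∧ LinBound p G,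
      ∃ G : MvPolynomial (Fin (n + 1)) ℂ, (∃ d, G.IsHomogeneous d) ∧ G ∉ p ∧ Bounded p G,
      ∃ G : MvPolynomial (Fin (n + 1)) ℂ, (∃ d, G.IsHomogeneous d) ∧ G ∉ p ∧ PointedFin p G] := by
  have hT := tfae_gt hpp hp hs hm hy hf
  have hab : ¬ GeneralType ℂ K w → ∀ G : MvPolynomial (Fin (n + 1)) ℂ, (∃ d, G.IsHomogeneous d) →
      G ∉ p → ∃ g Λ f, AbMap p g Λ f ∧ ∃ z, eval (f z) G ≠ 0 := by
    intro hngt G hG hGp
    have h1 : SpH p = Pts p := by
      by_contra h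
      exact hngt ((hT.out 0 3).2 h)
    obtain ⟨j, hj⟩ := X_notMem hy
    obtain ⟨x, hx, hxG⟩ := exists_pt hpp hj hGp
    rw [← h1] at hx
    obtain ⟨f, hfE, z, hz⟩ : ∃ f, EntCurve p f ∧ ∃ z, eval (f z) G ≠ 0 := by
      by_contra hcon
      push Not at hcon
      exact hxG (hx.2 G hG hcon)
    obtain ⟨g, Λ, θ, h2, -, h3⟩ := ab_dense_of_curve hp hs hm hfE hG ⟨z, hz⟩
    exact ⟨g, Λ, θ, h2, h3⟩
  have hex : GeneralType ℂ K w → ∃ G : MvPolynomial (Fin (n + 1)) ℂ, (∃ d, G.IsHomogeneous d) ∧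
      G ∉ p ∧ ∀ x ∈ Pts p, eval x G ≠ 0 → x ∉ SpAlg p := by
    intro hGT
    obtain ⟨G, hG, hGp, hGV⟩ := exists_form hpp hp hs hm (funField_of hy hf) hGT
    exact ⟨G, hG, hGp, fun x _ hxG hSp => hxG (hSp.2 G hG fun F _ _ d x hd hx hngt =>
      hGV F d x hd hx.ne hx.mem hx.gen hx.dim hngt)⟩
  tfae_have 1 → 2 := by
    intro hGT
    obtain ⟨G, hG, hGp, hGS⟩ := hex hGT
    refine ⟨G, hG, hGp, fun f hfE z => ?_⟩
    by_contra hz
    refine hGS _ (hfE.2.1 z) hz ?_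
    rw [← (sp_eq hp hs hm).2]
    exact ⟨hfE.2.1 z, fun H _ h => h f hfE z⟩
  tfae_have 2 → 1 := by
    rintro ⟨G, hG, hGp, h⟩
    refine (hT.out 0 3).2 fun heq => ?_
    obtain ⟨j, hj⟩ := X_notMem hy
    obtain ⟨x, hx, hxG⟩ := exists_pt hpp hj hGp
    rw [← heq] at hx
    exact hxG (hx.2 G hG h)
  tfae_have 3 → 1 := by
    rintro ⟨G, hG, hGp, h⟩
    by_contra hngt
    obtain ⟨g, Λ, f, h1, z, h2⟩ := hab hngt G hG hGp
    exact h2 (h g Λ f h1 z)
  tfae_have 1 → 3 := by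
    intro hGT
    obtain ⟨G, hG, hGp, hGS⟩ := hex hGT
    refine ⟨G, hG, hGp, fun g Λ f hfA z => ?_⟩
    by_contra hz
    refine hGS _ (hfA.2.2.2.1 z) hz ?_
    rw [← (spAb_eq hp hs hm).1]
    exact ⟨hfA.2.2.2.1 z, fun H _ h => h g Λ f hfA.1 hfA.2.1 hfA.2.2.1 hfA.2.2.2.1 hfA.2.2.2.2 z⟩
  tfae_have 1 → 4 := by
    intro hGT
    obtain ⟨G, hG, hGp, B, hB⟩ := curve_bound hpp hp hs hm (funField_of hy hf) hGT
    exact ⟨G, hG, hGp, B, fun F _ _ _ x hx hX hxG => hB F x hx hX hxG⟩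
  tfae_have 4 → 5 := by
    rintro ⟨G, hG, hGp, B, hB⟩
    exact ⟨G, hG, hGp, fun F _ _ _ => ⟨B * max (canDeg ℂ F) 0, fun x hx hX hxG =>
      hB F x hx hX hxG⟩⟩
  tfae_have 1 → 6 := by
    intro hGT
    obtain ⟨G, hG, hGp, hGS⟩ := hex hGT
    exact ⟨G, hG, hGp, fun F _ _ _ c x hx hxG =>
      pointed_finite hp hs hm c (hGS x hx hxG) p le_rfl hp hx⟩
  tfae_have 5 → 1 := by
    rintro ⟨G, hG, hGp, h⟩
    by_contra hngt
    obtain ⟨g, Λ, f, h1, h2⟩ := hab hngt G hG hGp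
    obtain ⟨F, i1, i2, i3, c, x, hx, hxG, hinf⟩ := ab_pointed hp h1 hG h2
    obtain ⟨D, hD⟩ := h F
    obtain ⟨f, hf, hf1, hfv, hf2⟩ := unbounded_of_inf hp hs hm le_rfl hp hx.1 hinf D
    refine absurd (hD f hf hf1 ?_) (not_le.2 hf2)
    refine Pool.Agent.H916.value_ne hx.1 (Function.ne_iff.1 hf) hfv hG ?_
    change aeval x G ≠ 0
    rwa [aeval_eq_eval]
  tfae_have 6 → 1 := by
    rintro ⟨G, hG, hGp, h⟩
    by_contra hngt
    obtain ⟨g, Λ, f, h1, h2⟩ := hab hngt G hG hGp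
    obtain ⟨F, i1, i2, i3, c, x, hx, hxG, hinf⟩ := ab_pointed hp h1 hG h2
    exact hinf (h F c x hx hxG)
  tfae_finish

end Pool.Agent.H917
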