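import Pool.Agent.H917.G.W3

/-!
Demailly's algebraic hyperbolicity.
-/

set_option autoImplicit false
set_option linter.overlappingInstances false
set_option linter.unusedSectionVars false

open MvPolynomial Metric Set FF Pool.Agent.W603.LV Pool.Agent.W603.PV
open Pool.Agent.W602.GT (IsForm GeneralType val VarPts)

namespace Pool.Agent.H917

variable {n : ℕ} {p : Ideal (MvPolynomial (Fin (n + 1)) ℂ)}

/-- Algebraic hyperbolicity (Demailly) of the projective variety with the ideal `p`: there is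
`ε > 0` such that `2 g - 2 ≥ ε deg f` for every nonconstant morphism `f` from a smooth projective
curve of genus `g` to the variety. -/
def AlgHyperbolic (p : Ideal (MvPolynomial (Fin (n + 1)) ℂ)) : Prop :=
  ∃ ε : ℝ, 0 < ε ∧ ∀ (F : Type) [Field F] [Algebra ℂ F] [IsFF ℂ F] (f : Fin (n + 1) → F),
    (∀ H ∈ p, aeval f H = 0) → (∃ i j, f j ≠ 0 ∧ ∀ c : ℂ, f i / f j ≠ algebraMap ℂ F c) →
      ε * (pht ℂ f : ℝ) ≤ (canDeg ℂ F : ℝ)

theorem linBound_iff : LinBound p 1 ↔ AlgHyperbolic p := by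
  have hone : ∀ {F : Type} [Field F] [Algebra ℂ F] (x : Fin (n + 1) → F),
      aeval x (1 : MvPolynomial (Fin (n + 1)) ℂ) ≠ 0 := by
    intro F _ _ x
    rw [map_one]
    exact one_ne_zero
  have hpos : ∀ {F : Type} [Field F] [Algebra ℂ F] [IsFF ℂ F] {f : Fin (n + 1) → F},
      (∃ i j, f j ≠ 0 ∧ ∀ c : ℂ, f i / f j ≠ algebraMap ℂ F c) → 0 < pht ℂ f := by
    intro F _ _ _ f hf
    obtain ⟨i, j, hj, hij⟩ := hf
    by_contra hle
    push Not at hle
    have hi : f i ≠ 0 := by
      intro h0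
      apply hij 0
      rw [h0, zero_div, map_zero]
    have h1 := (Pool.Agent.W603.CX.hgt_le_pht (k := ℂ) f hi hj).trans hle
    obtain ⟨c, hc⟩ := const_of_hgt h1
    exact hij c hc
  constructor
  · rintro ⟨B, hB⟩
    refine ⟨1 / ((B : ℝ) + 1), by positivity, fun F _ _ _ f hX hf => ?_⟩
    have h0 := hpos hf
    obtain ⟨i, j, hj, hij⟩ := hf
    have h1 := hB F f (Function.ne_iff.2 ⟨j, hj⟩) hX (hone f)
    have h2 : 0 < canDeg ℂ F := by
      by_contra hle
      push Not at hle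
      rw [max_eq_right hle, mul_zero] at h1
      omega
    rw [max_eq_left h2.le] at h1
    have h3 : (pht ℂ f : ℝ) ≤ B * (canDeg ℂ F : ℝ) := by exact_mod_cast h1
    have h4 : (0 : ℝ) < canDeg ℂ F := by exact_mod_cast h2
    rw [div_mul_eq_mul_div, one_mul, div_le_iff₀ (by positivity)]
    nlinarith
  · rintro ⟨ε, hε, h⟩
    obtain ⟨B, hB⟩ := exists_nat_gt (1 / ε)
    refine ⟨B, fun F _ _ _ f hf hX _ => ?_⟩
    obtain ⟨j, hj⟩ := Function.ne_iff.1 hf
    by_cases hc : ∃ i j, f j ≠ 0 ∧ ∀ c : ℂ, f i / f j ≠ algebraMap ℂ F c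
    · have h1 := h F f hX hc
      have h0 := hpos hc
      have h0' : (0 : ℝ) < pht ℂ f := by exact_mod_cast h0
      have h2 : (0 : ℝ) < canDeg ℂ F := lt_of_lt_of_le (by positivity) h1
      have h2' : 0 < canDeg ℂ F := by exact_mod_cast h2
      rw [max_eq_left h2'.le]
      have h3 : (pht ℂ f : ℝ) ≤ B * (canDeg ℂ F : ℝ) := by
        have h4 : 1 < (B : ℝ) * ε := by
          rw [div_lt_iff₀ hε] at hB
          exact hB
        have h5 : (pht ℂ f : ℝ) ≤ (B * ε) * pht ℂ f := by nlinarith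
        have h6 : (B : ℝ) * (ε * pht ℂ f) ≤ B * canDeg ℂ F :=
          mul_le_mul_of_nonneg_left h1 (Nat.cast_nonneg B)
        linarith [mul_assoc (B : ℝ) ε (pht ℂ f)]
      exact_mod_cast h3
    · push Not at hc
      exact (pht_const hj fun i => hc i j hj).trans (by positivity)

end Pool.Agent.H917
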