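import Pool.Agent.H917.G.W4
import Pool.Agent.H916.FDefs
import Pool.Graph.R_seed8.W619.TW.Hyp

/-!
The four notions of MP_6f117a_ag.
-/

set_option autoImplicit false
set_option linter.overlappingInstances false
set_option linter.unusedSectionVars false

open MvPolynomial Metric Set FF Pool.Agent.W603.LV Pool.Agent.W603.PV
open Pool.Agent.W602.GT (IsForm GeneralType val VarPts)
open Pool.Agent.H916 (genus)

namespace Pool.Agent.H917

variable {n : ℕ} {p : Ideal (MvPolynomial (Fin (n + 1)) ℂ)}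

/-- Algebraic hyperbolicity of the projective variety with the ideal `p`: there is `α` such that
`deg f^* O(1) ≤ α g` for every morphism `f` from a smooth projective curve of genus `g`. -/
def GenusBound (p : Ideal (MvPolynomial (Fin (n + 1)) ℂ)) : Prop :=
  ∃ α : ℝ, ∀ (F : Type) [Field F] [Algebra ℂ F] [IsFF ℂ F] (f : Fin (n + 1) → F), f ≠ 0 →
    (∀ H ∈ p, aeval f H = 0) → (pht ℂ f : ℝ) ≤ α * genus ℂ F

/-- Boundedness, for maps from curves: for every smooth projective curve `C`, the degrees of the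
morphisms from `C` to the projective variety with the ideal `p` are bounded. -/
def CurveBounded (p : Ideal (MvPolynomial (Fin (n + 1)) ℂ)) : Prop :=
  ∀ (F : Type) [Field F] [Algebra ℂ F] [IsFF ℂ F], ∃ B : ℤ, ∀ f : Fin (n + 1) → F, f ≠ 0 →
    (∀ H ∈ p, aeval f H = 0) → pht ℂ f ≤ B

/-- Grouplessness of the projective variety with the ideal `p`: every holomorphic map from an abelian
variety and every morphism from the projective line to it are constant (a morphism from the
multiplicative or the additive group extends to the projective line). -/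
def Groupless (p : Ideal (MvPolynomial (Fin (n + 1)) ℂ)) : Prop :=
  (¬ ∃ g Λ f, AbMap p g Λ f) ∧ ∀ f : Fin (n + 1) → RatFunc ℂ, (∀ H ∈ p, aeval f H = 0) →
    ∀ i j, f j ≠ 0 → ∃ c : ℂ, f i / f j = algebraMap ℂ (RatFunc ℂ) c

theorem canDeg_ge {F : Type} [Field F] [Algebra ℂ F] [IsFF ℂ F] : -2 ≤ canDeg ℂ F := by
  by_cases h : ∃ t : F, IntermediateField.adjoin ℂ {t} = ⊤
  · obtain ⟨t, ht⟩ := h
    rw [Pool.Agent.W619.PQ.canDeg_rational ht]
  · have := Pool.Agent.W619.TW.canDeg_nonneg h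
    omega

theorem const_of_pht {F : Type} [Field F] [Algebra ℂ F] [IsFF ℂ F] {f : Fin (n + 1) → F}
    (h : pht ℂ f ≤ 0) (i : Fin (n + 1)) {j : Fin (n + 1)} (hj : f j ≠ 0) :
    ∃ c : ℂ, f i / f j = algebraMap ℂ F c := by
  by_cases hi : f i = 0
  · exact ⟨0, by rw [hi, zero_div, map_zero]⟩
  · exact const_of_hgt ((Pool.Agent.W603.CX.hgt_le_pht (k := ℂ) f hi hj).trans h)

theorem tfae_four (hp : Pool.Agent.W603.PV.IsHomog p) {m N : ℕ}
    {s : Fin N → SymDiff p m} (hs : Gens p m s) (hm : 1 ≤ m) :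
    List.TFAE [GenusBound p, CurveBounded p, Groupless p,
      ∀ (K : Type) [Field K] [Algebra ℂ K] (w : ℕ) (y : Fin (n + 1) → K),
        SubVar p K w y → GeneralType ℂ K w] := by
  have h0 := tfae_alg hp hs hm
  have hone : ∀ {F : Type} [Field F] [Algebra ℂ F] (x : Fin (n + 1) → F),
      aeval x (1 : MvPolynomial (Fin (n + 1)) ℂ) ≠ 0 := by
    intro F _ _ x
    rw [map_one]
    exact one_ne_zero
  have h5 : LinBound p 1 → GenusBound p := by
    rintro ⟨B, hB⟩
    refine ⟨2 * B, fun F _ _ _ f hf hX => ?_⟩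
    have h1 := hB F f hf hX (hone f)
    have h2 := canDeg_ge (F := F)
    have h3 : (pht ℂ f : ℝ) ≤ B * (max (canDeg ℂ F) 0 : ℤ) := by exact_mod_cast h1
    have h4 : ((max (canDeg ℂ F) 0 : ℤ) : ℝ) ≤ canDeg ℂ F + 2 := by
      have : max (canDeg ℂ F) 0 ≤ canDeg ℂ F + 2 := by omega
      exact_mod_cast this
    refine h3.trans ?_
    unfold genus
    have h6 : (0 : ℝ) ≤ B := Nat.cast_nonneg B
    have h7 := mul_le_mul_of_nonneg_left h4 h6
    linarith
  have h6 : GenusBound p → CurveBounded p := by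
    rintro ⟨α, hα⟩ F _ _ _
    exact ⟨⌊α * genus ℂ F⌋, fun f hf hX => Int.le_floor.2 (hα F f hf hX)⟩
  have h7 : CurveBounded p → Bounded p 1 := by
    intro h F _ _ _
    obtain ⟨B, hB⟩ := h F
    exact ⟨B, fun f hf hX _ => hB f hf hX⟩
  tfae_have 4 → 1 := fun h => h5 ((h0.out 0 4).1 h)
  tfae_have 1 → 2 := h6
  tfae_have 2 → 4 := fun h => (h0.out 0 5).2 (h7 h)
  tfae_have 4 → 3 := by
    intro h
    refine ⟨(h0.out 0 3).1 h, fun f hX i j hj => ?_⟩
    exact const_of_pht (no_rat hp hs hm ⟨(RatFunc.X : RatFunc ℂ), RatFunc.adjoin_X⟩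
      (Function.ne_iff.2 ⟨j, hj⟩) hX) i hj
  tfae_have 3 → 4 := fun h => (h0.out 0 3).2 h.1
  tfae_finish

end Pool.Agent.H917
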